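import Pool.Agent.Lib.H93.WordDefs

/-!
Boolean conditions on the certificate data (chains of certified points, arcs, weights), used by
`Main.lean`; the facts about the actual data are in `CertData.lean`.
-/

namespace Pool.Agent.H93

/-- total weight, scale `2^40` -/
def Word.total (W : Word) : ℕ := (W.cols.map Col.mu).sum + W.nu.sum

/-- numerators (scale `2^40`) of upper bounds for `tA m`, `tB 0 m`, `m = 16..40`. -/
def tAz (m : ℕ) : ℕ := (43 * 2 ^ 40 * 5613 ^ m) / (10 * 10000 ^ m) + 1 +
  (2 * 2 ^ 40 * 49 ^ (m - 16)) / (100000 * 100 ^ (m - 16)) + 1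

def tBz (b m : ℕ) : ℕ :=
  if b = 0 then (63 * 2 ^ 40 * 5613 ^ m) / (10 * 10000 ^ m) + 1 +
    (2 ^ 40 * 49 ^ (m - 16)) / (10000 * 100 ^ (m - 16)) + 1
  else (205 * 2 ^ 40 * 5613 ^ m) / (100 * 10000 ^ m) + 1

/-- upper bound (scale `2^40`) of the certified value at a point:
`total (1 + tA) + tB + 1e-10` -/
def Word.val (W : Word) : ℕ :=
  W.total + (W.total * tAz W.m) / 2 ^ 40 + 1 + tBz W.node W.m + 110

/-- arc condition for two consecutive points of node `b`:
`val + (8.2 or 7.6) (Q/P)² ≤ 1` at both ends. -/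
def arcOK (b : ℕ) (W W' : Word) : Bool :=
  let P := (relPQ W.z W'.z).1
  let Q := (relPQ W.z W'.z).2
  let κ : ℤ := if b = 0 then 76 else 82
  (0 < P) && (0 < Q) && (12 * Q < P) &&
    (((max W.val W'.val : ℕ) : ℤ) * (10 * P ^ 2) + κ * Q ^ 2 * 2 ^ 40 ≤ 2 ^ 40 * (10 * P ^ 2))

def arcsOK (b : ℕ) : List Word → Bool
  | W :: W' :: l => arcOK b W W' && arcsOK b (W' :: l)
  | _ => true

/-- well-formedness of the points of a chain -/
def wordsOK (b : ℕ) (l : List Word) : Bool :=
  l.all fun W => (W.node == b) && (16 ≤ W.m) && (W.m ≤ 40) && (b == 0 || W.m == 16) &&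
    (W.z != (0, 0)) && (W.cols.all fun c => (c.nd < 5) && (c.u != (0, 0)))

/-- closing condition of the chains of the nodes `1..4`: at least two words, and the last point is
a multiple of the first one (for instance `(-p, -q)` or `(p, q)`). -/
def closedOK : List Word → Bool
  | W :: W' :: l => let Z := ((W' :: l).getLast (List.cons_ne_nil _ _)).z
    W.z.1 * Z.2 - W.z.2 * Z.1 == 0
  | _ => false

/-- end points of the chain of node `0`: it starts at `(p, q)` and ends at `(-p, q)`, where
`0 < 6600 q ≤ p`. -/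
def openOK : List Word → Bool
  | [] => false
  | W :: l => let Z := ((W :: l).getLast (List.cons_ne_nil _ _)).z
    (0 < W.z.2) && (6600 * W.z.2 ≤ W.z.1) && (Z.1 == -W.z.1) && (Z.2 == W.z.2)

/-- total weight, scale `2^40` -/
def RWord.total (W : RWord) : ℕ := (W.cols.map Col.mu).sum + W.nu.sum

/-- upper bound (scale `2^40`) of `total (1 + tA) + 1e-10` -/
def RWord.val (W : RWord) : ℕ := W.total + (W.total * tAz W.m) / 2 ^ 40 + 1 + 110

/-- well-formedness of the rank one word: `m = 16`, `|f_j / 2^40 - rHat^(j+1)| ≤ 2^(-39)`. -/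
def coordOK (W : RWord) : Bool :=
  (W.m == 16) && (W.cols.all fun c => (c.nd < 5) && (c.u != (0, 0))) &&
  ((List.range 16).all fun j =>
    (W.f.getD j 0 * 10 ^ (26 * (j + 1)) -
      56122876296288214325405844 ^ (j + 1) * 2 ^ 40).natAbs ≤ 2 * 10 ^ (26 * (j + 1)))

end Pool.Agent.H93
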