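import Pool.Agent.Lib.H93.Seq

/-!
Chunk G2a + G2b: chord estimate and covering of the circle (pure analysis, no data).
-/

namespace Pool.Agent.H93

open Filter Topology ComplexConjugate

/-- Chord lemma, scalar version: if `f : ℝ → ℂ` is twice differentiable with `‖f''‖ ≤ M` then
between `a` and `b` its distance from any centre is at most the maximum at the end points plus
`M (b-a)^2/8`. (For `α` unimodular `Re (α (f + c)) + M z^2/2` is convex.) -/
theorem chord_scalar {f f' f'' : ℝ → ℂ} (hf : ∀ z, HasDerivAt f (f' z) z)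
    (hf' : ∀ z, HasDerivAt f' (f'' z) z) {M : ℝ} (hM : ∀ z, ‖f'' z‖ ≤ M) {a b : ℝ} (hab : a ≤ b)
    {c : ℂ} {ρ : ℝ} (ha : ‖f a + c‖ ≤ ρ) (hb : ‖f b + c‖ ≤ ρ) :
    ∀ z ∈ Set.Icc a b, ‖f z + c‖ ≤ ρ + M * (b - a) ^ 2 / 8 := by
  intro z hz
  have hM0 : 0 ≤ M := (norm_nonneg _).trans (hM 0)
  have hρ0 : 0 ≤ ρ := (norm_nonneg _).trans ha
  rcases eq_or_ne (f z + c) 0 with h0 | h0
  · rw [h0, norm_zero]
    positivity
  -- the unimodular factor
  obtain ⟨α, hα1, hα2⟩ : ∃ α : ℂ, ‖α‖ = 1 ∧ (α * (f z + c)).re = ‖f z + c‖ := by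
    have hn : ‖f z + c‖ ≠ 0 := norm_ne_zero_iff.mpr h0
    refine ⟨conj (f z + c) / (‖f z + c‖ : ℂ), ?_, ?_⟩
    · rw [norm_div, RCLike.norm_conj, Complex.norm_real, norm_norm, div_self hn]
    · have h1 : conj (f z + c) / (‖f z + c‖ : ℂ) * (f z + c) = (‖f z + c‖ : ℂ) := by
        have hn' : (‖f z + c‖ : ℂ) ≠ 0 := by exact_mod_cast hn
        rw [div_mul_eq_mul_div, Complex.conj_mul', div_eq_iff hn']
        ring
      rw [h1, Complex.ofReal_re]
  have hre : ∀ w : ℂ, ‖w‖ ≤ ρ → (α * w).re ≤ ρ := by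
    intro w hw
    calc (α * w).re ≤ ‖α * w‖ := Complex.re_le_norm _
      _ = ‖w‖ := by rw [norm_mul, hα1, one_mul]
      _ ≤ ρ := hw
  -- derivatives of `Re (α (f + c)) + M z²/2`
  have hg1 : ∀ t, HasDerivAt (fun t : ℝ => (α * (f t + c)).re + M * t ^ 2 / 2)
      ((α * f' t).re + M * t) t := by
    intro t
    have e1 : HasDerivAt (fun t : ℝ => α * (f t + c)) (α * f' t) t :=
      ((hf t).add_const c).const_mul α
    have e2 : HasDerivAt (fun t : ℝ => (α * (f t + c)).re) ((α * f' t).re) t :=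
      Complex.reCLM.hasFDerivAt.comp_hasDerivAt t e1
    have e3 : HasDerivAt (fun t : ℝ => M * t ^ 2 / 2) (M * t) t := by
      have := ((hasDerivAt_pow 2 t).const_mul M).div_const 2
      refine this.congr_deriv ?_
      norm_num
      ring
    exact e2.add e3
  have hg2 : ∀ t, HasDerivAt (fun t : ℝ => (α * f' t).re + M * t) ((α * f'' t).re + M) t := by
    intro t
    have e1 : HasDerivAt (fun t : ℝ => α * f' t) (α * f'' t) t := (hf' t).const_mul α
    have e2 : HasDerivAt (fun t : ℝ => (α * f' t).re) ((α * f'' t).re) t :=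
      Complex.reCLM.hasFDerivAt.comp_hasDerivAt t e1
    have e3 : HasDerivAt (fun t : ℝ => M * t) M t := by
      simpa using (hasDerivAt_id t).const_mul M
    exact e2.add e3
  have hconv : ConvexOn ℝ Set.univ (fun t : ℝ => (α * (f t + c)).re + M * t ^ 2 / 2) := by
    refine convexOn_of_hasDerivWithinAt2_nonneg convex_univ
      (f' := fun t => (α * f' t).re + M * t) (f'' := fun t => (α * f'' t).re + M) ?_ ?_ ?_ ?_
    · exact fun t _ => (hg1 t).continuousAt.continuousWithinAt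
    · exact fun t _ => (hg1 t).hasDerivWithinAt
    · exact fun t _ => (hg2 t).hasDerivWithinAt
    · intro t _
      have h1 : |(α * f'' t).re| ≤ ‖α * f'' t‖ := Complex.abs_re_le_norm _
      rw [norm_mul, hα1, one_mul] at h1
      have h2 := hM t
      have h3 := neg_abs_le (α * f'' t).re
      linarith
  -- write `z` as a convex combination
  rcases eq_or_lt_of_le hab with hab' | hab'
  · have hza : z = a := le_antisymm (hz.2.trans hab'.symm.le) hz.1
    rw [hza]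
    have : 0 ≤ M * (b - a) ^ 2 / 8 := by positivity
    linarith
  set l : ℝ := (z - a) / (b - a) with hl
  have hba : 0 < b - a := sub_pos.mpr hab'
  have hl0 : 0 ≤ l := div_nonneg (sub_nonneg.mpr hz.1) hba.le
  have hl1 : l ≤ 1 := by
    rw [hl, div_le_one hba]
    linarith [hz.2]
  have hzl : z = (1 - l) * a + l * b := by
    rw [hl]
    field_simp
    ring
  have hc := hconv.2 (Set.mem_univ a) (Set.mem_univ b) (sub_nonneg.mpr hl1) hl0 (by ring)
  simp only [smul_eq_mul] at hc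
  rw [← hzl] at hc
  rw [hα2] at hc
  have h1 := hre _ ha
  have h2 := hre _ hb
  have h3 : (1 - l) * ((α * (f a + c)).re) ≤ (1 - l) * ρ :=
    mul_le_mul_of_nonneg_left h1 (sub_nonneg.mpr hl1)
  have h4 : l * ((α * (f b + c)).re) ≤ l * ρ := mul_le_mul_of_nonneg_left h2 hl0
  have h5 : (1 - l) * (M * a ^ 2 / 2) + l * (M * b ^ 2 / 2) - M * z ^ 2 / 2 =
      M * (b - a) ^ 2 / 8 * (4 * (l * (1 - l))) := by
    rw [hzl]
    ring
  have h6 : 4 * (l * (1 - l)) ≤ 1 := by nlinarith [sq_nonneg (2 * l - 1)]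
  have h7 : M * (b - a) ^ 2 / 8 * (4 * (l * (1 - l))) ≤ M * (b - a) ^ 2 / 8 := by
    have : 0 ≤ M * (b - a) ^ 2 / 8 := by positivity
    nlinarith
  nlinarith

/-- the second derivative functional of `z ↦ top (r e^{iz}) x` at `z = 0` -/
noncomputable def g2f (r : ℝ) (x : ℕ → ℂ) : ℂ := ∑' j : ℕ, ((j : ℂ) + 1) ^ 2 * (r : ℂ) ^ (j + 1) * x j

theorem summable_succ_pow_mul {r : ℝ} (hr0 : 0 < r) (hr1 : r < 1) (k : ℕ) (C : ℝ) :
    Summable fun j : ℕ => C * (((j : ℝ) + 1) ^ k * r ^ (j + 1)) := by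
  have h := summable_pow_mul_geometric_of_norm_lt_one (R := ℝ) k (r := r)
    (by rw [Real.norm_of_nonneg hr0.le]; exact hr1)
  have h2 := (summable_nat_add_iff 1).mpr h
  refine Summable.mul_left C ?_
  refine h2.congr fun j => ?_
  push_cast
  ring

/-- derivatives of `τ ↦ ∑ i^k (j+1)^k (r ζ)^{j+1} e^{i (j+1) τ} x_j` -/
theorem hasDerivAt_topSeries {r : ℝ} (hr0 : 0 < r) (hr1 : r < 1) {ζ : ℂ} (hζ : ‖ζ‖ = 1)
    {x : ℕ → ℂ} (hx : Bdd x) (k : ℕ) (τ : ℝ) :
    HasDerivAt (fun τ : ℝ => ∑' j : ℕ, (Complex.I * ((j : ℂ) + 1)) ^ k *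
        (((r : ℂ) * ζ) ^ (j + 1) * Complex.exp (((j : ℂ) + 1) * τ * Complex.I) * x j))
      (∑' j : ℕ, (Complex.I * ((j : ℂ) + 1)) ^ (k + 1) *
        (((r : ℂ) * ζ) ^ (j + 1) * Complex.exp (((j : ℂ) + 1) * τ * Complex.I) * x j)) τ := by
  obtain ⟨C, hC⟩ := hx
  have hC0 : 0 ≤ C := (norm_nonneg _).trans (hC 0)
  have hnorm : ∀ (k j : ℕ) (τ : ℝ), ‖(Complex.I * ((j : ℂ) + 1)) ^ k *
      (((r : ℂ) * ζ) ^ (j + 1) * Complex.exp (((j : ℂ) + 1) * τ * Complex.I) * x j)‖ ≤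
      C * (((j : ℝ) + 1) ^ k * r ^ (j + 1)) := by
    intro k j τ
    have e1 : ‖Complex.exp (((j : ℂ) + 1) * τ * Complex.I)‖ = 1 := by
      have : ((j : ℂ) + 1) * τ = (((j : ℝ) + 1) * τ : ℝ) := by push_cast; ring
      rw [this, Complex.norm_exp_ofReal_mul_I]
    have e2 : ‖Complex.I * ((j : ℂ) + 1)‖ = (j : ℝ) + 1 := by
      rw [norm_mul, Complex.norm_I, one_mul]
      have : ((j : ℂ) + 1) = ((j : ℝ) + 1 : ℝ) := by push_cast; ring
      rw [this, Complex.norm_real, Real.norm_of_nonneg (by positivity)]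
    have e3 : ‖(r : ℂ) * ζ‖ = r := by
      rw [norm_mul, hζ, mul_one, Complex.norm_real, Real.norm_of_nonneg hr0.le]
    rw [norm_mul, norm_mul, norm_mul, norm_pow, norm_pow, e1, e2, e3, mul_one]
    have h1 : r ^ (j + 1) * ‖x j‖ ≤ r ^ (j + 1) * C :=
      mul_le_mul_of_nonneg_left (hC j) (by positivity)
    calc ((j : ℝ) + 1) ^ k * (r ^ (j + 1) * ‖x j‖)
        ≤ ((j : ℝ) + 1) ^ k * (r ^ (j + 1) * C) :=
          mul_le_mul_of_nonneg_left h1 (by positivity)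
      _ = _ := by ring
  refine hasDerivAt_tsum (u := fun j : ℕ => C * (((j : ℝ) + 1) ^ (k + 1) * r ^ (j + 1)))
    (summable_succ_pow_mul hr0 hr1 (k + 1) C) ?_ (fun j τ => hnorm (k + 1) j τ) (y₀ := 0) ?_ τ
  · intro j t
    have e1 : HasDerivAt (fun t : ℝ => ((j : ℂ) + 1) * (t : ℂ) * Complex.I)
        (((j : ℂ) + 1) * 1 * Complex.I) t :=
      ((Complex.ofRealCLM.hasDerivAt (x := t)).const_mul ((j : ℂ) + 1)).mul_const Complex.I
    have e2 := e1.cexp
    have e3 := ((e2.const_mul (((r : ℂ) * ζ) ^ (j + 1))).mul_const (x j)).const_mul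
      ((Complex.I * ((j : ℂ) + 1)) ^ k)
    refine e3.congr_deriv ?_
    rw [pow_succ]
    ring
  · exact Summable.of_norm_bounded (summable_succ_pow_mul hr0 hr1 k C) fun j => hnorm k j 0

theorem bdd_stepA {r : ℝ} {q ζ : ℂ} (hq : ‖q‖ = 1) {x : ℕ → ℂ} (hx : Bdd x) :
    Bdd (stepA r q ζ x) := by
  obtain ⟨C, hC⟩ := hx
  refine ⟨max C ‖top ((r : ℂ) * ζ) x‖, fun j => ?_⟩
  unfold stepA rot
  rw [norm_mul, norm_pow, norm_inv, hq, inv_one, one_pow, one_mul]
  rcases j with _ | j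
  · exact le_max_right _ _
  · exact (hC j).trans (le_max_left _ _)

theorem stepA_eq_update (r : ℝ) (q ζ ζ' : ℂ) (x : ℕ → ℂ) :
    stepA r q ζ' x = Function.update (stepA r q ζ x) 0 (top ((r : ℂ) * ζ') x) := by
  funext j
  rcases j with _ | j
  · rw [Function.update_self]
    unfold stepA rot stepG
    simp
  · rw [Function.update_of_ne (Nat.succ_ne_zero j)]
    unfold stepA rot stepG
    rfl

/-- Chord lemma for a form `N x = ‖Λ x‖²`-like in the first coordinate: `N` is a nonnegative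
quadratic function `γ |t|² + 2 Re(conj β t) + α` of the entry `0` (all other entries fixed).
Here `x` is bounded and `‖g2f r (rot u x)‖ ≤ G` for all `|u| = 1`.
If `N (stepA r q ζ x) ≤ σ²` and the same at `ζ e^{ih}`, then for `τ ∈ [0,h]`:
`N (stepA r q (ζ e^{iτ}) x) ≤ (σ + √γ G h²/8)²`.
Proof: `top (r e^{iz}) x` has second `z`-derivative `e^{iz} g2f r (rot e^{iz} x)` up to sign; all
other entries of `stepA` do not depend on `ζ`; complete the square (if `γ = 0` then `β = 0`) and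
use `chord_scalar`: `γ |t + β/γ|² + (α - |β|²/γ)` with `α - |β|²/γ ≥ 0`. -/
theorem chord_form {r : ℝ} (hr0 : 0 < r) (hr1 : r < 1) {q : ℂ} (hq : ‖q‖ = 1)
    (N : (ℕ → ℂ) → ℝ) (hnonneg : ∀ x, 0 ≤ N x) {γ : ℝ} (hγ : 0 ≤ γ)
    (hquad : ∀ x, Bdd x → ∃ (α : ℝ) (β : ℂ), ∀ t : ℂ,
      N (Function.update x 0 t) = γ * ‖t‖ ^ 2 + 2 * (conj β * t).re + α)
    {x : ℕ → ℂ} (hx : Bdd x) {G : ℝ} (hG : ∀ u : ℂ, ‖u‖ = 1 → ‖g2f r (rot u x)‖ ≤ G)
    {ζ : ℂ} (hζ : ‖ζ‖ = 1) {h σ : ℝ} (hh : 0 ≤ h) (hσ : 0 ≤ σ)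
    (h1 : N (stepA r q ζ x) ≤ σ ^ 2)
    (h2 : N (stepA r q (ζ * Complex.exp (h * Complex.I)) x) ≤ σ ^ 2) :
    ∀ τ ∈ Set.Icc (0 : ℝ) h,
      N (stepA r q (ζ * Complex.exp (τ * Complex.I)) x) ≤ (σ + √γ * G * h ^ 2 / 8) ^ 2 := by
  intro τ hτ
  have hG0 : 0 ≤ G := (norm_nonneg _).trans (hG 1 norm_one)
  obtain ⟨α, β, hαβ⟩ := hquad (stepA r q ζ x) (bdd_stepA hq hx)
  -- the top entry as a function of the angle
  set T : ℝ → ℂ := fun t => top ((r : ℂ) * (ζ * Complex.exp (t * Complex.I))) x with hT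
  have hN : ∀ t : ℝ, N (stepA r q (ζ * Complex.exp (t * Complex.I)) x) =
      γ * ‖T t‖ ^ 2 + 2 * (conj β * T t).re + α := by
    intro t
    rw [stepA_eq_update r q ζ, hαβ]
  have hN0 : N (stepA r q ζ x) = γ * ‖T 0‖ ^ 2 + 2 * (conj β * T 0).re + α := by
    rw [← hN 0]
    simp
  have hTser : ∀ t, T t = -∑' j : ℕ, (Complex.I * ((j : ℂ) + 1)) ^ 0 *
        (((r : ℂ) * ζ) ^ (j + 1) * Complex.exp (((j : ℂ) + 1) * t * Complex.I) * x j) := by
    intro t
    rw [hT]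
    simp only [top, pow_zero, one_mul]
    congr 1
    refine tsum_congr fun j => ?_
    have e : Complex.exp (((j : ℂ) + 1) * t * Complex.I) =
        Complex.exp (t * Complex.I) ^ (j + 1) := by
      rw [← Complex.exp_nat_mul]
      congr 1
      push_cast
      ring
    rw [e, ← mul_assoc, mul_pow]
  have hT1 : ∀ t : ℝ, HasDerivAt T (-∑' j : ℕ, (Complex.I * ((j : ℂ) + 1)) ^ 1 *
        (((r : ℂ) * ζ) ^ (j + 1) * Complex.exp (((j : ℂ) + 1) * t * Complex.I) * x j)) t := by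
    intro t
    have := (hasDerivAt_topSeries hr0 hr1 hζ hx 0 t).neg
    exact this.congr_of_eventuallyEq (Eventually.of_forall fun t => hTser t)
  have hT2 : ∀ t : ℝ, HasDerivAt (fun t : ℝ => -∑' j : ℕ, (Complex.I * ((j : ℂ) + 1)) ^ 1 *
        (((r : ℂ) * ζ) ^ (j + 1) * Complex.exp (((j : ℂ) + 1) * t * Complex.I) * x j))
      (-∑' j : ℕ, (Complex.I * ((j : ℂ) + 1)) ^ 2 *
        (((r : ℂ) * ζ) ^ (j + 1) * Complex.exp (((j : ℂ) + 1) * t * Complex.I) * x j)) t :=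
    fun t => (hasDerivAt_topSeries hr0 hr1 hζ hx 1 t).neg
  have hTG : ∀ t : ℝ, ‖-∑' j : ℕ, (Complex.I * ((j : ℂ) + 1)) ^ 2 *
        (((r : ℂ) * ζ) ^ (j + 1) * Complex.exp (((j : ℂ) + 1) * t * Complex.I) * x j)‖ ≤ G := by
    intro t
    have hu : ‖ζ * Complex.exp (t * Complex.I)‖ = 1 := by
      rw [norm_mul, hζ, one_mul, Complex.norm_exp_ofReal_mul_I]
    have e : -∑' j : ℕ, (Complex.I * ((j : ℂ) + 1)) ^ 2 *
        (((r : ℂ) * ζ) ^ (j + 1) * Complex.exp (((j : ℂ) + 1) * t * Complex.I) * x j) =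
        (ζ * Complex.exp (t * Complex.I)) * g2f r (rot (ζ * Complex.exp (t * Complex.I)) x) := by
      unfold g2f rot
      rw [← tsum_mul_left, ← tsum_neg]
      refine tsum_congr fun j => ?_
      have e2 : Complex.exp (((j : ℂ) + 1) * t * Complex.I) =
          Complex.exp (t * Complex.I) ^ (j + 1) := by
        rw [← Complex.exp_nat_mul]
        congr 1
        push_cast
        ring
      rw [e2, mul_pow, Complex.I_sq, mul_pow, mul_pow]
      ring
    rw [e, norm_mul, hu, one_mul]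
    exact hG _ hu
  rcases eq_or_lt_of_le hγ with hγ0 | hγpos
  · -- `γ = 0`: then `β = 0`
    subst hγ0
    have hβ : β = 0 := by
      by_contra hβ
      have hβn : 0 < ‖β‖ ^ 2 := by positivity
      have h3 := hnonneg (Function.update (stepA r q ζ x) 0 ((-(α + 1) / ‖β‖ ^ 2 : ℝ) * β))
      rw [hαβ] at h3
      have e : conj β * (((-(α + 1) / ‖β‖ ^ 2 : ℝ) : ℂ) * β) = ((-(α + 1) : ℝ) : ℂ) := by
        have e1 : conj β * (((-(α + 1) / ‖β‖ ^ 2 : ℝ) : ℂ) * β) =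
            ((-(α + 1) / ‖β‖ ^ 2 : ℝ) : ℂ) * (conj β * β) := by ring
        rw [e1, Complex.conj_mul']
        have : (‖β‖ : ℂ) ≠ 0 := by
          have : ‖β‖ ≠ 0 := norm_ne_zero_iff.mpr hβ
          exact_mod_cast this
        push_cast
        field_simp
      rw [e, Complex.ofReal_re] at h3
      have hα0 : 0 ≤ α := by
        have h4 := hnonneg (Function.update (stepA r q ζ x) 0 0)
        rw [hαβ] at h4
        simpa using h4
      nlinarith
    rw [hN τ]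
    rw [hN0] at h1
    rw [hβ] at h1 ⊢
    simp only [zero_mul, map_zero, Complex.zero_re, mul_zero, Real.sqrt_zero, zero_div,
      add_zero] at h1 ⊢
    exact h1
  · -- complete the square
    have hγc : (γ : ℂ) ≠ 0 := by exact_mod_cast hγpos.ne'
    have hsq : ∀ t : ℂ, γ * ‖t‖ ^ 2 + 2 * (conj β * t).re + α =
        γ * ‖t + β / γ‖ ^ 2 + (α - ‖β‖ ^ 2 / γ) := by
      intro t
      have e1 : ‖t + β / γ‖ ^ 2 = ‖t‖ ^ 2 + 2 * (conj β * t).re / γ + ‖β‖ ^ 2 / γ ^ 2 := by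
        rw [← Complex.normSq_eq_norm_sq, ← Complex.normSq_eq_norm_sq, ← Complex.normSq_eq_norm_sq,
          Complex.normSq_add, Complex.normSq_div, Complex.normSq_ofReal]
        have e2 : (t * conj (β / (γ : ℂ))).re = (conj β * t).re / γ := by
          rw [map_div₀, Complex.conj_ofReal, mul_div_assoc', Complex.div_ofReal_re,
            mul_comm t]
        rw [e2]
        ring
      rw [e1]
      field_simp
      ring
    set κ : ℝ := α - ‖β‖ ^ 2 / γ with hκ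
    have hκ0 : 0 ≤ κ := by
      have h3 := hnonneg (Function.update (stepA r q ζ x) 0 (-(β / γ)))
      rw [hαβ, hsq] at h3
      simpa using h3
    have hκσ : κ ≤ σ ^ 2 := by
      rw [hN0, hsq] at h1
      have : 0 ≤ γ * ‖T 0 + β / γ‖ ^ 2 := by positivity
      linarith
    set s : ℝ := √(σ ^ 2 - κ) with hs
    have hs0 : 0 ≤ s := Real.sqrt_nonneg _
    have hs2 : s ^ 2 = σ ^ 2 - κ := Real.sq_sqrt (by linarith)
    have hsσ : s ≤ σ := by
      refine (sq_le_sq₀ hs0 hσ).mp ?_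
      rw [hs2]
      linarith
    set g : ℝ := √γ with hg
    have hg0 : 0 < g := Real.sqrt_pos.mpr hγpos
    have hg2 : g ^ 2 = γ := Real.sq_sqrt hγ
    have hdist : ∀ t : ℂ, γ * ‖t + β / γ‖ ^ 2 + κ ≤ σ ^ 2 → ‖t + β / γ‖ ≤ s / g := by
      intro t ht
      rw [le_div_iff₀ hg0]
      refine (sq_le_sq₀ (by positivity) hs0).mp ?_
      rw [mul_pow, hg2, hs2]
      linarith
    have ha : ‖T 0 + β / γ‖ ≤ s / g := by
      refine hdist _ ?_
      rw [hN0, hsq] at h1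
      exact h1
    have hb : ‖T h + β / γ‖ ≤ s / g := by
      refine hdist _ ?_
      rw [hN h, hsq] at h2
      exact h2
    have hc := chord_scalar hT1 hT2 hTG hh ha hb τ hτ
    rw [sub_zero] at hc
    rw [hN τ, hsq]
    have h5 : g * ‖T τ + β / γ‖ ≤ s + g * G * h ^ 2 / 8 := by
      calc g * ‖T τ + β / γ‖ ≤ g * (s / g + G * h ^ 2 / 8) :=
            mul_le_mul_of_nonneg_left hc hg0.le
        _ = s + g * G * h ^ 2 / 8 := by
            field_simp
    have h6 : γ * ‖T τ + β / γ‖ ^ 2 ≤ (s + g * G * h ^ 2 / 8) ^ 2 := by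
      have e : γ * ‖T τ + β / γ‖ ^ 2 = (g * ‖T τ + β / γ‖) ^ 2 := by
        rw [mul_pow, hg2]
      rw [e]
      exact pow_le_pow_left₀ (by positivity) h5 2
    have h7 : 0 ≤ g * G * h ^ 2 / 8 := by positivity
    nlinarith

/-- rational point of the unit circle: `(p + i q)² / (p² + q²)` -/
noncomputable def unitQ (z : ℤ × ℤ) : ℂ :=
  ((z.1 : ℂ) + z.2 * Complex.I) ^ 2 / ((z.1 : ℂ) ^ 2 + (z.2 : ℂ) ^ 2)

/-- the relative half angle from `z` to `z'` : `P + i Q = (p' + i q') (p - i q)`. -/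
def relPQ (z z' : ℤ × ℤ) : ℤ × ℤ := (z'.1 * z.1 + z'.2 * z.2, z'.2 * z.1 - z'.1 * z.2)

/-- one arc: `unitQ z' = unitQ z * e^{ih}` with `0 ≤ h ≤ 2 Q/P` when `P > 0`, `Q > 0`
(`h = 2 arctan (Q/P)`). -/
theorem arc_step {z z' : ℤ × ℤ} (hP : 0 < (relPQ z z').1) (hQ : 0 < (relPQ z z').2) :
    ∃ h : ℝ, 0 < h ∧ h ≤ 2 * ((relPQ z z').2 : ℝ) / ((relPQ z z').1 : ℝ) ∧ h < Real.pi ∧
      unitQ z' = unitQ z * Complex.exp (h * Complex.I) := by
  obtain ⟨p, q⟩ := z
  obtain ⟨p', q'⟩ := z'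
  simp only [relPQ] at hP hQ ⊢
  set P : ℤ := p' * p + q' * q with hPdef
  set Q : ℤ := q' * p - p' * q with hQdef
  have hPr : (0 : ℝ) < P := by exact_mod_cast hP
  have hQr : (0 : ℝ) < Q := by exact_mod_cast hQ
  have hx : (0 : ℝ) < (Q : ℝ) / P := div_pos hQr hPr
  set x : ℝ := (Q : ℝ) / P with hxdef
  have hpos : 0 < Real.arctan x := Real.arctan_pos.mpr hx
  have hlt : Real.arctan x < Real.pi / 2 := Real.arctan_lt_pi_div_two x
  refine ⟨2 * Real.arctan x, by linarith, ?_, by linarith, ?_⟩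
  · have h1 : Real.arctan x < x := by
      have := Real.lt_tan hpos hlt
      rwa [Real.tan_arctan] at this
    have h2 : 2 * (Q : ℝ) / P = 2 * x := by
      rw [hxdef]
      ring
    rw [h2]
    linarith
  · have hsq : (0 : ℝ) < 1 + x ^ 2 := by positivity
    have e1 : Complex.exp (((2 * Real.arctan x : ℝ) : ℂ) * Complex.I) =
        (1 + x * Complex.I) ^ 2 / (1 + (x : ℂ) ^ 2) := by
      have e2 : ((2 * Real.arctan x : ℝ) : ℂ) * Complex.I =
          ((2 : ℕ) : ℂ) * ((Real.arctan x : ℂ) * Complex.I) := by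
        push_cast
        ring
      rw [e2, Complex.exp_nat_mul, Complex.exp_mul_I, ← Complex.ofReal_cos, ← Complex.ofReal_sin,
        Real.cos_arctan, Real.sin_arctan]
      have hs : (√(1 + x ^ 2) : ℂ) ≠ 0 := by
        have : √(1 + x ^ 2) ≠ 0 := (Real.sqrt_pos.mpr hsq).ne'
        exact_mod_cast this
      have hs2 : (√(1 + x ^ 2) : ℂ) ^ 2 = 1 + (x : ℂ) ^ 2 := by
        have : √(1 + x ^ 2) ^ 2 = 1 + x ^ 2 := Real.sq_sqrt hsq.le
        exact_mod_cast this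
      rw [← hs2]
      push_cast
      field_simp
    rw [e1]
    have hPc : (P : ℂ) ≠ 0 := by exact_mod_cast hP.ne'
    have hxc : (x : ℂ) = (Q : ℂ) / P := by
      rw [hxdef]
      push_cast
      rfl
    have e3 : (1 + x * Complex.I) ^ 2 / (1 + (x : ℂ) ^ 2) =
        ((P : ℂ) + Q * Complex.I) ^ 2 / ((P : ℂ) ^ 2 + (Q : ℂ) ^ 2) := by
      rw [hxc]
      have hPQ : (P : ℂ) ^ 2 + (Q : ℂ) ^ 2 ≠ 0 := by
        have : (P : ℤ) ^ 2 + Q ^ 2 ≠ 0 := by positivity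
        exact_mod_cast this
      have h1Q : (1 + ((Q : ℂ) / P) ^ 2) ≠ 0 := by
        rw [div_pow, ← mul_ne_zero_iff_right (pow_ne_zero 2 hPc)]
        have : (1 + (Q : ℂ) ^ 2 / (P : ℂ) ^ 2) * (P : ℂ) ^ 2 = (P : ℂ) ^ 2 + (Q : ℂ) ^ 2 := by
          field_simp
        rw [this]
        exact hPQ
      rw [div_eq_div_iff h1Q hPQ]
      field_simp
    rw [e3]
    have hz : ((p : ℂ) ^ 2 + (q : ℂ) ^ 2) ≠ 0 := by
      have : (p : ℤ) ^ 2 + q ^ 2 ≠ 0 := by
        intro h0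
        have hp0 : p = 0 := by nlinarith [sq_nonneg p, sq_nonneg q]
        have hq0 : q = 0 := by nlinarith [sq_nonneg p, sq_nonneg q]
        rw [hPdef, hp0, hq0] at hP
        simp at hP
      exact_mod_cast this
    have hz' : ((p' : ℂ) ^ 2 + (q' : ℂ) ^ 2) ≠ 0 := by
      have : (p' : ℤ) ^ 2 + q' ^ 2 ≠ 0 := by
        intro h0
        have hp0 : p' = 0 := by nlinarith [sq_nonneg p', sq_nonneg q']
        have hq0 : q' = 0 := by nlinarith [sq_nonneg p', sq_nonneg q']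
        rw [hPdef, hp0, hq0] at hP
        simp at hP
      exact_mod_cast this
    have hnorm : (P : ℂ) ^ 2 + (Q : ℂ) ^ 2 =
        ((p' : ℂ) ^ 2 + (q' : ℂ) ^ 2) * ((p : ℂ) ^ 2 + (q : ℂ) ^ 2) := by
      rw [hPdef, hQdef]
      push_cast
      ring
    have hprod : (P : ℂ) + Q * Complex.I =
        ((p' : ℂ) + q' * Complex.I) * ((p : ℂ) - q * Complex.I) := by
      rw [hPdef, hQdef]
      push_cast
      linear_combination ((q' : ℂ) * q) * Complex.I_sq
    have hzz : ((p : ℂ) + q * Complex.I) * ((p : ℂ) - q * Complex.I) =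
        (p : ℂ) ^ 2 + (q : ℂ) ^ 2 := by
      linear_combination (-(q : ℂ) ^ 2) * Complex.I_sq
    unfold unitQ
    simp only
    rw [hnorm, hprod]
    rw [div_mul_div_comm, div_eq_div_iff hz' (mul_ne_zero hz (mul_ne_zero hz' hz))]
    have : ((p : ℂ) + q * Complex.I) ^ 2 *
        (((p' : ℂ) + q' * Complex.I) * ((p : ℂ) - q * Complex.I)) ^ 2 =
        ((p' : ℂ) + q' * Complex.I) ^ 2 * ((p : ℂ) ^ 2 + (q : ℂ) ^ 2) ^ 2 := by
      rw [← hzz]
      ring
    rw [this]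
    ring

theorem norm_unitQ {z : ℤ × ℤ} (hz : z ≠ (0, 0)) : ‖unitQ z‖ = 1 := by
  obtain ⟨p, q⟩ := z
  unfold unitQ
  simp only
  have hne : (p : ℤ) ^ 2 + q ^ 2 ≠ 0 := by
    intro h0
    have hp0 : p = 0 := by nlinarith [sq_nonneg p, sq_nonneg q]
    have hq0 : q = 0 := by nlinarith [sq_nonneg p, sq_nonneg q]
    exact hz (by rw [hp0, hq0])
  have hne' : (p : ℝ) ^ 2 + (q : ℝ) ^ 2 ≠ 0 := by exact_mod_cast hne
  have h1 : ‖(p : ℂ) + q * Complex.I‖ ^ 2 = (p : ℝ) ^ 2 + (q : ℝ) ^ 2 := by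
    have e : (p : ℂ) + q * Complex.I = ((p : ℝ) : ℂ) + ((q : ℝ) : ℂ) * Complex.I := by
      push_cast
      rfl
    rw [e, ← Complex.normSq_eq_norm_sq, Complex.normSq_add_mul_I]
  have h2 : ‖(p : ℂ) ^ 2 + (q : ℂ) ^ 2‖ = (p : ℝ) ^ 2 + (q : ℝ) ^ 2 := by
    have e : (p : ℂ) ^ 2 + (q : ℂ) ^ 2 = (((p : ℝ) ^ 2 + (q : ℝ) ^ 2 : ℝ) : ℂ) := by
      push_cast
      rfl
    rw [e, Complex.norm_real, Real.norm_of_nonneg (by positivity)]
  rw [norm_div, norm_pow, h1, h2, div_self hne']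

/-- consecutive points of the list turn strictly counterclockwise (half angles) -/
def chainOK : List (ℤ × ℤ) → Bool
  | z :: z' :: l => (0 < (relPQ z z').1) && (0 < (relPQ z z').2) && chainOK (z' :: l)
  | _ => true

/-- the angles of a chain -/
theorem cover_aux : ∀ (l : List (ℤ × ℤ)) (z₀ : ℤ × ℤ), chainOK (z₀ :: l) = true →
    ∃ Θ : ℝ, 0 ≤ Θ ∧ (l = [] → Θ = 0) ∧ (l ≠ [] → 0 < Θ) ∧
      unitQ ((z₀ :: l).getLast (List.cons_ne_nil _ _)) =
        unitQ z₀ * Complex.exp (Θ * Complex.I) ∧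
      ∀ θ : ℝ, 0 ≤ θ → θ ≤ Θ → l ≠ [] →
        ∃ (i : ℕ) (hi : i + 1 < (z₀ :: l).length) (h τ : ℝ), 0 ≤ τ ∧ τ ≤ h ∧
          h ≤ 2 * ((relPQ ((z₀ :: l)[i]) ((z₀ :: l)[i + 1])).2 : ℝ) /
            ((relPQ ((z₀ :: l)[i]) ((z₀ :: l)[i + 1])).1 : ℝ) ∧
          unitQ ((z₀ :: l)[i + 1]) = unitQ ((z₀ :: l)[i]) * Complex.exp (h * Complex.I) ∧
          unitQ z₀ * Complex.exp (θ * Complex.I) =
            unitQ ((z₀ :: l)[i]) * Complex.exp (τ * Complex.I) := by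
  intro l
  induction l with
  | nil =>
    intro z₀ _
    refine ⟨0, le_rfl, fun _ => rfl, fun h => absurd rfl h, by simp, ?_⟩
    intro θ _ _ h
    exact absurd rfl h
  | cons z₁ l ih =>
    intro z₀ hch
    simp only [chainOK, Bool.and_eq_true, decide_eq_true_eq] at hch
    obtain ⟨⟨hP, hQ⟩, hch'⟩ := hch
    obtain ⟨h₁, hh0, hh1, _, hh3⟩ := arc_step hP hQ
    obtain ⟨Θ', hΘ0, hΘnil, _, hlast, hcov⟩ := ih z₁ hch'
    refine ⟨h₁ + Θ', by linarith, fun h => absurd h (List.cons_ne_nil _ _),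
      fun _ => by linarith, ?_, ?_⟩
    · rw [List.getLast_cons (List.cons_ne_nil _ _), hlast, hh3, mul_assoc, ← Complex.exp_add]
      congr 2
      push_cast
      ring
    · intro θ h0 hle _
      rcases le_or_gt θ h₁ with hθ | hθ
      · exact ⟨0, by simp, h₁, θ, h0, hθ, hh1, hh3, rfl⟩
      · have hl : l ≠ [] := by
          intro hl
          have := hΘnil hl
          linarith
        obtain ⟨i, hi, h, τ, c1, c2, c3, c4, c5⟩ := hcov (θ - h₁) (by linarith) (by linarith) hl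
        refine ⟨i + 1, by simpa using hi, h, τ, c1, c2, c3, c4, ?_⟩
        have e : unitQ z₀ * Complex.exp (θ * Complex.I) =
            unitQ z₁ * Complex.exp (((θ - h₁ : ℝ) : ℂ) * Complex.I) := by
          rw [hh3, mul_assoc, ← Complex.exp_add]
          congr 2
          push_cast
          ring
        rw [e, c5]
        rfl

/-- Covering of the circle: if the chain returns to its starting point, every point of the circle
lies on one of its arcs. Proof: write `unitQ z_i = unitQ z_0 e^{i θ_i}` with `θ_{i+1} = θ_i + h_i`;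
`θ_n > 0` and `e^{iθ_n} = 1` give `θ_n ≥ 2π`; a point `unitQ z_0 e^{iθ}`, `0 ≤ θ < 2π`, lies between
two consecutive `θ_i`. -/
theorem cover_circle {z₀ : ℤ × ℤ} {l : List (ℤ × ℤ)} (hl : l ≠ [])
    (hchain : chainOK (z₀ :: l) = true) (hne : ∀ z ∈ z₀ :: l, z ≠ (0, 0))
    (hret : unitQ (l.getLast hl) = unitQ z₀) {ζ : ℂ} (hζ : ‖ζ‖ = 1) :
    ∃ (i : ℕ) (hi : i + 1 < (z₀ :: l).length) (h τ : ℝ), 0 ≤ τ ∧ τ ≤ h ∧
      h ≤ 2 * ((relPQ ((z₀ :: l)[i]) ((z₀ :: l)[i + 1])).2 : ℝ) /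
        ((relPQ ((z₀ :: l)[i]) ((z₀ :: l)[i + 1])).1 : ℝ) ∧
      unitQ ((z₀ :: l)[i + 1]) = unitQ ((z₀ :: l)[i]) * Complex.exp (h * Complex.I) ∧
      ζ = unitQ ((z₀ :: l)[i]) * Complex.exp (τ * Complex.I) := by
  obtain ⟨Θ, hΘ0, _, hΘpos, hlast, hcov⟩ := cover_aux l z₀ hchain
  have hn0 : ‖unitQ z₀‖ = 1 := norm_unitQ (hne z₀ (List.mem_cons_self ..))
  have hu0 : unitQ z₀ ≠ 0 := by
    intro h0
    rw [h0, norm_zero] at hn0
    exact zero_ne_one hn0
  have hΘ2 : 2 * Real.pi ≤ Θ := by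
    rw [List.getLast_cons hl, hret] at hlast
    have h1 : Complex.exp (Θ * Complex.I) = 1 := by
      have : unitQ z₀ * Complex.exp (Θ * Complex.I) = unitQ z₀ * 1 := by
        rw [mul_one]
        exact hlast.symm
      exact mul_left_cancel₀ hu0 this
    rw [Complex.exp_eq_one_iff] at h1
    obtain ⟨n, hn⟩ := h1
    have h2 : (Θ : ℂ) = ((n * (2 * Real.pi) : ℝ) : ℂ) := by
      have h3 : (Θ : ℂ) * Complex.I = ((n * (2 * Real.pi) : ℝ) : ℂ) * Complex.I := by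
        rw [hn]
        push_cast
        ring
      exact mul_right_cancel₀ Complex.I_ne_zero h3
    have h4 : Θ = n * (2 * Real.pi) := by exact_mod_cast h2
    have hpos := hΘpos hl
    have hn1 : (1 : ℤ) ≤ n := by
      by_contra hcon
      have : n ≤ 0 := by omega
      have h5 : (n : ℝ) ≤ 0 := by exact_mod_cast this
      have h6 : (n : ℝ) * (2 * Real.pi) ≤ 0 :=
        mul_nonpos_of_nonpos_of_nonneg h5 (by positivity)
      linarith
    have h7 : (1 : ℝ) ≤ n := by exact_mod_cast hn1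
    rw [h4]
    have := Real.pi_pos
    nlinarith
  -- the angle of `ζ`
  have hζu : ‖ζ / unitQ z₀‖ = 1 := by rw [norm_div, hζ, hn0, div_one]
  set φ : ℝ := toIcoMod Real.two_pi_pos 0 (Complex.arg (ζ / unitQ z₀)) with hφ
  have hφmem : φ ∈ Set.Ico (0 : ℝ) (0 + 2 * Real.pi) := toIcoMod_mem_Ico _ _ _
  have hexp : Complex.exp (φ * Complex.I) = ζ / unitQ z₀ := by
    have h1 : Complex.exp (Complex.arg (ζ / unitQ z₀) * Complex.I) = ζ / unitQ z₀ := by
      have := Complex.norm_mul_exp_arg_mul_I (ζ / unitQ z₀)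
      rw [hζu] at this
      simpa using this
    rw [← h1]
    have h2 : φ = Complex.arg (ζ / unitQ z₀) -
        toIcoDiv Real.two_pi_pos 0 (Complex.arg (ζ / unitQ z₀)) • (2 * Real.pi) := rfl
    rw [h2, Complex.exp_eq_exp_iff_exists_int]
    refine ⟨-toIcoDiv Real.two_pi_pos 0 (Complex.arg (ζ / unitQ z₀)), ?_⟩
    rw [zsmul_eq_mul]
    push_cast
    ring
  obtain ⟨i, hi, h, τ, c1, c2, c3, c4, c5⟩ := hcov φ hφmem.1 (by linarith [hφmem.2]) hl
  refine ⟨i, hi, h, τ, c1, c2, c3, c4, ?_⟩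
  rw [← c5, hexp]
  field_simp

end Pool.Agent.H93
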