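import Pool.Agent.Lib.H93.CritNum

/-!
Lipschitz bounds for the sums `S_i(u,p) = ∑ k^i u^k p^{k(k-1)/2}`.
-/

namespace Pool.Agent.H93
namespace Crit

open Finset

/-- the moment sums -/
noncomputable def SS (i : ℕ) (u p : ℂ) : ℂ := ∑' k : ℕ, (k : ℂ) ^ i * tt u p k

theorem pow_sub_bound {R : ℝ} {u v : ℂ} (hu : ‖u‖ ≤ R) (hv : ‖v‖ ≤ R) (k : ℕ) :
    ‖u ^ k - v ^ k‖ * R ≤ k * R ^ k * ‖u - v‖ := by
  have hR : 0 ≤ R := (norm_nonneg u).trans hu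
  induction k with
  | zero => simp
  | succ k ih =>
    have e : u ^ (k + 1) - v ^ (k + 1) = u * (u ^ k - v ^ k) + (u - v) * v ^ k := by ring
    rw [e]
    have h1 : ‖u * (u ^ k - v ^ k) + (u - v) * v ^ k‖ ≤ R * ‖u ^ k - v ^ k‖ + ‖u - v‖ * R ^ k := by
      refine (norm_add_le _ _).trans ?_
      rw [norm_mul, norm_mul, norm_pow]
      gcongr
    calc _ ≤ (R * ‖u ^ k - v ^ k‖ + ‖u - v‖ * R ^ k) * R := by gcongr
      _ = R * (‖u ^ k - v ^ k‖ * R) + ‖u - v‖ * R ^ k * R := by ring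
      _ ≤ R * (k * R ^ k * ‖u - v‖) + ‖u - v‖ * R ^ k * R := by gcongr
      _ = _ := by
        push_cast
        ring

theorem pow_sub_bound_one {u v : ℂ} (hu : ‖u‖ ≤ 1) (hv : ‖v‖ ≤ 1) (k : ℕ) :
    ‖u ^ k - v ^ k‖ ≤ k * ‖u - v‖ := by
  have := pow_sub_bound hu hv k
  simpa using this

theorem tt_sub_bound {u v p p' : ℂ} (hu : ‖u‖ ≤ 57 / 100) (hv : ‖v‖ ≤ 57 / 100)
    (hp : ‖p‖ ≤ 1) (hp' : ‖p'‖ ≤ 1) (k : ℕ) :
    ‖tt u p k - tt v p' k‖ ≤ (k * (57 / 100) ^ k) * ((100 / 57) * ‖u - v‖) +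
      ((k : ℝ) ^ 2 * (57 / 100) ^ k) * (‖p - p'‖ / 2) := by
  have e : tt u p k - tt v p' k = (u ^ k - v ^ k) * p ^ (k * (k - 1) / 2) +
      v ^ k * (p ^ (k * (k - 1) / 2) - p' ^ (k * (k - 1) / 2)) := by
    simp only [tt]
    ring
  rw [e]
  refine (norm_add_le _ _).trans (add_le_add ?_ ?_)
  · have h1 := pow_sub_bound hu hv k
    rw [norm_mul, norm_pow]
    have h2 : ‖p‖ ^ (k * (k - 1) / 2) ≤ 1 := pow_le_one₀ (norm_nonneg _) hp
    calc _ ≤ ‖u ^ k - v ^ k‖ * 1 := by gcongr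
      _ ≤ _ := by
        rw [mul_one]
        nlinarith
  · rw [norm_mul, norm_pow]
    have h1 := pow_sub_bound_one hp hp' (k * (k - 1) / 2)
    have h2 : (((k * (k - 1) / 2 : ℕ)) : ℝ) ≤ (k : ℝ) ^ 2 / 2 := by
      have h3 : (((k * (k - 1) / 2 : ℕ)) : ℝ) ≤ ((k * (k - 1) : ℕ) : ℝ) / 2 := Nat.cast_div_le
      have h4 : ((k * (k - 1) : ℕ) : ℝ) ≤ (k : ℝ) ^ 2 := by
        have : k * (k - 1) ≤ k ^ 2 := by
          rw [sq]
          exact Nat.mul_le_mul_left _ (Nat.sub_le _ _)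
        exact_mod_cast this
      linarith
    calc _ ≤ (57 / 100) ^ k * (((k * (k - 1) / 2 : ℕ)) * ‖p - p'‖) := by gcongr
      _ ≤ (57 / 100) ^ k * ((k : ℝ) ^ 2 / 2 * ‖p - p'‖) := by gcongr
      _ = _ := by ring

theorem SS_lip_gen {u v p p' : ℂ} (hu : ‖u‖ ≤ 57 / 100) (hv : ‖v‖ ≤ 57 / 100)
    (hp : ‖p‖ ≤ 1) (hp' : ‖p'‖ ≤ 1) (i : ℕ) {a ρ b ρ' : ℝ} (hρ0 : 0 ≤ ρ) (hρ1 : ρ < 1)
    (hρ0' : 0 ≤ ρ') (hρ1' : ρ' < 1) (ha : ∀ k : ℕ, (k : ℝ) ^ (i + 1) * (57 / 100) ^ k ≤ a * ρ ^ k)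
    (hb : ∀ k : ℕ, (k : ℝ) ^ (i + 2) * (57 / 100) ^ k ≤ b * ρ' ^ k)
    (hsu : Summable fun k : ℕ => (k : ℂ) ^ i * tt u p k)
    (hsv : Summable fun k : ℕ => (k : ℂ) ^ i * tt v p' k) :
    ‖SS i u p - SS i v p'‖ ≤ a * (1 - ρ)⁻¹ * ((100 / 57) * ‖u - v‖) +
      b * (1 - ρ')⁻¹ * (‖p - p'‖ / 2) := by
  unfold SS
  rw [← hsu.tsum_sub hsv]
  have h1 : HasSum (fun k : ℕ => a * ρ ^ k * ((100 / 57) * ‖u - v‖) +
      b * ρ' ^ k * (‖p - p'‖ / 2)) (a * (1 - ρ)⁻¹ * ((100 / 57) * ‖u - v‖) +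
      b * (1 - ρ')⁻¹ * (‖p - p'‖ / 2)) :=
    (((hasSum_geometric_of_lt_one hρ0 hρ1).mul_left a).mul_right _).add
      (((hasSum_geometric_of_lt_one hρ0' hρ1').mul_left b).mul_right _)
  refine tsum_of_norm_bounded h1 fun k => ?_
  rw [← mul_sub, norm_mul, norm_pow, Complex.norm_natCast]
  calc (k : ℝ) ^ i * ‖tt u p k - tt v p' k‖
      ≤ (k : ℝ) ^ i * ((k * (57 / 100) ^ k) * ((100 / 57) * ‖u - v‖) +
      ((k : ℝ) ^ 2 * (57 / 100) ^ k) * (‖p - p'‖ / 2)) := by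
        gcongr
        exact tt_sub_bound hu hv hp hp' k
    _ = ((k : ℝ) ^ (i + 1) * (57 / 100) ^ k) * ((100 / 57) * ‖u - v‖) +
      ((k : ℝ) ^ (i + 2) * (57 / 100) ^ k) * (‖p - p'‖ / 2) := by ring
    _ ≤ _ := add_le_add (mul_le_mul_of_nonneg_right (ha k) (by positivity))
        (mul_le_mul_of_nonneg_right (hb k) (by positivity))

theorem pow_bound1 (k : ℕ) : (k : ℝ) ^ 1 * (57 / 100) ^ k ≤ 2 * (7 / 10) ^ k := by
  rcases Nat.lt_or_ge k 10 with hk | hk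
  · interval_cases k <;> norm_num
  · induction k, hk using Nat.le_induction with
    | base => norm_num
    | succ n hn ih =>
      have h1 : (10 : ℝ) ≤ n := by exact_mod_cast hn
      have h2 : ((n : ℝ) + 1) ^ 1 * (57 / 100) ≤ (n : ℝ) ^ 1 * (7 / 10) := by nlinarith
      push_cast
      calc ((n : ℝ) + 1) ^ 1 * (57 / 100) ^ (n + 1)
          = (((n : ℝ) + 1) ^ 1 * (57 / 100)) * (57 / 100) ^ n := by ring
        _ ≤ ((n : ℝ) ^ 1 * (7 / 10)) * (57 / 100) ^ n := by gcongr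
        _ = ((n : ℝ) ^ 1 * (57 / 100) ^ n) * (7 / 10) := by ring
        _ ≤ (2 * (7 / 10) ^ n) * (7 / 10) := by gcongr
        _ = 2 * (7 / 10) ^ (n + 1) := by ring

theorem pow_bound3 (k : ℕ) : (k : ℝ) ^ 3 * (57 / 100) ^ k ≤ 35 * (8 / 10) ^ k := by
  rcases Nat.lt_or_ge k 10 with hk | hk
  · interval_cases k <;> norm_num
  · induction k, hk using Nat.le_induction with
    | base => norm_num
    | succ n hn ih =>
      have h1 : (10 : ℝ) ≤ n := by exact_mod_cast hn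
      have h2 : ((n : ℝ) + 1) ^ 3 * (57 / 100) ≤ (n : ℝ) ^ 3 * (8 / 10) := by
        nlinarith [mul_nonneg (mul_nonneg (sub_nonneg.2 h1) (sub_nonneg.2 h1)) (sub_nonneg.2 h1),
          mul_nonneg (sub_nonneg.2 h1) (sub_nonneg.2 h1)]
      push_cast
      calc ((n : ℝ) + 1) ^ 3 * (57 / 100) ^ (n + 1)
          = (((n : ℝ) + 1) ^ 3 * (57 / 100)) * (57 / 100) ^ n := by ring
        _ ≤ ((n : ℝ) ^ 3 * (8 / 10)) * (57 / 100) ^ n := by gcongr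
        _ = ((n : ℝ) ^ 3 * (57 / 100) ^ n) * (8 / 10) := by ring
        _ ≤ (35 * (8 / 10) ^ n) * (8 / 10) := by gcongr
        _ = 35 * (8 / 10) ^ (n + 1) := by ring

theorem pow_bound4 (k : ℕ) : (k : ℝ) ^ 4 * (57 / 100) ^ k ≤ 110 * (9 / 10) ^ k := by
  rcases Nat.lt_or_ge k 10 with hk | hk
  · interval_cases k <;> norm_num
  · induction k, hk using Nat.le_induction with
    | base => norm_num
    | succ n hn ih =>
      have h1 : (10 : ℝ) ≤ n := by exact_mod_cast hn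
      have h3 : ((n : ℝ) + 1) ≤ 11 / 10 * n := by linarith
      have h2 : ((n : ℝ) + 1) ^ 4 * (57 / 100) ≤ (n : ℝ) ^ 4 * (9 / 10) := by
        calc ((n : ℝ) + 1) ^ 4 * (57 / 100) ≤ (11 / 10 * (n : ℝ)) ^ 4 * (57 / 100) := by gcongr
          _ = (n : ℝ) ^ 4 * ((11 / 10) ^ 4 * (57 / 100)) := by ring
          _ ≤ (n : ℝ) ^ 4 * (9 / 10) := by
            gcongr
            norm_num
      push_cast
      calc ((n : ℝ) + 1) ^ 4 * (57 / 100) ^ (n + 1)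
          = (((n : ℝ) + 1) ^ 4 * (57 / 100)) * (57 / 100) ^ n := by ring
        _ ≤ ((n : ℝ) ^ 4 * (9 / 10)) * (57 / 100) ^ n := by gcongr
        _ = ((n : ℝ) ^ 4 * (57 / 100) ^ n) * (9 / 10) := by ring
        _ ≤ (110 * (9 / 10) ^ n) * (9 / 10) := by gcongr
        _ = 110 * (9 / 10) ^ (n + 1) := by ring

theorem pow_bound5 (k : ℕ) : (k : ℝ) ^ 5 * (57 / 100) ^ k ≤ 1100 * (9 / 10) ^ k := by
  rcases Nat.lt_or_ge k 12 with hk | hk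
  · interval_cases k <;> norm_num
  · induction k, hk using Nat.le_induction with
    | base => norm_num
    | succ n hn ih =>
      have h1 : (12 : ℝ) ≤ n := by exact_mod_cast hn
      have h3 : ((n : ℝ) + 1) ≤ 13 / 12 * n := by linarith
      have h2 : ((n : ℝ) + 1) ^ 5 * (57 / 100) ≤ (n : ℝ) ^ 5 * (9 / 10) := by
        calc ((n : ℝ) + 1) ^ 5 * (57 / 100) ≤ (13 / 12 * (n : ℝ)) ^ 5 * (57 / 100) := by gcongr
          _ = (n : ℝ) ^ 5 * ((13 / 12) ^ 5 * (57 / 100)) := by ring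
          _ ≤ (n : ℝ) ^ 5 * (9 / 10) := by
            gcongr
            norm_num
      push_cast
      calc ((n : ℝ) + 1) ^ 5 * (57 / 100) ^ (n + 1)
          = (((n : ℝ) + 1) ^ 5 * (57 / 100)) * (57 / 100) ^ n := by ring
        _ ≤ ((n : ℝ) ^ 5 * (9 / 10)) * (57 / 100) ^ n := by gcongr
        _ = ((n : ℝ) ^ 5 * (57 / 100) ^ n) * (9 / 10) := by ring
        _ ≤ (1100 * (9 / 10) ^ n) * (9 / 10) := by gcongr
        _ = 1100 * (9 / 10) ^ (n + 1) := by ring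

theorem SS0_lip {u v p p' : ℂ} (hu : ‖u‖ ≤ 57 / 100) (hv : ‖v‖ ≤ 57 / 100)
    (hp : ‖p‖ ≤ 1) (hp' : ‖p'‖ ≤ 1) : ‖SS 0 u p - SS 0 v p'‖ ≤ 12 * ‖u - v‖ + 22 * ‖p - p'‖ := by
  refine (SS_lip_gen hu hv hp hp' 0 (by norm_num) (by norm_num) (by norm_num) (by norm_num)
    pow_bound1 pow_bound2 (summable_term hu hp (by norm_num))
    (summable_term hv hp' (by norm_num))).trans ?_
  have h1 := norm_nonneg (u - v)
  have h2 := norm_nonneg (p - p')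
  norm_num
  nlinarith

theorem SS1_lip {u v p p' : ℂ} (hu : ‖u‖ ≤ 57 / 100) (hv : ‖v‖ ≤ 57 / 100)
    (hp : ‖p‖ ≤ 1) (hp' : ‖p'‖ ≤ 1) : ‖SS 1 u p - SS 1 v p'‖ ≤ 77 * ‖u - v‖ + 88 * ‖p - p'‖ := by
  refine (SS_lip_gen hu hv hp hp' 1 (by norm_num) (by norm_num) (by norm_num) (by norm_num)
    pow_bound2 pow_bound3 (summable_term hu hp (by norm_num))
    (summable_term hv hp' (by norm_num))).trans ?_
  have h1 := norm_nonneg (u - v)
  have h2 := norm_nonneg (p - p')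
  norm_num
  nlinarith

theorem SS2_lip {u v p p' : ℂ} (hu : ‖u‖ ≤ 57 / 100) (hv : ‖v‖ ≤ 57 / 100)
    (hp : ‖p‖ ≤ 1) (hp' : ‖p'‖ ≤ 1) : ‖SS 2 u p - SS 2 v p'‖ ≤ 308 * ‖u - v‖ + 550 * ‖p - p'‖ := by
  refine (SS_lip_gen hu hv hp hp' 2 (by norm_num) (by norm_num) (by norm_num) (by norm_num)
    pow_bound3 pow_bound4 (summable_term hu hp (by norm_num))
    (summable_term hv hp' (by norm_num))).trans ?_
  have h1 := norm_nonneg (u - v)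
  have h2 := norm_nonneg (p - p')
  norm_num
  nlinarith

end Crit
end Pool.Agent.H93
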