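import Pool.Agent.Lib.H93.Defs

/-!
Chunk C, part 1: fixed point arithmetic for the sums `∑ k^i u^k p^{k(k-1)/2}`, `i = 0,1,2`.
-/

namespace Pool.Agent.H93
namespace Crit

open Finset

/-- terms -/
noncomputable def tt (u p : ℂ) (k : ℕ) : ℂ := u ^ k * p ^ (k * (k - 1) / 2)

theorem tt_zero (u p : ℂ) : tt u p 0 = 1 := by simp [tt]

theorem tt_succ (u p : ℂ) (k : ℕ) : tt u p (k + 1) = tt u p k * (u * p ^ k) := by
  have h : (k + 1) * (k + 1 - 1) / 2 = k * (k - 1) / 2 + k := by
    have := Nat.triangle_succ k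
    simpa using this
  rw [tt, tt, h, pow_succ, pow_add]
  ring

/-- force a natural number -/
def fN {α : Type} (n : ℕ) (k : ℕ → α) : α :=
  match n with
  | 0 => k 0
  | m + 1 => k (m + 1)

/-- force an integer -/
def fI {α : Type} (z : ℤ) (k : ℤ → α) : α :=
  match z with
  | .ofNat n => fN n fun n => k (.ofNat n)
  | .negSucc n => fN n fun n => k (.negSucc n)

theorem fN_eq {α : Type} (n : ℕ) (k : ℕ → α) : fN n k = k n := by
  cases n <;> rfl

theorem fI_eq {α : Type} (z : ℤ) (k : ℤ → α) : fI z k = k z := by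
  cases z <;> simp [fI, fN_eq]

/-- denominators -/
def BB : ℤ := 10000000000000000000000000000000000000000

/-- state of the evaluation -/
structure St where
  tr : ℤ
  ti : ℤ
  wr : ℤ
  wi : ℤ
  fr : ℤ
  fi : ℤ
  gr : ℤ
  gi : ℤ
  hr : ℤ
  hi : ℤ
deriving DecidableEq

/-- one step -/
def step (pr pi k : ℤ) (s : St) : St :=
  ⟨(s.tr * s.wr - s.ti * s.wi) / BB, (s.tr * s.wi + s.ti * s.wr) / BB,
    (s.wr * pr - s.wi * pi) / BB, (s.wr * pi + s.wi * pr) / BB,
    s.fr + s.tr, s.fi + s.ti, s.gr + k * s.tr, s.gi + k * s.ti,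
    s.hr + k * k * s.tr, s.hi + k * k * s.ti⟩

/-- force a state -/
def fS {α : Type} (s : St) (k : St → α) : α :=
  match s with
  | ⟨a, b, c, d, e, f, g, h, i, j⟩ =>
    fI a fun a => fI b fun b => fI c fun c => fI d fun d => fI e fun e => fI f fun f =>
    fI g fun g => fI h fun h => fI i fun i => fI j fun j => k ⟨a, b, c, d, e, f, g, h, i, j⟩

theorem fS_eq {α : Type} (s : St) (k : St → α) : fS s k = k s := by
  cases s
  simp [fS, fI_eq]

/-- the evaluation -/
def run (pr pi : ℤ) : ℕ → ℤ → St → St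
  | 0, _, s => s
  | n + 1, k, s => fS (step pr pi k s) fun s' => fI (k + 1) fun k' => run pr pi n k' s'

/-- initial state -/
def ini (ur ui : ℤ) : St := ⟨BB, 0, ur, ui, 0, 0, 0, 0, 0, 0⟩

theorem run_one : run (-7203653525164264230463318082435766085968)
    (-6935948088717826409490332616583967816539) 300 0
    (ini (-5568427218353715371468878435711394546313) 700279052651297721823547068911708782749) =
    ⟨0, 0, 4981037105993062680297185207364724575931, 2585931512319100455820678741310611969053,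
      -82, -79, -18082757614246032020020540026500566984837,
      -324000303437077966084934821502183569829, -48966548394281516279320008966550252246511,
      -877364884076895765644484069737586521055⟩ := by decide +kernel

theorem run_two : run (-7203653525164264230471076208030777987158)
    (-6935948088717826409482275052127555371950) 300 0
    (ini (-5568427218353715371469547330870062271443) 700279052651297721818228197822178863308) =
    ⟨0, 0, 4981037105993062681162454423889963400248, 2585931512319100454153991880636353019624,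
      -78, -87, -18082757614246032020025995015318173318903,
      -324000303437077966047470635167880034535, -48966548394281516279442775974892157406147,
      -877364884076895765304862886165204684639⟩ := by decide +kernel

/-- value -/
noncomputable def cv (a b : ℤ) : ℂ := ⟨(a : ℝ) / 10 ^ 40, (b : ℝ) / 10 ^ 40⟩

theorem cv_add (a b c d : ℤ) : cv (a + c) (b + d) = cv a b + cv c d := by
  apply Complex.ext <;> simp [cv] <;> ring

theorem cv_smul (k a b : ℤ) : cv (k * a) (k * b) = (k : ℂ) * cv a b := by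
  apply Complex.ext <;> simp [cv] <;> ring

theorem div_err (x : ℤ) : |((x / BB : ℤ) : ℝ) / 10 ^ 40 - (x : ℝ) / 10 ^ 80| ≤ 1 / 10 ^ 40 := by
  have h1 : BB * (x / BB) + x % BB = x := Int.mul_ediv_add_emod x BB
  have h2 : 0 ≤ x % BB := Int.emod_nonneg _ (by norm_num [BB])
  have h3 : x % BB < BB := Int.emod_lt_of_pos _ (by norm_num [BB])
  have h1' : (10 : ℝ) ^ 40 * ((x / BB : ℤ) : ℝ) + ((x % BB : ℤ) : ℝ) = (x : ℝ) := by
    have h := congrArg (fun z : ℤ => (z : ℝ)) h1
    simp only [Int.cast_add, Int.cast_mul] at h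
    rw [← h]
    norm_num [BB]
  have h2' : (0 : ℝ) ≤ ((x % BB : ℤ) : ℝ) := by exact_mod_cast h2
  have h3' : ((x % BB : ℤ) : ℝ) ≤ 10 ^ 40 := by
    have : ((x % BB : ℤ) : ℝ) < ((BB : ℤ) : ℝ) := by exact_mod_cast h3
    refine this.le.trans ?_
    norm_num [BB]
  rw [← h1']
  have : (((x / BB : ℤ) : ℝ) / 10 ^ 40 -
      ((10 : ℝ) ^ 40 * ((x / BB : ℤ) : ℝ) + ((x % BB : ℤ) : ℝ)) / 10 ^ 80) =
      - (((x % BB : ℤ) : ℝ) / 10 ^ 80) := by
    field_simp
    ring
  rw [this, abs_neg, abs_of_nonneg (by positivity)]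
  rw [div_le_div_iff₀ (by positivity) (by positivity)]
  nlinarith

theorem mul_err (a b c d : ℤ) :
    ‖cv ((a * c - b * d) / BB) ((a * d + b * c) / BB) - cv a b * cv c d‖ ≤ 2 / 10 ^ 40 := by
  refine (Complex.norm_le_abs_re_add_abs_im _).trans ?_
  have h1 : (cv ((a * c - b * d) / BB) ((a * d + b * c) / BB) - cv a b * cv c d).re =
      (((a * c - b * d) / BB : ℤ) : ℝ) / 10 ^ 40 - ((a * c - b * d : ℤ) : ℝ) / 10 ^ 80 := by
    simp only [cv, Complex.sub_re, Complex.mul_re]
    push_cast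
    ring
  have h2 : (cv ((a * c - b * d) / BB) ((a * d + b * c) / BB) - cv a b * cv c d).im =
      (((a * d + b * c) / BB : ℤ) : ℝ) / 10 ^ 40 - ((a * d + b * c : ℤ) : ℝ) / 10 ^ 80 := by
    simp only [cv, Complex.sub_im, Complex.mul_im]
    push_cast
    ring
  rw [h1, h2]
  have h3 := div_err (a * c - b * d)
  have h4 := div_err (a * d + b * c)
  calc _ ≤ (1 / 10 ^ 40 + 1 / 10 ^ 40 : ℝ) := add_le_add h3 h4
    _ = 2 / 10 ^ 40 := by ring

/-- the invariant of the evaluation -/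
structure InvE (u p : ℂ) (ε : ℝ) (k : ℕ) (s : St) : Prop where
  t : ‖cv s.tr s.ti - tt u p k‖ ≤ 8 * ε
  w : ‖cv s.wr s.wi - u * p ^ k‖ ≤ (2 * k + 1) * ε
  f : ‖cv s.fr s.fi - ∑ j ∈ range k, tt u p j‖ ≤ k * (8 * ε)
  g : ‖cv s.gr s.gi - ∑ j ∈ range k, (j : ℂ) * tt u p j‖ ≤ k * 1000 * (8 * ε)
  h : ‖cv s.hr s.hi - ∑ j ∈ range k, (j : ℂ) ^ 2 * tt u p j‖ ≤
    k * 1000 ^ 2 * (8 * ε)

/-- the invariant with the error of the arithmetic only -/
abbrev Inv (u p : ℂ) (k : ℕ) (s : St) : Prop := InvE u p (2 / 10 ^ 40) k s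

theorem pow_bound (k : ℕ) : (2 * (k : ℝ) + 1) * (57 / 100) ^ k ≤ 2 := by
  induction k with
  | zero => norm_num
  | succ n ih =>
    rcases Nat.eq_zero_or_pos n with rfl | hn
    · norm_num
    · have h1 : (1 : ℝ) ≤ n := by exact_mod_cast hn
      have h0 : (0 : ℝ) < (57 / 100) ^ n := by positivity
      push_cast
      rw [pow_succ]
      nlinarith

theorem invE_step {u p : ℂ} {ε : ℝ} (hε2 : 2 / 10 ^ 40 ≤ ε) (hε1 : ε ≤ 1 / 10 ^ 10)
    {pr pi : ℤ} (hu : ‖u‖ ≤ 57 / 100) (hp : ‖p‖ = 1)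
    (hP : ‖cv pr pi - p‖ ≤ ε) {k : ℕ} (hk : k ≤ 1000) {s : St} (hs : InvE u p ε k s) :
    InvE u p ε (k + 1) (step pr pi k s) := by
  have hk' : (k : ℝ) ≤ 1000 := by exact_mod_cast hk
  have htt : ‖tt u p k‖ ≤ (57 / 100) ^ k := by
    rw [tt, norm_mul, norm_pow, norm_pow, hp, one_pow, mul_one]
    exact pow_le_pow_left₀ (norm_nonneg _) hu k
  have htt1 : ‖tt u p k‖ ≤ 1 := htt.trans (pow_le_one₀ (by norm_num) (by norm_num))
  have hw : ‖u * p ^ k‖ ≤ 57 / 100 := by
    rw [norm_mul, norm_pow, hp, one_pow, mul_one]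
    exact hu
  have hε0 : 0 < ε := lt_of_lt_of_le (by positivity) hε2
  constructor
  · rw [tt_succ]
    simp only [step]
    have h1 := (mul_err s.tr s.ti s.wr s.wi).trans hε2
    have h2 : cv s.tr s.ti * cv s.wr s.wi - tt u p k * (u * p ^ k) =
        tt u p k * (cv s.wr s.wi - u * p ^ k) +
          (cv s.tr s.ti - tt u p k) * (cv s.wr s.wi - u * p ^ k) +
          (cv s.tr s.ti - tt u p k) * (u * p ^ k) := by ring
    have h3 : ‖cv s.tr s.ti * cv s.wr s.wi - tt u p k * (u * p ^ k)‖ ≤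
        (57 / 100) ^ k * ((2 * k + 1) * ε) + (8 * ε) * ((2 * k + 1) * ε) +
          (8 * ε) * (57 / 100) := by
      rw [h2]
      refine (norm_add₃_le).trans ?_
      rw [norm_mul, norm_mul, norm_mul]
      gcongr
      · exact hs.w
      · exact hs.t
      · exact hs.w
      · exact hs.t
    calc _ = ‖(cv ((s.tr * s.wr - s.ti * s.wi) / BB) ((s.tr * s.wi + s.ti * s.wr) / BB) -
            cv s.tr s.ti * cv s.wr s.wi) +
            (cv s.tr s.ti * cv s.wr s.wi - tt u p k * (u * p ^ k))‖ := by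
          congr 1
          ring
      _ ≤ ε + ((57 / 100) ^ k * ((2 * k + 1) * ε) + (8 * ε) * ((2 * k + 1) * ε) +
          (8 * ε) * (57 / 100)) := (norm_add_le _ _).trans (add_le_add h1 h3)
      _ ≤ 8 * ε := by
          have h4 := pow_bound k
          have h5 : (57 / 100 : ℝ) ^ k * ((2 * k + 1) * ε) ≤ 2 * ε := by
            calc (57 / 100 : ℝ) ^ k * ((2 * k + 1) * ε) = ((2 * (k : ℝ) + 1) * (57 / 100) ^ k) * ε := by
                  ring
              _ ≤ 2 * ε := mul_le_mul_of_nonneg_right h4 hε0.le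
          have h6 : (8 * ε) * ((2 * k + 1) * ε) ≤ ε / 10 := by
            have h7 : (2 * (k : ℝ) + 1) * ε ≤ 1 / 100 := by
              have : (2 * (k : ℝ) + 1) ≤ 2001 := by linarith
              calc (2 * (k : ℝ) + 1) * ε ≤ 2001 * (1 / 10 ^ 10) := by gcongr
                _ ≤ 1 / 100 := by norm_num
            nlinarith
          nlinarith
  · simp only [step]
    have h1 := (mul_err s.wr s.wi pr pi).trans hε2
    have h2 : cv s.wr s.wi * cv pr pi - u * p ^ (k + 1) =
        (cv s.wr s.wi - u * p ^ k) * p + (u * p ^ k) * (cv pr pi - p) +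
        (cv s.wr s.wi - u * p ^ k) * (cv pr pi - p) := by ring
    have h3 : ‖cv s.wr s.wi * cv pr pi - u * p ^ (k + 1)‖ ≤
        ((2 * k + 1) * ε) * 1 + (57 / 100) * ε + ((2 * k + 1) * ε) * ε := by
      rw [h2]
      refine (norm_add₃_le).trans ?_
      refine add_le_add (add_le_add ?_ ?_) ?_
      · rw [norm_mul]
        exact mul_le_mul hs.w hp.le (norm_nonneg _) (by positivity)
      · rw [norm_mul]
        exact mul_le_mul hw hP (norm_nonneg _) (by positivity)
      · rw [norm_mul]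
        exact mul_le_mul hs.w hP (norm_nonneg _) (by positivity)
    calc _ = ‖(cv ((s.wr * pr - s.wi * pi) / BB) ((s.wr * pi + s.wi * pr) / BB) -
            cv s.wr s.wi * cv pr pi) +
            (cv s.wr s.wi * cv pr pi - u * p ^ (k + 1))‖ := by
          congr 1
          ring
      _ ≤ ε + (((2 * k + 1) * ε) * 1 + (57 / 100) * ε + ((2 * k + 1) * ε) * ε) :=
          (norm_add_le _ _).trans (add_le_add h1 h3)
      _ ≤ (2 * ((k + 1 : ℕ) : ℝ) + 1) * ε := by
          have h7 : (2 * (k : ℝ) + 1) * ε ≤ 1 / 100 := by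
            have : (2 * (k : ℝ) + 1) ≤ 2001 := by linarith
            calc (2 * (k : ℝ) + 1) * ε ≤ 2001 * (1 / 10 ^ 10) := by gcongr
              _ ≤ 1 / 100 := by norm_num
          push_cast
          nlinarith
  · simp only [step]
    rw [sum_range_succ, cv_add]
    calc _ = ‖(cv s.fr s.fi - ∑ j ∈ range k, tt u p j) + (cv s.tr s.ti - tt u p k)‖ := by
          congr 1
          ring
      _ ≤ k * (8 * ε) + 8 * ε := (norm_add_le _ _).trans (add_le_add hs.f hs.t)
      _ = _ := by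
          push_cast
          ring
  · simp only [step]
    rw [sum_range_succ, cv_add, cv_smul]
    calc _ = ‖(cv s.gr s.gi - ∑ j ∈ range k, (j : ℂ) * tt u p j) +
            (k : ℂ) * (cv s.tr s.ti - tt u p k)‖ := by
          congr 1
          push_cast
          ring
      _ ≤ k * 1000 * (8 * ε) + 1000 * (8 * ε) := by
          refine (norm_add_le _ _).trans (add_le_add hs.g ?_)
          rw [norm_mul, Complex.norm_natCast]
          exact mul_le_mul hk' hs.t (norm_nonneg _) (by norm_num)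
      _ = _ := by
          push_cast
          ring
  · simp only [step]
    rw [sum_range_succ, cv_add, cv_smul]
    calc _ = ‖(cv s.hr s.hi - ∑ j ∈ range k, (j : ℂ) ^ 2 * tt u p j) +
            (k : ℂ) ^ 2 * (cv s.tr s.ti - tt u p k)‖ := by
          congr 1
          push_cast
          ring
      _ ≤ k * 1000 ^ 2 * (8 * ε) + 1000 ^ 2 * (8 * ε) := by
          refine (norm_add_le _ _).trans (add_le_add hs.h ?_)
          rw [norm_mul, norm_pow, Complex.norm_natCast]
          exact mul_le_mul (pow_le_pow_left₀ (by positivity) hk' 2) hs.t (norm_nonneg _)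
            (by norm_num)
      _ = _ := by
          push_cast
          ring

theorem invE_run {u p : ℂ} {ε : ℝ} (hε2 : 2 / 10 ^ 40 ≤ ε) (hε1 : ε ≤ 1 / 10 ^ 10)
    {pr pi : ℤ} (hu : ‖u‖ ≤ 57 / 100) (hp : ‖p‖ = 1)
    (hP : ‖cv pr pi - p‖ ≤ ε) (n : ℕ) : ∀ (k : ℕ) (s : St), k + n ≤ 1000 →
    InvE u p ε k s → InvE u p ε (k + n) (run pr pi n k s) := by
  induction n with
  | zero =>
    intro k s _ hs
    simpa [run] using hs
  | succ n ih =>
    intro k s hk hs
    rw [run, fS_eq, fI_eq]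
    have h := ih (k + 1) (step pr pi k s) (by omega)
      (invE_step hε2 hε1 hu hp hP (by omega) hs)
    rw [show k + (n + 1) = k + 1 + n by ring]
    have h2 : ((k + 1 : ℕ) : ℤ) = (k : ℤ) + 1 := by push_cast; ring
    rw [h2] at h
    exact h

theorem invE_ini {u p : ℂ} {ε : ℝ} (hε : 0 ≤ ε) {ur ui : ℤ} (hU : ‖cv ur ui - u‖ ≤ ε) :
    InvE u p ε 0 (ini ur ui) := by
  have h0 : cv 0 0 = 0 := by
    apply Complex.ext <;> simp [cv]
  have h1 : cv BB 0 = 1 := by
    apply Complex.ext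
    · simp only [cv, BB, Complex.one_re]
      norm_num
    · simp [cv]
  constructor
  · simp only [ini, tt_zero, h1, sub_self, norm_zero]
    positivity
  · simpa [ini] using hU
  · simp [ini, h0]
  · simp [ini, h0]
  · simp [ini, h0]

theorem inv_run {u p : ℂ} {pr pi : ℤ} (hu : ‖u‖ ≤ 57 / 100) (hp : ‖p‖ = 1)
    (hP : ‖cv pr pi - p‖ ≤ 2 / 10 ^ 40) (n : ℕ) (k : ℕ) (s : St) (hk : k + n ≤ 1000)
    (hs : Inv u p k s) : Inv u p (k + n) (run pr pi n k s) :=
  invE_run le_rfl (by norm_num) hu hp hP n k s hk hs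

theorem inv_ini {u p : ℂ} {ur ui : ℤ} (hU : ‖cv ur ui - u‖ ≤ 2 / 10 ^ 40) :
    Inv u p 0 (ini ur ui) := invE_ini (by positivity) hU

/-! ### Bounds for the series -/

theorem pow_bound2 (k : ℕ) : (k : ℝ) ^ 2 * (57 / 100) ^ k ≤ 13 * (7 / 10) ^ k := by
  rcases Nat.lt_or_ge k 10 with hk | hk
  · interval_cases k <;> norm_num
  · induction k, hk using Nat.le_induction with
    | base => norm_num
    | succ n hn ih =>
      have h1 : (10 : ℝ) ≤ n := by exact_mod_cast hn
      have h0 : (0 : ℝ) < (57 / 100) ^ n := by positivity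
      have h2 : ((n : ℝ) + 1) ^ 2 * (57 / 100) ≤ (n : ℝ) ^ 2 * (7 / 10) := by nlinarith
      push_cast
      calc ((n : ℝ) + 1) ^ 2 * (57 / 100) ^ (n + 1)
          = (((n : ℝ) + 1) ^ 2 * (57 / 100)) * (57 / 100) ^ n := by ring
        _ ≤ ((n : ℝ) ^ 2 * (7 / 10)) * (57 / 100) ^ n := by gcongr
        _ = ((n : ℝ) ^ 2 * (57 / 100) ^ n) * (7 / 10) := by ring
        _ ≤ (13 * (7 / 10) ^ n) * (7 / 10) := by gcongr
        _ = 13 * (7 / 10) ^ (n + 1) := by ring

theorem pow_bound_i {i : ℕ} (hi : i ≤ 2) (k : ℕ) :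
    (k : ℝ) ^ i * (57 / 100) ^ k ≤ 13 * (7 / 10) ^ k := by
  rcases Nat.eq_zero_or_pos k with rfl | hk
  · interval_cases i <;> norm_num
  · refine le_trans ?_ (pow_bound2 k)
    gcongr
    exact_mod_cast hk

theorem term_bound {u p : ℂ} (hu : ‖u‖ ≤ 57 / 100) (hp : ‖p‖ ≤ 1) {i : ℕ} (hi : i ≤ 2) (k : ℕ) :
    ‖(k : ℂ) ^ i * tt u p k‖ ≤ 13 * (7 / 10) ^ k := by
  refine le_trans ?_ (pow_bound_i hi k)
  rw [norm_mul, norm_pow, Complex.norm_natCast]
  gcongr
  rw [tt, norm_mul, norm_pow, norm_pow]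
  calc ‖u‖ ^ k * ‖p‖ ^ (k * (k - 1) / 2) ≤ (57 / 100) ^ k * 1 := by
        gcongr
        exact pow_le_one₀ (norm_nonneg _) hp
    _ = _ := mul_one _

theorem summable_term {u p : ℂ} (hu : ‖u‖ ≤ 57 / 100) (hp : ‖p‖ ≤ 1) {i : ℕ} (hi : i ≤ 2) :
    Summable fun k : ℕ => (k : ℂ) ^ i * tt u p k :=
  Summable.of_norm_bounded
    ((summable_geometric_of_lt_one (by norm_num) (by norm_num : (7 / 10 : ℝ) < 1)).mul_left 13)
    fun k => term_bound hu hp hi k

theorem tail_bound {u p : ℂ} (hu : ‖u‖ ≤ 57 / 100) (hp : ‖p‖ ≤ 1) {i : ℕ} (hi : i ≤ 2) (n : ℕ) :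
    ‖∑' k : ℕ, (k : ℂ) ^ i * tt u p k - ∑ k ∈ range n, (k : ℂ) ^ i * tt u p k‖ ≤
      13 * (7 / 10) ^ n * (10 / 3) := by
  have h1 := (summable_term hu hp hi).sum_add_tsum_nat_add n
  rw [← h1, add_sub_cancel_left]
  have h2 : HasSum (fun k : ℕ => 13 * (7 / 10) ^ n * (7 / 10 : ℝ) ^ k)
      (13 * (7 / 10) ^ n * (10 / 3)) := by
    have := (hasSum_geometric_of_lt_one (by norm_num) (by norm_num : (7 / 10 : ℝ) < 1)).mul_left
      (13 * (7 / 10) ^ n)
    norm_num at this ⊢
    exact this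
  refine tsum_of_norm_bounded h2 fun k => ?_
  refine (term_bound hu hp hi (k + n)).trans (le_of_eq ?_)
  rw [pow_add]
  ring

/-- relation with the sums over `xst` -/
theorem xst_eq {r : ℝ} {q ω : ℂ} (hω : ω ≠ 0) (j : ℕ) :
    (r : ℂ) ^ (j + 1) * xst q ω j = ω * tt (r * ω⁻¹) q⁻¹ (j + 1) := by
  have h : (j + 1) * (j + 1 - 1) / 2 = j * (j + 1) / 2 := by
    rw [Nat.add_sub_cancel, mul_comm]
  rw [tt, h, xst, mul_pow, inv_pow, inv_pow, pow_succ ω]
  field_simp

end Crit
end Pool.Agent.H93
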