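import Pool.Agent.Lib.H93.CritLip

/-!
Third moment: kernel evaluation, and the values of the moment sums at the reference point.
-/

namespace Pool.Agent.H93
namespace Crit

open Finset

/-- state of the evaluation of the third moment -/
structure St3 where
  tr : ℤ
  ti : ℤ
  wr : ℤ
  wi : ℤ
  mr : ℤ
  mi : ℤ
deriving DecidableEq

/-- one step -/
def step3 (pr pi k : ℤ) (s : St3) : St3 :=
  ⟨(s.tr * s.wr - s.ti * s.wi) / BB, (s.tr * s.wi + s.ti * s.wr) / BB,
    (s.wr * pr - s.wi * pi) / BB, (s.wr * pi + s.wi * pr) / BB,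
    s.mr + k * k * k * s.tr, s.mi + k * k * k * s.ti⟩

/-- force a state -/
def fS3 {α : Type} (s : St3) (k : St3 → α) : α :=
  match s with
  | ⟨a, b, c, d, e, f⟩ =>
    fI a fun a => fI b fun b => fI c fun c => fI d fun d => fI e fun e => fI f fun f =>
      k ⟨a, b, c, d, e, f⟩

theorem fS3_eq {α : Type} (s : St3) (k : St3 → α) : fS3 s k = k s := by
  cases s
  simp [fS3, fI_eq]

/-- the evaluation -/
def run3 (pr pi : ℤ) : ℕ → ℤ → St3 → St3
  | 0, _, s => s
  | n + 1, k, s => fS3 (step3 pr pi k s) fun s' => fI (k + 1) fun k' => run3 pr pi n k' s'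

/-- the invariant -/
structure Inv3 (u p : ℂ) (k : ℕ) (s : St3) : Prop where
  t : ‖cv s.tr s.ti - tt u p k‖ ≤ 8 * (2 / 10 ^ 40)
  w : ‖cv s.wr s.wi - u * p ^ k‖ ≤ (2 * k + 1) * (2 / 10 ^ 40)
  m : ‖cv s.mr s.mi - ∑ j ∈ range k, (j : ℂ) ^ 3 * tt u p j‖ ≤
    k * 1000 ^ 3 * (8 * (2 / 10 ^ 40))

theorem stepTW {u p : ℂ} {ε : ℝ} (hε2 : 2 / 10 ^ 40 ≤ ε) (hε1 : ε ≤ 1 / 10 ^ 10)
    {pr pi : ℤ} (hu : ‖u‖ ≤ 57 / 100) (hp : ‖p‖ = 1)
    (hP : ‖cv pr pi - p‖ ≤ ε) {k : ℕ} (hk : k ≤ 1000) {tr ti wr wi : ℤ}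
    (ht : ‖cv tr ti - tt u p k‖ ≤ 8 * ε) (hw0 : ‖cv wr wi - u * p ^ k‖ ≤ (2 * k + 1) * ε) :
    ‖cv ((tr * wr - ti * wi) / BB) ((tr * wi + ti * wr) / BB) - tt u p (k + 1)‖ ≤ 8 * ε ∧
    ‖cv ((wr * pr - wi * pi) / BB) ((wr * pi + wi * pr) / BB) - u * p ^ (k + 1)‖ ≤
      (2 * ((k + 1 : ℕ) : ℝ) + 1) * ε := by
  have hk' : (k : ℝ) ≤ 1000 := by exact_mod_cast hk
  have htt : ‖tt u p k‖ ≤ (57 / 100) ^ k := by
    rw [tt, norm_mul, norm_pow, norm_pow, hp, one_pow, mul_one]
    exact pow_le_pow_left₀ (norm_nonneg _) hu k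
  have htt1 : ‖tt u p k‖ ≤ 1 := htt.trans (pow_le_one₀ (by norm_num) (by norm_num))
  have hw : ‖u * p ^ k‖ ≤ 57 / 100 := by
    rw [norm_mul, norm_pow, hp, one_pow, mul_one]
    exact hu
  have hε0 : 0 < ε := lt_of_lt_of_le (by positivity) hε2
  constructor
  · rw [tt_succ]
    have h1 := (mul_err tr ti wr wi).trans hε2
    have h2 : cv tr ti * cv wr wi - tt u p k * (u * p ^ k) =
        tt u p k * (cv wr wi - u * p ^ k) +
          (cv tr ti - tt u p k) * (cv wr wi - u * p ^ k) +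
          (cv tr ti - tt u p k) * (u * p ^ k) := by ring
    have h3 : ‖cv tr ti * cv wr wi - tt u p k * (u * p ^ k)‖ ≤
        (57 / 100) ^ k * ((2 * k + 1) * ε) + (8 * ε) * ((2 * k + 1) * ε) +
          (8 * ε) * (57 / 100) := by
      rw [h2]
      refine (norm_add₃_le).trans ?_
      rw [norm_mul, norm_mul, norm_mul]
      gcongr
    calc _ = ‖(cv ((tr * wr - ti * wi) / BB) ((tr * wi + ti * wr) / BB) -
            cv tr ti * cv wr wi) +
            (cv tr ti * cv wr wi - tt u p k * (u * p ^ k))‖ := by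
          congr 1
          ring
      _ ≤ ε + ((57 / 100) ^ k * ((2 * k + 1) * ε) + (8 * ε) * ((2 * k + 1) * ε) +
          (8 * ε) * (57 / 100)) := (norm_add_le _ _).trans (add_le_add h1 h3)
      _ ≤ 8 * ε := by
          have h4 := pow_bound k
          have h5 : (57 / 100 : ℝ) ^ k * ((2 * k + 1) * ε) ≤ 2 * ε := by
            calc (57 / 100 : ℝ) ^ k * ((2 * k + 1) * ε) = ((2 * (k : ℝ) + 1) * (57 / 100) ^ k) * ε := by
                  ring
              _ ≤ 2 * ε := mul_le_mul_of_nonneg_right h4 hε0.le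
          have h6 : (8 * ε) * ((2 * k + 1) * ε) ≤ ε / 10 := by
            have h7 : (2 * (k : ℝ) + 1) * ε ≤ 1 / 100 := by
              have : (2 * (k : ℝ) + 1) ≤ 2001 := by linarith
              calc (2 * (k : ℝ) + 1) * ε ≤ 2001 * (1 / 10 ^ 10) := by gcongr
                _ ≤ 1 / 100 := by norm_num
            nlinarith
          nlinarith
  · have h1 := (mul_err wr wi pr pi).trans hε2
    have h2 : cv wr wi * cv pr pi - u * p ^ (k + 1) =
        (cv wr wi - u * p ^ k) * p + (u * p ^ k) * (cv pr pi - p) +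
        (cv wr wi - u * p ^ k) * (cv pr pi - p) := by ring
    have h3 : ‖cv wr wi * cv pr pi - u * p ^ (k + 1)‖ ≤
        ((2 * k + 1) * ε) * 1 + (57 / 100) * ε + ((2 * k + 1) * ε) * ε := by
      rw [h2]
      refine (norm_add₃_le).trans ?_
      refine add_le_add (add_le_add ?_ ?_) ?_
      · rw [norm_mul]
        exact mul_le_mul hw0 hp.le (norm_nonneg _) (by positivity)
      · rw [norm_mul]
        exact mul_le_mul hw hP (norm_nonneg _) (by positivity)
      · rw [norm_mul]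
        exact mul_le_mul hw0 hP (norm_nonneg _) (by positivity)
    calc _ = ‖(cv ((wr * pr - wi * pi) / BB) ((wr * pi + wi * pr) / BB) -
            cv wr wi * cv pr pi) +
            (cv wr wi * cv pr pi - u * p ^ (k + 1))‖ := by
          congr 1
          ring
      _ ≤ ε + (((2 * k + 1) * ε) * 1 + (57 / 100) * ε + ((2 * k + 1) * ε) * ε) :=
          (norm_add_le _ _).trans (add_le_add h1 h3)
      _ ≤ (2 * ((k + 1 : ℕ) : ℝ) + 1) * ε := by
          have h7 : (2 * (k : ℝ) + 1) * ε ≤ 1 / 100 := by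
            have : (2 * (k : ℝ) + 1) ≤ 2001 := by linarith
            calc (2 * (k : ℝ) + 1) * ε ≤ 2001 * (1 / 10 ^ 10) := by gcongr
              _ ≤ 1 / 100 := by norm_num
          push_cast
          nlinarith

theorem inv3_step {u p : ℂ} {pr pi : ℤ} (hu : ‖u‖ ≤ 57 / 100) (hp : ‖p‖ = 1)
    (hP : ‖cv pr pi - p‖ ≤ 2 / 10 ^ 40) {k : ℕ} (hk : k ≤ 1000) {s : St3} (hs : Inv3 u p k s) :
    Inv3 u p (k + 1) (step3 pr pi k s) := by
  have hk' : (k : ℝ) ≤ 1000 := by exact_mod_cast hk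
  have h1 := stepTW le_rfl (by norm_num) hu hp hP hk hs.t hs.w
  refine ⟨h1.1, h1.2, ?_⟩
  simp only [step3]
  rw [sum_range_succ, cv_add, cv_smul]
  calc _ = ‖(cv s.mr s.mi - ∑ j ∈ range k, (j : ℂ) ^ 3 * tt u p j) +
          (k : ℂ) ^ 3 * (cv s.tr s.ti - tt u p k)‖ := by
        congr 1
        push_cast
        ring
    _ ≤ k * 1000 ^ 3 * (8 * (2 / 10 ^ 40)) + 1000 ^ 3 * (8 * (2 / 10 ^ 40)) := by
        refine (norm_add_le _ _).trans (add_le_add hs.m ?_)
        rw [norm_mul, norm_pow, Complex.norm_natCast]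
        exact mul_le_mul (pow_le_pow_left₀ (by positivity) hk' 3) hs.t (norm_nonneg _)
          (by norm_num)
    _ = _ := by
        push_cast
        ring

theorem inv3_run {u p : ℂ} {pr pi : ℤ} (hu : ‖u‖ ≤ 57 / 100) (hp : ‖p‖ = 1)
    (hP : ‖cv pr pi - p‖ ≤ 2 / 10 ^ 40) (n : ℕ) : ∀ (k : ℕ) (s : St3), k + n ≤ 1000 →
    Inv3 u p k s → Inv3 u p (k + n) (run3 pr pi n k s) := by
  induction n with
  | zero =>
    intro k s _ hs
    simpa [run3] using hs
  | succ n ih =>
    intro k s hk hs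
    rw [run3, fS3_eq, fI_eq]
    have h := ih (k + 1) (step3 pr pi k s) (by omega) (inv3_step hu hp hP (by omega) hs)
    rw [show k + (n + 1) = k + 1 + n by ring]
    have h2 : ((k + 1 : ℕ) : ℤ) = (k : ℤ) + 1 := by push_cast; ring
    rw [h2] at h
    exact h

theorem run3_one : run3 (-7203653525164264230463318082435766085968)
    (-6935948088717826409490332616583967816539) 300 0
    ⟨BB, 0, -5568427218353715371468878435711394546313, 700279052651297721823547068911708782749,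
      0, 0⟩ =
    ⟨0, 0, 4981037105993062680297185207364724575931, 2585931512319100455820678741310611969053,
      -199584931185563069180835236061909925469143,
      -12129606940235263259887240292134037245367⟩ := by decide +kernel

/-! ### The reference point -/

/-- reference `u` -/
noncomputable def u1 : ℂ :=
  cv (-5568427218353715371468878435711394546313) 700279052651297721823547068911708782749

/-- reference `p` on the unit circle -/
noncomputable def p1 : ℂ :=
  (1 - (24803607675709287642 / 10 ^ 19 : ℝ) * Complex.I) /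
    (1 + (24803607675709287642 / 10 ^ 19 : ℝ) * Complex.I)

theorem norm_p1 : ‖p1‖ = 1 := by
  have h : ∀ s : ℝ, ‖(1 - (s : ℂ) * Complex.I) / (1 + (s : ℂ) * Complex.I)‖ = 1 := by
    intro s
    have h1 : (1 - (s : ℂ) * Complex.I) = (starRingEnd ℂ) (1 + (s : ℂ) * Complex.I) := by
      simp [sub_eq_add_neg]
    have h2 : ‖1 + (s : ℂ) * Complex.I‖ ≠ 0 := by
      rw [norm_ne_zero_iff]
      intro h
      have := congrArg Complex.re h
      simp at this
    rw [norm_div, h1, RCLike.norm_conj, div_self h2]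
  exact h _

theorem p1_eq : p1 = ⟨(1 - (24803607675709287642 / 10 ^ 19 : ℝ) ^ 2) /
    (1 + (24803607675709287642 / 10 ^ 19 : ℝ) ^ 2),
    -(2 * (24803607675709287642 / 10 ^ 19 : ℝ)) / (1 + (24803607675709287642 / 10 ^ 19 : ℝ) ^ 2)⟩ := by
  have h : ∀ s : ℝ, (1 - (s : ℂ) * Complex.I) / (1 + (s : ℂ) * Complex.I) =
      ⟨(1 - s ^ 2) / (1 + s ^ 2), -(2 * s) / (1 + s ^ 2)⟩ := by
    intro s
    have h2 : 1 + (s : ℂ) * Complex.I ≠ 0 := by
      intro h
      have := congrArg Complex.re h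
      simp at this
    have h3 : (1 + s ^ 2 : ℝ) ≠ 0 := by positivity
    rw [div_eq_iff h2]
    apply Complex.ext
    · simp
      field_simp
      ring
    · simp
      field_simp
      ring
  exact h _

theorem cv_p1 : ‖cv (-7203653525164264230463318082435766085968)
    (-6935948088717826409490332616583967816539) - p1‖ ≤ 2 / 10 ^ 40 := by
  rw [p1_eq]
  refine (Complex.norm_le_abs_re_add_abs_im _).trans ?_
  simp only [cv, Complex.sub_re, Complex.sub_im]
  norm_num [abs_le, abs_of_nonneg, abs_of_nonpos]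

theorem norm_u1 : ‖u1‖ ≤ 57 / 100 := by
  rw [← abs_norm, ← abs_of_nonneg (show (0 : ℝ) ≤ 57 / 100 by norm_num), ← sq_le_sq,
    ← Complex.normSq_eq_norm_sq, Complex.normSq_apply]
  simp only [u1, cv]
  norm_num

theorem invRef : Inv u1 p1 300 ⟨0, 0, 4981037105993062680297185207364724575931,
      2585931512319100455820678741310611969053,
      -82, -79, -18082757614246032020020540026500566984837,
      -324000303437077966084934821502183569829, -48966548394281516279320008966550252246511,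
      -877364884076895765644484069737586521055⟩ := by
  have h := inv_run norm_u1 norm_p1 cv_p1 300 0 _ (by norm_num)
    (inv_ini (u := u1) (p := p1) (ur := -5568427218353715371468878435711394546313)
      (ui := 700279052651297721823547068911708782749) (by
        rw [u1, sub_self, norm_zero]
        positivity))
  simp only [Nat.cast_zero, zero_add] at h
  rw [run_one] at h
  exact h

theorem inv3Ref : Inv3 u1 p1 300 ⟨0, 0, 4981037105993062680297185207364724575931,
      2585931512319100455820678741310611969053,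
      -199584931185563069180835236061909925469143,
      -12129606940235263259887240292134037245367⟩ := by
  have h0 : Inv3 u1 p1 0 ⟨BB, 0, -5568427218353715371468878435711394546313,
      700279052651297721823547068911708782749, 0, 0⟩ := by
    have h0 : cv 0 0 = 0 := by
      apply Complex.ext <;> simp [cv]
    have h1 : cv BB 0 = 1 := by
      apply Complex.ext
      · simp only [cv, BB, Complex.one_re]
        norm_num
      · simp [cv]
    constructor
    · simp only [tt_zero, h1, sub_self, norm_zero]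
      positivity
    · simp only [u1, pow_zero, mul_one, sub_self, norm_zero]
      positivity
    · simp [h0]
  have h := inv3_run norm_u1 norm_p1 cv_p1 300 0 _ (by norm_num) h0
  simp only [Nat.cast_zero, zero_add] at h
  rw [run3_one] at h
  exact h

theorem tiny_tail : (13 : ℝ) * (7 / 10) ^ 300 * (10 / 3) ≤ 1 / 10 ^ 40 := by
  have h5 : (7 / 10 : ℝ) ^ 300 = ((7 / 10 : ℝ) ^ 30) ^ 10 := by rw [← pow_mul]
  have h6 : (7 / 10 : ℝ) ^ 30 ≤ 3 / 10 ^ 5 := by norm_num
  have h7 : ((7 / 10 : ℝ) ^ 30) ^ 10 ≤ (3 / 10 ^ 5) ^ 10 := by gcongr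
  rw [h5]
  calc (13 : ℝ) * ((7 / 10 : ℝ) ^ 30) ^ 10 * (10 / 3) ≤ 13 * (3 / 10 ^ 5) ^ 10 * (10 / 3) := by
        gcongr
    _ ≤ _ := by norm_num

theorem SS0_one : ‖SS 0 u1 p1‖ ≤ 1 / 10 ^ 30 := by
  have h1 := invRef.f
  have h2 := tail_bound norm_u1 norm_p1.le (show 0 ≤ 2 by norm_num) 300
  simp only [pow_zero, one_mul] at h2
  have h3 : ‖cv (-82) (-79)‖ ≤ 1 / 10 ^ 37 := by
    refine (Complex.norm_le_abs_re_add_abs_im _).trans ?_
    simp only [cv]
    norm_num [abs_of_nonpos]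
  have h4 : SS 0 u1 p1 = (∑' k : ℕ, tt u1 p1 k - ∑ j ∈ range 300, tt u1 p1 j) -
      (cv (-82) (-79) - ∑ j ∈ range 300, tt u1 p1 j) + cv (-82) (-79) := by
    simp only [SS, pow_zero, one_mul]
    ring
  rw [h4]
  calc _ ≤ 1 / 10 ^ 40 + ((300 : ℕ) : ℝ) * (8 * (2 / 10 ^ 40)) + 1 / 10 ^ 37 := by
        refine (norm_add_le _ _).trans (add_le_add ((norm_sub_le _ _).trans
          (add_le_add (h2.trans tiny_tail) h1)) h3)
    _ ≤ _ := by norm_num

theorem SS1_one : ‖SS 1 u1 p1 - cv (-18082757614246032020020540026500566984837)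
      (-324000303437077966084934821502183569829)‖ ≤ 1 / 10 ^ 30 := by
  have h1 := invRef.g
  have h2 := tail_bound norm_u1 norm_p1.le (show 1 ≤ 2 by norm_num) 300
  simp only [pow_one] at h2
  have h4 : SS 1 u1 p1 - cv (-18082757614246032020020540026500566984837)
      (-324000303437077966084934821502183569829) =
      (∑' k : ℕ, (k : ℂ) * tt u1 p1 k - ∑ j ∈ range 300, (j : ℂ) * tt u1 p1 j) -
      (cv (-18082757614246032020020540026500566984837)
      (-324000303437077966084934821502183569829) -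
        ∑ j ∈ range 300, (j : ℂ) * tt u1 p1 j) := by
    simp only [SS, pow_one]
    ring
  rw [h4]
  calc _ ≤ 1 / 10 ^ 40 + ((300 : ℕ) : ℝ) * 1000 * (8 * (2 / 10 ^ 40)) :=
        (norm_sub_le _ _).trans (add_le_add (h2.trans tiny_tail) h1)
    _ ≤ _ := by norm_num

theorem SS2_one : ‖SS 2 u1 p1 - cv (-48966548394281516279320008966550252246511)
      (-877364884076895765644484069737586521055)‖ ≤ 1 / 10 ^ 28 := by
  have h1 := invRef.h
  have h2 := tail_bound norm_u1 norm_p1.le (show 2 ≤ 2 by norm_num) 300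
  have h4 : SS 2 u1 p1 - cv (-48966548394281516279320008966550252246511)
      (-877364884076895765644484069737586521055) =
      (∑' k : ℕ, (k : ℂ) ^ 2 * tt u1 p1 k - ∑ j ∈ range 300, (j : ℂ) ^ 2 * tt u1 p1 j) -
      (cv (-48966548394281516279320008966550252246511)
      (-877364884076895765644484069737586521055) -
        ∑ j ∈ range 300, (j : ℂ) ^ 2 * tt u1 p1 j) := by
    simp only [SS]
    ring
  rw [h4]
  calc _ ≤ 1 / 10 ^ 40 + ((300 : ℕ) : ℝ) * 1000 ^ 2 * (8 * (2 / 10 ^ 40)) :=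
        (norm_sub_le _ _).trans (add_le_add (h2.trans tiny_tail) h1)
    _ ≤ _ := by norm_num

/-! third moment -/

theorem term_bound3 {u p : ℂ} (hu : ‖u‖ ≤ 57 / 100) (hp : ‖p‖ ≤ 1) (k : ℕ) :
    ‖(k : ℂ) ^ 3 * tt u p k‖ ≤ 35 * (8 / 10) ^ k := by
  refine le_trans ?_ (pow_bound3 k)
  rw [norm_mul, norm_pow, Complex.norm_natCast]
  gcongr
  rw [tt, norm_mul, norm_pow, norm_pow]
  calc ‖u‖ ^ k * ‖p‖ ^ (k * (k - 1) / 2) ≤ (57 / 100) ^ k * 1 := by
        gcongr
        exact pow_le_one₀ (norm_nonneg _) hp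
    _ = _ := mul_one _

theorem summable_term3 {u p : ℂ} (hu : ‖u‖ ≤ 57 / 100) (hp : ‖p‖ ≤ 1) :
    Summable fun k : ℕ => (k : ℂ) ^ 3 * tt u p k :=
  Summable.of_norm_bounded
    ((summable_geometric_of_lt_one (by norm_num) (by norm_num : (8 / 10 : ℝ) < 1)).mul_left 35)
    fun k => term_bound3 hu hp k

theorem tail_bound3 {u p : ℂ} (hu : ‖u‖ ≤ 57 / 100) (hp : ‖p‖ ≤ 1) (n : ℕ) :
    ‖∑' k : ℕ, (k : ℂ) ^ 3 * tt u p k - ∑ k ∈ range n, (k : ℂ) ^ 3 * tt u p k‖ ≤
      35 * (8 / 10) ^ n * 5 := by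
  have h1 := (summable_term3 hu hp).sum_add_tsum_nat_add n
  rw [← h1, add_sub_cancel_left]
  have h2 : HasSum (fun k : ℕ => 35 * (8 / 10) ^ n * (8 / 10 : ℝ) ^ k)
      (35 * (8 / 10) ^ n * 5) := by
    have := (hasSum_geometric_of_lt_one (by norm_num) (by norm_num : (8 / 10 : ℝ) < 1)).mul_left
      (35 * (8 / 10) ^ n)
    norm_num at this ⊢
    exact this
  refine tsum_of_norm_bounded h2 fun k => ?_
  refine (term_bound3 hu hp (k + n)).trans (le_of_eq ?_)
  rw [pow_add]
  ring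

theorem SS3_one : ‖SS 3 u1 p1 - cv (-199584931185563069180835236061909925469143)
      (-12129606940235263259887240292134037245367)‖ ≤ 1 / 10 ^ 20 := by
  have h1 := inv3Ref.m
  have h2 := tail_bound3 norm_u1 norm_p1.le 300
  have h3 : (35 : ℝ) * (8 / 10) ^ 300 * 5 ≤ 1 / 10 ^ 24 := by
    have h5 : (8 / 10 : ℝ) ^ 300 = ((8 / 10 : ℝ) ^ 30) ^ 10 := by rw [← pow_mul]
    have h6 : (8 / 10 : ℝ) ^ 30 ≤ 2 / 10 ^ 3 := by norm_num
    have h7 : ((8 / 10 : ℝ) ^ 30) ^ 10 ≤ (2 / 10 ^ 3) ^ 10 := by gcongr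
    rw [h5]
    calc (35 : ℝ) * ((8 / 10 : ℝ) ^ 30) ^ 10 * 5 ≤ 35 * (2 / 10 ^ 3) ^ 10 * 5 := by
          gcongr
      _ ≤ _ := by norm_num
  have h4 : SS 3 u1 p1 - cv (-199584931185563069180835236061909925469143)
      (-12129606940235263259887240292134037245367) =
      (∑' k : ℕ, (k : ℂ) ^ 3 * tt u1 p1 k - ∑ j ∈ range 300, (j : ℂ) ^ 3 * tt u1 p1 j) -
      (cv (-199584931185563069180835236061909925469143)
      (-12129606940235263259887240292134037245367) -
        ∑ j ∈ range 300, (j : ℂ) ^ 3 * tt u1 p1 j) := by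
    simp only [SS]
    ring
  rw [h4]
  calc _ ≤ 1 / 10 ^ 24 + ((300 : ℕ) : ℝ) * 1000 ^ 3 * (8 * (2 / 10 ^ 40)) :=
        (norm_sub_le _ _).trans (add_le_add (h2.trans h3) h1)
    _ ≤ _ := by norm_num

theorem SS3_lip {u v p p' : ℂ} (hu : ‖u‖ ≤ 57 / 100) (hv : ‖v‖ ≤ 57 / 100)
    (hp : ‖p‖ ≤ 1) (hp' : ‖p'‖ ≤ 1) :
    ‖SS 3 u p - SS 3 v p'‖ ≤ 2000 * ‖u - v‖ + 5500 * ‖p - p'‖ := by
  refine (SS_lip_gen hu hv hp hp' 3 (by norm_num) (by norm_num) (by norm_num) (by norm_num)
    pow_bound4 pow_bound5 (summable_term3 hu hp) (summable_term3 hv hp')).trans ?_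
  have h1 := norm_nonneg (u - v)
  have h2 := norm_nonneg (p - p')
  norm_num
  nlinarith

end Crit
end Pool.Agent.H93
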