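import Pool.Agent.Lib.H93.CriticalMain

/-!
Chunk C: the critical point of `ψ` (existence with numerical enclosure).

Write `q = e^{iθ}`, `u = r / ω` and
`F(u, θ) = 1 + ∑_{k ≥ 1} u^k q^{-k(k-1)/2}` (so `F(u,θ) = ψ(u, q⁻¹)`), for `|u| < 1`.
With `xst q ω j = q^{-j(j+1)/2} ω^{-j}` one has
`u^{j+1} q^{-j(j+1)/2} = ω⁻¹ r^{j+1} xst q ω j`, so the first equation below is `F(u, θ) = 0`,
and with `g = ∑ (j+1) r^{j+1} x_j = ω u F_u`, `g2 = ∑ (j+1)^2 r^{j+1} x_j`, the second equation
`Im (g2 / g) = 0` says that along the zero branch `u(θ)` the derivative of `|u(θ)|` vanishes: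
`u'/u = - F_θ/(u F_u) = (i/2) (∑ k(k-1) u^k q^{-k(k-1)/2}) / (∑ k u^k q^{-k(k-1)/2})
     = (i/2) (g2 - g)/g`, `Re (u'/u) = - Im (g2/g) / 2`.

High precision values:
theta = 2.37512525383425083126176244167674287245356777
q     = -0.72036535251642642304673303990910029705099979 + 0.69359480887178264094861654373248572541443900 i
u     = -0.55684272183537153714692243722591935917106352 + 0.07002790526512977218207962762365682725329979 i
r     =  0.56122876296288214325405844270326190149807634687754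
omega = -0.99218493167678099795890718792869509156549741 - 0.12477604479042210375439311298149638709769222 i
|u(θ)| - r ≈ (3.3301106/2) (θ - θ*)^2, du/dθ ≈ -0.0598008 - 0.4755197 i, |F_u(u*)| ≈ 3.2225

Suggested proof. Let `K` be the set of `(q, u)` with `q` on the short closed arc of the unit circle
around `q̂` with end points at distance `δ = 5*10^{-19}` (rational points of the circle, or
`q = q̂ (1+it)/(1-it)`, `|t| ≤ δ/2`), `u` in a small closed disc around `û` and `F = 0`. `K` is compact.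
Numerically (fixed point arithmetic with about 140 bits, sums up to `k ≈ 160`, by `decide`):
at the centre there is a zero with `|u| ≤ r̂ + 10^{-38}` (Newton/Banach fixed point), while every
zero at the two end points has `|u| ≥ r̂ + 10^{-37}`. So the minimum of `|u|` over `K` is attained at
an interior point of the arc; there `F_u ≠ 0`, the implicit function theorem gives the branch
`u(θ)`, and `|u(θ)|^2` has a local minimum, hence derivative `0`, which is the second equation.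
-/

namespace Pool.Agent.H93

/-- decimal value of `r`. -/
noncomputable def rHat : ℝ := 0.56122876296288214325405844
/-- decimal value of `q`. -/
noncomputable def qHat : ℂ := ⟨-0.72036535251642642304673304, 0.69359480887178264094861654⟩
/-- decimal value of `ω`. -/
noncomputable def omHat : ℂ := ⟨-0.99218493167678099795890719, -0.12477604479042210375439311⟩

open Complex Metric Set CritPt
open scoped ComplexConjugate

namespace CritPt

/-- `u = u₀ exp(w - iτ)`. -/
noncomputable def uu (x : ℂ × ℝ) : ℂ := u0 * exp (x.1 - I * (x.2 : ℂ))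

/-- `p = q⁻¹ = p₀ exp(-2iτ)`. -/
noncomputable def pp (x : ℂ × ℝ) : ℂ := p0 * exp (-(2 * I * (x.2 : ℂ)))

theorem T_eq (j k : ℕ) (x : ℂ × ℝ) :
    T j k x = (k : ℂ) ^ j * (uu x ^ k * pp x ^ (k * (k - 1) / 2)) := by
  unfold T zk uu pp L
  rw [mul_pow, mul_pow, ← exp_nat_mul, ← exp_nat_mul]
  have h : ((k * (k - 1) / 2 : ℕ) : ℂ) * 2 = (k : ℂ) ^ 2 - k := by
    have h1 : k * (k - 1) / 2 * 2 = k * (k - 1) :=
      Nat.div_mul_cancel (Nat.even_mul_pred_self k).two_dvd
    have h2 : ((k * (k - 1) / 2 * 2 : ℕ) : ℂ) = ((k * (k - 1) : ℕ) : ℂ) := by rw [h1]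
    rw [Nat.cast_mul] at h2
    rw [show ((2 : ℕ) : ℂ) = 2 by norm_num] at h2
    rw [h2]
    rcases Nat.eq_zero_or_pos k with hk | hk
    · simp [hk]
    · rw [Nat.cast_mul, Nat.cast_sub hk]
      push_cast
      ring
  have e : exp ((k : ℂ) * x.1 - I * (k : ℂ) ^ 2 * (x.2 : ℂ)) =
      exp ((k : ℂ) * (x.1 - I * (x.2 : ℂ))) *
        exp (((k * (k - 1) / 2 : ℕ) : ℂ) * -(2 * I * (x.2 : ℂ))) := by
    rw [← exp_add]
    congr 1
    linear_combination (I * (x.2 : ℂ)) * h
  rw [e]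
  ring

theorem pp_norm (x : ℂ × ℝ) : ‖pp x‖ = 1 := by
  unfold pp
  rw [norm_mul, p0_norm, one_mul]
  have : -(2 * I * (x.2 : ℂ)) = ((-(2 * x.2) : ℝ) : ℂ) * I := by
    push_cast
    ring
  rw [this, Complex.norm_exp_ofReal_mul_I]

theorem u0_pos : 0.56 ≤ ‖u0‖ := by
  have := (abs_le.1 u0_norm).1
  norm_num at this ⊢
  linarith

theorem uu_sub {x : ℂ × ℝ} (hx : ‖x‖ ≤ δ) : ‖uu x - u0‖ ≤ 1.3e-19 := by
  have h1 := norm_fst_le' x
  have h2 := norm_snd_le' x
  have e : uu x - u0 = u0 * (exp (x.1 - I * (x.2 : ℂ)) - 1) := by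
    unfold uu
    ring
  have hζ : ‖x.1 - I * (x.2 : ℂ)‖ ≤ 2 * δ := by
    refine (norm_sub_le _ _).trans ?_
    rw [norm_mul, norm_I, one_mul, Complex.norm_real, Real.norm_eq_abs]
    linarith
  have hre : |(x.1 - I * (x.2 : ℂ)).re| ≤ δ := by
    have : (x.1 - I * (x.2 : ℂ)).re = x.1.re := by simp
    rw [this]
    exact (abs_re_le_norm _).trans (h1.trans hx)
  have h3 := norm_exp_sub_one_le' _ hre
  rw [e, norm_mul]
  have h4 : Real.exp δ * ‖x.1 - I * (x.2 : ℂ)‖ ≤ 1.0001 * (2 * δ) :=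
    mul_le_mul exp_δ_le hζ (norm_nonneg _) (by norm_num)
  calc ‖u0‖ * ‖exp (x.1 - I * (x.2 : ℂ)) - 1‖ ≤ 0.5613 * (1.0001 * (2 * δ)) :=
        mul_le_mul u0_norm_le (h3.trans h4) (norm_nonneg _) (by norm_num)
    _ ≤ 1.3e-19 := by
        unfold δ
        norm_num

theorem uu_norm_sub {x : ℂ × ℝ} (hx : ‖x‖ ≤ δ) :
    |‖uu x‖ - 0.56122876296288214325405844| ≤ 1.4e-19 := by
  have h1 := (abs_norm_sub_norm_le (uu x) u0).trans (uu_sub hx)
  have h2 := u0_norm
  have e : ‖uu x‖ - 0.56122876296288214325405844 = (‖uu x‖ - ‖u0‖) +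
      (‖u0‖ - 0.56122876296288214325405844) := by ring
  rw [e]
  refine (abs_add_le _ _).trans ((add_le_add h1 h2).trans ?_)
  norm_num

theorem uu_pos {x : ℂ × ℝ} (hx : ‖x‖ ≤ δ) : 0.56 ≤ ‖uu x‖ := by
  have := (abs_le.1 (uu_norm_sub hx)).1
  norm_num at this ⊢
  linarith

end CritPt

/-- The critical point. -/
theorem exists_critical : ∃ (r : ℝ) (q ω : ℂ), ‖q‖ = 1 ∧ ‖ω‖ = 1 ∧
    |r - rHat| ≤ 1e-18 ∧ ‖q - qHat‖ ≤ 1e-18 ∧ ‖ω - omHat‖ ≤ 1e-18 ∧
    (∑' j : ℕ, (r : ℂ) ^ (j + 1) * xst q ω j = -ω) ∧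
    ((∑' j : ℕ, ((j : ℂ) + 1) ^ 2 * (r : ℂ) ^ (j + 1) * xst q ω j) /
      (∑' j : ℕ, ((j : ℂ) + 1) * (r : ℂ) ^ (j + 1) * xst q ω j)).im = 0 := by
  obtain ⟨x, hx, hS0, hJ⟩ := exists_zero
  have hu := uu_pos hx
  have hu0 : uu x ≠ 0 := by
    intro h
    rw [h, norm_zero] at hu
    norm_num at hu
  have hr0 : (‖uu x‖ : ℂ) ≠ 0 := by
    rw [Ne, ofReal_eq_zero]
    linarith
  have hpn := pp_norm x
  have hp0 : pp x ≠ 0 := by
    intro h
    rw [h, norm_zero] at hpn
    norm_num at hpn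
  set r : ℝ := ‖uu x‖ with hr
  set ω : ℂ := (r : ℂ) / uu x with hω
  have hω0 : ω ≠ 0 := div_ne_zero hr0 hu0
  have hωu : ω * uu x = r := by
    rw [hω, div_mul_cancel₀ _ hu0]
  have hωn : ‖ω‖ = 1 := by
    rw [hω, norm_div, Complex.norm_real, Real.norm_eq_abs, hr, abs_norm,
      div_self (norm_ne_zero_iff.2 hu0)]
  -- the terms
  have key : ∀ j : ℕ, (r : ℂ) ^ (j + 1) * xst (pp x)⁻¹ ω j =
      ω * (uu x ^ (j + 1) * pp x ^ ((j + 1) * (j + 1 - 1) / 2)) := by
    intro j
    unfold xst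
    rw [inv_pow, inv_inv, Nat.add_sub_cancel, mul_comm (j + 1) j]
    have : (r : ℂ) ^ (j + 1) = ω * ω ^ j * uu x ^ (j + 1) := by
      rw [← hωu, mul_pow]
      ring
    rw [this]
    have hωj : ω ^ j ≠ 0 := pow_ne_zero _ hω0
    field_simp
  have keyT : ∀ (i : ℕ), i ≤ 2 → ∑' j : ℕ, T i (j + 1) x = S i x - (0 : ℂ) ^ i := by
    intro i hi
    have s := summable_T (j := i) (by omega) hx
    have h := s.sum_add_tsum_nat_add 1
    rw [Finset.sum_range_one] at h
    have h0 : T i 0 x = (0 : ℂ) ^ i := by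
      unfold T zk L
      simp
    rw [h0] at h
    unfold S
    rw [← h]
    ring
  have sum0 : ∑' j : ℕ, (r : ℂ) ^ (j + 1) * xst (pp x)⁻¹ ω j = ω * (S 0 x - 1) := by
    have h := keyT 0 (by norm_num)
    rw [pow_zero] at h
    rw [← h, ← tsum_mul_left]
    congr 1
    ext j
    rw [key, T_eq]
    ring
  have sum1 : ∑' j : ℕ, ((j : ℂ) + 1) * (r : ℂ) ^ (j + 1) * xst (pp x)⁻¹ ω j = ω * S 1 x := by
    have h := keyT 1 (by norm_num)
    rw [zero_pow (by norm_num), sub_zero] at h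
    rw [← h, ← tsum_mul_left]
    congr 1
    ext j
    rw [mul_assoc, key, T_eq]
    push_cast
    ring
  have sum2 : ∑' j : ℕ, ((j : ℂ) + 1) ^ 2 * (r : ℂ) ^ (j + 1) * xst (pp x)⁻¹ ω j =
      ω * S 2 x := by
    have h := keyT 2 (by norm_num)
    rw [zero_pow (by norm_num), sub_zero] at h
    rw [← h, ← tsum_mul_left]
    congr 1
    ext j
    rw [mul_assoc, key, T_eq]
    push_cast
    ring
  refine ⟨r, (pp x)⁻¹, ω, ?_, hωn, ?_, ?_, ?_, ?_, ?_⟩
  · rw [norm_inv, hpn, inv_one]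
  · unfold rHat
    refine (uu_norm_sub hx).trans ?_
    norm_num
  · -- q
    have hq : (pp x)⁻¹ = conj p0 * exp (2 * I * (x.2 : ℂ)) := by
      rw [inv_eq_iff_eq_inv, mul_inv, ← exp_neg]
      unfold pp
      congr 1
      have : p0 * conj p0 = 1 := by
        rw [mul_conj, normSq_eq_norm_sq, p0_norm]
        norm_num
      exact (inv_eq_of_mul_eq_one_left this).symm
    have e : (pp x)⁻¹ - qHat = conj p0 * (exp (2 * I * (x.2 : ℂ)) - 1) + (conj p0 - qHat) := by
      rw [hq]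
      ring
    have h1 : ‖conj p0 * (exp (2 * I * (x.2 : ℂ)) - 1)‖ ≤ 3e-19 := by
      rw [norm_mul, Complex.norm_conj, p0_norm, one_mul]
      have h2 : |(2 * I * (x.2 : ℂ)).re| ≤ δ := by
        have : (2 * I * (x.2 : ℂ)).re = 0 := by simp
        rw [this, abs_zero]
        exact δ_pos.le
      refine (norm_exp_sub_one_le' _ h2).trans ?_
      have h3 : ‖2 * I * (x.2 : ℂ)‖ ≤ 2 * δ := by
        rw [norm_mul, norm_mul, norm_I, Complex.norm_real, Real.norm_eq_abs]
        have := (norm_snd_le' x).trans hx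
        norm_num
        linarith
      refine (mul_le_mul exp_δ_le h3 (norm_nonneg _) (by norm_num)).trans ?_
      unfold δ
      norm_num
    have h2 : ‖conj p0 - qHat‖ ≤ 1e-20 := by
      have e2 : p0 = ⟨(Vr : ℝ) / Cc, (Vi : ℝ) / Cc⟩ := gz_div Vr Vi Cc
      have e3 : conj p0 - qHat = ⟨(Vr : ℝ) / Cc - -0.72036535251642642304673304,
          -((Vi : ℝ) / Cc) - 0.69359480887178264094861654⟩ := by
        rw [e2]
        rfl
      rw [e3]
      apply norm_mk_le (by norm_num)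
      unfold Vr Vi Cc
      norm_num
    rw [e]
    refine (norm_add_le _ _).trans ((add_le_add h1 h2).trans ?_)
    norm_num
  · -- ω
    have e : ω - omHat = ((r : ℂ) - omHat * uu x) / uu x := by
      rw [eq_div_iff hu0, sub_mul, hωu]
    rw [e, norm_div]
    rw [div_le_iff₀ (by linarith)]
    have e2 : (r : ℂ) - omHat * uu x = ((r - 0.56122876296288214325405844 : ℝ) : ℂ) +
        (((0.56122876296288214325405844 : ℝ) : ℂ) - omHat * u0) - omHat * (uu x - u0) := by
      push_cast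
      ring
    have a1 : ‖((r - 0.56122876296288214325405844 : ℝ) : ℂ)‖ ≤ 1.4e-19 := by
      rw [Complex.norm_real, Real.norm_eq_abs]
      exact uu_norm_sub hx
    have a2 : ‖((0.56122876296288214325405844 : ℝ) : ℂ) - omHat * u0‖ ≤ 1e-20 := by
      have e3 : u0 = ⟨(Ur : ℝ) / Dd, (Ui : ℝ) / Dd⟩ := gz_div Ur Ui Dd
      have e4 : ((0.56122876296288214325405844 : ℝ) : ℂ) - omHat * u0 =
          ⟨0.56122876296288214325405844 - (-0.99218493167678099795890719 * ((Ur : ℝ) / Dd) -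
            -0.12477604479042210375439311 * ((Ui : ℝ) / Dd)),
          -(-0.99218493167678099795890719 * ((Ui : ℝ) / Dd) +
            -0.12477604479042210375439311 * ((Ur : ℝ) / Dd))⟩ := by
        rw [e3]
        unfold omHat
        apply Complex.ext
        · simp only [sub_re, mul_re, ofReal_re]
        · simp only [sub_im, mul_im, ofReal_im, zero_sub]
      rw [e4]
      apply norm_mk_le (by norm_num)
      unfold Ur Ui Dd
      norm_num
    have a3 : ‖omHat * (uu x - u0)‖ ≤ 1.1 * 1.3e-19 := by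
      rw [norm_mul]
      refine mul_le_mul ?_ (uu_sub hx) (norm_nonneg _) (by norm_num)
      unfold omHat
      exact norm_mk_le (by norm_num) (by norm_num)
    rw [e2]
    refine (norm_sub_le _ _).trans ((add_le_add ((norm_add_le _ _).trans (add_le_add a1 a2)) a3).trans ?_)
    norm_num at hu ⊢
    linarith
  · rw [sum0, hS0]
    ring
  · rw [sum1, sum2, mul_div_mul_left _ _ hω0, Complex.div_im]
    have hJ' : (S 2 x).im * (S 1 x).re - (S 2 x).re * (S 1 x).im = 0 := by
      have := hJ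
      simp only [mul_im, conj_re, conj_im] at this
      linarith
    rw [← sub_div, hJ', zero_div]

end Pool.Agent.H93
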