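import Pool.Agent.Lib.H93.CriticalNum

/-!
Chunk C, analytic part: strict differentiability estimates of the power sums
`S_j(w, τ) = ∑ k^j z_k exp(k w - i k² τ)` near `0`.
-/

namespace Pool.Agent.H93.CritPt

open Complex Metric Set

theorem norm_exp_sub_one_le' (ζ : ℂ) {ρ : ℝ} (h : |ζ.re| ≤ ρ) :
    ‖exp ζ - 1‖ ≤ Real.exp ρ * ‖ζ‖ := by
  have hρ : 0 ≤ ρ := (abs_nonneg _).trans h
  have := Convex.norm_image_sub_le_of_norm_hasDerivWithin_le (𝕜 := ℂ) (f := exp) (f' := exp)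
    (s := {z : ℂ | z.re ≤ ρ}) (x := 0) (y := ζ) (C := Real.exp ρ)
    (fun z _ => (Complex.hasDerivAt_exp z).hasDerivWithinAt)
    (fun z hz => by rw [Complex.norm_exp]; exact Real.exp_le_exp.2 hz)
    (convex_halfSpace_re_le ρ) (by simpa using hρ) ((le_abs_self _).trans h)
  simpa using this

theorem norm_exp_sub_exp_sub (a b : ℂ) {M ρ : ℝ} (ha : ‖a‖ ≤ M) (hb : ‖b‖ ≤ M)
    (ha' : |a.re| ≤ ρ) (hb' : |b.re| ≤ ρ) :
    ‖exp a - exp b - (a - b)‖ ≤ Real.exp ρ * M * ‖a - b‖ := by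
  have hconv : Convex ℝ ({z : ℂ | |z.re| ≤ ρ} ∩ closedBall (0 : ℂ) M) := by
    apply Convex.inter _ (convex_closedBall 0 M)
    have : {z : ℂ | |z.re| ≤ ρ} = {z : ℂ | z.re ≤ ρ} ∩ {z : ℂ | -ρ ≤ z.re} := by
      ext z
      show |z.re| ≤ ρ ↔ z.re ≤ ρ ∧ -ρ ≤ z.re
      rw [abs_le, and_comm]
    rw [this]
    exact (convex_halfSpace_re_le ρ).inter (convex_halfSpace_re_ge (-ρ))
  have := Convex.norm_image_sub_le_of_norm_hasDerivWithin_le (𝕜 := ℂ)
    (f := fun z => exp z - z) (f' := fun z => exp z - 1)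
    (s := {z : ℂ | |z.re| ≤ ρ} ∩ closedBall (0 : ℂ) M) (x := b) (y := a)
    (C := Real.exp ρ * M)
    (fun z _ => ((Complex.hasDerivAt_exp z).sub (hasDerivAt_id z)).hasDerivWithinAt)
    (fun z hz => (norm_exp_sub_one_le' z hz.1).trans
      (mul_le_mul_of_nonneg_left (by simpa using hz.2) (Real.exp_pos _).le))
    hconv ⟨hb', by simpa using hb⟩ ⟨ha', by simpa using ha⟩
  calc ‖exp a - exp b - (a - b)‖ = ‖exp a - a - (exp b - b)‖ := by
        congr 1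
        ring
    _ ≤ _ := this

/-- radius. -/
noncomputable def δ : ℝ := 1e-19

/-- the linear form `k w - i k² τ`. -/
noncomputable def L (k : ℕ) (x : ℂ × ℝ) : ℂ := (k : ℂ) * x.1 - I * (k : ℂ) ^ 2 * (x.2 : ℂ)

theorem L_sub (k : ℕ) (x y : ℂ × ℝ) : L k x - L k y = L k (x - y) := by
  simp only [L, Prod.fst_sub, Prod.snd_sub, ofReal_sub]
  ring

theorem L_zero (k : ℕ) : L k 0 = 0 := by simp [L]

theorem norm_fst_le' (x : ℂ × ℝ) : ‖x.1‖ ≤ ‖x‖ := norm_fst_le x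
theorem norm_snd_le' (x : ℂ × ℝ) : |x.2| ≤ ‖x‖ := norm_snd_le x

theorem norm_L_le (k : ℕ) (x : ℂ × ℝ) : ‖L k x‖ ≤ 2 * (k : ℝ) ^ 2 * ‖x‖ := by
  have h1 := norm_fst_le' x
  have h2 := norm_snd_le' x
  have hk : (k : ℝ) ≤ (k : ℝ) ^ 2 := by
    rcases Nat.eq_zero_or_pos k with h | h
    · simp [h]
    · have : (1 : ℝ) ≤ k := by exact_mod_cast h
      nlinarith
  have hk0 : (0 : ℝ) ≤ k := Nat.cast_nonneg k
  calc ‖L k x‖ ≤ ‖(k : ℂ) * x.1‖ + ‖I * (k : ℂ) ^ 2 * (x.2 : ℂ)‖ := norm_sub_le _ _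
    _ = (k : ℝ) * ‖x.1‖ + (k : ℝ) ^ 2 * |x.2| := by
        simp
    _ ≤ (k : ℝ) ^ 2 * ‖x‖ + (k : ℝ) ^ 2 * ‖x‖ := by
        gcongr
    _ = _ := by ring

theorem L_re (k : ℕ) (x : ℂ × ℝ) : (L k x).re = k * x.1.re := by
  have h : (k : ℂ) ^ 2 = (((k : ℝ) ^ 2 : ℝ) : ℂ) := by push_cast; rfl
  simp only [L, h, sub_re, mul_re, I_re, I_im, ofReal_re, ofReal_im, natCast_re, natCast_im,
    mul_im]
  ring

theorem abs_L_re_le (k : ℕ) {x : ℂ × ℝ} (hx : ‖x‖ ≤ δ) : |(L k x).re| ≤ k * δ := by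
  rw [L_re, abs_mul, Nat.abs_cast]
  have : |x.1.re| ≤ δ := (abs_re_le_norm _).trans ((norm_fst_le' x).trans hx)
  gcongr

theorem δ_pos : 0 < δ := by unfold δ; norm_num

theorem p0_norm : ‖p0‖ = 1 := by
  have h : p0 = ⟨(Vr : ℝ) / Cc, (Vi : ℝ) / Cc⟩ := gz_div Vr Vi Cc
  have h2 : ‖p0‖ ^ 2 = 1 := by
    rw [← Complex.normSq_eq_norm_sq, h, Complex.normSq_mk]
    unfold Vr Vi Cc
    norm_num
  have h3 : 0 ≤ ‖p0‖ := norm_nonneg _
  nlinarith

theorem u0_sq : ‖u0‖ ^ 2 = ((Ur : ℝ) / Dd) ^ 2 + ((Ui : ℝ) / Dd) ^ 2 := by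
  have h : u0 = ⟨(Ur : ℝ) / Dd, (Ui : ℝ) / Dd⟩ := gz_div Ur Ui Dd
  rw [← Complex.normSq_eq_norm_sq, h, Complex.normSq_mk]
  ring

theorem u0_norm : |‖u0‖ - 0.56122876296288214325405844| ≤ 1e-24 := by
  have h3 : 0 ≤ ‖u0‖ := norm_nonneg _
  have h := u0_sq
  unfold Ur Ui Dd at h
  rw [abs_le]
  constructor
  · by_contra hc
    push Not at hc
    have : ‖u0‖ ^ 2 < (0.56122876296288214325405844 - 1e-24) ^ 2 := by
      apply pow_lt_pow_left₀ (by linarith) h3 (by norm_num)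
    rw [h] at this
    norm_num at this
  · by_contra hc
    push Not at hc
    have : (0.56122876296288214325405844 + 1e-24) ^ 2 < ‖u0‖ ^ 2 := by
      apply pow_lt_pow_left₀ (by linarith) (by norm_num) (by norm_num)
    rw [h] at this
    norm_num at this

theorem u0_norm_le : ‖u0‖ ≤ 0.5613 := by
  have := (abs_le.1 u0_norm).2
  norm_num at this ⊢
  linarith

theorem zk_norm (k : ℕ) : ‖zk k‖ = ‖u0‖ ^ k := by
  unfold zk
  rw [norm_mul, norm_pow, norm_pow, p0_norm, one_pow, mul_one]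

theorem zk_norm_le (k : ℕ) : ‖zk k‖ ≤ 0.5613 ^ k := by
  rw [zk_norm]
  exact pow_le_pow_left₀ (norm_nonneg _) u0_norm_le k

theorem exp_δ_le : Real.exp δ ≤ 1.0001 := by
  have h := Real.abs_exp_sub_one_le (x := δ) (by
    unfold δ
    rw [abs_of_pos (by norm_num)]
    norm_num)
  have h2 := (abs_le.1 h).2
  rw [abs_of_pos δ_pos] at h2
  have : 2 * δ ≤ 0.0001 := by unfold δ; norm_num
  linarith

/-- the `k`-th term. -/
noncomputable def T (j k : ℕ) (x : ℂ × ℝ) : ℂ := (k : ℂ) ^ j * (zk k * exp (L k x))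

/-- the sums. -/
noncomputable def S (j : ℕ) (x : ℂ × ℝ) : ℂ := ∑' k : ℕ, T j k x

theorem exp_kδ (k : ℕ) : Real.exp (k * δ) ≤ 1.0001 ^ k := by
  rw [Real.exp_nat_mul]
  exact pow_le_pow_left₀ (Real.exp_pos _).le exp_δ_le k

theorem zk_exp_le (k : ℕ) : ‖zk k‖ * Real.exp (k * δ) ≤ 0.5614 ^ k := by
  calc ‖zk k‖ * Real.exp (k * δ) ≤ 0.5613 ^ k * 1.0001 ^ k := by
        gcongr
        · exact zk_norm_le k
        · exact exp_kδ k
    _ = (0.5613 * 1.0001) ^ k := by rw [mul_pow]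
    _ ≤ 0.5614 ^ k := by
        apply pow_le_pow_left₀ (by norm_num)
        norm_num

/-- polynomial against exponential. -/
theorem pow_mul_le {j : ℕ} (hj : j ≤ 6) (k : ℕ) :
    (k : ℝ) ^ j * 0.5614 ^ k ≤ 3814698 * 0.891 ^ k := by
  have h1 : (k : ℝ) ≤ 12.5 * 1.08 ^ k := by
    have := one_add_mul_le_pow (a := (0.08 : ℝ)) (by norm_num) k
    have e : (1 : ℝ) + 0.08 = 1.08 := by norm_num
    rw [e] at this
    linarith
  have h1' : (1 : ℝ) ≤ 12.5 * 1.08 ^ k := by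
    have : (1 : ℝ) ≤ 1.08 ^ k := one_le_pow₀ (by norm_num)
    linarith
  have h2 : (k : ℝ) ^ j ≤ (12.5 * 1.08 ^ k) ^ 6 := by
    calc (k : ℝ) ^ j ≤ (12.5 * 1.08 ^ k) ^ j :=
          pow_le_pow_left₀ (Nat.cast_nonneg k) h1 j
      _ ≤ (12.5 * 1.08 ^ k) ^ 6 := pow_le_pow_right₀ h1' hj
  calc (k : ℝ) ^ j * 0.5614 ^ k ≤ (12.5 * 1.08 ^ k) ^ 6 * 0.5614 ^ k := by
        gcongr
    _ = 12.5 ^ 6 * (1.08 ^ 6 * 0.5614) ^ k := by
        rw [mul_pow, ← pow_mul, mul_comm k 6, pow_mul, mul_pow]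
        ring
    _ ≤ 3814698 * 0.891 ^ k := by
        gcongr
        · norm_num
        · norm_num

theorem summable_bound : Summable (fun k : ℕ => (3814698 : ℝ) * 0.891 ^ k) :=
  (summable_geometric_of_lt_one (by norm_num) (by norm_num)).mul_left _

theorem tsum_bound : ∑' k : ℕ, (3814698 : ℝ) * 0.891 ^ k ≤ 36000000 := by
  rw [tsum_mul_left, tsum_geometric_of_lt_one (by norm_num) (by norm_num)]
  norm_num

theorem norm_exp_L_le (k : ℕ) {x : ℂ × ℝ} (hx : ‖x‖ ≤ δ) :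
    ‖exp (L k x)‖ ≤ Real.exp (k * δ) := by
  rw [Complex.norm_exp]
  exact Real.exp_le_exp.2 ((le_abs_self _).trans (abs_L_re_le k hx))

theorem norm_T_le {j : ℕ} (hj : j ≤ 6) (k : ℕ) {x : ℂ × ℝ} (hx : ‖x‖ ≤ δ) :
    ‖T j k x‖ ≤ 3814698 * 0.891 ^ k := by
  unfold T
  rw [norm_mul, norm_mul, norm_pow, Complex.norm_natCast]
  calc (k : ℝ) ^ j * (‖zk k‖ * ‖exp (L k x)‖) ≤ (k : ℝ) ^ j * (‖zk k‖ * Real.exp (k * δ)) := by
        gcongr
        exact norm_exp_L_le k hx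
    _ ≤ (k : ℝ) ^ j * 0.5614 ^ k := by
        gcongr
        exact zk_exp_le k
    _ ≤ _ := pow_mul_le hj k

theorem summable_T {j : ℕ} (hj : j ≤ 6) {x : ℂ × ℝ} (hx : ‖x‖ ≤ δ) :
    Summable (fun k => T j k x) :=
  Summable.of_norm_bounded summable_bound (fun k => norm_T_le hj k hx)

theorem T_zero (j k : ℕ) : T j k 0 = (k : ℂ) ^ j * zk k := by
  simp [T, L_zero]

theorem norm_zero_le : ‖(0 : ℂ × ℝ)‖ ≤ δ := by
  rw [norm_zero]
  exact δ_pos.le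

/-- Taylor estimate. -/
theorem S_taylor {j : ℕ} (hj : j ≤ 2) {x y : ℂ × ℝ} (hx : ‖x‖ ≤ δ) (hy : ‖y‖ ≤ δ) :
    ‖S j x - S j y - (S (j + 1) 0 * (x - y).1 - I * S (j + 2) 0 * ((x - y).2 : ℂ))‖ ≤
      1e-6 * ‖x - y‖ := by
  have s0 := summable_T (j := j) (by omega) hx
  have s1 := summable_T (j := j) (by omega) hy
  have s2 := summable_T (j := j + 1) (by omega) norm_zero_le
  have s3 := summable_T (j := j + 2) (by omega) norm_zero_le
  have e : S j x - S j y - (S (j + 1) 0 * (x - y).1 - I * S (j + 2) 0 * ((x - y).2 : ℂ)) =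
      ∑' k : ℕ, (k : ℂ) ^ j * zk k * (exp (L k x) - exp (L k y) - (L k x - L k y)) := by
    have hh := (s0.hasSum.sub s1.hasSum).sub
      ((s2.hasSum.mul_right ((x - y).1)).sub
        ((s3.hasSum.mul_left I).mul_right (((x - y).2 : ℝ) : ℂ)))
    rw [S, S, S, S, ← hh.tsum_eq]
    congr 1
    ext k
    rw [T_zero, T_zero, L_sub]
    unfold T L
    ring
  rw [e]
  have hb : ∀ k : ℕ, ‖(k : ℂ) ^ j * zk k * (exp (L k x) - exp (L k y) - (L k x - L k y))‖ ≤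
      (4 * δ * ‖x - y‖) * (3814698 * 0.891 ^ k) := by
    intro k
    have h1 : ‖exp (L k x) - exp (L k y) - (L k x - L k y)‖ ≤
        Real.exp (k * δ) * (2 * (k : ℝ) ^ 2 * δ) * (2 * (k : ℝ) ^ 2 * ‖x - y‖) := by
      have h0 := norm_exp_sub_exp_sub (L k x) (L k y) (M := 2 * (k : ℝ) ^ 2 * δ) (ρ := k * δ)
        ((norm_L_le k x).trans (by gcongr)) ((norm_L_le k y).trans (by gcongr))
        (abs_L_re_le k hx) (abs_L_re_le k hy)
      refine h0.trans ?_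
      rw [L_sub]
      have := δ_pos
      gcongr
      exact norm_L_le k _
    rw [norm_mul, norm_mul, norm_pow, Complex.norm_natCast]
    calc (k : ℝ) ^ j * ‖zk k‖ * ‖exp (L k x) - exp (L k y) - (L k x - L k y)‖
        ≤ (k : ℝ) ^ j * ‖zk k‖ *
          (Real.exp (k * δ) * (2 * (k : ℝ) ^ 2 * δ) * (2 * (k : ℝ) ^ 2 * ‖x - y‖)) := by
          gcongr
      _ = (4 * δ * ‖x - y‖) * ((k : ℝ) ^ (j + 4) * (‖zk k‖ * Real.exp (k * δ))) := by ring
      _ ≤ (4 * δ * ‖x - y‖) * ((k : ℝ) ^ (j + 4) * 0.5614 ^ k) := by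
          have := δ_pos
          gcongr
          exact zk_exp_le k
      _ ≤ _ := by
          have := δ_pos
          exact mul_le_mul_of_nonneg_left (pow_mul_le (j := j + 4) (by omega) k)
            (by positivity)
  calc _ ≤ ∑' k : ℕ, (4 * δ * ‖x - y‖) * (3814698 * 0.891 ^ k) :=
        tsum_of_norm_bounded (summable_bound.mul_left _).hasSum hb
    _ = (4 * δ * ‖x - y‖) * ∑' k : ℕ, (3814698 * 0.891 ^ k) := tsum_mul_left
    _ ≤ (4 * δ * ‖x - y‖) * 36000000 := by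
        have := δ_pos
        gcongr
        exact tsum_bound
    _ ≤ 1e-6 * ‖x - y‖ := by
        have h := norm_nonneg (x - y)
        unfold δ
        norm_num
        nlinarith

/-- tail estimate. -/
theorem tail_le {j : ℕ} (hj : j ≤ 4) : ‖∑' i : ℕ, ((i + 112 : ℕ) : ℂ) ^ j * zk (i + 112)‖ ≤
    112 ^ j * 1e-27 := by
  have hb : ∀ i : ℕ, ‖((i + 112 : ℕ) : ℂ) ^ j * zk (i + 112)‖ ≤
      (112 ^ j * 0.5613 ^ 112) * (0.59 : ℝ) ^ i := by
    intro i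
    rw [norm_mul, norm_pow, Complex.norm_natCast]
    have h1 : ((i + 112 : ℕ) : ℝ) ≤ 112 * (1 + 1 / 112 : ℝ) ^ i := by
      have := one_add_mul_le_pow (a := (1 / 112 : ℝ)) (by norm_num) i
      push_cast
      linarith
    calc ((i + 112 : ℕ) : ℝ) ^ j * ‖zk (i + 112)‖
        ≤ (112 * (1 + 1 / 112 : ℝ) ^ i) ^ j * 0.5613 ^ (i + 112) := by
          gcongr
          exact zk_norm_le _
      _ = (112 ^ j * 0.5613 ^ 112) * (((1 + 1 / 112 : ℝ) ^ j) * 0.5613) ^ i := by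
          rw [mul_pow, ← pow_mul, mul_comm i j, pow_mul, pow_add, mul_pow]
          ring
      _ ≤ _ := by
          have h2 : (1 + 1 / 112 : ℝ) ^ j ≤ (1 + 1 / 112 : ℝ) ^ 4 :=
            pow_le_pow_right₀ (by norm_num) hj
          have h3 : (1 + 1 / 112 : ℝ) ^ j * 0.5613 ≤ 0.59 := by
            have : (1 + 1 / 112 : ℝ) ^ 4 * 0.5613 ≤ 0.59 := by norm_num
            nlinarith
          gcongr
  calc _ ≤ ∑' i : ℕ, (112 ^ j * 0.5613 ^ 112) * (0.59 : ℝ) ^ i :=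
        tsum_of_norm_bounded
          ((summable_geometric_of_lt_one (by norm_num) (by norm_num)).mul_left _).hasSum hb
    _ = (112 ^ j * 0.5613 ^ 112) * (1 - 0.59)⁻¹ := by
        rw [tsum_mul_left, tsum_geometric_of_lt_one (by norm_num) (by norm_num)]
    _ = 112 ^ j * (0.5613 ^ 112 * (1 - 0.59)⁻¹) := by ring
    _ ≤ _ := by
        gcongr
        norm_num

theorem S_split {j : ℕ} (hj : j ≤ 4) :
    ‖S j 0 - ((0 : ℂ) ^ j + Q j 110)‖ ≤ 112 ^ j * 1e-27 := by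
  have s := summable_T (j := j) (by omega) norm_zero_le
  have h : S j 0 = ∑ k ∈ Finset.range 112, T j k 0 + ∑' i : ℕ, T j (i + 112) 0 :=
    (s.sum_add_tsum_nat_add 112).symm
  have h2 : ∑ k ∈ Finset.range 112, T j k 0 = (0 : ℂ) ^ j + Q j 110 := by
    rw [Finset.sum_range_succ', add_comm]
    congr 1
    · rw [T_zero]
      simp [zk]
    · unfold Q
      apply Finset.sum_congr rfl
      intro i _
      rw [T_zero]
      push_cast
      rfl
  rw [h, h2, add_sub_cancel_left]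
  simp only [T_zero]
  exact tail_le hj

end Pool.Agent.H93.CritPt
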