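import Pool.Agent.Lib.H93.CriticalAux

/-!
Chunk C, solution of the two equations near the base point.
-/

namespace Pool.Agent.H93.CritPt

open Complex Metric Set
open scoped ComplexConjugate

noncomputable def s1 : ℂ := ⟨-1.808276, -0.0324⟩
noncomputable def s2 : ℂ := ⟨-4.896655, -0.087736⟩
noncomputable def s3 : ℂ := ⟨-19.958493, -1.212961⟩
noncomputable def s4 : ℂ := ⟨-114.771755, -25.235916⟩
noncomputable def σ1 : ℂ := ⟨-1.8082757614246032020023, -0.0324000303437077966066⟩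
noncomputable def σ2 : ℂ := ⟨-4.8966548394281516279384, -0.0877364884076895765469⟩

theorem norm_mk_le {a b c : ℝ} (_hc : 0 ≤ c) (h : a ^ 2 + b ^ 2 ≤ c ^ 2) : ‖(⟨a, b⟩ : ℂ)‖ ≤ c := by
  have h2 : ‖(⟨a, b⟩ : ℂ)‖ ^ 2 = a ^ 2 + b ^ 2 := by
    rw [← Complex.normSq_eq_norm_sq, Complex.normSq_mk]
    ring
  have h3 := norm_nonneg (⟨a, b⟩ : ℂ)
  nlinarith

theorem le_norm_mk {a b c : ℝ} (_hc : 0 ≤ c) (h : c ^ 2 ≤ a ^ 2 + b ^ 2) : c ≤ ‖(⟨a, b⟩ : ℂ)‖ := by
  have h2 : ‖(⟨a, b⟩ : ℂ)‖ ^ 2 = a ^ 2 + b ^ 2 := by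
    rw [← Complex.normSq_eq_norm_sq, Complex.normSq_mk]
    ring
  have h3 := norm_nonneg (⟨a, b⟩ : ℂ)
  nlinarith

theorem num0 : ‖S 0 0‖ ≤ 1e-20 := by
  have h1 := S_split (j := 0) (by norm_num)
  have h2 := numerics.1
  rw [gz_div] at h2
  have e : S 0 0 = (S 0 0 - ((0 : ℂ) ^ 0 + Q 0 110)) + (Q 0 110 -
      (⟨((-10000000000000000000000 : ℤ) : ℝ) / ((10000000000000000000000 : ℤ) : ℝ),
        ((0 : ℤ) : ℝ) / ((10000000000000000000000 : ℤ) : ℝ)⟩ : ℂ)) := by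
    apply Complex.ext
    · simp
      ring
    · simp
  rw [e]
  refine (norm_add_le _ _).trans ((add_le_add h1 h2).trans ?_)
  norm_num

theorem numS1 : ‖S 1 0 - σ1‖ ≤ 3e-22 := by
  have h1 := S_split (j := 1) (by norm_num)
  have h2 := numerics.2.1
  rw [gz_div] at h2
  have e : S 1 0 - σ1 = (S 1 0 - ((0 : ℂ) ^ 1 + Q 1 110)) + (Q 1 110 -
      (⟨((-18082757614246032020023 : ℤ) : ℝ) / ((10000000000000000000000 : ℤ) : ℝ),
        ((-324000303437077966066 : ℤ) : ℝ) / ((10000000000000000000000 : ℤ) : ℝ)⟩ : ℂ)) := by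
    unfold σ1
    apply Complex.ext
    · simp
      norm_num
    · simp
      norm_num
  rw [e]
  refine (norm_add_le _ _).trans ((add_le_add h1 h2).trans ?_)
  norm_num

theorem numS2 : ‖S 2 0 - σ2‖ ≤ 3e-22 := by
  have h1 := S_split (j := 2) (by norm_num)
  have h2 := numerics.2.2.1
  rw [gz_div] at h2
  have e : S 2 0 - σ2 = (S 2 0 - ((0 : ℂ) ^ 2 + Q 2 110)) + (Q 2 110 -
      (⟨((-48966548394281516279384 : ℤ) : ℝ) / ((10000000000000000000000 : ℤ) : ℝ),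
        ((-877364884076895765469 : ℤ) : ℝ) / ((10000000000000000000000 : ℤ) : ℝ)⟩ : ℂ)) := by
    unfold σ2
    apply Complex.ext
    · simp
      norm_num
    · simp
      norm_num
  rw [e]
  refine (norm_add_le _ _).trans ((add_le_add h1 h2).trans ?_)
  norm_num

theorem num3 : ‖S 3 0 - s3‖ ≤ 3e-6 := by
  have h1 := S_split (j := 3) (by norm_num)
  have h2 := numerics.2.2.2.1
  rw [gz_div] at h2
  have e : S 3 0 - s3 = (S 3 0 - ((0 : ℂ) ^ 3 + Q 3 110)) + (Q 3 110 -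
      (⟨((-19958493 : ℤ) : ℝ) / ((1000000 : ℤ) : ℝ),
        ((-1212961 : ℤ) : ℝ) / ((1000000 : ℤ) : ℝ)⟩ : ℂ)) := by
    unfold s3
    apply Complex.ext
    · simp
      norm_num
    · simp
      norm_num
  rw [e]
  refine (norm_add_le _ _).trans ((add_le_add h1 h2).trans ?_)
  norm_num

theorem num4 : ‖S 4 0 - s4‖ ≤ 3e-6 := by
  have h1 := S_split (j := 4) (by norm_num)
  have h2 := numerics.2.2.2.2
  rw [gz_div] at h2
  have e : S 4 0 - s4 = (S 4 0 - ((0 : ℂ) ^ 4 + Q 4 110)) + (Q 4 110 -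
      (⟨((-114771755 : ℤ) : ℝ) / ((1000000 : ℤ) : ℝ),
        ((-25235916 : ℤ) : ℝ) / ((1000000 : ℤ) : ℝ)⟩ : ℂ)) := by
    unfold s4
    apply Complex.ext
    · simp
      norm_num
    · simp
      norm_num
  rw [e]
  refine (norm_add_le _ _).trans ((add_le_add h1 h2).trans ?_)
  norm_num

theorem num1 : ‖S 1 0 - s1‖ ≤ 1e-6 := by
  have h : ‖σ1 - s1‖ ≤ 5e-7 := by
    have e : σ1 - s1 = ⟨-1.8082757614246032020023 - -1.808276, -0.0324000303437077966066 - -0.0324⟩ := rfl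
    rw [e]
    exact norm_mk_le (by norm_num) (by norm_num)
  have e : S 1 0 - s1 = (S 1 0 - σ1) + (σ1 - s1) := by ring
  rw [e]
  refine (norm_add_le _ _).trans ((add_le_add numS1 h).trans ?_)
  norm_num

theorem num2 : ‖S 2 0 - s2‖ ≤ 1e-6 := by
  have h : ‖σ2 - s2‖ ≤ 7e-7 := by
    have e : σ2 - s2 = ⟨-4.8966548394281516279384 - -4.896655, -0.0877364884076895765469 - -0.087736⟩ :=
      rfl
    rw [e]
    exact norm_mk_le (by norm_num) (by norm_num)
  have e : S 2 0 - s2 = (S 2 0 - σ2) + (σ2 - s2) := by ring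
  rw [e]
  refine (norm_add_le _ _).trans ((add_le_add numS2 h).trans ?_)
  norm_num

theorem ns1 : ‖s1‖ ≤ 1.81 := norm_mk_le (by norm_num) (by norm_num)
theorem ns1' : 1.8 ≤ ‖s1‖ := le_norm_mk (by norm_num) (by norm_num)
theorem ns2 : ‖s2‖ ≤ 4.9 := norm_mk_le (by norm_num) (by norm_num)
theorem ns3 : ‖s3‖ ≤ 20 := norm_mk_le (by norm_num) (by norm_num)
theorem ns4 : ‖s4‖ ≤ 118 := norm_mk_le (by norm_num) (by norm_num)
theorem nσ1 : ‖σ1‖ ≤ 1.81 := norm_mk_le (by norm_num) (by norm_num)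
theorem nσ2 : ‖σ2‖ ≤ 4.9 := norm_mk_le (by norm_num) (by norm_num)

theorem numJ : |(S 2 0 * conj (S 1 0)).im| ≤ 1e-20 := by
  have h1 := numS1
  have h2 := numS2
  have hS1 : ‖S 1 0‖ ≤ 2 := by
    calc ‖S 1 0‖ = ‖(S 1 0 - σ1) + σ1‖ := by congr 1; ring
      _ ≤ 3e-22 + 1.81 := (norm_add_le _ _).trans (add_le_add h1 nσ1)
      _ ≤ 2 := by norm_num
  have e : S 2 0 * conj (S 1 0) = σ2 * conj σ1 + ((S 2 0 - σ2) * conj (S 1 0) +
      σ2 * conj (S 1 0 - σ1)) := by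
    rw [map_sub]
    ring
  have e2 : (σ2 * conj σ1).im = -0.0877364884076895765469 * -1.8082757614246032020023 +
      -4.8966548394281516279384 * -(-0.0324000303437077966066) := by
    unfold σ1 σ2
    simp only [mul_im, conj_re, conj_im]
    ring
  rw [e, add_im, e2]
  have h3 : |((S 2 0 - σ2) * conj (S 1 0) + σ2 * conj (S 1 0 - σ1)).im| ≤ 3e-22 * 2 + 4.9 * 3e-22 := by
    refine (abs_im_le_norm _).trans ((norm_add_le _ _).trans (add_le_add ?_ ?_))
    · rw [norm_mul, Complex.norm_conj]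
      gcongr
    · rw [norm_mul, Complex.norm_conj]
      gcongr
      exact nσ2
  have h4 : |(-0.0877364884076895765469 : ℝ) * -1.8082757614246032020023 +
      -4.8966548394281516279384 * -(-0.0324000303437077966066)| ≤ 1e-21 := by
    rw [abs_le]
    norm_num
  refine (abs_add_le _ _).trans ((add_le_add h4 h3).trans ?_)
  norm_num

/-- the map whose zero we look for. -/
noncomputable def Φ (x : ℂ × ℝ) : ℂ × ℝ := (S 0 x, (S 2 x * conj (S 1 x)).im)

/-- the approximate derivative as a linear map. -/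
noncomputable def DΦl : (ℂ × ℝ) →ₗ[ℝ] (ℂ × ℝ) where
  toFun h := (s1 * h.1 - I * s2 * (h.2 : ℂ),
    ((s3 * h.1 - I * s4 * (h.2 : ℂ)) * conj s1 + s2 * conj (s2 * h.1 - I * s3 * (h.2 : ℂ))).im)
  map_add' x y := by
    apply Prod.ext
    · simp only [Prod.fst_add, Prod.snd_add, ofReal_add]
      ring
    · simp only [Prod.fst_add, Prod.snd_add, ofReal_add, ← add_im]
      congr 1
      simp only [map_sub, map_mul, map_add]
      ring
  map_smul' c x := by
    apply Prod.ext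
    · simp only [Prod.smul_fst, Prod.smul_snd, real_smul, smul_eq_mul, ofReal_mul, RingHom.id_apply]
      ring
    · simp only [Prod.smul_fst, Prod.smul_snd, real_smul, smul_eq_mul, ofReal_mul, RingHom.id_apply]
      rw [← im_ofReal_mul]
      congr 1
      simp only [map_sub, map_mul, conj_ofReal]
      ring

/-- the approximate derivative. -/
noncomputable def DΦ : (ℂ × ℝ) →L[ℝ] (ℂ × ℝ) := LinearMap.toContinuousLinearMap DΦl

theorem DΦ_apply (h : ℂ × ℝ) : DΦ h = (s1 * h.1 - I * s2 * (h.2 : ℂ),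
    ((s3 * h.1 - I * s4 * (h.2 : ℂ)) * conj s1 + s2 * conj (s2 * h.1 - I * s3 * (h.2 : ℂ))).im) :=
  rfl

noncomputable def κ : ℂ := (s3 * conj s1 - s2 * conj s2) / s1
noncomputable def dd : ℝ := (κ * (I * s2)).im + (-(I * s4 * conj s1) + I * (s2 * conj s3)).im

theorem s1_ne : s1 ≠ 0 := by
  intro h
  have := ns1'
  rw [h, norm_zero] at this
  norm_num at this

theorem κ_mul : κ * s1 = s3 * conj s1 - s2 * conj s2 := by
  unfold κ
  rw [div_mul_cancel₀ _ s1_ne]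

theorem κ_eq : κ = ⟨-5502832255177188143 / 817727963044000000,
    -75105983620333973 / 102215995380500000⟩ := by
  unfold κ
  rw [div_eq_iff s1_ne]
  unfold s1 s2 s3
  apply Complex.ext
  · simp only [sub_re, mul_re, conj_re, conj_im]
    norm_num
  · simp only [sub_im, mul_im, conj_re, conj_im]
    norm_num

theorem nκ : ‖κ‖ ≤ 6.8 := by
  rw [κ_eq]
  exact norm_mk_le (by norm_num) (by norm_num)

theorem dd_eq : dd = -12696569834443540349998279 / 163545592608800000000000 := by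
  unfold dd
  rw [κ_eq]
  unfold s1 s2 s3 s4
  simp only [add_im, neg_im, mul_im, mul_re, conj_re, conj_im, I_re, I_im]
  norm_num

theorem dd_le : dd ≤ -77 := by
  rw [dd_eq]
  norm_num

/-- the right inverse. -/
noncomputable def G (y : ℂ × ℝ) : ℂ × ℝ :=
  ((y.1 + I * s2 * (((y.2 - (κ * y.1).im) / dd : ℝ) : ℂ)) / s1, (y.2 - (κ * y.1).im) / dd)

theorem G_right (y : ℂ × ℝ) : DΦ (G y) = y := by
  rw [DΦ_apply]
  have hdd : dd ≠ 0 := by
    have := dd_le
    intro h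
    rw [h] at this
    norm_num at this
  have ht : (G y).2 * dd = y.2 - (κ * y.1).im := by
    show (y.2 - (κ * y.1).im) / dd * dd = _
    rw [div_mul_cancel₀ _ hdd]
  have hw : s1 * (G y).1 = y.1 + I * s2 * ((G y).2 : ℂ) := by
    show s1 * ((y.1 + I * s2 * (((y.2 - (κ * y.1).im) / dd : ℝ) : ℂ)) / s1) = _
    rw [mul_div_cancel₀ _ s1_ne]
    rfl
  generalize (G y).1 = w at *
  generalize (G y).2 = t at *
  apply Prod.ext
  · show s1 * w - I * s2 * (t : ℂ) = y.1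
    rw [hw]
    ring
  · show ((s3 * w - I * s4 * (t : ℂ)) * conj s1 + s2 * conj (s2 * w - I * s3 * (t : ℂ))).im = y.2
    have e : (s3 * w - I * s4 * (t : ℂ)) * conj s1 + s2 * conj (s2 * w - I * s3 * (t : ℂ)) =
        s3 * conj s1 * w + conj (s2 * conj s2 * w) +
          (t : ℂ) * (-(I * s4 * conj s1) + I * (s2 * conj s3)) := by
      simp only [map_sub, map_mul, conj_ofReal, conj_I, conj_conj]
      ring
    have e2 : (s3 * conj s1 * w).im - (s2 * conj s2 * w).im = (κ * (y.1 + I * s2 * (t : ℂ))).im := by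
      rw [← sub_im, ← hw]
      congr 1
      calc s3 * conj s1 * w - s2 * conj s2 * w = (s3 * conj s1 - s2 * conj s2) * w := by ring
        _ = κ * s1 * w := by rw [κ_mul]
        _ = κ * (s1 * w) := by ring
    have e3 : (κ * (y.1 + I * s2 * (t : ℂ))).im = (κ * y.1).im + t * (κ * (I * s2)).im := by
      rw [← im_ofReal_mul, ← add_im]
      congr 1
      ring
    rw [e, add_im, add_im, conj_im, im_ofReal_mul, ← sub_eq_add_neg, e2, e3]
    have : t * dd = t * (κ * (I * s2)).im + t * (-(I * s4 * conj s1) + I * (s2 * conj s3)).im := by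
      unfold dd
      ring
    linarith

theorem G_bound (y : ℂ × ℝ) : ‖G y‖ ≤ 1 * ‖y‖ := by
  have h1 := norm_fst_le' y
  have h2 := norm_snd_le' y
  have hy := norm_nonneg y
  have hκ : |(κ * y.1).im| ≤ 6.8 * ‖y‖ := by
    refine (abs_im_le_norm _).trans ?_
    rw [norm_mul]
    exact mul_le_mul nκ h1 (norm_nonneg _) (by norm_num)
  have hdd : 77 ≤ |dd| := by
    have := dd_le
    rw [abs_of_neg (by linarith)]
    linarith
  have ht : |(y.2 - (κ * y.1).im) / dd| ≤ 0.11 * ‖y‖ := by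
    rw [abs_div, div_le_iff₀ (by linarith)]
    have : |y.2 - (κ * y.1).im| ≤ 7.8 * ‖y‖ := by
      refine (abs_sub _ _).trans ?_
      linarith
    nlinarith
  have hw : ‖(y.1 + I * s2 * (((y.2 - (κ * y.1).im) / dd : ℝ) : ℂ)) / s1‖ ≤ ‖y‖ := by
    rw [norm_div, div_le_iff₀ (by linarith [ns1'])]
    have a1 : ‖I * s2 * (((y.2 - (κ * y.1).im) / dd : ℝ) : ℂ)‖ ≤ 4.9 * (0.11 * ‖y‖) := by
      rw [norm_mul, norm_mul, norm_I, one_mul, Complex.norm_real, Real.norm_eq_abs]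
      exact mul_le_mul ns2 ht (abs_nonneg _) (by norm_num)
    have a2 := norm_add_le y.1 (I * s2 * (((y.2 - (κ * y.1).im) / dd : ℝ) : ℂ))
    have a3 := ns1'
    nlinarith
  rw [one_mul]
  refine max_le hw ?_
  rw [Real.norm_eq_abs]
  refine ht.trans ?_
  linarith

noncomputable def Ginv : DΦ.NonlinearRightInverse where
  toFun := G
  nnnorm := 1
  bound' := fun y => by simpa using G_bound y
  right_inv' := G_right

/-- first order expansion of `S_j` with rational coefficients. -/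
theorem S_lin {j : ℕ} (hj : j ≤ 2) {a b : ℂ} (ha : ‖S (j + 1) 0 - a‖ ≤ 3e-6)
    (hb : ‖S (j + 2) 0 - b‖ ≤ 3e-6) {x y : ℂ × ℝ} (hx : ‖x‖ ≤ δ) (hy : ‖y‖ ≤ δ) :
    ‖S j x - S j y - (a * (x - y).1 - I * b * ((x - y).2 : ℂ))‖ ≤ 1e-5 * ‖x - y‖ := by
  have h := S_taylor hj hx hy
  have h1 := norm_fst_le' (x - y)
  have h2 := norm_snd_le' (x - y)
  have e : S j x - S j y - (a * (x - y).1 - I * b * ((x - y).2 : ℂ)) =
      (S j x - S j y - (S (j + 1) 0 * (x - y).1 - I * S (j + 2) 0 * ((x - y).2 : ℂ))) +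
      ((S (j + 1) 0 - a) * (x - y).1 - I * (S (j + 2) 0 - b) * ((x - y).2 : ℂ)) := by
    ring
  have b1 : ‖(S (j + 1) 0 - a) * (x - y).1‖ ≤ 3e-6 * ‖x - y‖ := by
    rw [norm_mul]
    exact mul_le_mul ha h1 (norm_nonneg _) (by norm_num)
  have b2 : ‖I * (S (j + 2) 0 - b) * ((x - y).2 : ℂ)‖ ≤ 3e-6 * ‖x - y‖ := by
    rw [norm_mul, norm_mul, norm_I, one_mul, Complex.norm_real, Real.norm_eq_abs]
    exact mul_le_mul hb h2 (abs_nonneg _) (by norm_num)
  rw [e]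
  refine (norm_add_le _ _).trans ?_
  have b3 := norm_sub_le ((S (j + 1) 0 - a) * (x - y).1)
    (I * (S (j + 2) 0 - b) * ((x - y).2 : ℂ))
  have := norm_nonneg (x - y)
  linarith

theorem norm_lin (a b : ℂ) (h : ℂ × ℝ) {c : ℝ} (hc : ‖a‖ + ‖b‖ ≤ c) :
    ‖a * h.1 - I * b * (h.2 : ℂ)‖ ≤ c * ‖h‖ := by
  have h1 := norm_fst_le' h
  have h2 := norm_snd_le' h
  have h0 := norm_nonneg h
  calc ‖a * h.1 - I * b * (h.2 : ℂ)‖ ≤ ‖a * h.1‖ + ‖I * b * (h.2 : ℂ)‖ := norm_sub_le _ _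
    _ = ‖a‖ * ‖h.1‖ + ‖b‖ * |h.2| := by
        rw [norm_mul, norm_mul, norm_mul, norm_I, one_mul, Complex.norm_real, Real.norm_eq_abs]
    _ ≤ ‖a‖ * ‖h‖ + ‖b‖ * ‖h‖ := by gcongr
    _ = (‖a‖ + ‖b‖) * ‖h‖ := by ring
    _ ≤ c * ‖h‖ := by gcongr

theorem approx : ApproximatesLinearOn Φ DΦ (closedBall 0 δ) (1 / 10) := by
  intro x hx y hy
  have hx' : ‖x‖ ≤ δ := by simpa using hx
  have hy' : ‖y‖ ≤ δ := by simpa using hy
  have hN := norm_nonneg (x - y)
  have hδ : δ = 1e-19 := rfl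
  have q0 := S_lin (j := 0) (by norm_num) (num1.trans (by norm_num)) (num2.trans (by norm_num))
    hx' hy'
  have q1 := S_lin (j := 1) (by norm_num) (num2.trans (by norm_num)) num3 hx' hy'
  have q2 := S_lin (j := 2) (by norm_num) num3 num4 hx' hy'
  have hx1 : ‖S 1 x - s1‖ ≤ 1e-5 := by
    have t := S_lin (j := 1) (by norm_num) (num2.trans (by norm_num)) num3 hx' norm_zero_le
    rw [sub_zero] at t
    have t2 := norm_lin s2 s3 x (c := 25) (by linarith [ns2, ns3])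
    have e : S 1 x - s1 = (S 1 x - S 1 0 - (s2 * x.1 - I * s3 * (x.2 : ℂ))) +
        (s2 * x.1 - I * s3 * (x.2 : ℂ)) + (S 1 0 - s1) := by ring
    rw [e]
    refine (norm_add_le _ _).trans ?_
    refine (add_le_add (norm_add_le _ _) num1).trans ?_
    rw [hδ] at hx'
    norm_num at hx' t t2 ⊢
    linarith
  have hy2 : ‖S 2 y - s2‖ ≤ 1e-5 := by
    have t := S_lin (j := 2) (by norm_num) num3 num4 hy' norm_zero_le
    rw [sub_zero] at t
    have t2 := norm_lin s3 s4 y (c := 138) (by linarith [ns3, ns4])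
    have e : S 2 y - s2 = (S 2 y - S 2 0 - (s3 * y.1 - I * s4 * (y.2 : ℂ))) +
        (s3 * y.1 - I * s4 * (y.2 : ℂ)) + (S 2 0 - s2) := by ring
    rw [e]
    refine (norm_add_le _ _).trans ?_
    refine (add_le_add (norm_add_le _ _) num2).trans ?_
    rw [hδ] at hy'
    norm_num at hy' t t2 ⊢
    linarith
  have l1 := norm_lin s2 s3 (x - y) (c := 25) (by linarith [ns2, ns3])
  have l2 := norm_lin s3 s4 (x - y) (c := 138) (by linarith [ns3, ns4])
  rw [DΦ_apply]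
  have hcast : (((1 / 10 : NNReal)) : ℝ) = 1 / 10 := by norm_num
  rw [hcast]
  refine max_le ?_ ?_
  · show ‖S 0 x - S 0 y - (s1 * (x - y).1 - I * s2 * ((x - y).2 : ℂ))‖ ≤ _
    refine q0.trans ?_
    norm_num
    linarith
  · show ‖(S 2 x * conj (S 1 x)).im - (S 2 y * conj (S 1 y)).im -
      ((s3 * (x - y).1 - I * s4 * ((x - y).2 : ℂ)) * conj s1 +
        s2 * conj (s2 * (x - y).1 - I * s3 * ((x - y).2 : ℂ))).im‖ ≤ _
    rw [← sub_im, ← sub_im, Real.norm_eq_abs]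
    refine (abs_im_le_norm _).trans ?_
    generalize hℓ2 : s3 * (x - y).1 - I * s4 * ((x - y).2 : ℂ) = ℓ2 at *
    generalize hℓ1 : s2 * (x - y).1 - I * s3 * ((x - y).2 : ℂ) = ℓ1 at *
    have e : S 2 x * conj (S 1 x) - S 2 y * conj (S 1 y) - (ℓ2 * conj s1 + s2 * conj ℓ1) =
        (ℓ2 + (S 2 x - S 2 y - ℓ2)) * conj (S 1 x - s1) + (S 2 x - S 2 y - ℓ2) * conj s1 +
        (S 2 y - s2) * conj (ℓ1 + (S 1 x - S 1 y - ℓ1)) + s2 * conj (S 1 x - S 1 y - ℓ1) := by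
      simp only [map_sub, map_add]
      ring
    rw [e]
    have g1 : ‖(ℓ2 + (S 2 x - S 2 y - ℓ2)) * conj (S 1 x - s1)‖ ≤ (139 * ‖x - y‖) * 1e-5 := by
      rw [norm_mul, Complex.norm_conj]
      refine mul_le_mul ((norm_add_le _ _).trans ?_) hx1 (norm_nonneg _) (by positivity)
      norm_num at q2 ⊢
      linarith
    have g2 : ‖(S 2 x - S 2 y - ℓ2) * conj s1‖ ≤ (1e-5 * ‖x - y‖) * 1.81 := by
      rw [norm_mul, Complex.norm_conj]
      exact mul_le_mul q2 ns1 (norm_nonneg _) (by positivity)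
    have g3 : ‖(S 2 y - s2) * conj (ℓ1 + (S 1 x - S 1 y - ℓ1))‖ ≤ 1e-5 * (26 * ‖x - y‖) := by
      rw [norm_mul, Complex.norm_conj]
      refine mul_le_mul hy2 ((norm_add_le _ _).trans ?_) (norm_nonneg _) (by positivity)
      norm_num at q1 ⊢
      linarith
    have g4 : ‖s2 * conj (S 1 x - S 1 y - ℓ1)‖ ≤ 4.9 * (1e-5 * ‖x - y‖) := by
      rw [norm_mul, Complex.norm_conj]
      exact mul_le_mul ns2 q1 (norm_nonneg _) (by norm_num)
    refine (norm_add₄_le).trans ?_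
    norm_num at g1 g2 g3 g4 ⊢
    linarith

/-- the solution. -/
theorem exists_zero : ∃ x : ℂ × ℝ, ‖x‖ ≤ δ ∧ S 0 x = 0 ∧ (S 2 x * conj (S 1 x)).im = 0 := by
  have h := approx.surjOn_closedBall_of_nonlinearRightInverse Ginv (ε := δ) (b := 0) δ_pos.le
    (subset_refl _)
  have h0 : (0 : ℂ × ℝ) ∈ closedBall (Φ 0) ((((Ginv.nnnorm : NNReal) : ℝ)⁻¹ -
      ((1 / 10 : NNReal) : ℝ)) * δ) := by
    rw [mem_closedBall, dist_comm, dist_zero_right]
    have hh : ‖Φ 0‖ ≤ 1e-20 := max_le num0 numJ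
    refine hh.trans ?_
    show (1e-20 : ℝ) ≤ ((((1 : NNReal)) : ℝ)⁻¹ - ((1 / 10 : NNReal) : ℝ)) * δ
    unfold δ
    norm_num
  obtain ⟨x, hx, hx2⟩ := h h0
  refine ⟨x, by simpa using hx, ?_, ?_⟩
  · exact congrArg Prod.fst hx2
  · exact congrArg Prod.snd hx2

end Pool.Agent.H93.CritPt
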