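import Pool.Agent.Lib.H93.Defs

/-!
Chunk C, numerical part: exact evaluation (Gaussian integers, in the kernel) of the partial sums
`∑_{k=1}^{111} k^j u₀^k p₀^{k(k-1)/2}`, `j = 0, …, 4`.
-/

namespace Pool.Agent.H93.CritPt

/-- state of the exact evaluation. -/
structure St where
  zr : ℤ
  zi : ℤ
  wr : ℤ
  wi : ℤ
  dw : ℤ
  den : ℤ
  a0r : ℤ
  a0i : ℤ
  a1r : ℤ
  a1i : ℤ
  a2r : ℤ
  a2i : ℤ
  a3r : ℤ
  a3i : ℤ
  a4r : ℤ
  a4i : ℤ

def Ur : ℤ := -55684272183537153714692244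
def Ui : ℤ := 7002790526512977218207963
def Dd : ℤ := 100000000000000000000000000
def Vr : ℤ := -4204999544515635233470947
def Vi : ℤ := -4048731446058476147112196
def Cc : ℤ := 5837315092718523030715685

/-- initial state (`k = 1`). -/
def st1 : St :=
  { zr := Ur, zi := Ui, wr := Ur * Vr - Ui * Vi, wi := Ur * Vi + Ui * Vr, dw := Dd * Cc, den := Dd
    a0r := Ur, a0i := Ui, a1r := Ur, a1i := Ui, a2r := Ur, a2i := Ui, a3r := Ur, a3i := Ui
    a4r := Ur, a4i := Ui }

/-- one step, from `k` to `k + 1`; `κ = k + 1`. -/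
def step (κ : ℤ) (s : St) : St :=
  let zr' := s.zr * s.wr - s.zi * s.wi
  let zi' := s.zr * s.wi + s.zi * s.wr
  { zr := zr', zi := zi'
    wr := s.wr * Vr - s.wi * Vi, wi := s.wr * Vi + s.wi * Vr, dw := s.dw * Cc
    den := s.den * s.dw
    a0r := s.a0r * s.dw + zr', a0i := s.a0i * s.dw + zi'
    a1r := s.a1r * s.dw + κ * zr', a1i := s.a1i * s.dw + κ * zi'
    a2r := s.a2r * s.dw + κ * κ * zr', a2i := s.a2i * s.dw + κ * κ * zi'
    a3r := s.a3r * s.dw + κ * κ * κ * zr', a3i := s.a3i * s.dw + κ * κ * κ * zi'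
    a4r := s.a4r * s.dw + κ * κ * κ * κ * zr', a4i := s.a4i * s.dw + κ * κ * κ * κ * zi' }

/-- `run k` is the state at index `k + 1`. -/
def run : ℕ → St
  | 0 => st1
  | k + 1 => step (k + 2) (run k)

/-- `|a / den * sc - c| ≤ 1`. -/
def near (a c sc den : ℤ) : Bool :=
  decide (-den ≤ a * sc - c * den) && decide (a * sc - c * den ≤ den)

/-- final check. -/
def check (s : St) : Bool :=
  decide (0 < s.den) &&
  near s.a0r (-10000000000000000000000) 10000000000000000000000 s.den &&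
  near s.a0i 0 10000000000000000000000 s.den &&
  near s.a1r (-18082757614246032020023) 10000000000000000000000 s.den &&
  near s.a1i (-324000303437077966066) 10000000000000000000000 s.den &&
  near s.a2r (-48966548394281516279384) 10000000000000000000000 s.den &&
  near s.a2i (-877364884076895765469) 10000000000000000000000 s.den &&
  near s.a3r (-19958493) 1000000 s.den &&
  near s.a3i (-1212961) 1000000 s.den &&
  near s.a4r (-114771755) 1000000 s.den &&
  near s.a4i (-25235916) 1000000 s.den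

set_option maxRecDepth 100000 in
theorem check_run : check (run 110) = true := by decide +kernel

open Finset

/-- Gaussian integer as complex number. -/
noncomputable def gz (a b : ℤ) : ℂ := (a : ℂ) + (b : ℂ) * Complex.I

theorem gz_mul (a b c d : ℤ) : gz a b * gz c d = gz (a * c - b * d) (a * d + b * c) := by
  unfold gz
  push_cast
  linear_combination ((b : ℂ) * d) * Complex.I_mul_I

theorem gz_add (a b c d : ℤ) : gz a b + gz c d = gz (a + c) (b + d) := by
  unfold gz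
  push_cast
  ring

theorem gz_smul (a b c : ℤ) : (c : ℂ) * gz a b = gz (c * a) (c * b) := by
  unfold gz
  push_cast
  ring

theorem gz_smul' (a b c : ℤ) : gz a b * (c : ℂ) = gz (a * c) (b * c) := by
  unfold gz
  push_cast
  ring

/-- base point `u₀`. -/
noncomputable def u0 : ℂ := gz Ur Ui / (Dd : ℂ)

/-- base point `p₀ = q₀⁻¹`. -/
noncomputable def p0 : ℂ := gz Vr Vi / (Cc : ℂ)

/-- `z_k = u₀^k p₀^{k(k-1)/2}`. -/
noncomputable def zk (k : ℕ) : ℂ := u0 ^ k * p0 ^ (k * (k - 1) / 2)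

theorem zk_succ (k : ℕ) : zk (k + 1) = zk k * (u0 * p0 ^ k) := by
  unfold zk
  rw [Nat.triangle_succ, pow_succ, pow_add]
  ring

theorem Dd_ne : (Dd : ℂ) ≠ 0 := by unfold Dd; norm_num
theorem Cc_ne : (Cc : ℂ) ≠ 0 := by unfold Cc; norm_num

theorem gz_U : gz Ur Ui = (Dd : ℂ) * u0 := by
  unfold u0
  rw [mul_div_cancel₀ _ Dd_ne]

theorem gz_V : gz Vr Vi = (Cc : ℂ) * p0 := by
  unfold p0
  rw [mul_div_cancel₀ _ Cc_ne]

/-- partial sums. -/
noncomputable def Q (j k : ℕ) : ℂ := ∑ i ∈ range (k + 1), ((i : ℂ) + 1) ^ j * zk (i + 1)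

theorem Q_succ (j k : ℕ) : Q j (k + 1) = Q j k + ((k : ℂ) + 2) ^ j * zk (k + 2) := by
  unfold Q
  rw [sum_range_succ _ (k + 1)]
  push_cast
  rw [show (k : ℂ) + 1 + 1 = k + 2 by ring]

structure Inv (k : ℕ) (s : St) : Prop where
  hz : gz s.zr s.zi = (s.den : ℂ) * zk (k + 1)
  hw : gz s.wr s.wi = (s.dw : ℂ) * (u0 * p0 ^ (k + 1))
  h0 : gz s.a0r s.a0i = (s.den : ℂ) * Q 0 k
  h1 : gz s.a1r s.a1i = (s.den : ℂ) * Q 1 k
  h2 : gz s.a2r s.a2i = (s.den : ℂ) * Q 2 k
  h3 : gz s.a3r s.a3i = (s.den : ℂ) * Q 3 k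
  h4 : gz s.a4r s.a4i = (s.den : ℂ) * Q 4 k

theorem zk_one : zk 1 = u0 := by simp [zk]

theorem inv_zero : Inv 0 st1 := by
  have hQ : ∀ j, Q j 0 = u0 := by
    intro j
    simp [Q, zk_one]
  refine ⟨?_, ?_, ?_, ?_, ?_, ?_, ?_⟩
  · simpa [st1, zk_one] using gz_U
  · show gz (Ur * Vr - Ui * Vi) (Ur * Vi + Ui * Vr) = ((Dd * Cc : ℤ) : ℂ) * (u0 * p0 ^ 1)
    rw [← gz_mul, gz_U, gz_V]
    push_cast
    ring
  all_goals
    rw [hQ]
    exact gz_U

theorem step_aux {ar ai dw zr' zi' c : ℤ} {den : ℤ} {A q Z κ : ℂ}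
    (h : gz ar ai = (den : ℂ) * A) (hz : gz zr' zi' = ((den * dw : ℤ) : ℂ) * Z)
    (hc : (c : ℂ) = κ) (hq : q = A + κ * Z) :
    gz (ar * dw + c * zr') (ai * dw + c * zi') = ((den * dw : ℤ) : ℂ) * q := by
  rw [← gz_add, ← gz_smul', ← gz_smul, h, hz, hc, hq]
  push_cast
  ring

theorem inv_succ {k : ℕ} {s : St} (h : Inv k s) : Inv (k + 1) (step (k + 2) s) := by
  have hz' : gz (s.zr * s.wr - s.zi * s.wi) (s.zr * s.wi + s.zi * s.wr) =
      ((s.den * s.dw : ℤ) : ℂ) * zk (k + 2) := by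
    rw [← gz_mul, h.hz, h.hw, show k + 2 = (k + 1) + 1 from rfl, zk_succ (k + 1)]
    push_cast
    ring
  refine ⟨hz', ?_, ?_, ?_, ?_, ?_, ?_⟩
  · show gz (s.wr * Vr - s.wi * Vi) (s.wr * Vi + s.wi * Vr) = ((s.dw * Cc : ℤ) : ℂ) * _
    rw [← gz_mul, h.hw, gz_V]
    push_cast
    ring
  · have := step_aux (c := 1) (κ := 1) h.h0 hz' (by push_cast; rfl) (q := Q 0 (k + 1))
      (by rw [Q_succ]; ring)
    simpa [step] using this
  · exact step_aux (c := (k : ℤ) + 2) (κ := (k : ℂ) + 2) h.h1 hz' (by push_cast; rfl)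
      (by rw [Q_succ]; ring)
  · exact step_aux (c := ((k : ℤ) + 2) * ((k : ℤ) + 2)) (κ := ((k : ℂ) + 2) ^ 2) h.h2 hz'
      (by push_cast; ring) (by rw [Q_succ])
  · exact step_aux (c := ((k : ℤ) + 2) * ((k : ℤ) + 2) * ((k : ℤ) + 2)) (κ := ((k : ℂ) + 2) ^ 3)
      h.h3 hz' (by push_cast; ring) (by rw [Q_succ])
  · exact step_aux (c := ((k : ℤ) + 2) * ((k : ℤ) + 2) * ((k : ℤ) + 2) * ((k : ℤ) + 2))
      (κ := ((k : ℂ) + 2) ^ 4) h.h4 hz' (by push_cast; ring) (by rw [Q_succ])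

theorem inv_run (k : ℕ) : Inv k (run k) := by
  induction k with
  | zero => exact inv_zero
  | succ k ih => exact inv_succ ih

theorem real_aux {den x c sc : ℝ} (hd : 0 < den) (hs : 0 < sc)
    (a1 : -den ≤ den * x * sc - c * den) (a2 : den * x * sc - c * den ≤ den) :
    |x - c / sc| ≤ 1 / sc := by
  have b1 : -1 ≤ x * sc - c := by
    by_contra hc
    push Not at hc
    nlinarith
  have b2 : x * sc - c ≤ 1 := by
    by_contra hc
    push Not at hc
    nlinarith
  have e : x - c / sc = (x * sc - c) / sc := by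
    field_simp
  rw [e, abs_div, abs_of_pos hs]
  apply div_le_div_of_nonneg_right _ hs.le
  rw [abs_le]
  exact ⟨b1, b2⟩

theorem gz_div (a b c : ℤ) : gz a b / (c : ℂ) = ⟨(a : ℝ) / c, (b : ℝ) / c⟩ := by
  apply Complex.ext
  · have := Complex.div_ofReal_re (gz a b) (c : ℝ)
    simp only [Complex.ofReal_intCast] at this
    rw [this]
    simp [gz]
  · have := Complex.div_ofReal_im (gz a b) (c : ℝ)
    simp only [Complex.ofReal_intCast] at this
    rw [this]
    simp [gz]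

theorem near_spec {ar ai cr ci sc den : ℤ} {z : ℂ} (hd : 0 < den) (hsc : 0 < sc)
    (h : gz ar ai = (den : ℂ) * z) (h1 : near ar cr sc den = true)
    (h2 : near ai ci sc den = true) :
    ‖z - gz cr ci / sc‖ ≤ 2 / sc := by
  have hdR : (0 : ℝ) < den := by exact_mod_cast hd
  have hsR : (0 : ℝ) < sc := by exact_mod_cast hsc
  have hre : (ar : ℝ) = den * z.re := by
    have := congrArg Complex.re h
    simpa [gz] using this
  have him : (ai : ℝ) = den * z.im := by
    have := congrArg Complex.im h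
    simpa [gz] using this
  unfold near at h1 h2
  rw [Bool.and_eq_true, decide_eq_true_eq, decide_eq_true_eq] at h1 h2
  have e1 : |z.re - cr / sc| ≤ 1 / sc := by
    have a1 : (-(den : ℝ)) ≤ ar * sc - cr * den := by exact_mod_cast h1.1
    have a2 : (ar : ℝ) * sc - cr * den ≤ den := by exact_mod_cast h1.2
    rw [hre] at a1 a2
    exact real_aux hdR hsR a1 a2
  have e2 : |z.im - ci / sc| ≤ 1 / sc := by
    have a1 : (-(den : ℝ)) ≤ ai * sc - ci * den := by exact_mod_cast h2.1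
    have a2 : (ai : ℝ) * sc - ci * den ≤ den := by exact_mod_cast h2.2
    rw [him] at a1 a2
    exact real_aux hdR hsR a1 a2
  have hre' : (z - gz cr ci / sc).re = z.re - cr / sc := by
    rw [gz_div]
    simp
  have him' : (z - gz cr ci / sc).im = z.im - ci / sc := by
    rw [gz_div]
    simp
  calc ‖z - gz cr ci / sc‖ ≤ |(z - gz cr ci / sc).re| + |(z - gz cr ci / sc).im| :=
        Complex.norm_le_abs_re_add_abs_im _
    _ ≤ 1 / sc + 1 / sc := by rw [hre', him']; exact add_le_add e1 e2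
    _ = 2 / sc := by ring

/-- the numerical results. -/
theorem numerics :
    ‖Q 0 110 - gz (-10000000000000000000000) 0 / (10000000000000000000000 : ℤ)‖ ≤
      2 / ((10000000000000000000000 : ℤ) : ℝ) ∧
    ‖Q 1 110 - gz (-18082757614246032020023) (-324000303437077966066) / (10000000000000000000000 : ℤ)‖ ≤
      2 / ((10000000000000000000000 : ℤ) : ℝ) ∧
    ‖Q 2 110 - gz (-48966548394281516279384) (-877364884076895765469) / (10000000000000000000000 : ℤ)‖ ≤
      2 / ((10000000000000000000000 : ℤ) : ℝ) ∧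
    ‖Q 3 110 - gz (-19958493) (-1212961) / (1000000 : ℤ)‖ ≤ 2 / ((1000000 : ℤ) : ℝ) ∧
    ‖Q 4 110 - gz (-114771755) (-25235916) / (1000000 : ℤ)‖ ≤ 2 / ((1000000 : ℤ) : ℝ) := by
  have hc := check_run
  have hI := inv_run 110
  generalize run 110 = s at hc hI
  unfold check at hc
  simp only [Bool.and_eq_true, decide_eq_true_eq] at hc
  obtain ⟨⟨⟨⟨⟨⟨⟨⟨⟨⟨hd, c0r⟩, c0i⟩, c1r⟩, c1i⟩, c2r⟩, c2i⟩, c3r⟩, c3i⟩, c4r⟩, c4i⟩ := hc
  exact ⟨near_spec hd (by norm_num) hI.h0 c0r c0i, near_spec hd (by norm_num) hI.h1 c1r c1i,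
    near_spec hd (by norm_num) hI.h2 c2r c2i, near_spec hd (by norm_num) hI.h3 c3r c3i,
    near_spec hd (by norm_num) hI.h4 c4r c4i⟩

end Pool.Agent.H93.CritPt
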