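import Mathlib

/-!
# MP_fb0703_an: basic definitions (power series constant)
-/

namespace Pool.Agent.H93

open Filter Topology
open scoped ENNReal NNReal

/-- value at `z` of the `n`-th partial sum of the power series with coefficients `a`. -/
noncomputable def partialSum (a : ℕ → ℂ) (n : ℕ) (z : ℂ) : ℂ :=
  ∑ k ∈ Finset.range (n + 1), a k * z ^ k

/-- the largest modulus of a zero of the `n`-th partial sum (a supremum in `[0, ∞]`;
it is `0` if there is no zero and `∞` if the partial sum vanishes identically, which for a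
series of finite positive radius of convergence happens only for finitely many `n`). -/
noncomputable def maxZeroModulus (a : ℕ → ℂ) (n : ℕ) : ℝ≥0∞ :=
  ⨆ (z : ℂ) (_ : partialSum a n z = 0), (‖z‖₊ : ℝ≥0∞)

/-- the power series with coefficients `a` has radius of convergence exactly `1`. -/
def RadiusOne (a : ℕ → ℂ) : Prop :=
  (FormalMultilinearSeries.ofScalars ℂ a).radius = 1

/-- the power series constant `P`. -/
noncomputable def powerSeriesConstant : ℝ≥0∞ :=
  ⨆ (a : ℕ → ℂ) (_ : RadiusOne a), liminf (fun n : ℕ => maxZeroModulus a n) atTop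

/-- `ψ(z, q) = ∑_{n ≥ 0} q^{n(n-1)/2} z^n`. -/
noncomputable def psi (z q : ℂ) : ℂ := ∑' n : ℕ, q ^ (n * (n - 1) / 2) * z ^ n

/-- The dynamical hypothesis: every sequence whose terms from some point on are produced by
controls `w` in the closed disc of radius `r` is bounded. -/
def BoundedControls (r : ℝ) : Prop :=
  ∀ (a : ℕ → ℂ) (N : ℕ),
    (∀ n, N ≤ n → ∃ w : ℂ, ‖w‖ ≤ r ∧
      a (n + 1) = - ∑ j ∈ Finset.range (n + 1), w ^ (j + 1) * a (n - j)) →
    ∃ C : ℝ, ∀ n, ‖a n‖ ≤ C

/-- the extremal orbit `x*_j = q^{-j(j+1)/2} ω^{-j}`. -/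
noncomputable def xst (q ω : ℂ) (j : ℕ) : ℂ := (q ^ (j * (j + 1) / 2))⁻¹ * (ω ^ j)⁻¹

end Pool.Agent.H93
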