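import Pool.Agent.Lib.H93.Defs

/-!
Chunk F: from `|q| = 1` to `|q| ≤ 1`.
-/

set_option autoImplicit false

namespace Pool.Agent.H93

open Filter Topology Metric Finset
open scoped ENNReal NNReal Real

namespace Disc

/-- the Taylor coefficients in `z` of `1 / ψ(z, q)`, as polynomials in `q`. -/
noncomputable def cc : ℕ → ℂ → ℂ
  | 0, _ => 1
  | n + 1, q => - ∑ k : Fin (n + 1), q ^ (((k : ℕ) + 1) * k / 2) * cc (n - k) q
  decreasing_by omega

lemma cc_zero (q : ℂ) : cc 0 q = 1 := by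
  rw [cc]

lemma cc_succ (n : ℕ) (q : ℂ) :
    cc (n + 1) q = - ∑ k ∈ range (n + 1), q ^ ((k + 1) * k / 2) * cc (n - k) q := by
  rw [cc, Finset.sum_range]

lemma conv (n : ℕ) (q : ℂ) :
    ∑ kl ∈ antidiagonal n, q ^ (kl.1 * (kl.1 - 1) / 2) * cc kl.2 q = if n = 0 then 1 else 0 := by
  cases n with
  | zero => simp [cc_zero]
  | succ n =>
    rw [Finset.Nat.sum_antidiagonal_succ, Finset.Nat.sum_antidiagonal_eq_sum_range_succ_mk,
      cc_succ]
    simp

lemma norm_term_le {q z : ℂ} (hq : ‖q‖ ≤ 1) (n : ℕ) :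
    ‖q ^ (n * (n - 1) / 2) * z ^ n‖ ≤ ‖z‖ ^ n := by
  rw [norm_mul, norm_pow, norm_pow]
  have : ‖q‖ ^ (n * (n - 1) / 2) ≤ 1 := pow_le_one₀ (norm_nonneg _) hq
  calc ‖q‖ ^ (n * (n - 1) / 2) * ‖z‖ ^ n ≤ 1 * ‖z‖ ^ n :=
        mul_le_mul_of_nonneg_right this (by positivity)
    _ = ‖z‖ ^ n := one_mul _

lemma summable_term {q z : ℂ} (hq : ‖q‖ ≤ 1) (hz : ‖z‖ < 1) :
    Summable fun n : ℕ => ‖q ^ (n * (n - 1) / 2) * z ^ n‖ :=
  Summable.of_nonneg_of_le (fun _ => norm_nonneg _) (norm_term_le hq)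
    (summable_geometric_of_lt_one (norm_nonneg _) hz)

lemma psi_mul {q z : ℂ} (hq : ‖q‖ ≤ 1) (hz : ‖z‖ < 1)
    (hs : Summable fun n : ℕ => ‖cc n q * z ^ n‖) :
    psi z q * ∑' n : ℕ, cc n q * z ^ n = 1 := by
  rw [psi, tsum_mul_tsum_eq_tsum_sum_antidiagonal_of_summable_norm (summable_term hq hz) hs]
  have : ∀ n : ℕ, ∑ kl ∈ antidiagonal n, q ^ (kl.1 * (kl.1 - 1) / 2) * z ^ kl.1 *
      (cc kl.2 q * z ^ kl.2) = if n = 0 then 1 else 0 := by
    intro n
    have h1 : ∀ kl ∈ antidiagonal n, q ^ (kl.1 * (kl.1 - 1) / 2) * z ^ kl.1 *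
      (cc kl.2 q * z ^ kl.2) = z ^ n * (q ^ (kl.1 * (kl.1 - 1) / 2) * cc kl.2 q) := by
      intro kl hkl
      rw [HasAntidiagonal.mem_antidiagonal] at hkl
      rw [← hkl, pow_add]
      ring
    rw [sum_congr rfl h1, ← mul_sum, conv]
    split_ifs with h
    · rw [h]; simp
    · simp
  rw [tsum_congr this, tsum_ite_eq]

lemma norm_cc_le (q : ℂ) (hq : ‖q‖ ≤ 1) (n : ℕ) : ‖cc n q‖ ≤ 2 ^ n := by
  induction n using Nat.strong_induction_on with
  | _ n ih =>
    cases n with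
    | zero => simp [cc_zero]
    | succ n =>
      rw [cc_succ, norm_neg]
      calc ‖∑ k ∈ range (n + 1), q ^ ((k + 1) * k / 2) * cc (n - k) q‖
          ≤ ∑ k ∈ range (n + 1), ‖q ^ ((k + 1) * k / 2) * cc (n - k) q‖ := norm_sum_le _ _
        _ ≤ ∑ k ∈ range (n + 1), (2 : ℝ) ^ (n - k) := by
            apply sum_le_sum
            intro k hk
            rw [norm_mul, norm_pow]
            have h1 : ‖q‖ ^ ((k + 1) * k / 2) ≤ 1 := pow_le_one₀ (norm_nonneg _) hq
            have h2 := ih (n - k) (by omega)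
            calc ‖q‖ ^ ((k + 1) * k / 2) * ‖cc (n - k) q‖ ≤ 1 * 2 ^ (n - k) :=
                  mul_le_mul h1 h2 (norm_nonneg _) zero_le_one
              _ = 2 ^ (n - k) := one_mul _
        _ = ∑ k ∈ range (n + 1), (2 : ℝ) ^ k := by
            have := Finset.sum_range_reflect (fun k => (2 : ℝ) ^ k) (n + 1)
            simpa using this
        _ ≤ 2 ^ (n + 1) := by
            rw [geom_sum_eq (by norm_num)]
            norm_num

lemma differentiable_cc (n : ℕ) : Differentiable ℂ (cc n) := by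
  induction n using Nat.strong_induction_on with
  | _ n ih =>
    cases n with
    | zero =>
      have : cc 0 = fun _ => 1 := by
        funext q; exact cc_zero q
      rw [this]
      exact differentiable_const _
    | succ n =>
      have : cc (n + 1) = fun q => - ∑ k ∈ range (n + 1), q ^ ((k + 1) * k / 2) * cc (n - k) q := by
        funext q; exact cc_succ n q
      rw [this]
      apply Differentiable.neg
      apply Differentiable.fun_sum
      intro k _
      apply Differentiable.mul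
      · exact differentiable_pow _
      · exact ih (n - k) (by omega)

lemma continuousOn_psi {ρ : ℝ} (hρ1 : ρ < 1) (hρ0 : 0 ≤ ρ) :
    ContinuousOn (fun p : ℂ × ℂ => psi p.1 p.2) (closedBall 0 ρ ×ˢ closedBall 0 1) := by
  unfold psi
  apply continuousOn_tsum (u := fun n : ℕ => ρ ^ n)
  · intro n
    fun_prop
  · exact summable_geometric_of_lt_one hρ0 hρ1
  · rintro n ⟨z, q⟩ ⟨hz, hq⟩
    have hz' : ‖z‖ ≤ ρ := by simpa using hz
    have hq' : ‖q‖ ≤ 1 := by simpa using hq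
    exact (norm_term_le hq' n).trans (pow_le_pow_left₀ (norm_nonneg _) hz' n)

lemma differentiableOn_psi {ρ : ℝ} (hρ1 : ρ < 1) (hρ0 : 0 ≤ ρ) {q : ℂ} (hq : ‖q‖ ≤ 1) :
    DifferentiableOn ℂ (fun z => psi z q) (ball 0 ρ) := by
  unfold psi
  apply Complex.differentiableOn_tsum_of_summable_norm (u := fun n : ℕ => ρ ^ n)
  · exact summable_geometric_of_lt_one hρ0 hρ1
  · intro n
    fun_prop
  · exact isOpen_ball
  · intro n z hz
    have hz' : ‖z‖ ≤ ρ := (by simpa using hz : ‖z‖ < ρ).le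
    exact (norm_term_le hq n).trans (pow_le_pow_left₀ (norm_nonneg _) hz' n)

end Disc

open Disc

/-- If for `|q| = 1` the function `ψ(·, q)` has no zero in `|z| < r` (`r ≤ 1`), then the same holds
for `|q| ≤ 1`.

Proof. Formally `1/ψ(z,q) = ∑ c_n(q) z^n` with `c_0 = 1` and
`c_n(q) = - ∑_{k=1}^{n} q^{k(k-1)/2} c_{n-k}(q)`, a polynomial in `q`. Fix `r' < r`. For `|q| = 1`,
`1/ψ(·,q)` is holomorphic on `|z| < r`, so `∑ c_n(q) z^n` is its Taylor series; by compactness
`|ψ(z,q)| ≥ δ > 0` for `|z| = r'`, `|q| = 1` (joint continuity on `{|z| ≤ r'} × {|q| ≤ 1}`), and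
Cauchy's estimate gives `|c_n(q)| ≤ δ⁻¹ r'^{-n}` for all `|q| = 1`. By the maximum principle in `q`
the same bound holds for `|q| ≤ 1`. Hence for `|q| ≤ 1`, `∑ c_n(q) z^n` converges for `|z| < r'` and
its product with `ψ(z,q)` is `1` (Cauchy product), so `ψ(z,q) ≠ 0`. -/
theorem psi_ne_zero_of_circle {r : ℝ} (hr1 : r ≤ 1)
    (h : ∀ q z : ℂ, ‖q‖ = 1 → ‖z‖ < r → psi z q ≠ 0) :
    ∀ q z : ℂ, ‖q‖ ≤ 1 → ‖z‖ < r → psi z q ≠ 0 := by
  intro q₀ z₀ hq₀ hz₀
  obtain ⟨r', hr'1, hr'2⟩ := exists_between hz₀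
  have hr'0 : 0 < r' := lt_of_le_of_lt (norm_nonneg _) hr'1
  have hr'lt : r' < 1 := hr'2.trans_le hr1
  obtain ⟨ρ, hρ1, hρ2⟩ := exists_between hr'lt
  -- lower bound
  obtain ⟨δ, hδ, hδle⟩ : ∃ δ : ℝ, 0 < δ ∧ ∀ q z : ℂ, ‖q‖ = 1 → ‖z‖ ≤ r' → δ ≤ ‖psi z q‖ := by
    have hK : IsCompact ((closedBall (0 : ℂ) r') ×ˢ (sphere (0 : ℂ) 1)) :=
      (isCompact_closedBall _ _).prod (isCompact_sphere _ _)
    have hne : ((closedBall (0 : ℂ) r') ×ˢ (sphere (0 : ℂ) 1)).Nonempty :=
      ⟨(0, 1), by simp [hr'0.le], by simp⟩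
    have hc : ContinuousOn (fun p : ℂ × ℂ => ‖psi p.1 p.2‖)
        ((closedBall (0 : ℂ) r') ×ˢ (sphere (0 : ℂ) 1)) :=
      ((continuousOn_psi hr'lt hr'0.le).mono
        (Set.prod_mono subset_rfl sphere_subset_closedBall)).norm
    obtain ⟨p, hp, hmin⟩ := hK.exists_isMinOn hne hc
    refine ⟨‖psi p.1 p.2‖, ?_, ?_⟩
    · apply norm_pos_iff.mpr
      apply h
      · simpa using hp.2
      · have : ‖p.1‖ ≤ r' := by simpa using hp.1
        exact this.trans_lt hr'2
    · intro q z hq hz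
      exact hmin (a := (z, q)) ⟨by simpa using hz, by simpa using hq⟩
  -- Cauchy estimates on the circle
  have hcirc : ∀ q : ℂ, ‖q‖ = 1 → ∀ n, ‖cc n q‖ ≤ δ⁻¹ * r'⁻¹ ^ n := by
    intro q hq n
    set R : ℝ≥0 := ⟨r', hr'0.le⟩ with hR
    have hRr : (R : ℝ) = r' := rfl
    have hsub : closedBall (0 : ℂ) r' ⊆ ball 0 ρ := closedBall_subset_ball hρ1
    have hdiff : DifferentiableOn ℂ (fun z => (psi z q)⁻¹) (closedBall 0 (R : ℝ)) := by
      apply DifferentiableOn.inv
      · exact (differentiableOn_psi hρ2 (hr'0.le.trans hρ1.le) hq.le).mono hsub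
      · intro z hz
        have : ‖z‖ ≤ r' := by simpa [hRr] using hz
        exact h q z hq (this.trans_lt hr'2)
    have hps := hdiff.hasFPowerSeriesOnBall (by exact_mod_cast hr'0)
    have h2 : HasFPowerSeriesAt (fun z => (psi z q)⁻¹)
        (FormalMultilinearSeries.ofScalars ℂ (fun n => cc n q)) 0 := by
      rw [hasFPowerSeriesAt_iff]
      have : ball (0 : ℂ) (1 / 2) ∈ 𝓝 (0 : ℂ) := ball_mem_nhds _ (by norm_num)
      filter_upwards [this] with z hz
      have hz' : ‖z‖ < 1 / 2 := by simpa using hz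
      have hs : Summable fun n : ℕ => ‖cc n q * z ^ n‖ := by
        refine Summable.of_nonneg_of_le (fun _ => norm_nonneg _) (fun n => ?_)
          (summable_geometric_of_lt_one (r := 2 * ‖z‖) (by positivity) (by linarith))
        rw [norm_mul, norm_pow, mul_pow]
        exact mul_le_mul_of_nonneg_right (norm_cc_le q hq.le n) (by positivity)
      have hmul := psi_mul hq.le (by linarith : ‖z‖ < 1) hs
      have hinv : (psi z q)⁻¹ = ∑' n : ℕ, cc n q * z ^ n :=
        inv_eq_of_mul_eq_one_right hmul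
      rw [zero_add, hinv]
      have h3 := hs.of_norm.hasSum
      convert h3 using 2 with n
      rw [FormalMultilinearSeries.coeff_ofScalars, smul_eq_mul, mul_comm]
    have heq := h2.eq_formalMultilinearSeries hps.hasFPowerSeriesAt
    have h4 : cc n q = (cauchyPowerSeries (fun z => (psi z q)⁻¹) 0 R).coeff n := by
      rw [← heq, FormalMultilinearSeries.coeff_ofScalars]
    rw [h4]
    have h5 : ‖(cauchyPowerSeries (fun z => (psi z q)⁻¹) 0 R).coeff n‖ =
        ‖cauchyPowerSeries (fun z => (psi z q)⁻¹) 0 R n‖ := by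
      rw [FormalMultilinearSeries.norm_apply_eq_norm_coef]
    rw [h5]
    refine (norm_cauchyPowerSeries_le _ _ _ _).trans ?_
    rw [hRr, abs_of_pos hr'0]
    apply mul_le_mul_of_nonneg_right _ (by positivity)
    have h6 : ∫ θ : ℝ in (0 : ℝ)..2 * π, ‖(psi (circleMap 0 r' θ) q)⁻¹‖ ≤
        ∫ θ : ℝ in (0 : ℝ)..2 * π, δ⁻¹ := by
      apply intervalIntegral.integral_mono_on (by positivity)
      · apply Continuous.intervalIntegrable
        have hcont : ContinuousOn (fun z => (psi z q)⁻¹) (closedBall 0 r') := hdiff.continuousOn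
        exact (hcont.comp_continuous (continuous_circleMap 0 r') (fun θ => by
          simp [circleMap, abs_of_pos hr'0])).norm
      · exact intervalIntegrable_const
      · intro θ _
        rw [norm_inv]
        apply inv_anti₀ hδ
        apply hδle q _ hq
        simp [circleMap, abs_of_pos hr'0]
    rw [intervalIntegral.integral_const, smul_eq_mul, sub_zero] at h6
    calc (2 * π)⁻¹ * ∫ θ : ℝ in (0 : ℝ)..2 * π, ‖(psi (circleMap 0 r' θ) q)⁻¹‖
        ≤ (2 * π)⁻¹ * (2 * π * δ⁻¹) := mul_le_mul_of_nonneg_left h6 (by positivity)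
      _ = δ⁻¹ := by field_simp
  -- maximum principle
  have hdisc : ∀ n, ‖cc n q₀‖ ≤ δ⁻¹ * r'⁻¹ ^ n := by
    intro n
    apply Complex.norm_le_of_forall_mem_frontier_norm_le (isBounded_ball (x := (0 : ℂ)) (r := 1))
      (differentiable_cc n).diffContOnCl
    · intro q hq
      rw [frontier_ball (0 : ℂ) one_ne_zero] at hq
      exact hcirc q (by simpa using hq) n
    · rw [closure_ball (0 : ℂ) one_ne_zero]
      simpa using hq₀
  have hs : Summable fun n : ℕ => ‖cc n q₀ * z₀ ^ n‖ := by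
    refine Summable.of_nonneg_of_le (fun _ => norm_nonneg _) (fun n => ?_)
      ((summable_geometric_of_lt_one (r := ‖z₀‖ / r') (by positivity)
        ((div_lt_one hr'0).mpr hr'1)).mul_left δ⁻¹)
    rw [norm_mul, norm_pow]
    calc ‖cc n q₀‖ * ‖z₀‖ ^ n ≤ (δ⁻¹ * r'⁻¹ ^ n) * ‖z₀‖ ^ n :=
          mul_le_mul_of_nonneg_right (hdisc n) (by positivity)
      _ = δ⁻¹ * (‖z₀‖ / r') ^ n := by
          rw [div_eq_mul_inv, mul_pow]; ring
  have := psi_mul hq₀ (hr'1.trans hr'lt) hs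
  intro h0
  rw [h0, zero_mul] at this
  exact zero_ne_one this

end Pool.Agent.H93
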