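import Pool.Agent.Lib.H93.Forms
import Pool.Agent.Lib.H93.CritNum

/-!
Chunk D0: exact identities and basic bounds for the critical data. Everything here is elementary
series manipulation (absolutely convergent geometric type series).

* `xs (j+1) = xs j * (q^(j+1))⁻¹ * ω⁻¹`, `‖xs j‖ = 1`.
* `τ_0 = -ω`, `τ_{j+1} = τ_j - r^{j+1} x*_j`, `‖τ_j‖ ≤ r^{j+1}/(1-r)`.
* `∑_j τ_j = ∑_j ∑_{k ≥ j} r^{k+1} x*_k = ∑_k (k+1) r^{k+1} x*_k = g`, hence `s x* = 1`.
* `c_{j+1} q^{-(j+1)} - c_0 r^{j+1} = ω c_j` (from `conj x*_{j+1} = conj x*_j q^{j+1} ω`), which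
  gives `s (A 1 x) = ω s x`.
* `∑ j c_j x*_j = ∑ j τ_j / g = ∑_k k(k+1)/2 r^{k+1} x*_k / g = (g2 - g)/(2 g)`, real by `stat`.
-/

namespace Pool.Agent.H93

open Filter Topology ComplexConjugate

theorem Bdd.rot {x : ℕ → ℂ} (hx : Bdd x) {u : ℂ} (hu : ‖u‖ = 1) : Bdd (rot u x) := by
  obtain ⟨C, hC⟩ := hx
  refine ⟨C, fun j => ?_⟩
  simp only [Pool.Agent.H93.rot, norm_mul, norm_pow, hu, one_pow, one_mul]
  exact hC j

theorem Bdd.cjs {x : ℕ → ℂ} (hx : Bdd x) : Bdd (cjs x) := by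
  obtain ⟨C, hC⟩ := hx
  refine ⟨C, fun j => ?_⟩
  simp only [Pool.Agent.H93.cjs, RCLike.norm_conj]
  exact hC j

/-- summability of geometric type series against bounded sequences -/
theorem Bdd.summable {x : ℕ → ℂ} (hx : Bdd x) {c : ℕ → ℂ} {κ ρ : ℝ} (hρ0 : 0 ≤ ρ) (hρ1 : ρ < 1)
    (hc : ∀ j, ‖c j‖ ≤ κ * ρ ^ j) : Summable fun j => c j * x j := by
  obtain ⟨C, hC⟩ := hx
  refine Summable.of_norm_bounded (g := fun j => κ * ρ ^ j * C)
    (((summable_geometric_of_lt_one hρ0 hρ1).mul_left κ).mul_right C) fun j => ?_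
  rw [norm_mul]
  exact mul_le_mul (hc j) (hC j) (norm_nonneg _) ((norm_nonneg _).trans (hc j))

namespace Crit

variable (K : Crit)

theorem r_gt : (0.5612 : ℝ) < K.r := by
  have h := abs_le.1 K.hre
  unfold rHat at h
  norm_num at h ⊢
  linarith [h.1]

theorem r_lt : K.r < (0.5613 : ℝ) := by
  have h := abs_le.1 K.hre
  unfold rHat at h
  norm_num at h ⊢
  linarith [h.2]

theorem r_pos : 0 < K.r := lt_trans (by norm_num) K.r_gt

theorem r_lt_one : K.r < 1 := K.r_lt.trans (by norm_num)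

theorem q_ne_zero : K.q ≠ 0 := by
  intro h
  have := K.hq
  rw [h, norm_zero] at this
  norm_num at this

theorem om_ne_zero : K.ω ≠ 0 := by
  intro h
  have := K.hω
  rw [h, norm_zero] at this
  norm_num at this

theorem norm_xs (j : ℕ) : ‖K.xs j‖ = 1 := by
  simp [xs, xst, K.hq, K.hω]

theorem xs_zero : K.xs 0 = 1 := by
  simp [xs, xst]

theorem xs_succ (j : ℕ) : K.xs (j + 1) = K.xs j * (K.q ^ (j + 1))⁻¹ * K.ω⁻¹ := by
  have h : (j + 1) * (j + 1 + 1) / 2 = j * (j + 1) / 2 + (j + 1) := by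
    have := Nat.triangle_succ (j + 1)
    have h1 : (j + 1) * (j + 1 + 1) = (j + 1 + 1) * (j + 1) := by ring
    have h2 : j * (j + 1) = (j + 1) * j := by ring
    rw [h1, h2]
    simpa using this
  simp only [xs, xst, h, pow_add, pow_one, mul_inv]
  ring

/-- the norm of the general term -/
theorem norm_term (k : ℕ) : ‖(K.r : ℂ) ^ (k + 1) * K.xs k‖ = K.r ^ (k + 1) := by
  rw [norm_mul, K.norm_xs, mul_one, norm_pow, Complex.norm_real, Real.norm_of_nonneg K.r_pos.le]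

theorem summable_tau (j : ℕ) :
    Summable fun k : ℕ => (K.r : ℂ) ^ (j + k + 1) * K.xs (j + k) := by
  refine Summable.of_norm_bounded (g := fun k => K.r ^ (j + 1) * K.r ^ k)
    ((summable_geometric_of_lt_one K.r_pos.le K.r_lt_one).mul_left _) fun k => ?_
  rw [K.norm_term, ← pow_add]
  exact le_of_eq (by congr 1; ring)

theorem tau_zero : K.tau 0 = -K.ω := by
  have h := K.eig
  simpa [tau, xs] using h

theorem tau_succ (j : ℕ) : K.tau (j + 1) = K.tau j - (K.r : ℂ) ^ (j + 1) * K.xs j := by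
  have h : K.tau j = (K.r : ℂ) ^ (j + 1) * K.xs j + K.tau (j + 1) := by
    unfold tau
    rw [(K.summable_tau j).tsum_eq_zero_add]
    congr 1
    refine tsum_congr fun k => ?_
    rw [show j + (k + 1) = j + 1 + k by ring]
  rw [h]
  ring

theorem norm_tau_le (j : ℕ) : ‖K.tau j‖ ≤ K.r ^ (j + 1) / (1 - K.r) := by
  have h1 : HasSum (fun k => K.r ^ (j + 1) * K.r ^ k) (K.r ^ (j + 1) * (1 - K.r)⁻¹) :=
    (hasSum_geometric_of_lt_one K.r_pos.le K.r_lt_one).mul_left _
  rw [div_eq_mul_inv]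
  refine tsum_of_norm_bounded h1 fun k => ?_
  rw [K.norm_term, ← pow_add]
  exact le_of_eq (by congr 1; ring)

/-- `g ≠ 0`, with a numerical lower bound. The value is `1.80863`. (Crude proof: evaluate the first
25 terms with the enclosures `hqe, hωe, hre`, bound the rest; the sum may be shortened, only `1.8` is
needed.) -/
theorem g_norm_ge : (1.8 : ℝ) ≤ ‖K.g‖ := by
  have hu : ‖(K.r : ℂ) * K.ω⁻¹‖ ≤ 57 / 100 := by
    rw [norm_mul, norm_inv, K.hω, inv_one, mul_one, Complex.norm_real,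
      Real.norm_of_nonneg K.r_pos.le]
    linarith [K.r_lt]
  have hp : ‖K.q⁻¹‖ = 1 := by rw [norm_inv, K.hq, inv_one]
  have hqc : K.q⁻¹ = conj K.q := Complex.inv_eq_conj K.hq
  have hoc : K.ω⁻¹ = conj K.ω := Complex.inv_eq_conj K.hω
  have hP : ‖cv (-7203653525164264230463318082435766085968)
      (-6935948088717826409490332616583967816539) - K.q⁻¹‖ ≤ 1 / 10 ^ 15 := by
    have h1 : ‖cv (-7203653525164264230463318082435766085968)
      (-6935948088717826409490332616583967816539) - conj qHat‖ ≤ 1 / 10 ^ 16 := by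
      refine (Complex.norm_le_abs_re_add_abs_im _).trans ?_
      simp only [cv, qHat, Complex.sub_re, Complex.sub_im, Complex.conj_re, Complex.conj_im]
      norm_num [abs_le, abs_of_nonneg, abs_of_nonpos]
    have h2 : ‖conj qHat - K.q⁻¹‖ ≤ 1 / 10 ^ 16 := by
      rw [hqc, ← map_sub, RCLike.norm_conj, norm_sub_rev]
      refine K.hqe.trans ?_
      norm_num
    calc _ = ‖(cv (-7203653525164264230463318082435766085968)
      (-6935948088717826409490332616583967816539) - conj qHat) + (conj qHat - K.q⁻¹)‖ := by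
          rw [sub_add_sub_cancel]
      _ ≤ 1 / 10 ^ 16 + 1 / 10 ^ 16 := (norm_add_le _ _).trans (add_le_add h1 h2)
      _ ≤ _ := by norm_num
  have hU : ‖cv (-5568427218353715371468878435711394546313)
      700279052651297721823547068911708782749 - (K.r : ℂ) * K.ω⁻¹‖ ≤ 1 / 10 ^ 15 := by
    have h1 : ‖cv (-5568427218353715371468878435711394546313)
      700279052651297721823547068911708782749 - (rHat : ℂ) * conj omHat‖ ≤ 1 / 10 ^ 16 := by
      refine (Complex.norm_le_abs_re_add_abs_im _).trans ?_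
      simp only [cv, omHat, rHat, Complex.sub_re, Complex.sub_im, Complex.conj_re, Complex.conj_im,
        Complex.re_ofReal_mul, Complex.im_ofReal_mul]
      norm_num [abs_le, abs_of_nonneg, abs_of_nonpos]
    have h2 : ‖(rHat : ℂ) * conj omHat - (K.r : ℂ) * K.ω⁻¹‖ ≤ 2 / 10 ^ 16 := by
      have e : (rHat : ℂ) * conj omHat - (K.r : ℂ) * K.ω⁻¹ =
          (rHat : ℂ) * conj (omHat - K.ω) + ((rHat - K.r : ℝ) : ℂ) * conj K.ω := by
        rw [hoc, map_sub]
        push_cast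
        ring
      rw [e]
      refine (norm_add_le _ _).trans ?_
      rw [norm_mul, norm_mul, RCLike.norm_conj, RCLike.norm_conj, K.hω, mul_one,
        Complex.norm_real, Complex.norm_real, norm_sub_rev omHat, Real.norm_eq_abs,
        Real.norm_eq_abs, abs_sub_comm rHat]
      have h3 := K.hωe
      have h4 := K.hre
      have h5 : |rHat| ≤ 1 := by
        rw [abs_le]
        constructor <;> norm_num [rHat]
      calc |rHat| * ‖K.ω - omHat‖ + |K.r - rHat| ≤ 1 * 1e-18 + 1e-18 := by gcongr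
        _ ≤ _ := by norm_num
    calc _ = ‖(cv (-5568427218353715371468878435711394546313)
      700279052651297721823547068911708782749 - (rHat : ℂ) * conj omHat) +
        ((rHat : ℂ) * conj omHat - (K.r : ℂ) * K.ω⁻¹)‖ := by
          rw [sub_add_sub_cancel]
      _ ≤ 1 / 10 ^ 16 + 2 / 10 ^ 16 := (norm_add_le _ _).trans (add_le_add h1 h2)
      _ ≤ _ := by norm_num
  have hinv := invE_run (ε := 1 / 10 ^ 15) (by norm_num) (by norm_num) hu hp hP 300 0 _
    (by norm_num) (invE_ini (p := K.q⁻¹) (by norm_num) hU)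
  simp only [Nat.cast_zero] at hinv
  rw [run_one] at hinv
  have h1 := hinv.g
  have h2 := tail_bound hu hp.le (show 1 ≤ 2 by norm_num) 300
  simp only [pow_one] at h2
  have hgeq : K.g = K.ω * ∑' k : ℕ, (k : ℂ) * tt (K.r * K.ω⁻¹) K.q⁻¹ k := by
    have hs := summable_term hu hp.le (show 1 ≤ 2 by norm_num)
    simp only [pow_one] at hs
    rw [hs.tsum_eq_zero_add, Nat.cast_zero, zero_mul, zero_add, ← tsum_mul_left]
    unfold g
    congr 1
    ext j
    have := xst_eq (r := K.r) (q := K.q) K.om_ne_zero j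
    rw [mul_assoc, xs, this]
    push_cast
    ring
  set G := ∑' k : ℕ, (k : ℂ) * tt (K.r * K.ω⁻¹) K.q⁻¹ k with hG
  rw [hgeq, norm_mul, K.hω, one_mul]
  have h3 : (1.808 : ℝ) ≤ ‖cv (-18082757614246032020020540026500566984837)
      (-324000303437077966084934821502183569829)‖ := by
    refine le_trans ?_ (Complex.abs_re_le_norm _)
    simp only [cv]
    norm_num [abs_of_nonpos, abs_of_nonneg]
  have h4 : ‖cv (-18082757614246032020020540026500566984837)
      (-324000303437077966084934821502183569829) - G‖ ≤ 1 / 10 ^ 3 := by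
    have h5 : (7 / 10 : ℝ) ^ 300 ≤ (7 / 10 : ℝ) ^ 40 :=
      pow_le_pow_of_le_one (by norm_num) (by norm_num) (by norm_num)
    have h6 : (13 : ℝ) * (7 / 10) ^ 300 * (10 / 3) ≤ 13 * (7 / 10) ^ 40 * (10 / 3) := by gcongr
    have h7 : (13 : ℝ) * (7 / 10) ^ 40 * (10 / 3) ≤ 1 / 10 ^ 4 := by norm_num
    calc _ = ‖(cv (-18082757614246032020020540026500566984837)
      (-324000303437077966084934821502183569829) -
        ∑ j ∈ Finset.range (0 + 300), (j : ℂ) * tt (K.r * K.ω⁻¹) K.q⁻¹ j) -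
        (G - ∑ j ∈ Finset.range 300, (j : ℂ) * tt (K.r * K.ω⁻¹) K.q⁻¹ j)‖ := by
          congr 1
          rw [zero_add]
          ring
      _ ≤ _ := norm_sub_le _ _
      _ ≤ ((0 + 300 : ℕ) : ℝ) * 1000 * (8 * (1 / 10 ^ 15)) + 1 / 10 ^ 4 :=
          add_le_add h1 (h2.trans (h6.trans h7))
      _ ≤ _ := by norm_num
  have h8 := norm_sub_norm_le (cv (-18082757614246032020020540026500566984837)
      (-324000303437077966084934821502183569829)) G
  have h9 : (1.808 : ℝ) - 1 / 10 ^ 3 ≤ ‖G‖ := by linarith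
  refine le_trans ?_ h9
  norm_num

theorem g_ne_zero : K.g ≠ 0 := by
  intro h; have := K.g_norm_ge; rw [h, norm_zero] at this; linarith

theorem cc_zero : K.cc 0 = -K.ω / K.g := by
  rw [cc, K.tau_zero, K.xs_zero, map_one, mul_one]

theorem xs_mul_conj (j : ℕ) : K.xs j * conj (K.xs j) = 1 := by
  rw [Complex.mul_conj, Complex.normSq_eq_norm_sq, K.norm_xs]
  norm_num

theorem conj_xs_succ (j : ℕ) : conj (K.xs (j + 1)) = conj (K.xs j) * K.q ^ (j + 1) * K.ω := by
  have hq : conj (K.q) = K.q⁻¹ := (Complex.inv_eq_conj K.hq).symm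
  have hω : conj (K.ω) = K.ω⁻¹ := (Complex.inv_eq_conj K.hω).symm
  rw [K.xs_succ]
  simp only [map_mul, map_inv₀, map_pow, hq, hω, inv_pow, inv_inv]

theorem cc_succ (j : ℕ) :
    K.cc (j + 1) * (K.q ^ (j + 1))⁻¹ = K.ω * K.cc j + K.cc 0 * (K.r : ℂ) ^ (j + 1) := by
  have hg := K.g_ne_zero
  have hq : K.q ^ (j + 1) ≠ 0 := pow_ne_zero _ K.q_ne_zero
  rw [K.cc_zero, cc, cc, K.tau_succ, K.conj_xs_succ]
  have h1 := K.xs_mul_conj j
  field_simp
  linear_combination (-(K.ω * (K.r : ℂ) ^ (j + 1))) * h1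

theorem norm_cc_le (j : ℕ) : ‖K.cc j‖ ≤ 0.711 * K.r ^ j := by
  have hg := K.g_norm_ge
  have hg0 : 0 < ‖K.g‖ := lt_of_lt_of_le (by norm_num) hg
  rw [cc, norm_div, norm_mul, RCLike.norm_conj, K.norm_xs, mul_one, div_le_iff₀ hg0]
  refine (K.norm_tau_le j).trans ?_
  have hr := K.r_lt
  have h1 : 0 < 1 - K.r := by linarith
  have hrj : 0 < K.r ^ j := pow_pos K.r_pos j
  rw [div_le_iff₀ h1, pow_succ]
  have h2 : K.r ≤ 0.711 * ‖K.g‖ * (1 - K.r) := by
    have h3 : (0.711 * 1.8 : ℝ) * (1 - K.r) ≤ 0.711 * ‖K.g‖ * (1 - K.r) := by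
      gcongr
    refine le_trans ?_ h3
    norm_num
    linarith
  calc K.r ^ j * K.r ≤ K.r ^ j * (0.711 * ‖K.g‖ * (1 - K.r)) := by gcongr
    _ = _ := by ring

theorem bdd_xs : Bdd K.xs := ⟨1, fun j => (K.norm_xs j).le⟩

theorem summable_cc {x : ℕ → ℂ} (hx : Bdd x) : Summable fun j => K.cc j * x j :=
  hx.summable K.r_pos.le K.r_lt_one K.norm_cc_le

theorem s_add {x x' : ℕ → ℂ} (hx : Bdd x) (hx' : Bdd x') :
    K.s (fun j => x j + x' j) = K.s x + K.s x' := by
  unfold s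
  rw [← (K.summable_cc hx).tsum_add (K.summable_cc hx')]
  simp only [mul_add]

theorem s_smul (c : ℂ) (x : ℕ → ℂ) : K.s (fun j => c * x j) = c * K.s x := by
  unfold s
  rw [← tsum_mul_left]
  congr 1
  ext j
  ring

/-- summability of polynomial weights against `τ` -/
theorem summable_pow_tau (i : ℕ) : Summable fun j : ℕ => (j : ℂ) ^ i * K.tau j := by
  have hr : ‖(K.r : ℝ)‖ < 1 := by
    rw [Real.norm_of_nonneg K.r_pos.le]
    exact K.r_lt_one
  have h1 := (summable_pow_mul_geometric_of_norm_lt_one i hr).mul_left (K.r / (1 - K.r))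
  refine Summable.of_norm_bounded h1 fun j => ?_
  rw [norm_mul, norm_pow, Complex.norm_natCast]
  calc (j : ℝ) ^ i * ‖K.tau j‖ ≤ (j : ℝ) ^ i * (K.r ^ (j + 1) / (1 - K.r)) := by
        gcongr
        exact K.norm_tau_le j
    _ = _ := by
        rw [pow_succ]
        ring

theorem summable_tau' : Summable fun j : ℕ => K.tau j := by
  have := K.summable_pow_tau 0
  simpa using this

/-- summation by parts: `∑ (j+1) r^{j+1} x*_j = ∑ τ_j` -/
theorem g_eq_tsum_tau : K.g = ∑' j, K.tau j := by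
  have hs1 : Summable fun j : ℕ => (j : ℂ) * K.tau j := by
    simpa using K.summable_pow_tau 1
  have hs0 := K.summable_tau'
  have hs1' : Summable fun j : ℕ => ((j + 1 : ℕ) : ℂ) * K.tau (j + 1) :=
    (summable_nat_add_iff 1).2 hs1
  have e1 : ∑' j : ℕ, ((j + 1 : ℕ) : ℂ) * K.tau (j + 1) = ∑' j : ℕ, (j : ℂ) * K.tau j := by
    rw [hs1.tsum_eq_zero_add]
    simp
  have hs2 : Summable fun j : ℕ => (j : ℂ) * K.tau j + K.tau j := hs1.add hs0
  have e2 : K.g = ∑' j : ℕ, (((j : ℂ) * K.tau j + K.tau j) -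
      ((j + 1 : ℕ) : ℂ) * K.tau (j + 1)) := by
    unfold g
    congr 1
    ext j
    rw [K.tau_succ]
    push_cast
    ring
  rw [e2, hs2.tsum_sub hs1', e1, hs1.tsum_add hs0]
  ring

theorem g2_eq_tsum_tau : K.g2 = 2 * ∑' j : ℕ, (j : ℂ) * K.tau j + K.g := by
  have hs2 : Summable fun j : ℕ => (j : ℂ) ^ 2 * K.tau j := K.summable_pow_tau 2
  have hs1 : Summable fun j : ℕ => (j : ℂ) * K.tau j := by
    simpa using K.summable_pow_tau 1
  have hs0 := K.summable_tau'
  have hs2' : Summable fun j : ℕ => ((j + 1 : ℕ) : ℂ) ^ 2 * K.tau (j + 1) :=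
    (summable_nat_add_iff 1).2 hs2
  have e1 : ∑' j : ℕ, ((j + 1 : ℕ) : ℂ) ^ 2 * K.tau (j + 1) =
      ∑' j : ℕ, (j : ℂ) ^ 2 * K.tau j := by
    rw [hs2.tsum_eq_zero_add]
    simp
  have hs3 : Summable fun j : ℕ => (j : ℂ) ^ 2 * K.tau j + (2 * ((j : ℂ) * K.tau j) + K.tau j) :=
    hs2.add ((hs1.mul_left 2).add hs0)
  have e2 : K.g2 = ∑' j : ℕ, (((j : ℂ) ^ 2 * K.tau j + (2 * ((j : ℂ) * K.tau j) + K.tau j)) -
      ((j + 1 : ℕ) : ℂ) ^ 2 * K.tau (j + 1)) := by
    unfold g2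
    congr 1
    ext j
    rw [K.tau_succ]
    push_cast
    ring
  rw [e2, hs3.tsum_sub hs2', e1, hs2.tsum_add ((hs1.mul_left 2).add hs0),
    (hs1.mul_left 2).tsum_add hs0, tsum_mul_left, K.g_eq_tsum_tau]
  ring

theorem cc_mul_xs (j : ℕ) : K.cc j * K.xs j = K.tau j / K.g := by
  rw [cc]
  have := K.xs_mul_conj j
  have hg := K.g_ne_zero
  field_simp
  linear_combination (K.tau j) * this

/-- `s (x*) = 1` -/
theorem s_xs : K.s K.xs = 1 := by
  unfold s
  simp only [K.cc_mul_xs]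
  rw [tsum_div_const, ← K.g_eq_tsum_tau, div_self K.g_ne_zero]

/-- the new entry of `A 1 x` -/
theorem A_one_zero (x : ℕ → ℂ) : K.A 1 x 0 = -∑' j : ℕ, (K.r : ℂ) ^ (j + 1) * x j := by
  simp [A, stepA, rot, stepG, top]

theorem A_succ (ζ : ℂ) (x : ℕ → ℂ) (j : ℕ) : K.A ζ x (j + 1) = (K.q ^ (j + 1))⁻¹ * x j := by
  simp [A, stepA, rot, stepG]

theorem summable_r {x : ℕ → ℂ} (hx : Bdd x) :
    Summable fun j : ℕ => (K.r : ℂ) ^ (j + 1) * x j := by
  refine hx.summable (κ := K.r) K.r_pos.le K.r_lt_one fun j => ?_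
  rw [norm_pow, Complex.norm_real, Real.norm_of_nonneg K.r_pos.le, pow_succ]
  exact le_of_eq (mul_comm _ _)

/-- a bounded sequence stays bounded -/
theorem bdd_A {ζ : ℂ} {x : ℕ → ℂ} (hx : Bdd x) : Bdd (K.A ζ x) := by
  obtain ⟨C, hC⟩ := hx
  refine ⟨max C ‖K.A ζ x 0‖, fun j => ?_⟩
  cases j with
  | zero => exact le_max_right _ _
  | succ j =>
    rw [K.A_succ, norm_mul, norm_inv, norm_pow, K.hq, one_pow, inv_one, one_mul]
    exact (hC j).trans (le_max_left _ _)

/-- `s (A 1 x) = ω s x` -/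
theorem s_A_one {x : ℕ → ℂ} (hx : Bdd x) : K.s (K.A 1 x) = K.ω * K.s x := by
  have hA : Bdd (K.A 1 x) := K.bdd_A hx
  unfold s
  rw [(K.summable_cc hA).tsum_eq_zero_add, ← tsum_mul_left, K.A_one_zero, mul_neg,
    ← tsum_mul_left]
  have hs1 : Summable fun j : ℕ => K.cc (j + 1) * K.A 1 x (j + 1) :=
    (summable_nat_add_iff 1).2 (K.summable_cc hA)
  have hs2 : Summable fun j : ℕ => K.cc 0 * ((K.r : ℂ) ^ (j + 1) * x j) :=
    (K.summable_r hx).mul_left _
  rw [neg_add_eq_sub, ← hs1.tsum_sub hs2]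
  congr 1
  ext j
  rw [K.A_succ]
  have := K.cc_succ j
  linear_combination (x j) * this

/-- `A 1 x* = ω x*` -/
theorem A_one_xs : K.A 1 K.xs = fun j => K.ω * K.xs j := by
  ext j
  cases j with
  | zero =>
    rw [K.A_one_zero, K.xs_zero, mul_one]
    have h := K.eig
    have h2 : ∑' j : ℕ, (K.r : ℂ) ^ (j + 1) * K.xs j = -K.ω := h
    rw [h2, neg_neg]
  | succ j =>
    rw [K.A_succ, K.xs_succ]
    have hω := K.om_ne_zero
    field_simp

theorem summable_k1 : Summable fun j : ℕ => (j : ℂ) * K.cc j * K.xs j := by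
  have hs1 : Summable fun j : ℕ => (j : ℂ) * K.tau j := by
    simpa using K.summable_pow_tau 1
  refine (hs1.div_const K.g).congr fun j => ?_
  rw [mul_assoc, K.cc_mul_xs]
  ring

/-- `k₁ = ∑ j c_j x*_j` is real: this is the stationarity of the critical point -/
theorem k1_im : (∑' j : ℕ, (j : ℂ) * K.cc j * K.xs j).im = 0 := by
  have h1 : ∑' j : ℕ, (j : ℂ) * K.cc j * K.xs j = (∑' j : ℕ, (j : ℂ) * K.tau j) / K.g := by
    rw [← tsum_div_const]
    congr 1
    ext j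
    rw [mul_assoc, K.cc_mul_xs]
    ring
  have h2 : (∑' j : ℕ, (j : ℂ) * K.tau j) / K.g = ((1 / 2 : ℝ) : ℂ) * (K.g2 / K.g) -
      ((1 / 2 : ℝ) : ℂ) := by
    have hg := K.g_ne_zero
    rw [K.g2_eq_tsum_tau]
    push_cast
    field_simp
    ring
  have h3 : (K.g2 / K.g).im = 0 := K.stat
  rw [h1, h2, Complex.sub_im, Complex.im_ofReal_mul, h3, Complex.ofReal_im]
  ring

/-- `c_0 g / ω = -1` -/
theorem cc_zero_mul_g : K.cc 0 * K.g = -K.ω := by
  rw [K.cc_zero]; field_simp [K.g_ne_zero]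

end Crit

end Pool.Agent.H93
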