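import Pool.Agent.Lib.H93.Defs

/-!
Basic operations on (bounded) complex sequences, and chunk G1: the abstract induction.
-/

namespace Pool.Agent.H93

open Filter Topology ComplexConjugate

/-- bounded sequences -/
def Bdd (x : ℕ → ℂ) : Prop := ∃ C : ℝ, ∀ j, ‖x j‖ ≤ C

/-- rotation -/
noncomputable def rot (u : ℂ) (x : ℕ → ℂ) : ℕ → ℂ := fun j => u ^ j * x j

/-- conjugation -/
noncomputable def cjs (x : ℕ → ℂ) : ℕ → ℂ := fun j => conj (x j)

/-- the new top entry produced by the control `w` -/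
noncomputable def top (w : ℂ) (x : ℕ → ℂ) : ℂ := - ∑' j : ℕ, w ^ (j + 1) * x j

/-- one step with control `w` -/
noncomputable def stepG (w : ℂ) (x : ℕ → ℂ) : ℕ → ℂ
  | 0 => top w x
  | j + 1 => x j

/-- one step with control `r ζ` in the frame rotating with `q` -/
noncomputable def stepA (r : ℝ) (q ζ : ℂ) (x : ℕ → ℂ) : ℕ → ℂ :=
  rot q⁻¹ (stepG ((r : ℂ) * ζ) x)

/-- the Lyapunov class of radius one: `|x_j| ≤ X` and all forms, rotated and conjugated, are `≤ 1`. -/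
def InC {ι : Type} (N : ι → (ℕ → ℂ) → ℝ) (X : ℝ) (x : ℕ → ℂ) : Prop :=
  (∀ j, ‖x j‖ ≤ X) ∧
    ∀ (b : ι) (u : ℂ), ‖u‖ = 1 → N b (rot u x) ≤ 1 ∧ N b (rot u (cjs x)) ≤ 1

/-! ### basic identities -/

lemma rot_apply (u : ℂ) (x : ℕ → ℂ) (j : ℕ) : rot u x j = u ^ j * x j := rfl

lemma rot_rot (u v : ℂ) (x : ℕ → ℂ) : rot u (rot v x) = rot (u * v) x := by
  funext j; simp only [rot]; rw [mul_pow]; ring

lemma cjs_rot (v : ℂ) (x : ℕ → ℂ) : cjs (rot v x) = rot (conj v) (cjs x) := by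
  funext j; simp only [rot, cjs, map_mul, map_pow]

lemma cjs_cjs (x : ℕ → ℂ) : cjs (cjs x) = x := by
  funext j; simp [cjs]

lemma norm_rot {u : ℂ} (hu : ‖u‖ = 1) (x : ℕ → ℂ) (j : ℕ) : ‖rot u x j‖ = ‖x j‖ := by
  rw [rot_apply, norm_mul, norm_pow, hu, one_pow, one_mul]

lemma norm_cjs (x : ℕ → ℂ) (j : ℕ) : ‖cjs x j‖ = ‖x j‖ := by
  simp [cjs]

lemma InC.rot {ι : Type} {N : ι → (ℕ → ℂ) → ℝ} {X : ℝ} {x : ℕ → ℂ} (h : InC N X x) {v : ℂ}
    (hv : ‖v‖ = 1) : InC N X (rot v x) := by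
  refine ⟨fun j => by rw [norm_rot hv]; exact h.1 j, fun b u hu => ⟨?_, ?_⟩⟩
  · rw [rot_rot]; exact (h.2 b (u * v) (by rw [norm_mul, hu, hv, one_mul])).1
  · rw [cjs_rot, rot_rot]
    exact (h.2 b (u * conj v) (by rw [norm_mul, hu, Complex.norm_conj, hv, one_mul])).2

lemma InC.cjs {ι : Type} {N : ι → (ℕ → ℂ) → ℝ} {X : ℝ} {x : ℕ → ℂ} (h : InC N X x) :
    InC N X (cjs x) := by
  refine ⟨fun j => by rw [norm_cjs]; exact h.1 j, fun b u hu => ⟨?_, ?_⟩⟩
  · exact (h.2 b u hu).2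
  · rw [cjs_cjs]; exact (h.2 b u hu).1

lemma InC.bdd {ι : Type} {N : ι → (ℕ → ℂ) → ℝ} {X : ℝ} {x : ℕ → ℂ} (h : InC N X x) : Bdd x :=
  ⟨X, h.1⟩

lemma bdd_stepG {x : ℕ → ℂ} (h : Bdd x) (w : ℂ) : Bdd (stepG w x) := by
  obtain ⟨C, hC⟩ := h
  refine ⟨max C ‖top w x‖, fun j => ?_⟩
  cases j with
  | zero => exact le_max_right _ _
  | succ j => exact (hC j).trans (le_max_left _ _)

lemma bdd_rot {x : ℕ → ℂ} (h : Bdd x) {u : ℂ} (hu : ‖u‖ = 1) : Bdd (rot u x) := by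
  obtain ⟨C, hC⟩ := h
  exact ⟨C, fun j => by rw [norm_rot hu]; exact hC j⟩

lemma bdd_cjs {x : ℕ → ℂ} (h : Bdd x) : Bdd (cjs x) := by
  obtain ⟨C, hC⟩ := h
  exact ⟨C, fun j => by rw [norm_cjs]; exact hC j⟩

lemma cjs_stepG (w : ℂ) (x : ℕ → ℂ) : cjs (stepG w x) = stepG (conj w) (cjs x) := by
  funext j
  cases j with
  | zero =>
    show conj (top w x) = top (conj w) (cjs x)
    unfold top
    rw [map_neg, Complex.conj_tsum]
    congr 1
    apply tsum_congr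
    intro j
    simp [cjs]
  | succ j => rfl

/-- the circle identity -/
lemma rot_stepG_eq {r : ℝ} {q u ζ : ℂ} (hq : ‖q‖ = 1) (hu : ‖u‖ = 1) (x : ℕ → ℂ) :
    rot u (stepG ((r : ℂ) * ζ) x)
      = fun j => (u * q) * stepA r q (ζ / (u * q)) (rot (u * q) x) j := by
  have hq0 : q ≠ 0 := by intro h; rw [h, norm_zero] at hq; norm_num at hq
  have hu0 : u ≠ 0 := by intro h; rw [h, norm_zero] at hu; norm_num at hu
  have hv0 : u * q ≠ 0 := mul_ne_zero hu0 hq0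
  funext j
  cases j with
  | zero =>
    simp only [rot_apply, stepA, stepG, pow_zero, one_mul]
    unfold top
    rw [mul_neg, ← tsum_mul_left]
    congr 1
    apply tsum_congr
    intro j
    rw [rot_apply, mul_pow, mul_pow, div_pow]
    have : (u * q) ^ (j + 1) ≠ 0 := pow_ne_zero _ hv0
    rw [pow_succ (u * q) j] at this ⊢
    field_simp
  | succ j =>
    simp only [rot_apply, stepA, stepG]
    have : q ^ (j + 1) ≠ 0 := pow_ne_zero _ hq0
    rw [inv_pow, mul_pow u q j]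
    field_simp
    ring

section Main

variable {ι : Type} {r X : ℝ} {q : ℂ} {N : ι → (ℕ → ℂ) → ℝ}

lemma circle_N (hq : ‖q‖ = 1)
    (hscale : ∀ b (c : ℂ) x, Bdd x → N b (fun j => c * x j) = ‖c‖ ^ 2 * N b x)
    (main : ∀ x, InC N X x → ∀ b ζ, ‖ζ‖ = 1 → N b (stepA r q ζ x) ≤ 1)
    {x : ℕ → ℂ} (hx : InC N X x) (b : ι) {u ζ : ℂ} (hu : ‖u‖ = 1) (hζ : ‖ζ‖ = 1) :
    N b (rot u (stepG ((r : ℂ) * ζ) x)) ≤ 1 := by
  have hv : ‖u * q‖ = 1 := by rw [norm_mul, hu, hq, one_mul]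
  have hqi : ‖q⁻¹‖ = 1 := by rw [norm_inv, hq, inv_one]
  have hx' := hx.rot hv
  have hb : Bdd (stepA r q (ζ / (u * q)) (rot (u * q) x)) := bdd_rot (bdd_stepG hx'.bdd _) hqi
  rw [rot_stepG_eq hq hu, hscale b _ _ hb, hv, one_pow, one_mul]
  exact main _ hx' b _ (by rw [norm_div, hζ, hv, div_one])

lemma norm_top_circle (mainX : ∀ x, InC N X x → ‖∑' j : ℕ, (r : ℂ) ^ (j + 1) * x j‖ ≤ X)
    {x : ℕ → ℂ} (hx : InC N X x) {ζ : ℂ} (hζ : ‖ζ‖ = 1) :
    ‖top ((r : ℂ) * ζ) x‖ ≤ X := by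
  have h := mainX _ (hx.rot hζ)
  have e : top ((r : ℂ) * ζ) x = - (ζ * ∑' j : ℕ, (r : ℂ) ^ (j + 1) * rot ζ x j) := by
    unfold top
    rw [← tsum_mul_left]
    congr 1
    apply tsum_congr
    intro j
    rw [rot_apply, mul_pow, pow_succ ζ j]; ring
  rw [e, norm_neg, norm_mul, hζ, one_mul]
  exact h

lemma diff_top {x : ℕ → ℂ} (hx : Bdd x) : DifferentiableOn ℂ (fun w => top w x)
    (Metric.ball (0 : ℂ) 1) := by
  obtain ⟨C, hC⟩ := hx
  intro w hw
  rw [mem_ball_zero_iff] at hw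
  obtain ⟨s, hs1, hs2⟩ := exists_between hw
  have hs0 : 0 ≤ s := (norm_nonneg w).trans hs1.le
  have hC0 : 0 ≤ C := (norm_nonneg _).trans (hC 0)
  have h : DifferentiableOn ℂ (fun w => ∑' j : ℕ, w ^ (j + 1) * x j) (Metric.ball (0 : ℂ) s) := by
    apply Complex.differentiableOn_tsum_of_summable_norm (u := fun j => s ^ j * C)
    · exact (summable_geometric_of_lt_one hs0 hs2).mul_right C
    · intro j; fun_prop
    · exact Metric.isOpen_ball
    · intro j w hw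
      rw [mem_ball_zero_iff] at hw
      rw [norm_mul, norm_pow]
      refine mul_le_mul ?_ (hC j) (norm_nonneg _) (by positivity)
      calc ‖w‖ ^ (j + 1) ≤ s ^ (j + 1) := pow_le_pow_left₀ (norm_nonneg _) hw.le _
        _ ≤ s ^ j := pow_le_pow_of_le_one hs0 hs2.le (by omega)
  have h2 : DifferentiableAt ℂ (fun w => ∑' j : ℕ, w ^ (j + 1) * x j) w :=
    h.differentiableAt (Metric.isOpen_ball.mem_nhds (by rwa [mem_ball_zero_iff]))
  exact h2.neg.differentiableWithinAt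

lemma max_principle {f : ℂ → ℂ} (hr0 : 0 < r) (hr1 : r < 1)
    (hf : DifferentiableOn ℂ f (Metric.ball (0 : ℂ) 1)) {C : ℝ}
    (h : ∀ w, ‖w‖ = r → ‖f w‖ ≤ C) {w : ℂ} (hw : ‖w‖ ≤ r) : ‖f w‖ ≤ C := by
  have hcl : closure (Metric.ball (0 : ℂ) r) = Metric.closedBall 0 r :=
    closure_ball (0 : ℂ) hr0.ne'
  have hd : DiffContOnCl ℂ f (Metric.ball (0 : ℂ) r) := by
    apply DifferentiableOn.diffContOnCl
    rw [hcl]
    exact hf.mono (Metric.closedBall_subset_ball hr1)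
  apply Complex.norm_le_of_forall_mem_frontier_norm_le Metric.isBounded_ball hd
  · intro z hz
    rw [frontier_ball (0 : ℂ) hr0.ne', mem_sphere_zero_iff_norm] at hz
    exact h z hz
  · rw [hcl, mem_closedBall_zero_iff]; exact hw

lemma exists_circle {w : ℂ} (hr0 : 0 < r) (hw : ‖w‖ = r) : ∃ ζ : ℂ, ‖ζ‖ = 1 ∧ w = (r : ℂ) * ζ := by
  have hrc : (r : ℂ) ≠ 0 := by exact_mod_cast hr0.ne'
  refine ⟨w / r, ?_, ?_⟩
  · rw [norm_div, hw, Complex.norm_real, Real.norm_of_nonneg hr0.le, div_self hr0.ne']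
  · field_simp

lemma rot_stepG_update (u w w' : ℂ) (x : ℕ → ℂ) :
    rot u (stepG w x) = Function.update (rot u (stepG w' x)) 0 (top w x) := by
  funext j
  cases j with
  | zero => simp [rot_apply, stepG]
  | succ j => simp [rot_apply, stepG]

lemma disc_N (hr0 : 0 < r) (hr1 : r < 1) (hq : ‖q‖ = 1)
    (hnonneg : ∀ b x, 0 ≤ N b x)
    (hscale : ∀ b (c : ℂ) x, Bdd x → N b (fun j => c * x j) = ‖c‖ ^ 2 * N b x)
    (hquad : ∀ b x, Bdd x → ∃ (α γ : ℝ) (β : ℂ), 0 ≤ γ ∧ ∀ t : ℂ,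
      N b (Function.update x 0 t) = γ * ‖t‖ ^ 2 + 2 * (conj β * t).re + α)
    (main : ∀ x, InC N X x → ∀ b ζ, ‖ζ‖ = 1 → N b (stepA r q ζ x) ≤ 1)
    {x : ℕ → ℂ} (hx : InC N X x) (b : ι) {u w : ℂ} (hu : ‖u‖ = 1) (hw : ‖w‖ ≤ r) :
    N b (rot u (stepG w x)) ≤ 1 := by
  obtain ⟨α, γ, β, hγ, hN⟩ := hquad b (rot u (stepG 0 x)) (bdd_rot (bdd_stepG hx.bdd _) hu)
  have hcirc : ∀ w, ‖w‖ = r → γ * ‖top w x‖ ^ 2 + 2 * (conj β * top w x).re + α ≤ 1 := by
    intro w hw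
    obtain ⟨ζ, hζ, rfl⟩ := exists_circle hr0 hw
    rw [← hN, ← rot_stepG_update]
    exact circle_N hq hscale main hx b hu hζ
  rw [rot_stepG_update u w 0, hN]
  rcases hγ.eq_or_lt with h0 | hpos
  · -- `γ = 0`: then `β = 0`
    subst h0
    have hβ : β = 0 := by
      by_contra hβ
      have hβn : 0 < ‖β‖ ^ 2 := by positivity
      have h1 := hnonneg b (Function.update (rot u (stepG 0 x)) 0
        (-(((α + 1) / ‖β‖ ^ 2 : ℝ) : ℂ) * β))
      rw [hN] at h1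
      have e : (conj β * (-(((α + 1) / ‖β‖ ^ 2 : ℝ) : ℂ) * β)).re = -(α + 1) := by
        have : conj β * (-(((α + 1) / ‖β‖ ^ 2 : ℝ) : ℂ) * β)
          = (-(((α + 1) / ‖β‖ ^ 2 : ℝ) : ℂ)) * (conj β * β) := by ring
        rw [this, Complex.conj_mul']
        have h2 : (-(((α + 1) / ‖β‖ ^ 2 : ℝ) : ℂ)) * (‖β‖ : ℂ) ^ 2
          = ((-(((α + 1) / ‖β‖ ^ 2)) * ‖β‖ ^ 2 : ℝ) : ℂ) := by push_cast; ring
        rw [h2, Complex.ofReal_re]
        field_simp
      rw [e] at h1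
      have h4 := hnonneg b (Function.update (rot u (stepG 0 x)) 0 0)
      rw [hN 0, mul_zero, Complex.zero_re] at h4
      linarith
    subst hβ
    have hc := hcirc (r : ℂ) (by rw [Complex.norm_real, Real.norm_of_nonneg hr0.le])
    simp only [map_zero, zero_mul, Complex.zero_re, mul_zero, zero_add] at hc ⊢
    exact hc
  · -- `γ > 0`
    have key : ∀ t : ℂ, γ * ‖t‖ ^ 2 + 2 * (conj β * t).re + α
        = γ * ‖t + β / γ‖ ^ 2 + (α - ‖β‖ ^ 2 / γ) := by
      intro t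
      have hγc : (γ : ℂ) ≠ 0 := by exact_mod_cast hpos.ne'
      rw [Complex.sq_norm, Complex.sq_norm, Complex.sq_norm, Complex.normSq_apply,
        Complex.normSq_apply, Complex.normSq_apply]
      have e1 : (β / (γ : ℂ)).re = β.re / γ := by
        rw [Complex.div_ofReal_re]
      have e2 : (β / (γ : ℂ)).im = β.im / γ := by
        rw [Complex.div_ofReal_im]
      simp only [Complex.add_re, Complex.add_im, e1, e2, Complex.mul_re, Complex.conj_re,
        Complex.conj_im]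
      field_simp
      ring
    rw [key]
    have hsub : ∀ w, ‖w‖ = r → ‖top w x + β / γ‖ ≤ Real.sqrt ((1 - (α - ‖β‖ ^ 2 / γ)) / γ) := by
      intro w hw
      have h1 := hcirc w hw
      rw [key] at h1
      apply Real.le_sqrt_of_sq_le
      rw [le_div_iff₀ hpos]
      linarith
    have hd : DifferentiableOn ℂ (fun w => top w x + β / γ) (Metric.ball (0 : ℂ) 1) :=
      (diff_top hx.bdd).add_const _
    have h2 := max_principle hr0 hr1 hd hsub hw
    have h3 : 0 ≤ (1 - (α - ‖β‖ ^ 2 / γ)) / γ := by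
      have h1 := hcirc (r : ℂ) (by rw [Complex.norm_real, Real.norm_of_nonneg hr0.le])
      rw [key] at h1
      apply div_nonneg _ hpos.le
      nlinarith [sq_nonneg ‖top (r : ℂ) x + β / γ‖]
    have h4 : ‖top w x + β / γ‖ ^ 2 ≤ (1 - (α - ‖β‖ ^ 2 / γ)) / γ := by
      have := pow_le_pow_left₀ (norm_nonneg _) h2 2
      rwa [Real.sq_sqrt h3] at this
    rw [le_div_iff₀ hpos] at h4
    linarith

lemma InC.stepG (hr0 : 0 < r) (hr1 : r < 1) (hq : ‖q‖ = 1)
    (hnonneg : ∀ b x, 0 ≤ N b x)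
    (hscale : ∀ b (c : ℂ) x, Bdd x → N b (fun j => c * x j) = ‖c‖ ^ 2 * N b x)
    (hquad : ∀ b x, Bdd x → ∃ (α γ : ℝ) (β : ℂ), 0 ≤ γ ∧ ∀ t : ℂ,
      N b (Function.update x 0 t) = γ * ‖t‖ ^ 2 + 2 * (conj β * t).re + α)
    (main : ∀ x, InC N X x → ∀ b ζ, ‖ζ‖ = 1 → N b (stepA r q ζ x) ≤ 1)
    (mainX : ∀ x, InC N X x → ‖∑' j : ℕ, (r : ℂ) ^ (j + 1) * x j‖ ≤ X)
    {x : ℕ → ℂ} (hx : InC N X x) {w : ℂ} (hw : ‖w‖ ≤ r) : InC N X (stepG w x) := by
  refine ⟨fun j => ?_, fun b u hu => ⟨?_, ?_⟩⟩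
  · cases j with
    | zero =>
      show ‖top w x‖ ≤ X
      apply max_principle hr0 hr1 (diff_top hx.bdd) _ hw
      intro w hw
      obtain ⟨ζ, hζ, rfl⟩ := exists_circle hr0 hw
      exact norm_top_circle mainX hx hζ
    | succ j => exact hx.1 j
  · exact disc_N hr0 hr1 hq hnonneg hscale hquad main hx b hu hw
  · rw [cjs_stepG]
    exact disc_N hr0 hr1 hq hnonneg hscale hquad main hx.cjs b hu
      (by rwa [Complex.norm_conj])

/-- the history of a sequence -/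
def hist (a : ℕ → ℂ) (n : ℕ) : ℕ → ℂ := fun j => if j ≤ n then a (n - j) else 0

lemma hist_succ {a : ℕ → ℂ} {n : ℕ} {w : ℂ}
    (h : a (n + 1) = - ∑ j ∈ Finset.range (n + 1), w ^ (j + 1) * a (n - j)) :
    hist a (n + 1) = Pool.Agent.H93.stepG w (hist a n) := by
  funext j
  cases j with
  | zero =>
    show hist a (n + 1) 0 = top w (hist a n)
    unfold top
    rw [tsum_eq_sum (s := Finset.range (n + 1))]
    · simp only [hist, Nat.zero_le, if_true, Nat.sub_zero]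
      rw [h]
      congr 1
      apply Finset.sum_congr rfl
      intro j hj
      rw [if_pos (by rw [Finset.mem_range] at hj; omega)]
    · intro j hj
      rw [Finset.mem_range] at hj
      simp only [hist]
      rw [if_neg (by omega), mul_zero]
  | succ j =>
    show hist a (n + 1) (j + 1) = hist a n j
    simp only [hist, Nat.add_le_add_iff_right, Nat.add_sub_add_right]

lemma stepG_smul (c w : ℂ) (x : ℕ → ℂ) :
    Pool.Agent.H93.stepG w (fun j => c * x j) = fun j => c * Pool.Agent.H93.stepG w x j := by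
  funext j
  cases j with
  | zero =>
    show top w (fun j => c * x j) = c * top w x
    unfold top
    rw [mul_neg, ← tsum_mul_left]
    congr 1
    apply tsum_congr
    intro j; ring
  | succ j => rfl

end Main

/-- Chunk G1 (abstract induction).

Proof sketch.
* `InC` is closed under `rot v` (`|v| = 1`) and `cjs`.
* circle: for `|ζ| = 1`, `|u| = 1` put `v = u q`; then
  `rot u (stepG (r ζ) x) = v • stepA r q (ζ / v) (rot v x)` (entrywise), hence `N b (...) ≤ 1` by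
  `hscale` and `main`; also `‖top (r ζ) x‖ = ‖∑ r^{j+1} (rot ζ x)_j‖ ≤ X` by `mainX`; and
  `cjs (stepG w x) = stepG (conj w) (cjs x)`. So `x ∈ InC`, `|w| = r` imply `stepG w x ∈ InC`.
* disc: only the entry `0` of `rot u (stepG w x)` depends on `w`, it is `top w x`, holomorphic in
  `|w| < 1`. By `hquad` and nonnegativity `{t | N b (..t..) ≤ 1}` is a closed disc `|t + c| ≤ ρ`
  (or everything/nothing if `γ = 0`), so the maximum modulus principle for `top w x + c` extends the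
  inequality from `|w| = r` to `|w| ≤ r`. Same for `‖top w x‖ ≤ X`.
* induction: `x = hist a n`, `x_j = a_{n-j}` for `j ≤ n` and `0` otherwise, satisfies
  `hist a (n+1) = stepG w (hist a n)`; choose `B` with `hist a N / B ∈ InC` by `hbd`. -/
theorem boundedControls_of_main {ι : Type} [Finite ι] {r X : ℝ} {q : ℂ}
    (hr0 : 0 < r) (hr1 : r < 1) (hX : 0 < X) (hq : ‖q‖ = 1)
    (N : ι → (ℕ → ℂ) → ℝ)
    (hnonneg : ∀ b x, 0 ≤ N b x)
    (hbd : ∀ b, ∃ C : ℝ, ∀ (x : ℕ → ℂ) (M : ℝ), (∀ j, ‖x j‖ ≤ M) → N b x ≤ C * M ^ 2)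
    (hscale : ∀ b (c : ℂ) x, Bdd x → N b (fun j => c * x j) = ‖c‖ ^ 2 * N b x)
    (hquad : ∀ b x, Bdd x → ∃ (α γ : ℝ) (β : ℂ), 0 ≤ γ ∧ ∀ t : ℂ,
      N b (Function.update x 0 t) = γ * ‖t‖ ^ 2 + 2 * (conj β * t).re + α)
    (main : ∀ x, InC N X x → ∀ b ζ, ‖ζ‖ = 1 → N b (stepA r q ζ x) ≤ 1)
    (mainX : ∀ x, InC N X x → ‖∑' j : ℕ, (r : ℂ) ^ (j + 1) * x j‖ ≤ X) :
    BoundedControls r := by
  intro a n₀ hctl
  obtain ⟨M, hM0, hM⟩ : ∃ M : ℝ, 0 ≤ M ∧ ∀ n ≤ n₀, ‖a n‖ ≤ M := by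
    refine ⟨∑ n ∈ Finset.range (n₀ + 1), ‖a n‖, Finset.sum_nonneg fun _ _ => norm_nonneg _, ?_⟩
    intro n hn
    exact Finset.single_le_sum (f := fun n => ‖a n‖) (fun _ _ => norm_nonneg _)
      (Finset.mem_range.2 (by omega))
  choose C hC using hbd
  obtain ⟨C', hC'⟩ : ∃ C' : ℝ, ∀ b, C b ≤ C' := by
    obtain ⟨C', h⟩ := (Set.finite_range C).bddAbove
    exact ⟨C', fun b => h ⟨b, rfl⟩⟩
  -- scaling factor
  obtain ⟨B, hB0, hB1, hB2⟩ : ∃ B : ℝ, 0 < B ∧ M / B ≤ X ∧ |C'| * (M / B) ^ 2 ≤ 1 := by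
    refine ⟨(M + 1) / X + (|C'| + 1) * (M + 1), by positivity, ?_, ?_⟩
    · rw [div_le_iff₀ (by positivity)]
      have : X * ((M + 1) / X) = M + 1 := by field_simp
      have h2 : 0 ≤ X * ((|C'| + 1) * (M + 1)) := by positivity
      nlinarith
    · have hB : (|C'| + 1) * (M + 1) ≤ (M + 1) / X + (|C'| + 1) * (M + 1) := by
        have : 0 ≤ (M + 1) / X := by positivity
        linarith
      have h1 : M / ((M + 1) / X + (|C'| + 1) * (M + 1)) ≤ 1 / (|C'| + 1) := by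
        rw [div_le_div_iff₀ (by positivity) (by positivity)]
        nlinarith [abs_nonneg C']
      have h2 : (M / ((M + 1) / X + (|C'| + 1) * (M + 1))) ^ 2 ≤ (1 / (|C'| + 1)) ^ 2 :=
        pow_le_pow_left₀ (by positivity) h1 2
      calc |C'| * (M / ((M + 1) / X + (|C'| + 1) * (M + 1))) ^ 2
          ≤ |C'| * (1 / (|C'| + 1)) ^ 2 := mul_le_mul_of_nonneg_left h2 (abs_nonneg _)
        _ ≤ 1 := by
          rw [div_pow, one_pow, mul_one_div, div_le_one (by positivity)]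
          nlinarith [abs_nonneg C']
  have hBc : ‖((B⁻¹ : ℝ) : ℂ)‖ = B⁻¹ := by
    rw [Complex.norm_real, Real.norm_of_nonneg (by positivity)]
  have hInit : InC N X (fun j => ((B⁻¹ : ℝ) : ℂ) * hist a n₀ j) := by
    have hent : ∀ j, ‖((B⁻¹ : ℝ) : ℂ) * hist a n₀ j‖ ≤ M / B := by
      intro j
      rw [norm_mul, hBc, div_eq_inv_mul]
      apply mul_le_mul_of_nonneg_left _ (by positivity)
      unfold hist
      split_ifs with hj
      · exact hM _ (Nat.sub_le _ _)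
      · rw [norm_zero]; exact hM0
    have hN1 : ∀ b (y : ℕ → ℂ), (∀ j, ‖y j‖ ≤ M / B) → N b y ≤ 1 := by
      intro b y hy
      refine (hC b y _ hy).trans (le_trans ?_ hB2)
      apply mul_le_mul_of_nonneg_right _ (by positivity)
      exact (hC' b).trans (le_abs_self _)
    refine ⟨fun j => (hent j).trans hB1, fun b u hu => ⟨?_, ?_⟩⟩
    · apply hN1
      intro j; rw [norm_rot hu]; exact hent j
    · apply hN1
      intro j; rw [norm_rot hu, norm_cjs]; exact hent j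
  have hall : ∀ n, n₀ ≤ n → InC N X (fun j => ((B⁻¹ : ℝ) : ℂ) * hist a n j) := by
    intro n hn
    induction n, hn using Nat.le_induction with
    | base => exact hInit
    | succ n hn ih =>
      obtain ⟨w, hw, hrec⟩ := hctl n hn
      rw [hist_succ hrec, ← stepG_smul]
      exact ih.stepG hr0 hr1 hq hnonneg hscale hquad main mainX hw
  refine ⟨max M (B * X), fun n => ?_⟩
  rcases le_total n n₀ with h | h
  · exact (hM n h).trans (le_max_left _ _)
  · have h1 := (hall n h).1 0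
    simp only [hist, Nat.zero_le, if_true, Nat.sub_zero] at h1
    rw [norm_mul, hBc, inv_mul_le_iff₀ hB0] at h1
    exact h1.trans (le_max_right _ _)

end Pool.Agent.H93
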