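import Pool.Agent.Lib.H93.Critical
import Pool.Agent.Lib.H93.Seq
import Pool.Agent.Lib.H93.Data

/-!
The critical data, the exact functional `s`, and the five forms.
-/

namespace Pool.Agent.H93

open Filter Topology ComplexConjugate

/-- the critical point data (exists by `exists_critical`). -/
structure Crit where
  r : ℝ
  q : ℂ
  ω : ℂ
  hq : ‖q‖ = 1
  hω : ‖ω‖ = 1
  hre : |r - rHat| ≤ 1e-18
  hqe : ‖q - qHat‖ ≤ 1e-18
  hωe : ‖ω - omHat‖ ≤ 1e-18
  eig : ∑' j : ℕ, (r : ℂ) ^ (j + 1) * xst q ω j = -ω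
  stat : ((∑' j : ℕ, ((j : ℂ) + 1) ^ 2 * (r : ℂ) ^ (j + 1) * xst q ω j) /
      (∑' j : ℕ, ((j : ℂ) + 1) * (r : ℂ) ^ (j + 1) * xst q ω j)).im = 0

theorem exists_crit : Nonempty Crit := by
  obtain ⟨r, q, ω, h1, h2, h3, h4, h5, h6, h7⟩ := exists_critical
  exact ⟨⟨r, q, ω, h1, h2, h3, h4, h5, h6, h7⟩⟩

namespace Crit

variable (K : Crit)

/-- the extremal orbit `x*` -/
noncomputable def xs (j : ℕ) : ℂ := xst K.q K.ω j

/-- `g = ∑ (j+1) r^{j+1} x*_j` -/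
noncomputable def g : ℂ := ∑' j : ℕ, ((j : ℂ) + 1) * (K.r : ℂ) ^ (j + 1) * K.xs j

/-- `g2 = ∑ (j+1)^2 r^{j+1} x*_j` -/
noncomputable def g2 : ℂ := ∑' j : ℕ, ((j : ℂ) + 1) ^ 2 * (K.r : ℂ) ^ (j + 1) * K.xs j

/-- tails `τ_j = ∑_{k ≥ j} r^{k+1} x*_k` -/
noncomputable def tau (j : ℕ) : ℂ := ∑' k : ℕ, (K.r : ℂ) ^ (j + k + 1) * K.xs (j + k)

/-- coefficients of the left eigenfunctional: `c_j = τ_j conj(x*_j) / g` -/
noncomputable def cc (j : ℕ) : ℂ := K.tau j * conj (K.xs j) / K.g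

/-- the left eigenfunctional -/
noncomputable def s (x : ℕ → ℂ) : ℂ := ∑' j : ℕ, K.cc j * x j

/-- the component of `x` transversal to `x*` -/
noncomputable def y (x : ℕ → ℂ) (j : ℕ) : ℂ := x j - K.s x * K.xs j

/-- the linear functionals whose squares sum up to the form `b` (`b = 0` exact form,
`b = 1, 2, 3, 4` the general forms in the first 16 coordinates). -/
noncomputable def lam (b : ℕ) (x : ℕ → ℂ) (k : ℕ) : ℂ :=
  if b = 0 then
    if k = 0 then K.s x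
    else if k < 16 then ∑ i ∈ Finset.range 15, LR (k - 1) i * K.y x (i + 1)
    else (ek k : ℂ) * K.y x k
  else
    if k < 16 then ∑ i ∈ Finset.range 16, LB b k i * x i else 0

/-- the five forms -/
noncomputable def N (b : Fin 5) (x : ℕ → ℂ) : ℝ := ∑' k : ℕ, ‖K.lam b x k‖ ^ 2

/-- one step in the rotating frame -/
noncomputable def A (ζ : ℂ) (x : ℕ → ℂ) : ℕ → ℂ := stepA K.r K.q ζ x

/-- the Lyapunov class -/
def C (x : ℕ → ℂ) : Prop := InC K.N XX x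

end Crit

end Pool.Agent.H93
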