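import Pool.Agent.Lib.H93.GramCodes
import Pool.Agent.Lib.H93.Tables

/-!
MP_fb0703_an, chunk E: the codes of `GramCodes.lean` are the codes of the tables `gmZ`.
-/

namespace Pool.Agent.H93.Lmi

open GaussianInt

attribute [local irreducible] T NN

/-- pair to Gaussian integer -/
def gi (z : ℤ × ℤ) : GaussianInt := ⟨z.1, z.2⟩

theorem gi_zero : gi (0, 0) = 0 := rfl

/-- entry of the Gram table -/
def gmG (b i d : ℕ) : GaussianInt := gi (gmZ b i d)

/-- entry of the table of `q^{-j}` -/
def tQ (j : ℕ) : GaussianInt := gi (tabQ.getD j 0)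

noncomputable def chk1 (f : ℤ × ℤ → ℕ) (cs : List ℕ) : List (ℤ × ℤ) → Bool :=
  List.rec (fun zs => List.rec true (fun _ _ _ => false) zs)
    (fun c _ ih zs => List.rec false
      (fun z zs _ => and (Nat.beq (Nat.mod (f z) NN) c) (ih zs)) zs) cs

noncomputable def chk2 (f : ℤ × ℤ → ℕ) (cs : List (List ℕ)) : List (List (ℤ × ℤ)) → Bool :=
  List.rec (fun zs => List.rec true (fun _ _ _ => false) zs)
    (fun c _ ih zs => List.rec false
      (fun z zs _ => and (chk1 f c z) (ih zs)) zs) cs

theorem chk1_spec {f : ℤ × ℤ → ℕ} {g : ℤ × ℤ → GaussianInt} (hf : ∀ z, Rp (f z) (g z))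
    (hg : g (0, 0) = 0) (cs : List ℕ) : ∀ zs : List (ℤ × ℤ), chk1 f cs zs = true →
      Rp1 cs (fun k => g (zs.getD k (0, 0))) := by
  induction cs with
  | nil =>
    intro zs h k
    cases zs with
    | nil => simpa [hg] using Rp.zero
    | cons z zs => exact absurd h (by simp [chk1])
  | cons c cs ih =>
    intro zs h k
    cases zs with
    | nil => exact absurd h (by simp [chk1])
    | cons z zs =>
      have h' : and (Nat.beq (f z % NN) c) (chk1 f cs zs) = true := h
      rw [Bool.and_eq_true] at h'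
      cases k with
      | zero =>
        rw [List.getD_cons_zero]
        simp only [List.getD_cons_zero]
        rw [← Nat.eq_of_beq_eq_true h'.1]
        exact (hf z).mod
      | succ k =>
        rw [List.getD_cons_succ]
        simp only [List.getD_cons_succ]
        exact ih zs h'.2 k

theorem chk2_spec {f : ℤ × ℤ → ℕ} {g : ℤ × ℤ → GaussianInt} (hf : ∀ z, Rp (f z) (g z))
    (hg : g (0, 0) = 0) (cs : List (List ℕ)) : ∀ zs : List (List (ℤ × ℤ)), chk2 f cs zs = true →
      Rp2 cs (fun i k => g ((zs.getD i []).getD k (0, 0))) := by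
  induction cs with
  | nil =>
    intro zs h i k
    cases zs with
    | nil => simpa [hg] using Rp.zero
    | cons z zs => exact absurd h (by simp [chk2])
  | cons c cs ih =>
    intro zs h i
    cases zs with
    | nil => exact absurd h (by simp [chk2])
    | cons z zs =>
      have h' : and (chk1 f c z) (chk2 f cs zs) = true := h
      rw [Bool.and_eq_true] at h'
      cases i with
      | zero => simpa using chk1_spec hf hg c z h'.1
      | succ i => simpa using ih zs h'.2 i

/-- the codes of the Gram matrix `b` -/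
noncomputable def cM (b : ℕ) : List (List ℕ) :=
  Nat.casesOn b cM0 fun b => Nat.casesOn b cM1 fun b => Nat.casesOn b cM2 fun b =>
    Nat.casesOn b cM3 fun _ => cM4

noncomputable def cC (b : ℕ) : List (List ℕ) :=
  Nat.casesOn b cC0 fun b => Nat.casesOn b cC1 fun b => Nat.casesOn b cC2 fun b =>
    Nat.casesOn b cC3 fun _ => cC4

noncomputable def cV (b : ℕ) : List ℕ :=
  Nat.casesOn b cV0 fun b => Nat.casesOn b cV1 fun b => Nat.casesOn b cV2 fun b =>
    Nat.casesOn b cV3 fun _ => cV4

noncomputable def cW (b : ℕ) : List ℕ :=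
  Nat.casesOn b cW0 fun b => Nat.casesOn b cW1 fun b => Nat.casesOn b cW2 fun b =>
    Nat.casesOn b cW3 fun _ => cW4

theorem cM_chk : ∀ b < 5, chk2 cpair (cM b) (gmT b) = true := by decide +kernel

theorem cC_chk : ∀ b < 5, chk2 cpairc (cC b) (gmT b) = true := by decide +kernel

theorem cM_spec {b : ℕ} (hb : b < 5) : Rp2 (cM b) (gmG b) :=
  chk2_spec (g := gi) cpair_spec gi_zero _ _ (cM_chk b hb)

theorem cC_spec {b : ℕ} (hb : b < 5) : Rp2 (cC b) (fun i d => star (gmG b i d)) := by
  have h := chk2_spec (g := fun z => star (gi z)) (f := cpairc)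
    (by
      intro z
      have := cpairc_spec z
      have e : star (gi z) = ⟨z.1, -z.2⟩ := by apply Zsqrtd.ext <;> simp [gi]
      rw [e]; exact this)
    (by rw [gi_zero, star_zero]) _ _ (cC_chk b hb)
  exact h

theorem cV_chk : ∀ b < 5, ∀ j < 40,
    (cV b).getD j 0 = Nat.mod (Nat.mul (cpairc (gmZ b (j + 1) (j + 1)))
      (cpair (tabQ.getD (j + 1) 0))) NN := by decide +kernel

theorem cW_chk : ∀ b < 5, ∀ j < 40,
    (cW b).getD j 0 = Nat.mod (Nat.mul NN1 (Nat.mul (cpair (gmZ b (j + 1) (j + 1)))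
      (cpairc (tabQ.getD (j + 1) 0)))) NN := by decide +kernel

theorem cNQ_chk : ∀ j < 41,
    cNQ.getD j 0 = Nat.mod (Nat.mul (Nat.mul NN1 1152921504606846976)
      (cpairc (tabQ.getD j 0))) NN := by decide +kernel

theorem Rp.NN1 : Rp Lmi.NN1 (-1) := by
  refine Rp.of_int 1 ?_
  rw [NN1_eq]
  simp
  ring

theorem gi_cpairc (z : ℤ × ℤ) : Rp (cpairc z) (star (gi z)) := by
  have := cpairc_spec z
  have e : star (gi z) = ⟨z.1, -z.2⟩ := by apply Zsqrtd.ext <;> simp [gi]
  rw [e]; exact this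

theorem cV_spec {b : ℕ} (hb : b < 5) {j : ℕ} (hj : j < 40) :
    Rp ((cV b).getD j 0) (star (gmG b (j + 1) (j + 1)) * tQ (j + 1)) := by
  rw [cV_chk b hb j hj]
  exact ((gi_cpairc _).mul (cpair_spec _)).mod

theorem cW_spec {b : ℕ} (hb : b < 5) {j : ℕ} (hj : j < 40) :
    Rp ((cW b).getD j 0) (-1 * (gmG b (j + 1) (j + 1) * star (tQ (j + 1)))) := by
  rw [cW_chk b hb j hj]
  exact (Rp.NN1.mul ((cpair_spec _).mul (gi_cpairc _))).mod

theorem cNQ_spec {j : ℕ} (hj : j < 41) :
    Rp (cNQ.getD j 0) (-1 * ((1152921504606846976 : ℕ) : GaussianInt) * star (tQ j)) := by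
  rw [cNQ_chk j hj]
  exact ((Rp.NN1.mul (Rp.nat _)).mul (gi_cpairc _)).mod

end Pool.Agent.H93.Lmi
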