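import Pool.Agent.Lib.H93.Quad
import Pool.Agent.Lib.H93.GramData

/-!
MP_fb0703_an, chunk E: the Gram tables of the nodes 1..4 are exact, and a bound for all entries.
-/

namespace Pool.Agent.H93

open Filter Topology ComplexConjugate

/-- real part of `conj x * y` -/
def gxr (x y : ℤ × ℤ) : ℤ := x.1 * y.1 + x.2 * y.2

/-- imaginary part of `conj x * y` -/
def gxi (x y : ℤ × ℤ) : ℤ := x.1 * y.2 - x.2 * y.1

/-- integer Gram entry `(i, j)`, real part, rows `k < n` -/
def gre (D : List (List (ℤ × ℤ))) (i j : ℕ) : ℕ → ℤ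
  | 0 => 0
  | n + 1 => gre D i j n + gxr (getZ D n i) (getZ D n j)

/-- integer Gram entry `(i, j)`, imaginary part, rows `k < n` -/
def gim (D : List (List (ℤ × ℤ))) (i j : ℕ) : ℕ → ℤ
  | 0 => 0
  | n + 1 => gim D i j n + gxi (getZ D n i) (getZ D n j)

theorem conj_mul_toC40 (x y : ℤ × ℤ) :
    conj (toC40 x) * toC40 y = toC80 (gxr x y, gxi x y) := by
  apply Complex.ext
  · simp only [Complex.mul_re, Complex.conj_re, Complex.conj_im, toC40, toC80, gxr]
    push_cast
    ring
  · simp only [Complex.mul_im, Complex.conj_re, Complex.conj_im, toC40, toC80, gxi]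
    push_cast
    ring

theorem toC80_add (x y : ℤ × ℤ) : toC80 x + toC80 y = toC80 (x.1 + y.1, x.2 + y.2) := by
  apply Complex.ext
  · simp only [Complex.add_re, toC80]
    push_cast
    ring
  · simp only [Complex.add_im, toC80]
    push_cast
    ring

theorem toC80_zero : toC80 (0, 0) = 0 := by
  apply Complex.ext <;> simp [toC80]

theorem sum_conj_toC40 (D : List (List (ℤ × ℤ))) (i j n : ℕ) :
    ∑ k ∈ Finset.range n, conj (toC40 (getZ D k i)) * toC40 (getZ D k j) =
      toC80 (gre D i j n, gim D i j n) := by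
  induction n with
  | zero => simp [gre, gim, toC80_zero]
  | succ n ih =>
    rw [Finset.sum_range_succ, ih, conj_mul_toC40, toC80_add]
    rfl

/-- kernel check of the four tables -/
theorem gram_chk : ∀ b < 4, ∀ i < 16, ∀ d < 16, d ≤ i →
    (gmZ (b + 1) i d).1 = gre (dataB.getD b []) i (i - d) 16 ∧
    (gmZ (b + 1) i d).2 = gim (dataB.getD b []) i (i - d) 16 := by decide +kernel

theorem gram_out : ∀ b < 4, (gmT (b + 1)).length = 16 := by decide +kernel

theorem gmZ_out {b : ℕ} (hb1 : 1 ≤ b) (hb : b < 5) {i : ℕ} (hi : 16 ≤ i) (d : ℕ) :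
    gmZ b i d = (0, 0) := by
  obtain ⟨c, rfl⟩ : ∃ c, b = c + 1 := ⟨b - 1, by omega⟩
  have h := gram_out c (by omega)
  unfold gmZ getZ
  rw [List.getD_eq_default (l := gmT (c + 1)) (d := []) (hn := by omega)]
  simp

variable (K : Crit)

/-- (G1) nodes 1..4: exact -/
theorem gm_exact {b : ℕ} (hb1 : 1 ≤ b) (hb : b < 5) {i d : ℕ} (hi : i < 40) (hd : d ≤ i) :
    K.GM b i d = toC80 (gmZ b i d) := by
  unfold Crit.GM
  have hb0 : b ≠ 0 := by omega
  by_cases h16 : i < 16
  · have h1 : ∑ k ∈ Finset.range 40, conj (K.lamc b k i) * K.lamc b k (i - d) =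
        ∑ k ∈ Finset.range 16, conj (K.lamc b k i) * K.lamc b k (i - d) := by
      symm
      apply Finset.sum_subset
      · intro k hk
        have := Finset.mem_range.1 hk
        exact Finset.mem_range.2 (by omega)
      · intro k _ hk
        have hk' : ¬ k < 16 := fun h => hk (Finset.mem_range.2 h)
        simp [Crit.lamc, hb0, hk']
    have h2 : ∑ k ∈ Finset.range 16, conj (K.lamc b k i) * K.lamc b k (i - d) =
        ∑ k ∈ Finset.range 16, conj (toC40 (getZ (dataB.getD (b - 1) []) k i)) *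
          toC40 (getZ (dataB.getD (b - 1) []) k (i - d)) := by
      apply Finset.sum_congr rfl
      intro k hk
      have hk' := Finset.mem_range.1 hk
      have hj : i - d < 16 := by omega
      simp [Crit.lamc, hb0, hk', h16, hj, LB]
    rw [h1, h2, sum_conj_toC40]
    obtain ⟨c, rfl⟩ : ∃ c, b = c + 1 := ⟨b - 1, by omega⟩
    have h := gram_chk c (by omega) i h16 d (by omega) hd
    rw [Nat.add_sub_cancel, ← h.1, ← h.2]
  · rw [gmZ_out hb1 hb (by omega) d, toC80_zero]
    apply Finset.sum_eq_zero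
    intro k _
    simp [Crit.lamc, hb0, h16]

/-- bound for one row -/
def rowOK (l : List (ℤ × ℤ)) : Bool :=
  l.all fun z => (z.1.natAbs ≤ 2 ^ 79) && (z.2.natAbs ≤ 2 ^ 79)

theorem gram_bd : ∀ b < 5, (gmT b).all rowOK = true := by decide +kernel

theorem getD_ok {α : Type} {p : α → Bool} {d : α} (hd : p d = true) (l : List α)
    (hl : l.all p = true) (k : ℕ) : p (l.getD k d) = true := by
  by_cases h : k < l.length
  · rw [List.getD_eq_getElem _ _ h]
    exact List.all_eq_true.1 hl _ (List.getElem_mem h)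
  · rw [List.getD_eq_default _ _ (by omega)]
    exact hd

theorem gmZ_bound (b i d : ℕ) : |(gmZ b i d).1| ≤ 2 ^ 79 ∧ |(gmZ b i d).2| ≤ 2 ^ 79 := by
  have h1 : (gmT b).all rowOK = true := by
    by_cases hb : b < 5
    · exact gram_bd b hb
    · obtain ⟨c, rfl⟩ : ∃ c, b = c + 5 := ⟨b - 5, by omega⟩
      rfl
  have h2 : rowOK ((gmT b).getD i []) = true := getD_ok (by rfl) _ h1 i
  have h3 := getD_ok (p := fun z : ℤ × ℤ => (z.1.natAbs ≤ 2 ^ 79) && (z.2.natAbs ≤ 2 ^ 79))
    (d := (0, 0)) (by decide) _ h2 d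
  have h4 : (gmZ b i d).1.natAbs ≤ 2 ^ 79 ∧ (gmZ b i d).2.natAbs ≤ 2 ^ 79 := by
    simpa [gmZ, getZ, Bool.and_eq_true] using h3
  constructor
  · have := h4.1
    rw [Int.abs_eq_natAbs]
    exact_mod_cast this
  · have := h4.2
    rw [Int.abs_eq_natAbs]
    exact_mod_cast this

end Pool.Agent.H93
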