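import Pool.Agent.Lib.H93.NumR
import Pool.Agent.Lib.H93.Tables

/-!
The transversal norm of `x*` (kernel evaluation).
-/

namespace Pool.Agent.H93.NumR

open ComplexConjugate

/-- real part of the `k`-th functional at the tabulated `x*`, scale `2^100` -/
def aRe (k : ℕ) : ℤ :=
  sumZ (fun i => (getZ dataR k i).1 * (tabX.getD (i + 1) 0).1
    - (getZ dataR k i).2 * (tabX.getD (i + 1) 0).2) 15

/-- imaginary part -/
def aIm (k : ℕ) : ℤ :=
  sumZ (fun i => (getZ dataR k i).1 * (tabX.getD (i + 1) 0).2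
    + (getZ dataR k i).2 * (tabX.getD (i + 1) 0).1) 15

theorem chkX : sumZ (fun k => aRe k * aRe k + aIm k * aIm k) 15 * 10000 ≤
    3107 * 1606938044258990275541962092341162602522202993782792835301376 := by
  decide +kernel

theorem chkLR : ∀ k < 15, ∀ i < 15,
    (getZ dataR k i).1 ≤ 549755813888 ∧ -549755813888 ≤ (getZ dataR k i).1 ∧
    (getZ dataR k i).2 ≤ 549755813888 ∧ -549755813888 ≤ (getZ dataR k i).2 := by
  decide +kernel

theorem norm_LR_le {k i : ℕ} (hk : k < 15) (hi : i < 15) : ‖LR k i‖ ≤ 1 := by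
  obtain ⟨h1, h2, h3, h4⟩ := chkLR k hk i hi
  have h1' : ((getZ dataR k i).1 : ℝ) ≤ 549755813888 := by exact_mod_cast h1
  have h2' : (-549755813888 : ℝ) ≤ ((getZ dataR k i).1 : ℝ) := by exact_mod_cast h2
  have h3' : ((getZ dataR k i).2 : ℝ) ≤ 549755813888 := by exact_mod_cast h3
  have h4' : (-549755813888 : ℝ) ≤ ((getZ dataR k i).2 : ℝ) := by exact_mod_cast h4
  have a1 : |(LR k i).re| ≤ 1 / 2 := by
    show |((getZ dataR k i).1 : ℝ) / 2 ^ 40| ≤ 1 / 2
    rw [abs_le]
    constructor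
    · rw [le_div_iff₀ (by norm_num)]; norm_num; linarith
    · rw [div_le_iff₀ (by norm_num)]; norm_num; linarith
  have a2 : |(LR k i).im| ≤ 1 / 2 := by
    show |((getZ dataR k i).2 : ℝ) / 2 ^ 40| ≤ 1 / 2
    rw [abs_le]
    constructor
    · rw [le_div_iff₀ (by norm_num)]; norm_num; linarith
    · rw [div_le_iff₀ (by norm_num)]; norm_num; linarith
  have := Complex.norm_le_abs_re_add_abs_im (LR k i)
  linarith

/-- the tabulated functional -/
noncomputable def fX (k : ℕ) : ℂ := ∑ i ∈ Finset.range 15, LR k i * toC60 (tabX.getD (i + 1) 0)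

theorem fX_eq (k : ℕ) : fX k = ⟨(aRe k : ℝ) / 2 ^ 100, (aIm k : ℝ) / 2 ^ 100⟩ := by
  apply Complex.ext
  · unfold fX aRe
    rw [Complex.re_sum, sumZ_cast, Finset.sum_div]
    dsimp only
    apply Finset.sum_congr rfl
    intro i _
    simp only [LR, toC40, toC60, Complex.mul_re]
    push_cast
    ring
  · unfold fX aIm
    rw [Complex.im_sum, sumZ_cast, Finset.sum_div]
    dsimp only
    apply Finset.sum_congr rfl
    intro i _
    simp only [LR, toC40, toC60, Complex.mul_im]
    push_cast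
    ring

theorem sum_fX : ∑ k ∈ Finset.range 15, ‖fX k‖ ^ 2 ≤ 0.3107 := by
  have h : ((sumZ (fun k => aRe k * aRe k + aIm k * aIm k) 15 : ℤ) : ℝ) * 10000 ≤
    3107 * 1606938044258990275541962092341162602522202993782792835301376 := by
    exact_mod_cast chkX
  have e : ∑ k ∈ Finset.range 15, ‖fX k‖ ^ 2
      = ((sumZ (fun k => aRe k * aRe k + aIm k * aIm k) 15 : ℤ) : ℝ) / 2 ^ 200 := by
    rw [sumZ_cast, Finset.sum_div]
    apply Finset.sum_congr rfl
    intro k _
    rw [fX_eq, Complex.sq_norm, Complex.normSq_mk]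
    push_cast
    ring
  rw [e, div_le_iff₀ (by norm_num)]
  have : (0.3107 : ℝ) * 2 ^ 200
      = 3107 * 1606938044258990275541962092341162602522202993782792835301376 / 10000 := by
    norm_num
  rw [this]
  linarith

theorem fX_err (K : Crit) {k : ℕ} (hk : k < 15) :
    ‖(∑ i ∈ Finset.range 15, LR k i * K.xs (i + 1)) - fX k‖ ≤ 15 * 1e-14 := by
  unfold fX
  rw [← Finset.sum_sub_distrib]
  refine (norm_sum_le _ _).trans ?_
  have h : ∀ i ∈ Finset.range 15,
      ‖LR k i * K.xs (i + 1) - LR k i * toC60 (tabX.getD (i + 1) 0)‖ ≤ 1e-14 := by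
    intro i hi
    rw [Finset.mem_range] at hi
    rw [← mul_sub, norm_mul]
    calc ‖LR k i‖ * ‖K.xs (i + 1) - toC60 (tabX.getD (i + 1) 0)‖ ≤ 1 * 1e-14 :=
          mul_le_mul (norm_LR_le hk hi) (K.tabX_spec (i + 1) (by omega)) (norm_nonneg _)
            (by norm_num)
      _ = _ := one_mul _
  refine (Finset.sum_le_sum h).trans ?_
  rw [Finset.sum_const, Finset.card_range, nsmul_eq_mul]
  norm_num

end Pool.Agent.H93.NumR
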