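import Pool.Agent.Lib.H93.Quad
import Pool.Agent.Lib.H93.GramData
import Pool.Agent.Lib.H93.NumRRT

/-!
MP_fb0703_an, chunk E: the Gram table of the node 0 (theorem `gm_zero`).
-/

namespace Pool.Agent.H93

open Filter Topology ComplexConjugate

namespace GZ

open NumR

/-- `y_j` at scale `2^80` -/
def yL : List (ℤ × ℤ) :=
  [(0, 0), (195045713938084414410506, -100327479088140730478472),
  (73446066289098433131207, 33151721883726672675284),
  (57220725858326840802858, -2447329681998056963159),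
  (14515504257247118004485, -43243484444220829985857),
  (27028940295495208714312, -2098940963376046819869),
  (20518941952844511002357, -2057975289629730275176),
  (35800920975938236497, -951685971412675492593),
  (9376256498962918278917, -3084800521796805233478),
  (2862117990902122462354, -4561280073860126790165),
  (1823356738498968483734, 1082161313018306611869),
  (1666285686615907251139, -1554141376078458724010),
  (387473715711351146764, -1140670560465122084499),
  (1086577459735846597421, 355325730646628304729),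
  (330376695233552704206, -120250854415978006610),
  (101992507958230219679, 191786837118426546789), (-1602664288509830830, -11696628773674561331),
  (-2643827456994652476, -5145408841014113755), (2834491010408099778, -24911859481540666),
  (-422918957698012893, -1323001672155794034), (131419189273324799, -667778739337700800),
  (22803698633209927, 332707347076101508), (145456799179585492, 74463722603170531),
  (-19674540703278667, 77615649449800434), (28891354488276526, -26545002268368897),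
  (11491377291432689, -15412513909148515), (2899032313137287, 8963031422124524),
  (4132007035704360, -2057442305226977), (2219721952589422, 434208871487414),
  (-1104565830435731, -90634377227941), (-379944800456434, 388010360708232),
  (-203273257255354, -171720400164147), (17995383236616, 129140025092605),
  (11063188817529, 62924884798289), (-25931180608237, -17539855514684),
  (-8623485688895, 12686644160315), (-7411781809694, 1250891228099),
  (3653445387222, -466694714567), (1186507710186, -1359877978845), (619009520729, 631545247308)]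

/-- `(ek j)^2`, `j = 16..39` at scale `2^80` -/
def e2L : List ℤ :=
  [11805916207174113034, 5784898941515315387, 2834600481342504540, 1388954235857827224,
  680587575570335340, 333487912029464317, 163409076894437515, 80070447678274382,
  39234519362354447, 19224914487553679, 9420208098901303, 4615901968461638, 2261791964546203,
  1108278062627639, 543056250687543, 266097562836896, 130387805790079, 63890024837139,
  31306112170198, 15339994963397, 7516597532065, 3683132790712, 1804735067449, 884320183050]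

/-- sum of the `(ek j)^2` -/
def eL : ℤ := 23148854458543575176

/-- the constant -/
def c0L : ℤ := 1584311597277851720059844

/-! ### Gaussian integers -/

/-- scale `2^s` -/
noncomputable def zc (s : ℕ) (z : ℤ × ℤ) : ℂ := ⟨(z.1 : ℝ) / 2 ^ s, (z.2 : ℝ) / 2 ^ s⟩

/-- product -/
def zmul (x y : ℤ × ℤ) : ℤ × ℤ := (x.1 * y.1 - x.2 * y.2, x.1 * y.2 + x.2 * y.1)

/-- sum -/
def zadd (x y : ℤ × ℤ) : ℤ × ℤ := (x.1 + y.1, x.2 + y.2)

/-- difference -/
def zsub (x y : ℤ × ℤ) : ℤ × ℤ := (x.1 - y.1, x.2 - y.2)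

/-- multiple -/
def zsm (m : ℤ) (x : ℤ × ℤ) : ℤ × ℤ := (m * x.1, m * x.2)

/-- conjugate -/
def zcj (x : ℤ × ℤ) : ℤ × ℤ := (x.1, -x.2)

/-- smallness -/
def zle (e : ℤ × ℤ) (d : ℕ) : Bool := Nat.ble e.1.natAbs d && Nat.ble e.2.natAbs d

theorem zc_zmul (s s' : ℕ) (x y : ℤ × ℤ) : zc (s + s') (zmul x y) = zc s x * zc s' y := by
  apply Complex.ext
  · simp only [zc, zmul, Complex.mul_re]
    push_cast
    rw [pow_add]
    field_simp
  · simp only [zc, zmul, Complex.mul_im]
    push_cast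
    rw [pow_add]
    field_simp

theorem zc_zadd (s : ℕ) (x y : ℤ × ℤ) : zc s (zadd x y) = zc s x + zc s y := by
  apply Complex.ext
  · simp only [zc, zadd, Complex.add_re]
    push_cast
    ring
  · simp only [zc, zadd, Complex.add_im]
    push_cast
    ring

theorem zc_zsub (s : ℕ) (x y : ℤ × ℤ) : zc s (zsub x y) = zc s x - zc s y := by
  apply Complex.ext
  · simp only [zc, zsub, Complex.sub_re]
    push_cast
    ring
  · simp only [zc, zsub, Complex.sub_im]
    push_cast
    ring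

theorem zc_zcj (s : ℕ) (x : ℤ × ℤ) : zc s (zcj x) = conj (zc s x) := by
  apply Complex.ext
  · simp only [zc, zcj, Complex.conj_re]
  · simp only [zc, zcj, Complex.conj_im]
    push_cast
    ring

theorem zc_shift (s d : ℕ) (x : ℤ × ℤ) : zc (s + d) (zsm (2 ^ d) x) = zc s x := by
  apply Complex.ext
  · simp only [zc, zsm]
    push_cast
    rw [pow_add]
    field_simp
  · simp only [zc, zsm]
    push_cast
    rw [pow_add]
    field_simp

theorem zc_zsm (s s' : ℕ) (m : ℤ) (x : ℤ × ℤ) :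
    zc (s + s') (zsm m x) = ((m : ℝ) / 2 ^ s' : ℝ) * zc s x := by
  apply Complex.ext
  · simp only [zc, zsm, Complex.re_ofReal_mul]
    push_cast
    rw [pow_add]
    field_simp
  · simp only [zc, zsm, Complex.im_ofReal_mul]
    push_cast
    rw [pow_add]
    field_simp

theorem zle_spec {e : ℤ × ℤ} {d : ℕ} (h : zle e d = true) (s : ℕ) :
    ‖zc s e‖ ≤ 2 * (d : ℝ) / 2 ^ s := by
  unfold zle at h
  rw [Bool.and_eq_true] at h
  have h1 := Nat.le_of_ble_eq_true h.1
  have h2 := Nat.le_of_ble_eq_true h.2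
  have h1' : |(e.1 : ℝ)| ≤ (d : ℝ) := by
    have : |e.1| ≤ (d : ℤ) := by
      rw [Int.abs_eq_natAbs]
      exact_mod_cast h1
    exact_mod_cast this
  have h2' : |(e.2 : ℝ)| ≤ (d : ℝ) := by
    have : |e.2| ≤ (d : ℤ) := by
      rw [Int.abs_eq_natAbs]
      exact_mod_cast h2
    exact_mod_cast this
  refine (Complex.norm_le_abs_re_add_abs_im _).trans ?_
  simp only [zc]
  rw [abs_div, abs_div, abs_of_pos (show (0 : ℝ) < 2 ^ s by positivity), ← add_div]
  gcongr
  linarith

/-! ### Kernel checks -/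

/-- all `j < n` -/
def allN (n : ℕ) (f : ℕ → Bool) : Bool := (List.range n).all f

theorem allN_spec {n : ℕ} {f : ℕ → Bool} (h : allN n f = true) {j : ℕ} (hj : j < n) :
    f j = true := by
  unfold allN at h
  rw [List.all_eq_true] at h
  exact h j (List.mem_range.2 hj)

/-- row sums of the moduli of `LR` -/
theorem chkRow : ∀ k < 15, sumZ (fun i => ((getZ dataR k i).1.natAbs : ℤ) +
    ((getZ dataR k i).2.natAbs : ℤ)) 15 * 50 ≤ 39 * 1099511627776 := by decide +kernel

/-- column sums of the moduli of `LR` -/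
theorem chkCol : ∀ i < 15, sumZ (fun k => ((getZ dataR k i).1.natAbs : ℤ) +
    ((getZ dataR k i).2.natAbs : ℤ)) 15 * 50 ≤ 21 * 1099511627776 := by decide +kernel

/-- sum of the moduli of the functionals of `x*` -/
theorem chkRho : sumZ (fun k => ((aRe k).natAbs : ℤ) + ((aIm k).natAbs : ℤ)) 15 * 50 ≤
    87 * 1267650600228229401496703205376 := by decide +kernel

theorem chkY1 : allN 15 (fun j => zle (zsub
    (sumZ (fun k => aRe k * (getZ dataR k j).1 + aIm k * (getZ dataR k j).2) 15,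
      sumZ (fun k => aRe k * (getZ dataR k j).2 - aIm k * (getZ dataR k j).1) 15)
    (zsm (2 ^ 60) (yL.getD (j + 1) (0, 0)))) (2 ^ 60)) = true := by decide +kernel

theorem chkY2 : allN 24 (fun j => zle (zsub
    (zsm (49 ^ j * 2 ^ 20) (zcj (tabX.getD (j + 16) 0)))
    (zsm (102400 * 100 ^ j) (yL.getD (j + 16) (0, 0)))) (102400 * 100 ^ j)) = true := by
  decide +kernel

theorem chkE2 : allN 24 (fun j => Nat.ble
    (49 ^ j * 2 ^ 80 - 102400 * 100 ^ j * e2L.getD j 0 : ℤ).natAbs (102400 * 100 ^ j)) = true := by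
  decide +kernel

theorem chkC0 : Nat.ble (2 ^ 200 + sumZ (fun k => aRe k * aRe k + aIm k * aIm k) 15 +
    2 ^ 120 * eL - 2 ^ 120 * c0L : ℤ).natAbs (2 ^ 120) = true := by decide +kernel

/-- the matrix of the data -/
def gz (i j : ℕ) : ℤ × ℤ :=
  if 1 ≤ i ∧ i < 16 ∧ 1 ≤ j ∧ j < 16 then (gRe (i - 1) (j - 1), gIm (i - 1) (j - 1))
  else if i = j ∧ 16 ≤ i then (e2L.getD (i - 16) 0, 0) else (0, 0)

/-- the residual -/
def res (i j : ℕ) (g : ℤ × ℤ) : ℤ × ℤ :=
  zadd (zsub (zsm c0L (zmul (zcj (tabC.getD i 0)) (tabC.getD j 0)))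
    (zsm (2 ^ 60) (zadd (zmul (zcj (tabC.getD i 0)) (yL.getD j (0, 0)))
      (zmul (tabC.getD j 0) (zcj (yL.getD i (0, 0)))))))
    (zsm (2 ^ 120) (zsub (gz i j) g))

theorem chkAll0 : allN 40 (fun i => allN (i + 1) fun d => zle (res i (i - d) (gmZ 0 i d)) (2 ^ 123))
    = true := by decide +kernel

/-! ### Bounds of the data -/

theorem norm_LR_le' (k i : ℕ) : ‖LR k i‖ ≤
    ((((getZ dataR k i).1.natAbs : ℤ) + ((getZ dataR k i).2.natAbs : ℤ) : ℤ) : ℝ) / 2 ^ 40 := by
  refine (Complex.norm_le_abs_re_add_abs_im _).trans ?_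
  simp only [LR, toC40]
  rw [abs_div, abs_div, abs_of_pos (show (0 : ℝ) < 2 ^ 40 by positivity), ← add_div]
  push_cast
  exact le_rfl

theorem sum_row {k : ℕ} (hk : k < 15) : ∑ i ∈ Finset.range 15, ‖LR k i‖ ≤ 0.78 := by
  have h := chkRow k hk
  have h' : ((sumZ (fun i => ((getZ dataR k i).1.natAbs : ℤ) +
    ((getZ dataR k i).2.natAbs : ℤ)) 15 : ℤ) : ℝ) * 50 ≤ 39 * 1099511627776 := by exact_mod_cast h
  rw [sumZ_cast] at h'
  calc ∑ i ∈ Finset.range 15, ‖LR k i‖ ≤ ∑ i ∈ Finset.range 15,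
        ((((getZ dataR k i).1.natAbs : ℤ) + ((getZ dataR k i).2.natAbs : ℤ) : ℤ) : ℝ) / 2 ^ 40 :=
        Finset.sum_le_sum fun i _ => norm_LR_le' k i
    _ ≤ 0.78 := by
        rw [← Finset.sum_div, div_le_iff₀ (by positivity)]
        norm_num at h' ⊢
        linarith

theorem sum_col {i : ℕ} (hi : i < 15) : ∑ k ∈ Finset.range 15, ‖LR k i‖ ≤ 0.42 := by
  have h := chkCol i hi
  have h' : ((sumZ (fun k => ((getZ dataR k i).1.natAbs : ℤ) +
    ((getZ dataR k i).2.natAbs : ℤ)) 15 : ℤ) : ℝ) * 50 ≤ 21 * 1099511627776 := by exact_mod_cast h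
  rw [sumZ_cast] at h'
  calc ∑ k ∈ Finset.range 15, ‖LR k i‖ ≤ ∑ k ∈ Finset.range 15,
        ((((getZ dataR k i).1.natAbs : ℤ) + ((getZ dataR k i).2.natAbs : ℤ) : ℤ) : ℝ) / 2 ^ 40 :=
        Finset.sum_le_sum fun k _ => norm_LR_le' k i
    _ ≤ 0.42 := by
        rw [← Finset.sum_div, div_le_iff₀ (by positivity)]
        norm_num at h' ⊢
        linarith

theorem fX_zc (k : ℕ) : fX k = zc 100 (aRe k, aIm k) := fX_eq k

theorem sum_fX_norm : ∑ k ∈ Finset.range 15, ‖fX k‖ ≤ 1.74 := by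
  have h : ((sumZ (fun k => ((aRe k).natAbs : ℤ) + ((aIm k).natAbs : ℤ)) 15 : ℤ) : ℝ) * 50 ≤
    87 * 1267650600228229401496703205376 := by exact_mod_cast chkRho
  rw [sumZ_cast] at h
  calc ∑ k ∈ Finset.range 15, ‖fX k‖ ≤ ∑ k ∈ Finset.range 15,
        ((((aRe k).natAbs : ℤ) + ((aIm k).natAbs : ℤ) : ℤ) : ℝ) / 2 ^ 100 := by
        apply Finset.sum_le_sum
        intro k _
        refine (Complex.norm_le_abs_re_add_abs_im _).trans ?_
        rw [fX_eq]
        simp only
        rw [abs_div, abs_div, abs_of_pos (show (0 : ℝ) < 2 ^ 100 by positivity), ← add_div]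
        push_cast
        exact le_rfl
    _ ≤ 1.74 := by
        rw [← Finset.sum_div, div_le_iff₀ (by positivity)]
        norm_num at h ⊢
        linarith

/-! ### The exact Gram matrix -/

variable (K : Crit)

/-- `ρ_k` -/
noncomputable def rho (k : ℕ) : ℂ := ∑ i ∈ Finset.range 15, LR k i * K.xs (i + 1)

/-- the data part -/
noncomputable def aa (k j : ℕ) : ℂ := if 1 ≤ j ∧ j < 16 then LR k (j - 1) else 0

noncomputable def Y1 (j : ℕ) : ℂ := ∑ k ∈ Finset.range 15, conj (rho K k) * aa k j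

noncomputable def Y2 (j : ℕ) : ℂ :=
  if j ∈ Finset.Ico 16 40 then ((ek j ^ 2 : ℝ) : ℂ) * conj (K.xs j) else 0

noncomputable def G1 (i j : ℕ) : ℂ := ∑ k ∈ Finset.range 15, conj (aa k i) * aa k j

noncomputable def G2 (i j : ℕ) : ℂ :=
  if i = j ∧ i ∈ Finset.Ico 16 40 then ((ek i ^ 2 : ℝ) : ℂ) else 0

/-- the constant -/
noncomputable def RR : ℂ := ∑ k ∈ Finset.range 15, conj (rho K k) * rho K k

/-- the constant -/
noncomputable def EE : ℝ := ∑ k ∈ Finset.Ico 16 40, ek k ^ 2

theorem sum_split (f : ℕ → ℂ) : ∑ k ∈ Finset.range 40, f k =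
    f 0 + ∑ k ∈ Finset.range 15, f (k + 1) + ∑ k ∈ Finset.Ico 16 40, f k := by
  rw [← Finset.sum_range_add_sum_Ico f (show 16 ≤ 40 by norm_num),
    Finset.sum_range_succ' f 15]
  ring

theorem lamc_zero (j : ℕ) : K.lamc 0 0 j = K.cc j := by simp [Crit.lamc]

theorem lamc_mid {k : ℕ} (hk : k < 15) (j : ℕ) :
    K.lamc 0 (k + 1) j = aa k j - rho K k * K.cc j := by
  simp only [Crit.lamc, if_true, Nat.add_sub_cancel]
  rw [if_neg (by omega), if_pos (by omega)]
  rfl

theorem lamc_hi {k : ℕ} (hk : 16 ≤ k) (j : ℕ) :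
    K.lamc 0 k j = (ek k : ℂ) * ((if j = k then 1 else 0) - K.xs k * K.cc j) := by
  simp only [Crit.lamc, if_true]
  rw [if_neg (by omega), if_neg (by omega)]

theorem part1 (i j : ℕ) : ∑ k ∈ Finset.range 15,
    conj (K.lamc 0 (k + 1) i) * K.lamc 0 (k + 1) j =
    G1 i j - conj (Y1 K i) * K.cc j - conj (K.cc i) * Y1 K j +
      conj (K.cc i) * K.cc j * RR K := by
  have e : ∀ k ∈ Finset.range 15, conj (K.lamc 0 (k + 1) i) * K.lamc 0 (k + 1) j =
      conj (aa k i) * aa k j - (conj (aa k i) * rho K k) * K.cc j -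
        conj (K.cc i) * (conj (rho K k) * aa k j) +
        conj (K.cc i) * K.cc j * (conj (rho K k) * rho K k) := by
    intro k hk
    rw [lamc_mid K (Finset.mem_range.1 hk), lamc_mid K (Finset.mem_range.1 hk), map_sub, map_mul]
    ring
  rw [Finset.sum_congr rfl e, Finset.sum_add_distrib, Finset.sum_sub_distrib,
    Finset.sum_sub_distrib, ← Finset.mul_sum, ← Finset.mul_sum, ← Finset.sum_mul]
  have e2 : ∑ k ∈ Finset.range 15, conj (aa k i) * rho K k = conj (Y1 K i) := by
    unfold Y1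
    rw [map_sum]
    apply Finset.sum_congr rfl
    intro k _
    rw [map_mul, Complex.conj_conj]
    ring
  rw [e2]
  rfl

theorem part2 (i j : ℕ) : ∑ k ∈ Finset.Ico 16 40, conj (K.lamc 0 k i) * K.lamc 0 k j =
    G2 i j - conj (Y2 K i) * K.cc j - conj (K.cc i) * Y2 K j +
      conj (K.cc i) * K.cc j * (EE : ℂ) := by
  have e : ∀ k ∈ Finset.Ico 16 40, conj (K.lamc 0 k i) * K.lamc 0 k j =
      (if i = k then (if j = k then ((ek k ^ 2 : ℝ) : ℂ) else 0) else 0) -
        (if i = k then ((ek k ^ 2 : ℝ) : ℂ) * K.xs k else 0) * K.cc j -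
        conj (K.cc i) * (if j = k then ((ek k ^ 2 : ℝ) : ℂ) * conj (K.xs k) else 0) +
        conj (K.cc i) * K.cc j * ((ek k ^ 2 : ℝ) : ℂ) := by
    intro k hk
    have hk' := (Finset.mem_Ico.1 hk).1
    have hx : conj (K.xs k) * K.xs k = 1 := by
      rw [← Complex.normSq_eq_conj_mul_self, Complex.normSq_eq_norm_sq, K.norm_xs]
      simp
    rw [lamc_hi K hk', lamc_hi K hk']
    simp only [map_mul, map_sub, Complex.conj_ofReal]
    push_cast
    have e1 : conj (if i = k then (1 : ℂ) else 0) = if i = k then 1 else 0 := by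
      split_ifs <;> simp
    rw [e1]
    have e2 : (ek k : ℂ) * ((if i = k then 1 else 0) - conj (K.xs k) * conj (K.cc i)) *
        ((ek k : ℂ) * ((if j = k then 1 else 0) - K.xs k * K.cc j)) =
        (ek k : ℂ) ^ 2 * (((if i = k then 1 else 0) * (if j = k then 1 else 0)) -
          (if i = k then 1 else 0) * K.xs k * K.cc j -
          conj (K.xs k) * conj (K.cc i) * (if j = k then 1 else 0) +
          (conj (K.xs k) * K.xs k) * (conj (K.cc i) * K.cc j)) := by ring
    rw [e2, hx]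
    split_ifs <;> ring
  rw [Finset.sum_congr rfl e, Finset.sum_add_distrib, Finset.sum_sub_distrib,
    Finset.sum_sub_distrib, ← Finset.mul_sum, ← Finset.mul_sum, ← Finset.sum_mul]
  have e3 : ∑ k ∈ Finset.Ico 16 40, (if i = k then (if j = k then ((ek k ^ 2 : ℝ) : ℂ) else 0)
      else 0) = G2 i j := by
    rw [Finset.sum_ite_eq]
    unfold G2
    by_cases h1 : i ∈ Finset.Ico 16 40
    · by_cases h2 : i = j
      · subst h2; simp [h1]
      · have h3 : ¬ j = i := fun h => h2 h.symm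
        simp [h1, h2, h3]
    · simp [h1]
  have e4 : ∑ k ∈ Finset.Ico 16 40, (if i = k then ((ek k ^ 2 : ℝ) : ℂ) * K.xs k else 0) =
      conj (Y2 K i) := by
    rw [Finset.sum_ite_eq]
    unfold Y2
    split_ifs
    · rw [map_mul, Complex.conj_conj, Complex.conj_ofReal]
    · simp
  have e5 : ∑ k ∈ Finset.Ico 16 40, (if j = k then ((ek k ^ 2 : ℝ) : ℂ) * conj (K.xs k) else 0) =
      Y2 K j := by
    rw [Finset.sum_ite_eq]
    rfl
  rw [e3, e4, e5]
  unfold EE
  push_cast
  rfl

/-- the exact formula -/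
theorem gm_formula (i d : ℕ) : K.GM 0 i d =
    conj (K.cc i) * K.cc (i - d) * (1 + RR K + EE) -
      conj (K.cc i) * (Y1 K (i - d) + Y2 K (i - d)) -
      K.cc (i - d) * conj (Y1 K i + Y2 K i) + (G1 i (i - d) + G2 i (i - d)) := by
  unfold Crit.GM
  rw [sum_split (fun k => conj (K.lamc 0 k i) * K.lamc 0 k (i - d)), part1, part2, lamc_zero,
    lamc_zero, map_add]
  ring

/-! ### Errors -/

theorem rho_err {k : ℕ} (hk : k < 15) : ‖rho K k - fX k‖ ≤ 164 / 10 ^ 17 := by
  unfold rho fX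
  rw [← Finset.sum_sub_distrib]
  refine (norm_sum_le _ _).trans ?_
  have h : ∀ i ∈ Finset.range 15,
      ‖LR k i * K.xs (i + 1) - LR k i * toC60 (tabX.getD (i + 1) 0)‖ ≤
        ‖LR k i‖ * (21 / 10 ^ 16) := by
    intro i hi
    rw [Finset.mem_range] at hi
    rw [← mul_sub, norm_mul]
    exact mul_le_mul_of_nonneg_left (K.tabX_spec'' (i + 1) (by omega)) (norm_nonneg _)
  refine (Finset.sum_le_sum h).trans ?_
  rw [← Finset.sum_mul]
  have := sum_row hk
  norm_num at this ⊢
  linarith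

/-- tabulated `y_j` -/
noncomputable def yT (j : ℕ) : ℂ := zc 80 (yL.getD j (0, 0))

/-- tabulated constant -/
noncomputable def c0T : ℝ := (c0L : ℝ) / 2 ^ 80

theorem RR_err : ‖RR K - ∑ k ∈ Finset.range 15, conj (fX k) * fX k‖ ≤ 572 / 10 ^ 17 := by
  unfold RR
  rw [← Finset.sum_sub_distrib]
  refine (norm_sum_le _ _).trans ?_
  have h : ∀ k ∈ Finset.range 15, ‖conj (rho K k) * rho K k - conj (fX k) * fX k‖ ≤
      (2 * ‖fX k‖ + 164 / 10 ^ 17) * (164 / 10 ^ 17) := by
    intro k hk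
    have h1 := rho_err K (Finset.mem_range.1 hk)
    have e : conj (rho K k) * rho K k - conj (fX k) * fX k =
        conj (rho K k - fX k) * (rho K k - fX k) + conj (rho K k - fX k) * fX k +
        conj (fX k) * (rho K k - fX k) := by
      rw [map_sub]
      ring
    rw [e]
    refine norm_add₃_le.trans ?_
    rw [norm_mul, norm_mul, norm_mul, RCLike.norm_conj, RCLike.norm_conj]
    have h0 := norm_nonneg (fX k)
    have h2 : ‖rho K k - fX k‖ * ‖rho K k - fX k‖ ≤ (164 / 10 ^ 17) * (164 / 10 ^ 17) :=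
      mul_le_mul h1 h1 (norm_nonneg _) (by norm_num)
    have h3 : ‖rho K k - fX k‖ * ‖fX k‖ ≤ (164 / 10 ^ 17) * ‖fX k‖ :=
      mul_le_mul_of_nonneg_right h1 h0
    linarith
  refine (Finset.sum_le_sum h).trans ?_
  rw [← Finset.sum_mul, Finset.sum_add_distrib, ← Finset.mul_sum, Finset.sum_const,
    Finset.card_range, nsmul_eq_mul]
  have := sum_fX_norm
  norm_num at this ⊢
  linarith

theorem EE_err : |EE - (eL : ℝ) / 2 ^ 80| ≤ 1 / 2 ^ 80 := by
  have e : EE = ∑ k ∈ Finset.range 24, (1 / 102400 : ℝ) * (49 / 100) ^ k := by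
    unfold EE
    rw [Finset.sum_Ico_eq_sum_range]
    apply Finset.sum_congr (by norm_num)
    intro k _
    unfold ek
    rw [Nat.add_sub_cancel_left, mul_pow, ← pow_mul, mul_comm k 2, pow_mul]
    norm_num
  rw [e, ← Finset.mul_sum, geom_sum_eq (by norm_num), eL]
  norm_num [abs_le]

theorem C0_err : ‖(1 + RR K + (EE : ℂ)) - (c0T : ℂ)‖ ≤ 573 / 10 ^ 17 := by
  have h1 := RR_err K
  have h2 := EE_err
  have h3 : |(2 ^ 200 : ℝ) + ∑ k ∈ Finset.range 15, ((aRe k : ℝ) * aRe k + (aIm k : ℝ) * aIm k) +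
      2 ^ 120 * (eL : ℝ) - 2 ^ 120 * (c0L : ℝ)| ≤ 2 ^ 120 := by
    have h := Nat.le_of_ble_eq_true chkC0
    have h' : |(2 ^ 200 + sumZ (fun k => aRe k * aRe k + aIm k * aIm k) 15 +
        2 ^ 120 * eL - 2 ^ 120 * c0L : ℤ)| ≤ 2 ^ 120 := by
      rw [Int.abs_eq_natAbs]
      exact_mod_cast h
    have h'' : |((2 ^ 200 + sumZ (fun k => aRe k * aRe k + aIm k * aIm k) 15 +
        2 ^ 120 * eL - 2 ^ 120 * c0L : ℤ) : ℝ)| ≤ 2 ^ 120 := by exact_mod_cast h'
    push_cast [sumZ_cast] at h''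
    norm_num at h'' ⊢
    exact h''
  have e1 : ∑ k ∈ Finset.range 15, conj (fX k) * fX k =
      ((∑ k ∈ Finset.range 15, ((aRe k : ℝ) * aRe k + (aIm k : ℝ) * aIm k) / 2 ^ 200 : ℝ) : ℂ) := by
    push_cast
    apply Finset.sum_congr rfl
    intro k _
    rw [← Complex.normSq_eq_conj_mul_self, fX_eq, Complex.normSq_mk]
    push_cast
    ring
  set S := ∑ k ∈ Finset.range 15, ((aRe k : ℝ) * aRe k + (aIm k : ℝ) * aIm k) with hS
  have e2 : ∑ k ∈ Finset.range 15, ((aRe k : ℝ) * aRe k + (aIm k : ℝ) * aIm k) / 2 ^ 200 =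
      S / 2 ^ 200 := by rw [← Finset.sum_div]
  rw [e2] at e1
  have e3 : (1 + RR K + (EE : ℂ)) - (c0T : ℂ) =
      (RR K - ∑ k ∈ Finset.range 15, conj (fX k) * fX k) +
        ((EE - (eL : ℝ) / 2 ^ 80 : ℝ) : ℂ) +
        (((2 ^ 200 + S + 2 ^ 120 * (eL : ℝ) - 2 ^ 120 * (c0L : ℝ)) / 2 ^ 200 : ℝ) : ℂ) := by
    rw [e1]
    unfold c0T
    push_cast
    ring
  rw [e3]
  refine norm_add₃_le.trans ?_
  rw [Complex.norm_real, Complex.norm_real, Real.norm_eq_abs, Real.norm_eq_abs, abs_div,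
    abs_of_pos (show (0 : ℝ) < 2 ^ 200 by positivity)]
  have h4 : |2 ^ 200 + S + 2 ^ 120 * (eL : ℝ) - 2 ^ 120 * (c0L : ℝ)| / 2 ^ 200 ≤
      2 ^ 120 / 2 ^ 200 := by gcongr
  refine (add_le_add (add_le_add h1 h2) h4).trans ?_
  norm_num

theorem Y_err {j : ℕ} (hj : j < 40) : ‖(Y1 K j + Y2 K j) - yT j‖ ≤ 7 / 10 ^ 16 := by
  rcases Nat.eq_zero_or_pos j with h0 | h0
  · subst h0
    have e1 : Y1 K 0 = 0 := by simp [Y1, aa]
    have e2 : Y2 K 0 = 0 := by simp [Y2]
    have e3 : yT 0 = 0 := by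
      show zc 80 (0, 0) = 0
      apply Complex.ext <;> simp [zc]
    rw [e1, e2, e3]
    norm_num
  by_cases h16 : j < 16
  · obtain ⟨i, rfl⟩ : ∃ i, j = i + 1 := ⟨j - 1, by omega⟩
    have hi : i < 15 := by omega
    have e2 : Y2 K (i + 1) = 0 := by
      unfold Y2
      rw [if_neg]
      rw [Finset.mem_Ico]
      omega
    have e1 : Y1 K (i + 1) = ∑ k ∈ Finset.range 15, conj (rho K k) * LR k i := by
      unfold Y1
      apply Finset.sum_congr rfl
      intro k _
      unfold aa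
      rw [if_pos ⟨by omega, h16⟩, Nat.add_sub_cancel]
    have h1 : ‖(∑ k ∈ Finset.range 15, conj (rho K k) * LR k i) -
        ∑ k ∈ Finset.range 15, conj (fX k) * LR k i‖ ≤ 69 / 10 ^ 17 := by
      rw [← Finset.sum_sub_distrib]
      refine (norm_sum_le _ _).trans ?_
      have h : ∀ k ∈ Finset.range 15, ‖conj (rho K k) * LR k i - conj (fX k) * LR k i‖ ≤
          (164 / 10 ^ 17) * ‖LR k i‖ := by
        intro k hk
        rw [← sub_mul, ← map_sub, norm_mul, RCLike.norm_conj]
        exact mul_le_mul_of_nonneg_right (rho_err K (Finset.mem_range.1 hk)) (norm_nonneg _)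
      refine (Finset.sum_le_sum h).trans ?_
      rw [← Finset.mul_sum]
      have := sum_col hi
      norm_num at this ⊢
      linarith
    have h2 : ‖(∑ k ∈ Finset.range 15, conj (fX k) * LR k i) - yT (i + 1)‖ ≤ 1 / 10 ^ 20 := by
      have h := zle_spec (allN_spec chkY1 hi) 140
      rw [zc_zsub, show 140 = 80 + 60 by norm_num, zc_shift] at h
      have e : zc (80 + 60) (sumZ (fun k => aRe k * (getZ dataR k i).1 +
          aIm k * (getZ dataR k i).2) 15, sumZ (fun k => aRe k * (getZ dataR k i).2 -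
          aIm k * (getZ dataR k i).1) 15) = ∑ k ∈ Finset.range 15, conj (fX k) * LR k i := by
        apply Complex.ext
        · rw [Complex.re_sum]
          simp only [zc]
          rw [sumZ_cast, Finset.sum_div]
          apply Finset.sum_congr rfl
          intro k _
          rw [fX_eq]
          simp only [LR, toC40, Complex.mul_re, Complex.conj_re, Complex.conj_im]
          push_cast
          ring
        · rw [Complex.im_sum]
          simp only [zc]
          rw [sumZ_cast, Finset.sum_div]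
          apply Finset.sum_congr rfl
          intro k _
          rw [fX_eq]
          simp only [LR, toC40, Complex.mul_im, Complex.conj_re, Complex.conj_im]
          push_cast
          ring
      rw [e] at h
      refine h.trans ?_
      norm_num
    rw [e1, e2, add_zero, ← sub_add_sub_cancel _ (∑ k ∈ Finset.range 15, conj (fX k) * LR k i)]
    refine (norm_add_le _ _).trans ((add_le_add h1 h2).trans ?_)
    norm_num
  · obtain ⟨i, rfl⟩ : ∃ i, j = i + 16 := ⟨j - 16, by omega⟩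
    have hi : i < 24 := by omega
    have e1 : Y1 K (i + 16) = 0 := by
      unfold Y1
      apply Finset.sum_eq_zero
      intro k _
      unfold aa
      rw [if_neg (by omega), mul_zero]
    have e2 : Y2 K (i + 16) = ((ek (i + 16) ^ 2 : ℝ) : ℂ) * conj (K.xs (i + 16)) := by
      unfold Y2
      rw [if_pos (Finset.mem_Ico.2 ⟨by omega, hj⟩)]
    have hek : ek (i + 16) ^ 2 = 49 ^ i / (102400 * 100 ^ i) := by
      unfold ek
      rw [Nat.add_sub_cancel, mul_pow, ← pow_mul, mul_comm i 2, pow_mul]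
      norm_num
      rw [div_pow]
      field_simp
    have hek1 : ek (i + 16) ^ 2 ≤ 1 / 102400 := by
      rw [hek, div_le_iff₀ (by positivity)]
      have : (49 : ℝ) ^ i ≤ 100 ^ i := pow_le_pow_left₀ (by norm_num) (by norm_num) i
      linarith
    have h1 : ‖((ek (i + 16) ^ 2 : ℝ) : ℂ) * conj (K.xs (i + 16)) -
        ((ek (i + 16) ^ 2 : ℝ) : ℂ) * conj (toC60 (tabX.getD (i + 16) 0))‖ ≤
        1 / 102400 * (21 / 10 ^ 16) := by
      rw [← mul_sub, ← map_sub, norm_mul, RCLike.norm_conj, Complex.norm_real,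
        Real.norm_of_nonneg (sq_nonneg _)]
      exact mul_le_mul hek1 (K.tabX_spec'' _ (by omega)) (norm_nonneg _) (by norm_num)
    have h2 : ‖((ek (i + 16) ^ 2 : ℝ) : ℂ) * conj (toC60 (tabX.getD (i + 16) 0)) - yT (i + 16)‖ ≤
        1 / 10 ^ 20 := by
      have h := zle_spec (allN_spec chkY2 hi) 80
      rw [zc_zsub] at h
      have e3 : zc 80 (zsm (49 ^ i * 2 ^ 20) (zcj (tabX.getD (i + 16) 0))) =
          ((102400 * 100 ^ i : ℝ) : ℂ) * (((ek (i + 16) ^ 2 : ℝ) : ℂ) *
            conj (toC60 (tabX.getD (i + 16) 0))) := by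
        rw [hek]
        apply Complex.ext
        · simp only [zc, zsm, zcj, toC60, Complex.re_ofReal_mul, Complex.conj_re]
          push_cast
          field_simp
          norm_num
          ring
        · simp only [zc, zsm, zcj, toC60, Complex.im_ofReal_mul, Complex.conj_im]
          push_cast
          field_simp
          norm_num
          ring
      have e4 : zc 80 (zsm (102400 * 100 ^ i) (yL.getD (i + 16) (0, 0))) =
          ((102400 * 100 ^ i : ℝ) : ℂ) * yT (i + 16) := by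
        apply Complex.ext
        · simp only [zc, zsm, yT, Complex.re_ofReal_mul]
          push_cast
          ring
        · simp only [zc, zsm, yT, Complex.im_ofReal_mul]
          push_cast
          ring
      rw [e3, e4, ← mul_sub, norm_mul, Complex.norm_real,
        Real.norm_of_nonneg (by positivity)] at h
      have hp : (0 : ℝ) < 102400 * 100 ^ i := by positivity
      have h' : ‖((ek (i + 16) ^ 2 : ℝ) : ℂ) * conj (toC60 (tabX.getD (i + 16) 0)) -
          yT (i + 16)‖ ≤ 2 / 2 ^ 80 := by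
        rw [← mul_le_mul_iff_right₀ hp]
        refine h.trans (le_of_eq ?_)
        push_cast
        ring
      refine h'.trans ?_
      norm_num
    rw [e1, e2, zero_add, ← sub_add_sub_cancel _ (((ek (i + 16) ^ 2 : ℝ) : ℂ) *
      conj (toC60 (tabX.getD (i + 16) 0)))]
    refine (norm_add_le _ _).trans ((add_le_add h1 h2).trans ?_)
    norm_num

theorem G_err {i j : ℕ} (hi : i < 40) : ‖(G1 i j + G2 i j) - zc 80 (gz i j)‖ ≤ 1 / 10 ^ 20 := by
  unfold gz
  by_cases h : 1 ≤ i ∧ i < 16 ∧ 1 ≤ j ∧ j < 16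
  · rw [if_pos h]
    have e2 : G2 i j = 0 := by
      unfold G2
      rw [if_neg]
      rw [Finset.mem_Ico]
      omega
    have e1 : G1 i j = gR (i - 1) (j - 1) := by
      unfold G1 gR
      apply Finset.sum_congr rfl
      intro k _
      unfold aa
      rw [if_pos ⟨h.1, h.2.1⟩, if_pos ⟨h.2.2.1, h.2.2.2⟩]
    rw [e1, e2, gR_eq, add_zero]
    simp only [zc]
    rw [sub_self, norm_zero]
    norm_num
  · rw [if_neg h]
    have e1 : G1 i j = 0 := by
      unfold G1
      apply Finset.sum_eq_zero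
      intro k _
      unfold aa
      by_cases h1 : 1 ≤ i ∧ i < 16
      · rw [if_neg (c := 1 ≤ j ∧ j < 16) (fun h2 => h ⟨h1.1, h1.2, h2.1, h2.2⟩), mul_zero]
      · rw [if_neg (c := 1 ≤ i ∧ i < 16) h1, map_zero, zero_mul]
    by_cases h2 : i = j ∧ 16 ≤ i
    · rw [if_pos h2]
      have e2 : G2 i j = ((ek i ^ 2 : ℝ) : ℂ) := by
        unfold G2
        rw [if_pos ⟨h2.1, Finset.mem_Ico.2 ⟨h2.2, hi⟩⟩]
      obtain ⟨a, rfl⟩ : ∃ a, i = a + 16 := ⟨i - 16, by omega⟩
      have ha : a < 24 := by omega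
      have h3 := Nat.le_of_ble_eq_true (allN_spec chkE2 ha)
      have h4 : |(49 ^ a * 2 ^ 80 - 102400 * 100 ^ a * e2L.getD a 0 : ℤ)| ≤
          102400 * 100 ^ a := by
        rw [Int.abs_eq_natAbs]
        exact_mod_cast h3
      have h5 : |(49 : ℝ) ^ a * 2 ^ 80 - 102400 * 100 ^ a * (e2L.getD a 0 : ℤ)| ≤
          102400 * 100 ^ a := by exact_mod_cast h4
      have hek : ek (a + 16) ^ 2 = 49 ^ a / (102400 * 100 ^ a) := by
        unfold ek
        rw [Nat.add_sub_cancel, mul_pow, ← pow_mul, mul_comm a 2, pow_mul]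
        norm_num
        rw [div_pow]
        field_simp
      have e3 : (G1 (a + 16) j + G2 (a + 16) j) - zc 80 (e2L.getD (a + 16 - 16) 0, 0) =
          ((((49 : ℝ) ^ a * 2 ^ 80 - 102400 * 100 ^ a * (e2L.getD a 0 : ℤ)) /
            (102400 * 100 ^ a * 2 ^ 80) : ℝ) : ℂ) := by
        rw [e1, e2, hek, Nat.add_sub_cancel, zero_add]
        apply Complex.ext
        · simp only [zc, Complex.sub_re, Complex.ofReal_re]
          field_simp
        · simp only [zc, Complex.sub_im, Complex.ofReal_im]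
          simp
      rw [e3, Complex.norm_real, Real.norm_eq_abs, abs_div,
        abs_of_pos (show (0 : ℝ) < 102400 * 100 ^ a * 2 ^ 80 by positivity),
        div_le_iff₀ (by positivity)]
      refine h5.trans ?_
      have hp : (0 : ℝ) < 102400 * 100 ^ a := by positivity
      have : (1 : ℝ) ≤ 1 / 10 ^ 20 * 2 ^ 80 := by norm_num
      nlinarith
    · rw [if_neg h2]
      have e2 : G2 i j = 0 := by
        unfold G2
        rw [if_neg]
        rw [Finset.mem_Ico]
        omega
      have e3 : zc 80 (0, 0) = 0 := by apply Complex.ext <;> simp [zc]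
      rw [e1, e2, e3]
      norm_num

theorem chkYb : allN 40 (fun j => zle (yL.getD j (0, 0)) (2 ^ 78)) = true := by decide +kernel

theorem norm_yT_le {j : ℕ} (hj : j < 40) : ‖yT j‖ ≤ 1 / 2 := by
  refine (zle_spec (allN_spec chkYb hj) 80).trans ?_
  norm_num

theorem c0T_le : c0T ≤ 1.31052 := by
  unfold c0T c0L
  norm_num

theorem c0T_nonneg : 0 ≤ c0T := by
  unfold c0T c0L
  norm_num

theorem res_eq (i j : ℕ) (g : ℤ × ℤ) : zc 200 (res i j g) =
    conj (toC60 (tabC.getD i 0)) * toC60 (tabC.getD j 0) * (c0T : ℂ) -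
      conj (toC60 (tabC.getD i 0)) * yT j - toC60 (tabC.getD j 0) * conj (yT i) +
      (zc 80 (gz i j) - toC80 g) := by
  have t60 : ∀ z : ℤ × ℤ, toC60 z = zc 60 z := fun _ => rfl
  have t80 : ∀ z : ℤ × ℤ, toC80 z = zc 80 z := fun _ => rfl
  unfold res yT
  rw [zc_zadd, zc_zsub, t60, t60, t80]
  have a1 : zc 200 (zsm c0L (zmul (zcj (tabC.getD i 0)) (tabC.getD j 0))) =
      (c0T : ℂ) * (conj (zc 60 (tabC.getD i 0)) * zc 60 (tabC.getD j 0)) := by
    rw [show 200 = (60 + 60) + 80 by norm_num, zc_zsm, zc_zmul, zc_zcj]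
    rfl
  have a2 : zc 200 (zsm (2 ^ 60) (zadd (zmul (zcj (tabC.getD i 0)) (yL.getD j (0, 0)))
      (zmul (tabC.getD j 0) (zcj (yL.getD i (0, 0)))))) =
      conj (zc 60 (tabC.getD i 0)) * zc 80 (yL.getD j (0, 0)) +
        zc 60 (tabC.getD j 0) * conj (zc 80 (yL.getD i (0, 0))) := by
    rw [show 200 = (60 + 80) + 60 by norm_num, zc_shift, zc_zadd, zc_zmul, zc_zmul, zc_zcj,
      zc_zcj]
  have a3 : zc 200 (zsm (2 ^ 120) (zsub (gz i j) g)) = zc 80 (gz i j) - zc 80 g := by
    rw [show 200 = 80 + 120 by norm_num, zc_shift, zc_zsub]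
  rw [a1, a2, a3]
  ring

theorem res_small {i d : ℕ} (hi : i < 40) (hd : d ≤ i) :
    ‖zc 200 (res i (i - d) (gmZ 0 i d))‖ ≤ 1 / 10 ^ 20 := by
  refine (zle_spec (allN_spec (allN_spec chkAll0 hi) (show d < i + 1 by omega)) 200).trans ?_
  norm_num

/-- the final estimate -/
theorem final {c c' ct ct' C0 Y Y' yt yt' : ℂ} {c0 : ℝ} (hc : ‖c‖ ≤ 0.711) (hc' : ‖c'‖ ≤ 0.711)
    (h1 : ‖c - ct‖ ≤ 3 / 10 ^ 16) (h1' : ‖c' - ct'‖ ≤ 3 / 10 ^ 16)
    (h2 : ‖C0 - c0‖ ≤ 573 / 10 ^ 17) (hc0 : c0 ≤ 1.31052) (hc00 : 0 ≤ c0)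
    (h3 : ‖Y - yt‖ ≤ 7 / 10 ^ 16) (h3' : ‖Y' - yt'‖ ≤ 7 / 10 ^ 16)
    (hy : ‖yt‖ ≤ 1 / 2) (hy' : ‖yt'‖ ≤ 1 / 2) :
    ‖(conj c * c' * C0 - conj c * Y' - c' * conj Y) -
      (conj ct * ct' * (c0 : ℂ) - conj ct * yt' - ct' * conj yt)‖ ≤ 5 / 10 ^ 15 := by
  have e : (conj c * c' * C0 - conj c * Y' - c' * conj Y) -
      (conj ct * ct' * (c0 : ℂ) - conj ct * yt' - ct' * conj yt) =
      (conj c * c' * (C0 - (c0 : ℂ)) + conj (c - ct) * c' * (c0 : ℂ) +
        conj c * (c' - ct') * (c0 : ℂ) - conj (c - ct) * (c' - ct') * (c0 : ℂ)) -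
      (conj c * (Y' - yt') + conj (c - ct) * yt') -
      (c' * conj (Y - yt) + (c' - ct') * conj yt) := by
    simp only [map_sub]
    ring
  rw [e]
  have b1 : ‖conj c * c' * (C0 - (c0 : ℂ))‖ ≤ 0.711 * 0.711 * (573 / 10 ^ 17) := by
    rw [norm_mul, norm_mul, RCLike.norm_conj]
    gcongr
  have hn : ‖(c0 : ℂ)‖ ≤ 1.31052 := by
    rw [Complex.norm_real, Real.norm_of_nonneg hc00]
    exact hc0
  have b2 : ‖conj (c - ct) * c' * (c0 : ℂ)‖ ≤ (3 / 10 ^ 16) * 0.711 * 1.31052 := by
    rw [norm_mul, norm_mul, RCLike.norm_conj]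
    gcongr
  have b3 : ‖conj c * (c' - ct') * (c0 : ℂ)‖ ≤ 0.711 * (3 / 10 ^ 16) * 1.31052 := by
    rw [norm_mul, norm_mul, RCLike.norm_conj]
    gcongr
  have b4 : ‖conj (c - ct) * (c' - ct') * (c0 : ℂ)‖ ≤
      (3 / 10 ^ 16) * (3 / 10 ^ 16) * 1.31052 := by
    rw [norm_mul, norm_mul, RCLike.norm_conj]
    gcongr
  have b5 : ‖conj c * (Y' - yt')‖ ≤ 0.711 * (7 / 10 ^ 16) := by
    rw [norm_mul, RCLike.norm_conj]
    gcongr
  have b6 : ‖conj (c - ct) * yt'‖ ≤ (3 / 10 ^ 16) * (1 / 2) := by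
    rw [norm_mul, RCLike.norm_conj]
    gcongr
  have b7 : ‖c' * conj (Y - yt)‖ ≤ 0.711 * (7 / 10 ^ 16) := by
    rw [norm_mul, RCLike.norm_conj]
    gcongr
  have b8 : ‖(c' - ct') * conj yt‖ ≤ (3 / 10 ^ 16) * (1 / 2) := by
    rw [norm_mul, RCLike.norm_conj]
    gcongr
  refine (norm_sub_le _ _).trans ((add_le_add ((norm_sub_le _ _).trans (add_le_add
    ((norm_sub_le _ _).trans (add_le_add (norm_add₃_le.trans (add_le_add (add_le_add b1 b2) b3))
      b4)) ((norm_add_le _ _).trans (add_le_add b5 b6))))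
    ((norm_add_le _ _).trans (add_le_add b7 b8))).trans ?_)
  norm_num

end GZ

open GZ

variable (K : Crit)

/-- (G2) node 0 -/
theorem gm_zero {i d : ℕ} (hi : i < 40) (hd : d ≤ i) :
    ‖K.GM 0 i d - toC80 (gmZ 0 i d)‖ ≤ 8e-15 := by
  have hcc : ∀ j, ‖K.cc j‖ ≤ 0.711 := by
    intro j
    refine (K.norm_cc_le j).trans ?_
    have h6 : K.r ^ j ≤ 1 := pow_le_one₀ K.r_pos.le K.r_lt_one.le
    norm_num at h6 ⊢
    linarith
  have hf := GZ.final (hcc i) (hcc (i - d)) (K.tabC_spec' i (by omega))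
    (K.tabC_spec' (i - d) (by omega)) (C0_err K) c0T_le c0T_nonneg (Y_err K hi)
    (Y_err K (show i - d < 40 by omega)) (norm_yT_le hi)
    (norm_yT_le (show i - d < 40 by omega))
  have hg := G_err (i := i) (j := i - d) hi
  have hr := res_small hi hd
  rw [res_eq] at hr
  have e : K.GM 0 i d - toC80 (gmZ 0 i d) =
      ((conj (K.cc i) * K.cc (i - d) * (1 + RR K + EE) -
        conj (K.cc i) * (Y1 K (i - d) + Y2 K (i - d)) -
        K.cc (i - d) * conj (Y1 K i + Y2 K i)) -
      (conj (toC60 (tabC.getD i 0)) * toC60 (tabC.getD (i - d) 0) * (c0T : ℂ) -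
        conj (toC60 (tabC.getD i 0)) * yT (i - d) -
        toC60 (tabC.getD (i - d) 0) * conj (yT i))) +
      ((G1 i (i - d) + G2 i (i - d)) - zc 80 (gz i (i - d))) +
      (conj (toC60 (tabC.getD i 0)) * toC60 (tabC.getD (i - d) 0) * (c0T : ℂ) -
        conj (toC60 (tabC.getD i 0)) * yT (i - d) -
        toC60 (tabC.getD (i - d) 0) * conj (yT i) +
        (zc 80 (gz i (i - d)) - toC80 (gmZ 0 i d))) := by
    rw [gm_formula]
    ring
  rw [e]
  refine norm_add₃_le.trans ((add_le_add (add_le_add hf hg) hr).trans ?_)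
  norm_num

end Pool.Agent.H93
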