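import Pool.Agent.Lib.H93.Quad
import Pool.Agent.Lib.H93.GramData
import Pool.Agent.Lib.H93.GramExact
import Pool.Agent.Lib.H93.Tables
import Pool.Agent.Lib.H93.GramZero

/-!
MP_fb0703_an, chunk E: the tables `gmZ` of `GramData.lean` describe the Gram matrices `GM` of the
five forms.

For `b = 0`: with `ρ_k = ∑_{i<15} LR k i * xs (i+1)`, `y_j = ∑_k conj ρ_k * LR k (j-1)` for
`1 ≤ j < 16`, `y_j = (ek j)^2 * conj (xs j)` for `16 ≤ j < 40`, `y_0 = 0`, and
`C0 = 1 + ∑_k ‖ρ_k‖^2 + ∑_{16≤k<40} (ek k)^2` (about `1.3107`) one has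
`GM 0 i d = conj c_i c_j C0 - conj c_i y_j - c_j conj y_i + G_ij`, `j = i - d`, where
`G_ij = gramR (i-1) (j-1)` for `1 ≤ i, j < 16`, `(ek i)^2` for `i = j ≥ 16`, and `0` otherwise.
The table is the value of this expression at `tabC`, `tabX` (and `dataR`), rounded at scale `2^80`.
Errors: `tabC_spec'` `3e-16`, `tabX_spec''` `2.1e-15`.
-/

namespace Pool.Agent.H93

open Filter Topology ComplexConjugate

variable (K : Crit)

theorem gm_spec {b : ℕ} (hb : b < 5) {i d : ℕ} (hi : i < 40) (hd : d ≤ i) :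
    ‖K.GM b i d - toC80 (gmZ b i d)‖ ≤ 8e-15 := by
  rcases Nat.eq_zero_or_pos b with h | h
  · subst h; exact gm_zero K hi hd
  · rw [gm_exact K h hb hi hd, sub_self, norm_zero]; norm_num

end Pool.Agent.H93
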