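import Mathlib

/-!
MP_fb0703_an, chunk E, part 1: complex fixed point arithmetic in one natural number.

A Gaussian integer `a + b i` is coded by a natural number congruent to `a + b T` modulo
`NN = T ^ 2 + 1`, `T = 2 ^ 256`. The map `phi` is a ring homomorphism, so sums and products of
codes are codes of sums and products. All functions used by the kernel are written with
`Nat.add`, `Nat.mul`, ... and recursors directly, for speed.
-/

namespace Pool.Agent.H93.Lmi

open GaussianInt

/-- `2 ^ 256` -/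
def T : ℕ := 115792089237316195423570985008687907853269984665640564039457584007913129639936

/-- `T ^ 2 + 1` -/
def NN : ℕ := 13407807929942597099574024998205846127479365820592393377723561443721764030073546976801874298166903427690031858186486050853753882811946569946433649006084097

theorem T_eq : T = 2 ^ 256 := by norm_num [T]
theorem NN_eq : NN = T * T + 1 := by norm_num [T, NN]

instance : NeZero NN := ⟨by norm_num [NN]⟩

attribute [local irreducible] T NN

theorem T_int : ((T : ℕ) : ℤ) = 2 ^ 256 := by rw [T_eq]; norm_num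

theorem NN_int : ((NN : ℕ) : ℤ) = T * T + 1 := by rw [NN_eq]; push_cast; ring

theorem T_pos : 0 < T := by rw [T_eq]; positivity

theorem NN_pos : 0 < NN := by rw [NN_eq]; positivity

theorem TT : ((T : ℕ) : ZMod NN) * (T : ℕ) = ((-1 : ℤ) : ZMod NN) := by
  have h : (((T * T + 1 : ℕ)) : ZMod NN) = 0 := by
    rw [← NN_eq]; exact ZMod.natCast_self NN
  push_cast at h ⊢
  exact eq_neg_of_add_eq_zero_left h

/-- the ring homomorphism `ℤ[i] → ℤ/NN`, `i ↦ T`. -/
noncomputable def phi : GaussianInt →+* ZMod NN :=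
  Zsqrtd.lift (d := -1) ⟨((T : ℕ) : ZMod NN), TT⟩

theorem phi_apply (z : GaussianInt) : phi z = (z.re : ZMod NN) + (z.im : ZMod NN) * (T : ℕ) := by
  unfold phi
  rw [Zsqrtd.lift_apply_apply]

/-- `n` is a code of `z`. -/
def Rp (n : ℕ) (z : GaussianInt) : Prop := ((n : ℕ) : ZMod NN) = phi z

theorem Rp.zero : Rp 0 0 := by simp [Rp]

theorem Rp.add {a b : ℕ} {x y : GaussianInt} (h1 : Rp a x) (h2 : Rp b y) : Rp (a + b) (x + y) := by
  unfold Rp at *; rw [Nat.cast_add, h1, h2, map_add]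

theorem Rp.mul {a b : ℕ} {x y : GaussianInt} (h1 : Rp a x) (h2 : Rp b y) : Rp (a * b) (x * y) := by
  unfold Rp at *; rw [Nat.cast_mul, h1, h2, map_mul]

theorem Rp.mod {a : ℕ} {x : GaussianInt} (h1 : Rp a x) : Rp (a % NN) x := by
  unfold Rp at *; rw [ZMod.natCast_mod, h1]

theorem Rp.nat (n : ℕ) : Rp n (n : GaussianInt) := by
  unfold Rp; rw [map_natCast]

theorem Rp.pair (a b : ℕ) : Rp (a + T * b) ⟨a, b⟩ := by
  unfold Rp; rw [phi_apply]; push_cast; ring

/-- `k` codes `z` as soon as `k` is congruent to `z.re + z.im T`. -/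
theorem Rp.of_int {k : ℕ} {z : GaussianInt} (m : ℤ)
    (h : (k : ℤ) = z.re + z.im * T + m * NN) : Rp k z := by
  unfold Rp
  rw [phi_apply]
  have h1 : (((k : ℕ) : ℤ) : ZMod NN) = ((z.re + z.im * T + m * NN : ℤ) : ZMod NN) := by rw [h]
  push_cast at h1
  rw [h1, ZMod.natCast_self]
  ring

/-- uniqueness: a code `< NN` of a Gaussian integer with coordinates in `[0, T)` is the number
`a + T b`. -/
theorem Rp.unique {n a b : ℕ} (hn : n < NN) (ha : a < T) (hb : b < T) (h : Rp n ⟨a, b⟩) :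
    n = a + T * b := by
  have h1 : ((n : ℕ) : ZMod NN) = ((a + T * b : ℕ) : ZMod NN) := by
    rw [h, Rp.pair a b]
  rw [ZMod.natCast_eq_natCast_iff'] at h1
  rw [Nat.mod_eq_of_lt hn, Nat.mod_eq_of_lt] at h1
  · exact h1
  · rw [NN_eq]
    have h2 : T * b + T ≤ T * T := by
      calc T * b + T = T * (b + 1) := by ring
        _ ≤ T * T := Nat.mul_le_mul_left T hb
    omega

/-- the code of a Gaussian integer shifted by `c (1 + i)` into the positive quadrant. -/
theorem Rp.shift {v : ℕ} {z : GaussianInt} (h : Rp v z) (c : ℕ) (h1 : -(c : ℤ) ≤ z.re)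
    (h2 : z.re + c < T) (h3 : -(c : ℤ) ≤ z.im) (h4 : z.im + c < T) :
    (((v + (c + c * T)) % NN % T : ℕ) : ℤ) = z.re + c ∧
      (((v + (c + c * T)) % NN / T : ℕ) : ℤ) = z.im + c := by
  have hT : 0 < T := T_pos
  obtain ⟨a, ha⟩ : ∃ a : ℕ, (a : ℤ) = z.re + c := ⟨(z.re + c).toNat, by omega⟩
  obtain ⟨b, hb⟩ : ∃ b : ℕ, (b : ℤ) = z.im + c := ⟨(z.im + c).toNat, by omega⟩
  have hab : Rp ((v + (c + c * T)) % NN) ⟨a, b⟩ := by
    have e : (⟨a, b⟩ : GaussianInt) = z + ⟨(c : ℕ), (c : ℕ)⟩ := by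
      apply Zsqrtd.ext
      · simpa using ha
      · simpa using hb
    rw [e]
    exact (h.add (by have := Rp.pair c c; rwa [mul_comm T c] at this)).mod
  have hlt : (v + (c + c * T)) % NN < NN := Nat.mod_lt _ NN_pos
  have ha' : a < T := by omega
  have hb' : b < T := by omega
  have e := Rp.unique hlt ha' hb' hab
  rw [e]
  constructor
  · rw [Nat.add_mul_mod_self_left, Nat.mod_eq_of_lt ha', ha]
  · rw [Nat.add_mul_div_left _ _ hT, Nat.div_eq_of_lt ha', zero_add, hb]

/-- `2 ^ 152 (1 + T)` -/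
def dT : ℕ := 661055968790248598951915308032771039828404682964281219284648795274405791236317054815960034279239517991469010005568889290752

/-- tolerance of the test at scale `2 ^ 200`: `2 ^ 152` -/
def dlt : ℕ := 5708990770823839524233143877797980545530986496

theorem dlt_eq : dlt = 2 ^ 152 := by norm_num [dlt]
theorem dT_eq : dT = dlt + dlt * T := by rw [T_eq, dlt_eq]; norm_num [dT]

attribute [local irreducible] dlt dT

theorem dlt_int : ((dlt : ℕ) : ℤ) = 2 ^ 152 := by rw [dlt_eq]; norm_num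

/-- the test: the coded number has coordinates at most `2 ^ 152`. -/
def small (v : ℕ) : Bool :=
  (fun m => and (Nat.ble (Nat.mod m T) 11417981541647679048466287755595961091061972992)
    (Nat.ble (Nat.div m T) 11417981541647679048466287755595961091061972992))
    (Nat.mod (Nat.add v dT) NN)

theorem small_spec {v : ℕ} {z : GaussianInt} (h : Rp v z) (h1 : |z.re| ≤ 2 ^ 254)
    (h2 : |z.im| ≤ 2 ^ 254) (hs : small v = true) : |z.re| ≤ 2 ^ 152 ∧ |z.im| ≤ 2 ^ 152 := by
  -- shift by a large constant first to see the exact value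
  have e1 : (dlt : ℤ) = 2 ^ 152 := dlt_int
  have eT : (T : ℤ) = 2 ^ 256 := T_int
  have hN : (NN : ℤ) = T * T + 1 := NN_int
  set m := (v + (dlt + dlt * T)) % NN with hm
  have hs' : m % T ≤ 2 * dlt ∧ m / T ≤ 2 * dlt := by
    unfold small at hs
    simp only [dT_eq] at hs
    rw [Bool.and_eq_true] at hs
    have e2 : (11417981541647679048466287755595961091061972992 : ℕ) = 2 * dlt := by
      rw [dlt_eq]; norm_num
    rw [e2] at hs
    exact ⟨Nat.le_of_ble_eq_true hs.1, Nat.le_of_ble_eq_true hs.2⟩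
  have hR : Rp m (z + ⟨(dlt : ℕ), (dlt : ℕ)⟩) := by
    rw [hm]
    exact (h.add (by have := Rp.pair dlt dlt; rwa [mul_comm T dlt] at this)).mod
  have hR2 : Rp m ⟨((m % T : ℕ) : ℤ), ((m / T : ℕ) : ℤ)⟩ := by
    have := Rp.pair (m % T) (m / T)
    rwa [Nat.mod_add_div] at this
  set a : ℤ := ((m % T : ℕ) : ℤ) with ha
  set b : ℤ := ((m / T : ℕ) : ℤ) with hb
  have ha0 : 0 ≤ a := by rw [ha]; positivity
  have hb0 : 0 ≤ b := by rw [hb]; positivity
  have ha1 : a ≤ 2 * 2 ^ 152 := by rw [ha, ← e1]; exact_mod_cast hs'.1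
  have hb1 : b ≤ 2 * 2 ^ 152 := by rw [hb, ← e1]; exact_mod_cast hs'.2
  have h5 : phi (z + ⟨(dlt : ℕ), (dlt : ℕ)⟩ - ⟨a, b⟩) = 0 := by
    rw [map_sub, ← hR, ← hR2, sub_self]
  set w : GaussianInt := z + ⟨(dlt : ℕ), (dlt : ℕ)⟩ - ⟨a, b⟩ with hw
  have hwre : w.re = z.re + 2 ^ 152 - a := by
    rw [hw]; simp [e1]
  have hwim : w.im = z.im + 2 ^ 152 - b := by
    rw [hw]; simp [e1]
  rw [phi_apply] at h5
  have h6 : ((w.re + w.im * T : ℤ) : ZMod NN) = 0 := by push_cast; exact h5
  rw [ZMod.intCast_zmod_eq_zero_iff_dvd] at h6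
  rw [abs_le] at h1 h2
  have hw1 : |w.re| < 2 ^ 255 := by rw [hwre, abs_lt]; constructor <;> linarith
  have hw2 : |w.im| < 2 ^ 255 := by rw [hwim, abs_lt]; constructor <;> linarith
  have h7 : w.re + w.im * T = 0 := by
    apply Int.eq_zero_of_abs_lt_dvd h6
    rw [hN, eT]
    rw [abs_lt] at hw1 hw2 ⊢
    constructor <;> nlinarith
  have h8 : w.im = 0 := by
    by_contra hne
    have h9 : 1 ≤ |w.im| := Int.one_le_abs hne
    have h10 : |w.re| = |w.im| * 2 ^ 256 := by
      have : w.re = -(w.im * T) := by linarith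
      rw [this, abs_neg, abs_mul, eT]
      norm_num
    nlinarith
  have h9 : w.re = 0 := by rw [h8] at h7; linarith
  rw [hwre] at h9
  rw [hwim] at h8
  constructor
  · rw [abs_le]; constructor <;> linarith
  · rw [abs_le]; constructor <;> linarith

end Pool.Agent.H93.Lmi
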