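import Pool.Agent.Lib.H93.LmiCode

/-!
MP_fb0703_an, chunk E, part 2: list operations for the kernel checker. Lists are read with
missing entries equal to `0`, and every operation is described by its entries.
-/

namespace Pool.Agent.H93.Lmi

open GaussianInt

/-- entrywise product -/
noncomputable def zmul (l : List ℕ) : List ℕ → List ℕ :=
  List.rec (fun _ => []) (fun x _ ih l' => List.rec [] (fun y ys _ => Nat.mul x y :: ih ys) l') l

/-- entrywise sum (missing entries are `0`) -/
noncomputable def zadd (l : List ℕ) : List ℕ → List ℕ :=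
  List.rec (fun l' => l')
    (fun x xs ih l' => List.rec (x :: xs) (fun y ys _ => Nat.add x y :: ih ys) l') l

/-- multiplication by a scalar -/
noncomputable def smul (c : ℕ) (l : List ℕ) : List ℕ := List.rec [] (fun x _ ih => Nat.mul c x :: ih) l

/-- dot product -/
noncomputable def dot (l : List ℕ) : List ℕ → ℕ :=
  List.rec (fun _ => 0)
    (fun x _ ih l' => List.rec 0 (fun y ys _ => Nat.add (Nat.mul x y) (ih ys)) l') l

/-- sum of two lists of rows -/
noncomputable def zzadd (A : List (List ℕ)) : List (List ℕ) → List (List ℕ) :=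
  List.rec (fun l' => l')
    (fun x xs ih l' => List.rec (x :: xs) (fun y ys _ => zadd x y :: ih ys) l') A

/-- multiplication of all rows by the same list -/
noncomputable def rmul (t : List ℕ) (M : List (List ℕ)) : List (List ℕ) :=
  List.rec [] (fun r _ ih => zmul t r :: ih) M

noncomputable def hd (l : List ℕ) : ℕ := List.rec 0 (fun x _ _ => x) l
noncomputable def tl (l : List ℕ) : List ℕ := List.rec [] (fun _ xs _ => xs) l
noncomputable def hdr (l : List (List ℕ)) : List ℕ := List.rec [] (fun x _ _ => x) l
noncomputable def tlr (l : List (List ℕ)) : List (List ℕ) := List.rec [] (fun _ xs _ => xs) l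

@[simp] theorem zmul_nil_left (l' : List ℕ) : zmul [] l' = [] := rfl
@[simp] theorem zmul_nil_right (l : List ℕ) : zmul l [] = [] := by cases l <;> rfl
@[simp] theorem zmul_cons (x y : ℕ) (xs ys : List ℕ) :
    zmul (x :: xs) (y :: ys) = (x * y) :: zmul xs ys := rfl
@[simp] theorem zadd_nil_left (l' : List ℕ) : zadd [] l' = l' := rfl
@[simp] theorem zadd_nil_right (l : List ℕ) : zadd l [] = l := by cases l <;> rfl
@[simp] theorem zadd_cons (x y : ℕ) (xs ys : List ℕ) :
    zadd (x :: xs) (y :: ys) = (x + y) :: zadd xs ys := rfl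
@[simp] theorem smul_nil (c : ℕ) : smul c [] = [] := rfl
@[simp] theorem smul_cons (c x : ℕ) (xs : List ℕ) : smul c (x :: xs) = (c * x) :: smul c xs := rfl
@[simp] theorem dot_nil_left (l' : List ℕ) : dot [] l' = 0 := rfl
@[simp] theorem dot_nil_right (l : List ℕ) : dot l [] = 0 := by cases l <;> rfl
@[simp] theorem dot_cons (x y : ℕ) (xs ys : List ℕ) :
    dot (x :: xs) (y :: ys) = x * y + dot xs ys := rfl
@[simp] theorem zzadd_nil_left (l' : List (List ℕ)) : zzadd [] l' = l' := rfl
@[simp] theorem zzadd_nil_right (l : List (List ℕ)) : zzadd l [] = l := by cases l <;> rfl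
@[simp] theorem zzadd_cons (x y : List ℕ) (xs ys : List (List ℕ)) :
    zzadd (x :: xs) (y :: ys) = zadd x y :: zzadd xs ys := rfl
@[simp] theorem rmul_nil (t : List ℕ) : rmul t [] = [] := rfl
@[simp] theorem rmul_cons (t r : List ℕ) (M : List (List ℕ)) :
    rmul t (r :: M) = zmul t r :: rmul t M := rfl
@[simp] theorem hd_nil : hd [] = 0 := rfl
@[simp] theorem hd_cons (x : ℕ) (l : List ℕ) : hd (x :: l) = x := rfl
@[simp] theorem tl_nil : tl [] = [] := rfl
@[simp] theorem tl_cons (x : ℕ) (l : List ℕ) : tl (x :: l) = l := rfl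
@[simp] theorem hdr_nil : hdr [] = [] := rfl
@[simp] theorem hdr_cons (x : List ℕ) (l : List (List ℕ)) : hdr (x :: l) = x := rfl
@[simp] theorem tlr_nil : tlr [] = [] := rfl
@[simp] theorem tlr_cons (x : List ℕ) (l : List (List ℕ)) : tlr (x :: l) = l := rfl

theorem hd_eq (l : List ℕ) : hd l = l.getD 0 0 := by cases l <;> rfl
theorem hdr_eq (l : List (List ℕ)) : hdr l = l.getD 0 [] := by cases l <;> rfl

theorem tl_getD (l : List ℕ) (k : ℕ) : (tl l).getD k 0 = l.getD (k + 1) 0 := by
  cases l <;> simp

theorem tlr_getD (l : List (List ℕ)) (k : ℕ) : (tlr l).getD k [] = l.getD (k + 1) [] := by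
  cases l <;> simp

theorem zmul_getD (l l' : List ℕ) (k : ℕ) :
    (zmul l l').getD k 0 = l.getD k 0 * l'.getD k 0 := by
  induction l generalizing l' k with
  | nil => simp
  | cons x xs ih =>
    cases l' with
    | nil => simp
    | cons y ys =>
      cases k with
      | zero => simp
      | succ k => simpa using ih ys k

theorem zadd_getD (l l' : List ℕ) (k : ℕ) :
    (zadd l l').getD k 0 = l.getD k 0 + l'.getD k 0 := by
  induction l generalizing l' k with
  | nil => simp
  | cons x xs ih =>
    cases l' with
    | nil => simp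
    | cons y ys =>
      cases k with
      | zero => simp
      | succ k => simpa using ih ys k

theorem smul_getD (c : ℕ) (l : List ℕ) (k : ℕ) : (smul c l).getD k 0 = c * l.getD k 0 := by
  induction l generalizing k with
  | nil => simp
  | cons x xs ih =>
    cases k with
    | zero => simp
    | succ k => simpa using ih k

theorem zzadd_getD (A B : List (List ℕ)) (k : ℕ) :
    (zzadd A B).getD k [] = zadd (A.getD k []) (B.getD k []) := by
  induction A generalizing B k with
  | nil => simp
  | cons x xs ih =>
    cases B with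
    | nil => simp
    | cons y ys =>
      cases k with
      | zero => simp
      | succ k => simpa using ih ys k

theorem rmul_getD (t : List ℕ) (M : List (List ℕ)) (k : ℕ) :
    (rmul t M).getD k [] = zmul t (M.getD k []) := by
  induction M generalizing k with
  | nil => simp
  | cons x xs ih =>
    cases k with
    | zero => simp
    | succ k => simpa using ih k

theorem dot_eq (l l' : List ℕ) (n : ℕ) (h : l.length ≤ n) :
    dot l l' = ∑ k ∈ Finset.range n, l.getD k 0 * l'.getD k 0 := by
  induction l generalizing l' n with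
  | nil => simp
  | cons x xs ih =>
    cases l' with
    | nil => simp
    | cons y ys =>
      obtain ⟨n', rfl⟩ : ∃ n', n = n' + 1 := ⟨n - 1, by simp at h; omega⟩
      rw [Finset.sum_range_succ', dot_cons, ih ys n' (by simpa using h)]
      simp [add_comm]

/-! ## Semantics -/

/-- the list codes the function `f` (missing entries are `0`) -/
def Rp1 (l : List ℕ) (f : ℕ → GaussianInt) : Prop := ∀ k, Rp (l.getD k 0) (f k)

/-- the list of rows codes the function `F` -/
def Rp2 (M : List (List ℕ)) (F : ℕ → ℕ → GaussianInt) : Prop := ∀ i, Rp1 (M.getD i []) (F i)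

theorem Rp1.nil : Rp1 [] (fun _ => 0) := fun k => by simpa using Rp.zero

theorem Rp1.zmul {l l' : List ℕ} {f g : ℕ → GaussianInt} (h : Rp1 l f) (h' : Rp1 l' g) :
    Rp1 (Lmi.zmul l l') (fun k => f k * g k) := fun k => by
  rw [zmul_getD]; exact (h k).mul (h' k)

theorem Rp1.zadd {l l' : List ℕ} {f g : ℕ → GaussianInt} (h : Rp1 l f) (h' : Rp1 l' g) :
    Rp1 (Lmi.zadd l l') (fun k => f k + g k) := fun k => by
  rw [zadd_getD]; exact (h k).add (h' k)

theorem Rp1.smul {l : List ℕ} {f : ℕ → GaussianInt} {c : ℕ} {w : GaussianInt} (hc : Rp c w)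
    (h : Rp1 l f) : Rp1 (Lmi.smul c l) (fun k => w * f k) := fun k => by
  rw [smul_getD]; exact hc.mul (h k)

theorem Rp2.zzadd {A B : List (List ℕ)} {F G : ℕ → ℕ → GaussianInt} (h : Rp2 A F) (h' : Rp2 B G) :
    Rp2 (Lmi.zzadd A B) (fun i k => F i k + G i k) := fun i => by
  rw [zzadd_getD]; exact (h i).zadd (h' i)

theorem Rp2.rmul {t : List ℕ} {A : List (List ℕ)} {f : ℕ → GaussianInt}
    {F : ℕ → ℕ → GaussianInt} (ht : Rp1 t f) (h : Rp2 A F) :
    Rp2 (Lmi.rmul t A) (fun i k => f k * F i k) := fun i => by
  rw [rmul_getD]; exact ht.zmul (h i)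

theorem Rp.sum {n : ℕ} {f : ℕ → ℕ} {g : ℕ → GaussianInt} (h : ∀ k < n, Rp (f k) (g k)) :
    Rp (∑ k ∈ Finset.range n, f k) (∑ k ∈ Finset.range n, g k) := by
  induction n with
  | zero => simpa using Rp.zero
  | succ n ih =>
    rw [Finset.sum_range_succ, Finset.sum_range_succ]
    exact (ih fun k hk => h k (by omega)).add (h n (by omega))

theorem Rp1.dot {l l' : List ℕ} {f g : ℕ → GaussianInt} (h : Rp1 l f) (h' : Rp1 l' g) {n : ℕ}
    (hn : l.length ≤ n) :
    Rp (Lmi.dot l l') (∑ k ∈ Finset.range n, f k * g k) := by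
  rw [dot_eq l l' n hn]
  exact Rp.sum fun k _ => (h k).mul (h' k)

/-! ## Digits of the factor -/

/-- `2 ^ 58` -/
def B1 : ℕ := 288230376151711744
/-- `2 ^ 116` -/
def B2 : ℕ := 83076749736557242056487941267521536

theorem B1_eq : B1 = 2 ^ 58 := by norm_num [B1]
theorem B2_eq : B2 = B1 * B1 := by norm_num [B2, B1]

/-- `NN - 2 ^ 57 (1 + T)` -/
def cz : ℕ := 13407807929942597099574024998205846127479365820592393377723544756323045897963528265694794848541008094060950946836720839591192771720338908548021406538924033

/-- `NN - 2 ^ 92` -/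
def c1 : ℕ := 13407807929942597099574024998205846127479365820592393377723561443721764030073546976801874298166903427690031858186486050853753877860186412804912549409587201

/-- `2 ^ 92 T` -/
def c2 : ℕ := 573374653997517877902705223825521735199141247292070280934397209846730719022121202017504638277531421638656

/-- `NN + 2 ^ 149 - 2 ^ 149 T` -/
def c3 : ℕ := 13407807929942597099574024998205763495483267039517524388310057347341785479488176441649463717067494126966127319981881748555428858930483605769678089277669377

attribute [local irreducible] T NN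

theorem cz_eq : ((cz : ℕ) : ℤ) = NN - 2 ^ 57 * (1 + T) := by
  rw [NN_int, T_int]; norm_num [cz]

theorem c1_eq : ((c1 : ℕ) : ℤ) = NN - 2 ^ 92 := by
  rw [NN_int, T_int]; norm_num [c1]

theorem c2_eq : ((c2 : ℕ) : ℤ) = 2 ^ 92 * T := by
  rw [T_int]; norm_num [c2]

theorem c3_eq : ((c3 : ℕ) : ℤ) = NN + 2 ^ 149 - 2 ^ 149 * T := by
  rw [NN_int, T_int]; norm_num [c3]

attribute [local irreducible] cz c1 c2 c3 B1 B2

/-- code of a digit -/
noncomputable def conv (e : ℕ) : ℕ :=
  Nat.add (Nat.mod e B1) (Nat.add (Nat.mul T (Nat.div e B1)) cz)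

/-- code of `-2 ^ 92` times the conjugate of a digit -/
noncomputable def nconj (e : ℕ) : ℕ :=
  Nat.add (Nat.mul c1 (Nat.mod e B1)) (Nat.add (Nat.mul c2 (Nat.div e B1)) c3)

/-- value of a digit -/
def dec (e : ℕ) : GaussianInt := ⟨((e % B1 : ℕ) : ℤ) - 2 ^ 57, ((e / B1 : ℕ) : ℤ) - 2 ^ 57⟩

theorem conv_spec (e : ℕ) : Rp (conv e) (dec e) := by
  refine Rp.of_int 1 ?_
  have h : conv e = e % B1 + (T * (e / B1) + cz) := rfl
  rw [h]
  simp only [dec]
  push_cast
  rw [cz_eq]
  ring

theorem nconj_spec (e : ℕ) : Rp (nconj e) ((-2 ^ 92 : ℤ) * star (dec e)) := by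
  refine Rp.of_int (((e % B1 : ℕ) : ℤ) + 1) ?_
  have h : nconj e = c1 * (e % B1) + (c2 * (e / B1) + c3) := rfl
  rw [h]
  simp only [dec]
  push_cast
  rw [c1_eq, c2_eq, c3_eq]
  simp
  ring

theorem dec_bound {e : ℕ} (h : e < B2) : |(dec e).re| ≤ 2 ^ 57 ∧ |(dec e).im| ≤ 2 ^ 57 := by
  have hB : (B1 : ℤ) = 2 ^ 58 := by rw [B1_eq]; norm_num
  have hB0 : 0 < B1 := by rw [B1_eq]; positivity
  have h1 : e % B1 < B1 := Nat.mod_lt _ hB0
  have h2 : e / B1 < B1 := by
    rw [B2_eq] at h
    exact Nat.div_lt_of_lt_mul h
  have h1' : ((e % B1 : ℕ) : ℤ) < 2 ^ 58 := by rw [← hB]; exact_mod_cast h1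
  have h2' : ((e / B1 : ℕ) : ℤ) < 2 ^ 58 := by rw [← hB]; exact_mod_cast h2
  have h3 : (0 : ℤ) ≤ ((e % B1 : ℕ) : ℤ) := by positivity
  have h4 : (0 : ℤ) ≤ ((e / B1 : ℕ) : ℤ) := by positivity
  simp only [dec]
  constructor <;> rw [abs_le] <;> constructor <;> linarith

attribute [local irreducible] conv nconj

/-- the first `n` digits of `x` in base `2 ^ 116`, coded -/
noncomputable def convRow (n : ℕ) : ℕ → List ℕ :=
  Nat.rec (fun _ => []) (fun _ ih x => conv (Nat.mod x B2) :: ih (Nat.div x B2)) n

noncomputable def nconjRow (n : ℕ) : ℕ → List ℕ :=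
  Nat.rec (fun _ => []) (fun _ ih x => nconj (Nat.mod x B2) :: ih (Nat.div x B2)) n

/-- the entries of a packed row of length `n` -/
def ent (n x k : ℕ) : GaussianInt := if k < n then dec (x / B2 ^ k % B2) else 0

theorem convRow_zero (x : ℕ) : convRow 0 x = [] := rfl
theorem convRow_succ (n x : ℕ) :
    convRow (n + 1) x = conv (x % B2) :: convRow n (x / B2) := rfl
theorem nconjRow_zero (x : ℕ) : nconjRow 0 x = [] := rfl
theorem nconjRow_succ (n x : ℕ) :
    nconjRow (n + 1) x = nconj (x % B2) :: nconjRow n (x / B2) := rfl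

theorem convRow_length (n x : ℕ) : (convRow n x).length = n := by
  induction n generalizing x with
  | zero => rfl
  | succ n ih => rw [convRow_succ, List.length_cons, ih]

theorem ent_zero_left (x k : ℕ) : ent 0 x k = 0 := by unfold ent; rw [if_neg (by omega)]

theorem ent_zero (n x : ℕ) : ent (n + 1) x 0 = dec (x % B2) := by
  unfold ent; rw [if_pos (by omega), pow_zero, Nat.div_one]

theorem ent_succ (n x k : ℕ) : ent (n + 1) x (k + 1) = ent n (x / B2) k := by
  unfold ent
  rw [Nat.div_div_eq_div_mul, ← pow_succ']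
  by_cases h : k < n
  · rw [if_pos h, if_pos (by omega)]
  · rw [if_neg h, if_neg (by omega)]

theorem convRow_spec (n x : ℕ) : Rp1 (convRow n x) (ent n x) := by
  intro k
  induction n generalizing x k with
  | zero => rw [convRow_zero, ent_zero_left, List.getD_nil]; exact Rp.zero
  | succ n ih =>
    rw [convRow_succ]
    cases k with
    | zero => rw [List.getD_cons_zero, ent_zero]; exact conv_spec (x % B2)
    | succ k => rw [List.getD_cons_succ, ent_succ]; exact ih (x / B2) k

theorem nconjRow_spec (n x : ℕ) :
    Rp1 (nconjRow n x) (fun k => (-2 ^ 92 : ℤ) * star (ent n x k)) := by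
  intro k
  induction n generalizing x k with
  | zero =>
    rw [nconjRow_zero, List.getD_nil]
    simp only [ent_zero_left, star_zero, mul_zero]
    exact Rp.zero
  | succ n ih =>
    rw [nconjRow_succ]
    cases k with
    | zero =>
      rw [List.getD_cons_zero]
      simp only [ent_zero]
      exact nconj_spec (x % B2)
    | succ k =>
      rw [List.getD_cons_succ]
      simp only [ent_succ]
      exact ih (x / B2) k

theorem ent_bound (n x k : ℕ) : |(ent n x k).re| ≤ 2 ^ 57 ∧ |(ent n x k).im| ≤ 2 ^ 57 := by
  unfold ent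
  split_ifs
  · exact dec_bound (Nat.mod_lt _ (by rw [B2_eq, B1_eq]; positivity))
  · simp

/-! ## The test -/

/-- tests one row: `z` the codes of row `i` of the factor, `ws` the stack of conjugated rows
`i, i-1, ..., 0`, `ss` the entries `(i, i), (i, i-1), ...` of the matrix. -/
noncomputable def chkRow (z : List ℕ) (ws : List (List ℕ)) : List ℕ → Bool :=
  List.rec (fun _ => true)
    (fun w _ ih ss => and (small (Nat.add (hd ss) (dot z w))) (ih (tl ss))) ws

/-- tests all rows -/
noncomputable def chkAll (L : List ℕ) : ℕ → List (List ℕ) → List (List ℕ) → Bool :=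
  List.rec (fun _ _ _ => true)
    (fun l _ ih i ws S =>
      and (chkRow (convRow (Nat.succ i) l) (nconjRow (Nat.succ i) l :: ws) (hdr S))
        (ih (Nat.succ i) (nconjRow (Nat.succ i) l :: ws) (tlr S))) L

theorem chkRow_spec (z : List ℕ) (ws : List (List ℕ)) (ss : List ℕ) (h : chkRow z ws ss = true) :
    ∀ d < ws.length, small (ss.getD d 0 + dot z (ws.getD d [])) = true := by
  induction ws generalizing ss with
  | nil => intro d hd; simp at hd
  | cons w ws ih =>
    have h' : and (small (hd ss + dot z w)) (chkRow z ws (tl ss)) = true := h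
    rw [Bool.and_eq_true] at h'
    intro d hd
    cases d with
    | zero => rw [← hd_eq]; simpa using h'.1
    | succ d =>
      have := ih (tl ss) h'.2 d (by simpa using hd)
      rw [tl_getD] at this
      simpa using this

theorem chkAll_aux (L : List ℕ) : ∀ (i : ℕ) (ws S : List (List ℕ)) (pre : ℕ → ℕ),
    chkAll L i ws S = true → ws.length = i →
    (∀ d < i, ws.getD d [] = nconjRow (i - d) (pre (i - 1 - d))) →
    ∀ k < L.length, ∀ d ≤ i + k,
      small (((S.getD k []).getD d 0) + dot (convRow (i + k + 1) (L.getD k 0))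
        (nconjRow (i + k - d + 1)
          (if i + k - d < i then pre (i + k - d) else L.getD (i + k - d - i) 0))) = true := by
  induction L with
  | nil => intro i ws S pre _ _ _ k hk; simp at hk
  | cons l L ih =>
    intro i ws S pre h hlen hpre k hk d hd
    have h' : and (chkRow (convRow (i + 1) l) (nconjRow (i + 1) l :: ws) (hdr S))
        (chkAll L (i + 1) (nconjRow (i + 1) l :: ws) (tlr S)) = true := h
    rw [Bool.and_eq_true] at h'
    cases k with
    | zero =>
      have h1 := chkRow_spec _ _ _ h'.1 d (by simp; omega)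
      rw [hdr_eq] at h1
      cases d with
      | zero => simpa using h1
      | succ d =>
        have e1 : i + 0 - (d + 1) < i := by omega
        rw [if_pos e1]
        have e2 := hpre d (by omega)
        rw [List.getD_cons_succ, e2] at h1
        have e3 : i - d = i + 0 - (d + 1) + 1 := by omega
        have e4 : i - 1 - d = i + 0 - (d + 1) := by omega
        rw [e3, e4] at h1
        simpa using h1
    | succ k =>
      have h2 := ih (i + 1) (nconjRow (i + 1) l :: ws) (tlr S) (fun j => if j < i then pre j else l)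
        h'.2 (by simp [hlen]) ?_ k (by simpa using hk) d (by omega)
      · rw [tlr_getD] at h2
        have e0 : i + 1 + k = i + (k + 1) := by ring
        rw [e0] at h2
        rw [List.getD_cons_succ]
        have e5 : (if i + (k + 1) - d < i + 1 then
            (fun j => if j < i then pre j else l) (i + (k + 1) - d)
            else L.getD (i + (k + 1) - d - (i + 1)) 0) =
            (if i + (k + 1) - d < i then pre (i + (k + 1) - d)
              else (l :: L).getD (i + (k + 1) - d - i) 0) := by
          by_cases c1 : i + (k + 1) - d < i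
          · rw [if_pos c1, if_pos (by omega)]; simp [c1]
          · by_cases c2 : i + (k + 1) - d < i + 1
            · rw [if_pos c2, if_neg c1]
              have : i + (k + 1) - d - i = 0 := by omega
              rw [this]; simp [c1]
            · rw [if_neg c2, if_neg c1]
              have : i + (k + 1) - d - i = (i + (k + 1) - d - (i + 1)) + 1 := by omega
              rw [this, List.getD_cons_succ]
        rw [e5] at h2
        exact h2
      · intro d hd
        cases d with
        | zero => simp
        | succ d =>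
          rw [List.getD_cons_succ, hpre d (by omega)]
          have e1 : i + 1 - 1 - (d + 1) < i := by omega
          have e2 : i + 1 - (d + 1) = i - d := by omega
          have e3 : i + 1 - 1 - (d + 1) = i - 1 - d := by omega
          simp only [e2, if_pos e1]
          rw [e3]

theorem chkAll_spec (L : List ℕ) (S : List (List ℕ)) (h : chkAll L 0 [] S = true) :
    ∀ i < L.length, ∀ d ≤ i,
      small (((S.getD i []).getD d 0) + dot (convRow (i + 1) (L.getD i 0))
        (nconjRow (i - d + 1) (L.getD (i - d) 0))) = true := by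
  intro i hi d hd
  have := chkAll_aux L 0 [] S (fun _ => 0) h rfl (by intro d hd; omega) i hi d (by omega)
  simpa using this

end Pool.Agent.H93.Lmi
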