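import Pool.Agent.Lib.H93.LmiList

/-!
MP_fb0703_an, chunk E, part 3: powers of a rational point of the circle, with floor division.
-/

namespace Pool.Agent.H93.Lmi

open GaussianInt

/-- `2 ^ 61 (1 + T)` -/
def OT : ℕ := 266998379490113760299377713271194014325338065294581596243380200977777465722582374595879474561024

/-- `NN - 2 ^ 61 (1 + T)` -/
def cO : ℕ := 13407807929942597099574024998205846127479365820592393377723294445342273916313247599088603104152578089624737276590242670652776105346223987571837769531523073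

attribute [local irreducible] T NN

theorem OT_eq : OT = 2 ^ 61 + 2 ^ 61 * T := by rw [T_eq]; norm_num [OT]

theorem cO_eq : ((cO : ℕ) : ℤ) = NN - 2 ^ 61 * (1 + T) := by
  rw [NN_int, T_int]; norm_num [cO]

attribute [local irreducible] OT cO

/-- one step of the recurrence: coordinates of `E W / n`, rounded down -/
noncomputable def step (W n E : ℕ) : ℕ :=
  (fun m => Nat.add (Nat.div (Nat.mod m T) n)
      (Nat.add (Nat.mul T (Nat.div (Nat.div m T) n)) cO))
    (Nat.mod (Nat.add (Nat.mul E W) (Nat.mul n OT)) NN)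

/-- the list `E, E W / n, ...` of length `cnt` -/
noncomputable def pw (W n cnt : ℕ) : ℕ → List ℕ :=
  Nat.rec (fun _ => []) (fun _ ih E => E :: ih (step W n E)) cnt

theorem pw_zero (W n E : ℕ) : pw W n 0 E = [] := rfl
theorem pw_succ (W n cnt E : ℕ) : pw W n (cnt + 1) E = E :: pw W n cnt (step W n E) := rfl

theorem pw_length (W n cnt E : ℕ) : (pw W n cnt E).length = cnt := by
  induction cnt generalizing E with
  | zero => rfl
  | succ c ih => rw [pw_succ, List.length_cons, ih]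

/-- floor division of the coordinates -/
def fd (z : GaussianInt) (n : ℕ) : GaussianInt := ⟨z.re / n, z.im / n⟩

theorem step_spec {E W n : ℕ} {z w : GaussianInt} (hE : Rp E z) (hW : Rp W w) (hn : 0 < n)
    (hn' : n ≤ 2 ^ 180) (h1 : |(z * w).re| ≤ n * 2 ^ 61) (h2 : |(z * w).im| ≤ n * 2 ^ 61) :
    Rp (step W n E) (fd (z * w) n) := by
  have hc : n * OT = n * 2 ^ 61 + n * 2 ^ 61 * T := by rw [OT_eq]; ring
  have hT : (T : ℤ) = 2 ^ 256 := T_int
  have hn2 : (n : ℤ) ≤ 2 ^ 180 := by exact_mod_cast hn'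
  have hn3 : (0 : ℤ) < n := by exact_mod_cast hn
  have hcast : ((n * 2 ^ 61 : ℕ) : ℤ) = n * 2 ^ 61 := by push_cast; ring
  rw [abs_le] at h1 h2
  have h3 : (z * w).re + ((n * 2 ^ 61 : ℕ) : ℤ) < T := by
    rw [hcast, hT]; nlinarith [h1.2]
  have h4 : (z * w).im + ((n * 2 ^ 61 : ℕ) : ℤ) < T := by
    rw [hcast, hT]; nlinarith [h2.2]
  have hs := Rp.shift (hE.mul hW) (n * 2 ^ 61) (by rw [hcast]; exact h1.1) h3
    (by rw [hcast]; exact h2.1) h4
  rw [← hc] at hs
  obtain ⟨hs1, hs2⟩ := hs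
  have e : step W n E = (E * W + n * OT) % NN % T / n +
      (T * ((E * W + n * OT) % NN / T / n) + cO) := rfl
  rw [e]
  refine Rp.of_int 1 ?_
  simp only [fd]
  have e1 : (((E * W + n * OT) % NN % T / n : ℕ) : ℤ) = (z * w).re / n + 2 ^ 61 := by
    rw [Int.natCast_div, hs1, hcast, mul_comm (n : ℤ), Int.add_mul_ediv_right _ _ hn3.ne']
  have e2 : (((E * W + n * OT) % NN / T / n : ℕ) : ℤ) = (z * w).im / n + 2 ^ 61 := by
    rw [Int.natCast_div, hs2, hcast, mul_comm (n : ℤ), Int.add_mul_ediv_right _ _ hn3.ne']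
  rw [Nat.cast_add, Nat.cast_add, Nat.cast_mul, e1, e2, cO_eq]
  ring

/-- the exact sequence of Gaussian integers computed by `pw` -/
def zs (w : GaussianInt) (n : ℕ) (z0 : GaussianInt) : ℕ → GaussianInt
  | 0 => z0
  | k + 1 => fd (zs w n z0 k * w) n

theorem abs_sub_floor_div (a : ℤ) {n : ℕ} (hn : 0 < n) :
    |((a / (n : ℤ) : ℤ) : ℝ) - (a : ℝ) / n| ≤ 1 := by
  have hn3 : (0 : ℝ) < n := by exact_mod_cast hn
  have hn4 : (0 : ℤ) < n := by exact_mod_cast hn
  have h1 := Int.emod_add_mul_ediv a n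
  have h2 := Int.emod_nonneg a hn4.ne'
  have h3 := Int.emod_lt_of_pos a hn4
  have h1' : ((a % (n : ℤ) : ℤ) : ℝ) + n * ((a / (n : ℤ) : ℤ) : ℝ) = a := by exact_mod_cast h1
  have h2' : (0 : ℝ) ≤ ((a % (n : ℤ) : ℤ) : ℝ) := by exact_mod_cast h2
  have h3' : ((a % (n : ℤ) : ℤ) : ℝ) < n := by exact_mod_cast h3
  have e : ((a / (n : ℤ) : ℤ) : ℝ) - (a : ℝ) / n = - (((a % (n : ℤ) : ℤ) : ℝ) / n) := by
    rw [← h1']; field_simp; ring
  rw [e, abs_neg, abs_of_nonneg (by positivity), div_le_one hn3]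
  exact h3'.le

theorem norm_fd_sub (z : GaussianInt) {n : ℕ} (hn : 0 < n) :
    ‖(fd z n : ℂ) - (z : ℂ) / n‖ ≤ 2 := by
  have hn3 : (n : ℝ) ≠ 0 := by positivity
  have h1 := abs_sub_floor_div z.re hn
  have h2 := abs_sub_floor_div z.im hn
  refine (Complex.norm_le_abs_re_add_abs_im _).trans ?_
  have e : (z : ℂ) / n = ⟨(z.re : ℝ) / n, (z.im : ℝ) / n⟩ := by
    rw [toComplex_def₂]
    apply Complex.ext
    · have := Complex.div_natCast_re (⟨z.re, z.im⟩ : ℂ) n
      simpa using this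
    · have := Complex.div_natCast_im (⟨z.re, z.im⟩ : ℂ) n
      simpa using this
  have e1 : ((fd z n : ℂ) - (z : ℂ) / n).re = ((z.re / (n : ℤ) : ℤ) : ℝ) - (z.re : ℝ) / n := by
    rw [Complex.sub_re, e, toComplex_def₂]; rfl
  have e2 : ((fd z n : ℂ) - (z : ℂ) / n).im = ((z.im / (n : ℤ) : ℤ) : ℝ) - (z.im : ℝ) / n := by
    rw [Complex.sub_im, e, toComplex_def₂]; rfl
  rw [e1, e2]
  linarith

theorem zs_error (w : GaussianInt) {n : ℕ} (hn : 0 < n) (hw : ‖(w : ℂ)‖ ≤ n) (z0 : GaussianInt)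
    (k : ℕ) : ‖(zs w n z0 k : ℂ) - z0 * ((w : ℂ) / n) ^ k‖ ≤ 2 * k := by
  have hn3 : (0 : ℝ) < n := by exact_mod_cast hn
  induction k with
  | zero => simp [zs]
  | succ k ih =>
    have h1 := norm_fd_sub (zs w n z0 k * w) hn
    have e : (zs w n z0 (k + 1) : ℂ) - z0 * ((w : ℂ) / n) ^ (k + 1) =
        ((fd (zs w n z0 k * w) n : ℂ) - ((zs w n z0 k * w : GaussianInt) : ℂ) / n) +
          ((zs w n z0 k : ℂ) - z0 * ((w : ℂ) / n) ^ k) * ((w : ℂ) / n) := by
      rw [zs, toComplex_mul]; ring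
    rw [e]
    refine (norm_add_le _ _).trans ?_
    have h2 : ‖(w : ℂ) / n‖ ≤ 1 := by
      rw [norm_div, Complex.norm_natCast, div_le_one hn3]; exact hw
    rw [norm_mul]
    have h3 : ‖(zs w n z0 k : ℂ) - z0 * ((w : ℂ) / n) ^ k‖ * ‖(w : ℂ) / n‖ ≤ 2 * k * 1 :=
      mul_le_mul ih h2 (norm_nonneg _) (by positivity)
    push_cast
    linarith

theorem norm_zs_le (w : GaussianInt) {n : ℕ} (hn : 0 < n) (hw : ‖(w : ℂ)‖ ≤ n)
    (z0 : GaussianInt) (k : ℕ) : ‖(zs w n z0 k : ℂ)‖ ≤ ‖(z0 : ℂ)‖ + 2 * k := by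
  have hn3 : (0 : ℝ) < n := by exact_mod_cast hn
  have h1 := zs_error w hn hw z0 k
  have h2 : ‖(w : ℂ) / n‖ ≤ 1 := by
    rw [norm_div, Complex.norm_natCast, div_le_one hn3]; exact hw
  have h3 : ‖z0 * ((w : ℂ) / n) ^ k‖ ≤ ‖(z0 : ℂ)‖ := by
    rw [norm_mul, norm_pow]
    exact mul_le_of_le_one_right (norm_nonneg _) (pow_le_one₀ (norm_nonneg _) h2)
  have h4 : ‖(zs w n z0 k : ℂ)‖ ≤
      ‖(zs w n z0 k : ℂ) - z0 * ((w : ℂ) / n) ^ k‖ + ‖z0 * ((w : ℂ) / n) ^ k‖ := by
    have := norm_add_le ((zs w n z0 k : ℂ) - z0 * ((w : ℂ) / n) ^ k) (z0 * ((w : ℂ) / n) ^ k)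
    simpa using this
  linarith

theorem abs_re_le (z : GaussianInt) : (|z.re| : ℝ) ≤ ‖(z : ℂ)‖ := by
  have := Complex.abs_re_le_norm (z : ℂ)
  rwa [← intCast_re] at this

theorem abs_im_le (z : GaussianInt) : (|z.im| : ℝ) ≤ ‖(z : ℂ)‖ := by
  have := Complex.abs_im_le_norm (z : ℂ)
  rwa [← intCast_im] at this

/-- the codes computed by `pw` -/
theorem pw_spec {W n : ℕ} {w : GaussianInt} (hW : Rp W w) (hn : 0 < n) (hn' : n ≤ 2 ^ 180)
    (hw : ‖(w : ℂ)‖ ≤ n) {E : ℕ} {z0 : GaussianInt} (hE : Rp E z0) (hz0 : ‖(z0 : ℂ)‖ ≤ 2 ^ 60)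
    {cnt : ℕ} (hcnt : cnt ≤ 1000) :
    Rp1 (pw W n cnt E) (fun k => if k < cnt then zs w n z0 k else 0) := by
  -- general statement along the list
  have key : ∀ (c i : ℕ) (E' : ℕ), Rp E' (zs w n z0 i) → i + c ≤ 1000 →
      ∀ k, Rp ((pw W n c E').getD k 0) (if k < c then zs w n z0 (i + k) else 0) := by
    intro c
    induction c with
    | zero =>
      intro i E' _ _ k
      rw [pw_zero, List.getD_nil, if_neg (by omega)]
      exact Rp.zero
    | succ c ih =>
      intro i E' hE' hic k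
      rw [pw_succ]
      cases k with
      | zero => rw [List.getD_cons_zero, if_pos (by omega), add_zero]; exact hE'
      | succ k =>
        rw [List.getD_cons_succ]
        have hb : ‖((zs w n z0 i * w : GaussianInt) : ℂ)‖ ≤ n * 2 ^ 61 := by
          rw [toComplex_mul, norm_mul]
          have h1 := norm_zs_le w hn hw z0 i
          have h2 : (i : ℝ) ≤ 1000 := by exact_mod_cast (by omega : i ≤ 1000)
          calc ‖(zs w n z0 i : ℂ)‖ * ‖(w : ℂ)‖ ≤ 2 ^ 61 * n := by
                apply mul_le_mul _ hw (norm_nonneg _) (by positivity)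
                linarith
            _ = n * 2 ^ 61 := by ring
        have h3 : Rp (step W n E') (zs w n z0 (i + 1)) := by
          apply step_spec hE' hW hn hn'
          · have := (abs_re_le (zs w n z0 i * w)).trans hb
            exact_mod_cast this
          · have := (abs_im_le (zs w n z0 i * w)).trans hb
            exact_mod_cast this
        have h4 := ih (i + 1) (step W n E') h3 (by omega) k
        by_cases hk : k < c
        · rw [if_pos hk] at h4
          rw [if_pos (by omega)]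
          have e : i + 1 + k = i + (k + 1) := by ring
          rwa [e] at h4
        · rw [if_neg hk] at h4
          rw [if_neg (by omega)]
          exact h4
  intro k
  have := key cnt 0 E (by simpa [zs] using hE) (by omega) k
  simpa using this

end Pool.Agent.H93.Lmi
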