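import Pool.Agent.Lib.H93.LmiPow

/-!
MP_fb0703_an, chunk E: rows of the target matrix (`arows`), rank one rows, diagonal rows,
codes of integers.
-/

namespace Pool.Agent.H93.Lmi

open GaussianInt

attribute [local irreducible] T NN

/-- rows of minus the target matrix: `al` the codes of `α_j`, `ga` of `-conj α_j`, `v` of `v_j`,
`nv` of `-conj v_j`, `Mt` the rows `1, 2, ...` of the Gram matrix, `nq` the codes of `-q^d`,
`sb`, `sa` stacks. -/
noncomputable def arows (M00 : ℕ) (nq al : List ℕ) :
    List ℕ → List ℕ → List ℕ → List (List ℕ) → List ℕ → List ℕ → List (List ℕ) :=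
  List.rec (fun _ _ _ _ _ _ => [])
    (fun a al' ih ga v nv Mt sb sa =>
      List.rec
        [smul (hd ga) (Nat.mul M00 a :: sb)]
        (fun _ _ _ =>
          zadd (smul (hd ga) (Nat.add (Nat.mul M00 a) (hd v) :: sb))
            (zadd (smul (hd nv) (a :: sa)) (zmul nq (hdr Mt))) ::
            ih (tl ga) (tl v) (tl nv) (tlr Mt) (Nat.add (Nat.mul M00 a) (hd v) :: sb) (a :: sa))
        al') al

theorem arows_nil (M00 : ℕ) (nq ga v nv : List ℕ) (Mt : List (List ℕ)) (sb sa : List ℕ) :
    arows M00 nq [] ga v nv Mt sb sa = [] := rfl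

theorem arows_single (M00 : ℕ) (nq : List ℕ) (a : ℕ) (ga v nv : List ℕ) (Mt : List (List ℕ))
    (sb sa : List ℕ) :
    arows M00 nq [a] ga v nv Mt sb sa = [smul (hd ga) (M00 * a :: sb)] := rfl

theorem arows_cons (M00 : ℕ) (nq : List ℕ) (a a' : ℕ) (al ga v nv : List ℕ) (Mt : List (List ℕ))
    (sb sa : List ℕ) :
    arows M00 nq (a :: a' :: al) ga v nv Mt sb sa =
      zadd (smul (hd ga) ((M00 * a + hd v) :: sb))
        (zadd (smul (hd nv) (a :: sa)) (zmul nq (hdr Mt))) ::
      arows M00 nq (a' :: al) (tl ga) (tl v) (tl nv) (tlr Mt) ((M00 * a + hd v) :: sb) (a :: sa) :=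
  rfl

/-- value of the entries of `arows` -/
def AZ (m : ℕ) (M00 : GaussianInt) (nq al ga v nv : ℕ → GaussianInt)
    (Mt : ℕ → ℕ → GaussianInt) (i d : ℕ) : GaussianInt :=
  ga i * (M00 * al (i - d) + (if i - d + 1 < m then v (i - d) else 0)) +
    (if i + 1 < m then nv i * al (i - d) + nq d * Mt i d else 0)

theorem arows_aux (m : ℕ) {M00 : ℕ} {M00z : GaussianInt} (hM : Rp M00 M00z) {nq : List ℕ}
    {nqz : ℕ → GaussianInt} (hnq : ∀ k < m, Rp (nq.getD k 0) (nqz k)) {alz gaz vz nvz : ℕ → GaussianInt}
    {Mz : ℕ → ℕ → GaussianInt} :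
    ∀ (al : List ℕ) (i : ℕ) (ga v nv : List ℕ) (Mt : List (List ℕ)) (sb sa : List ℕ),
      i + al.length = m →
      (∀ k < al.length, Rp (al.getD k 0) (alz (i + k))) →
      (∀ k < al.length, Rp (ga.getD k 0) (gaz (i + k))) →
      (∀ k < al.length, Rp (v.getD k 0) (vz (i + k))) →
      (∀ k < al.length, Rp (nv.getD k 0) (nvz (i + k))) →
      (∀ k < al.length, Rp1 (Mt.getD k []) (Mz (i + k))) →
      (∀ k < i, Rp (sb.getD k 0)
        (M00z * alz (i - 1 - k) + (if i - 1 - k + 1 < m then vz (i - 1 - k) else 0))) →
      (∀ k < i, Rp (sa.getD k 0) (alz (i - 1 - k))) →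
      ∀ j < al.length, ∀ d ≤ i + j,
        Rp (((arows M00 nq al ga v nv Mt sb sa).getD j []).getD d 0)
          (AZ m M00z nqz alz gaz vz nvz Mz (i + j) d) := by
  intro al
  induction al with
  | nil => intro i ga v nv Mt sb sa _ _ _ _ _ _ _ _ j hj; simp at hj
  | cons a al ih =>
    intro i ga v nv Mt sb sa hlen hal hga hv hnv hMt hsb hsa j hj d hdi
    have ha : Rp a (alz i) := by simpa using hal 0 (by simp)
    have hga0 : Rp (hd ga) (gaz i) := by rw [hd_eq]; simpa using hga 0 (by simp)
    have hv0 : Rp (hd v) (vz i) := by rw [hd_eq]; simpa using hv 0 (by simp)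
    have hnv0 : Rp (hd nv) (nvz i) := by rw [hd_eq]; simpa using hnv 0 (by simp)
    have hMt0 : Rp1 (hdr Mt) (Mz i) := by rw [hdr_eq]; simpa using hMt 0 (by simp)
    cases al with
    | nil =>
      have hj0 : j = 0 := by simpa using hj
      subst hj0
      have him : i + 1 = m := by simpa using hlen
      rw [arows_single, List.getD_cons_zero, smul_getD, AZ]
      rw [if_neg (by omega : ¬ (i + 0 + 1 < m)), add_zero, add_zero]
      refine hga0.mul ?_
      cases d with
      | zero =>
        rw [List.getD_cons_zero, Nat.sub_zero, if_neg (by omega), add_zero]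
        exact hM.mul ha
      | succ d =>
        rw [List.getD_cons_succ]
        have h1 := hsb d (by omega)
        have e : i - (d + 1) = i - 1 - d := by omega
        rw [e]
        exact h1
    | cons a' al =>
      have him : i + 1 < m := by simp at hlen; omega
      rw [arows_cons]
      have hb : Rp (M00 * a + hd v) (M00z * alz i + (if i + 1 < m then vz i else 0)) := by
        rw [if_pos him]; exact (hM.mul ha).add hv0
      have hsb' : ∀ k < i + 1, Rp (((M00 * a + hd v) :: sb).getD k 0)
          (M00z * alz (i - k) + (if i - k + 1 < m then vz (i - k) else 0)) := by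
        intro k hk
        cases k with
        | zero => rw [List.getD_cons_zero, Nat.sub_zero]; exact hb
        | succ k =>
          rw [List.getD_cons_succ]
          have h1 := hsb k (by omega)
          have e : i - (k + 1) = i - 1 - k := by omega
          rw [e]
          exact h1
      have hsa' : ∀ k < i + 1, Rp ((a :: sa).getD k 0) (alz (i - k)) := by
        intro k hk
        cases k with
        | zero => rw [List.getD_cons_zero, Nat.sub_zero]; exact ha
        | succ k =>
          rw [List.getD_cons_succ]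
          have h1 := hsa k (by omega)
          have e : i - (k + 1) = i - 1 - k := by omega
          rw [e]
          exact h1
      cases j with
      | zero =>
        rw [List.getD_cons_zero, zadd_getD, zadd_getD, smul_getD, smul_getD, zmul_getD, add_zero,
          AZ, if_pos him]
        exact (hga0.mul (hsb' d (by omega))).add
          ((hnv0.mul (hsa' d (by omega))).add ((hnq d (by omega)).mul (hMt0 d)))
      | succ j =>
        rw [List.getD_cons_succ]
        have e0 : i + (j + 1) = i + 1 + j := by ring
        rw [e0]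
        apply ih (i + 1) (tl ga) (tl v) (tl nv) (tlr Mt) _ _ (by simp at hlen ⊢; omega)
        · intro k hk
          have := hal (k + 1) (by simpa using hk)
          rw [List.getD_cons_succ] at this
          have e : i + 1 + k = i + (k + 1) := by ring
          rw [e]; exact this
        · intro k hk
          rw [tl_getD]
          have e : i + 1 + k = i + (k + 1) := by ring
          rw [e]; exact hga (k + 1) (by simpa using hk)
        · intro k hk
          rw [tl_getD]
          have e : i + 1 + k = i + (k + 1) := by ring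
          rw [e]; exact hv (k + 1) (by simpa using hk)
        · intro k hk
          rw [tl_getD]
          have e : i + 1 + k = i + (k + 1) := by ring
          rw [e]; exact hnv (k + 1) (by simpa using hk)
        · intro k hk
          rw [tlr_getD]
          have e : i + 1 + k = i + (k + 1) := by ring
          rw [e]; exact hMt (k + 1) (by simpa using hk)
        · intro k hk
          have := hsb' k hk
          have e : i + 1 - 1 - k = i - k := by omega
          rw [e]; exact this
        · intro k hk
          have := hsa' k hk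
          have e : i + 1 - 1 - k = i - k := by omega
          rw [e]; exact this
        · simpa using hj
        · omega

/-- entries of `arows` started with empty stacks -/
theorem arows_spec {m : ℕ} {M00 : ℕ} {M00z : GaussianInt} (hM : Rp M00 M00z) {nq : List ℕ}
    {nqz : ℕ → GaussianInt} (hnq : ∀ k < m, Rp (nq.getD k 0) (nqz k))
    {alz gaz vz nvz : ℕ → GaussianInt}
    {Mz : ℕ → ℕ → GaussianInt} {al ga v nv : List ℕ} {Mt : List (List ℕ)}
    (hlen : al.length = m) (hal : ∀ k < m, Rp (al.getD k 0) (alz k))
    (hga : ∀ k < m, Rp (ga.getD k 0) (gaz k)) (hv : ∀ k < m, Rp (v.getD k 0) (vz k))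
    (hnv : ∀ k < m, Rp (nv.getD k 0) (nvz k)) (hMt : ∀ k < m, Rp1 (Mt.getD k []) (Mz k))
    {i d : ℕ} (hi : i < m) (hd : d ≤ i) :
    Rp (((arows M00 nq al ga v nv Mt [] []).getD i []).getD d 0)
      (AZ m M00z nqz alz gaz vz nvz Mz i d) := by
  have h := arows_aux m hM hnq (alz := alz) (gaz := gaz) (vz := vz) (nvz := nvz) (Mz := Mz)
    al 0 ga v nv Mt [] [] (by omega) (by intro k hk; simpa using hal k (by omega))
    (by intro k hk; simpa using hga k (by omega)) (by intro k hk; simpa using hv k (by omega))
    (by intro k hk; simpa using hnv k (by omega)) (by intro k hk; simpa using hMt k (by omega))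
    (by intro k hk; omega) (by intro k hk; omega) i (by omega) d (by omega)
  simpa using h

/-! ## rank one rows -/

/-- rows `c f_i (f_i, f_{i-1}, ..., f_0)` -/
noncomputable def frows (c : ℕ) (f : List ℕ) : List ℕ → List (List ℕ) :=
  List.rec (fun _ => []) (fun a _ ih st => smul (Nat.mul c a) (a :: st) :: ih (a :: st)) f

theorem frows_cons (c a : ℕ) (f st : List ℕ) :
    frows c (a :: f) st = smul (c * a) (a :: st) :: frows c f (a :: st) := rfl

theorem frows_aux {c : ℕ} {cz : GaussianInt} (hc : Rp c cz) {fz : ℕ → GaussianInt} :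
    ∀ (f : List ℕ) (i : ℕ) (st : List ℕ), (∀ k < f.length, Rp (f.getD k 0) (fz (i + k))) →
      (∀ k < i, Rp (st.getD k 0) (fz (i - 1 - k))) →
      ∀ j < f.length, ∀ d ≤ i + j,
        Rp (((frows c f st).getD j []).getD d 0) (cz * fz (i + j) * fz (i + j - d)) := by
  intro f
  induction f with
  | nil => intro i st _ _ j hj; simp at hj
  | cons a f ih =>
    intro i st hf hst j hj d hd
    have ha : Rp a (fz i) := by simpa using hf 0 (by simp)
    rw [frows_cons]
    have hst' : ∀ k < i + 1, Rp ((a :: st).getD k 0) (fz (i - k)) := by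
      intro k hk
      cases k with
      | zero => rw [List.getD_cons_zero, Nat.sub_zero]; exact ha
      | succ k =>
        rw [List.getD_cons_succ]
        have h1 := hst k (by omega)
        have e : i - (k + 1) = i - 1 - k := by omega
        rw [e]
        exact h1
    cases j with
    | zero =>
      rw [List.getD_cons_zero, smul_getD, add_zero]
      exact (hc.mul ha).mul (hst' d (by omega))
    | succ j =>
      rw [List.getD_cons_succ]
      have e0 : i + (j + 1) = i + 1 + j := by ring
      rw [e0]
      apply ih (i + 1) (a :: st)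
      · intro k hk
        have := hf (k + 1) (by simpa using hk)
        rw [List.getD_cons_succ] at this
        have e : i + 1 + k = i + (k + 1) := by ring
        rw [e]; exact this
      · intro k hk
        have := hst' k hk
        have e : i + 1 - 1 - k = i - k := by omega
        rw [e]; exact this
      · simpa using hj
      · omega

theorem frows_spec {c : ℕ} {cz : GaussianInt} (hc : Rp c cz) {fz : ℕ → GaussianInt} {f : List ℕ}
    (hf : ∀ k < f.length, Rp (f.getD k 0) (fz k)) {i d : ℕ} (hi : i < f.length) (hd : d ≤ i) :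
    Rp (((frows c f []).getD i []).getD d 0) (cz * fz i * fz (i - d)) := by
  have h := frows_aux hc (fz := fz) f 0 [] (by intro k hk; simpa using hf k hk)
    (by intro k hk; omega) i hi d (by omega)
  simpa using h

/-! ## diagonal rows -/

/-- rows `(c x)` -/
noncomputable def drows (c : ℕ) (l : List ℕ) : List (List ℕ) :=
  List.rec [] (fun x _ ih => [Nat.mul c x] :: ih) l

theorem drows_cons (c x : ℕ) (l : List ℕ) : drows c (x :: l) = [c * x] :: drows c l := rfl

theorem drows_getD (c : ℕ) (l : List ℕ) (i d : ℕ) :
    ((drows c l).getD i []).getD d 0 = if d = 0 then c * l.getD i 0 else 0 := by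
  induction l generalizing i with
  | nil => simp [drows]
  | cons x l ih =>
    rw [drows_cons]
    cases i with
    | zero => cases d <;> simp
    | succ i => simpa using ih i

theorem drows_spec (c : ℕ) (l : List ℕ) :
    Rp2 (drows c l) (fun i d => if d = 0 then ((c * l.getD i 0 : ℕ) : GaussianInt) else 0) := by
  intro i d
  rw [drows_getD]
  by_cases h : d = 0
  · simp only [h, if_true]; exact Rp.nat _
  · simp only [h, if_false]; exact Rp.zero

/-! ## codes of integers -/

/-- `NN - 1` -/
def NN1 : ℕ := 13407807929942597099574024998205846127479365820592393377723561443721764030073546976801874298166903427690031858186486050853753882811946569946433649006084096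

theorem NN1_eq : ((NN1 : ℕ) : ℤ) = NN - 1 := by
  rw [NN_int, T_int]; norm_num [NN1]

attribute [local irreducible] NN1

/-- code of an integer -/
noncomputable def icode (a : ℤ) : ℕ := Int.rec (fun n => n) (fun n => Nat.mul NN1 (Nat.succ n)) a

/-- code of minus an integer -/
noncomputable def ncode (a : ℤ) : ℕ := Int.rec (fun n => Nat.mul NN1 n) (fun n => Nat.succ n) a

/-- absolute value -/
noncomputable def absI (a : ℤ) : ℕ := Int.rec (fun n => n) (fun n => Nat.succ n) a

theorem icode_spec (a : ℤ) : Rp (icode a) ⟨a, 0⟩ := by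
  cases a with
  | ofNat n =>
    refine Rp.of_int 0 ?_
    have h : icode (Int.ofNat n) = n := rfl
    rw [h]; simp
  | negSucc n =>
    refine Rp.of_int (n + 1) ?_
    have h : icode (Int.negSucc n) = NN1 * (n + 1) := rfl
    rw [h]
    push_cast
    rw [NN1_eq, Int.negSucc_eq]
    ring

theorem ncode_spec (a : ℤ) : Rp (ncode a) ⟨-a, 0⟩ := by
  cases a with
  | ofNat n =>
    refine Rp.of_int n ?_
    have h : ncode (Int.ofNat n) = NN1 * n := rfl
    rw [h]
    push_cast
    rw [NN1_eq]
    simp
    ring
  | negSucc n =>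
    refine Rp.of_int 0 ?_
    have h : ncode (Int.negSucc n) = n + 1 := rfl
    rw [h]
    push_cast
    rw [Int.negSucc_eq]
    ring

theorem absI_eq (a : ℤ) : absI a = a.natAbs := by
  cases a with
  | ofNat n => rfl
  | negSucc n => rfl

/-- code of `p + i q` -/
noncomputable def cpair (z : ℤ × ℤ) : ℕ := Nat.add (icode z.1) (Nat.mul T (icode z.2))

/-- code of `p - i q` -/
noncomputable def cpairc (z : ℤ × ℤ) : ℕ := Nat.add (icode z.1) (Nat.mul T (ncode z.2))

theorem Rp.T : Rp Lmi.T ⟨0, 1⟩ := by
  refine Rp.of_int 0 ?_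
  simp

theorem cpair_spec (z : ℤ × ℤ) : Rp (cpair z) ⟨z.1, z.2⟩ := by
  have h : cpair z = icode z.1 + Lmi.T * icode z.2 := rfl
  rw [h]
  have := (icode_spec z.1).add (Rp.T.mul (icode_spec z.2))
  have e : (⟨z.1, z.2⟩ : GaussianInt) = ⟨z.1, 0⟩ + ⟨0, 1⟩ * ⟨z.2, 0⟩ := by
    apply Zsqrtd.ext <;> simp
  rw [e]; exact this

theorem cpairc_spec (z : ℤ × ℤ) : Rp (cpairc z) ⟨z.1, -z.2⟩ := by
  have h : cpairc z = icode z.1 + Lmi.T * ncode z.2 := rfl
  rw [h]
  have := (icode_spec z.1).add (Rp.T.mul (ncode_spec z.2))
  have e : (⟨z.1, -z.2⟩ : GaussianInt) = ⟨z.1, 0⟩ + ⟨0, 1⟩ * ⟨-z.2, 0⟩ := by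
    apply Zsqrtd.ext <;> simp
  rw [e]; exact this

/-- `p² + q²` -/
noncomputable def nrm (z : ℤ × ℤ) : ℕ :=
  Nat.add (Nat.mul (absI z.1) (absI z.1)) (Nat.mul (absI z.2) (absI z.2))

theorem nrm_eq (z : ℤ × ℤ) : ((nrm z : ℕ) : ℤ) = z.1 ^ 2 + z.2 ^ 2 := by
  have h : nrm z = absI z.1 * absI z.1 + absI z.2 * absI z.2 := rfl
  rw [h, absI_eq, absI_eq]
  push_cast
  rw [← sq, ← sq, sq_abs, sq_abs]

end Pool.Agent.H93.Lmi
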