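import Pool.Agent.Lib.H93.LocalExpand

/-!
Chunk D: local exactness of the form 0 near `ζ = 1` (definitions: `LocalDefs.lean`;
D3 numerical facts: `LocalDefs.lean`; D2: `LocalLower.lean`; D1: `LocalExpand.lean`).
-/

namespace Pool.Agent.H93

open Filter Topology ComplexConjugate

namespace Crit

variable (K : Crit)

theorem local_exact {x : ℕ → ℂ} (hx : Bdd x) {z : ℝ} (hz : |z| ≤ 1 / 3300) :
    K.N 0 (K.A (Complex.exp (z * Complex.I)) x) ≤
      K.N 0 (rot (Complex.exp ((11 / 20 * z : ℝ) * Complex.I)) x) := by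
  have hsx : K.s (K.y x) = 0 := by
    have h1 : K.y x = fun j => x j + (-K.s x) * K.xs j := by
      funext j; simp [Crit.y]; ring
    rw [h1, K.s_add hx (⟨‖K.s x‖, fun j => by rw [norm_mul, norm_neg, K.norm_xs, mul_one]⟩),
      K.s_smul, K.s_xs]; ring
  have hyb : Bdd (K.y x) := by
    obtain ⟨C, hC⟩ := hx
    refine ⟨C + ‖K.s x‖, fun j => ?_⟩
    calc ‖K.y x j‖ ≤ ‖x j‖ + ‖K.s x * K.xs j‖ := norm_sub_le _ _
      _ ≤ _ := by rw [norm_mul, K.norm_xs, mul_one]; gcongr; exact hC j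
  have h1 := K.local_expand hx hz
  have h2 := K.M0_lower (z * K.s x) hyb hsx
  have h3 : ‖(z : ℂ) * K.s x‖ ^ 2 = z ^ 2 * ‖K.s x‖ ^ 2 := by
    rw [norm_mul, mul_pow, Complex.norm_real, Real.norm_eq_abs, sq_abs]
  rw [h3] at h2
  have h4 : 0 ≤ 10 * z ^ 2 * ‖K.s x‖ ^ 2 + Wn (K.y x) := by
    have := Wn_nonneg (K.y x); positivity
  have h5 : 23 / 2 * |z| * (10 * z ^ 2 * ‖K.s x‖ ^ 2 + Wn (K.y x)) ≤
      0.0035 * (10 * (z ^ 2 * ‖K.s x‖ ^ 2) + Wn (K.y x)) := by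
    have : 23 / 2 * |z| ≤ 0.0035 := by linarith
    nlinarith
  linarith

end Crit

end Pool.Agent.H93
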