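import Mathlib

/-!
General lemmas for chunk D1: Cauchy-Schwarz for series, Minkowski type inequalities, Taylor
estimates of `exp (i t)`, sums of sequences with a geometric tail.
-/

set_option autoImplicit false

namespace Pool.Agent.H93.LocalAux

open Filter Topology ComplexConjugate

lemma cs_tsum {f g : ℕ → ℝ} (hf : ∀ i, 0 ≤ f i) (hg : ∀ i, 0 ≤ g i)
    (hf2 : Summable fun i => f i ^ 2) (hg2 : Summable fun i => g i ^ 2) :
    (Summable fun i => f i * g i) ∧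
      ∑' i, f i * g i ≤ √(∑' i, f i ^ 2) * √(∑' i, g i ^ 2) := by
  have hpq : (2 : ℝ).HolderConjugate 2 := Real.HolderConjugate.two_two
  have h1 := Real.summable_mul_of_Lp_Lq_of_nonneg hpq hf hg
    (by simpa using hf2) (by simpa using hg2)
  have h2 := Real.inner_le_Lp_mul_Lq_tsum_of_nonneg hpq hf hg
    (by simpa using hf2) (by simpa using hg2)
  refine ⟨h1, ?_⟩
  simp only [Real.rpow_ofNat] at h2
  rwa [Real.sqrt_eq_rpow, Real.sqrt_eq_rpow]

lemma cs_tsum_norm {a b : ℕ → ℂ} (ha : Summable fun i => ‖a i‖ ^ 2)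
    (hb : Summable fun i => ‖b i‖ ^ 2) :
    (Summable fun i => ‖a i‖ * ‖b i‖) ∧
      ∑' i, ‖a i‖ * ‖b i‖ ≤ √(∑' i, ‖a i‖ ^ 2) * √(∑' i, ‖b i‖ ^ 2) :=
  cs_tsum (fun _ => norm_nonneg _) (fun _ => norm_nonneg _) ha hb

lemma sq_norm_add_le (a b : ℂ) : ‖a + b‖ ^ 2 ≤ ‖a‖ ^ 2 + 2 * (‖a‖ * ‖b‖) + ‖b‖ ^ 2 := by
  have h := norm_add_le a b
  have h0 := norm_nonneg (a + b)
  nlinarith [norm_nonneg a, norm_nonneg b]

lemma sq_norm_add_ge (a b : ℂ) : ‖a‖ ^ 2 - 2 * (‖a‖ * ‖b‖) ≤ ‖a + b‖ ^ 2 := by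
  have h : ‖a + b‖ ^ 2 = ‖a‖ ^ 2 + 2 * (conj a * b).re + ‖b‖ ^ 2 := by
    rw [← Complex.normSq_eq_norm_sq, ← Complex.normSq_eq_norm_sq, ← Complex.normSq_eq_norm_sq,
      Complex.normSq_apply, Complex.normSq_apply, Complex.normSq_apply]
    simp only [Complex.add_re, Complex.add_im, Complex.mul_re, Complex.conj_re, Complex.conj_im]
    ring
  have h2 : |(conj a * b).re| ≤ ‖a‖ * ‖b‖ := by
    refine (Complex.abs_re_le_norm _).trans ?_
    rw [norm_mul, Complex.norm_conj]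
  have h3 := abs_le.mp h2
  rw [h]
  nlinarith [sq_nonneg ‖b‖, h3.1]

lemma summable_sq_add {a b : ℕ → ℂ} (ha : Summable fun i => ‖a i‖ ^ 2)
    (hb : Summable fun i => ‖b i‖ ^ 2) : Summable fun i => ‖a i + b i‖ ^ 2 := by
  refine Summable.of_nonneg_of_le (fun _ => sq_nonneg _) (fun i => sq_norm_add_le (a i) (b i)) ?_
  exact (ha.add ((cs_tsum_norm ha hb).1.mul_left 2)).add hb

lemma tsum_sq_add_le {a b : ℕ → ℂ} (ha : Summable fun i => ‖a i‖ ^ 2)
    (hb : Summable fun i => ‖b i‖ ^ 2) :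
    ∑' i, ‖a i + b i‖ ^ 2 ≤ (√(∑' i, ‖a i‖ ^ 2) + √(∑' i, ‖b i‖ ^ 2)) ^ 2 := by
  have hc := cs_tsum_norm ha hb
  have h1 : ∑' i, ‖a i + b i‖ ^ 2 ≤ ∑' i, (‖a i‖ ^ 2 + 2 * (‖a i‖ * ‖b i‖) + ‖b i‖ ^ 2) :=
    (summable_sq_add ha hb).tsum_le_tsum (fun i => sq_norm_add_le (a i) (b i))
      ((ha.add (hc.1.mul_left 2)).add hb)
  rw [(ha.add (hc.1.mul_left 2)).tsum_add hb, ha.tsum_add (hc.1.mul_left 2), tsum_mul_left] at h1
  have hA : (√(∑' i, ‖a i‖ ^ 2)) ^ 2 = ∑' i, ‖a i‖ ^ 2 :=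
    Real.sq_sqrt (tsum_nonneg fun _ => sq_nonneg _)
  have hB : (√(∑' i, ‖b i‖ ^ 2)) ^ 2 = ∑' i, ‖b i‖ ^ 2 :=
    Real.sq_sqrt (tsum_nonneg fun _ => sq_nonneg _)
  nlinarith [hc.2]

lemma tsum_sq_add_ge {a b : ℕ → ℂ} (ha : Summable fun i => ‖a i‖ ^ 2)
    (hb : Summable fun i => ‖b i‖ ^ 2) :
    ∑' i, ‖a i‖ ^ 2 - 2 * (√(∑' i, ‖a i‖ ^ 2) * √(∑' i, ‖b i‖ ^ 2)) ≤
      ∑' i, ‖a i + b i‖ ^ 2 := by
  have hc := cs_tsum_norm ha hb
  have h1 : ∑' i, (‖a i‖ ^ 2 - 2 * (‖a i‖ * ‖b i‖)) ≤ ∑' i, ‖a i + b i‖ ^ 2 :=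
    (ha.sub (hc.1.mul_left 2)).tsum_le_tsum (fun i => sq_norm_add_ge (a i) (b i))
      (summable_sq_add ha hb)
  rw [ha.tsum_sub (hc.1.mul_left 2), tsum_mul_left] at h1
  linarith [hc.2]

/-! ### Taylor estimates -/

lemma hasDerivAt_ofReal (t : ℝ) : HasDerivAt (fun t : ℝ => (t : ℂ)) 1 t :=
  (hasDerivAt_id' t).ofReal_comp

lemma hasDerivAt_mulI (t : ℝ) : HasDerivAt (fun t : ℝ => (t : ℂ) * Complex.I) Complex.I t := by
  simpa using (hasDerivAt_ofReal t).mul_const Complex.I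

lemma hasDerivAt_expI (t : ℝ) :
    HasDerivAt (fun t : ℝ => Complex.exp (t * Complex.I)) (Complex.I * Complex.exp (t * Complex.I)) t := by
  have h2 := (hasDerivAt_mulI t).cexp
  rw [mul_comm] at h2
  exact h2

lemma expI_sub_one_le_nonneg {t : ℝ} (ht : 0 ≤ t) : ‖Complex.exp (t * Complex.I) - 1‖ ≤ t := by
  have := image_norm_le_of_norm_deriv_right_le_deriv_boundary (a := 0) (b := t)
    (f := fun s : ℝ => Complex.exp (s * Complex.I) - 1)
    (f' := fun s : ℝ => Complex.I * Complex.exp (s * Complex.I))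
    (fun s hs => ((hasDerivAt_expI s).sub_const 1).continuousAt.continuousWithinAt)
    (fun s _ => ((hasDerivAt_expI s).sub_const 1).hasDerivWithinAt)
    (B := fun s => s) (B' := fun _ => 1) (by simp)
    (fun s => hasDerivAt_id' s)
    (by
      intro s _
      rw [norm_mul, Complex.norm_I, Complex.norm_exp_ofReal_mul_I, mul_one])
  exact this ⟨ht, le_rfl⟩

lemma expI_taylor2_nonneg {t : ℝ} (ht : 0 ≤ t) :
    ‖Complex.exp (t * Complex.I) - 1 - t * Complex.I‖ ≤ t ^ 2 / 2 := by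
  have hd : ∀ s : ℝ, HasDerivAt (fun s : ℝ => Complex.exp (s * Complex.I) - 1 - s * Complex.I)
      (Complex.I * Complex.exp (s * Complex.I) - Complex.I) s := by
    intro s
    exact ((hasDerivAt_expI s).sub_const 1).sub (hasDerivAt_mulI s)
  have := image_norm_le_of_norm_deriv_right_le_deriv_boundary (a := 0) (b := t)
    (f := fun s : ℝ => Complex.exp (s * Complex.I) - 1 - s * Complex.I)
    (f' := fun s : ℝ => Complex.I * Complex.exp (s * Complex.I) - Complex.I)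
    (fun s hs => (hd s).continuousAt.continuousWithinAt)
    (fun s _ => (hd s).hasDerivWithinAt)
    (B := fun s => s ^ 2 / 2) (B' := fun s => s) (by simp)
    (fun s => by
      have := ((hasDerivAt_id' s).pow 2).div_const 2
      simpa using this)
    (by
      intro s hs
      have : Complex.I * Complex.exp (s * Complex.I) - Complex.I =
        Complex.I * (Complex.exp (s * Complex.I) - 1) := by ring
      rw [this, norm_mul, Complex.norm_I, one_mul]
      exact expI_sub_one_le_nonneg hs.1)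
  exact this ⟨ht, le_rfl⟩

lemma expI_taylor3_nonneg {t : ℝ} (ht : 0 ≤ t) :
    ‖Complex.exp (t * Complex.I) - 1 - t * Complex.I + t ^ 2 / 2‖ ≤ t ^ 3 / 6 := by
  have hd : ∀ s : ℝ, HasDerivAt
      (fun s : ℝ => Complex.exp (s * Complex.I) - 1 - s * Complex.I + (s : ℂ) ^ 2 / 2)
      (Complex.I * Complex.exp (s * Complex.I) - Complex.I + s) s := by
    intro s
    have h0 := hasDerivAt_ofReal s
    have h1 := hasDerivAt_mulI s
    have h2 : HasDerivAt (fun t : ℝ => (t : ℂ) ^ 2 / 2) (s : ℂ) s := by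
      have := (h0.pow 2).div_const 2
      simpa using this
    exact (((hasDerivAt_expI s).sub_const 1).sub h1).add h2
  have := image_norm_le_of_norm_deriv_right_le_deriv_boundary (a := 0) (b := t)
    (f := fun s : ℝ => Complex.exp (s * Complex.I) - 1 - s * Complex.I + (s : ℂ) ^ 2 / 2)
    (f' := fun s : ℝ => Complex.I * Complex.exp (s * Complex.I) - Complex.I + s)
    (fun s hs => (hd s).continuousAt.continuousWithinAt)
    (fun s _ => (hd s).hasDerivWithinAt)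
    (B := fun s => s ^ 3 / 6) (B' := fun s => s ^ 2 / 2) (by simp)
    (fun s => by
      have h := ((hasDerivAt_id' s).pow 3).div_const 6
      have e : s ^ 2 / 2 = (3 : ℕ) * s ^ (3 - 1) * 1 / 6 := by
        norm_num; ring
      rw [e]; exact h)
    (by
      intro s hs
      have : Complex.I * Complex.exp (s * Complex.I) - Complex.I + s =
        Complex.I * (Complex.exp (s * Complex.I) - 1 - s * Complex.I) := by
        have hI : Complex.I * Complex.I = -1 := Complex.I_mul_I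
        linear_combination (s : ℂ) * hI
      rw [this, norm_mul, Complex.norm_I, one_mul]
      exact expI_taylor2_nonneg hs.1)
  exact this ⟨ht, le_rfl⟩

lemma expI_conj (t : ℝ) : Complex.exp ((-t : ℝ) * Complex.I) = conj (Complex.exp (t * Complex.I)) := by
  rw [← Complex.exp_conj]
  congr 1
  simp

lemma expI_sub_one_le (t : ℝ) : ‖Complex.exp (t * Complex.I) - 1‖ ≤ |t| := by
  rcases le_total 0 t with ht | ht
  · rw [abs_of_nonneg ht]; exact expI_sub_one_le_nonneg ht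
  · have h := expI_sub_one_le_nonneg (neg_nonneg.mpr ht)
    rw [expI_conj] at h
    rw [abs_of_nonpos ht, ← Complex.norm_conj]
    simpa using h

lemma expI_taylor2 (t : ℝ) :
    ‖Complex.exp (t * Complex.I) - 1 - t * Complex.I‖ ≤ t ^ 2 / 2 := by
  rcases le_total 0 t with ht | ht
  · exact expI_taylor2_nonneg ht
  · have h := expI_taylor2_nonneg (neg_nonneg.mpr ht)
    rw [expI_conj] at h
    rw [← Complex.norm_conj]
    convert h using 2
    · simp
    · ring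

lemma expI_taylor3 (t : ℝ) :
    ‖Complex.exp (t * Complex.I) - 1 - t * Complex.I + t ^ 2 / 2‖ ≤ |t| ^ 3 / 6 := by
  rcases le_total 0 t with ht | ht
  · rw [abs_of_nonneg ht]; exact expI_taylor3_nonneg ht
  · have h := expI_taylor3_nonneg (neg_nonneg.mpr ht)
    rw [expI_conj] at h
    rw [abs_of_nonpos ht, ← Complex.norm_conj]
    convert h using 2
    have h2 : (starRingEnd ℂ) 2 = 2 := Complex.conj_ofNat 2
    simp [h2]

/-! ### sums with geometric tails -/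

lemma le_of_ratio {a : ℕ → ℝ} {n : ℕ} {κ : ℝ} (hκ0 : 0 ≤ κ)
    (hr : ∀ j, n ≤ j → a (j + 1) ≤ κ * a j) (m : ℕ) : a (n + m) ≤ a n * κ ^ m := by
  induction m with
  | zero => simp
  | succ m ih =>
    calc a (n + (m + 1)) ≤ κ * a (n + m) := hr (n + m) (by omega)
      _ ≤ κ * (a n * κ ^ m) := mul_le_mul_of_nonneg_left ih hκ0
      _ = a n * κ ^ (m + 1) := by ring

lemma summable_of_ratio {a : ℕ → ℝ} {n : ℕ} {κ : ℝ} (ha : ∀ j, 0 ≤ a j) (hκ0 : 0 ≤ κ)
    (hκ1 : κ < 1) (hr : ∀ j, n ≤ j → a (j + 1) ≤ κ * a j) : Summable a := by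
  rw [← summable_nat_add_iff n]
  refine Summable.of_nonneg_of_le (fun j => ha _) (fun m => ?_)
    ((summable_geometric_of_lt_one hκ0 hκ1).mul_left (a n))
  rw [add_comm m n]
  exact le_of_ratio hκ0 hr m

lemma tsum_le_of_ratio {a : ℕ → ℝ} (n : ℕ) (κ : ℝ) (ha : ∀ j, 0 ≤ a j) (hκ0 : 0 ≤ κ)
    (hκ1 : κ < 1) (hr : ∀ j, n ≤ j → a (j + 1) ≤ κ * a j) :
    ∑' j, a j ≤ ∑ j ∈ Finset.range n, a j + a n / (1 - κ) := by
  have hs := summable_of_ratio ha hκ0 hκ1 hr
  rw [← hs.sum_add_tsum_nat_add n]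
  gcongr
  have hg := (summable_geometric_of_lt_one hκ0 hκ1).mul_left (a n)
  calc ∑' i, a (i + n) ≤ ∑' i, a n * κ ^ i := by
        refine ((summable_nat_add_iff n).mpr hs).tsum_le_tsum (fun m => ?_) hg
        rw [add_comm m n]
        exact le_of_ratio hκ0 hr m
    _ = a n / (1 - κ) := by
        rw [tsum_mul_left, tsum_geometric_of_lt_one hκ0 hκ1, div_eq_mul_inv]

end Pool.Agent.H93.LocalAux
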