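import Pool.Agent.Lib.H93.Data

/-!
Numerical facts on the data (kernel evaluation of the integer data; Schur tests).
-/

namespace Pool.Agent.H93.NumR

open ComplexConjugate

/-- kernel friendly sum -/
def sumZ (f : ℕ → ℤ) : ℕ → ℤ
  | 0 => 0
  | n + 1 => sumZ f n + f n

theorem sumZ_eq (f : ℕ → ℤ) (n : ℕ) : sumZ f n = ∑ k ∈ Finset.range n, f k := by
  induction n with
  | zero => rfl
  | succ n ih => rw [Finset.sum_range_succ, ← ih]; rfl

theorem sumZ_cast (f : ℕ → ℤ) (n : ℕ) :
    ((sumZ f n : ℤ) : ℝ) = ∑ k ∈ Finset.range n, (f k : ℝ) := by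
  rw [sumZ_eq]; push_cast; rfl

/-- Gram matrix of `dataR`, real part -/
def gRe (a b : ℕ) : ℤ :=
  sumZ (fun k => (getZ dataR k a).1 * (getZ dataR k b).1
    + (getZ dataR k a).2 * (getZ dataR k b).2) 15

/-- Gram matrix of `dataR`, imaginary part -/
def gIm (a b : ℕ) : ℤ :=
  sumZ (fun k => (getZ dataR k a).1 * (getZ dataR k b).2
    - (getZ dataR k a).2 * (getZ dataR k b).1) 15

/-- upper bounds of the moduli of the Gram matrix, scale `2^40` -/
def dataU : List (List ℤ) := [
  [190280429023, 36913391086, 20460612151, 31631900667, 12265632652, 10087466832, 5343967482, 2671293370, 2222306441, 574436119, 779735608, 672475174, 331070626, 30773524, 71541183],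
  [36913391086, 90153741682, 15071756537, 18102476875, 13349527267, 4343729783, 8115483805, 2590978404, 542191609, 1716365446, 399545595, 314962545, 471132690, 58583432, 233291724],
  [20460612151, 15071756537, 41697575022, 9342085163, 7643076332, 8927520098, 3608424107, 2606638018, 1332824397, 525237141, 665519012, 388176978, 179268834, 215975421, 41983457],
  [31631900667, 18102476875, 9342085163, 26669064178, 4069180660, 4180277211, 5034333544, 921913790, 1772344100, 529194427, 528860240, 309635606, 27791201, 145962295, 73129432],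
  [12265632652, 13349527267, 7643076332, 4069180660, 12570175661, 2816515421, 2074339968, 2059504654, 363716639, 904994869, 387919498, 64554307, 169936450, 89262528, 59904199],
  [10087466832, 4343729783, 8927520098, 4180277211, 2816515421, 7069863181, 1102525465, 891582993, 1045136222, 315608006, 479457839, 218827558, 88205536, 74280463, 8865785],
  [5343967482, 8115483805, 3608424107, 5034333544, 2074339968, 1102525465, 3615250351, 441059432, 448529751, 431458051, 154936676, 249365568, 51226247, 66757067, 1716069],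
  [2671293370, 2590978404, 2606638018, 921913790, 2059504654, 891582993, 441059432, 1861998803, 96113796, 124447963, 247813239, 83062120, 180971817, 39298114, 18404022],
  [2222306441, 542191609, 1332824397, 1772344100, 363716639, 1045136222, 448529751, 96113796, 1097822893, 86268682, 86960353, 84677386, 77118728, 61531933, 20858397],
  [574436119, 1716365446, 525237141, 529194427, 904994869, 315608006, 431458051, 124447963, 86268682, 677300449, 88780007, 88453860, 40591894, 31580369, 19973907],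
  [779735608, 399545595, 665519012, 528860240, 387919498, 479457839, 154936676, 247813239, 86960353, 88780007, 468761667, 24426637, 62242043, 42481523, 23408579],
  [672475174, 314962545, 388176978, 309635606, 64554307, 218827558, 249365568, 83062120, 84677386, 88453860, 24426637, 300391559, 1649083, 12374826, 22128872],
  [331070626, 471132690, 179268834, 27791201, 169936450, 88205536, 51226247, 180971817, 77118728, 40591894, 62242043, 1649083, 178894037, 23617947, 6172436],
  [30773524, 58583432, 215975421, 145962295, 89262528, 74280463, 66757067, 39298114, 61531933, 31580369, 42481523, 12374826, 23617947, 86285955, 9711454],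
  [71541183, 233291724, 41983457, 73129432, 59904199, 8865785, 1716069, 18404022, 20858397, 19973907, 23408579, 22128872, 6172436, 9711454, 51072363]]

/-- entry -/
def getU (a b : ℕ) : ℤ := (dataU.getD a []).getD b 0

/-- Schur vectors -/
def P1 : List ℤ := [69, 84, 90, 126, 138, 183, 262, 260, 316, 393, 542, 646, 801, 868, 1000]
/-- Schur vectors -/
def P2 : List ℤ := [246, 271, 279, 442, 422, 516, 649, 527, 595, 667, 855, 899, 1000, 1000, 962]

theorem chkU : ∀ a < 15, ∀ b < 15,
    gRe a b * gRe a b + gIm a b * gIm a b ≤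
      getU a b * getU a b * 1208925819614629174706176 ∧ 0 ≤ getU a b ∧ getU a b = getU b a := by
  decide +kernel

theorem chkN3a : sumZ (fun a => sumZ (fun b => getU a b * 1) 15) 15 * 10
    ≤ 9 * 1099511627776 := by decide +kernel

/-- weights of N3b -/
def wb (a b : ℕ) : ℤ := (1000 * ((a : ℤ) + 1) - 853) * (1000 * ((b : ℤ) + 1) - 853)

theorem chkN3b : sumZ (fun a => sumZ (fun b => getU a b * wb a b) 15) 15 * 10
    ≤ 51 * 1000000 * 1099511627776 := by decide +kernel

/-- weights of N3c -/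
def wc (a b : ℕ) : ℤ := (50 * ((a : ℤ) + 1) * ((a : ℤ) + 1) + 86 * ((a : ℤ) + 1) + 150)
  * (50 * ((b : ℤ) + 1) * ((b : ℤ) + 1) + 86 * ((b : ℤ) + 1) + 150)

theorem chkN3c : sumZ (fun a => sumZ (fun b => getU a b * wc a b) 15) 15
    ≤ 145 * 10000 * 1099511627776 := by decide +kernel

/-- `|a - b|` -/
def dif (a b : ℕ) : ℤ := (((a - b) + (b - a) : ℕ) : ℤ)

theorem chkN1 : ∀ a < 15,
    4 * 40 ^ (2 * (a + 1)) * sumZ (fun b => getU a b * dif a b * P1.getD b 0) 15
      ≤ 7 * 31 ^ (2 * (a + 1)) * 1099511627776 * P1.getD a 0 ∧ 0 < P1.getD a 0 := by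
  decide +kernel

theorem chkN2 : ∀ a < 15,
    40 ^ (2 * (a + 1)) * sumZ (fun b => getU a b * P2.getD b 0) 15
      ≤ 31 ^ (2 * (a + 1)) * 1099511627776 * P2.getD a 0 ∧ 0 < P2.getD a 0 := by
  decide +kernel

/-- Gram matrix of `LR` -/
noncomputable def gR (a b : ℕ) : ℂ := ∑ k ∈ Finset.range 15, conj (LR k a) * LR k b

/-- weights -/
noncomputable def w (j : ℕ) : ℝ := if j < 16 then (31 / 40) ^ (2 * j) else ek j ^ 2

theorem gR_eq (a b : ℕ) : gR a b = ⟨(gRe a b : ℝ) / 2 ^ 80, (gIm a b : ℝ) / 2 ^ 80⟩ := by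
  apply Complex.ext
  · unfold gR gRe
    rw [Complex.re_sum, sumZ_cast, Finset.sum_div]
    dsimp only
    apply Finset.sum_congr rfl
    intro k _
    simp only [LR, toC40, Complex.mul_re, Complex.conj_re, Complex.conj_im]
    push_cast
    ring
  · unfold gR gIm
    rw [Complex.im_sum, sumZ_cast, Finset.sum_div]
    dsimp only
    apply Finset.sum_congr rfl
    intro k _
    simp only [LR, toC40, Complex.mul_im, Complex.conj_re, Complex.conj_im]
    push_cast
    ring

theorem norm_gR_le {a b : ℕ} (ha : a < 15) (hb : b < 15) :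
    ‖gR a b‖ ≤ (getU a b : ℝ) / 2 ^ 40 := by
  obtain ⟨h1, h2, -⟩ := chkU a ha b hb
  have h2' : (0 : ℝ) ≤ (getU a b : ℝ) := by exact_mod_cast h2
  have h1' : (gRe a b : ℝ) * gRe a b + (gIm a b : ℝ) * gIm a b ≤
      (getU a b : ℝ) * getU a b * 1208925819614629174706176 := by exact_mod_cast h1
  have h3 : ‖gR a b‖ ^ 2 ≤ ((getU a b : ℝ) / 2 ^ 40) ^ 2 := by
    rw [Complex.sq_norm, gR_eq, Complex.normSq_mk]
    have e1 : (gRe a b : ℝ) / 2 ^ 80 * ((gRe a b : ℝ) / 2 ^ 80)
        + (gIm a b : ℝ) / 2 ^ 80 * ((gIm a b : ℝ) / 2 ^ 80)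
        = ((gRe a b : ℝ) * gRe a b + (gIm a b : ℝ) * gIm a b) / 2 ^ 160 := by ring
    have e2 : ((getU a b : ℝ) / 2 ^ 40) ^ 2
        = ((getU a b : ℝ) * getU a b * 1208925819614629174706176) / 2 ^ 160 := by
      have : (1208925819614629174706176 : ℝ) = 2 ^ 80 := by norm_num
      rw [this]
      field_simp
    rw [e1, e2]
    exact div_le_div_of_nonneg_right h1' (by positivity)
  exact (abs_le_of_sq_le_sq' h3 (by positivity)).2

theorem getU_nonneg {a b : ℕ} (ha : a < 15) (hb : b < 15) : (0 : ℝ) ≤ (getU a b : ℝ) := by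
  exact_mod_cast (chkU a ha b hb).2.1

theorem getU_symm {a b : ℕ} (ha : a < 15) (hb : b < 15) : getU a b = getU b a :=
  (chkU a ha b hb).2.2

/-- weighted sums -/
theorem sum_weighted (v : ℕ → ℕ → ℤ) (hv : ∀ a < 15, ∀ b < 15, 0 ≤ v a b) :
    ∑ a ∈ Finset.range 15, ∑ b ∈ Finset.range 15, ‖gR a b‖ * (v a b : ℝ) ≤
      (sumZ (fun a => sumZ (fun b => getU a b * v a b) 15) 15 : ℝ) / 2 ^ 40 := by
  rw [sumZ_cast, Finset.sum_div]
  apply Finset.sum_le_sum
  intro a ha
  rw [sumZ_cast, Finset.sum_div]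
  apply Finset.sum_le_sum
  intro b hb
  rw [Finset.mem_range] at ha hb
  have h1 := norm_gR_le ha hb
  have h2 : (0 : ℝ) ≤ (v a b : ℝ) := by exact_mod_cast hv a ha b hb
  push_cast
  calc ‖gR a b‖ * (v a b : ℝ) ≤ (getU a b : ℝ) / 2 ^ 40 * (v a b : ℝ) :=
        mul_le_mul_of_nonneg_right h1 h2
    _ = _ := by ring

theorem N3a : ∑ a ∈ Finset.range 15, ∑ b ∈ Finset.range 15, ‖gR a b‖ ≤ 0.9 := by
  have h := sum_weighted (fun _ _ => 1) (fun _ _ _ _ => by norm_num)
  have h2 : ((sumZ (fun a => sumZ (fun b => getU a b * 1) 15) 15 : ℤ) : ℝ) * 10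
    ≤ 9 * 1099511627776 := by exact_mod_cast chkN3a
  simp only [Int.cast_one, mul_one] at h h2
  refine h.trans ?_
  rw [div_le_iff₀ (by norm_num)]
  have : (0.9 : ℝ) * 2 ^ 40 = 9 * 1099511627776 / 10 := by norm_num
  rw [this]
  linarith

theorem N3b : ∑ a ∈ Finset.range 15, ∑ b ∈ Finset.range 15,
      ‖gR a b‖ * ((a : ℝ) + 1 - 0.853) * ((b : ℝ) + 1 - 0.853) ≤ 5.1 := by
  have h := sum_weighted wb (fun a _ b _ => by
    unfold wb
    apply mul_nonneg <;> omega)
  have h2 : ((sumZ (fun a => sumZ (fun b => getU a b * wb a b) 15) 15 : ℤ) : ℝ) * 10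
    ≤ 51 * 1000000 * 1099511627776 := by exact_mod_cast chkN3b
  have e : ∑ a ∈ Finset.range 15, ∑ b ∈ Finset.range 15,
      ‖gR a b‖ * ((a : ℝ) + 1 - 0.853) * ((b : ℝ) + 1 - 0.853)
      = (∑ a ∈ Finset.range 15, ∑ b ∈ Finset.range 15, ‖gR a b‖ * (wb a b : ℝ)) / 1000000 := by
    rw [Finset.sum_div]
    apply Finset.sum_congr rfl
    intro a _
    rw [Finset.sum_div]
    apply Finset.sum_congr rfl
    intro b _
    unfold wb
    push_cast
    ring
  rw [e, div_le_iff₀ (by norm_num)]
  refine h.trans ?_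
  rw [div_le_iff₀ (by norm_num)]
  have : (5.1 : ℝ) * 1000000 * 2 ^ 40 = 51 * 1000000 * 1099511627776 / 10 := by norm_num
  rw [this]
  linarith

theorem N3c : ∑ a ∈ Finset.range 15, ∑ b ∈ Finset.range 15,
      ‖gR a b‖ * (((a : ℝ) + 1) ^ 2 / 2 + 0.86 * (a + 1) + 1.5) *
        (((b : ℝ) + 1) ^ 2 / 2 + 0.86 * (b + 1) + 1.5) ≤ 145 := by
  have h := sum_weighted wc (fun a _ b _ => by unfold wc; positivity)
  have h2 : ((sumZ (fun a => sumZ (fun b => getU a b * wc a b) 15) 15 : ℤ) : ℝ)
    ≤ 145 * 10000 * 1099511627776 := by exact_mod_cast chkN3c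
  have e : ∑ a ∈ Finset.range 15, ∑ b ∈ Finset.range 15,
      ‖gR a b‖ * (((a : ℝ) + 1) ^ 2 / 2 + 0.86 * (a + 1) + 1.5) *
        (((b : ℝ) + 1) ^ 2 / 2 + 0.86 * (b + 1) + 1.5)
      = (∑ a ∈ Finset.range 15, ∑ b ∈ Finset.range 15, ‖gR a b‖ * (wc a b : ℝ)) / 10000 := by
    rw [Finset.sum_div]
    apply Finset.sum_congr rfl
    intro a _
    rw [Finset.sum_div]
    apply Finset.sum_congr rfl
    intro b _
    unfold wc
    push_cast
    ring
  rw [e, div_le_iff₀ (by norm_num)]
  refine h.trans ?_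
  rw [div_le_iff₀ (by norm_num)]
  have : (145 : ℝ) * 10000 * 2 ^ 40 = 145 * 10000 * 1099511627776 := by norm_num
  rw [this]
  linarith

/-- Schur test -/
theorem schur {n : ℕ} (M : ℕ → ℕ → ℝ) (hM : ∀ a < n, ∀ b < n, 0 ≤ M a b)
    (hs : ∀ a < n, ∀ b < n, M a b = M b a) (p D : ℕ → ℝ) (hp : ∀ a < n, 0 < p a)
    (h : ∀ a < n, ∑ b ∈ Finset.range n, M a b * p b ≤ D a * p a) (t : ℕ → ℝ) :
    ∑ a ∈ Finset.range n, ∑ b ∈ Finset.range n, M a b * t a * t b ≤
      ∑ a ∈ Finset.range n, D a * t a ^ 2 := by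
  have h1 : ∀ a ∈ Finset.range n, ∀ b ∈ Finset.range n, M a b * t a * t b ≤
      (M a b * p b / p a * t a ^ 2 + M a b * p a / p b * t b ^ 2) / 2 := by
    intro a ha b hb
    rw [Finset.mem_range] at ha hb
    have hpa := hp a ha
    have hpb := hp b hb
    have hm := hM a ha b hb
    have h2 : t a * t b ≤ (p b / p a * t a ^ 2 + p a / p b * t b ^ 2) / 2 := by
      have : (p b / p a * t a ^ 2 + p a / p b * t b ^ 2) / 2 - t a * t b
          = (p b * t a - p a * t b) ^ 2 / (2 * p a * p b) := by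
        field_simp
        ring
      have h3 : 0 ≤ (p b * t a - p a * t b) ^ 2 / (2 * p a * p b) := by positivity
      linarith
    calc M a b * t a * t b = M a b * (t a * t b) := by ring
      _ ≤ M a b * ((p b / p a * t a ^ 2 + p a / p b * t b ^ 2) / 2) :=
        mul_le_mul_of_nonneg_left h2 hm
      _ = _ := by ring
  calc ∑ a ∈ Finset.range n, ∑ b ∈ Finset.range n, M a b * t a * t b
      ≤ ∑ a ∈ Finset.range n, ∑ b ∈ Finset.range n,
        (M a b * p b / p a * t a ^ 2 + M a b * p a / p b * t b ^ 2) / 2 :=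
        Finset.sum_le_sum fun a ha => Finset.sum_le_sum fun b hb => h1 a ha b hb
    _ = (∑ a ∈ Finset.range n, ∑ b ∈ Finset.range n, M a b * p b / p a * t a ^ 2) / 2
        + (∑ a ∈ Finset.range n, ∑ b ∈ Finset.range n, M a b * p a / p b * t b ^ 2) / 2 := by
        rw [Finset.sum_div, Finset.sum_div, ← Finset.sum_add_distrib]
        apply Finset.sum_congr rfl
        intro a _
        rw [Finset.sum_div, Finset.sum_div, ← Finset.sum_add_distrib]
        apply Finset.sum_congr rfl
        intro b _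
        ring
    _ = ∑ a ∈ Finset.range n, ∑ b ∈ Finset.range n, M a b * p b / p a * t a ^ 2 := by
        have : ∑ a ∈ Finset.range n, ∑ b ∈ Finset.range n, M a b * p a / p b * t b ^ 2
            = ∑ a ∈ Finset.range n, ∑ b ∈ Finset.range n, M a b * p b / p a * t a ^ 2 := by
          rw [Finset.sum_comm]
          apply Finset.sum_congr rfl
          intro a ha
          apply Finset.sum_congr rfl
          intro b hb
          rw [hs b (Finset.mem_range.1 hb) a (Finset.mem_range.1 ha)]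
        rw [this]; ring
    _ ≤ ∑ a ∈ Finset.range n, D a * t a ^ 2 := by
        apply Finset.sum_le_sum
        intro a ha
        rw [Finset.mem_range] at ha
        have hpa := hp a ha
        have e : ∑ b ∈ Finset.range n, M a b * p b / p a * t a ^ 2
            = (∑ b ∈ Finset.range n, M a b * p b) * (t a ^ 2 / p a) := by
          rw [Finset.sum_mul]
          apply Finset.sum_congr rfl
          intro b _
          ring
        rw [e]
        calc (∑ b ∈ Finset.range n, M a b * p b) * (t a ^ 2 / p a)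
            ≤ (D a * p a) * (t a ^ 2 / p a) :=
              mul_le_mul_of_nonneg_right (h a ha) (by positivity)
          _ = D a * t a ^ 2 := by field_simp

theorem dif_cast (a b : ℕ) : ((dif a b : ℤ) : ℝ) = |(a : ℝ) - b| := by
  unfold dif
  rcases le_total a b with h | h
  · rw [Nat.sub_eq_zero_of_le h, zero_add, abs_of_nonpos (by
      have : (a : ℝ) ≤ b := by exact_mod_cast h
      linarith)]
    push_cast [Nat.cast_sub h]
    ring
  · rw [Nat.sub_eq_zero_of_le h, add_zero, abs_of_nonneg (by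
      have : (b : ℝ) ≤ a := by exact_mod_cast h
      linarith)]
    push_cast [Nat.cast_sub h]
    ring

theorem w_eq {a : ℕ} (ha : a < 15) : w (a + 1) = (31 : ℝ) ^ (2 * (a + 1)) / 40 ^ (2 * (a + 1)) := by
  unfold w
  rw [if_pos (by omega), div_pow]

theorem N1 (t : ℕ → ℝ) (ht : ∀ j, 0 ≤ t j) :
    ∑ a ∈ Finset.range 15, ∑ b ∈ Finset.range 15,
      ‖gR a b‖ * |(a : ℝ) - b| * t (a + 1) * t (b + 1) ≤
    1.75 * ∑ a ∈ Finset.range 15, w (a + 1) * t (a + 1) ^ 2 := by
  have h := schur (n := 15) (fun a b => (getU a b : ℝ) / 2 ^ 40 * |(a : ℝ) - b|)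
    (fun a ha b hb => mul_nonneg (div_nonneg (getU_nonneg ha hb) (by positivity)) (abs_nonneg _))
    (fun a ha b hb => by rw [getU_symm ha hb, abs_sub_comm])
    (fun a => (P1.getD a 0 : ℝ)) (fun a => 1.75 * w (a + 1))
    (fun a ha => by exact_mod_cast (chkN1 a ha).2)
    (fun a ha => by
      have h1 := (chkN1 a ha).1
      have h1' : (4 : ℝ) * 40 ^ (2 * (a + 1)) *
          ((sumZ (fun b => getU a b * dif a b * P1.getD b 0) 15 : ℤ) : ℝ)
          ≤ 7 * 31 ^ (2 * (a + 1)) * 1099511627776 * (P1.getD a 0 : ℝ) := by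
        exact_mod_cast h1
      rw [sumZ_cast] at h1'
      have e : ∑ b ∈ Finset.range 15, (getU a b : ℝ) / 2 ^ 40 * |(a : ℝ) - b| * (P1.getD b 0 : ℝ)
          = (∑ b ∈ Finset.range 15, ((getU a b * dif a b * P1.getD b 0 : ℤ) : ℝ)) / 2 ^ 40 := by
        rw [Finset.sum_div]
        apply Finset.sum_congr rfl
        intro b _
        push_cast
        rw [dif_cast]
        ring
      show ∑ b ∈ Finset.range 15, (getU a b : ℝ) / 2 ^ 40 * |(a : ℝ) - b| * (P1.getD b 0 : ℝ)
        ≤ 1.75 * w (a + 1) * (P1.getD a 0 : ℝ)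
      rw [e, w_eq ha, div_le_iff₀ (by positivity)]
      have h40 : (0 : ℝ) < 40 ^ (2 * (a + 1)) := by positivity
      have e2 : 1.75 * ((31 : ℝ) ^ (2 * (a + 1)) / 40 ^ (2 * (a + 1))) * (P1.getD a 0 : ℝ) * 2 ^ 40
          = (7 * 31 ^ (2 * (a + 1)) * 1099511627776 * (P1.getD a 0 : ℝ))
            / (4 * 40 ^ (2 * (a + 1))) := by
        field_simp
        norm_num
        ring
      rw [e2, le_div_iff₀ (by positivity)]
      linarith)
    (fun a => t (a + 1))
  rw [Finset.mul_sum]
  refine le_trans ?_ (h.trans (le_of_eq ?_))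
  · apply Finset.sum_le_sum
    intro a ha
    apply Finset.sum_le_sum
    intro b hb
    rw [Finset.mem_range] at ha hb
    apply mul_le_mul_of_nonneg_right _ (ht _)
    apply mul_le_mul_of_nonneg_right _ (ht _)
    exact mul_le_mul_of_nonneg_right (norm_gR_le ha hb) (abs_nonneg _)
  · apply Finset.sum_congr rfl
    intro a _
    ring

theorem N2 (t : ℕ → ℝ) (ht : ∀ j, 0 ≤ t j) :
    ∑ a ∈ Finset.range 15, ∑ b ∈ Finset.range 15, ‖gR a b‖ * t (a + 1) * t (b + 1) ≤
    ∑ a ∈ Finset.range 15, w (a + 1) * t (a + 1) ^ 2 := by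
  have h := schur (n := 15) (fun a b => (getU a b : ℝ) / 2 ^ 40)
    (fun a ha b hb => div_nonneg (getU_nonneg ha hb) (by positivity))
    (fun a ha b hb => by rw [getU_symm ha hb])
    (fun a => (P2.getD a 0 : ℝ)) (fun a => w (a + 1))
    (fun a ha => by exact_mod_cast (chkN2 a ha).2)
    (fun a ha => by
      have h1 := (chkN2 a ha).1
      have h1' : (40 : ℝ) ^ (2 * (a + 1)) *
          ((sumZ (fun b => getU a b * P2.getD b 0) 15 : ℤ) : ℝ)
          ≤ 31 ^ (2 * (a + 1)) * 1099511627776 * (P2.getD a 0 : ℝ) := by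
        exact_mod_cast h1
      rw [sumZ_cast] at h1'
      have e : ∑ b ∈ Finset.range 15, (getU a b : ℝ) / 2 ^ 40 * (P2.getD b 0 : ℝ)
          = (∑ b ∈ Finset.range 15, ((getU a b * P2.getD b 0 : ℤ) : ℝ)) / 2 ^ 40 := by
        rw [Finset.sum_div]
        apply Finset.sum_congr rfl
        intro b _
        push_cast
        ring
      show ∑ b ∈ Finset.range 15, (getU a b : ℝ) / 2 ^ 40 * (P2.getD b 0 : ℝ)
        ≤ w (a + 1) * (P2.getD a 0 : ℝ)
      rw [e, w_eq ha, div_le_iff₀ (by positivity)]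
      have h40 : (0 : ℝ) < 40 ^ (2 * (a + 1)) := by positivity
      have e2 : ((31 : ℝ) ^ (2 * (a + 1)) / 40 ^ (2 * (a + 1))) * (P2.getD a 0 : ℝ) * 2 ^ 40
          = (31 ^ (2 * (a + 1)) * 1099511627776 * (P2.getD a 0 : ℝ))
            / (40 ^ (2 * (a + 1))) := by
        field_simp
        norm_num
      rw [e2, le_div_iff₀ (by positivity)]
      linarith)
    (fun a => t (a + 1))
  refine le_trans ?_ h
  apply Finset.sum_le_sum
  intro a ha
  apply Finset.sum_le_sum
  intro b hb
  rw [Finset.mem_range] at ha hb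
  apply mul_le_mul_of_nonneg_right _ (ht _)
  apply mul_le_mul_of_nonneg_right _ (ht _)
  exact norm_gR_le ha hb

/-! ### the first columns of the general forms -/

/-- squared norm of the first column, integer form -/
def colSq (b : ℕ) : ℤ :=
  sumZ (fun k => (getZ (dataB.getD (b - 1) []) k 0).1 * (getZ (dataB.getD (b - 1) []) k 0).1
    + (getZ (dataB.getD (b - 1) []) k 0).2 * (getZ (dataB.getD (b - 1) []) k 0).2) 16

theorem chkB : ∀ b < 5, 1 ≤ b → colSq b * 100 ≤ 48 * 1208925819614629174706176 := by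
  decide +kernel

theorem LB_zero_le (b : ℕ) (hb1 : 1 ≤ b) (hb : b < 5) :
    ∑ k ∈ Finset.range 16, ‖LB b k 0‖ ^ 2 ≤ 0.48 := by
  have h := chkB b hb hb1
  have h' : ((colSq b : ℤ) : ℝ) * 100 ≤ 48 * 1208925819614629174706176 := by exact_mod_cast h
  have e : ∑ k ∈ Finset.range 16, ‖LB b k 0‖ ^ 2 = (colSq b : ℝ) / 2 ^ 80 := by
    unfold colSq
    rw [sumZ_cast, Finset.sum_div]
    apply Finset.sum_congr rfl
    intro k _
    rw [Complex.sq_norm]
    simp only [LB, toC40, Complex.normSq_mk]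
    push_cast
    ring
  rw [e, div_le_iff₀ (by norm_num)]
  have : (0.48 : ℝ) * 2 ^ 80 = 48 * 1208925819614629174706176 / 100 := by norm_num
  rw [this]
  linarith

end Pool.Agent.H93.NumR
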