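import Pool.Agent.Lib.H93.Exact
import Pool.Agent.Lib.H93.NumR

/-!
Chunk D: local exactness of the form 0 near `ζ = 1`.

Throughout `z` is real and small, `φ = (11/20) z`, `u = e^{iφ}`, `ζ = e^{iz}`, `x = s x* + y`,
`s = K.s x`, `y = K.y x` (so `s(y) = 0`), `S = ‖s‖`, `Y² = Wn y`.
The claim (`local_exact`): `N_0 (A ζ x) ≤ N_0 (rot u x)` for `|z| ≤ 1/3300`.
It follows from
* D1 `local_expand`: `N_0 (rot u x) - N_0 (A ζ x) ≥ M0 (z s) y - (23/2) |z| (10 z² S² + Y²)`,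
* D2 `M0_lower`: `M0 ς y ≥ 0.0035 (10 |ς|² + Wn y)` for all `ς` and bounded `y` with `s(y) = 0`.
-/

namespace Pool.Agent.H93

open Filter Topology ComplexConjugate

/-- weights `W_j` -/
noncomputable def wj (j : ℕ) : ℝ := if j < 16 then (31 / 40) ^ (2 * j) else ek j ^ 2

/-- `Y² = ∑_{j ≥ 1} W_j |y_j|²` -/
noncomputable def Wn (y : ℕ → ℂ) : ℝ := ∑' j : ℕ, wj (j + 1) * ‖y (j + 1)‖ ^ 2

/-- Gram matrix of `LR` -/
noncomputable def gramR (a b : ℕ) : ℂ := ∑ k ∈ Finset.range 15, conj (LR k a) * LR k b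

/-- (N1) numerical fact on the data (kernel evaluation of the integer data, Schur test). -/
theorem gramR_N1 (t : ℕ → ℝ) (ht : ∀ j, 0 ≤ t j) :
    ∑ a ∈ Finset.range 15, ∑ b ∈ Finset.range 15,
      ‖gramR a b‖ * |(a : ℝ) - b| * t (a + 1) * t (b + 1) ≤
    1.75 * ∑ a ∈ Finset.range 15, wj (a + 1) * t (a + 1) ^ 2 :=
  NumR.N1 t ht

/-- (N2) -/
theorem gramR_N2 (t : ℕ → ℝ) (ht : ∀ j, 0 ≤ t j) :
    ∑ a ∈ Finset.range 15, ∑ b ∈ Finset.range 15, ‖gramR a b‖ * t (a + 1) * t (b + 1) ≤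
    ∑ a ∈ Finset.range 15, wj (a + 1) * t (a + 1) ^ 2 :=
  NumR.N2 t ht

/-- (N3a) -/
theorem gramR_N3a :
    ∑ a ∈ Finset.range 15, ∑ b ∈ Finset.range 15, ‖gramR a b‖ ≤ 0.9 :=
  NumR.N3a

/-- (N3b), `k₁ ≥ 0.853` -/
theorem gramR_N3b :
    ∑ a ∈ Finset.range 15, ∑ b ∈ Finset.range 15,
      ‖gramR a b‖ * ((a : ℝ) + 1 - 0.853) * ((b : ℝ) + 1 - 0.853) ≤ 5.1 :=
  NumR.N3b

/-- (N3c) -/
theorem gramR_N3c :
    ∑ a ∈ Finset.range 15, ∑ b ∈ Finset.range 15,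
      ‖gramR a b‖ * (((a : ℝ) + 1) ^ 2 / 2 + 0.86 * (a + 1) + 1.5) *
        (((b : ℝ) + 1) ^ 2 / 2 + 0.86 * (b + 1) + 1.5) ≤ 145 :=
  NumR.N3c

/-- transversal coordinates of a sequence (only the entries `j ≥ 1` are used) -/
noncomputable def rhoT (v : ℕ → ℂ) (k : ℕ) : ℂ :=
  if k = 0 then 0
  else if k < 16 then ∑ i ∈ Finset.range 15, LR (k - 1) i * v (i + 1)
  else (ek k : ℂ) * v k

/-- transversal form -/
noncomputable def RRT (v : ℕ → ℂ) : ℝ := ∑' k : ℕ, ‖rhoT v k‖ ^ 2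

namespace Crit

variable (K : Crit)

/-- `k₁` (real) -/
noncomputable def k1 : ℝ := (∑' j : ℕ, (j : ℂ) * K.cc j * K.xs j).re

/-- `κ = ∑ j² c_j x*_j` -/
noncomputable def kap : ℂ := ∑' j : ℕ, (j : ℂ) ^ 2 * K.cc j * K.xs j

/-- `∑ j c_j v_j` -/
noncomputable def l1 (v : ℕ → ℂ) : ℂ := ∑' j : ℕ, (j : ℂ) * K.cc j * v j

/-- `∑ (j+1) r^{j+1} v_j` -/
noncomputable def gg1 (v : ℕ → ℂ) : ℂ := ∑' j : ℕ, ((j : ℂ) + 1) * (K.r : ℂ) ^ (j + 1) * v j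

/-- `v¹_j = (j - k₁) x*_j` -/
noncomputable def v1 (j : ℕ) : ℂ := ((j : ℂ) - K.k1) * K.xs j

/-- the scalar part of the limiting form: `σ² (k₁² - Re κ) - 1 + g2/g`, `σ = 11/20` -/
noncomputable def gam0 : ℝ :=
  (11 / 20) ^ 2 * (K.k1 ^ 2 - K.kap.re) - 1 + (K.g2 / K.g).re

/-- the limiting form -/
noncomputable def M0 (ς : ℂ) (y : ℕ → ℂ) : ℝ :=
  K.gam0 * ‖ς‖ ^ 2
    + 2 * (conj ς * (Complex.I * (11 / 20) * K.l1 y
        + Complex.I * (K.cc 0 / K.ω) * K.gg1 y)).re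
    + RRT (fun j => y j + Complex.I * (11 / 20) * ς * K.v1 j)
    - RRT (fun j => K.A 1 y j - Complex.I * K.ω * ς * K.xs j)

theorem Wn_nonneg (y : ℕ → ℂ) : 0 ≤ Wn y :=
  tsum_nonneg fun j => mul_nonneg (by unfold wj; split_ifs <;> positivity) (sq_nonneg _)

end Crit

end Pool.Agent.H93
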