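import Pool.Agent.Lib.H93.LocalT34

/-!
Chunk D1: expansion of the form 0 near `ζ = 1` with explicit remainder.
-/

namespace Pool.Agent.H93

open Filter Topology ComplexConjugate LocalAux

/-- the final bookkeeping of the error terms -/
theorem final_arith {t S Y A B R1 R2 P Q sU sA RU RA f : ℝ} (hf : f = 11 / 20 * t) (ht0 : 0 ≤ t)
    (hS0 : 0 ≤ S) (hY0 : 0 ≤ Y)
    (h1 : A + R1 - (12.99 * f ^ 3 * S ^ 2 + 20.38 * f ^ 2 * S * Y) ≤ sU)
    (h2 : sA ≤ B + R2 + (10.01 * t ^ 3 * S ^ 2 + 12.58 * t ^ 2 * S * Y + 0.001 * t * Y ^ 2))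
    (h3 : P - f * (71.7 * f ^ 2 * S ^ 2 + 43.97 * f * S * Y + 5.67 * Y ^ 2) ≤ RU)
    (h4 : RA ≤ Q + t * (2.47 * t ^ 2 * S ^ 2 + 5.49 * t * S * Y + 3.05 * Y ^ 2)) :
    (A - B) + R1 - R2 + P - Q - 23 / 2 * t * (10 * t ^ 2 * S ^ 2 + Y ^ 2) ≤
      sU + RU - (sA + RA) := by
  subst hf
  have hquad : 26.6 * (t * S) ^ 2 + 37.6 * (t * S) * Y + 6.2 * Y ^ 2 ≤
      115 * (t * S) ^ 2 + 23 / 2 * Y ^ 2 := by
    have q1 := sq_nonneg (9.4 * (t * S) - 2 * Y)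
    have q2 := sq_nonneg (t * S)
    have q3 := sq_nonneg Y
    linarith
  have hq2 := mul_le_mul_of_nonneg_left hquad ht0
  have p1 : 0 ≤ t * Y ^ 2 := by positivity
  have p2 : 0 ≤ t ^ 2 * S * Y := by positivity
  have p3 : 0 ≤ t ^ 3 * S ^ 2 := by positivity
  linarith

namespace Crit

variable (K : Crit)

theorem kap_bounds : ‖K.kap‖ ≤ 2.5 ∧ |K.kap.im| ≤ 0.158 := by
  have h : ‖K.kap - ⟨2.494636048908, 0.157622921646⟩‖ ≤ 1e-10 := K.kap_spec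
  constructor
  · have h1 : ‖(⟨2.494636048908, 0.157622921646⟩ : ℂ)‖ ≤ 2.4999 := by
      refine abs_le_of_sq_le_sq' ?_ (by norm_num) |>.2
      rw [← Complex.normSq_eq_norm_sq, Complex.normSq_apply]
      norm_num
    have h2 := norm_sub_norm_le K.kap ⟨2.494636048908, 0.157622921646⟩
    linarith
  · have h2 := (Complex.abs_im_le_norm _).trans h
    rw [Complex.sub_im] at h2
    have h3 := abs_le.mp h2
    simp only at h3
    rw [abs_le]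
    constructor <;> linarith [h3.1, h3.2]

theorem N0_eq {x : ℕ → ℂ} (hx : Bdd x) : K.N 0 x = ‖K.s x‖ ^ 2 + RRT (K.y x) := by
  have h0 : K.lam ((0 : Fin 5) : ℕ) x 0 = K.s x := by simp [lam]
  have h1 : ∀ k, K.lam ((0 : Fin 5) : ℕ) x (k + 1) = rhoT (K.y x) (k + 1) := fun k => by
    simp [lam, rhoT]
  have s1 := (K.bdd_y hx).sm.rho
  have s2 : Summable fun k => ‖K.lam ((0 : Fin 5) : ℕ) x k‖ ^ 2 := by
    rw [← summable_nat_add_iff 1]
    simp only [h1]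
    exact (summable_nat_add_iff 1).mpr s1
  unfold N RRT
  rw [s2.tsum_eq_zero_add, s1.tsum_eq_zero_add, h0, rhoT_zero]
  simp only [h1]
  simp

/-- D1: expansion with explicit remainder. See the header of `LOCAL.md` for the four
estimates T1..T4. -/
theorem local_expand {x : ℕ → ℂ} (hx : Bdd x) {z : ℝ} (hz : |z| ≤ 1 / 3300) :
    K.M0 (z * K.s x) (K.y x) - 23 / 2 * |z| * (10 * z ^ 2 * ‖K.s x‖ ^ 2 + Wn (K.y x)) ≤
      K.N 0 (rot (Complex.exp ((11 / 20 * z : ℝ) * Complex.I)) x)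
        - K.N 0 (K.A (Complex.exp (z * Complex.I)) x) := by
  have hyb := K.bdd_y hx
  have hsy := K.s_y hx
  have hsm := hyb.sm
  set φ : ℝ := 11 / 20 * z with hφ
  set t : ℝ := |z| with ht
  set f : ℝ := 11 / 20 * t with hf
  have ht0 : 0 ≤ t := abs_nonneg z
  have hfφ : |φ| = f := by rw [hφ, hf, abs_mul, abs_of_pos (by norm_num : (0 : ℝ) < 11 / 20)]
  have hf6 : f ≤ 1 / 6000 := by rw [hf]; linarith
  have hz2 : z ^ 2 = t ^ 2 := by rw [ht, sq_abs]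
  obtain ⟨Ea, Eb, hσ, hEa, hEb⟩ := K.sU_eq hx φ
  obtain ⟨Ga, Gb, hG, hGa, hGb⟩ := K.G_eq hx z
  have hφ2 : φ ^ 2 = f ^ 2 := by rw [← hfφ, sq_abs]
  rw [hfφ] at hEa
  rw [hφ2] at hEb
  rw [hz2] at hGb
  set Y := √(Wn (K.y x)) with hYdef
  have hY0 : 0 ≤ Y := Real.sqrt_nonneg _
  have hYsq : Wn (K.y x) = Y ^ 2 := (Real.sq_sqrt (Wn_nonneg _)).symm
  have hk := K.k1_mem
  have hkap' := K.kap_bounds
  have hγ : (K.g2 / K.g).im = 0 := K.stat
  set γ : ℝ := (K.g2 / K.g).re with hγdef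
  have hγ' : (K.g2 / K.g) = (γ : ℂ) := Complex.ext (by simp [hγdef]) (by simp [hγ])
  have hγb : |γ| ≤ 2.71 := by
    have := abs_le.mp K.g2_div_g
    rw [abs_le]
    constructor <;> linarith [this.1, this.2]
  have hcg := K.cc_zero_mul_g
  have hcg2 : K.cc 0 * K.g2 = -K.ω * γ := by
    rw [← hγ', ← hcg]
    field_simp [K.g_ne_zero]
  have h1 := T1 (s := K.s x) (l := K.l1 (K.y x)) (Ea := Ea) (Eb := Eb) (κ := K.kap) (k := K.k1)
    (φ := φ) hfφ hf6 hY0 (by linarith [hk.1]) hk.2 hkap'.2 hkap'.1 (K.norm_l1_le hsm) hEa hEb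
  have h2 := T2 (ω := K.ω) (s := K.s x) (g := K.g) (g2 := K.g2) (c := K.cc 0)
    (m₀ := K.gg1 (K.y x)) (Ga := Ga) (Gb := Gb) (z := z) (γ := γ) ht.symm hz hY0 K.hω hcg hcg2
    hγb K.norm_cc_zero.2 (K.norm_gg1_le hyb hsy) hGa hGb
  have h3 := K.T3 hx hfφ hf6 hσ hEa hEb hkap'.1
  have h4 := K.T4 hx ht.symm hz hG hGa hGb
  rw [← hσ] at h1
  have hsA : K.s (K.A (Complex.exp (z * Complex.I)) x) = K.ω * K.s x - K.cc 0 * (K.s x *
      (z * Complex.I * K.g - z ^ 2 / 2 * K.g2 + Ga) + (z * Complex.I * K.gg1 (K.y x) + Gb)) := by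
    rw [K.s_A hx, hG]
  rw [← hsA] at h2
  have hu1 : ‖Complex.exp (φ * Complex.I)‖ = 1 := Complex.norm_exp_ofReal_mul_I φ
  rw [K.N0_eq (hx.rot hu1), K.N0_eq (K.bdd_A hx)]
  rw [← hYdef, hYsq] at h3 h4
  rw [hYsq]
  -- the main terms
  have hM : K.M0 (z * K.s x) (K.y x) = K.gam0 * (z ^ 2 * ‖K.s x‖ ^ 2)
      + 2 * (conj (K.s x) * (φ * Complex.I * K.l1 (K.y x))).re
      - 2 * (conj (K.ω * K.s x) * (-(z * Complex.I * K.cc 0 * K.gg1 (K.y x)))).re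
      + RRT (fun j => K.y x j + φ * Complex.I * K.s x * K.v1 j)
      - RRT (fun j => K.A 1 (K.y x) j - Complex.I * K.ω * (z * K.s x) * K.xs j) := by
    unfold M0
    have e1 : ‖(z : ℂ) * K.s x‖ ^ 2 = z ^ 2 * ‖K.s x‖ ^ 2 := by
      rw [norm_mul, mul_pow, Complex.norm_real, Real.norm_eq_abs, sq_abs]
    have e2 : (fun j => K.y x j + Complex.I * (11 / 20) * (z * K.s x) * K.v1 j) =
        fun j => K.y x j + φ * Complex.I * K.s x * K.v1 j := by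
      funext j
      rw [hφ]; push_cast; ring
    have hωc : conj K.ω = K.ω⁻¹ := (Complex.inv_eq_conj K.hω).symm
    have e3 : conj ((z : ℂ) * K.s x) * (Complex.I * (11 / 20) * K.l1 (K.y x)
        + Complex.I * (K.cc 0 / K.ω) * K.gg1 (K.y x)) =
        conj (K.s x) * (φ * Complex.I * K.l1 (K.y x)) -
        conj (K.ω * K.s x) * (-(z * Complex.I * K.cc 0 * K.gg1 (K.y x))) := by
      rw [map_mul, map_mul, Complex.conj_ofReal, hωc, hφ]
      push_cast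
      ring
    rw [e1, e2, e3, Complex.sub_re]
    ring
  have hgam : K.gam0 * (z ^ 2 * ‖K.s x‖ ^ 2) =
      ‖K.s x‖ ^ 2 * (1 + φ ^ 2 * (K.k1 ^ 2 - K.kap.re)) -
        ‖K.s x‖ ^ 2 * (1 + z ^ 2 - γ * z ^ 2) := by
    unfold gam0
    rw [← hγdef, hφ]
    ring
  rw [hM, hgam, hz2]
  rw [hz2] at h2
  exact final_arith hf ht0 (norm_nonneg _) hY0 h1 h2 h3 h4

end Crit

end Pool.Agent.H93
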