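import Pool.Agent.Lib.H93.LowerTail3

/-!
Chunk D2: positivity of the limiting form. The finite part (dimension 36) is `Crit.fin_lower`
(`LowerFin.lean`), the tail `j ≥ 36` is in `LowerTail.lean`, `LowerTail2.lean`, `LowerTail3.lean`.
-/

namespace Pool.Agent.H93

open Filter Topology ComplexConjugate Low

namespace Crit

variable (K : Crit)

theorem diag_eqL (η : ℂ) (z : ℕ → ℂ) :
    ∑ k ∈ Finset.range 20, dT K.k1 η z (k + 16) - 1 / 102400 * ‖z 15 - η‖ ^ 2 =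
      (K.rD0L - K.gam0) * ‖η‖ ^ 2 + ∑ a ∈ Finset.range 35, rDL (a + 1) * ‖z (a + 1)‖ ^ 2 +
      2 * (conj η * ∑ b ∈ Finset.range 35, (K.exbL (b + 1) : ℂ) * z (b + 1)).re := by
  have e1 : ∑ a ∈ Finset.range 35, rDL (a + 1) * ‖z (a + 1)‖ ^ 2 = -(1 / 102400) * ‖z 15‖ ^ 2 +
      ∑ k ∈ Finset.range 20, ek (k + 16) ^ 2 * (51 / 100) * ‖z (k + 16)‖ ^ 2 := by
    rw [show 35 = 15 + 20 by norm_num, Finset.sum_range_add, Finset.sum_range_succ]
    have h1 : ∑ x ∈ Finset.range 14, rDL (x + 1) * ‖z (x + 1)‖ ^ 2 = 0 := by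
      refine Finset.sum_eq_zero fun x hx => ?_
      have := Finset.mem_range.1 hx
      unfold rDL
      rw [if_neg (by omega), if_neg (by omega), zero_mul]
    have h2 : rDL (14 + 1) = -(1 / 102400) := by simp [rDL]
    rw [h1, h2, zero_add]
    congr 1
    refine Finset.sum_congr rfl fun x _ => ?_
    unfold rDL
    rw [if_pos (by omega), show 15 + x + 1 = x + 16 by ring]
    ring
  have e2 : ∑ b ∈ Finset.range 35, (K.exbL (b + 1) : ℂ) * z (b + 1) =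
      ((1 / 102400 : ℝ) : ℂ) * z 15 + ∑ k ∈ Finset.range 20,
        ((ek (k + 16) ^ 2 * ((11 / 20) * (((k + 16 : ℕ) : ℝ) - K.k1) + 49 / 100) : ℝ) : ℂ) *
          z (k + 16) := by
    rw [show 35 = 15 + 20 by norm_num, Finset.sum_range_add, Finset.sum_range_succ]
    have h1 : ∑ x ∈ Finset.range 14, (K.exbL (x + 1) : ℂ) * z (x + 1) = 0 := by
      refine Finset.sum_eq_zero fun x hx => ?_
      have := Finset.mem_range.1 hx
      unfold exbL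
      rw [if_neg (by omega), if_neg (by omega), Complex.ofReal_zero, zero_mul]
    have h2 : K.exbL (14 + 1) = 1 / 102400 := by simp [exbL]
    have h3 : ∀ x ∈ Finset.range 20, (K.exbL (15 + x + 1) : ℂ) * z (15 + x + 1) =
        ((ek (x + 16) ^ 2 * ((11 / 20) * (((x + 16 : ℕ) : ℝ) - K.k1) + 49 / 100) : ℝ) : ℂ) *
          z (x + 16) := by
      intro x _
      unfold exbL
      rw [show 15 + x + 1 = x + 16 by ring, if_pos (by omega)]
    rw [h1, h2, zero_add, Finset.sum_congr rfl h3]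
  have e3 : K.rD0L - K.gam0 = ∑ k ∈ Finset.range 20, ek (k + 16) ^ 2 *
      (((11 / 20) * (((k + 16 : ℕ) : ℝ) - K.k1)) ^ 2 - 49 / 100) - 1 / 102400 := by
    unfold rD0L
    have : ∑ k ∈ Finset.range 20, ek (16 + k) ^ 2 * (((11 / 20) * (((16 + k : ℕ) : ℝ) - K.k1)) ^ 2 -
        49 / 100) = ∑ k ∈ Finset.range 20, ek (k + 16) ^ 2 *
      (((11 / 20) * (((k + 16 : ℕ) : ℝ) - K.k1)) ^ 2 - 49 / 100) := by
      refine Finset.sum_congr rfl fun k _ => ?_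
      rw [add_comm 16 k]
    rw [this]
    ring
  have e4 : ∑ k ∈ Finset.range 20, dT K.k1 η z (k + 16) =
      ∑ k ∈ Finset.range 20, ek (k + 16) ^ 2 * (51 / 100) * ‖z (k + 16)‖ ^ 2 +
      2 * ∑ k ∈ Finset.range 20,
        (ek (k + 16) ^ 2 * ((11 / 20) * (((k + 16 : ℕ) : ℝ) - K.k1) + 49 / 100)) *
          (conj η * z (k + 16)).re +
      (∑ k ∈ Finset.range 20, ek (k + 16) ^ 2 *
        (((11 / 20) * (((k + 16 : ℕ) : ℝ) - K.k1)) ^ 2 - 49 / 100)) * ‖η‖ ^ 2 := by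
    rw [Finset.mul_sum, Finset.sum_mul, ← Finset.sum_add_distrib, ← Finset.sum_add_distrib]
    refine Finset.sum_congr rfl fun k _ => ?_
    rw [dT_eq K.k1 η z (show 16 ≤ k + 16 by omega)]
    ring
  have e5 : (conj η * ∑ b ∈ Finset.range 35, (K.exbL (b + 1) : ℂ) * z (b + 1)).re =
      1 / 102400 * (conj η * z 15).re + ∑ k ∈ Finset.range 20,
        (ek (k + 16) ^ 2 * ((11 / 20) * (((k + 16 : ℕ) : ℝ) - K.k1) + 49 / 100)) *
          (conj η * z (k + 16)).re := by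
    rw [e2, mul_add, Finset.mul_sum, Complex.add_re, Complex.re_sum]
    congr 1
    · rw [mul_left_comm, Complex.re_ofReal_mul]
    · refine Finset.sum_congr rfl fun k _ => ?_
      rw [mul_left_comm, Complex.re_ofReal_mul]
  rw [e1, e3, e4, e5, sq_sub]
  ring

theorem bmL_zero {k : ℕ} (hk1 : 1 ≤ k) (hk : k < 15) : K.bmL k 0 = 0 := by
  have h := alln_spec chkU hk
  rw [Bool.or_eq_true] at h
  rcases h with h | h
  · have := Nat.le_of_ble_eq_true h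
    omega
  · have h1 : rz k 0 = (0, 0) := by simpa using h
    unfold bmL
    have : LR k 0 = tc 40 (rz k 0) := rfl
    rw [this, h1, tc_zero, zero_mul]

theorem norm_bmL_zero_zero : ‖K.bmL 0 0‖ ≤ 0.42 := by
  unfold bmL
  rw [norm_mul, K.norm_xs, mul_one]
  have h : rz 0 0 = (457400857289, 0) := by decide +kernel
  have : LR 0 0 = tc 40 (rz 0 0) := rfl
  rw [this, h]
  refine (norm_tc_le _ _).trans ?_
  norm_num

/-- the negative head functionals of the finite part -/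
theorem norm_N0L_le (h : ℕ → ℂ) : ‖∑ a ∈ Finset.range 36, K.cfNL a 0 * h a‖ ≤
    1.01 * ∑ a ∈ Finset.range 36, ww a * ‖h a‖ := by
  rw [Finset.mul_sum]
  refine norm_sum_le_of_le _ fun a ha => ?_
  have ha' := Finset.mem_range.1 ha
  rw [norm_mul, ← mul_assoc]
  refine mul_le_mul_of_nonneg_right ?_ (norm_nonneg _)
  have h1 := K.cfNL_near ha' (k := 0) (by norm_num)
  have h2 := norm_eN_le ha' (k := 0) (by norm_num)
  have h3 := ww_nonneg a
  have e : K.cfNL a 0 = (K.cfNL a 0 - eN a 0) + eN a 0 := by ring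
  rw [e]
  refine (norm_add_le _ _).trans ((add_le_add h1 h2).trans ?_)
  norm_num
  linarith

/-- the linear term -/
theorem linTermL (ς : ℂ) {y : ℕ → ℂ} (hy : Bdd y) (hs : K.s y = 0) :
    2 * (conj ς * (Complex.I * (11 / 20) * K.l1 y
        + Complex.I * (K.cc 0 / K.ω) * K.gg1 y)).re =
      -(2 * (conj (Complex.I * ς) *
        ∑ b ∈ Finset.range 35, K.lamjL (b + 1) * K.zzL y (b + 1)).re) -
      2 * (conj (Complex.I * ς) * (K.lam0L 0 * ∑' k : ℕ, K.pjL (k + 36) * K.zzL y (k + 36) +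
        ∑' k : ℕ, K.lam0L (k + 36) * K.zzL y (k + 36))).re := by
  have e1 : conj ς * (Complex.I * (11 / 20) * K.l1 y + Complex.I * (K.cc 0 / K.ω) * K.gg1 y) =
      -(conj (Complex.I * ς) * ((11 / 20) * K.l1 y + K.cc 0 / K.ω * K.gg1 y)) := by
    rw [map_mul, Complex.conj_I]
    ring
  rw [e1, K.lin_eqL hy, K.lin_splitL hy hs, mul_add, neg_add, Complex.add_re, Complex.neg_re,
    Complex.neg_re]
  ring

/-- the positive transversal form -/
theorem posTermL (ς : ℂ) {y : ℕ → ℂ} (hy : Bdd y) :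
    RRT (fun j => y j + Complex.I * (11 / 20) * ς * K.v1 j) =
      ∑ k ∈ Finset.range 15, ‖∑ a ∈ Finset.range 36, K.cfPL a k * K.hhL ς y a‖ ^ 2 +
      ∑' k : ℕ, ek (k + 16) ^ 2 *
        ‖y (k + 16) + Complex.I * (11 / 20) * ς * K.v1 (k + 16)‖ ^ 2 := by
  have h := RRT_split (v := fun j => y j + Complex.I * (11 / 20) * ς * K.v1 j)
    (K.summable_TP ς hy)
  rw [h]
  congr 1
  refine Finset.sum_congr rfl fun k _ => ?_
  rw [K.headPL, K.headP_eqL]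

/-- the negative transversal form -/
theorem negTermL (ς : ℂ) {y : ℕ → ℂ} (hy : Bdd y) (hs : K.s y = 0) :
    RRT (fun j => K.A 1 y j - Complex.I * K.ω * ς * K.xs j) =
      ∑ k ∈ Finset.range 15, ‖∑ a ∈ Finset.range 36, K.cfNL a k * K.hhL ς y a +
        K.bmL k 0 * ∑' k : ℕ, K.pjL (k + 36) * K.zzL y (k + 36)‖ ^ 2 +
      ∑' k : ℕ, ek (k + 16) ^ 2 *
        ‖K.A 1 y (k + 16) - Complex.I * K.ω * ς * K.xs (k + 16)‖ ^ 2 := by
  have hsum2 : Bdd fun j => K.A 1 y j - Complex.I * K.ω * ς * K.xs j := by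
    obtain ⟨C, hC⟩ := K.bdd_A (ζ := 1) hy
    refine ⟨C + ‖Complex.I * K.ω * ς‖, fun j => (norm_sub_le _ _).trans ?_⟩
    rw [norm_mul (Complex.I * K.ω * ς), K.norm_xs, mul_one]
    gcongr
    exact hC j
  have h := RRT_split (v := fun j => K.A 1 y j - Complex.I * K.ω * ς * K.xs j)
    (summable_ek_bdd hsum2 16 le_rfl)
  rw [h]
  congr 1
  refine Finset.sum_congr rfl fun k _ => ?_
  rw [K.headNL, K.headN_eqL ς hy hs, norm_mul, K.hω, one_mul]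

/-- the perturbation of the negative head -/
theorem negHeadL {h : ℕ → ℂ} {a0 : ℂ} {T G : ℝ}
    (ha : ‖a0‖ ^ 2 ≤ 7 / 10 ^ 7 * T) (hL : (∑ a ∈ Finset.range 36, ww a * ‖h a‖) ^ 2 ≤ 36 * G) :
    ∑ k ∈ Finset.range 15,
      ‖∑ a ∈ Finset.range 36, K.cfNL a k * h a + K.bmL k 0 * a0‖ ^ 2 ≤
      ∑ k ∈ Finset.range 15, ‖∑ a ∈ Finset.range 36, K.cfNL a k * h a‖ ^ 2 +
        (38 / 10 ^ 6 * G + 0.124 * T) := by
  have hN0 := K.norm_N0L_le h
  have e1 : ∀ k ∈ Finset.range 14,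
      ‖∑ a ∈ Finset.range 36, K.cfNL a (k + 1) * h a + K.bmL (k + 1) 0 * a0‖ ^ 2 =
      ‖∑ a ∈ Finset.range 36, K.cfNL a (k + 1) * h a‖ ^ 2 := by
    intro k hk
    have := Finset.mem_range.1 hk
    rw [K.bmL_zero (by omega) (by omega), zero_mul, add_zero]
  rw [Finset.sum_range_succ', Finset.sum_range_succ'
    (fun k => ‖∑ a ∈ Finset.range 36, K.cfNL a k * h a‖ ^ 2), Finset.sum_congr rfl e1]
  have hb := K.norm_bmL_zero_zero
  generalize ∑ k ∈ Finset.range 14, ‖∑ a ∈ Finset.range 36, K.cfNL a (k + 1) * h a‖ ^ 2 = S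
  generalize ∑ a ∈ Finset.range 36, K.cfNL a 0 * h a = N at hN0 ⊢
  generalize ∑ a ∈ Finset.range 36, ww a * ‖h a‖ = L at hN0 hL
  have h1 : ‖N + K.bmL 0 0 * a0‖ ≤ ‖N‖ + 0.42 * ‖a0‖ := by
    refine (norm_add_le _ _).trans ?_
    rw [norm_mul]
    gcongr
  have h2 : ‖N + K.bmL 0 0 * a0‖ ^ 2 ≤ (‖N‖ + 0.42 * ‖a0‖) ^ 2 := by gcongr
  have h3 : ‖N‖ ^ 2 ≤ (1.01 * L) ^ 2 := by gcongr
  have h4 : (‖N‖ + 0.42 * ‖a0‖) ^ 2 ≤
      ‖N‖ ^ 2 + (1 / 10 ^ 6 * ‖N‖ ^ 2 + 10 ^ 6 * (0.42 * ‖a0‖) ^ 2) + (0.42 * ‖a0‖) ^ 2 := by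
    nlinarith [sq_nonneg (1 / 10 ^ 3 * ‖N‖ - 10 ^ 3 * (0.42 * ‖a0‖))]
  have h5 : (0.42 * ‖a0‖) ^ 2 = 0.1764 * ‖a0‖ ^ 2 := by ring
  have h6 : (1.01 * L) ^ 2 = 1.0201 * L ^ 2 := by ring
  rw [h5] at h4
  rw [h6] at h3
  have hG : 0 ≤ G := by
    have := sq_nonneg L
    linarith
  have hT : 0 ≤ T := by
    have := sq_nonneg ‖a0‖
    norm_num at ha
    linarith
  norm_num at h3 h4 ha h2 hL ⊢
  linarith

theorem linErrL {η Λ : ℂ} {T : ℝ} (hlam : ‖Λ‖ ^ 2 ≤ 31 / 10 ^ 5 * T) :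
    2 * (conj η * Λ).re ≤ 0.0018 * ‖η‖ ^ 2 + 0.1723 * T := by
  have h1 : (conj η * Λ).re ≤ ‖η‖ * ‖Λ‖ := by
    refine (Complex.re_le_norm _).trans (le_of_eq ?_)
    rw [norm_mul, RCLike.norm_conj]
  have h2 : 2 * (‖η‖ * ‖Λ‖) ≤ 0.0018 * ‖η‖ ^ 2 + ‖Λ‖ ^ 2 / 0.0018 := by
    have e : 0.0018 * ‖η‖ ^ 2 + ‖Λ‖ ^ 2 / 0.0018 - 2 * (‖η‖ * ‖Λ‖) =
        (0.0018 * ‖η‖ - ‖Λ‖) ^ 2 / 0.0018 := by
      field_simp
      ring
    have h3 : 0 ≤ (0.0018 * ‖η‖ - ‖Λ‖) ^ 2 / 0.0018 := by positivity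
    linarith
  have hT : 0 ≤ T := by
    have := sq_nonneg ‖Λ‖
    norm_num at hlam
    linarith
  have h3 : ‖Λ‖ ^ 2 / 0.0018 ≤ 0.1723 * T := by
    rw [div_le_iff₀ (by norm_num)]
    norm_num at hlam ⊢
    linarith
  linarith

theorem Wn_splitL {y : ℕ → ℂ} (hy : Bdd y) :
    Wn y = ∑ a ∈ Finset.range 35, wj (a + 1) * ‖K.zzL y (a + 1)‖ ^ 2 +
      ∑' k : ℕ, ek (k + 36) ^ 2 * ‖K.zzL y (k + 36)‖ ^ 2 := by
  unfold Wn
  have hWs : Summable fun j : ℕ => wj (j + 1) * ‖y (j + 1)‖ ^ 2 := by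
    rw [← summable_nat_add_iff 15]
    refine (summable_ek_bdd hy 16 le_rfl).congr fun k => ?_
    unfold wj
    rw [if_neg (by omega)]
  rw [← hWs.sum_add_tsum_nat_add 35]
  congr 1
  · refine Finset.sum_congr rfl fun a _ => ?_
    rw [K.norm_zzL]
  · refine tsum_congr fun k => ?_
    unfold wj
    rw [if_neg (by omega), K.norm_zzL]

/-- first row -/
theorem rowL (η : ℂ) (z : ℕ → ℂ) :
    (conj η * ∑ b ∈ Finset.range 35, K.rXL (b + 1) * z (b + 1)).re =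
      -(conj η * ∑ b ∈ Finset.range 35, K.lamjL (b + 1) * z (b + 1)).re +
      (conj η * ∑ b ∈ Finset.range 35, (K.exbL (b + 1) : ℂ) * z (b + 1)).re := by
  rw [← Complex.neg_re, ← Complex.add_re, ← mul_neg, ← mul_add, ← Finset.sum_neg_distrib,
    ← Finset.sum_add_distrib]
  congr 2
  refine Finset.sum_congr rfl fun b _ => ?_
  unfold rXL
  ring

/-- D2: positivity of the limiting form with margin. -/
theorem M0_lower (ς : ℂ) {y : ℕ → ℂ} (hy : Bdd y) (hs : K.s y = 0) :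
    0.0035 * (10 * ‖ς‖ ^ 2 + Wn y) ≤ K.M0 ς y := by
  have hz := K.bdd_zzL hy
  have hηn : ‖Complex.I * ς‖ = ‖ς‖ := by rw [norm_mul, Complex.norm_I, one_mul]
  have hR3 := K.TP_sub_TN ς hy
  have hR4 := K.diag_eqL (Complex.I * ς) (K.zzL y)
  have hR5 := K.dT_tail_ge ς hy
  have hfin := K.fin_lower (K.hhL ς y)
  have hL := L_sq_le (K.hhL ς y)
  unfold finL at hfin
  simp only [K.hhL_succ, K.hhL_zero] at hfin hL
  rw [K.rowL] at hfin
  have hNN := K.negHeadL (K.aL_sq_le hz) hL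
  have hlam := linErrL (η := Complex.I * ς) (K.linL_sq_le hz)
  have hT0 : 0 ≤ ∑' k : ℕ, ek (k + 36) ^ 2 * ‖K.zzL y (k + 36)‖ ^ 2 :=
    tsum_nonneg fun k => by positivity
  have hG0 : 0 ≤ ∑ a ∈ Finset.range 35, wj (a + 1) * ‖K.zzL y (a + 1)‖ ^ 2 :=
    Finset.sum_nonneg fun a _ => mul_nonneg (by unfold wj; split_ifs <;> positivity) (sq_nonneg _)
  have hn := sq_nonneg ‖ς‖
  unfold M0
  rw [K.linTermL ς hy hs, K.posTermL ς hy, K.negTermL ς hy hs, K.Wn_splitL hy]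
  rw [hηn] at hfin hR4 hlam hNN
  generalize (conj (Complex.I * ς) * ∑ b ∈ Finset.range 35,
    K.lamjL (b + 1) * K.zzL y (b + 1)).re = A1 at *
  generalize (conj (Complex.I * ς) * ∑ b ∈ Finset.range 35,
    (K.exbL (b + 1) : ℂ) * K.zzL y (b + 1)).re = A2 at *
  generalize (conj (Complex.I * ς) * (K.lam0L 0 * ∑' k : ℕ, K.pjL (k + 36) * K.zzL y (k + 36) +
        ∑' k : ℕ, K.lam0L (k + 36) * K.zzL y (k + 36))).re = A3 at *
  generalize ∑' k : ℕ, ek (k + 36) ^ 2 * ‖K.zzL y (k + 36)‖ ^ 2 = T at *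
  generalize ∑ a ∈ Finset.range 35, wj (a + 1) * ‖K.zzL y (a + 1)‖ ^ 2 = G0 at *
  norm_num at hfin hNN hlam hR3 hR4 hR5 ⊢
  linarith

end Crit

end Pool.Agent.H93
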