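import Pool.Agent.Lib.H93.LocalRho

/-!
Chunk D1, part 2: numerical series.
-/

namespace Pool.Agent.H93

open Filter Topology ComplexConjugate LocalAux

theorem ratio_sum {a : ℕ → ℝ} {C : ℝ} (n : ℕ) (κ : ℝ) (ha : ∀ j, 0 ≤ a j) (hκ0 : 0 ≤ κ)
    (hκ1 : κ < 1) (hr : ∀ j, n ≤ j → a (j + 1) ≤ κ * a j)
    (hC : ∑ j ∈ Finset.range n, a j + a n / (1 - κ) ≤ C) : Summable a ∧ ∑' j, a j ≤ C :=
  ⟨summable_of_ratio ha hκ0 hκ1 hr, (tsum_le_of_ratio n κ ha hκ0 hκ1 hr).trans hC⟩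

theorem wj_succ {j : ℕ} (hj : 16 ≤ j) : wj (j + 1) = 49 / 100 * wj j := by
  obtain ⟨m, rfl⟩ := Nat.exists_eq_add_of_le' hj
  rw [show m + 16 + 1 = (m + 1) + 16 by ring, wj_tail, wj_tail, ek_tail, ek_tail]
  ring

/-- dividing by the weights -/
theorem div_ratio {f : ℕ → ℝ} {η κ C : ℝ} (hf : ∀ j, 0 ≤ f j) (_hη : 0 ≤ η)
    (hr : ∀ j, 15 ≤ j → f (j + 1) ≤ η * f j) (hκ : η ^ 2 ≤ 49 / 100 * κ) (hκ1 : κ < 1)
    (hC : ∑ j ∈ Finset.range 15, f j ^ 2 / wj (j + 1) + f 15 ^ 2 / wj 16 / (1 - κ) ≤ C) :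
    (Summable fun j => f j ^ 2 / wj (j + 1)) ∧ ∑' j, f j ^ 2 / wj (j + 1) ≤ C := by
  have hκ0 : 0 ≤ κ := by nlinarith [sq_nonneg η]
  refine ratio_sum (a := fun j => f j ^ 2 / wj (j + 1)) 15 κ
    (fun j => div_nonneg (sq_nonneg _) (wj_pos _).le) hκ0 hκ1 (fun j hj => ?_) hC
  have hw := wj_pos (j + 1)
  show f (j + 1) ^ 2 / wj (j + 1 + 1) ≤ κ * (f j ^ 2 / wj (j + 1))
  rw [wj_succ (show 16 ≤ j + 1 by omega), div_le_iff₀ (by positivity)]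
  have h1 : f (j + 1) ^ 2 ≤ (η * f j) ^ 2 := by
    have := hf (j + 1)
    have := hr j hj
    gcongr
  calc f (j + 1) ^ 2 ≤ (η * f j) ^ 2 := h1
    _ = η ^ 2 * f j ^ 2 := by ring
    _ ≤ 49 / 100 * κ * f j ^ 2 := by gcongr
    _ = κ * (f j ^ 2 / wj (j + 1)) * (49 / 100 * wj (j + 1)) := by field_simp

/-- multiplying by the weights -/
theorem mul_ratio {p : ℕ → ℝ} {η κ C : ℝ} (hf : ∀ j, 0 ≤ p (j + 1)) (_hη : 0 ≤ η)
    (hr : ∀ j, 16 ≤ j → p (j + 1) ≤ η * p j) (hκ : 49 / 100 * η ^ 2 ≤ κ) (hκ1 : κ < 1)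
    (hC : ∑ j ∈ Finset.range 15, wj (j + 1) * p (j + 1) ^ 2 + wj 16 * p 16 ^ 2 / (1 - κ) ≤ C) :
    (Summable fun j : ℕ => wj (j + 1) * p (j + 1) ^ 2) ∧
      ∑' j : ℕ, wj (j + 1) * p (j + 1) ^ 2 ≤ C := by
  have hκ0 : 0 ≤ κ := by nlinarith [sq_nonneg η]
  refine ratio_sum (a := fun j : ℕ => wj (j + 1) * p (j + 1) ^ 2) 15 κ
    (fun j => mul_nonneg (wj_pos _).le (sq_nonneg _)) hκ0 hκ1 (fun j hj => ?_) hC
  have hw := wj_pos (j + 1)
  show wj (j + 1 + 1) * p (j + 1 + 1) ^ 2 ≤ κ * (wj (j + 1) * p (j + 1) ^ 2)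
  rw [wj_succ (show 16 ≤ j + 1 by omega)]
  have h1 : p (j + 1 + 1) ^ 2 ≤ (η * p (j + 1)) ^ 2 := by
    have := hf (j + 1)
    have := hr (j + 1) (by omega)
    gcongr
  calc 49 / 100 * wj (j + 1) * p (j + 1 + 1) ^ 2 ≤
        49 / 100 * wj (j + 1) * (η * p (j + 1)) ^ 2 := by gcongr
    _ = (49 / 100 * η ^ 2) * (wj (j + 1) * p (j + 1) ^ 2) := by ring
    _ ≤ _ := by gcongr

theorem mul_ratio_tail {p : ℕ → ℝ} {η κ C : ℝ} (hf : ∀ j, 0 ≤ p (j + 1)) (_hη : 0 ≤ η)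
    (hr : ∀ j, 16 ≤ j → p (j + 1) ≤ η * p j) (hκ : 49 / 100 * η ^ 2 ≤ κ) (hκ1 : κ < 1)
    (hC : wj 16 * p 16 ^ 2 / (1 - κ) ≤ C) :
    ∑' m : ℕ, ek (m + 16) ^ 2 * p (m + 16) ^ 2 ≤ C := by
  have hκ0 : 0 ≤ κ := by nlinarith [sq_nonneg η]
  simp only [← wj_tail]
  refine (ratio_sum (a := fun m : ℕ => wj (m + 16) * p (m + 16) ^ 2) 0 κ
    (fun j => mul_nonneg (wj_pos _).le (sq_nonneg _)) hκ0 hκ1 (fun j _ => ?_) (by simpa using hC)).2
  have hw := wj_pos (j + 16)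
  show wj (j + 1 + 16) * p (j + 1 + 16) ^ 2 ≤ κ * (wj (j + 16) * p (j + 16) ^ 2)
  rw [show j + 1 + 16 = j + 16 + 1 by ring, wj_succ (show 16 ≤ j + 16 by omega)]
  have h1 : p (j + 16 + 1) ^ 2 ≤ (η * p (j + 16)) ^ 2 := by
    have := hf (j + 16)
    have := hr (j + 16) (by omega)
    gcongr
  calc 49 / 100 * wj (j + 16) * p (j + 16 + 1) ^ 2 ≤
        49 / 100 * wj (j + 16) * (η * p (j + 16)) ^ 2 := by gcongr
    _ = (49 / 100 * η ^ 2) * (wj (j + 16) * p (j + 16) ^ 2) := by ring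
    _ ≤ _ := by gcongr

theorem wj16 : wj 16 = 1 / 102400 := by
  rw [show (16 : ℕ) = 0 + 16 by norm_num, wj_tail, ek_tail]; norm_num

/-! ### the numbers -/

theorem num_S0 : (Summable fun j : ℕ => ((0.5613 : ℝ) ^ (j + 1)) ^ 2 / wj (j + 1)) ∧
    ∑' j : ℕ, ((0.5613 : ℝ) ^ (j + 1)) ^ 2 / wj (j + 1) ≤ 1.053 ^ 2 := by
  refine div_ratio (f := fun j : ℕ => (0.5613 : ℝ) ^ (j + 1)) (η := 0.5613) (κ := 0.65)
    (fun j => by positivity) (by norm_num) (fun j _ => le_of_eq (by ring)) (by norm_num)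
    (by norm_num) ?_
  rw [wj16]
  simp only [Finset.sum_range_succ, Finset.sum_range_zero, wj]
  norm_num

theorem num_S1 : (Summable fun j : ℕ => (((j : ℝ) + 1) * (0.5613 : ℝ) ^ (j + 1)) ^ 2 / wj (j + 1)) ∧
    ∑' j : ℕ, (((j : ℝ) + 1) * (0.5613 : ℝ) ^ (j + 1)) ^ 2 / wj (j + 1) ≤ 2.89 ^ 2 := by
  refine div_ratio (f := fun j : ℕ => ((j : ℝ) + 1) * (0.5613 : ℝ) ^ (j + 1))
    (η := 17 / 16 * 0.5613) (κ := 0.726)
    (fun j => by positivity) (by norm_num) (fun j hj => ?_) (by norm_num)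
    (by norm_num) ?_
  · have hj' : (15 : ℝ) ≤ j := by exact_mod_cast hj
    push_cast
    calc ((j : ℝ) + 1 + 1) * 0.5613 ^ (j + 1 + 1) ≤
          (17 / 16 * ((j : ℝ) + 1)) * 0.5613 ^ (j + 1 + 1) := by gcongr; linarith
      _ = _ := by ring
  · rw [wj16]
    simp only [Finset.sum_range_succ, Finset.sum_range_zero, wj]
    norm_num

theorem num_S2 :
    (Summable fun j : ℕ => (((j : ℝ) + 1) ^ 2 * (0.5613 : ℝ) ^ (j + 1)) ^ 2 / wj (j + 1)) ∧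
    ∑' j : ℕ, (((j : ℝ) + 1) ^ 2 * (0.5613 : ℝ) ^ (j + 1)) ^ 2 / wj (j + 1) ≤ 23.65 ^ 2 := by
  refine div_ratio (f := fun j : ℕ => ((j : ℝ) + 1) ^ 2 * (0.5613 : ℝ) ^ (j + 1))
    (η := (17 / 16) ^ 2 * 0.5613) (κ := 0.8195)
    (fun j => by positivity) (by norm_num) (fun j hj => ?_) (by norm_num)
    (by norm_num) ?_
  · have hj' : (15 : ℝ) ≤ j := by exact_mod_cast hj
    push_cast
    calc ((j : ℝ) + 1 + 1) ^ 2 * 0.5613 ^ (j + 1 + 1) ≤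
          (17 / 16 * ((j : ℝ) + 1)) ^ 2 * 0.5613 ^ (j + 1 + 1) := by gcongr; linarith
      _ = _ := by ring
  · rw [wj16]
    simp only [Finset.sum_range_succ, Finset.sum_range_zero, wj]
    norm_num

theorem num_R1 : (Summable fun j : ℕ => (((j : ℝ) + 2) * (0.5613 : ℝ) ^ (j + 2)) ^ 2 / wj (j + 1)) ∧
    ∑' j : ℕ, (((j : ℝ) + 2) * (0.5613 : ℝ) ^ (j + 2)) ^ 2 / wj (j + 1) ≤ 2.113 ^ 2 := by
  refine div_ratio (f := fun j : ℕ => ((j : ℝ) + 2) * (0.5613 : ℝ) ^ (j + 2))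
    (η := 18 / 17 * 0.5613) (κ := 0.721)
    (fun j => by positivity) (by norm_num) (fun j hj => ?_) (by norm_num)
    (by norm_num) ?_
  · have hj' : (15 : ℝ) ≤ j := by exact_mod_cast hj
    push_cast
    calc ((j : ℝ) + 1 + 2) * 0.5613 ^ (j + 1 + 2) ≤
          (18 / 17 * ((j : ℝ) + 2)) * 0.5613 ^ (j + 1 + 2) := by gcongr; linarith
      _ = _ := by ring
  · rw [wj16]
    simp only [Finset.sum_range_succ, Finset.sum_range_zero, wj]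
    norm_num

theorem num_R2 :
    (Summable fun j : ℕ => (((j : ℝ) + 2) ^ 2 * (0.5613 : ℝ) ^ (j + 2)) ^ 2 / wj (j + 1)) ∧
    ∑' j : ℕ, (((j : ℝ) + 2) ^ 2 * (0.5613 : ℝ) ^ (j + 2)) ^ 2 / wj (j + 1) ≤ 16.08 ^ 2 := by
  refine div_ratio (f := fun j : ℕ => ((j : ℝ) + 2) ^ 2 * (0.5613 : ℝ) ^ (j + 2))
    (η := (18 / 17) ^ 2 * 0.5613) (κ := 0.80815)
    (fun j => by positivity) (by norm_num) (fun j hj => ?_) (by norm_num)
    (by norm_num) ?_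
  · have hj' : (15 : ℝ) ≤ j := by exact_mod_cast hj
    push_cast
    calc ((j : ℝ) + 1 + 2) ^ 2 * 0.5613 ^ (j + 1 + 2) ≤
          (18 / 17 * ((j : ℝ) + 2)) ^ 2 * 0.5613 ^ (j + 1 + 2) := by gcongr; linarith
      _ = _ := by ring
  · rw [wj16]
    simp only [Finset.sum_range_succ, Finset.sum_range_zero, wj]
    norm_num

theorem num_cube : (Summable fun j : ℕ => (j : ℝ) ^ 3 * (0.5613 : ℝ) ^ j) ∧
    ∑' j : ℕ, (j : ℝ) ^ 3 * (0.5613 : ℝ) ^ j ≤ 54 := by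
  refine ratio_sum (a := fun j : ℕ => (j : ℝ) ^ 3 * (0.5613 : ℝ) ^ j) 20 0.65
    (fun j => by positivity) (by norm_num) (by norm_num) (fun j hj => ?_) ?_
  · have hj' : (20 : ℝ) ≤ j := by exact_mod_cast hj
    have h1 : ((j + 1 : ℕ) : ℝ) ≤ 21 / 20 * j := by push_cast; linarith
    calc ((j + 1 : ℕ) : ℝ) ^ 3 * (0.5613 : ℝ) ^ (j + 1) ≤
          (21 / 20 * (j : ℝ)) ^ 3 * (0.5613 : ℝ) ^ (j + 1) := by gcongr
      _ = ((21 / 20) ^ 3 * 0.5613) * ((j : ℝ) ^ 3 * (0.5613 : ℝ) ^ j) := by ring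
      _ ≤ _ := by gcongr; norm_num
  · simp only [Finset.sum_range_succ, Finset.sum_range_zero]
    norm_num

/-- the polynomial `p_j` -/
noncomputable def pj (j : ℕ) : ℝ := (j : ℝ) ^ 2 / 2 + 0.86 * j + 1.5

theorem pj_nonneg (j : ℕ) : 0 ≤ pj j := by unfold pj; positivity

theorem pj_ratio {j : ℕ} (hj : 16 ≤ j) : pj (j + 1) ≤ (17 / 16) ^ 2 * pj j := by
  have hj' : (16 : ℝ) ≤ j := by exact_mod_cast hj
  unfold pj
  push_cast
  nlinarith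

theorem num_W0 : (Summable fun j : ℕ => wj (j + 1) * (1 : ℝ) ^ 2) ∧
    ∑' j : ℕ, wj (j + 1) * (1 : ℝ) ^ 2 ≤ 1.2264 ^ 2 := by
  refine mul_ratio (p := fun _ => (1 : ℝ)) (η := 1) (κ := 0.49)
    (fun j => by positivity) (by norm_num) (fun j _ => le_of_eq (by ring)) (by norm_num)
    (by norm_num) ?_
  rw [wj16]
  simp only [Finset.sum_range_succ, Finset.sum_range_zero, wj]
  norm_num

theorem num_W1 : (Summable fun j : ℕ => wj (j + 1) * (((j + 1 : ℕ) : ℝ) - 0.853) ^ 2) ∧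
    ∑' j : ℕ, wj (j + 1) * (((j + 1 : ℕ) : ℝ) - 0.853) ^ 2 ≤ 3.125 ^ 2 := by
  refine mul_ratio (p := fun j : ℕ => ((j : ℝ) - 0.853)) (η := 1.07) (κ := 0.562)
    (fun j => by push_cast; linarith [show (0 : ℝ) ≤ j from Nat.cast_nonneg j]) (by norm_num)
    (fun j hj => ?_) (by norm_num)
    (by norm_num) ?_
  · have hj' : (16 : ℝ) ≤ j := by exact_mod_cast hj
    push_cast
    linarith
  · rw [wj16]
    simp only [Finset.sum_range_succ, Finset.sum_range_zero, wj]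
    norm_num

theorem num_W2 : (Summable fun j : ℕ => wj (j + 1) * pj (j + 1) ^ 2) ∧
    ∑' j : ℕ, wj (j + 1) * pj (j + 1) ^ 2 ≤ 16.62 ^ 2 := by
  refine mul_ratio (p := pj) (η := (17 / 16) ^ 2) (κ := 0.6245)
    (fun j => pj_nonneg _) (by norm_num)
    (fun j hj => pj_ratio hj) (by norm_num)
    (by norm_num) ?_
  rw [wj16]
  simp only [Finset.sum_range_succ, Finset.sum_range_zero, wj, pj]
  norm_num

/-- `RRT` norm of a unimodular type sequence -/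
theorem nr_one {v : ℕ → ℂ} {c : ℝ} (hc : 0 ≤ c) (h : ∀ j, ‖v (j + 1)‖ ≤ c) :
    √(RRT v) ≤ c * 0.95 := by
  refine RRT_le_of_le (p := fun _ => 1) (D := 0.9) hc (by norm_num) (fun _ => by norm_num)
    (fun j => by simpa using h j) num_W0.1 ?_ ?_
  · have := gramR_N3a
    simpa using this
  · exact mul_ratio_tail (p := fun _ => (1 : ℝ)) (η := 1) (κ := 0.49)
      (fun j => by positivity) (by norm_num) (fun j _ => le_of_eq (by ring)) (by norm_num)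
      (by norm_num) (by rw [wj16]; norm_num)

theorem nr_lin {v : ℕ → ℂ} {c : ℝ} (hc : 0 ≤ c)
    (h : ∀ j : ℕ, ‖v (j + 1)‖ ≤ c * (((j + 1 : ℕ) : ℝ) - 0.853)) :
    √(RRT v) ≤ c * 2.26 := by
  refine RRT_le_of_le (p := fun j : ℕ => ((j : ℝ) - 0.853)) (D := 5.1) hc (by norm_num)
    (fun j => by push_cast; linarith [show (0 : ℝ) ≤ j from Nat.cast_nonneg j])
    h num_W1.1 ?_ ?_
  · have := gramR_N3b
    simpa only [Nat.cast_add, Nat.cast_one] using this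
  · exact mul_ratio_tail (p := fun j : ℕ => ((j : ℝ) - 0.853)) (η := 1.07) (κ := 0.562)
      (fun j => by push_cast; linarith [show (0 : ℝ) ≤ j from Nat.cast_nonneg j]) (by norm_num)
      (fun j hj => by
        have hj' : (16 : ℝ) ≤ j := by exact_mod_cast hj
        push_cast
        linarith) (by norm_num)
      (by norm_num) (by rw [wj16]; norm_num)

theorem nr_pj {v : ℕ → ℂ} {c : ℝ} (hc : 0 ≤ c)
    (h : ∀ j, ‖v (j + 1)‖ ≤ c * pj (j + 1)) :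
    √(RRT v) ≤ c * 12.07 := by
  refine RRT_le_of_le (p := pj) (D := 145) hc (by norm_num)
    (fun j => pj_nonneg _) h num_W2.1 ?_ ?_
  · have := gramR_N3c
    simpa only [pj, Nat.cast_add, Nat.cast_one] using this
  · exact mul_ratio_tail (p := pj) (η := (17 / 16) ^ 2) (κ := 0.6245)
      (fun j => pj_nonneg _) (by norm_num)
      (fun j hj => pj_ratio hj) (by norm_num)
      (by norm_num) (by rw [wj16]; norm_num [pj])

end Pool.Agent.H93
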