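import Pool.Agent.Lib.H93.LocalDefs
import Pool.Agent.Lib.H93.LocalAux

/-!
Chunk D1, part 1: the transversal form `RRT` and the norm `Wn`.
-/

namespace Pool.Agent.H93

open Filter Topology ComplexConjugate LocalAux

theorem ek_pos (k : ℕ) : 0 < ek k := by unfold ek; positivity

theorem wj_pos (j : ℕ) : 0 < wj j := by
  unfold wj
  split_ifs
  · positivity
  · exact pow_pos (ek_pos j) 2

theorem wj_tail (m : ℕ) : wj (m + 16) = ek (m + 16) ^ 2 := by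
  unfold wj
  rw [if_neg (by omega)]

theorem ek_tail (m : ℕ) : ek (m + 16) = 1 / 320 * (7 / 10) ^ m := by
  unfold ek
  rw [show m + 16 - 16 = m by omega]

/-- finite `Wn` -/
def Sm (v : ℕ → ℂ) : Prop := Summable fun j : ℕ => wj (j + 1) * ‖v (j + 1)‖ ^ 2

theorem sqw (j : ℕ) (a : ℂ) : wj j * ‖a‖ ^ 2 = ‖((√(wj j) : ℝ) : ℂ) * a‖ ^ 2 := by
  rw [norm_mul, mul_pow, Complex.norm_real, Real.norm_eq_abs, sq_abs, Real.sq_sqrt (wj_pos j).le]

theorem Sm.add {v w : ℕ → ℂ} (hv : Sm v) (hw : Sm w) : Sm fun j => v j + w j := by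
  unfold Sm at *
  simp only [sqw, mul_add] at *
  exact summable_sq_add hv hw

theorem Wn_add_le {v w : ℕ → ℂ} (hv : Sm v) (hw : Sm w) :
    √(Wn fun j => v j + w j) ≤ √(Wn v) + √(Wn w) := by
  unfold Sm at *
  unfold Wn
  simp only [sqw, mul_add] at *
  have h := tsum_sq_add_le hv hw
  calc _ ≤ √((√(∑' i, ‖((√(wj (i + 1)) : ℝ) : ℂ) * v (i + 1)‖ ^ 2) +
        √(∑' i, ‖((√(wj (i + 1)) : ℝ) : ℂ) * w (i + 1)‖ ^ 2)) ^ 2) := Real.sqrt_le_sqrt h
    _ = _ := Real.sqrt_sq (by positivity)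

theorem Sm.of_le {v : ℕ → ℂ} {p : ℕ → ℝ} {c : ℝ} (h : ∀ j, ‖v (j + 1)‖ ≤ c * p (j + 1))
    (hp : Summable fun j : ℕ => wj (j + 1) * p (j + 1) ^ 2) : Sm v := by
  refine Summable.of_nonneg_of_le (fun j => mul_nonneg (wj_pos _).le (sq_nonneg _)) (fun j => ?_)
    (hp.mul_left (c ^ 2))
  calc wj (j + 1) * ‖v (j + 1)‖ ^ 2 ≤ wj (j + 1) * (c * p (j + 1)) ^ 2 := by
        have := wj_pos (j + 1)
        gcongr
        exact h j
    _ = _ := by ring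

theorem Wn_le_of_le {v : ℕ → ℂ} {p : ℕ → ℝ} {c B : ℝ} (hc : 0 ≤ c) (hB : 0 ≤ B)
    (h : ∀ j, ‖v (j + 1)‖ ≤ c * p (j + 1))
    (hp : Summable fun j : ℕ => wj (j + 1) * p (j + 1) ^ 2)
    (hpB : ∑' j : ℕ, wj (j + 1) * p (j + 1) ^ 2 ≤ B ^ 2) : √(Wn v) ≤ c * B := by
  rw [← Real.sqrt_sq (mul_nonneg hc hB)]
  refine Real.sqrt_le_sqrt ?_
  rw [mul_pow]
  refine le_trans ?_ (mul_le_mul_of_nonneg_left hpB (sq_nonneg c))
  rw [← tsum_mul_left]
  refine (Sm.of_le h hp).tsum_le_tsum (fun j => ?_) (hp.mul_left _)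
  calc wj (j + 1) * ‖v (j + 1)‖ ^ 2 ≤ wj (j + 1) * (c * p (j + 1)) ^ 2 := by
        have := wj_pos (j + 1)
        gcongr
        exact h j
    _ = _ := by ring

theorem Wn_eq {v : ℕ → ℂ} (hv : Sm v) :
    Wn v = ∑ a ∈ Finset.range 15, wj (a + 1) * ‖v (a + 1)‖ ^ 2 +
      ∑' m : ℕ, ek (m + 16) ^ 2 * ‖v (m + 16)‖ ^ 2 := by
  unfold Wn
  have e : ∑' m : ℕ, ek (m + 16) ^ 2 * ‖v (m + 16)‖ ^ 2 =
      ∑' m : ℕ, wj (m + 15 + 1) * ‖v (m + 15 + 1)‖ ^ 2 :=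
    tsum_congr fun m => by rw [show m + 15 + 1 = m + 16 by ring, wj_tail]
  rw [e]
  exact (hv.sum_add_tsum_nat_add 15).symm

theorem Sm.tail {v : ℕ → ℂ} (hv : Sm v) :
    Summable fun m : ℕ => ek (m + 16) ^ 2 * ‖v (m + 16)‖ ^ 2 := by
  have := (summable_nat_add_iff 15).mpr hv
  refine this.congr fun m => ?_
  rw [show m + 15 + 1 = m + 16 by ring, wj_tail]

theorem rhoT_zero (v : ℕ → ℂ) : rhoT v 0 = 0 := by simp [rhoT]

theorem rhoT_head (v : ℕ → ℂ) {k : ℕ} (hk : k < 15) :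
    rhoT v (k + 1) = ∑ i ∈ Finset.range 15, LR k i * v (i + 1) := by
  unfold rhoT
  rw [if_neg (by omega), if_pos (by omega), Nat.add_sub_cancel]

theorem rhoT_tail (v : ℕ → ℂ) (m : ℕ) : rhoT v (m + 16) = (ek (m + 16) : ℂ) * v (m + 16) := by
  unfold rhoT
  rw [if_neg (by omega), if_neg (by omega)]

theorem rhoT_tail_sq (v : ℕ → ℂ) (m : ℕ) :
    ‖rhoT v (m + 16)‖ ^ 2 = ek (m + 16) ^ 2 * ‖v (m + 16)‖ ^ 2 := by
  rw [rhoT_tail, norm_mul, mul_pow, Complex.norm_real, Real.norm_eq_abs, sq_abs]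

theorem rhoT_add (v w : ℕ → ℂ) (k : ℕ) :
    rhoT (fun j => v j + w j) k = rhoT v k + rhoT w k := by
  unfold rhoT
  split_ifs
  · simp
  · simp only [mul_add, Finset.sum_add_distrib]
  · rw [mul_add]

theorem Sm.rho {v : ℕ → ℂ} (hv : Sm v) : Summable fun k => ‖rhoT v k‖ ^ 2 := by
  rw [← summable_nat_add_iff 16]
  simp only [rhoT_tail_sq]
  exact hv.tail

theorem RRT_eq {v : ℕ → ℂ} (hv : Sm v) :
    RRT v = ∑ k ∈ Finset.range 15, ‖∑ i ∈ Finset.range 15, LR k i * v (i + 1)‖ ^ 2 +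
      ∑' m : ℕ, ek (m + 16) ^ 2 * ‖v (m + 16)‖ ^ 2 := by
  unfold RRT
  rw [← hv.rho.sum_add_tsum_nat_add 16]
  congr 1
  · rw [Finset.sum_range_succ', rhoT_zero, norm_zero]
    norm_num only [add_zero]
    refine Finset.sum_congr rfl fun k hk => ?_
    rw [rhoT_head v (Finset.mem_range.mp hk)]
  · exact tsum_congr fun m => rhoT_tail_sq v m

theorem RRT_nonneg (v : ℕ → ℂ) : 0 ≤ RRT v := tsum_nonneg fun _ => sq_nonneg _

theorem Wn_nonneg' (v : ℕ → ℂ) : 0 ≤ Wn v := Crit.Wn_nonneg v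

theorem RRT_add_le {v w : ℕ → ℂ} (hv : Sm v) (hw : Sm w) :
    √(RRT fun j => v j + w j) ≤ √(RRT v) + √(RRT w) := by
  have h := tsum_sq_add_le hv.rho hw.rho
  simp only [← rhoT_add] at h
  calc _ ≤ √((√(RRT v) + √(RRT w)) ^ 2) := Real.sqrt_le_sqrt h
    _ = _ := Real.sqrt_sq (by positivity)

theorem RRT_add_ge {v w : ℕ → ℂ} (hv : Sm v) (hw : Sm w) :
    RRT v - 2 * (√(RRT v) * √(RRT w)) ≤ RRT fun j => v j + w j := by
  have h := tsum_sq_add_ge hv.rho hw.rho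
  simp only [← rhoT_add] at h
  exact h

/-- `LR`-part through the Gram matrix -/
theorem head_eq (v : ℕ → ℂ) :
    ∑ k ∈ Finset.range 15, ‖∑ i ∈ Finset.range 15, LR k i * v (i + 1)‖ ^ 2 =
      (∑ a ∈ Finset.range 15, ∑ b ∈ Finset.range 15,
        conj (v (a + 1)) * gramR a b * v (b + 1)).re := by
  have h : ((∑ k ∈ Finset.range 15,
      ‖∑ i ∈ Finset.range 15, LR k i * v (i + 1)‖ ^ 2 : ℝ) : ℂ) =
      ∑ a ∈ Finset.range 15, ∑ b ∈ Finset.range 15,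
        conj (v (a + 1)) * gramR a b * v (b + 1) := by
    push_cast
    have h1 : ∀ k ∈ Finset.range 15,
        ((‖∑ i ∈ Finset.range 15, LR k i * v (i + 1)‖ : ℝ) : ℂ) ^ 2 =
        ∑ a ∈ Finset.range 15, ∑ b ∈ Finset.range 15,
          conj (v (a + 1)) * (conj (LR k a) * LR k b) * v (b + 1) := by
      intro k _
      rw [← Complex.conj_mul', map_sum, Finset.sum_mul_sum]
      refine Finset.sum_congr rfl fun a _ => Finset.sum_congr rfl fun b _ => ?_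
      rw [map_mul]
      ring
    rw [Finset.sum_congr rfl h1, Finset.sum_comm]
    refine Finset.sum_congr rfl fun a _ => ?_
    rw [Finset.sum_comm]
    refine Finset.sum_congr rfl fun b _ => ?_
    rw [gramR, Finset.mul_sum, Finset.sum_mul]
  rw [← h, Complex.ofReal_re]

theorem head_le (v : ℕ → ℂ) :
    ∑ k ∈ Finset.range 15, ‖∑ i ∈ Finset.range 15, LR k i * v (i + 1)‖ ^ 2 ≤
      ∑ a ∈ Finset.range 15, ∑ b ∈ Finset.range 15,
        ‖gramR a b‖ * ‖v (a + 1)‖ * ‖v (b + 1)‖ := by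
  rw [head_eq]
  refine (Complex.re_le_norm _).trans ((norm_sum_le _ _).trans (Finset.sum_le_sum fun a _ =>
    (norm_sum_le _ _).trans (Finset.sum_le_sum fun b _ => le_of_eq ?_)))
  rw [norm_mul, norm_mul, Complex.norm_conj]
  ring

theorem RRT_le_Wn {v : ℕ → ℂ} (hv : Sm v) : RRT v ≤ Wn v := by
  rw [RRT_eq hv, Wn_eq hv]
  have h := gramR_N2 (fun j => ‖v j‖) (fun j => norm_nonneg _)
  have h2 := head_le v
  linarith

/-- bound of `RRT` for sequences dominated by `c p_j` -/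
theorem RRT_le_of_le {v : ℕ → ℂ} {p : ℕ → ℝ} {c B D : ℝ} (hc : 0 ≤ c) (hB : 0 ≤ B)
    (hp0 : ∀ j, 0 ≤ p (j + 1))
    (h : ∀ j, ‖v (j + 1)‖ ≤ c * p (j + 1))
    (hp : Summable fun j : ℕ => wj (j + 1) * p (j + 1) ^ 2)
    (hhead : ∑ a ∈ Finset.range 15, ∑ b ∈ Finset.range 15,
        ‖gramR a b‖ * p (a + 1) * p (b + 1) ≤ D)
    (htail : ∑' m : ℕ, ek (m + 16) ^ 2 * p (m + 16) ^ 2 ≤ B ^ 2 - D) :
    √(RRT v) ≤ c * B := by
  rw [← Real.sqrt_sq (mul_nonneg hc hB)]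
  refine Real.sqrt_le_sqrt ?_
  have hv := Sm.of_le h hp
  rw [RRT_eq hv]
  have h1 : ∑ a ∈ Finset.range 15, ∑ b ∈ Finset.range 15,
        ‖gramR a b‖ * ‖v (a + 1)‖ * ‖v (b + 1)‖ ≤ c ^ 2 * D := by
    refine le_trans ?_ (mul_le_mul_of_nonneg_left hhead (sq_nonneg c))
    rw [Finset.mul_sum]
    refine Finset.sum_le_sum fun a _ => ?_
    rw [Finset.mul_sum]
    refine Finset.sum_le_sum fun b _ => ?_
    have ha := hp0 a
    have hb := hp0 b
    calc ‖gramR a b‖ * ‖v (a + 1)‖ * ‖v (b + 1)‖ ≤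
          ‖gramR a b‖ * (c * p (a + 1)) * (c * p (b + 1)) := by
          gcongr
          · exact h a
          · exact h b
      _ = _ := by ring
  have hp' : Summable fun m : ℕ => ek (m + 16) ^ 2 * p (m + 16) ^ 2 := by
    have := (summable_nat_add_iff 15).mpr hp
    refine this.congr fun m => ?_
    rw [show m + 15 + 1 = m + 16 by ring, wj_tail]
  have h2 : ∑' m : ℕ, ek (m + 16) ^ 2 * ‖v (m + 16)‖ ^ 2 ≤ c ^ 2 * (B ^ 2 - D) := by
    refine le_trans ?_ (mul_le_mul_of_nonneg_left htail (sq_nonneg c))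
    rw [← tsum_mul_left]
    refine hv.tail.tsum_le_tsum (fun m => ?_) (hp'.mul_left _)
    calc ek (m + 16) ^ 2 * ‖v (m + 16)‖ ^ 2 ≤ ek (m + 16) ^ 2 * (c * p (m + 16)) ^ 2 := by
          gcongr
          exact h (m + 15)
      _ = _ := by ring
  have h3 := head_le v
  calc _ ≤ c ^ 2 * D + c ^ 2 * (B ^ 2 - D) := add_le_add (h3.trans h1) h2
    _ = _ := by ring

theorem Sm.rot {v : ℕ → ℂ} (hv : Sm v) {u : ℂ} (hu : ‖u‖ = 1) : Sm (rot u v) := by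
  unfold Sm at *
  refine hv.congr fun j => ?_
  rw [norm_rot hu]

/-- effect of a rotation on `RRT` -/
theorem RRT_rot_ge {v : ℕ → ℂ} (hv : Sm v) (φ : ℝ) :
    RRT v - 1.75 * |φ| * Wn v ≤ RRT (rot (Complex.exp (φ * Complex.I)) v) := by
  set u := Complex.exp (φ * Complex.I) with hu
  have hu1 : ‖u‖ = 1 := Complex.norm_exp_ofReal_mul_I φ
  rw [RRT_eq hv, RRT_eq (hv.rot hu1), head_eq, head_eq]
  have h1 : ∑' m : ℕ, ek (m + 16) ^ 2 * ‖H93.rot u v (m + 16)‖ ^ 2 =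
      ∑' m : ℕ, ek (m + 16) ^ 2 * ‖v (m + 16)‖ ^ 2 := by
    refine tsum_congr fun m => ?_
    rw [norm_rot hu1]
  rw [h1]
  have h2 : (∑ a ∈ Finset.range 15, ∑ b ∈ Finset.range 15,
        conj (v (a + 1)) * gramR a b * v (b + 1)) -
      (∑ a ∈ Finset.range 15, ∑ b ∈ Finset.range 15,
        conj (H93.rot u v (a + 1)) * gramR a b * H93.rot u v (b + 1)) =
      ∑ a ∈ Finset.range 15, ∑ b ∈ Finset.range 15,
        (1 - conj (u ^ (a + 1)) * u ^ (b + 1)) * (conj (v (a + 1)) * gramR a b * v (b + 1)) := by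
    rw [← Finset.sum_sub_distrib]
    refine Finset.sum_congr rfl fun a _ => ?_
    rw [← Finset.sum_sub_distrib]
    refine Finset.sum_congr rfl fun b _ => ?_
    simp only [H93.rot, map_mul]
    ring
  have h3 : ∀ a b : ℕ, ‖1 - conj (u ^ (a + 1)) * u ^ (b + 1)‖ ≤ |φ| * |(a : ℝ) - b| := by
    intro a b
    have e : conj (u ^ (a + 1)) * u ^ (b + 1) =
        Complex.exp ((φ * ((b : ℝ) - a) : ℝ) * Complex.I) := by
      rw [hu, ← Complex.exp_nat_mul, ← Complex.exp_nat_mul, ← Complex.exp_conj, ← Complex.exp_add]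
      congr 1
      simp only [map_mul, Complex.conj_I, Complex.conj_ofReal, map_natCast]
      push_cast
      ring
    rw [e, norm_sub_rev]
    refine (expI_sub_one_le _).trans (le_of_eq ?_)
    rw [abs_mul, abs_sub_comm]
  have h4 : ‖∑ a ∈ Finset.range 15, ∑ b ∈ Finset.range 15,
        (1 - conj (u ^ (a + 1)) * u ^ (b + 1)) * (conj (v (a + 1)) * gramR a b * v (b + 1))‖ ≤
      |φ| * ∑ a ∈ Finset.range 15, ∑ b ∈ Finset.range 15,
      ‖gramR a b‖ * |(a : ℝ) - b| * ‖v (a + 1)‖ * ‖v (b + 1)‖ := by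
    rw [Finset.mul_sum]
    refine (norm_sum_le _ _).trans (Finset.sum_le_sum fun a _ => ?_)
    rw [Finset.mul_sum]
    refine (norm_sum_le _ _).trans (Finset.sum_le_sum fun b _ => ?_)
    rw [norm_mul, norm_mul, norm_mul, Complex.norm_conj]
    calc _ ≤ |φ| * |(a : ℝ) - b| * (‖v (a + 1)‖ * ‖gramR a b‖ * ‖v (b + 1)‖) := by
          gcongr
          exact h3 a b
      _ = _ := by ring
  have h5 := gramR_N1 (fun j => ‖v j‖) (fun j => norm_nonneg _)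
  have h6 : ∑ a ∈ Finset.range 15, wj (a + 1) * ‖v (a + 1)‖ ^ 2 ≤ Wn v := by
    rw [Wn_eq hv]
    have : 0 ≤ ∑' m : ℕ, ek (m + 16) ^ 2 * ‖v (m + 16)‖ ^ 2 :=
      tsum_nonneg fun m => by positivity
    linarith
  have h7 := (Complex.re_le_norm _).trans h4
  rw [← h2, Complex.sub_re] at h7
  have h8 : |φ| * ∑ a ∈ Finset.range 15, ∑ b ∈ Finset.range 15,
      ‖gramR a b‖ * |(a : ℝ) - b| * ‖v (a + 1)‖ * ‖v (b + 1)‖ ≤ |φ| * (1.75 * Wn v) := by
    refine mul_le_mul_of_nonneg_left (h5.trans ?_) (abs_nonneg φ)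
    linarith
  linarith

end Pool.Agent.H93
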