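import Pool.Agent.Lib.H93.LocalNum
import Pool.Agent.Lib.H93.Tables

/-!
Chunk D1, part 3: weighted sums of `y` and the Taylor expansions of `s (rot u x)` and of the new
entry of `A ζ x`.
-/

namespace Pool.Agent.H93

open Filter Topology ComplexConjugate LocalAux

theorem Bdd.sm {v : ℕ → ℂ} (h : Bdd v) : Sm v := by
  obtain ⟨C, hC⟩ := h
  exact Sm.of_le (p := fun _ => 1) (c := C) (fun j => by simpa using hC (j + 1)) num_W0.1

/-- weighted Cauchy-Schwarz -/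
theorem wcs {f : ℕ → ℝ} {B : ℝ} (hf : ∀ j, 0 ≤ f j) (hB : 0 ≤ B)
    (hs : (Summable fun j => f j ^ 2 / wj (j + 1)) ∧ ∑' j, f j ^ 2 / wj (j + 1) ≤ B ^ 2)
    {y : ℕ → ℂ} (hy : Sm y) :
    (Summable fun j => f j * ‖y (j + 1)‖) ∧ ∑' j, f j * ‖y (j + 1)‖ ≤ B * √(Wn y) := by
  have hw : ∀ j, 0 < √(wj (j + 1)) := fun j => Real.sqrt_pos.mpr (wj_pos _)
  have e1 : ∀ j, (f j / √(wj (j + 1))) ^ 2 = f j ^ 2 / wj (j + 1) := fun j => by
    rw [div_pow, Real.sq_sqrt (wj_pos _).le]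
  have e2 : ∀ j, (√(wj (j + 1)) * ‖y (j + 1)‖) ^ 2 = wj (j + 1) * ‖y (j + 1)‖ ^ 2 := fun j => by
    rw [mul_pow, Real.sq_sqrt (wj_pos _).le]
  have e3 : ∀ j, (f j / √(wj (j + 1))) * (√(wj (j + 1)) * ‖y (j + 1)‖) = f j * ‖y (j + 1)‖ :=
    fun j => by
      have := (hw j).ne'
      field_simp
  have h := cs_tsum (f := fun j => f j / √(wj (j + 1))) (g := fun j => √(wj (j + 1)) * ‖y (j + 1)‖)
    (fun j => div_nonneg (hf j) (hw j).le) (fun j => by positivity)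
    (by simp only [e1]; exact hs.1) (by simp only [e2]; exact hy)
  simp only [e1, e2, e3] at h
  refine ⟨h.1, h.2.trans ?_⟩
  have h4 : √(∑' j, f j ^ 2 / wj (j + 1)) ≤ B := by
    rw [← Real.sqrt_sq hB]
    exact Real.sqrt_le_sqrt hs.2
  exact mul_le_mul_of_nonneg_right h4 (Real.sqrt_nonneg _)

/-- comparison of a sequence vanishing at `0` -/
theorem shift_sum {a b : ℕ → ℝ} {C : ℝ} (h0 : a 0 = 0) (ha : ∀ j, 0 ≤ a j)
    (hab : ∀ j, a (j + 1) ≤ b j) (hb : Summable b) (hC : ∑' j, b j ≤ C) :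
    Summable a ∧ ∑' j, a j ≤ C := by
  have hs : Summable a := (summable_nat_add_iff 1).mp
    (Summable.of_nonneg_of_le (fun j => ha (j + 1)) hab hb)
  refine ⟨hs, ?_⟩
  rw [hs.tsum_eq_zero_add, h0, zero_add]
  exact (((summable_nat_add_iff 1).mpr hs).tsum_le_tsum hab hb).trans hC

namespace Crit

variable (K : Crit)

theorem rpow_le (j : ℕ) : K.r ^ j ≤ (0.5613 : ℝ) ^ j :=
  pow_le_pow_left₀ K.r_pos.le K.r_lt.le j

theorem norm_cc_le' (j : ℕ) : ‖K.cc j‖ ≤ 0.711 * (0.5613 : ℝ) ^ j :=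
  (K.norm_cc_le j).trans (mul_le_mul_of_nonneg_left (K.rpow_le j) (by norm_num))

theorem csum0 {y : ℕ → ℂ} (hy : Sm y) :
    (Summable fun j => ‖K.cc (j + 1) * y (j + 1)‖) ∧
      ∑' j, ‖K.cc (j + 1) * y (j + 1)‖ ≤ 0.75 * √(Wn y) := by
  have h := wcs (fun j => by positivity) (by norm_num) num_S0 hy
  have h1 : ∀ j, ‖K.cc (j + 1) * y (j + 1)‖ ≤
      0.711 * ((0.5613 : ℝ) ^ (j + 1) * ‖y (j + 1)‖) := fun j => by
    rw [norm_mul, ← mul_assoc]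
    exact mul_le_mul_of_nonneg_right (K.norm_cc_le' _) (norm_nonneg _)
  have h2 := h.1.mul_left 0.711
  refine ⟨Summable.of_nonneg_of_le (fun j => norm_nonneg _) h1 h2, ?_⟩
  calc ∑' j, ‖K.cc (j + 1) * y (j + 1)‖ ≤ ∑' j, 0.711 * ((0.5613 : ℝ) ^ (j + 1) * ‖y (j + 1)‖) :=
        (Summable.of_nonneg_of_le (fun j => norm_nonneg _) h1 h2).tsum_le_tsum h1 h2
    _ = 0.711 * ∑' j, ((0.5613 : ℝ) ^ (j + 1) * ‖y (j + 1)‖) := tsum_mul_left
    _ ≤ 0.711 * (1.053 * √(Wn y)) := by gcongr; exact h.2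
    _ ≤ 0.75 * √(Wn y) := by nlinarith [Real.sqrt_nonneg (Wn y)]

theorem csum1 {y : ℕ → ℂ} (hy : Sm y) :
    (Summable fun j : ℕ => (j : ℝ) * ‖K.cc j * y j‖) ∧
      ∑' j : ℕ, (j : ℝ) * ‖K.cc j * y j‖ ≤ 2.06 * √(Wn y) := by
  have h := wcs (fun j => by positivity) (by norm_num) num_S1 hy
  refine shift_sum (a := fun j : ℕ => (j : ℝ) * ‖K.cc j * y j‖)
    (b := fun j : ℕ => 0.711 * (((j : ℝ) + 1) * (0.5613 : ℝ) ^ (j + 1) * ‖y (j + 1)‖))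
    (by simp) (fun j => by positivity) (fun j => ?_) (h.1.mul_left _) ?_
  · show ((j + 1 : ℕ) : ℝ) * ‖K.cc (j + 1) * y (j + 1)‖ ≤ _
    rw [norm_mul]
    push_cast
    calc ((j : ℝ) + 1) * (‖K.cc (j + 1)‖ * ‖y (j + 1)‖) ≤
          ((j : ℝ) + 1) * ((0.711 * (0.5613 : ℝ) ^ (j + 1)) * ‖y (j + 1)‖) := by
          gcongr; exact K.norm_cc_le' _
      _ = _ := by ring
  · rw [tsum_mul_left]
    calc _ ≤ 0.711 * (2.89 * √(Wn y)) := by gcongr; exact h.2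
      _ ≤ _ := by nlinarith [Real.sqrt_nonneg (Wn y)]

theorem csum2 {y : ℕ → ℂ} (hy : Sm y) :
    (Summable fun j : ℕ => (j : ℝ) ^ 2 * ‖K.cc j * y j‖) ∧
      ∑' j : ℕ, (j : ℝ) ^ 2 * ‖K.cc j * y j‖ ≤ 16.82 * √(Wn y) := by
  have h := wcs (fun j => by positivity) (by norm_num) num_S2 hy
  refine shift_sum (a := fun j : ℕ => (j : ℝ) ^ 2 * ‖K.cc j * y j‖)
    (b := fun j : ℕ => 0.711 * (((j : ℝ) + 1) ^ 2 * (0.5613 : ℝ) ^ (j + 1) * ‖y (j + 1)‖))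
    (by simp) (fun j => by positivity) (fun j => ?_) (h.1.mul_left _) ?_
  · show ((j + 1 : ℕ) : ℝ) ^ 2 * ‖K.cc (j + 1) * y (j + 1)‖ ≤ _
    rw [norm_mul]
    push_cast
    calc ((j : ℝ) + 1) ^ 2 * (‖K.cc (j + 1)‖ * ‖y (j + 1)‖) ≤
          ((j : ℝ) + 1) ^ 2 * ((0.711 * (0.5613 : ℝ) ^ (j + 1)) * ‖y (j + 1)‖) := by
          gcongr; exact K.norm_cc_le' _
      _ = _ := by ring
  · rw [tsum_mul_left]
    calc _ ≤ 0.711 * (23.65 * √(Wn y)) := by gcongr; exact h.2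
      _ ≤ _ := by nlinarith [Real.sqrt_nonneg (Wn y)]

theorem ccube : (Summable fun j : ℕ => (j : ℝ) ^ 3 * ‖K.cc j * K.xs j‖) ∧
      ∑' j : ℕ, (j : ℝ) ^ 3 * ‖K.cc j * K.xs j‖ ≤ 38.5 := by
  have h := num_cube
  have h1 : ∀ j : ℕ, (j : ℝ) ^ 3 * ‖K.cc j * K.xs j‖ ≤
      0.711 * ((j : ℝ) ^ 3 * (0.5613 : ℝ) ^ j) := fun j => by
    rw [norm_mul, K.norm_xs, mul_one]
    calc (j : ℝ) ^ 3 * ‖K.cc j‖ ≤ (j : ℝ) ^ 3 * (0.711 * (0.5613 : ℝ) ^ j) := by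
          gcongr; exact K.norm_cc_le' _
      _ = _ := by ring
  have h2 := h.1.mul_left 0.711
  have h3 := Summable.of_nonneg_of_le (fun j : ℕ => by positivity) h1 h2
  refine ⟨h3, (h3.tsum_le_tsum h1 h2).trans ?_⟩
  rw [tsum_mul_left]
  calc _ ≤ 0.711 * (54 : ℝ) := by gcongr; exact h.2
    _ ≤ _ := by norm_num

theorem rcube : (Summable fun j : ℕ => ((j : ℝ) + 1) ^ 3 * ‖(K.r : ℂ) ^ (j + 1) * K.xs j‖) ∧
      ∑' j : ℕ, ((j : ℝ) + 1) ^ 3 * ‖(K.r : ℂ) ^ (j + 1) * K.xs j‖ ≤ 54 := by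
  have h := num_cube
  have h1 : ∀ j : ℕ, ((j : ℝ) + 1) ^ 3 * ‖(K.r : ℂ) ^ (j + 1) * K.xs j‖ ≤
      ((j + 1 : ℕ) : ℝ) ^ 3 * (0.5613 : ℝ) ^ (j + 1) := fun j => by
    rw [K.norm_term]
    push_cast
    exact mul_le_mul_of_nonneg_left (K.rpow_le (j + 1)) (by positivity)
  have h2 := (summable_nat_add_iff 1).mpr h.1
  have h3 := Summable.of_nonneg_of_le (fun j : ℕ => by positivity) h1 h2
  refine ⟨h3, (h3.tsum_le_tsum h1 h2).trans ?_⟩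
  refine le_trans (le_of_eq ?_) h.2
  rw [h.1.tsum_eq_zero_add]
  simp

theorem norm_cc_zero : 1 / 1.81 ≤ ‖K.cc 0‖ ∧ ‖K.cc 0‖ ≤ 0.5556 := by
  rw [K.cc_zero, norm_div, norm_neg, K.hω]
  have h1 := K.g_norm_ge
  have h2 := K.norm_g_le
  have h3 : 0 < ‖K.g‖ := by linarith
  constructor
  · exact one_div_le_one_div_of_le h3 h2
  · rw [div_le_iff₀ h3]; linarith

/-- bound of the entry `0` -/
theorem y_zero_le {y : ℕ → ℂ} (hy : Bdd y) (hs : K.s y = 0) : ‖y 0‖ ≤ 1.3575 * √(Wn y) := by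
  have h1 := K.csum0 hy.sm
  have h2 : K.cc 0 * y 0 = -∑' j, K.cc (j + 1) * y (j + 1) := by
    have := hs
    unfold s at this
    rw [(K.summable_cc hy).tsum_eq_zero_add] at this
    linear_combination this
  have h3 : ‖K.cc 0‖ * ‖y 0‖ ≤ 0.75 * √(Wn y) := by
    rw [← norm_mul, h2, norm_neg]
    exact (norm_tsum_le_tsum_norm h1.1).trans h1.2
  have h4 := K.norm_cc_zero.1
  have h5 : 1 / 1.81 * ‖y 0‖ ≤ 0.75 * √(Wn y) :=
    (mul_le_mul_of_nonneg_right h4 (norm_nonneg _)).trans h3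
  linarith

theorem rsum1 {y : ℕ → ℂ} (hy : Bdd y) (hs : K.s y = 0) :
    (Summable fun j : ℕ => ((j : ℝ) + 1) * ‖(K.r : ℂ) ^ (j + 1) * y j‖) ∧
      ∑' j : ℕ, ((j : ℝ) + 1) * ‖(K.r : ℂ) ^ (j + 1) * y j‖ ≤ 2.88 * √(Wn y) := by
  have h := wcs (fun j => by positivity) (by norm_num) num_R1 hy.sm
  have h1 : ∀ j : ℕ, (((j + 1 : ℕ) : ℝ) + 1) * ‖(K.r : ℂ) ^ (j + 1 + 1) * y (j + 1)‖ ≤
      ((j : ℝ) + 2) * (0.5613 : ℝ) ^ (j + 2) * ‖y (j + 1)‖ := fun j => by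
    rw [norm_mul, norm_pow, Complex.norm_real, Real.norm_of_nonneg K.r_pos.le]
    push_cast
    calc ((j : ℝ) + 1 + 1) * (K.r ^ (j + 1 + 1) * ‖y (j + 1)‖) ≤
          ((j : ℝ) + 1 + 1) * (0.5613 ^ (j + 1 + 1) * ‖y (j + 1)‖) :=
          mul_le_mul_of_nonneg_left (mul_le_mul_of_nonneg_right (K.rpow_le _) (norm_nonneg _))
            (by positivity)
      _ = _ := by ring
  have h2 : Summable fun j : ℕ =>
      (((j + 1 : ℕ) : ℝ) + 1) * ‖(K.r : ℂ) ^ (j + 1 + 1) * y (j + 1)‖ :=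
    Summable.of_nonneg_of_le (fun j => by positivity) h1 h.1
  have h3 : Summable fun j : ℕ => ((j : ℝ) + 1) * ‖(K.r : ℂ) ^ (j + 1) * y j‖ :=
    (summable_nat_add_iff 1).mp h2
  refine ⟨h3, ?_⟩
  rw [h3.tsum_eq_zero_add]
  have h4 := (h2.tsum_le_tsum h1 h.1).trans h.2
  have h5 : (((0 : ℕ) : ℝ) + 1) * ‖(K.r : ℂ) ^ (0 + 1) * y 0‖ ≤ 0.5613 * (1.3575 * √(Wn y)) := by
    rw [norm_mul, norm_pow, Complex.norm_real, Real.norm_of_nonneg K.r_pos.le]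
    have := K.y_zero_le hy hs
    have hr := K.r_lt.le
    simp only [Nat.cast_zero, zero_add, pow_one, one_mul]
    gcongr
  have h6 := Real.sqrt_nonneg (Wn y)
  linarith

theorem rsum2 {y : ℕ → ℂ} (hy : Bdd y) (hs : K.s y = 0) :
    (Summable fun j : ℕ => ((j : ℝ) + 1) ^ 2 * ‖(K.r : ℂ) ^ (j + 1) * y j‖) ∧
      ∑' j : ℕ, ((j : ℝ) + 1) ^ 2 * ‖(K.r : ℂ) ^ (j + 1) * y j‖ ≤ 16.85 * √(Wn y) := by
  have h := wcs (fun j => by positivity) (by norm_num) num_R2 hy.sm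
  have h1 : ∀ j : ℕ, (((j + 1 : ℕ) : ℝ) + 1) ^ 2 * ‖(K.r : ℂ) ^ (j + 1 + 1) * y (j + 1)‖ ≤
      ((j : ℝ) + 2) ^ 2 * (0.5613 : ℝ) ^ (j + 2) * ‖y (j + 1)‖ := fun j => by
    rw [norm_mul, norm_pow, Complex.norm_real, Real.norm_of_nonneg K.r_pos.le]
    push_cast
    calc ((j : ℝ) + 1 + 1) ^ 2 * (K.r ^ (j + 1 + 1) * ‖y (j + 1)‖) ≤
          ((j : ℝ) + 1 + 1) ^ 2 * (0.5613 ^ (j + 1 + 1) * ‖y (j + 1)‖) :=
          mul_le_mul_of_nonneg_left (mul_le_mul_of_nonneg_right (K.rpow_le _) (norm_nonneg _))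
            (by positivity)
      _ = _ := by ring
  have h2 : Summable fun j : ℕ =>
      (((j + 1 : ℕ) : ℝ) + 1) ^ 2 * ‖(K.r : ℂ) ^ (j + 1 + 1) * y (j + 1)‖ :=
    Summable.of_nonneg_of_le (fun j => by positivity) h1 h.1
  have h3 : Summable fun j : ℕ => ((j : ℝ) + 1) ^ 2 * ‖(K.r : ℂ) ^ (j + 1) * y j‖ :=
    (summable_nat_add_iff 1).mp h2
  refine ⟨h3, ?_⟩
  rw [h3.tsum_eq_zero_add]
  have h4 := (h2.tsum_le_tsum h1 h.1).trans h.2
  have h5 : (((0 : ℕ) : ℝ) + 1) ^ 2 * ‖(K.r : ℂ) ^ (0 + 1) * y 0‖ ≤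
      0.5613 * (1.3575 * √(Wn y)) := by
    rw [norm_mul, norm_pow, Complex.norm_real, Real.norm_of_nonneg K.r_pos.le]
    have := K.y_zero_le hy hs
    have hr := K.r_lt.le
    simp only [Nat.cast_zero, zero_add, pow_one, one_pow, one_mul]
    gcongr
  have h6 := Real.sqrt_nonneg (Wn y)
  linarith

end Crit

/-! ### expansions -/

theorem sum_dom {a : ℕ → ℂ} {t : ℕ → ℝ} (ht : ∀ j, 0 ≤ t j) {k : ℕ}
    (ha : Summable fun j => ‖a j‖) (hak : Summable fun j => t j ^ k * ‖a j‖) {i : ℕ} (hi : i ≤ k) :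
    Summable fun j => (t j : ℂ) ^ i * a j := by
  refine Summable.of_norm_bounded (g := fun j => ‖a j‖ + t j ^ k * ‖a j‖) (ha.add hak) fun j => ?_
  rw [norm_mul, norm_pow, Complex.norm_real, Real.norm_of_nonneg (ht j), ← one_add_mul]
  gcongr
  rcases le_total (t j) 1 with h | h
  · have := pow_le_one₀ (n := i) (ht j) h
    have := pow_nonneg (ht j) k
    linarith
  · have := pow_le_pow_right₀ h hi
    linarith

theorem exp_sum2 {a : ℕ → ℂ} {t : ℕ → ℝ} (ht : ∀ j, 0 ≤ t j)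
    (ha : Summable fun j => ‖a j‖) (ha2 : Summable fun j => t j ^ 2 * ‖a j‖) (φ : ℝ) :
    ‖∑' j, Complex.exp ((φ * t j : ℝ) * Complex.I) * a j - ∑' j, a j
      - φ * Complex.I * ∑' j, (t j : ℂ) * a j‖ ≤ φ ^ 2 / 2 * ∑' j, t j ^ 2 * ‖a j‖ := by
  have s0 : Summable a := ha.of_norm
  have s1 : Summable fun j => (t j : ℂ) * a j := by
    simpa using sum_dom ht ha ha2 (i := 1) (by norm_num)
  have se : Summable fun j => Complex.exp ((φ * t j : ℝ) * Complex.I) * a j := by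
    refine Summable.of_norm_bounded ha fun j => ?_
    rw [norm_mul, Complex.norm_exp_ofReal_mul_I, one_mul]
  have e : ∑' j, Complex.exp ((φ * t j : ℝ) * Complex.I) * a j - ∑' j, a j
      - φ * Complex.I * ∑' j, (t j : ℂ) * a j =
      ∑' j, (Complex.exp ((φ * t j : ℝ) * Complex.I) * a j - a j
        - φ * Complex.I * ((t j : ℂ) * a j)) := by
    rw [(se.sub s0).tsum_sub (s1.mul_left _), se.tsum_sub s0, tsum_mul_left]
  rw [e]
  have h1 : ∀ j, ‖Complex.exp ((φ * t j : ℝ) * Complex.I) * a j - a j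
        - φ * Complex.I * ((t j : ℂ) * a j)‖ ≤ φ ^ 2 / 2 * (t j ^ 2 * ‖a j‖) := by
    intro j
    have e2 : Complex.exp ((φ * t j : ℝ) * Complex.I) * a j - a j
        - φ * Complex.I * ((t j : ℂ) * a j) =
        (Complex.exp ((φ * t j : ℝ) * Complex.I) - 1 - (φ * t j : ℝ) * Complex.I) * a j := by
      push_cast; ring
    rw [e2, norm_mul]
    calc _ ≤ ((φ * t j) ^ 2 / 2) * ‖a j‖ :=
          mul_le_mul_of_nonneg_right (expI_taylor2 _) (norm_nonneg _)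
      _ = _ := by ring
  refine (tsum_of_norm_bounded (ha2.mul_left (φ ^ 2 / 2)).hasSum h1).trans (le_of_eq ?_)
  rw [tsum_mul_left]

theorem exp_sum3 {a : ℕ → ℂ} {t : ℕ → ℝ} (ht : ∀ j, 0 ≤ t j)
    (ha : Summable fun j => ‖a j‖) (ha3 : Summable fun j => t j ^ 3 * ‖a j‖) (φ : ℝ) :
    ‖∑' j, Complex.exp ((φ * t j : ℝ) * Complex.I) * a j - ∑' j, a j
      - φ * Complex.I * ∑' j, (t j : ℂ) * a j + φ ^ 2 / 2 * ∑' j, (t j : ℂ) ^ 2 * a j‖ ≤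
      |φ| ^ 3 / 6 * ∑' j, t j ^ 3 * ‖a j‖ := by
  have s0 : Summable a := ha.of_norm
  have s1 : Summable fun j => (t j : ℂ) * a j := by
    simpa using sum_dom ht ha ha3 (i := 1) (by norm_num)
  have s2 : Summable fun j => (t j : ℂ) ^ 2 * a j := sum_dom ht ha ha3 (i := 2) (by norm_num)
  have se : Summable fun j => Complex.exp ((φ * t j : ℝ) * Complex.I) * a j := by
    refine Summable.of_norm_bounded ha fun j => ?_
    rw [norm_mul, Complex.norm_exp_ofReal_mul_I, one_mul]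
  have e : ∑' j, Complex.exp ((φ * t j : ℝ) * Complex.I) * a j - ∑' j, a j
      - φ * Complex.I * ∑' j, (t j : ℂ) * a j + φ ^ 2 / 2 * ∑' j, (t j : ℂ) ^ 2 * a j =
      ∑' j, (Complex.exp ((φ * t j : ℝ) * Complex.I) * a j - a j
        - φ * Complex.I * ((t j : ℂ) * a j) + φ ^ 2 / 2 * ((t j : ℂ) ^ 2 * a j)) := by
    rw [((se.sub s0).sub (s1.mul_left _)).tsum_add (s2.mul_left _),
      (se.sub s0).tsum_sub (s1.mul_left _), se.tsum_sub s0, tsum_mul_left, tsum_mul_left]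
  rw [e]
  have h1 : ∀ j, ‖Complex.exp ((φ * t j : ℝ) * Complex.I) * a j - a j
        - φ * Complex.I * ((t j : ℂ) * a j) + φ ^ 2 / 2 * ((t j : ℂ) ^ 2 * a j)‖ ≤
        |φ| ^ 3 / 6 * (t j ^ 3 * ‖a j‖) := by
    intro j
    have e2 : Complex.exp ((φ * t j : ℝ) * Complex.I) * a j - a j
        - φ * Complex.I * ((t j : ℂ) * a j) + φ ^ 2 / 2 * ((t j : ℂ) ^ 2 * a j) =
        (Complex.exp ((φ * t j : ℝ) * Complex.I) - 1 - (φ * t j : ℝ) * Complex.I +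
          ((φ * t j : ℝ) : ℂ) ^ 2 / 2) * a j := by
      push_cast; ring
    rw [e2, norm_mul]
    calc _ ≤ (|φ * t j| ^ 3 / 6) * ‖a j‖ :=
          mul_le_mul_of_nonneg_right (expI_taylor3 _) (norm_nonneg _)
      _ = _ := by rw [abs_mul, abs_of_nonneg (ht j)]; ring
  refine (tsum_of_norm_bounded (ha3.mul_left (|φ| ^ 3 / 6)).hasSum h1).trans (le_of_eq ?_)
  rw [tsum_mul_left]

theorem expI_pow (φ : ℝ) (j : ℕ) :
    Complex.exp (φ * Complex.I) ^ j = Complex.exp ((φ * (j : ℝ) : ℝ) * Complex.I) := by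
  rw [← Complex.exp_nat_mul]
  congr 1
  push_cast
  ring

namespace Crit

variable (K : Crit)

theorem k1_eq' : ∑' j : ℕ, (j : ℂ) * (K.cc j * K.xs j) = (K.k1 : ℂ) := by
  have h : ∑' j : ℕ, (j : ℂ) * (K.cc j * K.xs j) = ∑' j : ℕ, (j : ℂ) * K.cc j * K.xs j :=
    tsum_congr fun j => by ring
  rw [h]
  apply Complex.ext
  · simp [k1]
  · rw [K.k1_im, Complex.ofReal_im]

theorem bdd_y {x : ℕ → ℂ} (hx : Bdd x) : Bdd (K.y x) := by
  obtain ⟨C, hC⟩ := hx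
  refine ⟨C + ‖K.s x‖, fun j => ?_⟩
  calc ‖K.y x j‖ ≤ ‖x j‖ + ‖K.s x * K.xs j‖ := norm_sub_le _ _
    _ ≤ _ := by rw [norm_mul, K.norm_xs, mul_one]; gcongr; exact hC j

theorem s_y {x : ℕ → ℂ} (hx : Bdd x) : K.s (K.y x) = 0 := by
  have h1 : K.y x = fun j => x j + (-K.s x) * K.xs j := by
    funext j; simp [Crit.y]; ring
  rw [h1, K.s_add hx (⟨‖K.s x‖, fun j => by rw [norm_mul, norm_neg, K.norm_xs, mul_one]⟩),
    K.s_smul, K.s_xs]; ring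

theorem x_eq (x : ℕ → ℂ) (j : ℕ) : x j = K.s x * K.xs j + K.y x j := by simp [y]

theorem norm_summable {c x : ℕ → ℂ} {κ ρ : ℝ} (hx : Bdd x) (hρ0 : 0 ≤ ρ) (hρ1 : ρ < 1)
    (hc : ∀ j, ‖c j‖ ≤ κ * ρ ^ j) : Summable fun j => ‖c j * x j‖ := by
  obtain ⟨C, hC⟩ := hx
  refine Summable.of_nonneg_of_le (fun j => norm_nonneg _) (fun j => ?_)
    (((summable_geometric_of_lt_one hρ0 hρ1).mul_left κ).mul_right C)
  rw [norm_mul]
  exact mul_le_mul (hc j) (hC j) (norm_nonneg _) ((norm_nonneg _).trans (hc j))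

theorem norm_summable_cc {x : ℕ → ℂ} (hx : Bdd x) : Summable fun j => ‖K.cc j * x j‖ :=
  norm_summable hx K.r_pos.le K.r_lt_one K.norm_cc_le

theorem norm_summable_r {x : ℕ → ℂ} (hx : Bdd x) :
    Summable fun j : ℕ => ‖(K.r : ℂ) ^ (j + 1) * x j‖ := by
  refine norm_summable (κ := K.r) hx K.r_pos.le K.r_lt_one fun j => ?_
  rw [norm_pow, Complex.norm_real, Real.norm_of_nonneg K.r_pos.le, pow_succ]
  exact le_of_eq (mul_comm _ _)

/-- expansion of `s (rot u x)` -/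
theorem sU_eq {x : ℕ → ℂ} (hx : Bdd x) (φ : ℝ) : ∃ Ea Eb : ℂ,
    K.s (rot (Complex.exp (φ * Complex.I)) x) =
      K.s x * (1 + φ * Complex.I * K.k1 - φ ^ 2 / 2 * K.kap + Ea) +
        (φ * Complex.I * K.l1 (K.y x) + Eb) ∧
    ‖Ea‖ ≤ 6.42 * |φ| ^ 3 ∧ ‖Eb‖ ≤ 8.41 * φ ^ 2 * √(Wn (K.y x)) := by
  have hy := K.bdd_y hx
  have hs := K.s_y hx
  have n0 := K.norm_summable_cc K.bdd_xs
  have n1 := K.norm_summable_cc hy
  have h3 := exp_sum3 (t := fun j => (j : ℝ)) (fun j => Nat.cast_nonneg j) n0 K.ccube.1 φ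
  have h2 := exp_sum2 (t := fun j => (j : ℝ)) (fun j => Nat.cast_nonneg j) n1 (K.csum2 hy.sm).1 φ
  have e1 : K.s (rot (Complex.exp (φ * Complex.I)) x) =
      K.s x * (∑' j : ℕ, Complex.exp ((φ * (j : ℝ) : ℝ) * Complex.I) * (K.cc j * K.xs j)) +
      ∑' j : ℕ, Complex.exp ((φ * (j : ℝ) : ℝ) * Complex.I) * (K.cc j * K.y x j) := by
    have s1 : Summable fun j : ℕ =>
        Complex.exp ((φ * (j : ℝ) : ℝ) * Complex.I) * (K.cc j * K.xs j) := by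
      refine Summable.of_norm_bounded n0 fun j => ?_
      rw [norm_mul, Complex.norm_exp_ofReal_mul_I, one_mul]
    have s2 : Summable fun j : ℕ =>
        Complex.exp ((φ * (j : ℝ) : ℝ) * Complex.I) * (K.cc j * K.y x j) := by
      refine Summable.of_norm_bounded n1 fun j => ?_
      rw [norm_mul, Complex.norm_exp_ofReal_mul_I, one_mul]
    rw [← tsum_mul_left, ← (s1.mul_left _).tsum_add s2]
    unfold s
    refine tsum_congr fun j => ?_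
    rw [rot_apply, expI_pow]
    conv_lhs => rw [K.x_eq x j]
    unfold s
    ring
  have e2 : ∑' j : ℕ, K.cc j * K.xs j = 1 := K.s_xs
  have e3 : ∑' j : ℕ, K.cc j * K.y x j = 0 := hs
  have e4 : ∑' j : ℕ, ((j : ℝ) : ℂ) * (K.cc j * K.xs j) = (K.k1 : ℂ) := by
    rw [← K.k1_eq']; simp
  have e5 : ∑' j : ℕ, ((j : ℝ) : ℂ) ^ 2 * (K.cc j * K.xs j) = K.kap := by
    unfold kap
    refine tsum_congr fun j => ?_
    push_cast; ring
  have e6 : ∑' j : ℕ, ((j : ℝ) : ℂ) * (K.cc j * K.y x j) = K.l1 (K.y x) := by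
    unfold l1
    refine tsum_congr fun j => ?_
    push_cast; ring
  rw [e2, e4, e5] at h3
  rw [e3, e6] at h2
  refine ⟨_, _, ?_, h3.trans ?_, h2.trans ?_⟩
  · rw [e1]; ring
  · have := K.ccube.2
    have h0 : 0 ≤ |φ| ^ 3 := by positivity
    calc |φ| ^ 3 / 6 * ∑' j : ℕ, (j : ℝ) ^ 3 * ‖K.cc j * K.xs j‖ ≤ |φ| ^ 3 / 6 * 38.5 := by gcongr
      _ ≤ _ := by linarith
  · have := (K.csum2 hy.sm).2
    calc φ ^ 2 / 2 * ∑' j : ℕ, (j : ℝ) ^ 2 * ‖K.cc j * K.y x j‖ ≤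
          φ ^ 2 / 2 * (16.82 * √(Wn (K.y x))) := by gcongr
      _ = _ := by ring

/-- expansion of the new entry of `A ζ x` -/
theorem G_eq {x : ℕ → ℂ} (hx : Bdd x) (z : ℝ) : ∃ Ga Gb : ℂ,
    K.A 1 x 0 - K.A (Complex.exp (z * Complex.I)) x 0 =
      K.s x * (z * Complex.I * K.g - z ^ 2 / 2 * K.g2 + Ga) +
        (z * Complex.I * K.gg1 (K.y x) + Gb) ∧
    ‖Ga‖ ≤ 9 * |z| ^ 3 ∧ ‖Gb‖ ≤ 8.425 * z ^ 2 * √(Wn (K.y x)) := by
  have hy := K.bdd_y hx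
  have hs := K.s_y hx
  have n0 := K.norm_summable_r K.bdd_xs
  have n1 := K.norm_summable_r hy
  have ht : ∀ j : ℕ, (0 : ℝ) ≤ (j : ℝ) + 1 := fun j => by positivity
  have h3 := exp_sum3 (t := fun j => (j : ℝ) + 1) ht n0 K.rcube.1 z
  have h2 := exp_sum2 (t := fun j => (j : ℝ) + 1) ht n1 (K.rsum2 hy hs).1 z
  set F0 := ∑' j : ℕ, Complex.exp ((z * ((j : ℝ) + 1) : ℝ) * Complex.I) *
    ((K.r : ℂ) ^ (j + 1) * K.xs j) with hF0
  set F1 := ∑' j : ℕ, Complex.exp ((z * ((j : ℝ) + 1) : ℝ) * Complex.I) *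
    ((K.r : ℂ) ^ (j + 1) * K.y x j) with hF1
  have e1 : K.A (Complex.exp (z * Complex.I)) x 0 = -(K.s x * F0 + F1) := by
    have s1 : Summable fun j : ℕ => Complex.exp ((z * ((j : ℝ) + 1) : ℝ) * Complex.I) *
        ((K.r : ℂ) ^ (j + 1) * K.xs j) := by
      refine Summable.of_norm_bounded n0 fun j => ?_
      rw [norm_mul, Complex.norm_exp_ofReal_mul_I, one_mul]
    have s2 : Summable fun j : ℕ => Complex.exp ((z * ((j : ℝ) + 1) : ℝ) * Complex.I) *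
        ((K.r : ℂ) ^ (j + 1) * K.y x j) := by
      refine Summable.of_norm_bounded n1 fun j => ?_
      rw [norm_mul, Complex.norm_exp_ofReal_mul_I, one_mul]
    have : K.A (Complex.exp (z * Complex.I)) x 0 =
        -∑' j : ℕ, (K.r * Complex.exp (z * Complex.I)) ^ (j + 1) * x j := by
      simp [A, stepA, rot, stepG, top]
    rw [this, hF0, hF1, ← tsum_mul_left, ← (s1.mul_left _).tsum_add s2]
    congr 1
    refine tsum_congr fun j => ?_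
    have e0 := expI_pow z (j + 1)
    push_cast at e0
    rw [mul_pow, e0]
    conv_lhs => rw [K.x_eq x j]
    push_cast
    ring
  have e2 : K.A 1 x 0 = -(K.s x * (∑' j : ℕ, (K.r : ℂ) ^ (j + 1) * K.xs j) +
      ∑' j : ℕ, (K.r : ℂ) ^ (j + 1) * K.y x j) := by
    rw [K.A_one_zero, ← tsum_mul_left, ← (n0.of_norm.mul_left _).tsum_add n1.of_norm]
    congr 1
    refine tsum_congr fun j => ?_
    conv_lhs => rw [K.x_eq x j]
    ring
  have e4 : ∑' j : ℕ, (((j : ℝ) + 1 : ℝ) : ℂ) * ((K.r : ℂ) ^ (j + 1) * K.xs j) = K.g := by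
    unfold g
    refine tsum_congr fun j => ?_
    push_cast; ring
  have e5 : ∑' j : ℕ, (((j : ℝ) + 1 : ℝ) : ℂ) ^ 2 * ((K.r : ℂ) ^ (j + 1) * K.xs j) = K.g2 := by
    unfold g2
    refine tsum_congr fun j => ?_
    push_cast; ring
  have e6 : ∑' j : ℕ, (((j : ℝ) + 1 : ℝ) : ℂ) * ((K.r : ℂ) ^ (j + 1) * K.y x j) =
      K.gg1 (K.y x) := by
    unfold gg1
    refine tsum_congr fun j => ?_
    push_cast; ring
  rw [e4, e5] at h3
  rw [e6] at h2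
  refine ⟨_, _, ?_, h3.trans ?_, h2.trans ?_⟩
  · rw [e1, e2]; ring
  · have := K.rcube.2
    have h0 : 0 ≤ |z| ^ 3 := by positivity
    calc |z| ^ 3 / 6 * ∑' j : ℕ, ((j : ℝ) + 1) ^ 3 * ‖(K.r : ℂ) ^ (j + 1) * K.xs j‖ ≤
          |z| ^ 3 / 6 * 54 := by gcongr
      _ ≤ _ := by linarith
  · have := (K.rsum2 hy hs).2
    calc z ^ 2 / 2 * ∑' j : ℕ, ((j : ℝ) + 1) ^ 2 * ‖(K.r : ℂ) ^ (j + 1) * K.y x j‖ ≤
          z ^ 2 / 2 * (16.85 * √(Wn (K.y x))) := by gcongr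
      _ = _ := by ring

theorem norm_l1_le {y : ℕ → ℂ} (hy : Sm y) : ‖K.l1 y‖ ≤ 2.06 * √(Wn y) := by
  have h := K.csum1 hy
  unfold l1
  refine (tsum_of_norm_bounded h.1.hasSum fun j => ?_).trans h.2
  rw [mul_assoc, norm_mul, Complex.norm_natCast]

theorem norm_gg1_le {y : ℕ → ℂ} (hy : Bdd y) (hs : K.s y = 0) : ‖K.gg1 y‖ ≤ 2.88 * √(Wn y) := by
  have h := K.rsum1 hy hs
  unfold gg1
  refine (tsum_of_norm_bounded h.1.hasSum fun j => ?_).trans h.2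
  rw [mul_assoc, norm_mul]
  have : ‖(j : ℂ) + 1‖ = (j : ℝ) + 1 := by
    rw [← Nat.cast_succ, Complex.norm_natCast]; push_cast; rfl
  rw [this]

end Crit

end Pool.Agent.H93
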