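import Mathlib

/-!
Chunk D1, part 4: the scalar estimates T1, T2 (pure algebra with explicit constants).
-/

namespace Pool.Agent.H93.LocalAux

open ComplexConjugate

lemma sq_norm_add (a b : ℂ) : ‖a + b‖ ^ 2 = ‖a‖ ^ 2 + 2 * (conj a * b).re + ‖b‖ ^ 2 := by
  rw [← Complex.normSq_eq_norm_sq, ← Complex.normSq_eq_norm_sq, ← Complex.normSq_eq_norm_sq,
    Complex.normSq_apply, Complex.normSq_apply, Complex.normSq_apply]
  simp only [Complex.add_re, Complex.add_im, Complex.mul_re, Complex.conj_re, Complex.conj_im]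
  ring

lemma abs_re_conj_mul (a b : ℂ) : |(conj a * b).re| ≤ ‖a‖ * ‖b‖ := by
  refine (Complex.abs_re_le_norm _).trans ?_
  rw [norm_mul, Complex.norm_conj]

/-- T1 -/
theorem T1 {s l Ea Eb κ : ℂ} {k φ f Y : ℝ} (hf : |φ| = f) (hf6 : f ≤ 1 / 6000) (hY : 0 ≤ Y)
    (hk0 : 0 ≤ k) (hk : k ≤ 0.854) (hκ : |κ.im| ≤ 0.158) (hκn : ‖κ‖ ≤ 2.5)
    (hl : ‖l‖ ≤ 2.06 * Y) (hEa : ‖Ea‖ ≤ 6.42 * f ^ 3) (hEb : ‖Eb‖ ≤ 8.41 * f ^ 2 * Y) :
    ‖s‖ ^ 2 * (1 + φ ^ 2 * (k ^ 2 - κ.re)) + 2 * (conj s * (φ * Complex.I * l)).re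
      - (12.99 * f ^ 3 * ‖s‖ ^ 2 + 20.38 * f ^ 2 * ‖s‖ * Y) ≤
    ‖s * (1 + φ * Complex.I * k - φ ^ 2 / 2 * κ + Ea) + (φ * Complex.I * l + Eb)‖ ^ 2 := by
  have hf0 : 0 ≤ f := hf ▸ abs_nonneg φ
  have hφ2 : φ ^ 2 = f ^ 2 := by rw [← hf, sq_abs]
  set S := ‖s‖ with hS
  have hS0 : 0 ≤ S := norm_nonneg s
  set a : ℂ := φ * Complex.I * k - φ ^ 2 / 2 * κ + Ea with ha
  set b : ℂ := φ * Complex.I * l + Eb with hb
  have e0 : s * (1 + φ * Complex.I * k - φ ^ 2 / 2 * κ + Ea) + (φ * Complex.I * l + Eb) =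
      s * (1 + a) + b := by rw [ha, hb]; ring
  rw [e0]
  have hφn : ‖(φ : ℂ)‖ = f := by rw [Complex.norm_real, Real.norm_eq_abs, hf]
  -- size of a
  have na : ‖a‖ ≤ 0.8545 * f := by
    have h1 : ‖a‖ ≤ ‖(φ : ℂ) * Complex.I * k‖ + ‖(φ : ℂ) ^ 2 / 2 * κ‖ + ‖Ea‖ :=
      (norm_add_le _ _).trans (add_le_add (norm_sub_le _ _) le_rfl)
    have h2 : ‖(φ : ℂ) * Complex.I * k‖ = f * k := by
      rw [norm_mul, norm_mul, hφn, Complex.norm_I, mul_one, Complex.norm_real,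
        Real.norm_of_nonneg hk0]
    have h3 : ‖(φ : ℂ) ^ 2 / 2 * κ‖ = f ^ 2 / 2 * ‖κ‖ := by
      rw [norm_mul, norm_div, norm_pow, hφn]; norm_num
    rw [h2, h3] at h1
    have h4 : f * f ≤ f * (1 / 6000) := mul_le_mul_of_nonneg_left hf6 hf0
    have h5 : f ^ 2 * f ≤ f ^ 2 * (1 / 6000) := mul_le_mul_of_nonneg_left hf6 (sq_nonneg f)
    have h6 : f ^ 2 / 2 * ‖κ‖ ≤ f ^ 2 / 2 * 2.5 := by gcongr
    have h7 : f * k ≤ f * 0.854 := by gcongr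
    linarith
  have nb : ‖b‖ ≤ 2.062 * f * Y := by
    have h1 : ‖b‖ ≤ ‖(φ : ℂ) * Complex.I * l‖ + ‖Eb‖ := norm_add_le _ _
    have h2 : ‖(φ : ℂ) * Complex.I * l‖ = f * ‖l‖ := by
      rw [norm_mul, norm_mul, hφn, Complex.norm_I, mul_one]
    rw [h2] at h1
    have h3 : f * ‖l‖ ≤ f * (2.06 * Y) := by gcongr
    have h4 : f * f * Y ≤ f * (1 / 6000) * Y := by gcongr
    have h5 : 0 ≤ f * Y := by positivity
    linarith
  -- the square of 1 + a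
  have hsq : 1 + φ ^ 2 * (k ^ 2 - κ.re) - 12.99 * f ^ 3 ≤ ‖1 + a‖ ^ 2 := by
    have hre : a.re = -(φ ^ 2 / 2 * κ.re) + Ea.re := by
      have : a = ((φ * k : ℝ) : ℂ) * Complex.I - ((φ ^ 2 / 2 : ℝ) : ℂ) * κ + Ea := by
        rw [ha]; push_cast; ring
      rw [this, Complex.add_re, Complex.sub_re, Complex.re_ofReal_mul, Complex.re_ofReal_mul,
        Complex.I_re]
      ring
    have him : a.im = φ * k - φ ^ 2 / 2 * κ.im + Ea.im := by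
      have : a = ((φ * k : ℝ) : ℂ) * Complex.I - ((φ ^ 2 / 2 : ℝ) : ℂ) * κ + Ea := by
        rw [ha]; push_cast; ring
      rw [this, Complex.add_im, Complex.sub_im, Complex.im_ofReal_mul, Complex.im_ofReal_mul,
        Complex.I_im]
      ring
    have h1 : ‖1 + a‖ ^ 2 = (1 + a.re) ^ 2 + a.im ^ 2 := by
      rw [← Complex.normSq_eq_norm_sq, Complex.normSq_apply]
      simp only [Complex.add_re, Complex.one_re, Complex.add_im, Complex.one_im]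
      ring
    have hEre := abs_le.mp ((Complex.abs_re_le_norm Ea).trans hEa)
    have hEim := (Complex.abs_im_le_norm Ea).trans hEa
    have h2 : 1 + 2 * a.re ≤ (1 + a.re) ^ 2 := by
      have := sq_nonneg a.re
      linarith
    have h3 : (φ * k) ^ 2 + 2 * (φ * k) * (-(φ ^ 2 / 2 * κ.im) + Ea.im) ≤ a.im ^ 2 := by
      have h := sq_nonneg (-(φ ^ 2 / 2 * κ.im) + Ea.im)
      have e : a.im ^ 2 = (φ * k) ^ 2 + 2 * (φ * k) * (-(φ ^ 2 / 2 * κ.im) + Ea.im) +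
          (-(φ ^ 2 / 2 * κ.im) + Ea.im) ^ 2 := by rw [him]; ring
      linarith
    have h4 : |2 * (φ * k) * (-(φ ^ 2 / 2 * κ.im) + Ea.im)| ≤ 0.15 * f ^ 3 := by
      rw [abs_mul, abs_mul, abs_mul, hf, abs_of_nonneg hk0, abs_two]
      have h5 : |-(φ ^ 2 / 2 * κ.im) + Ea.im| ≤ f ^ 2 / 2 * 0.158 + 6.42 * f ^ 3 := by
        refine (abs_add_le _ _).trans (add_le_add ?_ hEim)
        rw [abs_neg, abs_mul, hφ2, abs_of_nonneg (by positivity)]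
        gcongr
      have h6 : f ^ 2 * f ≤ f ^ 2 * (1 / 6000) := mul_le_mul_of_nonneg_left hf6 (sq_nonneg f)
      have h9 : |-(φ ^ 2 / 2 * κ.im) + Ea.im| ≤ 0.0801 * f ^ 2 := by
        have := sq_nonneg f
        linarith
      have h10 := pow_nonneg hf0 3
      calc 2 * (f * k) * |-(φ ^ 2 / 2 * κ.im) + Ea.im| ≤
            2 * (f * 0.854) * (0.0801 * f ^ 2) := by gcongr
        _ ≤ 0.15 * f ^ 3 := by linarith
    have h7 := (abs_le.mp h4).1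
    have h8 : 0 ≤ f ^ 3 := pow_nonneg hf0 3
    rw [h1]
    rw [hre] at h2 ⊢
    linarith [hEre.1]
  have e1 : ‖s * (1 + a) + b‖ ^ 2 = S ^ 2 * ‖1 + a‖ ^ 2 + 2 * (conj s * (φ * Complex.I * l)).re +
      2 * (conj s * Eb).re + 2 * (conj (s * a) * b).re + ‖b‖ ^ 2 := by
    have e2 : (conj (s * (1 + a)) * b).re = (conj s * (φ * Complex.I * l)).re +
        (conj s * Eb).re + (conj (s * a) * b).re := by
      rw [← Complex.add_re, ← Complex.add_re]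
      congr 1
      rw [hb, map_mul, map_mul, map_add, map_one]
      ring
    rw [sq_norm_add, e2, norm_mul, mul_pow]
    ring
  rw [e1]
  have i1 := (abs_le.mp (abs_re_conj_mul s Eb)).1
  have i2 := (abs_le.mp (abs_re_conj_mul (s * a) b)).1
  rw [norm_mul] at i2
  have i3 : S * ‖Eb‖ ≤ S * (8.41 * f ^ 2 * Y) := by gcongr
  have i4 : S * ‖a‖ * ‖b‖ ≤ S * (0.8545 * f) * (2.062 * f * Y) := by gcongr
  have i5 : S ^ 2 * (1 + φ ^ 2 * (k ^ 2 - κ.re) - 12.99 * f ^ 3) ≤ S ^ 2 * ‖1 + a‖ ^ 2 := by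
    gcongr
  have i6 : 0 ≤ S * f ^ 2 * Y := by positivity
  have i7 := sq_nonneg ‖b‖
  linarith

/-- T2 -/
theorem T2 {ω s g g2 c m₀ Ga Gb : ℂ} {z t Y γ : ℝ} (ht : |z| = t) (ht3 : t ≤ 1 / 3300)
    (hY : 0 ≤ Y) (hω : ‖ω‖ = 1) (hcg : c * g = -ω) (hcg2 : c * g2 = -ω * γ)
    (hγ : |γ| ≤ 2.71) (hc : ‖c‖ ≤ 0.5556)
    (hm : ‖m₀‖ ≤ 2.88 * Y) (hGa : ‖Ga‖ ≤ 9 * t ^ 3) (hGb : ‖Gb‖ ≤ 8.425 * t ^ 2 * Y) :
    ‖ω * s - c * (s * (z * Complex.I * g - z ^ 2 / 2 * g2 + Ga) +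
      (z * Complex.I * m₀ + Gb))‖ ^ 2 ≤
    ‖s‖ ^ 2 * (1 + z ^ 2 - γ * z ^ 2) + 2 * (conj (ω * s) * (-(z * Complex.I * c * m₀))).re
      + (10.01 * t ^ 3 * ‖s‖ ^ 2 + 12.58 * t ^ 2 * ‖s‖ * Y + 0.001 * t * Y ^ 2) := by
  have ht0 : 0 ≤ t := ht ▸ abs_nonneg z
  have hz2 : z ^ 2 = t ^ 2 := by rw [← ht, sq_abs]
  set S := ‖s‖ with hS
  have hS0 : 0 ≤ S := norm_nonneg s
  have hzn : ‖(z : ℂ)‖ = t := by rw [Complex.norm_real, Real.norm_eq_abs, ht]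
  set d : ℂ := z * Complex.I - ((γ * z ^ 2 / 2 : ℝ) : ℂ) with hd
  set m : ℂ := -(z * Complex.I * c * m₀) with hmdef
  set q : ℂ := -(c * (s * Ga + Gb)) with hq
  have e0 : ω * s - c * (s * (z * Complex.I * g - z ^ 2 / 2 * g2 + Ga) +
      (z * Complex.I * m₀ + Gb)) = ω * s * (1 + d) + (m + q) := by
    rw [hd, hmdef, hq]
    push_cast
    linear_combination (-(s * z * Complex.I)) * hcg + (s * z ^ 2 / 2) * hcg2
  rw [e0]
  have nd : ‖d‖ ≤ 1.0005 * t := by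
    have h1 : ‖d‖ ≤ ‖(z : ℂ) * Complex.I‖ + ‖((γ * z ^ 2 / 2 : ℝ) : ℂ)‖ := norm_sub_le _ _
    rw [norm_mul, hzn, Complex.norm_I, Complex.norm_real, Real.norm_eq_abs, abs_div, abs_mul,
      abs_two, hz2, abs_of_nonneg (sq_nonneg t)] at h1
    have h2 : |γ| * (t * t) ≤ 2.71 * (t * (1 / 3300)) := by gcongr
    linarith
  have nm : ‖m‖ ≤ 1.6002 * t * Y := by
    rw [hmdef, norm_neg, norm_mul, norm_mul, norm_mul, hzn, Complex.norm_I, mul_one]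
    calc t * ‖c‖ * ‖m₀‖ ≤ t * 0.5556 * (2.88 * Y) := by gcongr
      _ ≤ 1.6002 * t * Y := by linarith [mul_nonneg ht0 hY]
  have nq : ‖q‖ ≤ 5.0004 * t ^ 3 * S + 4.681 * t ^ 2 * Y := by
    rw [hq, norm_neg, norm_mul]
    have h1 : ‖s * Ga + Gb‖ ≤ S * (9 * t ^ 3) + 8.425 * t ^ 2 * Y := by
      refine (norm_add_le _ _).trans (add_le_add ?_ hGb)
      rw [norm_mul]
      gcongr
    calc ‖c‖ * ‖s * Ga + Gb‖ ≤ 0.5556 * (S * (9 * t ^ 3) + 8.425 * t ^ 2 * Y) := by gcongr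
      _ ≤ _ := by
        have h2 : 0 ≤ t ^ 2 * Y := by positivity
        have h3 : 0 ≤ S * t ^ 3 := by positivity
        linarith
  have npd : ‖1 + d‖ ^ 2 = 1 + z ^ 2 - γ * z ^ 2 + γ ^ 2 * z ^ 4 / 4 := by
    have hre : (1 + d).re = 1 - γ * z ^ 2 / 2 := by
      rw [hd, Complex.add_re, Complex.sub_re, Complex.one_re, Complex.re_ofReal_mul,
        Complex.ofReal_re, Complex.I_re]
      ring
    have him : (1 + d).im = z := by
      rw [hd, Complex.add_im, Complex.sub_im, Complex.one_im, Complex.im_ofReal_mul,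
        Complex.ofReal_im, Complex.I_im]
      ring
    rw [← Complex.normSq_eq_norm_sq, Complex.normSq_apply, hre, him]
    ring
  have npd1 : ‖1 + d‖ ≤ 1.0004 := by
    refine (norm_add_le _ _).trans ?_
    rw [norm_one]
    linarith
  have e1 : ‖ω * s * (1 + d) + (m + q)‖ ^ 2 = S ^ 2 * ‖1 + d‖ ^ 2 +
      2 * (conj (ω * s) * m).re + 2 * (conj (ω * s * d) * m).re +
      2 * (conj (ω * s * (1 + d)) * q).re + ‖m + q‖ ^ 2 := by
    have e2 : (conj (ω * s * (1 + d)) * (m + q)).re = (conj (ω * s) * m).re +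
        (conj (ω * s * d) * m).re + (conj (ω * s * (1 + d)) * q).re := by
      rw [← Complex.add_re, ← Complex.add_re]
      congr 1
      rw [map_mul, map_mul (starRingEnd ℂ) (ω * s) d, map_add, map_one]
      ring
    rw [sq_norm_add, e2, norm_mul, norm_mul, hω, one_mul, mul_pow]
    ring
  rw [e1]
  have i1 := (abs_le.mp (abs_re_conj_mul (ω * s * d) m)).2
  have i2 := (abs_le.mp (abs_re_conj_mul (ω * s * (1 + d)) q)).2
  rw [norm_mul, norm_mul, hω, one_mul] at i1 i2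
  have i3 : S * ‖d‖ * ‖m‖ ≤ S * (1.0005 * t) * (1.6002 * t * Y) := by gcongr
  have i4 : S * ‖1 + d‖ * ‖q‖ ≤ S * 1.0004 * (5.0004 * t ^ 3 * S + 4.681 * t ^ 2 * Y) := by gcongr
  have i5 : ‖m + q‖ ≤ t * (1.602 * Y + 0.002 * (t * S)) := by
    have h1 : ‖m + q‖ ≤ 1.6002 * t * Y + (5.0004 * t ^ 3 * S + 4.681 * t ^ 2 * Y) :=
      (norm_add_le _ _).trans (add_le_add nm nq)
    have h2 : t ^ 2 * t * S ≤ t ^ 2 * (1 / 3300) * S := by gcongr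
    have h3 : t * t * Y ≤ t * (1 / 3300) * Y := by gcongr
    have h4 : 0 ≤ t ^ 2 * S := by positivity
    have h5 : 0 ≤ t * Y := by positivity
    linarith
  have i6 : ‖m + q‖ ^ 2 ≤ t * (1 / 3300) * (1.602 * Y + 0.002 * (t * S)) ^ 2 := by
    have h1 : ‖m + q‖ ^ 2 ≤ (t * (1.602 * Y + 0.002 * (t * S))) ^ 2 := by gcongr
    have h2 : t ^ 2 ≤ t * (1 / 3300) := by
      rw [sq]; exact mul_le_mul_of_nonneg_left ht3 ht0
    calc ‖m + q‖ ^ 2 ≤ (t * (1.602 * Y + 0.002 * (t * S))) ^ 2 := h1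
      _ = t ^ 2 * (1.602 * Y + 0.002 * (t * S)) ^ 2 := by ring
      _ ≤ _ := by gcongr
  have i7 : γ ^ 2 * z ^ 4 / 4 ≤ 0.001 * t ^ 3 := by
    have h1 : γ ^ 2 ≤ 2.71 ^ 2 := by rw [← sq_abs]; gcongr
    have h2 : z ^ 4 = t ^ 4 := by
      rw [show z ^ 4 = (z ^ 2) ^ 2 by ring, hz2]; ring
    have h3 : t ^ 4 ≤ t ^ 3 * (1 / 3300) := by
      rw [show t ^ 4 = t ^ 3 * t by ring]
      exact mul_le_mul_of_nonneg_left ht3 (pow_nonneg ht0 3)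
    rw [h2]
    calc γ ^ 2 * t ^ 4 / 4 ≤ 2.71 ^ 2 * (t ^ 3 * (1 / 3300)) / 4 := by gcongr
      _ ≤ _ := by linarith [pow_nonneg ht0 3]
  have i8 : S ^ 2 * (γ ^ 2 * z ^ 4 / 4) ≤ S ^ 2 * (0.001 * t ^ 3) := by gcongr
  have i9 : S ^ 2 * ‖1 + d‖ ^ 2 = S ^ 2 * (1 + z ^ 2 - γ * z ^ 2) +
      S ^ 2 * (γ ^ 2 * z ^ 4 / 4) := by rw [npd]; ring
  rw [i9]
  have j1 : 0 ≤ S ^ 2 * t ^ 3 := by positivity
  have j2 : 0 ≤ S * t ^ 2 * Y := by positivity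
  have j3 : 0 ≤ t * Y ^ 2 := by positivity
  linarith

end Pool.Agent.H93.LocalAux
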