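import Pool.Agent.Lib.H93.LocalSums
import Pool.Agent.Lib.H93.LocalT12
import Pool.Agent.Lib.H93.LocalLower

/-!
Chunk D1, part 5: the transversal estimates T3, T4.
-/

namespace Pool.Agent.H93

open Filter Topology ComplexConjugate LocalAux

theorem rhoT_congr {v w : ℕ → ℂ} (h : ∀ j, v (j + 1) = w (j + 1)) (k : ℕ) :
    rhoT v k = rhoT w k := by
  rcases Nat.eq_zero_or_pos k with rfl | hk
  · simp [rhoT]
  · unfold rhoT
    obtain ⟨m, rfl⟩ : ∃ m, k = m + 1 := ⟨k - 1, by omega⟩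
    simp only [h]

theorem RRT_congr {v w : ℕ → ℂ} (h : ∀ j, v (j + 1) = w (j + 1)) : RRT v = RRT w := by
  unfold RRT
  simp only [rhoT_congr h]

theorem rhoT_smul (c : ℂ) (v : ℕ → ℂ) (k : ℕ) : rhoT (fun j => c * v j) k = c * rhoT v k := by
  unfold rhoT
  split_ifs
  · simp
  · rw [Finset.mul_sum]
    exact Finset.sum_congr rfl fun i _ => by ring
  · ring

namespace Crit

variable (K : Crit)

theorem k1_mem : 0.853 ≤ K.k1 ∧ K.k1 ≤ 0.854 := by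
  have h := abs_le.mp K.k1_spec
  unfold k1
  constructor <;> linarith [h.1, h.2]

theorem v1_le (j : ℕ) : ‖K.v1 (j + 1)‖ ≤ 1 * (((j + 1 : ℕ) : ℝ) - 0.853) := by
  have h := K.k1_mem
  have hj : (0 : ℝ) ≤ j := Nat.cast_nonneg j
  unfold v1
  rw [norm_mul, K.norm_xs, mul_one, one_mul]
  have e : ((j + 1 : ℕ) : ℂ) - (K.k1 : ℂ) = (((j + 1 : ℕ) : ℝ) - K.k1 : ℝ) := by push_cast; ring
  rw [e, Complex.norm_real, Real.norm_of_nonneg (by push_cast; linarith [h.2])]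
  linarith [h.1]

/-- `RRT (A 1 y) ≤ RRT y` if `s y = 0` -/
theorem RRT_A_one_le {y : ℕ → ℂ} (hy : Bdd y) (hs : K.s y = 0) : RRT (K.A 1 y) ≤ RRT y := by
  have h := K.M0_lower 0 hy hs
  have hW := Wn_nonneg y
  have e : K.M0 0 y = RRT y - RRT (K.A 1 y) := by
    unfold M0
    simp
  rw [e] at h
  norm_num at h
  linarith

/-- T3 -/
theorem T3 {x : ℕ → ℂ} (hx : Bdd x) {φ f : ℝ} (hf : |φ| = f) (hf6 : f ≤ 1 / 6000)
    {Ea Eb : ℂ}
    (hσ : K.s (rot (Complex.exp (φ * Complex.I)) x) =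
      K.s x * (1 + φ * Complex.I * K.k1 - φ ^ 2 / 2 * K.kap + Ea) +
        (φ * Complex.I * K.l1 (K.y x) + Eb))
    (hEa : ‖Ea‖ ≤ 6.42 * f ^ 3) (hEb : ‖Eb‖ ≤ 8.41 * f ^ 2 * √(Wn (K.y x)))
    (hκn : ‖K.kap‖ ≤ 2.5) :
    RRT (fun j => K.y x j + φ * Complex.I * K.s x * K.v1 j)
      - f * (71.7 * f ^ 2 * ‖K.s x‖ ^ 2 + 43.97 * f * ‖K.s x‖ * √(Wn (K.y x))
        + 5.67 * Wn (K.y x)) ≤
    RRT (K.y (rot (Complex.exp (φ * Complex.I)) x)) := by
  have hf0 : 0 ≤ f := hf ▸ abs_nonneg φ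
  have hφn : ‖(φ : ℂ)‖ = f := by rw [Complex.norm_real, Real.norm_eq_abs, hf]
  have hφ2 : φ ^ 2 = f ^ 2 := by rw [← hf, sq_abs]
  have hyb := K.bdd_y hx
  have hsm := hyb.sm
  set Y := √(Wn (K.y x)) with hYdef
  have hY0 : 0 ≤ Y := Real.sqrt_nonneg _
  have hYsq : Wn (K.y x) = Y ^ 2 := (Real.sq_sqrt (Wn_nonneg _)).symm
  set s := K.s x with hs
  set S := ‖s‖ with hS
  have hS0 : 0 ≤ S := norm_nonneg _
  have hk := K.k1_mem
  have hk0 : 0 ≤ K.k1 := by linarith [hk.1]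
  set u := Complex.exp (φ * Complex.I) with hu
  have hu1 : ‖u‖ = 1 := Complex.norm_exp_ofReal_mul_I φ
  set σ := K.s (rot u x) with hσdef
  set a : ℂ := φ * Complex.I * K.k1 - φ ^ 2 / 2 * K.kap + Ea with ha
  set b : ℂ := φ * Complex.I * K.l1 (K.y x) + Eb with hb
  have hσ' : σ = s * (1 + a) + b := by rw [hσ, ha]; ring
  -- sizes
  have h4 : f * f ≤ f * (1 / 6000) := mul_le_mul_of_nonneg_left hf6 hf0
  have h5 : f ^ 2 * f ≤ f ^ 2 * (1 / 6000) := mul_le_mul_of_nonneg_left hf6 (sq_nonneg f)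
  have nκ : ‖(φ : ℂ) ^ 2 / 2 * K.kap‖ = f ^ 2 / 2 * ‖K.kap‖ := by
    rw [norm_mul, norm_div, norm_pow, hφn]; norm_num
  have nκ' : f ^ 2 / 2 * ‖K.kap‖ ≤ f ^ 2 / 2 * 2.5 := by gcongr
  have na2 : ‖-(φ ^ 2 / 2 * K.kap) + Ea‖ ≤ 1.2512 * f ^ 2 := by
    refine (norm_add_le _ _).trans ?_
    rw [norm_neg, nκ]
    have := sq_nonneg f
    linarith
  have na1 : ‖(φ : ℂ) * Complex.I * K.k1‖ ≤ 0.854 * f := by
    rw [norm_mul, norm_mul, hφn, Complex.norm_I, mul_one, Complex.norm_real,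
        Real.norm_of_nonneg hk0]
    calc f * K.k1 ≤ f * 0.854 := mul_le_mul_of_nonneg_left hk.2 hf0
      _ = _ := by ring
  have na : ‖a‖ ≤ 0.8545 * f := by
    have e : a = φ * Complex.I * K.k1 + (-(φ ^ 2 / 2 * K.kap) + Ea) := by rw [ha]; ring
    rw [e]
    refine (norm_add_le _ _).trans ?_
    linarith
  have nb : ‖b‖ ≤ 2.062 * f * Y := by
    have h1 : ‖b‖ ≤ ‖(φ : ℂ) * Complex.I * K.l1 (K.y x)‖ + ‖Eb‖ := norm_add_le _ _
    rw [norm_mul, norm_mul, hφn, Complex.norm_I, mul_one] at h1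
    have h3 : f * ‖K.l1 (K.y x)‖ ≤ f * (2.06 * Y) :=
      mul_le_mul_of_nonneg_left (K.norm_l1_le hsm) hf0
    have h4 : f * f * Y ≤ f * (1 / 6000) * Y := by gcongr
    have h5 : 0 ≤ f * Y := by positivity
    linarith
  -- the rotated back sequence
  set w : ℕ → ℂ := fun j => Complex.exp (((-φ) * (j : ℝ) : ℝ) * Complex.I) with hw
  have hw1 : ∀ j, ‖w j‖ = 1 := fun j => Complex.norm_exp_ofReal_mul_I _
  have huw : ∀ j, u ^ j * w j = 1 := fun j => by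
    rw [hu, expI_pow, hw, ← Complex.exp_add, ← Complex.exp_zero]
    congr 1
    push_cast
    ring
  set R1 : ℕ → ℂ := fun j =>
    s * (1 - w j * (1 + a) - φ * Complex.I * ((j : ℂ) - K.k1)) * K.xs j with hR1
  set R2 : ℕ → ℂ := fun j => -(w j * b) * K.xs j with hR2
  set vA : ℕ → ℂ := fun j => K.y x j + φ * Complex.I * s * K.v1 j with hvA
  set ty : ℕ → ℂ := fun j => vA j + (R1 j + R2 j) with hty
  have hrot : K.y (rot u x) = rot u ty := by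
    funext j
    simp only [y, rot_apply, hty, hvA, hR1, hR2, v1]
    rw [← hσdef, hσ']
    have := huw j
    linear_combination (s * (1 + a) * K.xs j + b * K.xs j) * this
  -- bounds of the entries
  have hR1le : ∀ j : ℕ, ‖R1 (j + 1)‖ ≤ (f ^ 2 * S) * pj (j + 1) := by
    intro j
    have e : R1 (j + 1) = s * (-(w (j + 1) - 1 - (((-φ) * ((j + 1 : ℕ) : ℝ) : ℝ) : ℂ) * Complex.I)
        - (-(φ ^ 2 / 2 * K.kap) + Ea) - (w (j + 1) - 1) * a) * K.xs (j + 1) := by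
      simp only [hR1]
      rw [ha]
      push_cast
      ring
    rw [e, norm_mul, norm_mul, K.norm_xs, mul_one]
    have t1 := expI_taylor2 ((-φ) * ((j + 1 : ℕ) : ℝ))
    have t2 := expI_sub_one_le ((-φ) * ((j + 1 : ℕ) : ℝ))
    have t3 : ‖w (j + 1) - 1‖ ≤ f * ((j + 1 : ℕ) : ℝ) := by
      refine t2.trans (le_of_eq ?_)
      rw [abs_mul, abs_neg, hf, abs_of_nonneg (Nat.cast_nonneg _)]
    have t4 : ‖w (j + 1) - 1 - (((-φ) * ((j + 1 : ℕ) : ℝ) : ℝ) : ℂ) * Complex.I‖ ≤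
        f ^ 2 * ((j + 1 : ℕ) : ℝ) ^ 2 / 2 := by
      refine t1.trans (le_of_eq ?_)
      rw [mul_pow, neg_sq, hφ2]
    have hj0 : (0 : ℝ) ≤ ((j + 1 : ℕ) : ℝ) := Nat.cast_nonneg _
    have t5 : ‖-(w (j + 1) - 1 - (((-φ) * ((j + 1 : ℕ) : ℝ) : ℝ) : ℂ) * Complex.I)
        - (-(φ ^ 2 / 2 * K.kap) + Ea) - (w (j + 1) - 1) * a‖ ≤ f ^ 2 * pj (j + 1) := by
      calc _ ≤ ‖w (j + 1) - 1 - (((-φ) * ((j + 1 : ℕ) : ℝ) : ℝ) : ℂ) * Complex.I‖ +
            ‖-(φ ^ 2 / 2 * K.kap) + Ea‖ + ‖w (j + 1) - 1‖ * ‖a‖ := by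
            refine (norm_sub_le _ _).trans ?_
            rw [norm_mul]
            refine add_le_add ((norm_sub_le _ _).trans (le_of_eq ?_)) le_rfl
            rw [norm_neg]
        _ ≤ f ^ 2 * ((j + 1 : ℕ) : ℝ) ^ 2 / 2 + 1.2512 * f ^ 2 +
            (f * ((j + 1 : ℕ) : ℝ)) * (0.8545 * f) := by gcongr
        _ ≤ f ^ 2 * pj (j + 1) := by
            unfold pj
            have h1 := mul_nonneg (sq_nonneg f) hj0
            have h2 := sq_nonneg f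
            linarith
    calc S * _ ≤ S * (f ^ 2 * pj (j + 1)) := mul_le_mul_of_nonneg_left t5 hS0
      _ = _ := by ring
  have hR2le : ∀ j : ℕ, ‖R2 (j + 1)‖ ≤ 2.062 * f * Y := by
    intro j
    simp only [hR2]
    rw [norm_mul, norm_neg, norm_mul, hw1, one_mul, K.norm_xs, mul_one]
    exact nb
  have hv1 : ∀ j : ℕ, ‖φ * Complex.I * s * K.v1 (j + 1)‖ ≤
      (f * S) * (((j + 1 : ℕ) : ℝ) - 0.853) := by
    intro j
    rw [norm_mul, norm_mul, norm_mul, hφn, Complex.norm_I, mul_one]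
    have := K.v1_le j
    rw [one_mul] at this
    exact mul_le_mul_of_nonneg_left this (by positivity)
  have hfS : 0 ≤ f * S := by positivity
  have hf2S : 0 ≤ f ^ 2 * S := by positivity
  have hfY : 0 ≤ 2.062 * f * Y := by positivity
  have sm1 : Sm fun j => φ * Complex.I * s * K.v1 j :=
    Sm.of_le (p := fun j : ℕ => (j : ℝ) - 0.853) hv1 num_W1.1
  have smA : Sm vA := hsm.add sm1
  have smR1 : Sm R1 := Sm.of_le (p := pj) hR1le num_W2.1
  have smR2 : Sm R2 := Sm.of_le (p := fun _ => 1) (c := 2.062 * f * Y)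
    (fun j => by simpa using hR2le j) num_W0.1
  have smR : Sm fun j => R1 j + R2 j := smR1.add smR2
  have smt : Sm ty := smA.add smR
  -- norms
  have nrY : √(RRT (K.y x)) ≤ Y := Real.sqrt_le_sqrt (RRT_le_Wn hsm)
  have nrA : √(RRT vA) ≤ Y + f * S * 2.26 :=
    (RRT_add_le hsm sm1).trans (add_le_add nrY (nr_lin hfS hv1))
  have wnA : √(Wn vA) ≤ Y + f * S * 3.125 :=
    (Wn_add_le hsm sm1).trans (add_le_add le_rfl
      (Wn_le_of_le (p := fun j : ℕ => (j : ℝ) - 0.853) hfS (by norm_num) hv1 num_W1.1 num_W1.2))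
  have nrR : √(RRT fun j => R1 j + R2 j) ≤ f ^ 2 * S * 12.07 + 2.062 * f * Y * 0.95 :=
    (RRT_add_le smR1 smR2).trans (add_le_add (nr_pj hf2S hR1le) (nr_one hfY hR2le))
  have wnR : √(Wn fun j => R1 j + R2 j) ≤ f ^ 2 * S * 16.62 + 2.062 * f * Y * 1.2264 :=
    (Wn_add_le smR1 smR2).trans (add_le_add
      (Wn_le_of_le (p := pj) hf2S (by norm_num) hR1le num_W2.1 num_W2.2)
      (Wn_le_of_le (p := fun _ => 1) hfY (by norm_num) (fun j => by simpa using hR2le j)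
        num_W0.1 num_W0.2))
  have wnt : √(Wn ty) ≤ 1.0005 * Y + 3.128 * (f * S) := by
    refine (Wn_add_le smA smR).trans ((add_le_add wnA wnR).trans ?_)
    have h1 : f * Y ≤ 1 / 6000 * Y := by gcongr
    have h2 : f * f * S ≤ 1 / 6000 * f * S := by gcongr
    linarith
  have wnt2 : Wn ty ≤ (1.0005 * Y + 3.128 * (f * S)) ^ 2 := by
    rw [← Real.sq_sqrt (Wn_nonneg ty)]
    have := Real.sqrt_nonneg (Wn ty)
    gcongr
  have m1 := RRT_rot_ge smt φ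
  rw [hf] at m1
  have m2 := RRT_add_ge smA smR
  have m3 : √(RRT vA) * √(RRT fun j => R1 j + R2 j) ≤
      (Y + f * S * 2.26) * (f ^ 2 * S * 12.07 + 2.062 * f * Y * 0.95) := by gcongr
  have m4 : 1.75 * f * Wn ty ≤ 1.75 * f * (1.0005 * Y + 3.128 * (f * S)) ^ 2 := by gcongr
  have m5 : RRT ty = RRT fun j => vA j + (R1 j + R2 j) := rfl
  rw [hrot, hYsq]
  have p1 : 0 ≤ f * Y ^ 2 := by positivity
  have p2 : 0 ≤ f ^ 2 * S * Y := by positivity
  have p3 : 0 ≤ f ^ 3 * S ^ 2 := by positivity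
  rw [← m5] at m2
  linarith

theorem y_A_succ (x : ℕ → ℂ) (ζ : ℂ) (j : ℕ) :
    K.A ζ x (j + 1) = K.A 1 (K.y x) (j + 1) + K.ω * K.s x * K.xs (j + 1) := by
  have h1 := congrFun K.A_one_xs (j + 1)
  rw [K.A_succ] at h1
  rw [K.A_succ, K.A_succ]
  conv_lhs => rw [K.x_eq x j]
  linear_combination (K.s x) * h1

/-- `s (A ζ x)` through the new entry -/
theorem s_A {x : ℕ → ℂ} (hx : Bdd x) (ζ : ℂ) :
    K.s (K.A ζ x) = K.ω * K.s x - K.cc 0 * (K.A 1 x 0 - K.A ζ x 0) := by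
  have hA := K.bdd_A (ζ := ζ) hx
  have hA1 := K.bdd_A (ζ := 1) hx
  rw [← K.s_A_one hx]
  unfold s
  rw [(K.summable_cc hA).tsum_eq_zero_add, (K.summable_cc hA1).tsum_eq_zero_add]
  simp only [K.A_succ]
  ring

/-- T4 -/
theorem T4 {x : ℕ → ℂ} (hx : Bdd x) {z t : ℝ} (ht : |z| = t) (ht3 : t ≤ 1 / 3300)
    {Ga Gb : ℂ}
    (hG : K.A 1 x 0 - K.A (Complex.exp (z * Complex.I)) x 0 =
      K.s x * (z * Complex.I * K.g - z ^ 2 / 2 * K.g2 + Ga) +
        (z * Complex.I * K.gg1 (K.y x) + Gb))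
    (hGa : ‖Ga‖ ≤ 9 * t ^ 3) (hGb : ‖Gb‖ ≤ 8.425 * t ^ 2 * √(Wn (K.y x))) :
    RRT (K.y (K.A (Complex.exp (z * Complex.I)) x)) ≤
    RRT (fun j => K.A 1 (K.y x) j - Complex.I * K.ω * (z * K.s x) * K.xs j)
      + t * (2.47 * t ^ 2 * ‖K.s x‖ ^ 2 + 5.49 * t * ‖K.s x‖ * √(Wn (K.y x))
        + 3.05 * Wn (K.y x)) := by
  have ht0 : 0 ≤ t := ht ▸ abs_nonneg z
  have hzn : ‖(z : ℂ)‖ = t := by rw [Complex.norm_real, Real.norm_eq_abs, ht]
  have hyb := K.bdd_y hx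
  have hsm := hyb.sm
  have hsy := K.s_y hx
  set Y := √(Wn (K.y x)) with hYdef
  have hY0 : 0 ≤ Y := Real.sqrt_nonneg _
  have hYsq : Wn (K.y x) = Y ^ 2 := (Real.sq_sqrt (Wn_nonneg _)).symm
  set s := K.s x with hs
  set S := ‖s‖ with hS
  have hS0 : 0 ≤ S := norm_nonneg _
  set ζ := Complex.exp (z * Complex.I) with hζ
  set e : ℂ := K.cc 0 * (s * (-(z ^ 2 / 2 * K.g2) + Ga) + (z * Complex.I * K.gg1 (K.y x) + Gb))
    with he
  have ne : ‖e‖ ≤ t * (1.3629 * (t * S) + 1.6017 * Y) := by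
    have h1 : ‖-((z : ℂ) ^ 2 / 2 * K.g2) + Ga‖ ≤ t ^ 2 / 2 * 4.9 + 9 * t ^ 3 := by
      refine (norm_add_le _ _).trans (add_le_add ?_ hGa)
      rw [norm_neg, norm_mul, norm_div, norm_pow, hzn]
      have h2 := K.norm_g2_le
      have h3 : ‖(2 : ℂ)‖ = 2 := by norm_num
      rw [h3]
      gcongr
    have h2 : ‖(z : ℂ) * Complex.I * K.gg1 (K.y x) + Gb‖ ≤ t * (2.88 * Y) + 8.425 * t ^ 2 * Y := by
      refine (norm_add_le _ _).trans (add_le_add ?_ hGb)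
      rw [norm_mul, norm_mul, hzn, Complex.norm_I, mul_one]
      exact mul_le_mul_of_nonneg_left (K.norm_gg1_le hyb hsy) ht0
    have h3 : ‖e‖ ≤ 0.5556 * (S * (t ^ 2 / 2 * 4.9 + 9 * t ^ 3) +
        (t * (2.88 * Y) + 8.425 * t ^ 2 * Y)) := by
      rw [he, norm_mul]
      have h4 := K.norm_cc_zero.2
      have h5 : ‖s * (-((z : ℂ) ^ 2 / 2 * K.g2) + Ga) +
          (z * Complex.I * K.gg1 (K.y x) + Gb)‖ ≤
          S * (t ^ 2 / 2 * 4.9 + 9 * t ^ 3) + (t * (2.88 * Y) + 8.425 * t ^ 2 * Y) := by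
        refine (norm_add_le _ _).trans (add_le_add ?_ h2)
        rw [norm_mul]
        exact mul_le_mul_of_nonneg_left h1 hS0
      gcongr
    have h6 : t ^ 2 * t * S ≤ t ^ 2 * (1 / 3300) * S := by gcongr
    have h7 : t * t * Y ≤ t * (1 / 3300) * Y := by gcongr
    have h8 : 0 ≤ t ^ 2 * S := by positivity
    have h9 : 0 ≤ t * Y := by positivity
    linarith
  set vB : ℕ → ℂ := fun j => K.A 1 (K.y x) j - Complex.I * K.ω * (z * s) * K.xs j with hvB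
  set vE : ℕ → ℂ := fun j => e * K.xs j with hvE
  have hcg := K.cc_zero_mul_g
  have hA : RRT (K.y (K.A ζ x)) = RRT fun j => vB j + vE j := by
    refine RRT_congr fun j => ?_
    have h1 := K.y_A_succ x ζ j
    have h2 := K.s_A hx ζ
    simp only [y, hvB, hvE, he]
    rw [h1, h2, hG]
    linear_combination (s * z * Complex.I * K.xs (j + 1)) * hcg
  have hbB1 : Bdd (K.A 1 (K.y x)) := K.bdd_A hyb
  have smA1 : Sm (K.A 1 (K.y x)) := hbB1.sm
  have hX : ∀ j : ℕ, ‖-(Complex.I * K.ω * (z * s) * K.xs (j + 1))‖ ≤ t * S := by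
    intro j
    rw [norm_neg, norm_mul, norm_mul, norm_mul, norm_mul, Complex.norm_I, K.hω, K.norm_xs, hzn]
    linarith
  have hE : ∀ j : ℕ, ‖vE (j + 1)‖ ≤ ‖e‖ := by
    intro j
    simp only [hvE]
    rw [norm_mul, K.norm_xs, mul_one]
  have smX : Sm fun j => -(Complex.I * K.ω * (z * s) * K.xs j) :=
    Sm.of_le (p := fun _ => 1) (c := t * S) (fun j => by simpa using hX j) num_W0.1
  have smE : Sm vE :=
    Sm.of_le (p := fun _ => 1) (c := ‖e‖) (fun j => by simpa using hE j) num_W0.1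
  have hvB' : vB = fun j => K.A 1 (K.y x) j + -(Complex.I * K.ω * (z * s) * K.xs j) := by
    funext j; simp only [hvB]; ring
  have smB : Sm vB := by rw [hvB']; exact smA1.add smX
  have nrA1 : √(RRT (K.A 1 (K.y x))) ≤ Y :=
    Real.sqrt_le_sqrt ((K.RRT_A_one_le hyb hsy).trans (RRT_le_Wn hsm))
  have nrB : √(RRT vB) ≤ Y + t * S * 0.95 := by
    rw [hvB']
    exact (RRT_add_le smA1 smX).trans (add_le_add nrA1 (nr_one (by positivity) hX))
  have nrE : √(RRT vE) ≤ (t * (1.3629 * (t * S) + 1.6017 * Y)) * 0.95 :=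
    (nr_one (norm_nonneg e) hE).trans (mul_le_mul_of_nonneg_right ne (by norm_num))
  have m1 := RRT_add_le smB smE
  have m2 : (RRT fun j => vB j + vE j) ≤ (√(RRT vB) + √(RRT vE)) ^ 2 := by
    rw [← Real.sq_sqrt (RRT_nonneg fun j => vB j + vE j)]
    have := Real.sqrt_nonneg (RRT fun j => vB j + vE j)
    gcongr
  have m3 : √(RRT vB) ^ 2 = RRT vB := Real.sq_sqrt (RRT_nonneg _)
  have m4 : √(RRT vB) * √(RRT vE) ≤
      (Y + t * S * 0.95) * ((t * (1.3629 * (t * S) + 1.6017 * Y)) * 0.95) := by gcongr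
  have m5 : √(RRT vE) ^ 2 ≤ t * (1 / 3300) * (0.95 ^ 2 * (1.3629 * (t * S) + 1.6017 * Y) ^ 2) := by
    have h1 : √(RRT vE) ^ 2 ≤ ((t * (1.3629 * (t * S) + 1.6017 * Y)) * 0.95) ^ 2 := by gcongr
    have h2 : t ^ 2 ≤ t * (1 / 3300) := by
      rw [sq]; exact mul_le_mul_of_nonneg_left ht3 ht0
    calc √(RRT vE) ^ 2 ≤ ((t * (1.3629 * (t * S) + 1.6017 * Y)) * 0.95) ^ 2 := h1
      _ = t ^ 2 * (0.95 ^ 2 * (1.3629 * (t * S) + 1.6017 * Y) ^ 2) := by ring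
      _ ≤ _ := by gcongr
  rw [hA, hYsq]
  have p1 : 0 ≤ t * Y ^ 2 := by positivity
  have p2 : 0 ≤ t ^ 2 * S * Y := by positivity
  have p3 : 0 ≤ t ^ 3 * S ^ 2 := by positivity
  linarith

end Crit

end Pool.Agent.H93
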