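import Pool.Agent.Lib.H93.Defs

/-!
Chunk B: lower bound from zeros of `ψ(·, q)` with `|q| = 1`.
-/

namespace Pool.Agent.H93

open Filter Topology
open scoped ENNReal NNReal

/-- A series with coefficients of modulus one has radius of convergence one. -/
theorem radiusOne_of_norm_one {a : ℕ → ℂ} (h : ∀ n, ‖a n‖ = 1) : RadiusOne a := by
  unfold RadiusOne
  have := FormalMultilinearSeries.ofScalars_radius_eq_of_tendsto (E := ℂ) (c := a) (r := 1)
    one_ne_zero (by simp [h])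
  simpa using this

theorem norm_psi_term {q v : ℂ} (hq : ‖q‖ = 1) (n : ℕ) :
    ‖q ^ (n * (n - 1) / 2) * v ^ n‖ = ‖v‖ ^ n := by
  rw [norm_mul, norm_pow, norm_pow, hq, one_pow, one_mul]

theorem norm_psi_term_le {q v : ℂ} {ρ : ℝ} (hq : ‖q‖ = 1) (hv : ‖v‖ ≤ ρ) (n : ℕ) :
    ‖q ^ (n * (n - 1) / 2) * v ^ n‖ ≤ ρ ^ n := by
  rw [norm_psi_term hq]
  exact pow_le_pow_left₀ (norm_nonneg v) hv n

theorem psi_zero (q : ℂ) : psi 0 q = 1 := by
  unfold psi
  rw [tsum_eq_single 0]
  · simp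
  · intro n hn
    simp [hn]

theorem psi_differentiableOn {q : ℂ} (hq : ‖q‖ = 1) {ρ : ℝ} (h0 : 0 ≤ ρ) (h1 : ρ < 1) :
    DifferentiableOn ℂ (fun z => psi z q) (Metric.ball 0 ρ) := by
  unfold psi
  refine Complex.differentiableOn_tsum_of_summable_norm (u := fun n : ℕ => ρ ^ n)
    (summable_geometric_of_lt_one h0 h1) ?_ Metric.isOpen_ball ?_
  · intro n
    exact (differentiable_id.pow n).const_mul _ |>.differentiableOn
  · intro n w hw
    refine norm_psi_term_le hq ?_ n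
    rw [Metric.mem_ball, dist_zero_right] at hw
    exact hw.le

theorem tri_id (m j : ℕ) : m * (m - 1) / 2 + (m + j - 1) * j =
    (m + j) * (m + j - 1) / 2 + j * (j - 1) / 2 := by
  have h2 : ∀ n : ℕ, 2 * (n * (n - 1) / 2) = n * (n - 1) := fun n =>
    Nat.mul_div_cancel' (Nat.even_mul_pred_self n).two_dvd
  have key : 2 * (m * (m - 1) / 2 + (m + j - 1) * j) =
      2 * ((m + j) * (m + j - 1) / 2 + j * (j - 1) / 2) := by
    rw [Nat.mul_add, Nat.mul_add, h2, h2, h2]
    rcases Nat.eq_zero_or_pos j with hj | hj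
    · subst hj
      simp
    · rcases Nat.eq_zero_or_pos m with hm | hm
      · subst hm
        simp
        ring
      · obtain ⟨m', rfl⟩ : ∃ m', m = m' + 1 := ⟨m - 1, by omega⟩
        obtain ⟨j', rfl⟩ : ∃ j', j = j' + 1 := ⟨j - 1, by omega⟩
        have e1 : m' + 1 + (j' + 1) - 1 = m' + j' + 1 := by omega
        rw [e1]
        simp only [Nat.add_sub_cancel]
        ring
  omega

/-- reversal: a zero `v` of the `n`-th partial sum of `ψ(·, q)` gives the zero
`(q^{n-1} v)⁻¹` of the same partial sum. -/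
theorem partialSum_reverse {q v : ℂ} (hq : q ≠ 0) (hv : v ≠ 0) (n : ℕ)
    (h : ∑ j ∈ Finset.range (n + 1), q ^ (j * (j - 1) / 2) * v ^ j = 0) :
    partialSum (fun k => q ^ (k * (k - 1) / 2)) n ((q ^ (n - 1) * v)⁻¹) = 0 := by
  unfold partialSum
  rw [← Finset.sum_range_reflect]
  have hterm : ∀ j ∈ Finset.range (n + 1),
      q ^ ((n + 1 - 1 - j) * (n + 1 - 1 - j - 1) / 2) *
        ((q ^ (n - 1) * v)⁻¹) ^ (n + 1 - 1 - j) =
      (q ^ (n * (n - 1) / 2) * ((q ^ (n - 1) * v)⁻¹) ^ n) *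
        (q ^ (j * (j - 1) / 2) * v ^ j) := by
    intro j hj
    obtain ⟨m, hm⟩ : ∃ m, n = m + j := ⟨n - j, by
      have := Finset.mem_range.mp hj
      omega⟩
    have e1 : n + 1 - 1 - j = m := by omega
    rw [e1]
    have hz : q ^ (n - 1) * v ≠ 0 := mul_ne_zero (pow_ne_zero _ hq) hv
    have hzj : ((q ^ (n - 1) * v)⁻¹) ^ n = ((q ^ (n - 1) * v)⁻¹) ^ m *
        ((q ^ (n - 1) * v)⁻¹) ^ j := by
      rw [← pow_add, ← hm]
    rw [hzj]
    have e2 : q ^ (n * (n - 1) / 2) * q ^ (j * (j - 1) / 2) =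
        q ^ (m * (m - 1) / 2) * (q ^ (n - 1)) ^ j := by
      rw [← pow_mul, ← pow_add, ← pow_add, hm, tri_id]
    have e3 : (q ^ (n - 1)) ^ j * (((q ^ (n - 1) * v)⁻¹) ^ j * v ^ j) = 1 := by
      rw [← mul_pow, ← mul_pow]
      have : q ^ (n - 1) * ((q ^ (n - 1) * v)⁻¹ * v) = 1 := by
        field_simp
      rw [this, one_pow]
    calc q ^ (m * (m - 1) / 2) * ((q ^ (n - 1) * v)⁻¹) ^ m
        = q ^ (m * (m - 1) / 2) * ((q ^ (n - 1) * v)⁻¹) ^ m *
          ((q ^ (n - 1)) ^ j * (((q ^ (n - 1) * v)⁻¹) ^ j * v ^ j)) := by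
          rw [e3, mul_one]
      _ = (q ^ (m * (m - 1) / 2) * (q ^ (n - 1)) ^ j) * ((q ^ (n - 1) * v)⁻¹) ^ m *
          (((q ^ (n - 1) * v)⁻¹) ^ j * v ^ j) := by ring
      _ = _ := by
          rw [← e2]
          ring
  rw [Finset.sum_congr rfl hterm, ← Finset.mul_sum, h, mul_zero]

/-- Hurwitz's theorem for the partial sums of `ψ(·, q)`. -/
theorem exists_zero_near {q z : ℂ} (hq : ‖q‖ = 1) (hz : ‖z‖ < 1) (h : psi z q = 0)
    {ε : ℝ} (hε : 0 < ε) :
    ∀ᶠ n : ℕ in atTop, ∃ v : ℂ, ‖v - z‖ ≤ ε ∧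
      ∑ j ∈ Finset.range (n + 1), q ^ (j * (j - 1) / 2) * v ^ j = 0 := by
  -- the radius of the big disc
  obtain ⟨ρ, hρz, hρ1⟩ := exists_between hz
  have hρ0 : 0 ≤ ρ := (norm_nonneg z).trans hρz.le
  have hd := psi_differentiableOn hq hρ0 hρ1
  have hzb : z ∈ Metric.ball (0 : ℂ) ρ := by rwa [Metric.mem_ball, dist_zero_right]
  have hρpos : 0 < ρ := (norm_nonneg z).trans_lt hρz
  have h0b : (0 : ℂ) ∈ Metric.ball (0 : ℂ) ρ := Metric.mem_ball_self hρpos
  have han : AnalyticOnNhd ℂ (fun z => psi z q) (Metric.ball 0 ρ) :=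
    hd.analyticOnNhd Metric.isOpen_ball
  -- isolated zero
  have hiso : ∀ᶠ w in 𝓝[≠] z, psi w q ≠ 0 := by
    rcases (han z hzb).eventually_eq_zero_or_eventually_ne_zero with h1 | h1
    · exfalso
      have := han.eqOn_zero_of_preconnected_of_eventuallyEq_zero
        (convex_ball (0 : ℂ) ρ).isPreconnected hzb h1 h0b
      simp only [Pi.zero_apply] at this
      rw [psi_zero] at this
      exact one_ne_zero this
    · exact h1
  rw [eventually_nhdsWithin_iff, Metric.eventually_nhds_iff] at hiso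
  obtain ⟨δ, hδ, hδ'⟩ := hiso
  -- the small circle
  set s : ℝ := min (min (δ / 2) ε) ((ρ - ‖z‖) / 2) with hs
  have hs0 : 0 < s := by
    refine lt_min (lt_min (by linarith) hε) (by linarith)
  have hsδ : s < δ := by
    have : s ≤ δ / 2 := (min_le_left _ _).trans (min_le_left _ _)
    linarith
  have hsε : s ≤ ε := (min_le_left _ _).trans (min_le_right _ _)
  have hsρ : s < ρ - ‖z‖ := by
    have : s ≤ (ρ - ‖z‖) / 2 := min_le_right _ _
    linarith
  have hsub : Metric.closedBall z s ⊆ Metric.ball 0 ρ := by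
    intro w hw
    rw [Metric.mem_closedBall] at hw
    rw [Metric.mem_ball, dist_zero_right]
    have : ‖w‖ ≤ ‖w - z‖ + ‖z‖ := by
      have := norm_add_le (w - z) z
      simpa using this
    rw [dist_eq_norm] at hw
    linarith
  have hcomp : IsCompact (Metric.sphere z s) := isCompact_sphere z s
  have hne : (Metric.sphere z s).Nonempty := NormedSpace.sphere_nonempty.mpr hs0.le
  have hcont : ContinuousOn (fun w => ‖psi w q‖) (Metric.sphere z s) :=
    (hd.continuousOn.mono (Metric.sphere_subset_closedBall.trans hsub)).norm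
  obtain ⟨w0, hw0, hmin⟩ := hcomp.exists_isMinOn hne hcont
  have hm : 0 < ‖psi w0 q‖ := by
    rw [norm_pos_iff]
    refine hδ' ?_ ?_
    · rw [Metric.mem_sphere] at hw0
      rw [hw0]
      exact hsδ
    · intro hc
      rw [Set.mem_singleton_iff] at hc
      rw [hc, Metric.mem_sphere, dist_self] at hw0
      exact hs0.ne hw0
  -- uniform convergence
  have hunif : TendstoUniformlyOn
      (fun N => fun w : ℂ => ∑ n ∈ Finset.range N, q ^ (n * (n - 1) / 2) * w ^ n)
      (fun w => ∑' n : ℕ, q ^ (n * (n - 1) / 2) * w ^ n) atTop (Metric.ball 0 ρ) := by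
    refine tendstoUniformlyOn_tsum_nat (u := fun n : ℕ => ρ ^ n)
      (summable_geometric_of_lt_one hρ0 hρ1) ?_
    intro n w hw
    refine norm_psi_term_le hq ?_ n
    rw [Metric.mem_ball, dist_zero_right] at hw
    exact hw.le
  rw [Metric.tendstoUniformlyOn_iff] at hunif
  have hev := hunif (‖psi w0 q‖ / 2) (by linarith)
  have hev' := (tendsto_add_atTop_nat 1).eventually hev
  filter_upwards [hev'] with n hn
  by_contra hcon
  push Not at hcon
  set g : ℂ → ℂ := fun w => ∑ j ∈ Finset.range (n + 1), q ^ (j * (j - 1) / 2) * w ^ j with hg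
  have hgne : ∀ w ∈ Metric.closedBall z s, g w ≠ 0 := by
    intro w hw
    rw [Metric.mem_closedBall, dist_eq_norm] at hw
    exact hcon w (hw.trans hsε)
  have hgdiff : Differentiable ℂ g := by
    intro w
    refine DifferentiableAt.fun_sum fun j _ => ?_
    exact ((differentiable_id.pow j).const_mul _) w
  have hdc : DiffContOnCl ℂ (fun w => (g w)⁻¹) (Metric.ball z s) := by
    have : DifferentiableOn ℂ (fun w => (g w)⁻¹) (Metric.closedBall z s) := by
      intro w hw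
      exact ((hgdiff w).inv (hgne w hw)).differentiableWithinAt
    refine DifferentiableOn.diffContOnCl ?_
    rwa [closure_ball z hs0.ne']
  have hbound : ∀ w ∈ frontier (Metric.ball z s), ‖(g w)⁻¹‖ ≤ (‖psi w0 q‖ / 2)⁻¹ := by
    intro w hw
    rw [frontier_ball z hs0.ne'] at hw
    have h1 : ‖psi w0 q‖ ≤ ‖psi w q‖ := hmin hw
    have h2 := hn w (hsub (Metric.sphere_subset_closedBall hw))
    rw [dist_eq_norm] at h2
    have h3 : ‖psi w q‖ - ‖g w‖ ≤ ‖psi w q - g w‖ := norm_sub_norm_le _ _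
    have h4 : ‖psi w q - g w‖ < ‖psi w0 q‖ / 2 := h2
    rw [norm_inv]
    refine inv_anti₀ (by linarith) (by linarith)
  have hcl : z ∈ closure (Metric.ball z s) := subset_closure (Metric.mem_ball_self hs0)
  have hfin := Complex.norm_le_of_forall_mem_frontier_norm_le Metric.isBounded_ball hdc hbound hcl
  have h5 := hn z hzb
  rw [dist_eq_norm] at h5
  have h6 : ‖psi z q - g z‖ < ‖psi w0 q‖ / 2 := h5
  rw [h, zero_sub, norm_neg] at h6
  have h7 : g z ≠ 0 := hgne z (Metric.mem_closedBall_self hs0.le)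
  have h8 : 0 < ‖g z‖ := norm_pos_iff.mpr h7
  rw [norm_inv] at hfin
  have h9 := (inv_le_inv₀ h8 (by linarith)).mp hfin
  linarith

/-- Every zero `z` of `ψ(·, q)`, `|q| = 1`, `|z| < 1`, gives `P ≥ 1/|z|`.

Proof. Take `a_n = q^{n(n-1)/2}`: modulus one, so the radius is exactly `1` (alternatively use
`q⁻¹`, see below). For `S_n(z) = ∑_{k ≤ n} a_k z^k` and `v = 1/z`:
`S_n(z) / (a_n z^n) = ∑_{j ≤ n} (a_{n-j}/a_n) v^j` and
`a_{n-j}/a_n = q^{-jn + j(j+1)/2} = (q^{1-n})^j q^{j(j-1)/2}`; so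
`S_n(z)/(a_n z^n) = ∑_{j≤n} q^{j(j-1)/2} (q^{1-n} v)^j = ψ_n(q^{1-n} v)`, where `ψ_n` is the
`n`-th partial sum of `ψ(·, q)`. By Hurwitz (or: minimum modulus / Rouche on a small circle around
the isolated zero `z₀`; `ψ(·,q)` is not identically zero as `ψ(0,q) = 1`), for every `ε > 0` and
`n` large `ψ_n` has a zero `v_n` with `|v_n - z₀| < ε`; then `S_n` has the zero
`z = q^{1-n}... / v_n`, of modulus `1/|v_n| ≥ 1/(|z₀|+ε)`. -/
theorem lower_of_zero {q z : ℂ} (hq : ‖q‖ = 1) (hz : ‖z‖ < 1) (h : psi z q = 0) :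
    ENNReal.ofReal (1 / ‖z‖) ≤ powerSeriesConstant := by
  have hq0 : q ≠ 0 := by
    intro h0
    rw [h0, norm_zero] at hq
    exact zero_ne_one hq
  have hz0 : z ≠ 0 := by
    intro h0
    rw [h0, psi_zero] at h
    exact one_ne_zero h
  have hzpos : 0 < ‖z‖ := norm_pos_iff.mpr hz0
  -- it suffices to have the bound with `ε`
  have key : ∀ ε : ℝ, 0 < ε → ENNReal.ofReal (1 / (‖z‖ + ε)) ≤ powerSeriesConstant := by
    intro ε hε
    have hR : RadiusOne (fun k => q ^ (k * (k - 1) / 2)) :=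
      radiusOne_of_norm_one fun n => by rw [norm_pow, hq, one_pow]
    refine le_trans ?_ (le_iSup₂ (f := fun (a : ℕ → ℂ) (_ : RadiusOne a) =>
      liminf (fun n : ℕ => maxZeroModulus a n) atTop) _ hR)
    refine le_liminf_of_le (by isBoundedDefault) ?_
    filter_upwards [exists_zero_near hq hz h hε] with n hn
    obtain ⟨v, hv, hv0⟩ := hn
    have hvne : v ≠ 0 := by
      intro h0
      rw [h0, Finset.sum_range_succ'] at hv0
      simp at hv0
    have hzero := partialSum_reverse hq0 hvne n hv0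
    unfold maxZeroModulus
    refine le_trans ?_ (le_iSup₂ (f := fun (z : ℂ)
      (_ : partialSum (fun k => q ^ (k * (k - 1) / 2)) n z = 0) => (‖z‖₊ : ℝ≥0∞)) _ hzero)
    have hnorm : ‖(q ^ (n - 1) * v)⁻¹‖ = 1 / ‖v‖ := by
      rw [norm_inv, norm_mul, norm_pow, hq, one_pow, one_mul, one_div]
    have hcoe : ((‖(q ^ (n - 1) * v)⁻¹‖₊ : ℝ≥0) : ℝ≥0∞) =
        ENNReal.ofReal ‖(q ^ (n - 1) * v)⁻¹‖ := by
      rw [ofReal_norm, enorm_eq_nnnorm]
    rw [hcoe, hnorm]
    refine ENNReal.ofReal_le_ofReal ?_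
    have hvpos : 0 < ‖v‖ := norm_pos_iff.mpr hvne
    refine one_div_le_one_div_of_le hvpos ?_
    have : ‖v‖ ≤ ‖v - z‖ + ‖z‖ := by
      have := norm_add_le (v - z) z
      simpa using this
    linarith
  -- let `ε → 0`
  have hlim : Tendsto (fun ε : ℝ => ENNReal.ofReal (1 / (‖z‖ + ε))) (𝓝[>] 0)
      (𝓝 (ENNReal.ofReal (1 / ‖z‖))) := by
    refine ENNReal.tendsto_ofReal ?_
    have hc : ContinuousAt (fun ε : ℝ => 1 / (‖z‖ + ε)) 0 := by
      refine ContinuousAt.div continuousAt_const ?_ ?_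
      · exact (continuous_const.add continuous_id).continuousAt
      · simpa using hzpos.ne'
    have := hc.tendsto
    simp only [add_zero] at this
    exact this.mono_left nhdsWithin_le_nhds
  refine le_of_tendsto hlim ?_
  filter_upwards [self_mem_nhdsWithin] with ε hε
  exact key ε hε

end Pool.Agent.H93
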