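import Pool.Agent.Lib.H93.LowerData
import Pool.Agent.Lib.H93.CritNum

/-!
Chunk D2: the kernel check of the finite part and its meaning.
-/

namespace Pool.Agent.H93.Low

open Crit ComplexConjugate

/-- scale `2^s` -/
noncomputable def tc (s : ℕ) (z : ℤ × ℤ) : ℂ := ⟨(z.1 : ℝ) / 2 ^ s, (z.2 : ℝ) / 2 ^ s⟩

/-- `(a, b) + ∑ conj x_k y_k` passed to `k` -/
def dotP : List (ℤ × ℤ) → List (ℤ × ℤ) → ℤ → ℤ → (ℤ → ℤ → Bool) → Bool
  | x :: l, y :: l', a, b, k =>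
    fI (a + (x.1 * y.1 + x.2 * y.2)) fun a => fI (b + (x.1 * y.2 - x.2 * y.1)) fun b =>
      dotP l l' a b k
  | _, _, a, b, k => k a b

/-- `(a, b) - ∑ conj x_k y_k` passed to `k` -/
def dotM : List (ℤ × ℤ) → List (ℤ × ℤ) → ℤ → ℤ → (ℤ → ℤ → Bool) → Bool
  | x :: l, y :: l', a, b, k =>
    fI (a - (x.1 * y.1 + x.2 * y.2)) fun a => fI (b - (x.1 * y.2 - x.2 * y.1)) fun b =>
      dotM l l' a b k
  | _, _, a, b, k => k a b

/-- the remaining matrix at scale `2^120` -/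
def xe (a b : ℕ) : ℤ × ℤ :=
  if a = b then (tD.getD a 0 * 2 ^ 60, 0)
  else if a = 0 then ((tX.getD b (0, 0)).1 * 2 ^ 60, (tX.getD b (0, 0)).2 * 2 ^ 60)
  else if b = 0 then ((tX.getD a (0, 0)).1 * 2 ^ 60, -((tX.getD a (0, 0)).2 * 2 ^ 60))
  else (0, 0)

/-- one entry -/
def chk (a b : ℕ) : Bool :=
  dotP (cP.getD a []) (cP.getD b []) (xe a b).1 (xe a b).2 fun u v =>
    dotM (cN.getD a []) (cN.getD b []) u v fun u v =>
      Nat.ble ((u.natAbs + v.natAbs) * 2 ^ (bx.getD a 0 + bx.getD b 0)) (2 ^ 86)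

set_option maxRecDepth 100000 in
theorem chk_all : ((List.range 36).all fun a => (List.range 36).all fun b =>
    Nat.blt b a || chk a b) = true := by
  decide +kernel

end Pool.Agent.H93.Low
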