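import Pool.Agent.Lib.H93.LowerNear3

/-!
Chunk D2: the finite part of the limiting form.
-/

namespace Pool.Agent.H93

open ComplexConjugate Low

namespace Low

theorem chkW1 : alln 16 (fun a => Nat.ble (1600 ^ a) (961 ^ a * 4 ^ (bx.getD a 0))) = true := by
  decide +kernel

theorem chkW2 : alln 20 (fun a =>
    Nat.ble (102400 * 100 ^ a) (49 ^ a * 4 ^ (bx.getD (16 + a) 0))) = true := by
  decide +kernel

theorem ww_sq_le {a : ℕ} (ha : a < 36) : ww a ^ 2 ≤ wj a := by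
  have h3 : (2 ^ (bx.getD a 0) : ℝ) ^ 2 = 4 ^ (bx.getD a 0) := by
    rw [← pow_mul, mul_comm, pow_mul]
    norm_num
  unfold ww wj
  rw [div_pow, one_pow, h3]
  split_ifs with h
  · have h1 := Nat.le_of_ble_eq_true (alln_spec chkW1 h)
    have h2 : (1600 : ℝ) ^ a ≤ 961 ^ a * 4 ^ (bx.getD a 0) := by exact_mod_cast h1
    have e : (31 / 40 : ℝ) ^ (2 * a) = 961 ^ a / 1600 ^ a := by
      rw [pow_mul, ← div_pow]
      norm_num
    rw [e, div_le_div_iff₀ (by positivity) (by positivity), one_mul]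
    exact h2
  · obtain ⟨m, rfl⟩ : ∃ m, a = 16 + m := ⟨a - 16, by omega⟩
    have h1 := Nat.le_of_ble_eq_true (alln_spec chkW2 (j := m) (by omega))
    have h2 : (102400 : ℝ) * 100 ^ m ≤ 49 ^ m * 4 ^ (bx.getD (16 + m) 0) := by exact_mod_cast h1
    rw [ek_sq _ (by omega), Nat.add_sub_cancel_left, div_pow, div_mul_div_comm, one_mul,
      div_le_div_iff₀ (by positivity) (by positivity), one_mul]
    exact h2

/-- the weighted sum is controlled by the weighted norm -/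
theorem L_sq_le (h : ℕ → ℂ) : (∑ a ∈ Finset.range 36, ww a * ‖h a‖) ^ 2 ≤
    36 * (10 * ‖h 0‖ ^ 2 + ∑ a ∈ Finset.range 35, wj (a + 1) * ‖h (a + 1)‖ ^ 2) := by
  have h1 := sq_sum_le_card_mul_sum_sq (s := Finset.range 36) (f := fun a => ww a * ‖h a‖)
  rw [Finset.card_range, Finset.sum_range_succ' (fun a => (ww a * ‖h a‖) ^ 2)] at h1
  refine h1.trans ?_
  push_cast
  have h2 : ∑ a ∈ Finset.range 35, (ww (a + 1) * ‖h (a + 1)‖) ^ 2 ≤
      ∑ a ∈ Finset.range 35, wj (a + 1) * ‖h (a + 1)‖ ^ 2 := by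
    refine Finset.sum_le_sum fun a ha => ?_
    rw [mul_pow]
    have := ww_sq_le (a := a + 1) (by have := Finset.mem_range.1 ha; omega)
    gcongr
  have h3 : (ww 0 * ‖h 0‖) ^ 2 ≤ 10 * ‖h 0‖ ^ 2 := by
    rw [Crit.ww_zero, one_mul]
    nlinarith [sq_nonneg ‖h 0‖]
  linarith

/-- perturbation of the square of a functional -/
theorem sq_near {n : ℕ} {F G h : ℕ → ℂ} {w : ℕ → ℝ} {δ : ℝ} (hw : ∀ a, 0 ≤ w a) (hδ : 0 ≤ δ)
    (hd : ∀ a < n, ‖F a - G a‖ ≤ δ * w a) (hB : ∀ a < n, ‖G a‖ ≤ w a) :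
    |‖∑ a ∈ Finset.range n, F a * h a‖ ^ 2 - ‖∑ a ∈ Finset.range n, G a * h a‖ ^ 2| ≤
      (2 * δ + δ ^ 2) * (∑ a ∈ Finset.range n, w a * ‖h a‖) ^ 2 := by
  set U := ∑ a ∈ Finset.range n, F a * h a
  set V := ∑ a ∈ Finset.range n, G a * h a
  set L := ∑ a ∈ Finset.range n, w a * ‖h a‖
  have hL : 0 ≤ L := Finset.sum_nonneg fun a _ => mul_nonneg (hw a) (norm_nonneg _)
  have h1 : ‖U - V‖ ≤ δ * L := by
    have e : U - V = ∑ a ∈ Finset.range n, (F a - G a) * h a := by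
      simp only [U, V, ← Finset.sum_sub_distrib, sub_mul]
    rw [e, Finset.mul_sum]
    refine norm_sum_le_of_le _ fun a ha => ?_
    rw [norm_mul, ← mul_assoc]
    exact mul_le_mul_of_nonneg_right (hd a (Finset.mem_range.1 ha)) (norm_nonneg _)
  have h2 : ‖V‖ ≤ L := by
    refine norm_sum_le_of_le _ fun a ha => ?_
    rw [norm_mul]
    exact mul_le_mul_of_nonneg_right (hB a (Finset.mem_range.1 ha)) (norm_nonneg _)
  have h3 : ‖U‖ ≤ ‖V‖ + ‖U - V‖ := by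
    calc ‖U‖ = ‖V + (U - V)‖ := by rw [add_sub_cancel]
      _ ≤ _ := norm_add_le _ _
  have h4 : ‖V‖ ≤ ‖U‖ + ‖U - V‖ := by
    calc ‖V‖ = ‖U - (U - V)‖ := by rw [sub_sub_cancel]
      _ ≤ _ := norm_sub_le _ _
  have h5 := norm_nonneg U
  have h6 := norm_nonneg V
  have h7 := norm_nonneg (U - V)
  have h8 : ‖U - V‖ * ‖V‖ ≤ δ * L * L := by gcongr
  have h9 : ‖U - V‖ ^ 2 ≤ (δ * L) ^ 2 := by gcongr
  have h10 : ‖U‖ ^ 2 ≤ (‖V‖ + ‖U - V‖) ^ 2 := by gcongr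
  rw [abs_le]
  constructor
  · by_cases h11 : ‖U - V‖ ≤ ‖V‖
    · have h12 : (‖V‖ - ‖U - V‖) ^ 2 ≤ ‖U‖ ^ 2 := by
        apply pow_le_pow_left₀ <;> linarith
      nlinarith
    · push Not at h11
      have h13 : ‖V‖ ^ 2 ≤ ‖U - V‖ * ‖V‖ := by nlinarith
      nlinarith [sq_nonneg ‖U‖, sq_nonneg (δ * L), mul_nonneg hδ (sq_nonneg L)]
  · nlinarith

end Low

namespace Crit

variable (K : Crit)

theorem P_near (h : ℕ → ℂ) {k : ℕ} (hk : k < 15) :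
    |‖∑ a ∈ Finset.range 36, K.cfPL a k * h a‖ ^ 2 - ‖∑ a ∈ Finset.range 36, eP a k * h a‖ ^ 2| ≤
      (2 * (1 / 10 ^ 8) + (1 / 10 ^ 8) ^ 2) * (∑ a ∈ Finset.range 36, ww a * ‖h a‖) ^ 2 :=
  sq_near (F := fun a => K.cfPL a k) (G := fun a => eP a k) ww_nonneg (by norm_num)
    (fun _ ha => K.cfPL_near ha hk) (fun _ ha => norm_eP_le ha hk)

theorem N_near (h : ℕ → ℂ) {k : ℕ} (hk : k < 15) :
    |‖∑ a ∈ Finset.range 36, K.cfNL a k * h a‖ ^ 2 - ‖∑ a ∈ Finset.range 36, eN a k * h a‖ ^ 2| ≤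
      (2 * (1 / 10 ^ 8) + (1 / 10 ^ 8) ^ 2) * (∑ a ∈ Finset.range 36, ww a * ‖h a‖) ^ 2 :=
  sq_near (F := fun a => K.cfNL a k) (G := fun a => eN a k) ww_nonneg (by norm_num)
    (fun _ ha => K.cfNL_near ha hk) (fun _ ha => norm_eN_le ha hk)

/-- the finite part of the limiting form in the coordinates `η = h 0`, `z_j = h j` -/
noncomputable def finL (h : ℕ → ℂ) : ℝ :=
  ∑ k ∈ Finset.range 15, ‖∑ a ∈ Finset.range 36, K.cfPL a k * h a‖ ^ 2
    - ∑ k ∈ Finset.range 15, ‖∑ a ∈ Finset.range 36, K.cfNL a k * h a‖ ^ 2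
    + K.rD0L * ‖h 0‖ ^ 2 + ∑ a ∈ Finset.range 35, rDL (a + 1) * ‖h (a + 1)‖ ^ 2
    + 2 * (conj (h 0) * ∑ b ∈ Finset.range 35, K.rXL (b + 1) * h (b + 1)).re

theorem fin_lower (h : ℕ → ℂ) :
    377 / 100000 * (10 * ‖h 0‖ ^ 2 + ∑ a ∈ Finset.range 35, wj (a + 1) * ‖h (a + 1)‖ ^ 2) ≤
      K.finL h := by
  have h0 := fin_hat h
  have hL := L_sq_le h
  set L := ∑ a ∈ Finset.range 36, ww a * ‖h a‖ with hLdef
  set G := 10 * ‖h 0‖ ^ 2 + ∑ a ∈ Finset.range 35, wj (a + 1) * ‖h (a + 1)‖ ^ 2 with hG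
  have h1 : |∑ k ∈ Finset.range 15, ‖∑ a ∈ Finset.range 36, K.cfPL a k * h a‖ ^ 2 -
      ∑ k ∈ Finset.range 15, ‖∑ a ∈ Finset.range 36, eP a k * h a‖ ^ 2| ≤
      15 * ((2 * (1 / 10 ^ 8) + (1 / 10 ^ 8) ^ 2) * L ^ 2) := by
    rw [← Finset.sum_sub_distrib]
    refine (Finset.abs_sum_le_sum_abs _ _).trans ?_
    refine (Finset.sum_le_card_nsmul _ _ _ fun k hk => K.P_near h (Finset.mem_range.1 hk)).trans ?_
    refine le_of_eq ?_
    rw [Finset.card_range, nsmul_eq_mul, hLdef]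
    norm_num
  have h2 : |∑ k ∈ Finset.range 15, ‖∑ a ∈ Finset.range 36, K.cfNL a k * h a‖ ^ 2 -
      ∑ k ∈ Finset.range 15, ‖∑ a ∈ Finset.range 36, eN a k * h a‖ ^ 2| ≤
      15 * ((2 * (1 / 10 ^ 8) + (1 / 10 ^ 8) ^ 2) * L ^ 2) := by
    rw [← Finset.sum_sub_distrib]
    refine (Finset.abs_sum_le_sum_abs _ _).trans ?_
    refine (Finset.sum_le_card_nsmul _ _ _ fun k hk => K.N_near h (Finset.mem_range.1 hk)).trans ?_
    refine le_of_eq ?_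
    rw [Finset.card_range, nsmul_eq_mul, hLdef]
    norm_num
  -- first row
  have h3 : |2 * (conj (h 0) * ∑ b ∈ Finset.range 35, K.rXL (b + 1) * h (b + 1)).re -
      2 * (conj (h 0) * ∑ b ∈ Finset.range 35, eX (b + 1) * h (b + 1)).re| ≤
      1 / (5 * 10 ^ 6) * L ^ 2 := by
    rw [← mul_sub, ← Complex.sub_re, ← mul_sub, ← Finset.sum_sub_distrib, abs_mul,
      abs_of_nonneg (show (0 : ℝ) ≤ 2 by norm_num)]
    have h4 : ‖∑ b ∈ Finset.range 35, (K.rXL (b + 1) * h (b + 1) - eX (b + 1) * h (b + 1))‖ ≤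
        1 / (5 * 10 ^ 6) * ∑ b ∈ Finset.range 35, ww (b + 1) * ‖h (b + 1)‖ := by
      rw [Finset.mul_sum]
      refine norm_sum_le_of_le _ fun b hb => ?_
      have hb' := Finset.mem_range.1 hb
      rw [← sub_mul, norm_mul, ← mul_assoc]
      exact mul_le_mul_of_nonneg_right (K.rXL_near (by omega) (by omega)) (norm_nonneg _)
    have h5 : L = ∑ b ∈ Finset.range 35, ww (b + 1) * ‖h (b + 1)‖ + ‖h 0‖ := by
      rw [hLdef, Finset.sum_range_succ', ww_zero, one_mul]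
    set M := ∑ b ∈ Finset.range 35, ww (b + 1) * ‖h (b + 1)‖ with hM
    have hM0 : 0 ≤ M := Finset.sum_nonneg fun a _ => mul_nonneg (ww_nonneg _) (norm_nonneg _)
    refine (mul_le_mul_of_nonneg_left (Complex.abs_re_le_norm _) (by norm_num)).trans ?_
    rw [norm_mul, RCLike.norm_conj, h5]
    calc 2 * (‖h 0‖ * ‖∑ b ∈ Finset.range 35, (K.rXL (b + 1) * h (b + 1) -
          eX (b + 1) * h (b + 1))‖) ≤ 2 * (‖h 0‖ * (1 / (5 * 10 ^ 6) * M)) := by gcongr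
      _ ≤ _ := by nlinarith [sq_nonneg M, sq_nonneg ‖h 0‖, norm_nonneg (h 0)]
  -- diagonal
  have h6 : ∑ a ∈ Finset.range 36, eD a * ‖h a‖ ^ 2 + 19 / 5000 * G ≤
      K.rD0L * ‖h 0‖ ^ 2 + ∑ a ∈ Finset.range 35, rDL (a + 1) * ‖h (a + 1)‖ ^ 2 := by
    rw [Finset.sum_range_succ', hG, mul_add, Finset.mul_sum]
    have h7 : ∑ a ∈ Finset.range 35, eD (a + 1) * ‖h (a + 1)‖ ^ 2 +
        ∑ a ∈ Finset.range 35, 19 / 5000 * (wj (a + 1) * ‖h (a + 1)‖ ^ 2) ≤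
        ∑ a ∈ Finset.range 35, rDL (a + 1) * ‖h (a + 1)‖ ^ 2 := by
      rw [← Finset.sum_add_distrib]
      refine Finset.sum_le_sum fun a ha => ?_
      have ha' := Finset.mem_range.1 ha
      have h8 := eD_le (a := a + 1) (by omega) (by omega)
      have h9 := mul_le_mul_of_nonneg_right h8 (sq_nonneg ‖h (a + 1)‖)
      linarith
    have h8 := mul_le_mul_of_nonneg_right K.eD_zero_le (sq_nonneg ‖h 0‖)
    linarith
  unfold finL
  have h1' := (abs_le.1 h1).1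
  have h2' := (abs_le.1 h2).2
  have h3' := (abs_le.1 h3).1
  have hL0 := sq_nonneg L
  norm_num at h0 h1' h2' h3' h6 ⊢
  linarith

end Crit

end Pool.Agent.H93
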