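import Pool.Agent.Lib.H93.LowerCheck

/-!
Chunk D2: meaning of the kernel check of the finite part.
-/

namespace Pool.Agent.H93.Low

open Crit ComplexConjugate

/-- plain version of the sum -/
def ds : List (ℤ × ℤ) → List (ℤ × ℤ) → ℤ × ℤ
  | x :: l, y :: l' =>
    ((x.1 * y.1 + x.2 * y.2) + (ds l l').1, (x.1 * y.2 - x.2 * y.1) + (ds l l').2)
  | _, _ => (0, 0)

theorem dotP_eq (l : List (ℤ × ℤ)) : ∀ (l' : List (ℤ × ℤ)) (a b : ℤ) (k : ℤ → ℤ → Bool),
    dotP l l' a b k = k (a + (ds l l').1) (b + (ds l l').2) := by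
  induction l with
  | nil => intro l' a b k; simp [dotP, ds]
  | cons x l ih =>
    intro l' a b k
    cases l' with
    | nil => simp [dotP, ds]
    | cons y l' =>
      rw [dotP, fI_eq, fI_eq, ih, ds]
      simp only [add_assoc]

theorem dotM_eq (l : List (ℤ × ℤ)) : ∀ (l' : List (ℤ × ℤ)) (a b : ℤ) (k : ℤ → ℤ → Bool),
    dotM l l' a b k = k (a - (ds l l').1) (b - (ds l l').2) := by
  induction l with
  | nil => intro l' a b k; simp [dotM, ds]
  | cons x l ih =>
    intro l' a b k
    cases l' with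
    | nil => simp [dotM, ds]
    | cons y l' =>
      rw [dotM, fI_eq, fI_eq, ih, ds]
      simp only [sub_sub]

theorem tc_zero (s : ℕ) : tc s (0, 0) = 0 := by
  apply Complex.ext <;> simp [tc]

theorem tc_ds (l : List (ℤ × ℤ)) : ∀ (l' : List (ℤ × ℤ)) (K : ℕ), l.length ≤ K →
    tc 120 (ds l l') = ∑ k ∈ Finset.range K,
      conj (tc 60 (l.getD k (0, 0))) * tc 60 (l'.getD k (0, 0)) := by
  induction l with
  | nil =>
    intro l' K _
    simp [ds, tc_zero]
  | cons x l ih =>
    intro l' K hK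
    obtain ⟨K, rfl⟩ : ∃ K', K = K' + 1 := ⟨K - 1, by simp at hK; omega⟩
    cases l' with
    | nil => simp [ds, tc_zero]
    | cons y l' =>
      rw [Finset.sum_range_succ']
      simp only [List.getD_cons_succ, List.getD_cons_zero]
      rw [← ih l' K (by simpa using hK), ds]
      apply Complex.ext
      · simp only [tc, Complex.add_re, Complex.mul_re, Complex.conj_re, Complex.conj_im]
        push_cast
        ring
      · simp only [tc, Complex.add_im, Complex.mul_im, Complex.conj_re, Complex.conj_im]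
        push_cast
        ring

/-- entries of the positive columns -/
noncomputable def eP (a k : ℕ) : ℂ := tc 60 ((cP.getD a []).getD k (0, 0))

/-- entries of the negative columns -/
noncomputable def eN (a k : ℕ) : ℂ := tc 60 ((cN.getD a []).getD k (0, 0))

/-- first row -/
noncomputable def eX (b : ℕ) : ℂ := tc 60 (tX.getD b (0, 0))

/-- diagonal -/
noncomputable def eD (a : ℕ) : ℝ := ((tD.getD a 0 : ℤ) : ℝ) / 2 ^ 60

/-- weights -/
noncomputable def ww (a : ℕ) : ℝ := 1 / 2 ^ (bx.getD a 0)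

/-- the remaining matrix -/
noncomputable def yy (D : ℕ → ℝ) (V : ℕ → ℂ) (a b : ℕ) : ℂ :=
  if a = b then (D a : ℂ) else if a = 0 then V b else if b = 0 then conj (V a) else 0

theorem tc_xe (a b : ℕ) : tc 120 (xe a b) = yy eD eX a b := by
  unfold xe yy
  split_ifs with h1 h2 h3
  · apply Complex.ext
    · simp only [tc, eD, Complex.ofReal_re]
      push_cast
      field_simp
      try norm_num
    · simp [tc]
  · apply Complex.ext
    · simp only [tc, eX]
      push_cast
      field_simp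
      try norm_num
    · simp only [tc, eX]
      push_cast
      field_simp
      try norm_num
  · apply Complex.ext
    · simp only [tc, eX, Complex.conj_re]
      push_cast
      field_simp
      try norm_num
    · simp only [tc, eX, Complex.conj_im]
      push_cast
      field_simp
      try norm_num
  · exact tc_zero _

theorem len_cP : ((List.range 36).all fun a => Nat.ble (cP.getD a []).length 15) = true := by
  decide +kernel

theorem len_cN : ((List.range 36).all fun a => Nat.ble (cN.getD a []).length 51) = true := by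
  decide +kernel

/-- the error matrix -/
noncomputable def err (a b : ℕ) : ℂ :=
  yy eD eX a b + ∑ k ∈ Finset.range 15, conj (eP a k) * eP b k
    - ∑ k ∈ Finset.range 51, conj (eN a k) * eN b k

theorem tc_add (s : ℕ) (x y : ℤ × ℤ) : tc s (x.1 + y.1, x.2 + y.2) = tc s x + tc s y := by
  apply Complex.ext <;> simp [tc, add_div]

theorem tc_sub (s : ℕ) (x y : ℤ × ℤ) : tc s (x.1 - y.1, x.2 - y.2) = tc s x - tc s y := by
  apply Complex.ext <;> simp [tc, sub_div]

theorem norm_tc_le (s : ℕ) (x : ℤ × ℤ) : ‖tc s x‖ ≤ ((x.1.natAbs + x.2.natAbs : ℕ) : ℝ) / 2 ^ s := by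
  refine (Complex.norm_le_abs_re_add_abs_im _).trans (le_of_eq ?_)
  simp only [tc]
  rw [abs_div, abs_div, abs_of_pos (show (0 : ℝ) < 2 ^ s by positivity), ← add_div]
  congr 1
  push_cast [Nat.cast_natAbs]
  rfl

theorem err_le_aux {a b : ℕ} (ha : a < 36) (hb : b < 36) (hab : a ≤ b) :
    ‖err a b‖ ≤ 1 / 2 ^ 34 * (ww a * ww b) := by
  have h := chk_all
  rw [List.all_eq_true] at h
  have h1 := h a (List.mem_range.2 ha)
  rw [List.all_eq_true] at h1
  have h2 := h1 b (List.mem_range.2 hb)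
  have hlt : Nat.blt b a = false := by
    rw [Bool.eq_false_iff]
    intro h
    rw [Nat.blt_eq] at h
    omega
  rw [hlt, Bool.false_or] at h2
  unfold chk at h2
  rw [dotP_eq, dotM_eq] at h2
  have h3 := Nat.le_of_ble_eq_true h2
  have hP : (cP.getD a []).length ≤ 15 := by
    have := len_cP
    rw [List.all_eq_true] at this
    exact Nat.le_of_ble_eq_true (this a (List.mem_range.2 ha))
  have hN : (cN.getD a []).length ≤ 51 := by
    have := len_cN
    rw [List.all_eq_true] at this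
    exact Nat.le_of_ble_eq_true (this a (List.mem_range.2 ha))
  have e : err a b = tc 120 ((xe a b).1 + (ds (cP.getD a []) (cP.getD b [])).1 -
      (ds (cN.getD a []) (cN.getD b [])).1, (xe a b).2 + (ds (cP.getD a []) (cP.getD b [])).2 -
      (ds (cN.getD a []) (cN.getD b [])).2) := by
    rw [tc_sub 120 ((xe a b).1 + (ds (cP.getD a []) (cP.getD b [])).1,
      (xe a b).2 + (ds (cP.getD a []) (cP.getD b [])).2), tc_add, tc_xe, tc_ds _ _ 15 hP,
      tc_ds _ _ 51 hN]
    rfl
  rw [e]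
  refine (norm_tc_le _ _).trans ?_
  have h4 : ((((xe a b).1 + (ds (cP.getD a []) (cP.getD b [])).1 -
      (ds (cN.getD a []) (cN.getD b [])).1).natAbs + ((xe a b).2 +
      (ds (cP.getD a []) (cP.getD b [])).2 -
      (ds (cN.getD a []) (cN.getD b [])).2).natAbs : ℕ) : ℝ) *
      2 ^ (bx.getD a 0 + bx.getD b 0) ≤ 2 ^ 86 := by
    exact_mod_cast h3
  unfold ww
  rw [div_le_iff₀ (by positivity)]
  have h5 : (0 : ℝ) < 2 ^ (bx.getD a 0 + bx.getD b 0) := by positivity
  rw [← le_div_iff₀ h5] at h4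
  refine h4.trans (le_of_eq ?_)
  rw [pow_add]
  field_simp

theorem yy_conj (D : ℕ → ℝ) (V : ℕ → ℂ) (a b : ℕ) : conj (yy D V a b) = yy D V b a := by
  unfold yy
  by_cases h1 : a = b
  · subst h1; simp
  · have h1' : ¬ b = a := fun h => h1 h.symm
    simp only [h1, h1', if_false]
    by_cases h2 : a = 0
    · have h3 : ¬ b = 0 := fun h => h1 (h2.trans h.symm)
      simp [h2, h3]
    · by_cases h3 : b = 0
      · simp [h2, h3]
      · simp [h2, h3]

theorem err_conj (a b : ℕ) : conj (err a b) = err b a := by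
  unfold err
  rw [map_sub, map_add, yy_conj, map_sum, map_sum]
  have e : ∀ (c : ℕ → ℕ → ℂ) (K : ℕ), ∑ k ∈ Finset.range K, conj (conj (c a k) * c b k) =
      ∑ k ∈ Finset.range K, conj (c b k) * c a k := by
    intro c K
    refine Finset.sum_congr rfl fun k _ => ?_
    rw [map_mul, Complex.conj_conj, mul_comm]
  rw [e, e]

theorem err_le {a b : ℕ} (ha : a < 36) (hb : b < 36) :
    ‖err a b‖ ≤ 1 / 2 ^ 34 * (ww a * ww b) := by
  rcases le_total a b with h | h
  · exact err_le_aux ha hb h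
  · rw [← err_conj, RCLike.norm_conj, mul_comm (ww a)]
    exact err_le_aux hb ha h

/-- squares of functionals -/
theorem quad_eq (n K : ℕ) (c : ℕ → ℕ → ℂ) (h : ℕ → ℂ) :
    ((∑ k ∈ Finset.range K, ‖∑ a ∈ Finset.range n, c a k * h a‖ ^ 2 : ℝ) : ℂ) =
      ∑ a ∈ Finset.range n, ∑ b ∈ Finset.range n,
        conj (h a) * h b * ∑ k ∈ Finset.range K, conj (c a k) * c b k := by
  have h1 : ∀ k, ((‖∑ a ∈ Finset.range n, c a k * h a‖ ^ 2 : ℝ) : ℂ) =
      ∑ a ∈ Finset.range n, ∑ b ∈ Finset.range n, conj (h a) * h b * (conj (c a k) * c b k) := by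
    intro k
    have : ((‖∑ a ∈ Finset.range n, c a k * h a‖ ^ 2 : ℝ) : ℂ) =
        conj (∑ a ∈ Finset.range n, c a k * h a) * ∑ a ∈ Finset.range n, c a k * h a := by
      rw [mul_comm, Complex.mul_conj, Complex.normSq_eq_norm_sq]
    rw [this, map_sum, Finset.sum_mul_sum]
    refine Finset.sum_congr rfl fun a _ => Finset.sum_congr rfl fun b _ => ?_
    rw [map_mul]
    ring
  push_cast
  have h2 : ∀ k, ((‖∑ a ∈ Finset.range n, c a k * h a‖ : ℂ)) ^ 2 =
      ∑ a ∈ Finset.range n, ∑ b ∈ Finset.range n, conj (h a) * h b * (conj (c a k) * c b k) := by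
    intro k
    rw [← h1 k]
    push_cast
    rfl
  simp only [h2]
  rw [Finset.sum_comm]
  refine Finset.sum_congr rfl fun a _ => ?_
  rw [Finset.sum_comm]
  refine Finset.sum_congr rfl fun b _ => ?_
  rw [Finset.mul_sum]

theorem yy_form (n : ℕ) (D : ℕ → ℝ) (V h : ℕ → ℂ) :
    (∑ a ∈ Finset.range (n + 1), ∑ b ∈ Finset.range (n + 1), conj (h a) * h b * yy D V a b).re =
      ∑ a ∈ Finset.range (n + 1), D a * ‖h a‖ ^ 2 +
        2 * (conj (h 0) * ∑ b ∈ Finset.range n, V (b + 1) * h (b + 1)).re := by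
  have hd : ∀ a, conj (h a) * h a = ((‖h a‖ ^ 2 : ℝ) : ℂ) := by
    intro a
    rw [mul_comm, Complex.mul_conj, Complex.normSq_eq_norm_sq]
  rw [Finset.sum_range_succ']
  have h0 : ∑ b ∈ Finset.range (n + 1), conj (h 0) * h b * yy D V 0 b =
      (∑ b ∈ Finset.range n, conj (h 0) * (V (b + 1) * h (b + 1))) +
        ((D 0 * ‖h 0‖ ^ 2 : ℝ) : ℂ) := by
    rw [Finset.sum_range_succ']
    congr 1
    · refine Finset.sum_congr rfl fun b _ => ?_
      have : yy D V 0 (b + 1) = V (b + 1) := by simp [yy]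
      rw [this]
      ring
    · rw [hd]
      simp only [yy, if_true]
      push_cast
      ring
  have h1 : ∀ a ∈ Finset.range n,
      ∑ b ∈ Finset.range (n + 1), conj (h (a + 1)) * h b * yy D V (a + 1) b =
      ((D (a + 1) * ‖h (a + 1)‖ ^ 2 : ℝ) : ℂ) + conj (conj (h 0) * (V (a + 1) * h (a + 1))) := by
    intro a ha
    rw [Finset.sum_range_succ']
    have e0 : yy D V (a + 1) 0 = conj (V (a + 1)) := by simp [yy]
    have e1 : ∀ b, yy D V (a + 1) (b + 1) = if a = b then (D (a + 1) : ℂ) else 0 := by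
      intro b
      simp [yy]
    rw [e0]
    congr 1
    · simp only [e1, mul_ite, mul_zero, Finset.sum_ite_eq, ha, if_true]
      rw [hd]
      push_cast
      ring
    · simp only [map_mul, Complex.conj_conj]
      ring
  rw [Finset.sum_congr rfl h1, h0, Finset.sum_add_distrib, ← map_sum, Finset.mul_sum,
    Finset.sum_range_succ' (fun a => D a * ‖h a‖ ^ 2)]
  simp only [Complex.add_re, Complex.conj_re, Complex.re_sum, Complex.ofReal_re]
  ring

/-- the kernel check: finite form of the tables -/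
theorem fin_hat (h : ℕ → ℂ) :
    -(1 / 2 ^ 34 * (∑ a ∈ Finset.range 36, ww a * ‖h a‖) ^ 2) ≤
    ∑ k ∈ Finset.range 15, ‖∑ a ∈ Finset.range 36, eP a k * h a‖ ^ 2
      - ∑ k ∈ Finset.range 15, ‖∑ a ∈ Finset.range 36, eN a k * h a‖ ^ 2
      + ∑ a ∈ Finset.range 36, eD a * ‖h a‖ ^ 2
      + 2 * (conj (h 0) * ∑ b ∈ Finset.range 35, eX (b + 1) * h (b + 1)).re := by
  have h1 := quad_eq 36 15 eP h
  have h2 := quad_eq 36 51 eN h
  have h3 := yy_form 35 eD eX h
  have h4 : ∑ k ∈ Finset.range 15, ‖∑ a ∈ Finset.range 36, eN a k * h a‖ ^ 2 ≤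
      ∑ k ∈ Finset.range 51, ‖∑ a ∈ Finset.range 36, eN a k * h a‖ ^ 2 :=
    Finset.sum_le_sum_of_subset_of_nonneg (Finset.range_mono (by norm_num))
      fun _ _ _ => sq_nonneg _
  have h5 : (∑ a ∈ Finset.range 36, ∑ b ∈ Finset.range 36, conj (h a) * h b * err a b).re =
      ∑ k ∈ Finset.range 15, ‖∑ a ∈ Finset.range 36, eP a k * h a‖ ^ 2
      - ∑ k ∈ Finset.range 51, ‖∑ a ∈ Finset.range 36, eN a k * h a‖ ^ 2
      + ∑ a ∈ Finset.range 36, eD a * ‖h a‖ ^ 2
      + 2 * (conj (h 0) * ∑ b ∈ Finset.range 35, eX (b + 1) * h (b + 1)).re := by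
    have e : (∑ a ∈ Finset.range 36, ∑ b ∈ Finset.range 36, conj (h a) * h b * err a b) =
        (∑ a ∈ Finset.range 36, ∑ b ∈ Finset.range 36, conj (h a) * h b * yy eD eX a b) +
        ((∑ k ∈ Finset.range 15, ‖∑ a ∈ Finset.range 36, eP a k * h a‖ ^ 2 : ℝ) : ℂ) -
        ((∑ k ∈ Finset.range 51, ‖∑ a ∈ Finset.range 36, eN a k * h a‖ ^ 2 : ℝ) : ℂ) := by
      rw [h1, h2, ← Finset.sum_add_distrib, ← Finset.sum_sub_distrib]
      refine Finset.sum_congr rfl fun a _ => ?_
      rw [← Finset.sum_add_distrib, ← Finset.sum_sub_distrib]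
      refine Finset.sum_congr rfl fun b _ => ?_
      unfold err
      ring
    rw [e, Complex.sub_re, Complex.add_re, Complex.ofReal_re, Complex.ofReal_re, h3]
    ring
  have h6 : |(∑ a ∈ Finset.range 36, ∑ b ∈ Finset.range 36, conj (h a) * h b * err a b).re| ≤
      1 / 2 ^ 34 * (∑ a ∈ Finset.range 36, ww a * ‖h a‖) ^ 2 := by
    refine (Complex.abs_re_le_norm _).trans ((norm_sum_le _ _).trans ?_)
    rw [sq, Finset.sum_mul_sum, Finset.mul_sum]
    refine Finset.sum_le_sum fun a ha => ?_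
    refine (norm_sum_le _ _).trans ?_
    rw [Finset.mul_sum]
    refine Finset.sum_le_sum fun b hb => ?_
    rw [norm_mul, norm_mul, RCLike.norm_conj]
    have := err_le (Finset.mem_range.1 ha) (Finset.mem_range.1 hb)
    calc ‖h a‖ * ‖h b‖ * ‖err a b‖ ≤ ‖h a‖ * ‖h b‖ * (1 / 2 ^ 34 * (ww a * ww b)) := by gcongr
      _ = _ := by ring
  have h7 := (abs_le.1 h6).1
  rw [h5] at h7
  linarith

end Pool.Agent.H93.Low
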