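import Pool.Agent.Lib.H93.LowerForm
import Pool.Agent.Lib.H93.Tables
import Pool.Agent.Lib.H93.LocalDefs

/-!
Chunk D2: the tables approximate the exact functionals.
-/

namespace Pool.Agent.H93.Low

open Crit ComplexConjugate

/-! ### Gaussian integers -/

/-- product -/
def cmul (x y : ℤ × ℤ) : ℤ × ℤ := (x.1 * y.1 - x.2 * y.2, x.1 * y.2 + x.2 * y.1)

/-- sum -/
def zadd (x y : ℤ × ℤ) : ℤ × ℤ := (x.1 + y.1, x.2 + y.2)

/-- difference -/
def zsub (x y : ℤ × ℤ) : ℤ × ℤ := (x.1 - y.1, x.2 - y.2)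

/-- multiple -/
def zsm (m : ℤ) (x : ℤ × ℤ) : ℤ × ℤ := (m * x.1, m * x.2)

/-- sum over a range -/
def sumz : ℕ → (ℕ → ℤ × ℤ) → ℤ × ℤ
  | 0, _ => (0, 0)
  | n + 1, f => zadd (sumz n f) (f n)

/-- smallness -/
def lez (e : ℤ × ℤ) (d : ℕ) : Bool := Nat.ble e.1.natAbs d && Nat.ble e.2.natAbs d

theorem tc_cmul (s s' : ℕ) (x y : ℤ × ℤ) : tc (s + s') (cmul x y) = tc s x * tc s' y := by
  apply Complex.ext
  · simp only [tc, cmul, Complex.mul_re]
    push_cast
    rw [pow_add]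
    field_simp
  · simp only [tc, cmul, Complex.mul_im]
    push_cast
    rw [pow_add]
    field_simp

theorem tc_zadd (s : ℕ) (x y : ℤ × ℤ) : tc s (zadd x y) = tc s x + tc s y := tc_add s x y

theorem tc_zsub (s : ℕ) (x y : ℤ × ℤ) : tc s (zsub x y) = tc s x - tc s y := tc_sub s x y

theorem tc_zsm (s : ℕ) (m : ℤ) (x : ℤ × ℤ) : tc s (zsm m x) = (m : ℂ) * tc s x := by
  apply Complex.ext
  · simp only [tc, zsm, Complex.mul_re, Complex.intCast_re, Complex.intCast_im]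
    push_cast
    ring
  · simp only [tc, zsm, Complex.mul_im, Complex.intCast_re, Complex.intCast_im]
    push_cast
    ring

theorem tc_shift (s d : ℕ) (x : ℤ × ℤ) : tc (s + d) (zsm (2 ^ d) x) = tc s x := by
  apply Complex.ext
  · simp only [tc, zsm]
    push_cast
    rw [pow_add]
    field_simp
  · simp only [tc, zsm]
    push_cast
    rw [pow_add]
    field_simp

theorem tc_sumz (s : ℕ) (n : ℕ) (f : ℕ → ℤ × ℤ) :
    tc s (sumz n f) = ∑ i ∈ Finset.range n, tc s (f i) := by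
  induction n with
  | zero => simp [sumz, tc_zero]
  | succ n ih => rw [sumz, tc_zadd, ih, Finset.sum_range_succ]

theorem lez_spec {e : ℤ × ℤ} {d : ℕ} (h : lez e d = true) (s : ℕ) :
    ‖tc s e‖ ≤ 2 * (d : ℝ) / 2 ^ s := by
  unfold lez at h
  rw [Bool.and_eq_true] at h
  have h1 := Nat.le_of_ble_eq_true h.1
  have h2 := Nat.le_of_ble_eq_true h.2
  refine (norm_tc_le s e).trans ?_
  have h3 : ((e.1.natAbs + e.2.natAbs : ℕ) : ℝ) ≤ 2 * (d : ℝ) := by
    have : e.1.natAbs + e.2.natAbs ≤ 2 * d := by omega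
    exact_mod_cast this
  gcongr

/-! ### Integer data -/

/-- data of `LR` -/
def rz (k i : ℕ) : ℤ × ℤ := getZ dataR k i

/-- data of `x*` -/
def xz (i : ℕ) : ℤ × ℤ := tabX.getD i 0

/-- `LR k i x*_{i+1}` at scale `2^100` -/
def bz (k i : ℕ) : ℤ × ℤ := cmul (rz k i) (xz (i + 1))

/-- `t_j` -/
def tz (j : ℕ) : ℤ × ℤ := tt.getD j (0, 0)

/-- `p_j` -/
def pz (j : ℕ) : ℤ × ℤ := tp.getD j (0, 0)

/-- table entries -/
def cPz (a k : ℕ) : ℤ × ℤ := (cP.getD a []).getD k (0, 0)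

/-- table entries -/
def cNz (a k : ℕ) : ℤ × ℤ := (cN.getD a []).getD k (0, 0)

/-- all `j < n` -/
def alln (n : ℕ) (f : ℕ → Bool) : Bool := (List.range n).all f

theorem alln_spec {n : ℕ} {f : ℕ → Bool} (h : alln n f = true) {j : ℕ} (hj : j < n) :
    f j = true := by
  unfold alln at h
  rw [List.all_eq_true] at h
  exact h j (List.mem_range.2 hj)

theorem chkT : alln 37 (fun j => lez (zsub (cmul (tabC.getD j 0) (xz j)) (zsm (2 ^ 60) (tz j)))
    (2 ^ 60)) = true := by decide +kernel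

theorem chkTp : alln 36 (fun j => Nat.ble j 0 ||
    lez (zadd (cmul (pz j) (tz 0)) (zsm (2 ^ 60) (tz j))) (2 ^ 61) && lez (pz j) (2 ^ 59)) = true := by
  decide +kernel

theorem chkR : alln 15 (fun k => alln 15 fun i => lez (rz k i) (2 ^ 39)) = true := by
  decide +kernel

theorem chkP : alln 15 (fun k => alln 15 fun a =>
    lez (zsub (bz k a) (zsm (2 ^ 40) (cPz (a + 1) k))) (2 ^ 40)) = true := by
  decide +kernel

theorem chkP0 : alln 15 (fun k =>
    lez (zsub (zsm 11 (sumz 15 fun i => zsm (((i : ℤ) + 1) * 1000000000000 - 853956886412) (bz k i)))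
      (zsm (20000000000000 * 2 ^ 40) (cPz 0 k))) (20000000000000 * 2 ^ 40)) = true := by
  decide +kernel

theorem chkN : alln 15 (fun k => alln 36 fun a => Nat.ble a 0 ||
    lez (zsub (zadd (if a < 15 then zsm (2 ^ 60) (bz k a) else (0, 0)) (cmul (bz k 0) (pz a)))
      (zsm (2 ^ 100) (cNz a k))) (2 ^ 100)) = true := by
  decide +kernel

theorem chkN0 : alln 15 (fun k => lez (zadd (sumz 15 fun i => bz k i) (zsm (2 ^ 40) (cNz 0 k)))
    (2 ^ 40)) = true := by
  decide +kernel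

/-- bounds of the entries relative to the weights -/
theorem chkB : alln 36 (fun a => alln 15 fun k =>
    Nat.ble (((cPz a k).1 ^ 2 + (cPz a k).2 ^ 2).natAbs * 4 ^ (bx.getD a 0)) (2 ^ 120) &&
    Nat.ble (((cNz a k).1 ^ 2 + (cNz a k).2 ^ 2).natAbs * 4 ^ (bx.getD a 0)) (2 ^ 120)) = true := by
  decide +kernel

/-- the rows `k ≥ 1` vanish in column `0` -/
theorem chkU : alln 15 (fun k => Nat.ble k 0 || (rz k 0 == (0, 0))) = true := by
  decide +kernel

end Pool.Agent.H93.Low
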