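import Pool.Agent.Lib.H93.LowerNear

/-!
Chunk D2: the exact functionals are close to the tables.
-/

namespace Pool.Agent.H93

open ComplexConjugate Low

namespace Crit

variable (K : Crit)

/-- `t_j = c_j x*_j` -/
noncomputable def tjL (j : ℕ) : ℂ := K.cc j * K.xs j

/-- `p_j = - t_j / t_0` -/
noncomputable def pjL (j : ℕ) : ℂ := -(K.tjL j) / K.tjL 0

/-- `LR k i x*_{i+1}` -/
noncomputable def bmL (k i : ℕ) : ℂ := LR k i * K.xs (i + 1)

/-- coefficients of the positive functionals -/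
noncomputable def cfPL (a k : ℕ) : ℂ :=
  if a = 0 then (11 / 20) * ∑ i ∈ Finset.range 15, K.bmL k i * ((i : ℂ) + 1 - K.k1)
  else if a < 16 then K.bmL k (a - 1) else 0

/-- coefficients of the negative functionals -/
noncomputable def cfNL (a k : ℕ) : ℂ :=
  if a = 0 then -∑ i ∈ Finset.range 15, K.bmL k i
  else (if a < 15 then K.bmL k a else 0) + K.bmL k 0 * K.pjL a

theorem toC60_eq (z : ℤ × ℤ) : toC60 z = tc 60 z := rfl

theorem toC40_eq (z : ℤ × ℤ) : toC40 z = tc 40 z := rfl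

theorem tjL_near {j : ℕ} (hj : j < 37) : ‖K.tjL j - tc 60 (tz j)‖ ≤ 2 / 10 ^ 15 := by
  have h1 := K.tabC_spec' j (by omega)
  have h2 := K.tabX_spec'' j (by omega)
  have h3 := lez_spec (alln_spec chkT hj) 120
  rw [tc_zsub, show 120 = 60 + 60 by norm_num, tc_shift, tc_cmul] at h3
  rw [toC60_eq] at h1 h2
  have h4 : ‖tc 60 (tabC.getD j 0)‖ ≤ 0.72 := by
    have e : tc 60 (tabC.getD j 0) = K.cc j - (K.cc j - tc 60 (tabC.getD j 0)) := by ring
    rw [e]
    refine (norm_sub_le _ _).trans ?_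
    have h5 := K.norm_cc_le j
    have h6 : K.r ^ j ≤ 1 := pow_le_one₀ K.r_pos.le K.r_lt_one.le
    norm_num at h1 h5 ⊢
    nlinarith
  have e : K.tjL j - tc 60 (tz j) = (K.cc j - tc 60 (tabC.getD j 0)) * K.xs j +
      tc 60 (tabC.getD j 0) * (K.xs j - tc 60 (tabX.getD j 0)) +
      (tc 60 (tabC.getD j 0) * tc 60 (xz j) - tc 60 (tz j)) := by
    unfold tjL xz
    ring
  rw [e]
  refine (norm_add₃_le).trans ?_
  rw [norm_mul, norm_mul, K.norm_xs, mul_one]
  have h7 : ‖tc 60 (tabC.getD j 0)‖ * ‖K.xs j - tc 60 (tabX.getD j 0)‖ ≤ 0.72 * (21 / 10 ^ 16) := by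
    gcongr
  refine (add_le_add (add_le_add h1 h7) h3).trans ?_
  norm_num

theorem norm_tjL_zero : 1 / 1.81 ≤ ‖K.tjL 0‖ := by
  rw [tjL, norm_mul, K.norm_xs, mul_one, K.cc_zero, norm_div, norm_neg, K.hω]
  have := K.norm_g_le
  have h0 : 0 < ‖K.g‖ := lt_of_lt_of_le (by norm_num) K.g_norm_ge
  exact one_div_le_one_div_of_le h0 this

theorem tjL_zero_ne : K.tjL 0 ≠ 0 := by
  intro h
  have := K.norm_tjL_zero
  rw [h, norm_zero] at this
  norm_num at this

theorem norm_pz_le {j : ℕ} (hj : j < 36) (hj1 : 1 ≤ j) : ‖tc 60 (pz j)‖ ≤ 1 := by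
  have h := alln_spec chkTp hj
  rw [Bool.or_eq_true] at h
  rcases h with h | h
  · have := Nat.le_of_ble_eq_true h
    omega
  · rw [Bool.and_eq_true] at h
    refine (lez_spec h.2 60).trans ?_
    norm_num

theorem pjL_near {j : ℕ} (hj : j < 36) (hj1 : 1 ≤ j) : ‖K.pjL j - tc 60 (pz j)‖ ≤ 8 / 10 ^ 15 := by
  have h := alln_spec chkTp hj
  rw [Bool.or_eq_true] at h
  have h3 : ‖tc 60 (pz j) * tc 60 (tz 0) + tc 60 (tz j)‖ ≤ 2 * (2 ^ 61 : ℕ) / 2 ^ 120 := by
    rcases h with h | h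
    · have := Nat.le_of_ble_eq_true h
      omega
    · rw [Bool.and_eq_true] at h
      have := lez_spec h.1 120
      rwa [tc_zadd, show 120 = 60 + 60 by norm_num, tc_shift, tc_cmul] at this
  have h4 := norm_pz_le hj hj1
  have h5 := K.tjL_near (j := j) (by omega)
  have h6 := K.tjL_near (j := 0) (by omega)
  have h7 := K.norm_tjL_zero
  have h8 := K.tjL_zero_ne
  have e : (K.pjL j - tc 60 (pz j)) * K.tjL 0 = -(K.tjL j - tc 60 (tz j)) -
      tc 60 (pz j) * (K.tjL 0 - tc 60 (tz 0)) -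
      (tc 60 (pz j) * tc 60 (tz 0) + tc 60 (tz j)) := by
    unfold pjL
    field_simp
    ring
  have h9 : ‖(K.pjL j - tc 60 (pz j)) * K.tjL 0‖ ≤ 41 / 10 ^ 16 := by
    rw [e]
    refine (norm_sub_le _ _).trans ((add_le_add (norm_sub_le _ _) h3).trans ?_)
    rw [norm_neg, norm_mul]
    have : ‖tc 60 (pz j)‖ * ‖K.tjL 0 - tc 60 (tz 0)‖ ≤ 1 * (2 / 10 ^ 15) := by gcongr
    refine (add_le_add (add_le_add h5 this) le_rfl).trans ?_
    norm_num
  rw [norm_mul] at h9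
  have h10 : ‖K.pjL j - tc 60 (pz j)‖ * (1 / 1.81) ≤ 41 / 10 ^ 16 := le_trans (by gcongr) h9
  norm_num at h10 ⊢
  linarith

theorem norm_LR_leL {k i : ℕ} (hk : k < 15) (hi : i < 15) : ‖LR k i‖ ≤ 1 := by
  have h := lez_spec (alln_spec (alln_spec chkR hk) hi) 40
  unfold LR
  rw [toC40_eq]
  refine h.trans ?_
  norm_num

theorem bmL_near {k i : ℕ} (hk : k < 15) (hi : i < 15) :
    ‖K.bmL k i - tc 100 (bz k i)‖ ≤ 21 / 10 ^ 16 := by
  have h2 := K.tabX_spec'' (i + 1) (by omega)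
  have h1 := norm_LR_leL hk hi
  have e : K.bmL k i - tc 100 (bz k i) = LR k i * (K.xs (i + 1) - toC60 (tabX.getD (i + 1) 0)) := by
    unfold bmL bz
    rw [show 100 = 40 + 60 by norm_num, tc_cmul, toC60_eq]
    have : LR k i = tc 40 (rz k i) := rfl
    rw [this]
    unfold xz
    ring
  rw [e, norm_mul]
  calc _ ≤ 1 * (21 / 10 ^ 16 : ℝ) := by gcongr
    _ = _ := one_mul _

theorem norm_bmL_le {k i : ℕ} (hk : k < 15) (hi : i < 15) : ‖K.bmL k i‖ ≤ 1 := by
  unfold bmL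
  rw [norm_mul, K.norm_xs, mul_one]
  exact norm_LR_leL hk hi

theorem cfPL_near_pos {a k : ℕ} (ha : a < 15) (hk : k < 15) :
    ‖K.bmL k a - eP (a + 1) k‖ ≤ 3 / 10 ^ 15 := by
  have h1 := lez_spec (alln_spec (alln_spec chkP hk) ha) 100
  rw [tc_zsub, show 100 = 60 + 40 by norm_num, tc_shift, show 60 + 40 = 100 by norm_num] at h1
  have h2 := K.bmL_near hk ha
  have e : K.bmL k a - eP (a + 1) k = (K.bmL k a - tc 100 (bz k a)) +
      (tc 100 (bz k a) - tc 60 (cPz (a + 1) k)) := by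
    unfold eP cPz
    ring
  rw [e]
  refine (norm_add_le _ _).trans ((add_le_add h2 h1).trans ?_)
  norm_num

theorem eP_ge {a k : ℕ} (ha : 16 ≤ a) : eP a k = 0 := by
  unfold eP
  have h : cP.getD a [] = [] := by
    rw [List.getD_eq_getElem?_getD, List.getElem?_eq_none (by
      have : cP.length = 16 := by decide +kernel
      omega)]
    rfl
  rw [h]
  exact tc_zero 60

theorem k1_near : |K.k1 - 853956886412 / 1000000000000| ≤ 1 / 10 ^ 10 := by
  have h := K.k1_spec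
  unfold k1
  norm_num at h ⊢
  exact h

theorem k1_pos : 0 ≤ K.k1 := by
  have h := abs_le.1 K.k1_near
  norm_num at h
  linarith [h.1]

theorem k1_le : K.k1 ≤ 1 := by
  have h := abs_le.1 K.k1_near
  norm_num at h
  linarith [h.2]

theorem cfPL_near_zero {k : ℕ} (hk : k < 15) : ‖K.cfPL 0 k - eP 0 k‖ ≤ 2 / 10 ^ 9 := by
  have h1 := lez_spec (alln_spec chkP0 hk) 100
  have e0 : tc 100 (zsub (zsm 11 (sumz 15 fun i => zsm (((i : ℤ) + 1) * 1000000000000 -
      853956886412) (bz k i))) (zsm (20000000000000 * 2 ^ 40) (cPz 0 k))) =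
      20000000000000 * ((11 / 20) * ∑ i ∈ Finset.range 15, tc 100 (bz k i) * ((i : ℂ) + 1 -
        853956886412 / 1000000000000) - eP 0 k) := by
    rw [tc_zsub, tc_zsm, tc_sumz]
    have e1 : tc 100 (zsm (20000000000000 * 2 ^ 40) (cPz 0 k)) = 20000000000000 * eP 0 k := by
      have : tc 60 (cPz 0 k) = eP 0 k := rfl
      rw [← this, ← tc_shift 60 40, tc_zsm, tc_zsm]
      push_cast
      ring
    rw [e1, mul_sub, ← mul_assoc, Finset.mul_sum, Finset.mul_sum]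
    congr 1
    refine Finset.sum_congr rfl fun i _ => ?_
    rw [tc_zsm]
    push_cast
    ring
  rw [e0, norm_mul] at h1
  have h2 : ‖(11 / 20) * ∑ i ∈ Finset.range 15, tc 100 (bz k i) * ((i : ℂ) + 1 -
        853956886412 / 1000000000000) - eP 0 k‖ ≤ 1 / 10 ^ 15 := by
    norm_num at h1 ⊢
    linarith
  have h3 := K.k1_near
  have h4 := K.k1_pos
  have h5 := K.k1_le
  have e : K.cfPL 0 k - eP 0 k = (11 / 20) * ∑ i ∈ Finset.range 15,
      ((K.bmL k i - tc 100 (bz k i)) * (((i : ℝ) + 1 - K.k1 : ℝ) : ℂ) - tc 100 (bz k i) *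
        ((K.k1 - 853956886412 / 1000000000000 : ℝ) : ℂ)) +
      ((11 / 20) * ∑ i ∈ Finset.range 15, tc 100 (bz k i) * ((i : ℂ) + 1 -
        853956886412 / 1000000000000) - eP 0 k) := by
    have : K.cfPL 0 k = (11 / 20) * ∑ i ∈ Finset.range 15, K.bmL k i * ((i : ℂ) + 1 - K.k1) := by
      simp [cfPL]
    rw [this, add_sub, ← mul_add, ← Finset.sum_add_distrib]
    congr 2
    refine Finset.sum_congr rfl fun i _ => ?_
    push_cast
    ring
  rw [e]
  refine (norm_add_le _ _).trans ((add_le_add ?_ h2).trans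
    (show 19 / 10 ^ 10 + 1 / 10 ^ 15 ≤ (2 / 10 ^ 9 : ℝ) by norm_num))
  rw [norm_mul]
  have h6 : ∀ i ∈ Finset.range 15, ‖(K.bmL k i - tc 100 (bz k i)) * (((i : ℝ) + 1 - K.k1 : ℝ) : ℂ)
      - tc 100 (bz k i) * ((K.k1 - 853956886412 / 1000000000000 : ℝ) : ℂ)‖ ≤ 2 / 10 ^ 10 := by
    intro i hi
    have hi' := Finset.mem_range.1 hi
    have hi2 : (i : ℝ) ≤ 14 := by exact_mod_cast (show i ≤ 14 by omega)
    have hi0 : (0 : ℝ) ≤ i := Nat.cast_nonneg i
    have hb := K.bmL_near hk hi'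
    have hb2 := K.norm_bmL_le hk hi'
    have hb3 : ‖tc 100 (bz k i)‖ ≤ 1.1 := by
      have e : tc 100 (bz k i) = K.bmL k i - (K.bmL k i - tc 100 (bz k i)) := by ring
      rw [e]
      refine (norm_sub_le _ _).trans ((add_le_add hb2 hb).trans ?_)
      norm_num
    refine (norm_sub_le _ _).trans ?_
    rw [norm_mul, norm_mul, Complex.norm_real, Complex.norm_real, Real.norm_eq_abs,
      Real.norm_eq_abs]
    have h7 : |(i : ℝ) + 1 - K.k1| ≤ 15 := by
      rw [abs_le]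
      constructor <;> linarith
    calc _ ≤ 21 / 10 ^ 16 * 15 + 1.1 * (1 / 10 ^ 10 : ℝ) := by gcongr
      _ ≤ _ := by norm_num
  have h8 := norm_sum_le_of_le _ h6
  rw [Finset.sum_const, Finset.card_range] at h8
  have h9 : ‖(11 / 20 : ℂ)‖ = 11 / 20 := by
    rw [norm_div, Complex.norm_ofNat, Complex.norm_ofNat]
  rw [h9]
  calc _ ≤ 11 / 20 * ((15 : ℕ) • (2 / 10 ^ 10) : ℝ) := by gcongr
    _ ≤ _ := by norm_num

theorem cfNL_near_zero {k : ℕ} (hk : k < 15) : ‖K.cfNL 0 k - eN 0 k‖ ≤ 4 / 10 ^ 14 := by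
  have h1 := lez_spec (alln_spec chkN0 hk) 100
  rw [tc_zadd, tc_sumz] at h1
  have e1 : tc 100 (zsm (2 ^ 40) (cNz 0 k)) = eN 0 k := tc_shift 60 40 _
  rw [e1] at h1
  have e : K.cfNL 0 k - eN 0 k = -(∑ i ∈ Finset.range 15, (K.bmL k i - tc 100 (bz k i))) -
      (∑ i ∈ Finset.range 15, tc 100 (bz k i) + eN 0 k) := by
    have : K.cfNL 0 k = -∑ i ∈ Finset.range 15, K.bmL k i := by simp [cfNL]
    rw [this, Finset.sum_sub_distrib]
    ring
  rw [e]
  have h6 : ∀ i ∈ Finset.range 15, ‖K.bmL k i - tc 100 (bz k i)‖ ≤ 21 / 10 ^ 16 := by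
    intro i hi
    exact K.bmL_near hk (Finset.mem_range.1 hi)
  have h8 := norm_sum_le_of_le _ h6
  rw [Finset.sum_const, Finset.card_range] at h8
  refine (norm_sub_le _ _).trans ?_
  rw [norm_neg]
  refine (add_le_add h8 h1).trans ?_
  norm_num

theorem cfNL_near_pos {a k : ℕ} (ha1 : 1 ≤ a) (ha : a < 36) (hk : k < 15) :
    ‖K.cfNL a k - eN a k‖ ≤ 14 / 10 ^ 15 := by
  have h0 := alln_spec (alln_spec chkN hk) ha
  rw [Bool.or_eq_true] at h0
  have h1 : ‖tc 160 (zsub (zadd (if a < 15 then zsm (2 ^ 60) (bz k a) else (0, 0))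
      (cmul (bz k 0) (pz a))) (zsm (2 ^ 100) (cNz a k)))‖ ≤ 2 * (2 ^ 100 : ℕ) / 2 ^ 160 := by
    rcases h0 with h | h
    · have := Nat.le_of_ble_eq_true h
      omega
    · exact lez_spec h 160
  have e1 : tc 160 (zsm (2 ^ 100) (cNz a k)) = eN a k := tc_shift 60 100 _
  have e2 : tc 160 (cmul (bz k 0) (pz a)) = tc 100 (bz k 0) * tc 60 (pz a) := tc_cmul 100 60 _ _
  have e3 : tc 160 (if a < 15 then zsm (2 ^ 60) (bz k a) else (0, 0)) =
      if a < 15 then tc 100 (bz k a) else 0 := by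
    split_ifs
    · exact tc_shift 100 60 _
    · exact tc_zero _
  rw [tc_zsub, tc_zadd, e1, e2, e3] at h1
  have h2 := K.bmL_near hk (i := 0) (by norm_num)
  have h3 := K.norm_bmL_le hk (i := 0) (by norm_num)
  have h4 := K.pjL_near ha ha1
  have h5 := norm_pz_le ha ha1
  have e : K.cfNL a k - eN a k = ((if a < 15 then K.bmL k a else 0) -
      (if a < 15 then tc 100 (bz k a) else 0)) +
      (K.bmL k 0 * (K.pjL a - tc 60 (pz a)) + (K.bmL k 0 - tc 100 (bz k 0)) * tc 60 (pz a)) +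
      ((if a < 15 then tc 100 (bz k a) else 0) + tc 100 (bz k 0) * tc 60 (pz a) - eN a k) := by
    have : K.cfNL a k = (if a < 15 then K.bmL k a else 0) + K.bmL k 0 * K.pjL a := by
      unfold cfNL
      rw [if_neg (by omega)]
    rw [this]
    ring
  have h6 : ‖(if a < 15 then K.bmL k a else 0) - (if a < 15 then tc 100 (bz k a) else 0)‖ ≤
      21 / 10 ^ 16 := by
    split_ifs with h
    · exact K.bmL_near hk h
    · rw [sub_zero, norm_zero]
      positivity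
  have h7 : ‖K.bmL k 0 * (K.pjL a - tc 60 (pz a)) + (K.bmL k 0 - tc 100 (bz k 0)) * tc 60 (pz a)‖ ≤
      1 * (8 / 10 ^ 15) + 21 / 10 ^ 16 * 1 := by
    refine (norm_add_le _ _).trans ?_
    rw [norm_mul, norm_mul]
    gcongr
  rw [e]
  refine norm_add₃_le.trans ((add_le_add (add_le_add h6 h7) h1).trans ?_)
  norm_num

/-- all weights are at least `2^-19` -/
theorem ww_ge {a : ℕ} (ha : a < 36) : 1 / 2 ^ 19 ≤ ww a := by
  have h : alln 36 (fun a => Nat.ble (bx.getD a 0) 19) = true := by decide +kernel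
  have h1 := Nat.le_of_ble_eq_true (alln_spec h ha)
  unfold ww
  gcongr
  norm_num

theorem ww_zero : ww 0 = 1 := by
  unfold ww
  have : bx.getD 0 0 = 0 := by decide +kernel
  rw [this]
  norm_num

theorem ww_nonneg (a : ℕ) : 0 ≤ ww a := by
  unfold ww
  positivity

theorem cfPL_near {a k : ℕ} (ha : a < 36) (hk : k < 15) :
    ‖K.cfPL a k - eP a k‖ ≤ 1 / 10 ^ 8 * ww a := by
  rcases Nat.eq_zero_or_pos a with rfl | ha1
  · rw [ww_zero]
    refine (K.cfPL_near_zero hk).trans ?_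
    norm_num
  · have hw := ww_ge ha
    rcases lt_or_ge a 16 with h | h
    · obtain ⟨a', rfl⟩ : ∃ a', a = a' + 1 := ⟨a - 1, by omega⟩
      have e : K.cfPL (a' + 1) k = K.bmL k a' := by
        unfold cfPL
        rw [if_neg (by omega), if_pos h, Nat.add_sub_cancel]
      rw [e]
      refine (K.cfPL_near_pos (by omega) hk).trans ?_
      norm_num at hw ⊢
      linarith
    · have e : K.cfPL a k = 0 := by
        unfold cfPL
        rw [if_neg (by omega), if_neg (by omega)]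
      rw [e, eP_ge h, sub_zero, norm_zero]
      have := ww_nonneg a
      positivity

theorem cfNL_near {a k : ℕ} (ha : a < 36) (hk : k < 15) :
    ‖K.cfNL a k - eN a k‖ ≤ 1 / 10 ^ 8 * ww a := by
  have hw := ww_ge ha
  rcases Nat.eq_zero_or_pos a with rfl | ha1
  · rw [ww_zero]
    refine (K.cfNL_near_zero hk).trans ?_
    norm_num
  · refine (K.cfNL_near_pos ha1 ha hk).trans ?_
    norm_num at hw ⊢
    linarith

theorem norm_tc_sq (s : ℕ) (z : ℤ × ℤ) :
    ‖tc s z‖ ^ 2 = (((z.1 ^ 2 + z.2 ^ 2).natAbs : ℕ) : ℝ) / 2 ^ (2 * s) := by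
  rw [← Complex.normSq_eq_norm_sq, Complex.normSq_apply]
  have : (((z.1 ^ 2 + z.2 ^ 2).natAbs : ℕ) : ℝ) = (z.1 : ℝ) ^ 2 + (z.2 : ℝ) ^ 2 := by
    rw [Nat.cast_natAbs, abs_of_nonneg (by positivity)]
    push_cast
    rfl
  rw [this]
  simp only [tc]
  rw [two_mul, pow_add]
  field_simp

theorem norm_le_ww {z : ℤ × ℤ} {a : ℕ}
    (h : Nat.ble ((z.1 ^ 2 + z.2 ^ 2).natAbs * 4 ^ (bx.getD a 0)) (2 ^ 120) = true) :
    ‖tc 60 z‖ ≤ ww a := by
  have h1 := Nat.le_of_ble_eq_true h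
  refine (pow_le_pow_iff_left₀ (norm_nonneg _) (ww_nonneg a) two_ne_zero).1 ?_
  rw [norm_tc_sq]
  unfold ww
  have h2 : (((z.1 ^ 2 + z.2 ^ 2).natAbs : ℕ) : ℝ) * 4 ^ (bx.getD a 0) ≤ 2 ^ 120 := by
    exact_mod_cast h1
  have h3 : (4 : ℝ) ^ (bx.getD a 0) = (2 ^ (bx.getD a 0)) ^ 2 := by
    rw [← pow_mul, mul_comm, pow_mul]
    norm_num
  rw [h3] at h2
  rw [div_pow, one_pow, div_le_div_iff₀ (by positivity) (by positivity)]
  norm_num at h2 ⊢
  exact h2

theorem norm_eP_le {a k : ℕ} (ha : a < 36) (hk : k < 15) : ‖eP a k‖ ≤ ww a := by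
  have h := alln_spec (alln_spec chkB ha) hk
  rw [Bool.and_eq_true] at h
  exact norm_le_ww h.1

theorem norm_eN_le {a k : ℕ} (ha : a < 36) (hk : k < 15) : ‖eN a k‖ ≤ ww a := by
  have h := alln_spec (alln_spec chkB ha) hk
  rw [Bool.and_eq_true] at h
  exact norm_le_ww h.2

end Crit

end Pool.Agent.H93
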