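import Pool.Agent.Lib.H93.LowerNear2

/-!
Chunk D2: first row and diagonal.
-/

namespace Pool.Agent.H93

open ComplexConjugate

namespace Low

/-- table entry of the first row -/
def txz (b : ℕ) : ℤ × ℤ := tX.getD b (0, 0)

/-- integer part of `2^60 ex_b` -/
def ez (b : ℕ) : ℤ :=
  if 16 ≤ b then
    (49 ^ (b - 16) * (11 * ((b : ℤ) * 1000000000000 - 853956886412) + 9800000000000) * 2 ^ 60) /
      (102400 * 100 ^ (b - 16) * 20000000000000)
  else if b = 15 then 2 ^ 60 / 102400 else 0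

theorem chkX : alln 36 (fun b => Nat.ble b 0 ||
    lez (zsub (zadd (zsm (20 * 2 ^ 60) (txz b)) (zsub (zsm (11 * b * 2 ^ 60) (tz b))
      (zadd (zsm (20 * (b + 1) * 2 ^ 60) (zsub (tz b) (tz (b + 1))))
        (zsm 20 (cmul (zsub (tz 0) (tz 1)) (pz b)))))) (20 * 2 ^ 60 * ez b, 0))
      (20 * 2 ^ 61)) = true := by
  decide +kernel

theorem chkD1 : alln 15 (fun a => Nat.ble a 0 ||
    decide (tD.getD a 0 * (5000 * 1600 ^ a) ≤ -19 * 961 ^ a * 2 ^ 60)) = true := by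
  decide +kernel

theorem chkD2 : tD.getD 15 0 * (102400 * 5000 * 1600 ^ 15) ≤
    -(5000 * 1600 ^ 15 + 102400 * 19 * 961 ^ 15) * 2 ^ 60 := by
  decide +kernel

theorem chkD3 : alln 20 (fun a =>
    decide (tD.getD (16 + a) 0 * (102400 * 5000 * 100 ^ a) ≤ 2531 * 49 ^ a * 2 ^ 60)) = true := by
  decide +kernel

theorem tD_zero : tD.getD 0 0 = 1311306000292175297 := by decide +kernel

theorem floor_near {N D : ℤ} (hD : 0 < D) : |(N : ℝ) / D - ((N / D : ℤ) : ℝ)| ≤ 1 := by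
  have hD' : (0 : ℝ) < D := by exact_mod_cast hD
  have h1 : D * (N / D) ≤ N := Int.mul_ediv_self_le hD.ne'
  have h2 : N < D * (N / D) + D := Int.lt_mul_ediv_self_add hD
  have h1' : (D : ℝ) * ((N / D : ℤ) : ℝ) ≤ N := by exact_mod_cast h1
  have h2' : (N : ℝ) < D * ((N / D : ℤ) : ℝ) + D := by exact_mod_cast h2
  have e : (N : ℝ) / D - ((N / D : ℤ) : ℝ) = (N - D * ((N / D : ℤ) : ℝ)) / D := by
    field_simp
  rw [e, abs_of_nonneg (div_nonneg (by linarith) hD'.le), div_le_one hD']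
  linarith

end Low

open Low

theorem ek_sq (b : ℕ) (_hb : 16 ≤ b) : ek b ^ 2 = 1 / 102400 * (49 / 100) ^ (b - 16) := by
  unfold ek
  rw [mul_pow, ← pow_mul, mul_comm (b - 16) 2, pow_mul]
  norm_num

namespace Crit

variable (K : Crit)

/-- first row of the exact form, the part from `Λ` -/
noncomputable def lamjL (b : ℕ) : ℂ :=
  (11 / 20) * b * K.tjL b - ((b : ℂ) + 1) * (K.tjL b - K.tjL (b + 1)) - (K.tjL 0 - K.tjL 1) * K.pjL b

/-- first row of the exact form, the diagonal tail part -/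
noncomputable def exbL (b : ℕ) : ℝ :=
  if 16 ≤ b then ek b ^ 2 * ((11 / 20) * (b - K.k1) + 49 / 100)
  else if b = 15 then 1 / 102400 else 0

/-- first row -/
noncomputable def rXL (b : ℕ) : ℂ := -K.lamjL b + (K.exbL b : ℂ)

theorem exbL_near (b : ℕ) : |K.exbL b - (ez b : ℝ) / 2 ^ 60| ≤ 6 / 10 ^ 16 := by
  unfold exbL ez
  split_ifs with h1 h2
  · have hD : (0 : ℤ) < 102400 * 100 ^ (b - 16) * 20000000000000 := by positivity
    have h := floor_near (N := 49 ^ (b - 16) * (11 * ((b : ℤ) * 1000000000000 - 853956886412) +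
      9800000000000) * 2 ^ 60) hD
    have e : ek b ^ 2 * ((11 / 20) * (b - 853956886412 / 1000000000000) + 49 / 100) =
        ((49 ^ (b - 16) * (11 * ((b : ℤ) * 1000000000000 - 853956886412) +
      9800000000000) * 2 ^ 60 : ℤ) : ℝ) / (102400 * 100 ^ (b - 16) * 20000000000000 : ℤ) /
        2 ^ 60 := by
      rw [ek_sq b h1, div_pow]
      push_cast
      field_simp
      ring
    have e2 : ek b ^ 2 * ((11 / 20) * (b - K.k1) + 49 / 100) =
        ek b ^ 2 * ((11 / 20) * (b - 853956886412 / 1000000000000) + 49 / 100) -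
        ek b ^ 2 * (11 / 20) * (K.k1 - 853956886412 / 1000000000000) := by ring
    have h3 : |ek b ^ 2 * (11 / 20) * (K.k1 - 853956886412 / 1000000000000)| ≤
        1 / 102400 * 1 * (11 / 20) * (1 / 10 ^ 10) := by
      have h4 : (49 / 100 : ℝ) ^ (b - 16) ≤ 1 := pow_le_one₀ (by norm_num) (by norm_num)
      rw [abs_mul, abs_of_nonneg (show 0 ≤ ek b ^ 2 * (11 / 20) by positivity), ek_sq b h1]
      have := K.k1_near
      gcongr
    have h5 : |ek b ^ 2 * ((11 / 20) * (b - 853956886412 / 1000000000000) + 49 / 100) -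
        ((49 ^ (b - 16) * (11 * ((b : ℤ) * 1000000000000 - 853956886412) + 9800000000000) *
        2 ^ 60 / (102400 * 100 ^ (b - 16) * 20000000000000) : ℤ) : ℝ) / 2 ^ 60| ≤ 1 / 2 ^ 60 := by
      rw [e, ← sub_div, abs_div, abs_of_pos (show (0 : ℝ) < 2 ^ 60 by positivity)]
      gcongr
    rw [e2, sub_right_comm]
    refine (abs_sub _ _).trans ((add_le_add h5 h3).trans ?_)
    norm_num
  · have h : ((2 : ℤ) ^ 60 / 102400) = 11258999068426 := by norm_num
    rw [h]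
    norm_num [abs_le]
  · norm_num

theorem norm_tjL_le (j : ℕ) : ‖K.tjL j‖ ≤ 0.711 * K.r ^ j := by
  rw [tjL, norm_mul, K.norm_xs, mul_one]
  exact K.norm_cc_le j

theorem rXL_near {b : ℕ} (hb1 : 1 ≤ b) (hb : b < 36) : ‖K.rXL b - eX b‖ ≤ 1 / (5 * 10 ^ 6) * ww b := by
  have h0 := alln_spec chkX hb
  rw [Bool.or_eq_true] at h0
  have h1 : ‖tc 120 (zsub (zadd (zsm (20 * 2 ^ 60) (txz b)) (zsub (zsm (11 * b * 2 ^ 60) (tz b))
      (zadd (zsm (20 * (b + 1) * 2 ^ 60) (zsub (tz b) (tz (b + 1))))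
        (zsm 20 (cmul (zsub (tz 0) (tz 1)) (pz b)))))) (20 * 2 ^ 60 * ez b, 0))‖ ≤
        2 * (20 * 2 ^ 61 : ℕ) / 2 ^ 120 := by
    rcases h0 with h | h
    · have := Nat.le_of_ble_eq_true h
      omega
    · exact lez_spec h 120
  have hs : ∀ (m : ℤ) (x : ℤ × ℤ), tc 120 (zsm (m * 2 ^ 60) x) = m * tc 60 x := by
    intro m x
    have : tc 120 (zsm (m * 2 ^ 60) x) = m * tc 120 (zsm (2 ^ 60) x) := by
      rw [tc_zsm, tc_zsm]
      push_cast
      ring
    rw [this, show 120 = 60 + 60 by norm_num, tc_shift]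
  have he : tc 120 (20 * 2 ^ 60 * ez b, 0) = 20 * ((((ez b : ℝ) / 2 ^ 60 : ℝ)) : ℂ) := by
    apply Complex.ext
    · rw [show (20 : ℂ) = ((20 : ℝ) : ℂ) by norm_num, ← Complex.ofReal_mul, Complex.ofReal_re]
      simp only [tc]
      push_cast
      rw [show (120 : ℕ) = 60 + 60 by norm_num, pow_add]
      field_simp
      ring
    · rw [show (20 : ℂ) = ((20 : ℝ) : ℂ) by norm_num, ← Complex.ofReal_mul, Complex.ofReal_im]
      simp [tc]
  have hc : tc 120 (zsm 20 (cmul (zsub (tz 0) (tz 1)) (pz b))) =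
      20 * ((tc 60 (tz 0) - tc 60 (tz 1)) * tc 60 (pz b)) := by
    rw [tc_zsm, show 120 = 60 + 60 by norm_num, tc_cmul, tc_zsub]
    push_cast
    ring
  have h2 : tc 120 (zsub (zadd (zsm (20 * 2 ^ 60) (txz b)) (zsub (zsm (11 * b * 2 ^ 60) (tz b))
      (zadd (zsm (20 * (b + 1) * 2 ^ 60) (zsub (tz b) (tz (b + 1))))
        (zsm 20 (cmul (zsub (tz 0) (tz 1)) (pz b)))))) (20 * 2 ^ 60 * ez b, 0)) =
      20 * (eX b + ((11 / 20) * b * tc 60 (tz b) - ((b : ℂ) + 1) * (tc 60 (tz b) -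
        tc 60 (tz (b + 1))) - (tc 60 (tz 0) - tc 60 (tz 1)) * tc 60 (pz b)) -
        ((((ez b : ℝ) / 2 ^ 60 : ℝ)) : ℂ)) := by
    have e1 : tc 60 (txz b) = eX b := rfl
    rw [tc_zsub, tc_zadd, tc_zsub, tc_zadd, hs, hs, hs, hc, he, tc_zsub, e1]
    push_cast
    ring
  rw [h2, norm_mul, Complex.norm_ofNat] at h1
  have h3 : ‖eX b + ((11 / 20) * b * tc 60 (tz b) - ((b : ℂ) + 1) * (tc 60 (tz b) -
        tc 60 (tz (b + 1))) - (tc 60 (tz 0) - tc 60 (tz 1)) * tc 60 (pz b)) -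
        ((((ez b : ℝ) / 2 ^ 60 : ℝ)) : ℂ)‖ ≤ 1 / 10 ^ 17 := by
    norm_num at h1 ⊢
    linarith
  have a0 := K.tjL_near (j := 0) (by omega)
  have a1 := K.tjL_near (j := 1) (by omega)
  have ab := K.tjL_near (j := b) (by omega)
  have ab1 := K.tjL_near (j := b + 1) (by omega)
  have ap := K.pjL_near hb hb1
  have hp := norm_pz_le hb hb1
  have hx := K.exbL_near b
  have hb' : (b : ℝ) ≤ 35 := by exact_mod_cast (show b ≤ 35 by omega)
  have hb0 : (0 : ℝ) ≤ b := Nat.cast_nonneg b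
  have n0 : ‖K.tjL 0 - K.tjL 1‖ ≤ 1.12 := by
    refine (norm_sub_le _ _).trans ?_
    have h4 := K.norm_tjL_le 0
    have h5 := K.norm_tjL_le 1
    have h6 := K.r_lt
    rw [pow_zero] at h4
    rw [pow_one] at h5
    norm_num at h4 h5 h6 ⊢
    linarith
  have e : K.rXL b - eX b =
      -(((11 / 20 : ℝ) * b : ℝ) * (K.tjL b - tc 60 (tz b)) - (((b : ℝ) + 1 : ℝ) : ℂ) *
        ((K.tjL b - tc 60 (tz b)) - (K.tjL (b + 1) - tc 60 (tz (b + 1)))) -
        ((K.tjL 0 - K.tjL 1) * (K.pjL b - tc 60 (pz b)) +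
          ((K.tjL 0 - tc 60 (tz 0)) - (K.tjL 1 - tc 60 (tz 1))) * tc 60 (pz b))) +
      ((K.exbL b - (ez b : ℝ) / 2 ^ 60 : ℝ) : ℂ) -
      (eX b + ((11 / 20) * b * tc 60 (tz b) - ((b : ℂ) + 1) * (tc 60 (tz b) -
        tc 60 (tz (b + 1))) - (tc 60 (tz 0) - tc 60 (tz 1)) * tc 60 (pz b)) -
        ((((ez b : ℝ) / 2 ^ 60 : ℝ)) : ℂ)) := by
    unfold rXL lamjL
    push_cast
    ring
  have h10 : ‖K.rXL b - eX b‖ ≤ 2 / 10 ^ 13 := by
    rw [e]
    refine (norm_sub_le _ _).trans ((add_le_add ((norm_add_le _ _).trans (add_le_add ?_ ?_))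
      h3).trans (show 1993 / 10 ^ 16 + 6 / 10 ^ 16 + 1 / 10 ^ 17 ≤ (2 / 10 ^ 13 : ℝ) by norm_num))
    · rw [norm_neg]
      refine (norm_sub_le _ _).trans ((add_le_add ((norm_sub_le _ _).trans (add_le_add
        (?_ : _ ≤ 11 / 20 * 35 * (2 / 10 ^ 15 : ℝ)) (?_ : _ ≤ 36 * (2 / 10 ^ 15 + 2 / 10 ^ 15 : ℝ))))
        ((norm_add_le _ _).trans (add_le_add (?_ : _ ≤ 1.12 * (8 / 10 ^ 15 : ℝ))
        (?_ : _ ≤ (2 / 10 ^ 15 + 2 / 10 ^ 15 : ℝ) * 1)))).trans ?_)
      · rw [norm_mul, Complex.norm_real, Real.norm_of_nonneg (by positivity)]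
        gcongr
      · rw [norm_mul, Complex.norm_real, Real.norm_of_nonneg (by positivity)]
        have := (norm_sub_le (K.tjL b - tc 60 (tz b)) (K.tjL (b + 1) - tc 60 (tz (b + 1)))).trans
          (add_le_add ab ab1)
        have h36 : (b : ℝ) + 1 ≤ 36 := by linarith
        gcongr
      · rw [norm_mul]
        gcongr
      · rw [norm_mul]
        have := (norm_sub_le (K.tjL 0 - tc 60 (tz 0)) (K.tjL 1 - tc 60 (tz 1))).trans
          (add_le_add a0 a1)
        gcongr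
      · norm_num
    · rw [Complex.norm_real, Real.norm_eq_abs]
      exact hx
  have hw := ww_ge hb
  refine h10.trans ?_
  norm_num at hw ⊢
  linarith

/-- diagonal of the exact form -/
noncomputable def rDL (a : ℕ) : ℝ :=
  if 16 ≤ a then 51 / 100 * ek a ^ 2 else if a = 15 then -(1 / 102400) else 0

theorem eD_le {a : ℕ} (ha1 : 1 ≤ a) (ha : a < 36) : eD a + 19 / 5000 * wj a ≤ rDL a := by
  unfold eD wj rDL
  rcases lt_trichotomy a 15 with h | h | h
  · rw [if_pos (show a < 16 by omega), if_neg (by omega), if_neg (by omega)]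
    have h0 := alln_spec chkD1 h
    rw [Bool.or_eq_true] at h0
    rcases h0 with h0 | h0
    · have := Nat.le_of_ble_eq_true h0
      omega
    · have h1 := of_decide_eq_true h0
      have h2 : ((tD.getD a 0 : ℤ) : ℝ) * (5000 * 1600 ^ a) ≤ -19 * 961 ^ a * 2 ^ 60 := by
        exact_mod_cast h1
      have e : (31 / 40 : ℝ) ^ (2 * a) = 961 ^ a / 1600 ^ a := by
        rw [pow_mul, ← div_pow]
        norm_num
      rw [e]
      have h3 : (0 : ℝ) < 5000 * 1600 ^ a := by positivity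
      rw [← le_div_iff₀ h3] at h2
      have h4 : ((tD.getD a 0 : ℤ) : ℝ) / 2 ^ 60 ≤ -19 * 961 ^ a * 2 ^ 60 / (5000 * 1600 ^ a) /
          2 ^ 60 := by gcongr
      refine (add_le_add h4 le_rfl).trans (le_of_eq ?_)
      field_simp
      ring
  · subst h
    have h1 := chkD2
    have h2 : ((tD.getD 15 0 : ℤ) : ℝ) * (102400 * 5000 * 1600 ^ 15) ≤
        -(5000 * 1600 ^ 15 + 102400 * 19 * 961 ^ 15) * 2 ^ 60 := by exact_mod_cast h1
    rw [if_pos (by norm_num), if_neg (by norm_num), if_pos rfl]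
    rw [← le_div_iff₀ (by positivity)] at h2
    have h4 : ((tD.getD 15 0 : ℤ) : ℝ) / 2 ^ 60 ≤
        -(5000 * 1600 ^ 15 + 102400 * 19 * 961 ^ 15) * 2 ^ 60 / (102400 * 5000 * 1600 ^ 15) /
          2 ^ 60 := by gcongr
    refine (add_le_add h4 le_rfl).trans ?_
    norm_num
  · obtain ⟨m, rfl⟩ : ∃ m, a = 16 + m := ⟨a - 16, by omega⟩
    rw [if_neg (by omega), if_pos (by omega), ek_sq _ (by omega), Nat.add_sub_cancel_left]
    have h1 := of_decide_eq_true (alln_spec chkD3 (j := m) (by omega))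
    have h2 : ((tD.getD (16 + m) 0 : ℤ) : ℝ) * (102400 * 5000 * 100 ^ m) ≤
        2531 * 49 ^ m * 2 ^ 60 := by exact_mod_cast h1
    rw [← le_div_iff₀ (by positivity)] at h2
    have h4 : ((tD.getD (16 + m) 0 : ℤ) : ℝ) / 2 ^ 60 ≤
        2531 * 49 ^ m * 2 ^ 60 / (102400 * 5000 * 100 ^ m) / 2 ^ 60 := by gcongr
    refine (add_le_add h4 le_rfl).trans (le_of_eq ?_)
    rw [div_pow]
    field_simp
    ring

/-- the scalar entry of the exact form -/
noncomputable def rD0L : ℝ :=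
  K.gam0 + ∑ k ∈ Finset.range 20, ek (16 + k) ^ 2 * (((11 / 20) * ((16 + k : ℕ) - K.k1)) ^ 2 -
    49 / 100) - 1 / 102400

theorem gam0_ge : 1.1738821828 ≤ K.gam0 := by
  unfold gam0
  have h1 := abs_le.1 K.k1_near
  have h2 := (Complex.abs_re_le_norm _).trans K.kap_spec
  have h3 := abs_le.1 K.g2_div_g
  rw [Complex.sub_re] at h2
  have h2' : |K.kap.re - 2.494636048908| ≤ 1e-10 := h2
  have h2'' := abs_le.1 h2'
  have h4 : (0.85395688631 : ℝ) ^ 2 ≤ K.k1 ^ 2 := by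
    have : (0.85395688631 : ℝ) ≤ K.k1 := by
      norm_num at h1 ⊢
      linarith [h1.1]
    gcongr
  norm_num at h2'' h3 h4 ⊢
  linarith [h2''.2, h3.1]

theorem eD_zero_le : eD 0 + 19 / 5000 * 10 ≤ K.rD0L := by
  have h1 := K.gam0_ge
  have h2 : ∑ k ∈ Finset.range 20, ek (16 + k) ^ 2 * (((11 / 20) * ((16 + k : ℕ) - 0.85395688652)) ^ 2
      - 49 / 100) ≤ ∑ k ∈ Finset.range 20, ek (16 + k) ^ 2 * (((11 / 20) * ((16 + k : ℕ) - K.k1)) ^ 2
      - 49 / 100) := by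
    refine Finset.sum_le_sum fun k _ => ?_
    have h3 := abs_le.1 K.k1_near
    have h4 : K.k1 ≤ 0.85395688652 := by
      norm_num at h3 ⊢
      linarith [h3.2]
    have h5 : (0 : ℝ) ≤ (11 / 20) * ((16 + k : ℕ) - 0.85395688652) := by
      push_cast
      have : (0 : ℝ) ≤ k := Nat.cast_nonneg k
      norm_num
      linarith
    gcongr
  unfold rD0L eD
  rw [tD_zero]
  have h6 : (0.0015042345 : ℝ) ≤ ∑ k ∈ Finset.range 20, ek (16 + k) ^ 2 *
      (((11 / 20) * ((16 + k : ℕ) - 0.85395688652)) ^ 2 - 49 / 100) := by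
    simp only [Finset.sum_range_succ, Finset.sum_range_zero, ek]
    norm_num
  norm_num at h1 h2 h6 ⊢
  linarith

end Crit

end Pool.Agent.H93
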