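import Pool.Agent.Lib.H93.LowerFin

/-!
Chunk D2: the tail (`j ≥ 36`) of the limiting form.
-/

namespace Pool.Agent.H93

open Filter Topology ComplexConjugate Low

namespace Low

/-- Cauchy-Schwarz for tails -/
theorem tail_cs {f z : ℕ → ℂ} {E : ℕ → ℝ} {F ρ : ℝ} (hρ0 : 0 ≤ ρ) (hρ1 : ρ < 1)
    (hf : ∀ k, ‖f k‖ ≤ F * ρ ^ k * E k)
    (hz : Summable fun k => E k ^ 2 * ‖z k‖ ^ 2) (hs : Summable fun k => f k * z k) :
    ‖∑' k, f k * z k‖ ^ 2 ≤ F ^ 2 / (1 - ρ ^ 2) * ∑' k, E k ^ 2 * ‖z k‖ ^ 2 := by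
  have hρ2 : ρ ^ 2 < 1 := by nlinarith
  have hg : HasSum (fun k : ℕ => F ^ 2 * (ρ ^ 2) ^ k) (F ^ 2 * (1 - ρ ^ 2)⁻¹) :=
    (hasSum_geometric_of_lt_one (sq_nonneg ρ) hρ2).mul_left _
  have h1 : ∀ n, ‖∑ k ∈ Finset.range n, f k * z k‖ ^ 2 ≤
      F ^ 2 / (1 - ρ ^ 2) * ∑' k, E k ^ 2 * ‖z k‖ ^ 2 := by
    intro n
    have h2 : ‖∑ k ∈ Finset.range n, f k * z k‖ ≤
        ∑ k ∈ Finset.range n, (F * ρ ^ k) * (E k * ‖z k‖) := by
      refine norm_sum_le_of_le _ fun k _ => ?_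
      rw [norm_mul, ← mul_assoc]
      exact mul_le_mul_of_nonneg_right (hf k) (norm_nonneg _)
    have h3 := Finset.sum_mul_sq_le_sq_mul_sq (Finset.range n) (fun k => F * ρ ^ k)
      (fun k => E k * ‖z k‖)
    have h4 : ∑ k ∈ Finset.range n, (F * ρ ^ k) ^ 2 ≤ F ^ 2 * (1 - ρ ^ 2)⁻¹ := by
      have e : ∀ k, (F * ρ ^ k) ^ 2 = F ^ 2 * (ρ ^ 2) ^ k := by
        intro k
        rw [mul_pow, ← pow_mul, ← pow_mul, mul_comm k 2]
      simp only [e]
      exact sum_le_hasSum _ (fun k _ => by positivity) hg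
    have h5 : ∑ k ∈ Finset.range n, (E k * ‖z k‖) ^ 2 ≤ ∑' k, E k ^ 2 * ‖z k‖ ^ 2 := by
      simp only [mul_pow]
      exact hz.sum_le_tsum _ (fun k _ => by positivity)
    have h6 : 0 ≤ ∑ k ∈ Finset.range n, (E k * ‖z k‖) ^ 2 :=
      Finset.sum_nonneg fun k _ => sq_nonneg _
    have h7 : 0 ≤ F ^ 2 * (1 - ρ ^ 2)⁻¹ :=
      mul_nonneg (sq_nonneg _) (inv_nonneg.2 (by linarith))
    calc ‖∑ k ∈ Finset.range n, f k * z k‖ ^ 2 ≤
          (∑ k ∈ Finset.range n, (F * ρ ^ k) * (E k * ‖z k‖)) ^ 2 :=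
          pow_le_pow_left₀ (norm_nonneg _) h2 2
      _ ≤ _ := h3
      _ ≤ (F ^ 2 * (1 - ρ ^ 2)⁻¹) * ∑' k, E k ^ 2 * ‖z k‖ ^ 2 := mul_le_mul h4 h5 h6 h7
      _ = _ := by rw [div_eq_mul_inv]
  exact le_of_tendsto' ((hs.hasSum.tendsto_sum_nat).norm.pow 2) h1

theorem ek_add (m k : ℕ) (hm : 16 ≤ m) : ek (k + m) = ek m * (7 / 10) ^ k := by
  unfold ek
  rw [show k + m - 16 = (m - 16) + k by omega, pow_add]
  ring

theorem ek_nn (m : ℕ) : 0 ≤ ek m := by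
  unfold ek
  positivity

theorem summable_ek_sq (m : ℕ) (hm : 16 ≤ m) : Summable fun k => ek (k + m) ^ 2 := by
  have e : (fun k => ek (k + m) ^ 2) = fun k => ek m ^ 2 * (49 / 100 : ℝ) ^ k := by
    funext k
    rw [ek_add m k hm, mul_pow, ← pow_mul, mul_comm k 2, pow_mul]
    norm_num
  rw [e]
  exact (summable_geometric_of_lt_one (by norm_num) (by norm_num)).mul_left _

theorem summable_ek_bdd {z : ℕ → ℂ} (hz : Bdd z) (m : ℕ) (hm : 16 ≤ m) :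
    Summable fun k => ek (k + m) ^ 2 * ‖z (k + m)‖ ^ 2 := by
  obtain ⟨C, hC⟩ := hz
  refine Summable.of_nonneg_of_le (fun k => by positivity) (fun k => ?_)
    ((summable_ek_sq m hm).mul_right (C ^ 2))
  have := hC (k + m)
  gcongr

theorem summable_rho {v : ℕ → ℂ} (hv : Summable fun k => ek (k + 16) ^ 2 * ‖v (k + 16)‖ ^ 2) :
    Summable fun k => ‖rhoT v k‖ ^ 2 := by
  rw [← summable_nat_add_iff 16]
  refine hv.congr fun k => ?_
  unfold rhoT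
  rw [if_neg (by omega), if_neg (by omega), norm_mul, mul_pow, Complex.norm_real,
    Real.norm_of_nonneg (ek_nn _)]

theorem RRT_split {v : ℕ → ℂ} (hv : Summable fun k => ek (k + 16) ^ 2 * ‖v (k + 16)‖ ^ 2) :
    RRT v = ∑ k ∈ Finset.range 15, ‖∑ i ∈ Finset.range 15, LR k i * v (i + 1)‖ ^ 2 +
      ∑' k : ℕ, ek (k + 16) ^ 2 * ‖v (k + 16)‖ ^ 2 := by
  unfold RRT
  rw [← (summable_rho hv).sum_add_tsum_nat_add 16, Finset.sum_range_succ']
  congr 1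
  · have e : ‖rhoT v 0‖ ^ 2 = 0 := by simp [rhoT]
    rw [e, add_zero]
    refine Finset.sum_congr rfl fun k hk => ?_
    have hk' := Finset.mem_range.1 hk
    unfold rhoT
    rw [if_neg (by omega), if_pos (by omega), Nat.add_sub_cancel]
  · refine tsum_congr fun k => ?_
    unfold rhoT
    rw [if_neg (by omega), if_neg (by omega), norm_mul, mul_pow, Complex.norm_real,
      Real.norm_of_nonneg (ek_nn _)]

end Low

namespace Crit

variable (K : Crit)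

/-- rotated coordinates -/
noncomputable def zzL (y : ℕ → ℂ) (j : ℕ) : ℂ := conj (K.xs j) * y j

theorem xs_mul_zzL (y : ℕ → ℂ) (j : ℕ) : K.xs j * K.zzL y j = y j := by
  unfold zzL
  rw [← mul_assoc, K.xs_mul_conj, one_mul]

theorem norm_zzL (y : ℕ → ℂ) (j : ℕ) : ‖K.zzL y j‖ = ‖y j‖ := by
  unfold zzL
  rw [norm_mul, RCLike.norm_conj, K.norm_xs, one_mul]

theorem bdd_zzL {y : ℕ → ℂ} (hy : Bdd y) : Bdd (K.zzL y) := by
  obtain ⟨C, hC⟩ := hy
  exact ⟨C, fun j => by rw [K.norm_zzL]; exact hC j⟩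

theorem tjL_eq (j : ℕ) : K.tjL j = K.tau j / K.g := K.cc_mul_xs j

theorem cc_mul_y (y : ℕ → ℂ) (j : ℕ) : K.cc j * y j = K.tjL j * K.zzL y j := by
  conv_lhs => rw [← K.xs_mul_zzL y j]
  unfold tjL
  ring

/-- coefficients of the linear part -/
noncomputable def lam0L (j : ℕ) : ℂ :=
  (11 / 20) * j * K.tjL j - ((j : ℂ) + 1) * (K.tjL j - K.tjL (j + 1))

theorem tjL_sub (j : ℕ) : K.tjL j - K.tjL (j + 1) = (K.r : ℂ) ^ (j + 1) * K.xs j / K.g := by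
  rw [K.tjL_eq, K.tjL_eq, K.tau_succ]
  ring

theorem summable_tauL {z : ℕ → ℂ} (hz : Bdd z) (i : ℕ) :
    Summable fun j : ℕ => (j : ℂ) ^ i * K.tjL j * z j := by
  obtain ⟨C, hC⟩ := hz
  have h := ((K.summable_pow_tau i).div_const K.g).norm.mul_right C
  refine Summable.of_norm_bounded h fun j => ?_
  rw [norm_mul, K.tjL_eq, ← mul_div_assoc]
  exact mul_le_mul_of_nonneg_left (hC j) (norm_nonneg _)

theorem summable_gL {z : ℕ → ℂ} (hz : Bdd z) :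
    Summable fun j : ℕ => ((j : ℂ) + 1) * (K.r : ℂ) ^ (j + 1) * z j := by
  obtain ⟨C, hC⟩ := hz
  have hr : ‖(K.r : ℝ)‖ < 1 := by
    rw [Real.norm_of_nonneg K.r_pos.le]
    exact K.r_lt_one
  have h1 : Summable fun j : ℕ => ((j : ℝ) + 1) * K.r ^ (j + 1) := by
    have h0 : Summable fun j : ℕ => (j : ℝ) ^ 1 * K.r ^ j :=
      summable_pow_mul_geometric_of_norm_lt_one 1 hr
    refine ((summable_nat_add_iff 1).2 h0).congr fun j => ?_
    rw [pow_one]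
    push_cast
    rfl
  refine Summable.of_norm_bounded (h1.mul_right C) fun j => ?_
  have e : ‖((j : ℂ) + 1)‖ = (j : ℝ) + 1 := by
    have : ((j : ℂ) + 1) = (((j : ℝ) + 1 : ℝ) : ℂ) := by push_cast; ring
    rw [this, Complex.norm_real, Real.norm_of_nonneg (by positivity)]
  rw [norm_mul, norm_mul, e, norm_pow, Complex.norm_real, Real.norm_of_nonneg K.r_pos.le]
  have := K.r_pos.le
  exact mul_le_mul_of_nonneg_left (hC j) (by positivity)

theorem summable_lam0L {z : ℕ → ℂ} (hz : Bdd z) : Summable fun j : ℕ => K.lam0L j * z j := by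
  have h1 := (K.summable_tauL hz 1).mul_left (11 / 20)
  have hxz : Bdd fun j => K.xs j * z j := by
    obtain ⟨C, hC⟩ := hz
    exact ⟨C, fun j => by rw [norm_mul, K.norm_xs, one_mul]; exact hC j⟩
  have h2 := (K.summable_gL hxz).div_const K.g
  refine (h1.sub h2).congr fun j => ?_
  unfold lam0L
  rw [K.tjL_sub]
  ring

theorem lin_eqL {y : ℕ → ℂ} (hy : Bdd y) :
    (11 / 20) * K.l1 y + K.cc 0 / K.ω * K.gg1 y = ∑' j : ℕ, K.lam0L j * K.zzL y j := by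
  have hz := K.bdd_zzL hy
  have h1 := (K.summable_tauL hz 1).mul_left (11 / 20)
  have h2 := (K.summable_gL hy).mul_left (K.cc 0 / K.ω)
  unfold l1 gg1
  have e1 : ∑' j : ℕ, (j : ℂ) * K.cc j * y j = ∑' j : ℕ, (j : ℂ) ^ 1 * K.tjL j * K.zzL y j := by
    refine tsum_congr fun j => ?_
    rw [mul_assoc, K.cc_mul_y]
    ring
  rw [e1, ← tsum_mul_left, ← tsum_mul_left, ← h1.tsum_add h2]
  refine tsum_congr fun j => ?_
  unfold lam0L
  rw [K.tjL_sub, K.cc_zero]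
  have hω := K.om_ne_zero
  have hg := K.g_ne_zero
  conv_lhs => rw [← K.xs_mul_zzL y j]
  field_simp
  ring

/-- head of the positive part -/
theorem headPL (ς : ℂ) (y : ℕ → ℂ) (k : ℕ) :
    ∑ i ∈ Finset.range 15, LR k i * (y (i + 1) + Complex.I * (11 / 20) * ς * K.v1 (i + 1)) =
    ∑ i ∈ Finset.range 15, K.bmL k i * (K.zzL y (i + 1) +
      (11 / 20) * ((i : ℂ) + 1 - K.k1) * (Complex.I * ς)) := by
  refine Finset.sum_congr rfl fun i _ => ?_
  unfold bmL v1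
  conv_lhs => rw [← K.xs_mul_zzL y (i + 1)]
  push_cast
  ring

/-- head of the negative part -/
theorem headNL (ς : ℂ) (y : ℕ → ℂ) (k : ℕ) :
    ∑ i ∈ Finset.range 15, LR k i * (K.A 1 y (i + 1) - Complex.I * K.ω * ς * K.xs (i + 1)) =
    K.ω * ∑ i ∈ Finset.range 15, K.bmL k i * (K.zzL y i - Complex.I * ς) := by
  rw [Finset.mul_sum]
  refine Finset.sum_congr rfl fun i _ => ?_
  unfold bmL
  rw [K.A_succ, K.xs_succ]
  conv_lhs => rw [← K.xs_mul_zzL y i]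
  have hω := K.om_ne_zero
  have hq : K.q ^ (i + 1) ≠ 0 := pow_ne_zero _ K.q_ne_zero
  field_simp

theorem tailPL (ς : ℂ) (y : ℕ → ℂ) (k : ℕ) :
    ‖y k + Complex.I * (11 / 20) * ς * K.v1 k‖ =
    ‖K.zzL y k + (11 / 20) * ((k : ℂ) - K.k1) * (Complex.I * ς)‖ := by
  have e : y k + Complex.I * (11 / 20) * ς * K.v1 k =
      K.xs k * (K.zzL y k + (11 / 20) * ((k : ℂ) - K.k1) * (Complex.I * ς)) := by
    unfold v1
    rw [mul_add, K.xs_mul_zzL]
    ring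
  rw [e, norm_mul, K.norm_xs, one_mul]

theorem tailNL (ς : ℂ) (y : ℕ → ℂ) (k : ℕ) :
    ‖K.A 1 y (k + 1) - Complex.I * K.ω * ς * K.xs (k + 1)‖ = ‖K.zzL y k - Complex.I * ς‖ := by
  have e : K.A 1 y (k + 1) - Complex.I * K.ω * ς * K.xs (k + 1) =
      K.ω * K.xs (k + 1) * (K.zzL y k - Complex.I * ς) := by
    rw [K.A_succ, K.xs_succ]
    conv_lhs => rw [← K.xs_mul_zzL y k]
    have hω := K.om_ne_zero
    have hq : K.q ^ (k + 1) ≠ 0 := pow_ne_zero _ K.q_ne_zero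
    field_simp
  rw [e, norm_mul, norm_mul, K.norm_xs, K.hω, one_mul, one_mul]

end Crit

end Pool.Agent.H93
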