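import Pool.Agent.Lib.H93.LowerTail

/-!
Chunk D2: reduction of the limiting form to its finite part.
-/

namespace Pool.Agent.H93

open Filter Topology ComplexConjugate Low

namespace Low

theorem summable_ek_sq_mul (m : ℕ) (hm : 16 ≤ m) :
    Summable fun k : ℕ => ek (k + m) ^ 2 * ((k + m : ℕ) : ℝ) ^ 2 := by
  have h : Summable fun k : ℕ => (k : ℝ) ^ 2 * (49 / 100 : ℝ) ^ k :=
    summable_pow_mul_geometric_of_norm_lt_one 2 (by norm_num)
  have h1 := ((summable_nat_add_iff m).2 h).mul_left (ek m ^ 2 / (49 / 100) ^ m)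
  refine h1.congr fun k => ?_
  rw [ek_add m k hm, mul_pow, ← pow_mul, mul_comm k 2, pow_mul, pow_add]
  have e : ((7 / 10 : ℝ) ^ 2) = 49 / 100 := by norm_num
  rw [e]
  have h0 : ((49 / 100 : ℝ) ^ m) ≠ 0 := by positivity
  field_simp

theorem tsum_ek_sq_mul_le : ∑' k : ℕ, ek (k + 36) ^ 2 * ((k + 36 : ℕ) : ℝ) ^ 2 ≤ 3 / 10 ^ 8 := by
  have hg : HasSum (fun k : ℕ => ek 36 ^ 2 * 36 ^ 2 * (49 / 100 * (37 / 36) ^ 2 : ℝ) ^ k)
      (ek 36 ^ 2 * 36 ^ 2 * (1 - 49 / 100 * (37 / 36) ^ 2)⁻¹) :=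
    (hasSum_geometric_of_lt_one (by norm_num) (by norm_num)).mul_left _
  have h1 : ∀ k : ℕ, ek (k + 36) ^ 2 * ((k + 36 : ℕ) : ℝ) ^ 2 ≤
      ek 36 ^ 2 * 36 ^ 2 * (49 / 100 * (37 / 36) ^ 2 : ℝ) ^ k := by
    intro k
    have hb := one_add_mul_le_pow (a := (1 / 36 : ℝ)) (by norm_num) k
    have h2 : ((k + 36 : ℕ) : ℝ) ≤ 36 * (37 / 36) ^ k := by
      push_cast
      norm_num at hb ⊢
      linarith
    rw [ek_add 36 k (by norm_num), mul_pow]
    calc ek 36 ^ 2 * ((7 / 10 : ℝ) ^ k) ^ 2 * ((k + 36 : ℕ) : ℝ) ^ 2 ≤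
          ek 36 ^ 2 * ((7 / 10 : ℝ) ^ k) ^ 2 * (36 * (37 / 36) ^ k) ^ 2 := by gcongr
      _ = _ := by
        have e5 : ∀ x : ℝ, (x ^ k) ^ 2 = (x ^ 2) ^ k := fun x => by
          rw [← pow_mul, ← pow_mul, mul_comm]
        rw [mul_pow (36 : ℝ), e5, e5, mul_pow (49 / 100 : ℝ),
          show ((7 / 10 : ℝ) ^ 2) = 49 / 100 by norm_num]
        ring
  have h3 := hasSum_le h1 (summable_ek_sq_mul 36 (by norm_num)).hasSum hg
  refine h3.trans ?_
  unfold ek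
  norm_num

theorem sq_add_real (z η : ℂ) (β : ℝ) :
    ‖z + (β : ℂ) * η‖ ^ 2 = ‖z‖ ^ 2 + 2 * β * (conj η * z).re + β ^ 2 * ‖η‖ ^ 2 := by
  rw [← Complex.normSq_eq_norm_sq, ← Complex.normSq_eq_norm_sq, ← Complex.normSq_eq_norm_sq]
  simp only [Complex.normSq_apply, Complex.add_re, Complex.add_im, Complex.mul_re, Complex.mul_im,
    Complex.ofReal_re, Complex.ofReal_im, Complex.conj_re, Complex.conj_im]
  ring

theorem sq_sub (z η : ℂ) : ‖z - η‖ ^ 2 = ‖z‖ ^ 2 - 2 * (conj η * z).re + ‖η‖ ^ 2 := by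
  have h := sq_add_real z η (-1)
  have e : z + ((-1 : ℝ) : ℂ) * η = z - η := by push_cast; ring
  rw [e] at h
  rw [h]
  ring

theorem re_ge (z η : ℂ) : -(‖η‖ * ‖z‖) ≤ (conj η * z).re := by
  have h := (abs_le.1 (Complex.abs_re_le_norm (conj η * z))).1
  rwa [norm_mul, RCLike.norm_conj] at h

/-- one diagonal term of the tail -/
noncomputable def dT (k1 : ℝ) (η : ℂ) (z : ℕ → ℂ) (m : ℕ) : ℝ :=
  ek m ^ 2 * ‖z m + (11 / 20) * ((m : ℂ) - k1) * η‖ ^ 2 - ek (m + 1) ^ 2 * ‖z m - η‖ ^ 2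

theorem dT_eq (k1 : ℝ) (η : ℂ) (z : ℕ → ℂ) {m : ℕ} (hm : 16 ≤ m) :
    dT k1 η z m = ek m ^ 2 * (51 / 100) * ‖z m‖ ^ 2 +
      2 * (ek m ^ 2 * ((11 / 20) * (m - k1) + 49 / 100)) * (conj η * z m).re +
      ek m ^ 2 * (((11 / 20) * (m - k1)) ^ 2 - 49 / 100) * ‖η‖ ^ 2 := by
  unfold dT
  have e : (11 / 20) * ((m : ℂ) - k1) * η = (((11 / 20) * (m - k1) : ℝ) : ℂ) * η := by
    push_cast
    ring
  have e2 : ek (m + 1) ^ 2 = 49 / 100 * ek m ^ 2 := by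
    have := ek_add m 1 hm
    rw [add_comm 1 m] at this
    rw [this, pow_one, mul_pow]
    norm_num
    ring
  rw [e, sq_add_real, sq_sub, e2]
  ring

theorem dT_ge {k1 : ℝ} (h1 : 0.853 ≤ k1) (h2 : k1 ≤ 1) (η : ℂ) (z : ℕ → ℂ) {m : ℕ}
    (hm : 36 ≤ m) :
    1 / 2 * (ek m ^ 2 * ‖z m‖ ^ 2) - 31 * ‖η‖ ^ 2 * (ek m ^ 2 * (m : ℝ) ^ 2) ≤ dT k1 η z m := by
  rw [dT_eq k1 η z (by omega)]
  have hr := re_ge (z m) η
  have hm' : (36 : ℝ) ≤ m := by exact_mod_cast hm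
  set ζ := ‖z m‖
  set n := ‖η‖
  set R := (conj η * z m).re
  set β := (11 / 20) * ((m : ℝ) - k1) with hβ
  have hβ1 : β + 49 / 100 ≤ 0.551 * m := by
    rw [hβ]
    norm_num at h1 ⊢
    linarith
  have hβ0 : 1 ≤ β := by
    rw [hβ]
    linarith
  have hζ : 0 ≤ ζ := norm_nonneg _
  have hn : 0 ≤ n := norm_nonneg _
  have h3 : 100 * (β + 49 / 100) ^ 2 ≤ 31 * (m : ℝ) ^ 2 := by
    have : (β + 49 / 100) ^ 2 ≤ (0.551 * m) ^ 2 := by
      apply pow_le_pow_left₀ (by linarith) hβ1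
    norm_num at this ⊢
    nlinarith
  have h4 : 0 ≤ 1 / 100 * ζ ^ 2 + 2 * (β + 49 / 100) * R + (β ^ 2 - 49 / 100 + 31 * (m : ℝ) ^ 2) *
      n ^ 2 := by
    have h5 : 2 * (β + 49 / 100) * (-(n * ζ)) ≤ 2 * (β + 49 / 100) * R :=
      mul_le_mul_of_nonneg_left hr (by linarith)
    have h6 : 100 * (β + 49 / 100) ^ 2 * n ^ 2 ≤ (β ^ 2 - 49 / 100 + 31 * (m : ℝ) ^ 2) * n ^ 2 := by
      apply mul_le_mul_of_nonneg_right _ (sq_nonneg n)
      nlinarith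
    nlinarith [sq_nonneg (1 / 10 * ζ - 10 * (β + 49 / 100) * n)]
  have h7 := mul_nonneg (sq_nonneg (ek m)) h4
  nlinarith

end Low

namespace Crit

variable (K : Crit)

theorem z0_eqL {y : ℕ → ℂ} (hy : Bdd y) (hs : K.s y = 0) :
    K.zzL y 0 = ∑ b ∈ Finset.range 35, K.pjL (b + 1) * K.zzL y (b + 1) +
      ∑' k : ℕ, K.pjL (k + 36) * K.zzL y (k + 36) := by
  have hz := K.bdd_zzL hy
  have hsum : Summable fun j : ℕ => K.tjL j * K.zzL y j := by
    simpa using K.summable_tauL hz 0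
  have h1 : ∑' j : ℕ, K.tjL j * K.zzL y j = 0 := by
    rw [← hs]
    unfold s
    exact tsum_congr fun j => (K.cc_mul_y y j).symm
  rw [← hsum.sum_add_tsum_nat_add 36, Finset.sum_range_succ'] at h1
  have ht := K.tjL_zero_ne
  have e1 : ∑ b ∈ Finset.range 35, K.pjL (b + 1) * K.zzL y (b + 1) =
      -(∑ b ∈ Finset.range 35, K.tjL (b + 1) * K.zzL y (b + 1)) / K.tjL 0 := by
    rw [neg_div, Finset.sum_div, ← Finset.sum_neg_distrib]
    refine Finset.sum_congr rfl fun b _ => ?_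
    unfold pjL
    ring
  have e2 : ∑' k : ℕ, K.pjL (k + 36) * K.zzL y (k + 36) =
      -(∑' k : ℕ, K.tjL (k + 36) * K.zzL y (k + 36)) / K.tjL 0 := by
    rw [neg_div, ← tsum_div_const, ← tsum_neg]
    refine tsum_congr fun b => ?_
    unfold pjL
    ring
  rw [e1, e2, ← add_div, eq_div_iff ht]
  linear_combination h1

theorem lin_splitL {y : ℕ → ℂ} (hy : Bdd y) (hs : K.s y = 0) :
    ∑' j : ℕ, K.lam0L j * K.zzL y j =
      ∑ b ∈ Finset.range 35, K.lamjL (b + 1) * K.zzL y (b + 1) +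
      (K.lam0L 0 * ∑' k : ℕ, K.pjL (k + 36) * K.zzL y (k + 36) +
        ∑' k : ℕ, K.lam0L (k + 36) * K.zzL y (k + 36)) := by
  have hz := K.bdd_zzL hy
  rw [← (K.summable_lam0L hz).sum_add_tsum_nat_add 36, Finset.sum_range_succ', K.z0_eqL hy hs]
  have e : ∑ b ∈ Finset.range 35, K.lamjL (b + 1) * K.zzL y (b + 1) =
      ∑ b ∈ Finset.range 35, K.lam0L (b + 1) * K.zzL y (b + 1) +
      K.lam0L 0 * ∑ b ∈ Finset.range 35, K.pjL (b + 1) * K.zzL y (b + 1) := by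
    rw [Finset.mul_sum, ← Finset.sum_add_distrib]
    refine Finset.sum_congr rfl fun b _ => ?_
    unfold lamjL lam0L
    push_cast
    ring
  rw [e]
  ring

/-- the coordinates of the finite part -/
noncomputable def hhL (ς : ℂ) (y : ℕ → ℂ) (a : ℕ) : ℂ :=
  if a = 0 then Complex.I * ς else K.zzL y a

theorem hhL_succ (ς : ℂ) (y : ℕ → ℂ) (a : ℕ) : K.hhL ς y (a + 1) = K.zzL y (a + 1) := by
  simp [hhL]

theorem hhL_zero (ς : ℂ) (y : ℕ → ℂ) : K.hhL ς y 0 = Complex.I * ς := by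
  simp [hhL]

theorem headP_eqL (ς : ℂ) (y : ℕ → ℂ) (k : ℕ) :
    ∑ i ∈ Finset.range 15, K.bmL k i * (K.zzL y (i + 1) +
      (11 / 20) * ((i : ℂ) + 1 - K.k1) * (Complex.I * ς)) =
    ∑ a ∈ Finset.range 36, K.cfPL a k * K.hhL ς y a := by
  rw [Finset.sum_range_succ' (fun a => K.cfPL a k * K.hhL ς y a) 35,
    show 35 = 15 + 20 by norm_num, Finset.sum_range_add]
  have e1 : ∑ x ∈ Finset.range 20, K.cfPL (15 + x + 1) k * K.hhL ς y (15 + x + 1) = 0 := by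
    refine Finset.sum_eq_zero fun x _ => ?_
    unfold cfPL
    rw [if_neg (by omega), if_neg (by omega), zero_mul]
  have e2 : ∑ x ∈ Finset.range 15, K.cfPL (x + 1) k * K.hhL ς y (x + 1) =
      ∑ x ∈ Finset.range 15, K.bmL k x * K.zzL y (x + 1) := by
    refine Finset.sum_congr rfl fun x hx => ?_
    have := Finset.mem_range.1 hx
    rw [K.hhL_succ]
    unfold cfPL
    rw [if_neg (by omega), if_pos (by omega), Nat.add_sub_cancel]
  have e3 : K.cfPL 0 k = (11 / 20) * ∑ i ∈ Finset.range 15, K.bmL k i * ((i : ℂ) + 1 - K.k1) := by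
    simp [cfPL]
  rw [e1, e2, e3, K.hhL_zero, add_zero, Finset.mul_sum, Finset.sum_mul, ← Finset.sum_add_distrib]
  refine Finset.sum_congr rfl fun x _ => ?_
  ring

theorem headN_eqL (ς : ℂ) {y : ℕ → ℂ} (hy : Bdd y) (hs : K.s y = 0) (k : ℕ) :
    ∑ i ∈ Finset.range 15, K.bmL k i * (K.zzL y i - Complex.I * ς) =
    ∑ a ∈ Finset.range 36, K.cfNL a k * K.hhL ς y a +
      K.bmL k 0 * ∑' k : ℕ, K.pjL (k + 36) * K.zzL y (k + 36) := by
  have e0 : ∑ i ∈ Finset.range 15, K.bmL k i * (K.zzL y i - Complex.I * ς) =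
      ∑ i ∈ Finset.range 14, K.bmL k (i + 1) * K.zzL y (i + 1) + K.bmL k 0 * K.zzL y 0 -
      (∑ i ∈ Finset.range 15, K.bmL k i) * (Complex.I * ς) := by
    rw [← Finset.sum_range_succ' (fun i => K.bmL k i * K.zzL y i), Finset.sum_mul,
      ← Finset.sum_sub_distrib]
    refine Finset.sum_congr rfl fun x _ => ?_
    ring
  rw [e0, K.z0_eqL hy hs, Finset.sum_range_succ' (fun a => K.cfNL a k * K.hhL ς y a) 35]
  have e1 : ∑ a ∈ Finset.range 35, K.cfNL (a + 1) k * K.hhL ς y (a + 1) =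
      ∑ a ∈ Finset.range 35, (if a + 1 < 15 then K.bmL k (a + 1) else 0) * K.zzL y (a + 1) +
      K.bmL k 0 * ∑ a ∈ Finset.range 35, K.pjL (a + 1) * K.zzL y (a + 1) := by
    rw [Finset.mul_sum, ← Finset.sum_add_distrib]
    refine Finset.sum_congr rfl fun x _ => ?_
    rw [K.hhL_succ]
    unfold cfNL
    rw [if_neg (by omega)]
    ring
  have e2 : ∑ a ∈ Finset.range 35, (if a + 1 < 15 then K.bmL k (a + 1) else 0) * K.zzL y (a + 1) =
      ∑ i ∈ Finset.range 14, K.bmL k (i + 1) * K.zzL y (i + 1) := by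
    rw [show 35 = 14 + 21 by norm_num, Finset.sum_range_add]
    have e3 : ∑ x ∈ Finset.range 21, (if 14 + x + 1 < 15 then K.bmL k (14 + x + 1) else 0) *
        K.zzL y (14 + x + 1) = 0 := by
      refine Finset.sum_eq_zero fun x _ => ?_
      rw [if_neg (by omega), zero_mul]
    rw [e3, add_zero]
    refine Finset.sum_congr rfl fun x hx => ?_
    have := Finset.mem_range.1 hx
    rw [if_pos (by omega)]
  have e3 : K.cfNL 0 k = -∑ i ∈ Finset.range 15, K.bmL k i := by simp [cfNL]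
  rw [e1, e2, e3, K.hhL_zero]
  ring

end Crit

end Pool.Agent.H93
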