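import Pool.Agent.Lib.H93.LowerTail2

/-!
Chunk D2: numerical tail bounds and the exact decomposition of the limiting form.
-/

namespace Pool.Agent.H93

open Filter Topology ComplexConjugate Low

namespace Crit

variable (K : Crit)

theorem norm_pjL_le (j : ℕ) : ‖K.pjL j‖ ≤ 0.5613 ^ (j + 1) / 0.4387 := by
  have hg := K.g_ne_zero
  have e : K.pjL j = K.tau j / K.ω := by
    unfold pjL
    rw [K.tjL_eq, K.tjL_eq, K.tau_zero]
    have hω := K.om_ne_zero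
    field_simp
  rw [e, norm_div, K.hω, div_one]
  refine (K.norm_tau_le j).trans ?_
  have h1 := K.r_lt
  have h2 := K.r_pos.le
  have h3 : (0.4387 : ℝ) ≤ 1 - K.r := by
    norm_num at h1 ⊢
    linarith
  gcongr

theorem pjL_tail (k : ℕ) : ‖K.pjL (k + 36)‖ ≤
    (0.5613 ^ 37 / 0.4387 / ek 36) * (0.5613 / 0.7) ^ k * ek (k + 36) := by
  refine (K.norm_pjL_le _).trans (le_of_eq ?_)
  rw [ek_add 36 k (by norm_num), div_pow]
  have h : ek 36 ≠ 0 := by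
    unfold ek
    positivity
  have e : (7 / 10 : ℝ) = 0.7 := by norm_num
  rw [e, show k + 36 + 1 = k + 37 by ring, pow_add]
  have h7 : (0.7 : ℝ) ^ k ≠ 0 := by positivity
  field_simp

theorem norm_lam0L_le (j : ℕ) : ‖K.lam0L j‖ ≤
    (0.39105 * j + 0.3119 * (j + 1)) * 0.5613 ^ j := by
  have h1 := K.r_lt.le
  have h2 := K.r_pos.le
  have h3 : ‖K.tjL j‖ ≤ 0.711 * 0.5613 ^ j := by
    refine (K.norm_tjL_le j).trans ?_
    gcongr
  have h4 : ‖K.tjL j - K.tjL (j + 1)‖ ≤ 0.3119 * 0.5613 ^ j := by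
    rw [K.tjL_sub, norm_div, norm_mul, K.norm_xs, mul_one, norm_pow, Complex.norm_real,
      Real.norm_of_nonneg h2]
    have h5 := K.g_norm_ge
    have h6 : K.r ^ (j + 1) / ‖K.g‖ ≤ 0.5613 ^ (j + 1) / 1.8 := by gcongr
    refine h6.trans ?_
    calc (0.5613 : ℝ) ^ (j + 1) / 1.8 = 0.5613 / 1.8 * 0.5613 ^ j := by ring
      _ ≤ 0.3119 * 0.5613 ^ j := by
        gcongr
        norm_num
  have e1 : ‖((11 / 20 : ℂ) * j)‖ = 11 / 20 * (j : ℝ) := by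
    rw [norm_mul, norm_div, Complex.norm_ofNat, Complex.norm_ofNat, Complex.norm_natCast]
  have e2 : ‖((j : ℂ) + 1)‖ = (j : ℝ) + 1 := by
    have : ((j : ℂ) + 1) = (((j : ℝ) + 1 : ℝ) : ℂ) := by push_cast; ring
    rw [this, Complex.norm_real, Real.norm_of_nonneg (by positivity)]
  unfold lam0L
  refine (norm_sub_le _ _).trans ?_
  rw [norm_mul, norm_mul ((j : ℂ) + 1), e1, e2]
  calc _ ≤ 11 / 20 * (j : ℝ) * (0.711 * 0.5613 ^ j) + ((j : ℝ) + 1) * (0.3119 * 0.5613 ^ j) := by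
        gcongr
    _ = _ := by ring

theorem lam0L_tail (k : ℕ) : ‖K.lam0L (k + 36)‖ ≤
    (25.63 * 0.5613 ^ 36 / ek 36) * (37 / 36 * 0.5613 / 0.7) ^ k * ek (k + 36) := by
  refine (K.norm_lam0L_le _).trans ?_
  rw [ek_add 36 k (by norm_num)]
  have h : ek 36 ≠ 0 := by
    unfold ek
    positivity
  have e : (7 / 10 : ℝ) = 0.7 := by norm_num
  have hb := one_add_mul_le_pow (a := (1 / 36 : ℝ)) (by norm_num) k
  have h2 : ((k + 36 : ℕ) : ℝ) ≤ 36 * (37 / 36) ^ k := by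
    push_cast
    norm_num at hb ⊢
    linarith
  have h3 : (1 : ℝ) ≤ (37 / 36) ^ k := one_le_pow₀ (by norm_num)
  have h4 : 0.39105 * ((k + 36 : ℕ) : ℝ) + 0.3119 * (((k + 36 : ℕ) : ℝ) + 1) ≤
      25.63 * (37 / 36) ^ k := by
    norm_num at h2 ⊢
    linarith
  calc _ ≤ (25.63 * (37 / 36) ^ k) * (0.5613 : ℝ) ^ (k + 36) := by gcongr
    _ = _ := by
      have e3 : (37 / 36 * 0.5613 / 0.7 : ℝ) ^ k = (37 / 36) ^ k * 0.5613 ^ k / 0.7 ^ k := by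
        rw [div_pow, mul_pow]
      rw [e, e3, pow_add]
      have h7 : (0.7 : ℝ) ^ k ≠ 0 := by positivity
      field_simp

theorem aL_sq_le {z : ℕ → ℂ} (hz : Bdd z) : ‖∑' k : ℕ, K.pjL (k + 36) * z (k + 36)‖ ^ 2 ≤
    7 / 10 ^ 7 * ∑' k : ℕ, ek (k + 36) ^ 2 * ‖z (k + 36)‖ ^ 2 := by
  have hs : Summable fun k : ℕ => K.pjL (k + 36) * z (k + 36) := by
    have h1 : Summable fun j : ℕ => K.tjL j * z j := by simpa using K.summable_tauL hz 0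
    have h2 := ((summable_nat_add_iff 36).2 h1).mul_left (-1 / K.tjL 0)
    refine h2.congr fun k => ?_
    unfold pjL
    ring
  have h := tail_cs (f := fun k => K.pjL (k + 36)) (z := fun k => z (k + 36))
    (E := fun k => ek (k + 36)) (by norm_num) (by norm_num) K.pjL_tail
    (summable_ek_bdd hz 36 (by norm_num)) hs
  refine h.trans (mul_le_mul_of_nonneg_right ?_ (tsum_nonneg fun k => by positivity))
  unfold ek
  norm_num

theorem lamL_sq_le {z : ℕ → ℂ} (hz : Bdd z) : ‖∑' k : ℕ, K.lam0L (k + 36) * z (k + 36)‖ ^ 2 ≤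
    29 / 10 ^ 5 * ∑' k : ℕ, ek (k + 36) ^ 2 * ‖z (k + 36)‖ ^ 2 := by
  have hs : Summable fun k : ℕ => K.lam0L (k + 36) * z (k + 36) :=
    (summable_nat_add_iff 36).2 (K.summable_lam0L hz)
  have h := tail_cs (f := fun k => K.lam0L (k + 36)) (z := fun k => z (k + 36))
    (E := fun k => ek (k + 36)) (by norm_num) (by norm_num) K.lam0L_tail
    (summable_ek_bdd hz 36 (by norm_num)) hs
  refine h.trans (mul_le_mul_of_nonneg_right ?_ (tsum_nonneg fun k => by positivity))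
  unfold ek
  norm_num

theorem norm_lam0L_zero : ‖K.lam0L 0‖ ≤ 0.3119 := by
  have := K.norm_lam0L_le 0
  norm_num at this ⊢
  exact this

/-- total linear error -/
theorem linL_sq_le {z : ℕ → ℂ} (hz : Bdd z) :
    ‖K.lam0L 0 * ∑' k : ℕ, K.pjL (k + 36) * z (k + 36) +
      ∑' k : ℕ, K.lam0L (k + 36) * z (k + 36)‖ ^ 2 ≤
    31 / 10 ^ 5 * ∑' k : ℕ, ek (k + 36) ^ 2 * ‖z (k + 36)‖ ^ 2 := by
  have h1 := K.aL_sq_le hz
  have h2 := K.lamL_sq_le hz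
  have h3 := K.norm_lam0L_zero
  set T := ∑' k : ℕ, ek (k + 36) ^ 2 * ‖z (k + 36)‖ ^ 2
  set A := ∑' k : ℕ, K.pjL (k + 36) * z (k + 36)
  set B := ∑' k : ℕ, K.lam0L (k + 36) * z (k + 36)
  have hT : 0 ≤ T := tsum_nonneg fun k => by positivity
  have h4 : ‖K.lam0L 0 * A + B‖ ≤ 0.3119 * ‖A‖ + ‖B‖ := by
    refine (norm_add_le _ _).trans ?_
    rw [norm_mul]
    gcongr
  have h5 : ‖K.lam0L 0 * A + B‖ ^ 2 ≤ (0.3119 * ‖A‖ + ‖B‖) ^ 2 := by gcongr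
  have h6 : (0.3119 * ‖A‖ + ‖B‖) ^ 2 ≤ 21 * (0.3119 * ‖A‖) ^ 2 + 21 / 20 * ‖B‖ ^ 2 := by
    nlinarith [sq_nonneg (20 * (0.3119 * ‖A‖) - ‖B‖)]
  have h7 : (0.3119 * ‖A‖) ^ 2 = 0.3119 ^ 2 * ‖A‖ ^ 2 := by ring
  rw [h7] at h6
  norm_num at h1 h2 h6 ⊢
  linarith

theorem summable_TP (ς : ℂ) {y : ℕ → ℂ} (hy : Bdd y) :
    Summable fun k : ℕ => ek (k + 16) ^ 2 *
      ‖y (k + 16) + Complex.I * (11 / 20) * ς * K.v1 (k + 16)‖ ^ 2 := by
  have h1 := (summable_ek_bdd hy 16 le_rfl).mul_left 2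
  have h2 := (summable_ek_sq_mul 16 le_rfl).mul_left (2 * ‖ς‖ ^ 2)
  refine Summable.of_nonneg_of_le (fun k => by positivity) (fun k => ?_) (h1.add h2)
  have h3 : ‖K.v1 (k + 16)‖ ≤ ((k + 16 : ℕ) : ℝ) := by
    unfold v1
    rw [norm_mul, K.norm_xs, mul_one]
    have e : (((k + 16 : ℕ) : ℂ) - K.k1) = ((((k + 16 : ℕ) : ℝ) - K.k1 : ℝ) : ℂ) := by push_cast; ring
    have h4 := K.k1_pos
    have h5 := K.k1_le
    have h6 : (1 : ℝ) ≤ ((k + 16 : ℕ) : ℝ) := by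
      push_cast
      have : (0 : ℝ) ≤ k := Nat.cast_nonneg k
      linarith
    rw [e, Complex.norm_real, Real.norm_of_nonneg (by linarith)]
    linarith
  have h4 : ‖Complex.I * (11 / 20) * ς * K.v1 (k + 16)‖ ≤ ‖ς‖ * ((k + 16 : ℕ) : ℝ) := by
    rw [norm_mul, norm_mul, norm_mul, Complex.norm_I, one_mul, norm_div, Complex.norm_ofNat,
      Complex.norm_ofNat]
    have : (11 / 20 : ℝ) * ‖ς‖ ≤ ‖ς‖ := by
      have := norm_nonneg ς
      linarith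
    gcongr
  have h5 : ‖y (k + 16) + Complex.I * (11 / 20) * ς * K.v1 (k + 16)‖ ^ 2 ≤
      2 * ‖y (k + 16)‖ ^ 2 + 2 * (‖ς‖ * ((k + 16 : ℕ) : ℝ)) ^ 2 := by
    have h6 := norm_add_le (y (k + 16)) (Complex.I * (11 / 20) * ς * K.v1 (k + 16))
    have h7 : ‖y (k + 16) + Complex.I * (11 / 20) * ς * K.v1 (k + 16)‖ ^ 2 ≤
        (‖y (k + 16)‖ + ‖ς‖ * ((k + 16 : ℕ) : ℝ)) ^ 2 := by
      apply pow_le_pow_left₀ (norm_nonneg _)
      linarith
    nlinarith [sq_nonneg (‖y (k + 16)‖ - ‖ς‖ * ((k + 16 : ℕ) : ℝ))]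
  calc _ ≤ ek (k + 16) ^ 2 * (2 * ‖y (k + 16)‖ ^ 2 + 2 * (‖ς‖ * ((k + 16 : ℕ) : ℝ)) ^ 2) := by
        gcongr
    _ = _ := by ring

/-- the part `k ≥ 16` -/
theorem TP_sub_TN (ς : ℂ) {y : ℕ → ℂ} (hy : Bdd y) :
    ∑' k : ℕ, ek (k + 16) ^ 2 * ‖y (k + 16) + Complex.I * (11 / 20) * ς * K.v1 (k + 16)‖ ^ 2 -
    ∑' k : ℕ, ek (k + 16) ^ 2 * ‖K.A 1 y (k + 16) - Complex.I * K.ω * ς * K.xs (k + 16)‖ ^ 2 =
    ∑ k ∈ Finset.range 20, dT K.k1 (Complex.I * ς) (K.zzL y) (k + 16) -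
      1 / 102400 * ‖K.zzL y 15 - Complex.I * ς‖ ^ 2 +
    ∑' k : ℕ, dT K.k1 (Complex.I * ς) (K.zzL y) (k + 36) := by
  have hz := K.bdd_zzL hy
  have hP := K.summable_TP ς hy
  have hN0 : Bdd fun j => K.zzL y j - Complex.I * ς := by
    obtain ⟨C, hC⟩ := hz
    exact ⟨C + ‖Complex.I * ς‖, fun j => (norm_sub_le _ _).trans (by gcongr; exact hC j)⟩
  have hN : Summable fun k : ℕ => ek (k + 17) ^ 2 * ‖K.zzL y (k + 16) - Complex.I * ς‖ ^ 2 := by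
    have h := (summable_ek_bdd hN0 16 le_rfl).mul_left (49 / 100)
    refine h.congr fun k => ?_
    have e2 : ek (k + 17) ^ 2 = 49 / 100 * ek (k + 16) ^ 2 := by
      have h1 := ek_add (k + 16) 1 (by omega)
      rw [show 1 + (k + 16) = k + 17 by ring] at h1
      rw [h1, pow_one, mul_pow]
      norm_num
      ring
    rw [e2]
    ring
  have e1 : ∑' k : ℕ, ek (k + 16) ^ 2 *
      ‖K.A 1 y (k + 16) - Complex.I * K.ω * ς * K.xs (k + 16)‖ ^ 2 =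
      1 / 102400 * ‖K.zzL y 15 - Complex.I * ς‖ ^ 2 +
      ∑' k : ℕ, ek (k + 17) ^ 2 * ‖K.zzL y (k + 16) - Complex.I * ς‖ ^ 2 := by
    have h0 : ∀ k : ℕ, ek (k + 16) ^ 2 *
        ‖K.A 1 y (k + 16) - Complex.I * K.ω * ς * K.xs (k + 16)‖ ^ 2 =
        ek (k + 16) ^ 2 * ‖K.zzL y (k + 15) - Complex.I * ς‖ ^ 2 := by
      intro k
      rw [show k + 16 = (k + 15) + 1 by ring, K.tailNL]
    simp only [h0]
    have h1 : Summable fun k : ℕ => ek (k + 16) ^ 2 * ‖K.zzL y (k + 15) - Complex.I * ς‖ ^ 2 :=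
      (summable_nat_add_iff 1).1 hN
    rw [h1.tsum_eq_zero_add]
    congr 1
    have : ek (0 + 16) ^ 2 = 1 / 102400 := by
      unfold ek
      norm_num
    rw [this]
  have e2 : ∑' k : ℕ, ek (k + 16) ^ 2 *
      ‖y (k + 16) + Complex.I * (11 / 20) * ς * K.v1 (k + 16)‖ ^ 2 -
      ∑' k : ℕ, ek (k + 17) ^ 2 * ‖K.zzL y (k + 16) - Complex.I * ς‖ ^ 2 =
      ∑' k : ℕ, dT K.k1 (Complex.I * ς) (K.zzL y) (k + 16) := by
    rw [← hP.tsum_sub hN]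
    refine tsum_congr fun k => ?_
    unfold dT
    rw [K.tailPL]
  have hD : Summable fun k : ℕ => dT K.k1 (Complex.I * ς) (K.zzL y) (k + 16) := by
    refine (hP.sub hN).congr fun k => ?_
    unfold dT
    rw [K.tailPL]
  have e3 : ∑' k : ℕ, dT K.k1 (Complex.I * ς) (K.zzL y) (k + 16) =
      ∑ k ∈ Finset.range 20, dT K.k1 (Complex.I * ς) (K.zzL y) (k + 16) +
      ∑' k : ℕ, dT K.k1 (Complex.I * ς) (K.zzL y) (k + 36) :=
    (hD.sum_add_tsum_nat_add 20).symm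
  rw [e1]
  linarith

/-- the tail of the diagonal part -/
theorem dT_tail_ge (ς : ℂ) {y : ℕ → ℂ} (hy : Bdd y) :
    1 / 2 * ∑' k : ℕ, ek (k + 36) ^ 2 * ‖K.zzL y (k + 36)‖ ^ 2 - 1 / 10 ^ 6 * ‖ς‖ ^ 2 ≤
      ∑' k : ℕ, dT K.k1 (Complex.I * ς) (K.zzL y) (k + 36) := by
  have hz := K.bdd_zzL hy
  have hk := abs_le.1 K.k1_near
  have hk1 : (0.853 : ℝ) ≤ K.k1 := by
    norm_num at hk ⊢
    linarith [hk.1]
  have h1 := (summable_ek_bdd hz 36 (by norm_num)).mul_left (1 / 2)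
  have h2 := (summable_ek_sq_mul 36 (by norm_num)).mul_left (31 * ‖Complex.I * ς‖ ^ 2)
  have hP := K.summable_TP ς hy
  have hN0 : Bdd fun j => K.zzL y j - Complex.I * ς := by
    obtain ⟨C, hC⟩ := hz
    exact ⟨C + ‖Complex.I * ς‖, fun j => (norm_sub_le _ _).trans (by gcongr; exact hC j)⟩
  have hD : Summable fun k : ℕ => dT K.k1 (Complex.I * ς) (K.zzL y) (k + 36) := by
    have hP' := (summable_nat_add_iff 20).2 hP
    have hN' := (summable_ek_bdd hN0 36 (by norm_num)).mul_left (49 / 100)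
    refine (hP'.sub hN').congr fun k => ?_
    unfold dT
    have e2 : ek (k + 36 + 1) ^ 2 = 49 / 100 * ek (k + 36) ^ 2 := by
      have h1 := ek_add (k + 36) 1 (by omega)
      rw [show 1 + (k + 36) = k + 36 + 1 by ring] at h1
      rw [h1, pow_one, mul_pow]
      norm_num
      ring
    rw [e2, show k + 20 + 16 = k + 36 by ring, K.tailPL]
    ring
  have h3 := (h1.sub h2).tsum_le_tsum (fun k => dT_ge hk1 K.k1_le (Complex.I * ς) (K.zzL y)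
    (show 36 ≤ k + 36 by omega)) hD
  rw [h1.tsum_sub h2, tsum_mul_left, tsum_mul_left] at h3
  have h4 := tsum_ek_sq_mul_le
  have h5 : ‖Complex.I * ς‖ = ‖ς‖ := by rw [norm_mul, Complex.norm_I, one_mul]
  rw [h5] at h3
  have h6 : 31 * ‖ς‖ ^ 2 * ∑' k : ℕ, ek (k + 36) ^ 2 * ((k + 36 : ℕ) : ℝ) ^ 2 ≤
      31 * ‖ς‖ ^ 2 * (3 / 10 ^ 8) := by gcongr
  have h7 : 31 * ‖ς‖ ^ 2 * (3 / 10 ^ 8) ≤ 1 / 10 ^ 6 * ‖ς‖ ^ 2 := by
    have := sq_nonneg ‖ς‖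
    norm_num
    linarith
  linarith

end Crit

end Pool.Agent.H93
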