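import Pool.Agent.Lib.H93.WordDefs
import Pool.Agent.Lib.H93.Local
import Pool.Agent.Lib.H93.Tables
import Pool.Agent.Lib.H93.NumRRT

/-!
Chunk G2c: truncation estimates.

All forms are squared `ℓ²` norms of linear functionals `lam b x k`, so Minkowski's inequality holds:
`√(∑_{k<n} |lam b (x+x') k|²) ≤ √(∑_{k<n} |lam b x k|²) + √(∑_{k<n} |lam b x' k|²)`.

`tA`: for `x ∈ C` and a column with form `0`: `x = trunc m x + x''` with `s(x'') = δ`,
`|δ| ≤ .711 r^m/(1-r) X ≤ 1.82 r^m`; for `k < m`, `lam 0 x'' k = δ · lam 0 (e_0-like) k`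
precisely `lam 0 x'' 0 = δ`, `lam 0 x'' k = -δ ρ(x*)_k`, of norm `≤ κ |δ|`, `κ² = 1 + RRT x* ≤ 1.32`;
for `m ≤ k < 40`, `lam 0 (trunc m x) k = - e_k s(trunc m x) x*_k`. Hence
`NT 0 m x ≤ (1 + κ|δ|)² + (1+|δ|)² ∑_{k ≥ m} e_k²`. Forms `b ≥ 1` only see the first 16 coordinates.

`tB`: `A ζ x = A ζ (trunc m x)|_{<m} + t e_0 + (coordinates ≥ m)`, `|t| ≤ r^{m+1}/(1-r) X ≤ 1.44 r^m`,
so `√(∑_{k<m}|lam 0 (A ζ x) k|²) ≤ √V + |t| √N_0(e_0) + κ|δ|` and
`∑_{k ≥ m} e_k² |y_k(A ζ x)|² ≤ (X+|s|)² ∑_{k≥m} e_k²`, `|s(A ζ x)| ≤ 0.711 X/(1-r) ≤ 1.82`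
(or better `|s| ≤ 1.001` from the first estimate).
-/

namespace Pool.Agent.H93

open Filter Topology ComplexConjugate

noncomputable def tA (m : ℕ) : ℝ := 4.3 * (0.5613 : ℝ) ^ m + 2e-5 * (0.49 : ℝ) ^ (m - 16)

noncomputable def tB (b m : ℕ) : ℝ :=
  if b = 0 then 6.3 * (0.5613 : ℝ) ^ m + 1e-4 * (0.49 : ℝ) ^ (m - 16)
  else 2.05 * (0.5613 : ℝ) ^ m

/-- Minkowski, squared form -/
theorem mink {ι : Type*} (S : Finset ι) (f g : ι → ℂ) {a b : ℝ} (ha : 0 ≤ a) (hb : 0 ≤ b)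
    (hf : ∑ i ∈ S, ‖f i‖ ^ 2 ≤ a ^ 2) (hg : ∑ i ∈ S, ‖g i‖ ^ 2 ≤ b ^ 2) :
    ∑ i ∈ S, ‖f i + g i‖ ^ 2 ≤ (a + b) ^ 2 := by
  have h1 : (∑ i ∈ S, ‖f i‖ * ‖g i‖) ^ 2 ≤ (a * b) ^ 2 := by
    refine (Finset.sum_mul_sq_le_sq_mul_sq S _ _).trans ?_
    rw [mul_pow]
    exact mul_le_mul hf hg (Finset.sum_nonneg fun _ _ => sq_nonneg _) (sq_nonneg _)
  have h2 : ∑ i ∈ S, ‖f i‖ * ‖g i‖ ≤ a * b :=
    (abs_le_of_sq_le_sq' h1 (mul_nonneg ha hb)).2
  calc ∑ i ∈ S, ‖f i + g i‖ ^ 2 ≤ ∑ i ∈ S, (‖f i‖ ^ 2 + 2 * (‖f i‖ * ‖g i‖) + ‖g i‖ ^ 2) := by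
        apply Finset.sum_le_sum
        intro i _
        have := pow_le_pow_left₀ (norm_nonneg _) (norm_add_le (f i) (g i)) 2
        refine this.trans (le_of_eq ?_)
        ring
    _ = ∑ i ∈ S, ‖f i‖ ^ 2 + 2 * ∑ i ∈ S, ‖f i‖ * ‖g i‖ + ∑ i ∈ S, ‖g i‖ ^ 2 := by
        rw [Finset.sum_add_distrib, Finset.sum_add_distrib, ← Finset.mul_sum]
    _ ≤ a ^ 2 + 2 * (a * b) + b ^ 2 := by linarith
    _ = (a + b) ^ 2 := by ring

theorem ek_nonneg (k : ℕ) : 0 ≤ ek k := by unfold ek; positivity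

/-- the tail of the weights -/
theorem hasSum_ek {m : ℕ} (hm : 16 ≤ m) :
    HasSum (fun k => ek (k + m) ^ 2) ((1 / 320) ^ 2 * (0.49 : ℝ) ^ (m - 16) / 0.51) := by
  have h := (hasSum_geometric_of_lt_one (show (0 : ℝ) ≤ 0.49 by norm_num)
    (by norm_num)).mul_left ((1 / 320) ^ 2 * (0.49 : ℝ) ^ (m - 16))
  have e1 : (fun k => ek (k + m) ^ 2)
      = fun k => ((1 / 320) ^ 2 * (0.49 : ℝ) ^ (m - 16)) * (0.49 : ℝ) ^ k := by
    funext k
    unfold ek
    rw [show k + m - 16 = (m - 16) + k by omega, pow_add, mul_pow, mul_pow, ← pow_mul, ← pow_mul,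
      mul_comm (m - 16) 2, mul_comm k 2, pow_mul, pow_mul]
    norm_num
    ring
  rw [e1]
  have e2 : (1 / 320) ^ 2 * (0.49 : ℝ) ^ (m - 16) / 0.51
      = ((1 / 320) ^ 2 * (0.49 : ℝ) ^ (m - 16)) * (1 - 0.49)⁻¹ := by
    rw [div_eq_mul_inv]; norm_num
  rw [e2]
  exact h

theorem tsum_ek_le {m : ℕ} (hm : 16 ≤ m) :
    ∑' k, ek (k + m) ^ 2 ≤ 1.915e-5 * (0.49 : ℝ) ^ (m - 16) := by
  rw [(hasSum_ek hm).tsum_eq]
  have : 0 ≤ (0.49 : ℝ) ^ (m - 16) := by positivity
  have e : (1 / 320) ^ 2 * (0.49 : ℝ) ^ (m - 16) / 0.51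
    = ((1 / 320) ^ 2 / 0.51) * (0.49 : ℝ) ^ (m - 16) := by ring
  rw [e]
  apply mul_le_mul_of_nonneg_right _ this
  norm_num

theorem summable_rhoT {v : ℕ → ℂ} (hv : Bdd v) : Summable fun k => ‖rhoT v k‖ ^ 2 := by
  obtain ⟨C, hC⟩ := hv
  rw [← summable_nat_add_iff 16]
  refine Summable.of_nonneg_of_le (fun k => sq_nonneg _) (fun k => ?_)
    (((hasSum_ek (le_refl 16)).summable).mul_right (C ^ 2))
  unfold rhoT
  rw [if_neg (by omega), if_neg (by omega), norm_mul, mul_pow, Complex.norm_real,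
    Real.norm_of_nonneg (ek_nonneg _)]
  exact mul_le_mul_of_nonneg_left (pow_le_pow_left₀ (norm_nonneg _) (hC _) 2) (sq_nonneg _)

namespace Crit

variable (K : Crit)

/-- numerical fact on the data (value 0.3105) -/
theorem RRT_xs_le : RRT K.xs ≤ 0.32 := by
  have hs := summable_rhoT K.bdd_xs
  have e1 : RRT K.xs = ∑ k ∈ Finset.range 16, ‖rhoT K.xs k‖ ^ 2
      + ∑' k, ‖rhoT K.xs (k + 16)‖ ^ 2 := (hs.sum_add_tsum_nat_add 16).symm
  have e2 : ∑ k ∈ Finset.range 16, ‖rhoT K.xs k‖ ^ 2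
      = ∑ k ∈ Finset.range 15, ‖∑ i ∈ Finset.range 15, LR k i * K.xs (i + 1)‖ ^ 2 := by
    rw [Finset.sum_range_succ']
    have h0 : ‖rhoT K.xs 0‖ ^ 2 = 0 := by simp [rhoT]
    rw [h0, add_zero]
    apply Finset.sum_congr rfl
    intro k hk
    rw [Finset.mem_range] at hk
    unfold rhoT
    rw [if_neg (by omega), if_pos (by omega), Nat.add_sub_cancel]
  have h1 : ∑ k ∈ Finset.range 15, ‖∑ i ∈ Finset.range 15, LR k i * K.xs (i + 1)‖ ^ 2
      ≤ (0.5575 + 1e-11) ^ 2 := by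
    have e : ∀ k ∈ Finset.range 15, ‖∑ i ∈ Finset.range 15, LR k i * K.xs (i + 1)‖ ^ 2
        = ‖NumR.fX k + ((∑ i ∈ Finset.range 15, LR k i * K.xs (i + 1)) - NumR.fX k)‖ ^ 2 := by
      intro k _
      rw [add_sub_cancel]
    rw [Finset.sum_congr rfl e]
    apply mink _ _ _ (by norm_num) (by norm_num)
    · exact NumR.sum_fX.trans (by norm_num)
    · have h : ∀ k ∈ Finset.range 15,
          ‖(∑ i ∈ Finset.range 15, LR k i * K.xs (i + 1)) - NumR.fX k‖ ^ 2
            ≤ (15 * 1e-14) ^ 2 := fun k hk =>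
        pow_le_pow_left₀ (norm_nonneg _) (NumR.fX_err K (Finset.mem_range.1 hk)) 2
      refine (Finset.sum_le_sum h).trans ?_
      rw [Finset.sum_const, Finset.card_range, nsmul_eq_mul]
      norm_num
  have h2 : ∑' k, ‖rhoT K.xs (k + 16)‖ ^ 2 ≤ 1.915e-5 := by
    have e : ∀ k, ‖rhoT K.xs (k + 16)‖ ^ 2 = ek (k + 16) ^ 2 := by
      intro k
      unfold rhoT
      rw [if_neg (by omega), if_neg (by omega), norm_mul, K.norm_xs, mul_one, Complex.norm_real,
        Real.norm_of_nonneg (ek_nonneg _)]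
    simp only [e]
    have := tsum_ek_le (le_refl 16)
    simpa using this
  rw [e1, e2]
  refine (add_le_add h1 h2).trans ?_
  norm_num

/-- numerical fact on the data (values 0.4608, 0.3840, 0.3938, 0.4672) -/
theorem LB_zero_le (b : ℕ) (hb1 : 1 ≤ b) (hb : b < 5) :
    ∑ k ∈ Finset.range 16, ‖LB b k 0‖ ^ 2 ≤ 0.48 := NumR.LB_zero_le b hb1 hb

/-- positivity and uniform boundedness needed by the abstract induction -/
theorem N_nonneg (b : Fin 5) (x : ℕ → ℂ) : 0 ≤ K.N b x :=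
  tsum_nonneg fun _ => sq_nonneg _

/-! ### the functional `s` -/

theorem s_tail {x : ℕ → ℂ} {M : ℝ} (hM : ∀ j, ‖x j‖ ≤ M) {m : ℕ} (hz : ∀ j, j < m → x j = 0) :
    ‖K.s x‖ ≤ 1.6208 * K.r ^ m * M := by
  have hM0 : 0 ≤ M := (norm_nonneg _).trans (hM 0)
  have hr0 := K.r_pos
  have hr1 := K.r_lt_one
  have hs : Summable fun j => K.cc j * x j := K.summable_cc ⟨M, hM⟩
  have e : K.s x = ∑' j, K.cc (j + m) * x (j + m) := by
    unfold Crit.s
    rw [← hs.sum_add_tsum_nat_add m]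
    rw [Finset.sum_eq_zero, zero_add]
    intro j hj
    rw [hz j (Finset.mem_range.1 hj), mul_zero]
  have hg : HasSum (fun j : ℕ => 0.711 * K.r ^ m * M * K.r ^ j)
      (0.711 * K.r ^ m * M * (1 - K.r)⁻¹) :=
    (hasSum_geometric_of_lt_one hr0.le hr1).mul_left _
  rw [e]
  refine (tsum_of_norm_bounded hg fun j => ?_).trans ?_
  · rw [norm_mul]
    calc ‖K.cc (j + m)‖ * ‖x (j + m)‖ ≤ (0.711 * K.r ^ (j + m)) * M :=
          mul_le_mul (K.norm_cc_le _) (hM _) (norm_nonneg _) (by positivity)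
      _ = _ := by rw [pow_add]; ring
  · have h1 : (1 - K.r)⁻¹ ≤ (1 - 0.5613 : ℝ)⁻¹ := by
      apply inv_anti₀ (by norm_num)
      linarith [K.r_lt]
    calc 0.711 * K.r ^ m * M * (1 - K.r)⁻¹ ≤ 0.711 * K.r ^ m * M * (1 - 0.5613 : ℝ)⁻¹ :=
          mul_le_mul_of_nonneg_left h1 (by positivity)
      _ = (0.711 * (1 - 0.5613 : ℝ)⁻¹) * (K.r ^ m * M) := by ring
      _ ≤ 1.6208 * (K.r ^ m * M) := by
          apply mul_le_mul_of_nonneg_right _ (by positivity)
          norm_num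
      _ = _ := by ring

theorem s_le {x : ℕ → ℂ} {M : ℝ} (hM : ∀ j, ‖x j‖ ≤ M) : ‖K.s x‖ ≤ 1.6208 * M := by
  have := K.s_tail hM (m := 0) (by intro j hj; omega)
  simpa using this

theorem y_le {x : ℕ → ℂ} {M : ℝ} (hM : ∀ j, ‖x j‖ ≤ M) (j : ℕ) : ‖K.y x j‖ ≤ 2.6208 * M := by
  unfold Crit.y
  refine (norm_sub_le _ _).trans ?_
  rw [norm_mul, K.norm_xs, mul_one]
  have h1 := K.s_le hM
  have h2 := hM j
  linarith

theorem lam_zero_zero (x : ℕ → ℂ) : K.lam 0 x 0 = K.s x := by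
  simp [Crit.lam]

theorem lam_zero_pos (x : ℕ → ℂ) {k : ℕ} (hk : 1 ≤ k) : K.lam 0 x k = rhoT (K.y x) k := by
  unfold Crit.lam rhoT
  have h0 : k ≠ 0 := by omega
  rw [if_pos rfl, if_neg h0, if_neg h0]

theorem lam_ge {b : ℕ} (hb : b ≠ 0) (x : ℕ → ℂ) {k : ℕ} (hk : 16 ≤ k) : K.lam b x k = 0 := by
  unfold Crit.lam
  rw [if_neg hb, if_neg (by omega)]

theorem y_add {x x' : ℕ → ℂ} (hx : Bdd x) (hx' : Bdd x') (j : ℕ) :
    K.y (fun j => x j + x' j) j = K.y x j + K.y x' j := by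
  unfold Crit.y
  rw [K.s_add hx hx']; ring

theorem y_smul (c : ℂ) (x : ℕ → ℂ) (j : ℕ) : K.y (fun j => c * x j) j = c * K.y x j := by
  unfold Crit.y
  rw [K.s_smul]; ring

theorem lam_add (b : ℕ) {x x' : ℕ → ℂ} (hx : Bdd x) (hx' : Bdd x') (k : ℕ) :
    K.lam b (fun j => x j + x' j) k = K.lam b x k + K.lam b x' k := by
  unfold Crit.lam
  split_ifs
  · exact K.s_add hx hx'
  · rw [← Finset.sum_add_distrib]
    apply Finset.sum_congr rfl
    intro i _
    rw [K.y_add hx hx']; ring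
  · rw [K.y_add hx hx']; ring
  · rw [← Finset.sum_add_distrib]
    apply Finset.sum_congr rfl
    intro i _
    ring
  · simp

theorem lam_smul (b : ℕ) (c : ℂ) (x : ℕ → ℂ) (k : ℕ) :
    K.lam b (fun j => c * x j) k = c * K.lam b x k := by
  unfold Crit.lam
  split_ifs
  · exact K.s_smul c x
  · rw [Finset.mul_sum]
    apply Finset.sum_congr rfl
    intro i _
    rw [K.y_smul]; ring
  · rw [K.y_smul]; ring
  · rw [Finset.mul_sum]
    apply Finset.sum_congr rfl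
    intro i _
    ring
  · simp

/-- coefficient bounds -/
noncomputable def cb (b k : ℕ) : ℝ :=
  if b = 0 then
    if k = 0 then 1.6208
    else if k < 16 then ∑ i ∈ Finset.range 15, ‖LR (k - 1) i‖ * 2.6208
    else ek k * 2.6208
  else if k < 16 then ∑ i ∈ Finset.range 16, ‖LB b k i‖ else 0

theorem lam_le (b : ℕ) {x : ℕ → ℂ} {M : ℝ} (hM : ∀ j, ‖x j‖ ≤ M) (k : ℕ) :
    ‖K.lam b x k‖ ≤ cb b k * M := by
  unfold Crit.lam cb
  split_ifs
  · exact K.s_le hM
  · rw [Finset.sum_mul]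
    refine (norm_sum_le _ _).trans (Finset.sum_le_sum fun i _ => ?_)
    rw [norm_mul, mul_assoc]
    exact mul_le_mul_of_nonneg_left (K.y_le hM _) (norm_nonneg _)
  · rw [norm_mul, Complex.norm_real, Real.norm_of_nonneg (ek_nonneg _), mul_assoc]
    exact mul_le_mul_of_nonneg_left (K.y_le hM _) (ek_nonneg _)
  · rw [Finset.sum_mul]
    refine (norm_sum_le _ _).trans (Finset.sum_le_sum fun i _ => ?_)
    rw [norm_mul]
    exact mul_le_mul_of_nonneg_left (hM _) (norm_nonneg _)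
  · simp

theorem summable_cb (b : ℕ) : Summable fun k => cb b k ^ 2 := by
  rw [← summable_nat_add_iff 16]
  by_cases hb : b = 0
  · subst hb
    refine (((hasSum_ek (le_refl 16)).summable).mul_right (2.6208 ^ 2)).congr fun k => ?_
    unfold cb
    rw [if_pos rfl, if_neg (by omega), if_neg (by omega)]; ring
  · refine summable_zero.congr fun k => ?_
    unfold cb
    rw [if_neg hb, if_neg (by omega)]; simp

theorem summable_lam (b : ℕ) {x : ℕ → ℂ} (hx : Bdd x) : Summable fun k => ‖K.lam b x k‖ ^ 2 := by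
  obtain ⟨C, hC⟩ := hx
  refine Summable.of_nonneg_of_le (fun k => sq_nonneg _) (fun k => ?_)
    ((summable_cb b).mul_right (C ^ 2))
  rw [← mul_pow]
  exact pow_le_pow_left₀ (norm_nonneg _) (K.lam_le b hC k) 2

theorem N_bdd (b : Fin 5) : ∃ C : ℝ, ∀ (x : ℕ → ℂ) (M : ℝ), (∀ j, ‖x j‖ ≤ M) →
    K.N b x ≤ C * M ^ 2 := by
  refine ⟨∑' k, cb b k ^ 2, fun x M hM => ?_⟩
  unfold Crit.N
  rw [← tsum_mul_right]
  apply Summable.tsum_le_tsum _ (K.summable_lam b ⟨M, hM⟩) ((summable_cb b).mul_right _)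
  intro k
  rw [← mul_pow]
  exact pow_le_pow_left₀ (norm_nonneg _) (K.lam_le b hM k) 2

theorem N_scale (b : Fin 5) (c : ℂ) (x : ℕ → ℂ) (_hx : Bdd x) :
    K.N b (fun j => c * x j) = ‖c‖ ^ 2 * K.N b x := by
  unfold Crit.N
  rw [← tsum_mul_left]
  congr 1
  funext k
  rw [K.lam_smul, norm_mul, mul_pow]

/-- the first unit vector -/
noncomputable def e0 : ℕ → ℂ := fun j => if j = 0 then 1 else 0

theorem bdd_e0 : Bdd e0 := ⟨1, fun j => by unfold e0; split_ifs <;> simp⟩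

/-- the form is a quadratic function of the coordinate `0`, with leading coefficient
`γ_b = N_b(e_0)`; `γ_0 ≤ 0.41`, `γ_b ≤ 0.48`. -/
noncomputable def gam (b : Fin 5) : ℝ := K.N b (fun j => if j = 0 then 1 else 0)

theorem N_quad (b : Fin 5) (x : ℕ → ℂ) (hx : Bdd x) : ∃ (α : ℝ) (β : ℂ), ∀ t : ℂ,
    K.N b (Function.update x 0 t) = K.gam b * ‖t‖ ^ 2 + 2 * (conj β * t).re + α := by
  set x0 : ℕ → ℂ := Function.update x 0 0 with hx0
  have hx0b : Bdd x0 := by
    obtain ⟨C, hC⟩ := hx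
    refine ⟨C, fun j => ?_⟩
    cases j with
    | zero =>
      rw [hx0, Function.update_self, norm_zero]
      exact (norm_nonneg _).trans (hC 0)
    | succ j =>
      rw [hx0, Function.update_of_ne (by omega)]
      exact hC _
  have hs1 := K.summable_lam b hx0b
  have hs2 := K.summable_lam b bdd_e0
  have hs3 : Summable fun k => conj (K.lam b x0 k) * K.lam b e0 k := by
    refine Summable.of_norm_bounded (hs1.add hs2) (fun k => ?_)
    rw [norm_mul, RCLike.norm_conj]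
    nlinarith [sq_nonneg (‖K.lam b x0 k‖ - ‖K.lam b e0 k‖), sq_nonneg ‖K.lam b x0 k‖,
      sq_nonneg ‖K.lam b e0 k‖]
  refine ⟨K.N b x0, conj (∑' k, conj (K.lam b x0 k) * K.lam b e0 k), fun t => ?_⟩
  rw [Complex.conj_conj]
  have e1 : Function.update x 0 t = fun j => x0 j + t * e0 j := by
    funext j
    cases j with
    | zero => simp [hx0, e0]
    | succ j => simp [hx0, e0]
  have hte : Bdd (fun j => t * e0 j) := by
    obtain ⟨C, hC⟩ := bdd_e0
    exact ⟨‖t‖ * C, fun j => by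
      rw [norm_mul]; exact mul_le_mul_of_nonneg_left (hC j) (norm_nonneg _)⟩
  have e2 : ∀ k, ‖K.lam b (Function.update x 0 t) k‖ ^ 2
      = ‖K.lam b e0 k‖ ^ 2 * ‖t‖ ^ 2 + (2 * ((conj (K.lam b x0 k) * K.lam b e0 k) * t).re
        + ‖K.lam b x0 k‖ ^ 2) := by
    intro k
    rw [e1, K.lam_add b hx0b hte, K.lam_smul]
    rw [Complex.sq_norm, Complex.sq_norm, Complex.sq_norm, Complex.sq_norm]
    simp only [Complex.normSq_apply, Complex.add_re, Complex.add_im, Complex.mul_re,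
      Complex.mul_im, Complex.conj_re, Complex.conj_im]
    ring
  have hs4 : HasSum (fun k => ((conj (K.lam b x0 k) * K.lam b e0 k) * t).re)
      (((∑' k, conj (K.lam b x0 k) * K.lam b e0 k) * t).re) :=
    Complex.hasSum_re (hs3.hasSum.mul_right t)
  have hs5 : HasSum (fun k => ‖K.lam b (Function.update x 0 t) k‖ ^ 2)
      (K.N b e0 * ‖t‖ ^ 2 + (2 * ((∑' k, conj (K.lam b x0 k) * K.lam b e0 k) * t).re
        + K.N b x0)) := by
    simp only [e2]
    exact (hs2.hasSum.mul_right _).add ((hs4.mul_left 2).add hs1.hasSum)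
  have : K.N b (Function.update x 0 t) = _ := hs5.tsum_eq
  rw [this]
  show K.N b e0 * ‖t‖ ^ 2 + _ = K.N b e0 * ‖t‖ ^ 2 + _ + _
  ring

theorem gam_nonneg (b : Fin 5) : 0 ≤ K.gam b := K.N_nonneg b _

/-- the vector `κ` -/
noncomputable def kv (k : ℕ) : ℂ := if k = 0 then 1 else - rhoT K.xs k

theorem lam0_of_zero {x : ℕ → ℂ} {k : ℕ} (h15 : ∀ j, 1 ≤ j → j < 16 → x j = 0)
    (hk : 1 ≤ k → x k = 0) : K.lam 0 x k = K.s x * K.kv k := by
  rcases Nat.eq_zero_or_pos k with h | h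
  · subst h
    rw [lam_zero_zero]
    simp [kv]
  · have h0 : k ≠ 0 := by omega
    rw [K.lam_zero_pos x h]
    unfold kv rhoT
    rw [if_neg h0, if_neg h0, if_neg h0]
    by_cases h16 : k < 16
    · rw [if_pos h16, if_pos h16, mul_neg, Finset.mul_sum, ← Finset.sum_neg_distrib]
      apply Finset.sum_congr rfl
      intro i hi
      rw [Finset.mem_range] at hi
      unfold Crit.y
      rw [h15 (i + 1) (by omega) (by omega)]; ring
    · rw [if_neg h16, if_neg h16]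
      unfold Crit.y
      rw [hk h]; ring

theorem hasSum_kv : HasSum (fun k => ‖K.kv k‖ ^ 2) (1 + RRT K.xs) := by
  have h1 : HasSum (fun k => ‖rhoT K.xs k‖ ^ 2) (RRT K.xs) := (summable_rhoT K.bdd_xs).hasSum
  have h2 : HasSum (fun k : ℕ => if k = 0 then (1 : ℝ) else 0) 1 := hasSum_ite_eq 0 1
  have e : (fun k => ‖K.kv k‖ ^ 2) = fun k => (if k = 0 then (1 : ℝ) else 0)
      + ‖rhoT K.xs k‖ ^ 2 := by
    funext k
    unfold kv
    split_ifs with h
    · subst h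
      simp [rhoT]
    · rw [norm_neg, zero_add]
  rw [e]
  exact h2.add h1

theorem sum_kv_le (m : ℕ) : ∑ k ∈ Finset.range m, ‖K.kv k‖ ^ 2 ≤ 1.149 ^ 2 := by
  have h1 := K.hasSum_kv.summable.sum_le_tsum (Finset.range m) (fun k _ => sq_nonneg _)
  rw [K.hasSum_kv.tsum_eq] at h1
  have h2 := K.RRT_xs_le
  have : (1 : ℝ) + 0.32 ≤ 1.149 ^ 2 := by norm_num
  linarith

theorem s_e0 : K.s e0 = K.cc 0 := by
  unfold Crit.s
  rw [tsum_eq_single 0]
  · simp [e0]
  · intro j hj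
    simp [e0, hj]

theorem norm_cc_zero_le : ‖K.cc 0‖ ≤ 0.5556 := by
  rw [K.cc_zero, norm_div, norm_neg, K.hω, div_le_iff₀ (by linarith [K.g_norm_ge])]
  have := K.g_norm_ge
  linarith

theorem gam_zero_le : K.gam 0 ≤ 0.41 := by
  have h1 : K.gam 0 = ‖K.cc 0‖ ^ 2 * (1 + RRT K.xs) := by
    have e : ∀ k, ‖K.lam 0 e0 k‖ ^ 2 = ‖K.cc 0‖ ^ 2 * ‖K.kv k‖ ^ 2 := by
      intro k
      rw [K.lam0_of_zero (fun j hj _ => by simp [e0]; omega) (fun hj => by simp [e0]; omega),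
        K.s_e0, norm_mul, mul_pow]
    have h := K.hasSum_kv.mul_left (‖K.cc 0‖ ^ 2)
    have h' : HasSum (fun k => ‖K.lam 0 e0 k‖ ^ 2) (‖K.cc 0‖ ^ 2 * (1 + RRT K.xs)) := by
      simp only [e]; exact h
    exact h'.tsum_eq
  rw [h1]
  have h2 := K.RRT_xs_le
  have h3 := K.norm_cc_zero_le
  have h4 : ‖K.cc 0‖ ^ 2 ≤ 0.5556 ^ 2 := pow_le_pow_left₀ (norm_nonneg _) h3 2
  calc ‖K.cc 0‖ ^ 2 * (1 + RRT K.xs) ≤ ‖K.cc 0‖ ^ 2 * (1 + 0.32) :=
        mul_le_mul_of_nonneg_left (by linarith) (sq_nonneg _)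
    _ ≤ 0.5556 ^ 2 * (1 + 0.32) := mul_le_mul_of_nonneg_right h4 (by norm_num)
    _ ≤ 0.41 := by norm_num

theorem lam_e0 {b : ℕ} (hb : b ≠ 0) {k : ℕ} (hk : k < 16) : K.lam b e0 k = LB b k 0 := by
  unfold Crit.lam
  rw [if_neg hb, if_pos hk, Finset.sum_eq_single 0]
  · simp [e0]
  · intro i _ hi
    simp [e0, hi]
  · intro h; simp at h

theorem N_eq_sum {b : Fin 5} (hb : (b : ℕ) ≠ 0) (x : ℕ → ℂ) :
    K.N b x = ∑ k ∈ Finset.range 16, ‖K.lam b x k‖ ^ 2 := by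
  unfold Crit.N
  apply tsum_eq_sum
  intro k hk
  rw [K.lam_ge hb _ (by simpa using hk)]
  simp

theorem gam_le (b : Fin 5) : K.gam b ≤ 0.48 := by
  by_cases hb : b = 0
  · subst hb
    exact K.gam_zero_le.trans (by norm_num)
  · have hb' : (b : ℕ) ≠ 0 := by
      intro h; exact hb (Fin.ext h)
    show K.N b e0 ≤ 0.48
    rw [K.N_eq_sum hb' e0]
    refine le_trans (le_of_eq ?_) (LB_zero_le b (by omega) b.2)
    apply Finset.sum_congr rfl
    intro k hk
    rw [K.lam_e0 hb' (Finset.mem_range.1 hk)]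

/-! ### the first estimate -/

theorem trunc_bdd {x : ℕ → ℂ} {M : ℝ} (hM : ∀ j, ‖x j‖ ≤ M) (m j : ℕ) : ‖trunc m x j‖ ≤ M := by
  unfold trunc
  split_ifs
  · exact hM j
  · rw [norm_zero]; exact (norm_nonneg _).trans (hM 0)

/-- the cut off part -/
def rest (m : ℕ) (x : ℕ → ℂ) : ℕ → ℂ := fun j => if j < m then 0 else x j

theorem rest_bdd {x : ℕ → ℂ} {M : ℝ} (hM : ∀ j, ‖x j‖ ≤ M) (m j : ℕ) : ‖rest m x j‖ ≤ M := by
  unfold rest
  split_ifs
  · rw [norm_zero]; exact (norm_nonneg _).trans (hM 0)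
  · exact hM j

theorem trunc_add_rest (m : ℕ) (x : ℕ → ℂ) : (fun j => trunc m x j + rest m x j) = x := by
  funext j
  unfold trunc rest
  split_ifs <;> simp

/-- a form with `b ≥ 1` only sees the first 16 coordinates -/
theorem lam_congr {b : ℕ} (hb : b ≠ 0) {x x' : ℕ → ℂ} (h : ∀ j, j < 16 → x j = x' j) (k : ℕ) :
    K.lam b x k = K.lam b x' k := by
  unfold Crit.lam
  rw [if_neg hb, if_neg hb]
  split_ifs
  · apply Finset.sum_congr rfl
    intro i hi
    rw [h i (Finset.mem_range.1 hi)]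
  · rfl

theorem sum_range_le_N (b : Fin 5) {x : ℕ → ℂ} (hx : Bdd x) (m : ℕ) :
    ∑ k ∈ Finset.range m, ‖K.lam b x k‖ ^ 2 ≤ K.N b x :=
  (K.summable_lam b hx).sum_le_tsum _ (fun _ _ => sq_nonneg _)

theorem pow_r_le {m : ℕ} (h16 : 16 ≤ m) : K.r ^ m ≤ 0.0001 := by
  have h1 : K.r ^ m ≤ K.r ^ 16 := pow_le_pow_of_le_one K.r_pos.le K.r_lt_one.le h16
  have h2 : K.r ^ 16 ≤ 0.5613 ^ 16 := pow_le_pow_left₀ K.r_pos.le K.r_lt.le 16
  have h3 : (0.5613 : ℝ) ^ 16 ≤ 0.0001 := by norm_num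
  linarith

theorem pow_r_le' (m : ℕ) : K.r ^ m ≤ 0.5613 ^ m := pow_le_pow_left₀ K.r_pos.le K.r_lt.le m

/-- the first estimate, for one sequence -/
theorem NT_le_aux {x : ℕ → ℂ} (hM : ∀ j, ‖x j‖ ≤ XX) (b : Fin 5) (hN : K.N b x ≤ 1) {m : ℕ}
    (h16 : 16 ≤ m) (h40 : m ≤ 40) : K.NT b m x ≤ 1 + tA m := by
  have htA : 0 ≤ tA m := by unfold tA; positivity
  have hxb : Bdd x := ⟨_, hM⟩
  by_cases hb : (b : ℕ) = 0
  · -- form 0
    have hb0 : b = 0 := Fin.ext hb
    subst hb0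
    have hr0 := K.r_pos
    have hrm : 0 < K.r ^ m := pow_pos hr0 m
    set D : ℝ := 1.82 * K.r ^ m with hD
    have hD0 : 0 ≤ D := by positivity
    have hrest : ‖K.s (rest m x)‖ ≤ D := by
      refine (K.s_tail (rest_bdd hM m) (m := m) (fun j hj => by unfold rest; rw [if_pos hj])).trans ?_
      have : 1.6208 * K.r ^ m * XX = (1.6208 * (28 / 25)) * K.r ^ m := by unfold XX; ring
      rw [this, hD]
      exact mul_le_mul_of_nonneg_right (by norm_num) hrm.le
    have hlam : ∀ k, K.lam 0 (trunc m x) k = K.lam 0 x k + (-1) * K.lam 0 (rest m x) k := by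
      intro k
      have h := K.lam_add 0 (x := trunc m x) (x' := rest m x) ⟨_, trunc_bdd hM m⟩
        ⟨_, rest_bdd hM m⟩ k
      rw [trunc_add_rest] at h
      rw [h]; ring
    have h1 : ∑ k ∈ Finset.range m, ‖K.lam 0 (trunc m x) k‖ ^ 2 ≤ (1 + D * 1.149) ^ 2 := by
      simp only [hlam]
      apply mink _ _ _ (by norm_num) (by positivity)
      · rw [one_pow]
        exact (K.sum_range_le_N 0 hxb m).trans hN
      · have e : ∀ k ∈ Finset.range m, ‖(-1) * K.lam 0 (rest m x) k‖ ^ 2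
            = ‖K.s (rest m x)‖ ^ 2 * ‖K.kv k‖ ^ 2 := by
          intro k hk
          rw [Finset.mem_range] at hk
          rw [K.lam0_of_zero (fun j _ hj => by unfold rest; rw [if_pos (by omega)])
            (fun _ => by unfold rest; rw [if_pos hk]), norm_mul, norm_neg, norm_one, one_mul,
            norm_mul, mul_pow]
        rw [Finset.sum_congr rfl e, ← Finset.mul_sum, mul_pow]
        exact mul_le_mul (pow_le_pow_left₀ (norm_nonneg _) hrest 2) (K.sum_kv_le m)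
          (Finset.sum_nonneg fun _ _ => sq_nonneg _) (by positivity)
    have hs : ‖K.s (trunc m x)‖ ≤ 1 + D := by
      have e : K.s (trunc m x) = K.s x + (-1) * K.s (rest m x) := by
        have := hlam 0
        rwa [K.lam_zero_zero, K.lam_zero_zero, K.lam_zero_zero] at this
      rw [e]
      refine (norm_add_le _ _).trans ?_
      rw [norm_mul, norm_neg, norm_one, one_mul]
      have h2 : ‖K.s x‖ ≤ 1 := by
        have h3 := (K.sum_range_le_N 0 hxb 1).trans hN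
        rw [Finset.sum_range_one] at h3
        have h4 : ‖K.s x‖ ^ 2 ≤ 1 := by
          have : K.lam ((0 : Fin 5) : ℕ) x 0 = K.s x := K.lam_zero_zero x
          rwa [this] at h3
        exact (sq_le_one_iff₀ (norm_nonneg _)).1 h4
      linarith
    have h2 : ∑ k ∈ Finset.Ico m 40, ‖K.lam 0 (trunc m x) k‖ ^ 2
        ≤ (1 + D) ^ 2 * (1.915e-5 * 0.49 ^ (m - 16)) := by
      have e : ∀ k ∈ Finset.Ico m 40, ‖K.lam 0 (trunc m x) k‖ ^ 2 ≤ (1 + D) ^ 2 * ek k ^ 2 := by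
        intro k hk
        rw [Finset.mem_Ico] at hk
        have h3 : K.lam 0 (trunc m x) k = - ((ek k : ℂ) * (K.s (trunc m x) * K.xs k)) := by
          rw [K.lam_zero_pos _ (by omega)]
          unfold rhoT Crit.y
          rw [if_neg (by omega), if_neg (by omega)]
          have : trunc m x k = 0 := by unfold trunc; rw [if_neg (by omega)]
          rw [this]; ring
        rw [h3, norm_neg, norm_mul, norm_mul, K.norm_xs, mul_one, Complex.norm_real,
          Real.norm_of_nonneg (ek_nonneg _), mul_pow, mul_comm]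
        exact mul_le_mul_of_nonneg_right (pow_le_pow_left₀ (norm_nonneg _) hs 2) (sq_nonneg _)
      refine (Finset.sum_le_sum e).trans ?_
      rw [← Finset.mul_sum]
      apply mul_le_mul_of_nonneg_left _ (by positivity)
      refine le_trans ?_ (tsum_ek_le h16)
      rw [Finset.sum_Ico_eq_sum_range]
      have h4 := (hasSum_ek h16).summable.sum_le_tsum (Finset.range (40 - m))
        (fun k _ => sq_nonneg _)
      refine le_trans (le_of_eq ?_) h4
      apply Finset.sum_congr rfl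
      intro k _
      rw [add_comm]
    have hsplit : K.NT 0 m x = ∑ k ∈ Finset.range m, ‖K.lam 0 (trunc m x) k‖ ^ 2
        + ∑ k ∈ Finset.Ico m 40, ‖K.lam 0 (trunc m x) k‖ ^ 2 := by
      unfold Crit.NT
      rw [Finset.sum_range_add_sum_Ico _ h40]
    have hrm1 := K.pow_r_le h16
    have hrm2 := K.pow_r_le' m
    have hDs : D ≤ 0.0002 := by rw [hD]; linarith
    have h3 : (1 + D * 1.149) ^ 2 ≤ 1 + 4.3 * 0.5613 ^ m := by
      have : (1 + D * 1.149) ^ 2 = 1 + D * (2 * 1.149 + D * 1.149 ^ 2) := by ring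
      rw [this]
      have h5 : 2 * 1.149 + D * 1.149 ^ 2 ≤ 2.3 := by
        have : D * 1.149 ^ 2 ≤ 0.0002 * 1.149 ^ 2 :=
          mul_le_mul_of_nonneg_right hDs (by norm_num)
        have h6 : (2 : ℝ) * 1.149 + 0.0002 * 1.149 ^ 2 ≤ 2.3 := by norm_num
        linarith
      have h6 : D * (2 * 1.149 + D * 1.149 ^ 2) ≤ D * 2.3 := mul_le_mul_of_nonneg_left h5 hD0
      have h7 : D * 2.3 ≤ 4.3 * 0.5613 ^ m := by
        rw [hD]
        have : (1.82 : ℝ) * K.r ^ m * 2.3 = 4.186 * K.r ^ m := by ring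
        rw [this]
        have : (0 : ℝ) < 0.5613 ^ m := by positivity
        linarith
      linarith
    have h4 : (1 + D) ^ 2 * (1.915e-5 * 0.49 ^ (m - 16)) ≤ 2e-5 * (0.49 : ℝ) ^ (m - 16) := by
      have h5 : (1 + D) ^ 2 ≤ (1.0002) ^ 2 := pow_le_pow_left₀ (by linarith) (by linarith) 2
      calc (1 + D) ^ 2 * (1.915e-5 * 0.49 ^ (m - 16))
          ≤ 1.0002 ^ 2 * (1.915e-5 * 0.49 ^ (m - 16)) :=
            mul_le_mul_of_nonneg_right h5 (by positivity)
        _ = (1.0002 ^ 2 * 1.915e-5) * (0.49 : ℝ) ^ (m - 16) := by ring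
        _ ≤ _ := mul_le_mul_of_nonneg_right (by norm_num) (by positivity)
    have hfin : K.NT 0 m x ≤ 1 + tA m := by
      rw [hsplit]; unfold tA; linarith
    exact hfin
  · -- forms `≥ 1`
    have h1 : K.NT b m x ≤ K.N b x := by
      refine le_trans (Finset.sum_le_sum fun k _ => ?_) (K.sum_range_le_N b hxb 40)
      rw [K.lam_congr hb (x := trunc m x) (x' := x)
        (fun j hj => by unfold trunc; rw [if_pos (by omega)])]
    linarith

theorem NT_le_of_C {x : ℕ → ℂ} (hx : K.C x) {m : ℕ} (h16 : 16 ≤ m) (h40 : m ≤ 40) (c : Col)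
    (hnd : c.nd < 5) (hu : c.u ≠ (0, 0)) : K.NT c.nd m (c.act x) ≤ 1 + tA m := by
  have hn := norm_unitQ hu
  have h := hx.2 ⟨c.nd, hnd⟩ (unitQ c.u) hn
  unfold Col.act
  by_cases hc : c.cj
  · rw [if_pos hc]
    refine K.NT_le_aux ?_ ⟨c.nd, hnd⟩ h.2 h16 h40
    intro j
    rw [norm_rot hn, norm_cjs]; exact hx.1 j
  · rw [if_neg hc]
    refine K.NT_le_aux ?_ ⟨c.nd, hnd⟩ h.1 h16 h40
    intro j
    rw [norm_rot hn]; exact hx.1 j

/-! ### the second estimate -/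

/-- the difference of the top entries -/
theorem norm_top_rest {x : ℕ → ℂ} (hM : ∀ j, ‖x j‖ ≤ XX) (m : ℕ) {ζ : ℂ} (hζ : ‖ζ‖ = 1) :
    ‖top ((K.r : ℂ) * ζ) (rest m x)‖ ≤ 1.44 * K.r ^ m := by
  have hr0 := K.r_pos
  have hr1 := K.r_lt_one
  unfold top
  rw [norm_neg]
  have hs : Summable fun j : ℕ => ((K.r : ℂ) * ζ) ^ (j + 1) * rest m x j := by
    apply Bdd.summable ⟨_, rest_bdd hM m⟩ (κ := K.r) hr0.le hr1
    intro j
    rw [norm_pow, norm_mul, hζ, mul_one, Complex.norm_real, Real.norm_of_nonneg hr0.le, pow_succ,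
      mul_comm]
  rw [← hs.sum_add_tsum_nat_add m, Finset.sum_eq_zero, zero_add]
  · have hg : HasSum (fun j : ℕ => K.r * K.r ^ m * XX * K.r ^ j)
        (K.r * K.r ^ m * XX * (1 - K.r)⁻¹) :=
      (hasSum_geometric_of_lt_one hr0.le hr1).mul_left _
    refine (tsum_of_norm_bounded hg fun j => ?_).trans ?_
    · rw [norm_mul, norm_pow, norm_mul, hζ, mul_one, Complex.norm_real,
        Real.norm_of_nonneg hr0.le]
      calc K.r ^ (j + m + 1) * ‖rest m x (j + m)‖ ≤ K.r ^ (j + m + 1) * XX :=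
            mul_le_mul_of_nonneg_left (rest_bdd hM m _) (by positivity)
        _ = _ := by ring
    · have h1 : (1 - K.r)⁻¹ ≤ (1 - 0.5613 : ℝ)⁻¹ := by
        apply inv_anti₀ (by norm_num)
        linarith [K.r_lt]
      have hX : (0 : ℝ) ≤ XX := by unfold XX; norm_num
      calc K.r * K.r ^ m * XX * (1 - K.r)⁻¹ ≤ K.r * K.r ^ m * XX * (1 - 0.5613 : ℝ)⁻¹ :=
            mul_le_mul_of_nonneg_left h1 (by positivity)
        _ ≤ 0.5613 * K.r ^ m * XX * (1 - 0.5613 : ℝ)⁻¹ := by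
            apply mul_le_mul_of_nonneg_right _ (by norm_num)
            apply mul_le_mul_of_nonneg_right _ hX
            exact mul_le_mul_of_nonneg_right K.r_lt.le (by positivity)
        _ = (0.5613 * XX * (1 - 0.5613 : ℝ)⁻¹) * K.r ^ m := by ring
        _ ≤ 1.44 * K.r ^ m := by
            apply mul_le_mul_of_nonneg_right _ (by positivity)
            unfold XX
            norm_num
  · intro j hj
    unfold rest
    rw [if_pos (Finset.mem_range.1 hj), mul_zero]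

theorem A_zero' (ζ : ℂ) (x : ℕ → ℂ) : K.A ζ x 0 = top ((K.r : ℂ) * ζ) x := by
  simp [Crit.A, stepA, rot, stepG]

theorem top_add (w : ℂ) (hw : ‖w‖ < 1) {x x' : ℕ → ℂ} (hx : Bdd x) (hx' : Bdd x') :
    top w (fun j => x j + x' j) = top w x + top w x' := by
  have hs : ∀ {x : ℕ → ℂ}, Bdd x → Summable fun j : ℕ => w ^ (j + 1) * x j := by
    intro x hx
    apply hx.summable (κ := ‖w‖) (norm_nonneg w) hw
    intro j
    rw [norm_pow, pow_succ, mul_comm]
  unfold top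
  rw [← neg_add, ← (hs hx).tsum_add (hs hx')]
  congr 1
  apply tsum_congr
  intro j; ring

/-- decomposition of `A ζ x` -/
theorem A_decomp {x : ℕ → ℂ} (hM : ∀ j, ‖x j‖ ≤ XX) {m : ℕ} (hm : 1 ≤ m) {ζ : ℂ} (hζ : ‖ζ‖ = 1) :
    K.A ζ x = fun j => (trunc m (K.A ζ (trunc m x)) j
      + top ((K.r : ℂ) * ζ) (rest m x) * e0 j) + rest m (K.A ζ x) j := by
  have hw : ‖(K.r : ℂ) * ζ‖ < 1 := by
    rw [norm_mul, hζ, mul_one, Complex.norm_real, Real.norm_of_nonneg K.r_pos.le]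
    exact K.r_lt_one
  have t1 : ∀ (y : ℕ → ℂ) (j : ℕ), j < m → trunc m y j = y j := fun y j hj => by
    unfold trunc; rw [if_pos hj]
  have t2 : ∀ (y : ℕ → ℂ) (j : ℕ), ¬ j < m → trunc m y j = 0 := fun y j hj => by
    unfold trunc; rw [if_neg hj]
  have r1 : ∀ (y : ℕ → ℂ) (j : ℕ), j < m → rest m y j = 0 := fun y j hj => by
    unfold rest; rw [if_pos hj]
  have r2 : ∀ (y : ℕ → ℂ) (j : ℕ), ¬ j < m → rest m y j = y j := fun y j hj => by
    unfold rest; rw [if_neg hj]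
  have ez : e0 0 = 1 := rfl
  have es : ∀ j, e0 (j + 1) = 0 := fun j => rfl
  funext j
  cases j with
  | zero =>
    rw [t1 _ _ (by omega), r1 _ _ (by omega), ez, mul_one, add_zero, K.A_zero', K.A_zero']
    have := top_add _ hw (x := trunc m x) (x' := rest m x) ⟨_, trunc_bdd hM m⟩ ⟨_, rest_bdd hM m⟩
    rw [trunc_add_rest] at this
    exact this
  | succ j =>
    by_cases hj : j + 1 < m
    · rw [t1 _ _ hj, r1 _ _ hj, es, mul_zero, add_zero, add_zero, K.A_succ, K.A_succ,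
        t1 _ _ (by omega)]
    · rw [t2 _ _ hj, r2 _ _ hj, es, mul_zero, add_zero, zero_add]

theorem N_le_of_NT {x : ℕ → ℂ} (hx : K.C x) {b : Fin 5} {m : ℕ} (h16 : 16 ≤ m) (h40 : m ≤ 40)
    {ζ : ℂ} (hζ : ‖ζ‖ = 1) {V : ℝ} (hV : V ≤ 1)
    (h : K.NT b m (K.A ζ (trunc m x)) ≤ V) : K.N b (K.A ζ x) ≤ V + tB b m := by
  have hM := hx.1
  have hX : (0 : ℝ) ≤ XX := by unfold XX; norm_num
  have hV0 : 0 ≤ V := (Finset.sum_nonneg fun _ _ => sq_nonneg _).trans h
  have hr0 := K.r_pos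
  have hrm : 0 < K.r ^ m := pow_pos hr0 m
  have hrm1 := K.pow_r_le h16
  have hrm2 := K.pow_r_le' m
  have hp : (0 : ℝ) < 0.5613 ^ m := by positivity
  set t : ℂ := top ((K.r : ℂ) * ζ) (rest m x) with ht
  have htn : ‖t‖ ≤ 1.44 * K.r ^ m := K.norm_top_rest hM m hζ
  set W : ℝ := Real.sqrt V with hW
  have hW0 : 0 ≤ W := Real.sqrt_nonneg V
  have hW2 : W ^ 2 = V := Real.sq_sqrt hV0
  have hW1 : W ≤ 1 := Real.sqrt_le_one.2 hV
  set z : ℕ → ℂ := trunc m (K.A ζ (trunc m x)) with hz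
  have hAb : Bdd (K.A ζ x) := K.bdd_A ⟨_, hM⟩
  have hzb : Bdd z := by
    obtain ⟨C, hC⟩ := K.bdd_A (ζ := ζ) (x := trunc m x) ⟨_, trunc_bdd hM m⟩
    exact ⟨C, trunc_bdd hC m⟩
  have hteb : Bdd (fun j => t * e0 j) := by
    obtain ⟨C, hC⟩ := bdd_e0
    exact ⟨‖t‖ * C, fun j => by
      rw [norm_mul]; exact mul_le_mul_of_nonneg_left (hC j) (norm_nonneg _)⟩
  have hsumz : ∀ n ≤ 40, ∑ k ∈ Finset.range n, ‖K.lam b z k‖ ^ 2 ≤ W ^ 2 := by
    intro n hn
    rw [hW2]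
    refine le_trans ?_ h
    unfold Crit.NT
    exact Finset.sum_le_sum_of_subset_of_nonneg (Finset.range_mono hn) (fun _ _ _ => sq_nonneg _)
  by_cases hb : (b : ℕ) = 0
  · have hb0 : b = 0 := Fin.ext hb
    subst hb0
    -- the part `≥ m`
    have hRb : ∀ j, ‖rest m (K.A ζ x) j‖ ≤ XX := by
      intro j
      unfold rest
      split_ifs with hj
      · rw [norm_zero]; exact hX
      · obtain ⟨i, rfl⟩ : ∃ i, j = i + 1 := ⟨j - 1, by omega⟩
        rw [K.A_succ, norm_mul, norm_inv, norm_pow, K.hq, one_pow, inv_one, one_mul]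
        exact hM i
    have hD : ‖K.s (rest m (K.A ζ x))‖ ≤ 1.82 * K.r ^ m := by
      refine (K.s_tail hRb (m := m) (fun j hj => by unfold rest; rw [if_pos hj])).trans ?_
      have : 1.6208 * K.r ^ m * XX = (1.6208 * (28 / 25)) * K.r ^ m := by unfold XX; ring
      rw [this]
      exact mul_le_mul_of_nonneg_right (by norm_num) hrm.le
    have hlam : ∀ k, K.lam 0 (K.A ζ x) k
        = (K.lam 0 z k + t * K.lam 0 e0 k) + K.lam 0 (rest m (K.A ζ x)) k := by
      intro k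
      have h1 := K.A_decomp hM (show 1 ≤ m by omega) hζ
      rw [← ht, ← hz] at h1
      have h2 : K.lam 0 (K.A ζ x) k = K.lam 0 (fun j => (z j + t * e0 j)
          + rest m (K.A ζ x) j) k := by
        conv_lhs => rw [h1]
      rw [h2, K.lam_add 0 (x := fun j => z j + t * e0 j) _ ⟨_, hRb⟩,
        K.lam_add 0 hzb hteb, K.lam_smul]
      obtain ⟨C, hC⟩ := hzb
      obtain ⟨C', hC'⟩ := hteb
      exact ⟨C + C', fun j => (norm_add_le _ _).trans (add_le_add (hC j) (hC' j))⟩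
    set P : ℝ := K.r ^ m with hP
    have h1 : ∑ k ∈ Finset.range m, ‖K.lam 0 (K.A ζ x) k‖ ^ 2
        ≤ ((W + 1.44 * P * 0.6404) + 1.82 * P * 1.149) ^ 2 := by
      simp only [hlam]
      apply mink _ _ _ (by positivity) (by positivity)
      · apply mink _ _ _ hW0 (by positivity)
        · exact hsumz m h40
        · have e : ∀ k ∈ Finset.range m, ‖t * K.lam 0 e0 k‖ ^ 2
              = ‖t‖ ^ 2 * ‖K.lam 0 e0 k‖ ^ 2 := by
            intro k _
            rw [norm_mul, mul_pow]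
          rw [Finset.sum_congr rfl e, ← Finset.mul_sum, mul_pow]
          refine mul_le_mul (pow_le_pow_left₀ (norm_nonneg _) htn 2) ?_
            (Finset.sum_nonneg fun _ _ => sq_nonneg _) (by positivity)
          refine (K.sum_range_le_N 0 bdd_e0 m).trans ?_
          have : K.N 0 e0 ≤ 0.41 := K.gam_zero_le
          refine this.trans (by norm_num)
      · have e : ∀ k ∈ Finset.range m, ‖K.lam 0 (rest m (K.A ζ x)) k‖ ^ 2
            = ‖K.s (rest m (K.A ζ x))‖ ^ 2 * ‖K.kv k‖ ^ 2 := by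
          intro k hk
          rw [Finset.mem_range] at hk
          rw [K.lam0_of_zero (fun j _ hj => by unfold rest; rw [if_pos (by omega)])
            (fun _ => by unfold rest; rw [if_pos hk]), norm_mul, mul_pow]
        rw [Finset.sum_congr rfl e, ← Finset.mul_sum, mul_pow]
        exact mul_le_mul (pow_le_pow_left₀ (norm_nonneg _) hD 2) (K.sum_kv_le m)
          (Finset.sum_nonneg fun _ _ => sq_nonneg _) (by positivity)
    have h1' : ((W + 1.44 * P * 0.6404) + 1.82 * P * 1.149) ^ 2 ≤ V + 6.3 * 0.5613 ^ m := by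
      have e : ((W + 1.44 * P * 0.6404) + 1.82 * P * 1.149) ^ 2
          = W ^ 2 + (2 * W * 3.013356 + 3.013356 ^ 2 * P) * P := by ring
      rw [e, hW2]
      have h2 : 2 * W * 3.013356 + 3.013356 ^ 2 * P ≤ 6.3 := by
        have h3 : (3.013356 : ℝ) ^ 2 * P ≤ 3.013356 ^ 2 * 0.0001 :=
          mul_le_mul_of_nonneg_left hrm1 (by norm_num)
        have h4 : (3.013356 : ℝ) ^ 2 * 0.0001 ≤ 0.001 := by norm_num
        linarith
      have h3 : (2 * W * 3.013356 + 3.013356 ^ 2 * P) * P ≤ 6.3 * P :=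
        mul_le_mul_of_nonneg_right h2 hrm.le
      linarith
    have hs : ‖K.s (K.A ζ x)‖ ≤ 1.001 := by
      have h2 : ‖K.lam 0 (K.A ζ x) 0‖ ^ 2
          ≤ ((W + 1.44 * P * 0.6404) + 1.82 * P * 1.149) ^ 2 := by
        refine le_trans ?_ h1
        apply Finset.single_le_sum (f := fun k => ‖K.lam 0 (K.A ζ x) k‖ ^ 2)
          (fun _ _ => sq_nonneg _)
        rw [Finset.mem_range]; omega
      rw [K.lam_zero_zero] at h2
      have h3 := (abs_le_of_sq_le_sq' h2 (by positivity)).2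
      linarith
    have h2 : ∑' k, ‖K.lam 0 (K.A ζ x) (k + m)‖ ^ 2 ≤ 1e-4 * 0.49 ^ (m - 16) := by
      have e : ∀ k, ‖K.lam 0 (K.A ζ x) (k + m)‖ ^ 2 ≤ 2.121 ^ 2 * ek (k + m) ^ 2 := by
        intro k
        have h3 : K.lam 0 (K.A ζ x) (k + m) = (ek (k + m) : ℂ) * K.y (K.A ζ x) (k + m) := by
          rw [K.lam_zero_pos _ (by omega)]
          unfold rhoT
          rw [if_neg (by omega), if_neg (by omega)]
        rw [h3, norm_mul, Complex.norm_real, Real.norm_of_nonneg (ek_nonneg _), mul_pow, mul_comm]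
        apply mul_le_mul_of_nonneg_right _ (sq_nonneg _)
        apply pow_le_pow_left₀ (norm_nonneg _)
        unfold Crit.y
        refine (norm_sub_le _ _).trans ?_
        rw [norm_mul, K.norm_xs, mul_one]
        have h4 : ‖K.A ζ x (k + m)‖ ≤ 1.12 := by
          have := hRb (k + m)
          unfold rest at this
          rw [if_neg (by omega)] at this
          refine this.trans ?_
          unfold XX; norm_num
        linarith
      have hsum := (K.summable_lam 0 hAb)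
      have h5 := (summable_nat_add_iff m).2 hsum
      refine (h5.tsum_le_tsum e ((hasSum_ek h16).summable.mul_left _)).trans ?_
      rw [tsum_mul_left]
      refine (mul_le_mul_of_nonneg_left (tsum_ek_le h16) (by norm_num)).trans ?_
      rw [← mul_assoc]
      exact mul_le_mul_of_nonneg_right (by norm_num) (by positivity)
    have hsplit : K.N 0 (K.A ζ x) = ∑ k ∈ Finset.range m, ‖K.lam 0 (K.A ζ x) k‖ ^ 2
        + ∑' k, ‖K.lam 0 (K.A ζ x) (k + m)‖ ^ 2 := by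
      have := (K.summable_lam 0 hAb).sum_add_tsum_nat_add m
      exact this.symm
    have htB : tB ((0 : Fin 5) : ℕ) m = 6.3 * (0.5613 : ℝ) ^ m + 1e-4 * (0.49 : ℝ) ^ (m - 16) := by
      unfold tB; rfl
    rw [hsplit, htB]
    linarith
  · -- forms `≥ 1`
    have hlam : ∀ k ∈ Finset.range 16, K.lam b (K.A ζ x) k
        = K.lam b z k + t * K.lam b e0 k := by
      intro k _
      have h1 := K.A_decomp hM (show 1 ≤ m by omega) hζ
      rw [← ht, ← hz] at h1
      have h2 : K.lam b (K.A ζ x) k = K.lam b (fun j => z j + t * e0 j) k := by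
        apply K.lam_congr hb
        intro j hj
        have h3 := congrFun h1 j
        rw [h3]
        unfold rest
        rw [if_pos (by omega), add_zero]
      rw [h2, K.lam_add b hzb hteb, K.lam_smul]
    have h1 : K.N b (K.A ζ x) ≤ (W + 1.44 * K.r ^ m * 0.6929) ^ 2 := by
      rw [K.N_eq_sum hb]
      have e : ∑ k ∈ Finset.range 16, ‖K.lam b (K.A ζ x) k‖ ^ 2
          = ∑ k ∈ Finset.range 16, ‖K.lam b z k + t * K.lam b e0 k‖ ^ 2 :=
        Finset.sum_congr rfl fun k hk => by rw [hlam k hk]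
      rw [e]
      apply mink _ _ _ hW0 (by positivity)
      · exact hsumz 16 (by norm_num)
      · have e : ∀ k ∈ Finset.range 16, ‖t * K.lam b e0 k‖ ^ 2
            = ‖t‖ ^ 2 * ‖K.lam b e0 k‖ ^ 2 := by
          intro k _
          rw [norm_mul, mul_pow]
        rw [Finset.sum_congr rfl e, ← Finset.mul_sum, mul_pow]
        refine mul_le_mul (pow_le_pow_left₀ (norm_nonneg _) htn 2) ?_
          (Finset.sum_nonneg fun _ _ => sq_nonneg _) (by positivity)
        refine (K.sum_range_le_N b bdd_e0 16).trans ?_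
        have : K.N b e0 ≤ 0.48 := K.gam_le b
        refine this.trans (by norm_num)
    have h2 : (W + 1.44 * K.r ^ m * 0.6929) ^ 2 ≤ V + 2.05 * 0.5613 ^ m := by
      set P : ℝ := K.r ^ m with hP
      have e : (W + 1.44 * P * 0.6929) ^ 2
          = W ^ 2 + (2 * W * 0.997776 + 0.997776 ^ 2 * P) * P := by ring
      rw [e, hW2]
      have h2 : 2 * W * 0.997776 + 0.997776 ^ 2 * P ≤ 2.05 := by
        have h3 : (0.997776 : ℝ) ^ 2 * P ≤ 0.997776 ^ 2 * 0.0001 :=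
          mul_le_mul_of_nonneg_left hrm1 (by norm_num)
        have h4 : (0.997776 : ℝ) ^ 2 * 0.0001 ≤ 0.001 := by norm_num
        linarith
      have h3 : (2 * W * 0.997776 + 0.997776 ^ 2 * P) * P ≤ 2.05 * P :=
        mul_le_mul_of_nonneg_right h2 hrm.le
      linarith
    have htB : tB b m = 2.05 * (0.5613 : ℝ) ^ m := by
      unfold tB; rw [if_neg hb]
    rw [htB]
    linarith

/-- trivial bound for the second derivative functional: `X ∑ (j+1)² r^{j+1} = X r(1+r)/(1-r)³` -/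
theorem g2f_le {x : ℕ → ℂ} (hx : K.C x) {u : ℂ} (hu : ‖u‖ = 1) :
    ‖g2f K.r (rot u x)‖ ≤ 11.65 := by
  have hr0 := K.r_pos
  have hr1 := K.r_lt_one
  have hr2 := K.r_lt
  have hX : (0 : ℝ) ≤ XX := by unfold XX; norm_num
  have h1r : (0 : ℝ) < 1 - K.r := by linarith
  -- `∑ (j+1)^2 r^(j+1) = r (1 + r) / (1 - r)^3`
  have hsum : HasSum (fun j : ℕ => ((j : ℝ) + 1) ^ 2 * K.r ^ (j + 1))
      (K.r * (1 + K.r) / (1 - K.r) ^ 3) := by
    have hn : ‖K.r‖ < 1 := by rw [Real.norm_of_nonneg hr0.le]; exact hr1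
    have s0 := hasSum_geometric_of_lt_one hr0.le hr1
    have s1 := hasSum_coe_mul_geometric_of_norm_lt_one hn
    have s2 : HasSum (fun j : ℕ => ((j + 2).choose 2 : ℝ) * K.r ^ j) (1 / (1 - K.r) ^ (2 + 1)) :=
      hasSum_choose_mul_geometric_of_norm_lt_one 2 hn
    have e : (fun j : ℕ => ((j : ℝ) + 1) ^ 2 * K.r ^ (j + 1)) = fun j : ℕ =>
        K.r * (2 * (((j + 2).choose 2 : ℝ) * K.r ^ j) - ((j : ℝ) * K.r ^ j + K.r ^ j)) := by
      funext j
      have hc : (((j + 2).choose 2 : ℕ) : ℝ) = ((j : ℝ) + 2) * ((j : ℝ) + 1) / 2 := by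
        rw [Nat.cast_choose_two]
        push_cast; ring
      rw [hc, pow_succ]; ring
    have h := ((s2.mul_left 2).sub (s1.add s0)).mul_left K.r
    have hne : (1 - K.r) ≠ 0 := h1r.ne'
    have e2 : K.r * (1 + K.r) / (1 - K.r) ^ 3
        = K.r * (2 * (1 / (1 - K.r) ^ (2 + 1)) - (K.r / (1 - K.r) ^ 2 + (1 - K.r)⁻¹)) := by
      field_simp
      ring
    rw [e, e2]
    exact h
  have hbound : HasSum (fun j : ℕ => ((j : ℝ) + 1) ^ 2 * K.r ^ (j + 1) * XX)
      (K.r * (1 + K.r) / (1 - K.r) ^ 3 * XX) := hsum.mul_right XX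
  unfold g2f
  refine (tsum_of_norm_bounded hbound fun j => ?_).trans ?_
  · rw [norm_mul, norm_mul, norm_pow, norm_pow, norm_rot hu, Complex.norm_real,
      Real.norm_of_nonneg hr0.le]
    have : ‖(j : ℂ) + 1‖ = (j : ℝ) + 1 := by
      have : ((j : ℂ) + 1) = ((j + 1 : ℕ) : ℂ) := by push_cast; ring
      rw [this, Complex.norm_natCast]; push_cast; ring
    rw [this]
    exact mul_le_mul_of_nonneg_left (hx.1 j) (by positivity)
  · have h3 : K.r * (1 + K.r) / (1 - K.r) ^ 3 ≤ 0.5613 * (1 + 0.5613) / (1 - 0.5613) ^ 3 := by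
      apply div_le_div₀ (by norm_num)
      · nlinarith
      · norm_num
      · apply pow_le_pow_left₀ (by norm_num)
        linarith
    calc K.r * (1 + K.r) / (1 - K.r) ^ 3 * XX
        ≤ 0.5613 * (1 + 0.5613) / (1 - 0.5613) ^ 3 * XX := mul_le_mul_of_nonneg_right h3 hX
      _ ≤ 11.65 := by unfold XX; norm_num

end Crit

end Pool.Agent.H93
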