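import Pool.Agent.Lib.H93.WordDefs

/-!
MP_fb0703_an, chunk E, part 4: quadratic forms. The Hermitian matrix `(M_ij)`, `i, j < m`, is
described by its lower triangle in offset form: `F i d = M_{i, i-d}`, `d ≤ i`.
-/

namespace Pool.Agent.H93

open Filter Topology ComplexConjugate

/-- the quadratic form `x^H M x` with `F i d = M_{i, i-d}` -/
noncomputable def qf (m : ℕ) (F : ℕ → ℕ → ℂ) (x : ℕ → ℂ) : ℝ :=
  ∑ i ∈ Finset.range m, ∑ d ∈ Finset.range (i + 1),
    (if d = 0 then 1 else 2) * (conj (x i) * F i d * x (i - d)).re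

/-- (Q1) -/
theorem norm_sum_sq (m : ℕ) (z : ℕ → ℂ) :
    ‖∑ i ∈ Finset.range m, z i‖ ^ 2 =
      ∑ i ∈ Finset.range m, ∑ d ∈ Finset.range (i + 1),
        (if d = 0 then 1 else 2) * (conj (z i) * z (i - d)).re := by
  induction m with
  | zero => simp
  | succ m ih =>
    rw [Finset.sum_range_succ, Finset.sum_range_succ, ← ih, ← Complex.normSq_eq_norm_sq,
      ← Complex.normSq_eq_norm_sq, Complex.normSq_add, Finset.sum_range_succ']
    have h1 : ∑ d ∈ Finset.range m,
        (if d + 1 = 0 then (1 : ℝ) else 2) * (conj (z m) * z (m - (d + 1))).re =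
        2 * ((∑ j ∈ Finset.range m, z j) * conj (z m)).re := by
      have h2 := Finset.sum_range_reflect (fun j => 2 * (conj (z m) * z j).re) m
      have h3 : ∑ d ∈ Finset.range m,
          (if d + 1 = 0 then (1 : ℝ) else 2) * (conj (z m) * z (m - (d + 1))).re =
          ∑ j ∈ Finset.range m, (fun j => 2 * (conj (z m) * z j).re) (m - 1 - j) := by
        apply Finset.sum_congr rfl
        intro d _
        have e : m - (d + 1) = m - 1 - d := by omega
        rw [e]
        simp
      rw [h3, h2, Finset.sum_mul, Complex.re_sum, Finset.mul_sum]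
      apply Finset.sum_congr rfl
      intro j _
      rw [mul_comm (z j)]
    rw [h1]
    have h4 : (conj (z m) * z (m - 0)).re = Complex.normSq (z m) := by
      rw [Nat.sub_zero, mul_comm, Complex.mul_conj]
      exact Complex.ofReal_re _
    simp only [if_true]
    rw [h4]
    ring

theorem qf_add (m : ℕ) (F G : ℕ → ℕ → ℂ) (x : ℕ → ℂ) :
    qf m (fun i d => F i d + G i d) x = qf m F x + qf m G x := by
  unfold qf
  rw [← Finset.sum_add_distrib]
  apply Finset.sum_congr rfl
  intro i _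
  rw [← Finset.sum_add_distrib]
  apply Finset.sum_congr rfl
  intro d _
  rw [← mul_add, ← Complex.add_re]
  congr 2
  ring

theorem qf_sub (m : ℕ) (F G : ℕ → ℕ → ℂ) (x : ℕ → ℂ) :
    qf m (fun i d => F i d - G i d) x = qf m F x - qf m G x := by
  unfold qf
  rw [← Finset.sum_sub_distrib]
  apply Finset.sum_congr rfl
  intro i _
  rw [← Finset.sum_sub_distrib]
  apply Finset.sum_congr rfl
  intro d _
  rw [← mul_sub, ← Complex.sub_re]
  congr 2
  ring

theorem qf_smul (m : ℕ) (c : ℝ) (F : ℕ → ℕ → ℂ) (x : ℕ → ℂ) :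
    qf m (fun i d => (c : ℂ) * F i d) x = c * qf m F x := by
  unfold qf
  rw [Finset.mul_sum]
  apply Finset.sum_congr rfl
  intro i _
  rw [Finset.mul_sum]
  apply Finset.sum_congr rfl
  intro d _
  have e : conj (x i) * ((c : ℂ) * F i d) * x (i - d) =
      (c : ℂ) * (conj (x i) * F i d * x (i - d)) := by ring
  rw [e, Complex.re_ofReal_mul]
  ring

theorem qf_congr {m : ℕ} {F G : ℕ → ℕ → ℂ} (x : ℕ → ℂ)
    (h : ∀ i < m, ∀ d ≤ i, F i d = G i d) : qf m F x = qf m G x := by
  unfold qf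
  apply Finset.sum_congr rfl
  intro i hi
  apply Finset.sum_congr rfl
  intro d hd
  rw [h i (Finset.mem_range.1 hi) d (Nat.lt_succ_iff.1 (Finset.mem_range.1 hd))]

/-- (Q2) sum over a list -/
theorem qf_listSum {α : Type} (m : ℕ) (l : List α) (F : α → ℕ → ℕ → ℂ) (x : ℕ → ℂ) :
    qf m (fun i d => (l.map fun c => F c i d).sum) x = (l.map fun c => qf m (F c) x).sum := by
  induction l with
  | nil =>
    simp only [List.map_nil, List.sum_nil]
    unfold qf
    simp
  | cons a l ih =>
    simp only [List.map_cons, List.sum_cons]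
    rw [qf_add, ih]

/-- (Q3) bound -/
theorem qf_bound {m : ℕ} {F : ℕ → ℕ → ℂ} {x : ℕ → ℂ} {ε X : ℝ} (hX : ∀ j, ‖x j‖ ≤ X)
    (h : ∀ i < m, ∀ d ≤ i, ‖F i d‖ ≤ ε) : |qf m F x| ≤ ε * (m : ℝ) ^ 2 * X ^ 2 := by
  have hX0 : 0 ≤ X := (norm_nonneg _).trans (hX 0)
  have hs : ∀ k : ℕ, ∑ d ∈ Finset.range (k + 1), (if d = 0 then (1 : ℝ) else 2) =
      2 * (k : ℝ) + 1 := by
    intro k
    rw [Finset.sum_range_succ']
    simp
    ring
  have hm : ∑ i ∈ Finset.range m, (2 * (i : ℝ) + 1) = (m : ℝ) ^ 2 := by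
    clear h
    induction m with
    | zero => simp
    | succ m ih =>
      rw [Finset.sum_range_succ, ih]
      push_cast
      ring
  calc |qf m F x| ≤ ∑ i ∈ Finset.range m, (2 * (i : ℝ) + 1) * (ε * X ^ 2) := by
        unfold qf
        refine (Finset.abs_sum_le_sum_abs _ _).trans ?_
        apply Finset.sum_le_sum
        intro i hi
        rw [← hs i, Finset.sum_mul]
        refine (Finset.abs_sum_le_sum_abs _ _).trans ?_
        apply Finset.sum_le_sum
        intro d hd
        have hF := h i (Finset.mem_range.1 hi) d (Nat.lt_succ_iff.1 (Finset.mem_range.1 hd))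
        have h1 : |(conj (x i) * F i d * x (i - d)).re| ≤ ε * X ^ 2 := by
          refine (Complex.abs_re_le_norm _).trans ?_
          rw [norm_mul, norm_mul, RCLike.norm_conj]
          have a1 := hX i
          have a2 := hX (i - d)
          have a3 : ‖x i‖ * ‖F i d‖ ≤ X * ε :=
            mul_le_mul a1 hF (norm_nonneg _) hX0
          have a4 : ‖x i‖ * ‖F i d‖ * ‖x (i - d)‖ ≤ X * ε * X :=
            mul_le_mul a3 a2 (norm_nonneg _) ((by positivity : (0:ℝ) ≤ ‖x i‖ * ‖F i d‖).trans a3)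
          linarith [a4, (by ring : X * ε * X = ε * X ^ 2)]
        rw [abs_mul]
        split_ifs
        · rw [abs_one]
          linarith
        · rw [abs_two]
          linarith
    _ = ε * (m : ℝ) ^ 2 * X ^ 2 := by
        rw [← Finset.sum_mul, hm]
        ring

/-- (Q4) diagonal matrices -/
theorem qf_diag (m : ℕ) (c : ℕ → ℝ) (x : ℕ → ℂ) :
    qf m (fun i d => if d = 0 then (c i : ℂ) else 0) x =
      ((List.range m).map fun l => c l * ‖x l‖ ^ 2).sum := by
  have h1 : ((List.range m).map fun l => c l * ‖x l‖ ^ 2).sum =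
      ∑ l ∈ Finset.range m, c l * ‖x l‖ ^ 2 := by
    induction m with
    | zero => simp
    | succ m ih =>
      rw [List.range_succ, List.map_append, List.sum_append, ih, Finset.sum_range_succ]
      simp
  rw [h1]
  unfold qf
  apply Finset.sum_congr rfl
  intro i _
  rw [Finset.sum_eq_single 0]
  · simp only [if_true, Nat.sub_zero, one_mul]
    have e : conj (x i) * (c i : ℂ) * x i = (c i : ℂ) * ((Complex.normSq (x i) : ℝ) : ℂ) := by
      rw [Complex.normSq_eq_conj_mul_self]
      ring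
    rw [e, ← Complex.ofReal_mul, Complex.ofReal_re, Complex.normSq_eq_norm_sq]
  · intro d _ hd
    simp [hd]
  · intro h
    exact absurd (Finset.mem_range.2 (Nat.succ_pos i)) h

/-- (Q5) Gram matrices: `F i d = ∑_k conj (a k i) a k (i-d)` -/
theorem qf_gram (m n : ℕ) (a : ℕ → ℕ → ℂ) (x : ℕ → ℂ) :
    qf m (fun i d => ∑ k ∈ Finset.range n, conj (a k i) * a k (i - d)) x =
      ∑ k ∈ Finset.range n, ‖∑ j ∈ Finset.range m, a k j * x j‖ ^ 2 := by
  have h1 : ∀ k, ‖∑ j ∈ Finset.range m, a k j * x j‖ ^ 2 =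
      ∑ i ∈ Finset.range m, ∑ d ∈ Finset.range (i + 1),
        (if d = 0 then 1 else 2) *
          (conj (a k i * x i) * (a k (i - d) * x (i - d))).re := by
    intro k
    exact norm_sum_sq m (fun j => a k j * x j)
  simp only [h1]
  rw [Finset.sum_comm]
  unfold qf
  apply Finset.sum_congr rfl
  intro i _
  rw [Finset.sum_comm]
  apply Finset.sum_congr rfl
  intro d _
  rw [Finset.mul_sum, Finset.sum_mul, Complex.re_sum, Finset.mul_sum]
  apply Finset.sum_congr rfl
  intro k _
  congr 2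
  rw [map_mul]
  ring

namespace Crit

variable (K : Crit)

/-- coefficients of the functionals: `lam b (trunc m x) k = ∑_{j<m} lamc b k j * x j`. -/
noncomputable def lamc (b k j : ℕ) : ℂ :=
  if b = 0 then
    if k = 0 then K.cc j
    else if k < 16 then
      (if 1 ≤ j ∧ j < 16 then LR (k - 1) (j - 1) else 0)
        - (∑ i ∈ Finset.range 15, LR (k - 1) i * K.xs (i + 1)) * K.cc j
    else (ek k : ℂ) * ((if j = k then 1 else 0) - K.xs k * K.cc j)
  else
    if k < 16 ∧ j < 16 then LB b k j else 0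

/-- Gram matrix of the form `b`: the entry `(i, i-d)` is `∑_k conj (Λ_{k,i}) Λ_{k,i-d}`. -/
noncomputable def GM (b i d : ℕ) : ℂ :=
  ∑ k ∈ Finset.range 40, conj (K.lamc b k i) * K.lamc b k (i - d)

/-- matrix of an applied column -/
noncomputable def CM (c : Col) (i d : ℕ) : ℂ :=
  if c.cj then (unitQ c.u) ^ d * conj (K.GM c.nd i d) else (conj (unitQ c.u)) ^ d * K.GM c.nd i d

/-- `α_j = -(r ζ)^{j+1}` -/
noncomputable def al (ζ : ℂ) (j : ℕ) : ℂ := -((K.r : ℂ) * ζ) ^ (j + 1)

/-- `v_j = M_{0,j+1} q^{-(j+1)}` for `j + 1 < m` -/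
noncomputable def vv (b m j : ℕ) : ℂ :=
  if j + 1 < m then conj (K.GM b (j + 1) (j + 1)) * (K.q ^ (j + 1))⁻¹ else 0

/-- matrix of `x ↦ NT b m (A ζ (trunc m x))` -/
noncomputable def AM (b m : ℕ) (ζ : ℂ) (i d : ℕ) : ℂ :=
  conj (K.al ζ i) * (K.GM b 0 0 * K.al ζ (i - d) + K.vv b m (i - d))
    + conj (K.vv b m i) * K.al ζ (i - d)
    + (if i + 1 < m then K.q ^ d * K.GM b (i + 1) d else 0)

end Crit

end Pool.Agent.H93
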