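import Pool.Agent.Lib.H93.WordCheck
import Pool.Agent.Lib.H93.Quad
import Pool.Agent.Lib.H93.GramTab

/-!
MP_fb0703_an, chunk E: the exact Gaussian integers computed by the checker (scale `2^200`) and
their distance to the true matrix entries.
-/

namespace Pool.Agent.H93

open GaussianInt ComplexConjugate

namespace Lmi

/-- entries of one column, scale `2^200` -/
noncomputable def CZ (c : Col) (i d : ℕ) : GaussianInt :=
  if c.cj then
    ((c.mu * 1048576 : ℕ) : GaussianInt) *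
      zs (gi c.u * gi c.u) (nrm c.u) ((E60 : ℕ) : GaussianInt) d * star (gmG c.nd i d)
  else
    ((c.mu * 1048576 : ℕ) : GaussianInt) *
      zs (star (gi c.u) * star (gi c.u)) (nrm c.u) ((E60 : ℕ) : GaussianInt) d * gmG c.nd i d

/-- codes of `α_j = -(r ζ)^{j+1}`, scale `2^60` -/
noncomputable def alZ (z : ℤ × ℤ) (j : ℕ) : GaussianInt :=
  zs (gi z * gi z * ((r60 : ℕ) : GaussianInt)) (nrm z * E60) (-((E60 : ℕ) : GaussianInt)) (j + 1)

/-- codes of `-conj α_j = (r conj ζ)^{j+1}`, scale `2^60` -/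
noncomputable def gaZ (z : ℤ × ℤ) (j : ℕ) : GaussianInt :=
  zs (star (gi z) * star (gi z) * ((r60 : ℕ) : GaussianInt)) (nrm z * E60)
    ((E60 : ℕ) : GaussianInt) (j + 1)

/-- `v_j`, scale `2^140` -/
def vZ (b j : ℕ) : GaussianInt := star (gmG b (j + 1) (j + 1)) * tQ (j + 1)

/-- `-conj v_j`, scale `2^140` -/
def nvZ (b j : ℕ) : GaussianInt := -1 * (gmG b (j + 1) (j + 1) * star (tQ (j + 1)))

/-- `-q^d`, scale `2^120` -/
def nqZ (d : ℕ) : GaussianInt := -1 * ((1152921504606846976 : ℕ) : GaussianInt) * star (tQ d)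

/-- minus the target entries, scale `2^200` -/
noncomputable def TZ (b m : ℕ) (z : ℤ × ℤ) (i d : ℕ) : GaussianInt :=
  AZ m (gmG b 0 0) nqZ (alZ z) (gaZ z) (vZ b) (nvZ b) (fun i d => gmG b (i + 1) d) i d

end Lmi

end Pool.Agent.H93
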