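import Pool.Agent.Lib.H93.WordCheck
import Pool.Agent.Lib.H93.Quad
import Pool.Agent.Lib.H93.GramTab
import Pool.Agent.Lib.H93.WordInt

/-!
MP_fb0703_an, chunk E: the error of one column (`col_err`).
-/

namespace Pool.Agent.H93

open GaussianInt ComplexConjugate

namespace Lmi

theorem gi_toComplex (z : ℤ × ℤ) : ((gi z : GaussianInt) : ℂ) = (z.1 : ℂ) + z.2 * Complex.I := by
  rw [toComplex_def]; rfl

theorem nrm_cast (z : ℤ × ℤ) : ((nrm z : ℕ) : ℂ) = (z.1 : ℂ) ^ 2 + (z.2 : ℂ) ^ 2 := by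
  have h := nrm_eq z
  have h' : (((nrm z : ℕ) : ℤ) : ℂ) = ((z.1 ^ 2 + z.2 ^ 2 : ℤ) : ℂ) := by rw [h]
  push_cast at h'
  exact h'

theorem nrm_castR (z : ℤ × ℤ) : ((nrm z : ℕ) : ℝ) = (z.1 : ℝ) ^ 2 + (z.2 : ℝ) ^ 2 := by
  have h := nrm_eq z
  have h' : (((nrm z : ℕ) : ℤ) : ℝ) = ((z.1 ^ 2 + z.2 ^ 2 : ℤ) : ℝ) := by rw [h]
  push_cast at h'
  exact h'

theorem unitQ_eq_gi (z : ℤ × ℤ) :
    unitQ z = ((gi z * gi z : GaussianInt) : ℂ) / (nrm z : ℂ) := by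
  rw [toComplex_mul, gi_toComplex, nrm_cast, unitQ, sq]

theorem norm_gi_mul (z : ℤ × ℤ) : ‖((gi z * gi z : GaussianInt) : ℂ)‖ = (nrm z : ℝ) := by
  rw [toComplex_mul, norm_mul, gi_toComplex, ← sq, ← Complex.normSq_eq_norm_sq, nrm_castR]
  have e : (z.1 : ℂ) + z.2 * Complex.I = ((z.1 : ℝ) : ℂ) + ((z.2 : ℝ) : ℂ) * Complex.I := by
    push_cast
    rfl
  rw [e, Complex.normSq_add_mul_I]

theorem star_gi_mul (z : ℤ × ℤ) :
    ((star (gi z) * star (gi z) : GaussianInt) : ℂ) = conj ((gi z * gi z : GaussianInt) : ℂ) := by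
  rw [toComplex_mul, toComplex_mul, map_mul, toComplex_star]

theorem conj_unitQ_eq_gi (z : ℤ × ℤ) :
    conj (unitQ z) = ((star (gi z) * star (gi z) : GaussianInt) : ℂ) / (nrm z : ℂ) := by
  rw [star_gi_mul, unitQ_eq_gi, map_div₀]
  congr 1
  exact Complex.conj_natCast _

theorem norm_star_gi_mul (z : ℤ × ℤ) :
    ‖((star (gi z) * star (gi z) : GaussianInt) : ℂ)‖ = (nrm z : ℝ) := by
  rw [star_gi_mul, RCLike.norm_conj, norm_gi_mul]

theorem gmG_toC80 (b i d : ℕ) : ((gmG b i d : GaussianInt) : ℂ) / 2 ^ 80 = toC80 (gmZ b i d) := by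
  unfold gmG
  rw [gi_toComplex]
  have e : (2 : ℂ) ^ 80 = ((2 ^ 80 : ℕ) : ℂ) := by norm_num
  rw [e]
  apply Complex.ext
  · rw [Complex.div_natCast_re]
    simp [toC80]
    norm_num
  · rw [Complex.div_natCast_im]
    simp [toC80]
    norm_num

theorem norm_toC80_le (b i d : ℕ) : ‖toC80 (gmZ b i d)‖ ≤ 1 := by
  refine (Complex.norm_le_abs_re_add_abs_im _).trans ?_
  obtain ⟨h1, h2⟩ := gmZ_bound b i d
  have h1' : |((gmZ b i d).1 : ℝ)| ≤ 2 ^ 79 := by exact_mod_cast h1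
  have h2' : |((gmZ b i d).2 : ℝ)| ≤ 2 ^ 79 := by exact_mod_cast h2
  simp only [toC80]
  rw [abs_div, abs_div, abs_of_pos (by positivity : (0 : ℝ) < 2 ^ 80), ← add_div,
    div_le_one (by positivity)]
  have e : (2 : ℝ) ^ 80 = 2 ^ 79 + 2 ^ 79 := by norm_num
  rw [e]
  exact add_le_add h1' h2'

theorem norm_gmG_le (b i d : ℕ) : ‖((gmG b i d : GaussianInt) : ℂ) / 2 ^ 80‖ ≤ 1 := by
  rw [gmG_toC80]; exact norm_toC80_le b i d

/-- the basic estimate for one entry of a column -/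
theorem col_core {w : GaussianInt} {n : ℕ} (hn : 0 < n) (hw : ‖(w : ℂ)‖ ≤ n) {G : GaussianInt}
    {g : ℂ} (hG : ‖(G : ℂ) / 2 ^ 80‖ ≤ 1) (hg : ‖(G : ℂ) / 2 ^ 80 - g‖ ≤ 8e-15) (mu : ℕ) {d : ℕ}
    (hd : d ≤ 39) :
    ‖((((mu * 1048576 : ℕ) : GaussianInt) * zs w n ((E60 : ℕ) : GaussianInt) d * G :
        GaussianInt) : ℂ) / 2 ^ 200 - (((mu : ℝ) / 2 ^ 40 : ℝ) : ℂ) * (((w : ℂ) / n) ^ d * g)‖ ≤
      (mu : ℝ) / 2 ^ 40 * 8.2e-15 := by
  have hn3 : (0 : ℝ) < n := by exact_mod_cast hn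
  set Z : ℂ := (zs w n ((E60 : ℕ) : GaussianInt) d : ℂ) with hZ
  set u : ℂ := (w : ℂ) / n with hu
  have hu1 : ‖u‖ ≤ 1 := by
    rw [hu, norm_div, Complex.norm_natCast, div_le_one hn3]; exact hw
  have hud : ‖u ^ d‖ ≤ 1 := by rw [norm_pow]; exact pow_le_one₀ (norm_nonneg _) hu1
  have hE : (((E60 : ℕ) : GaussianInt) : ℂ) = 2 ^ 60 := by
    rw [map_natCast]; norm_num [E60]
  have hz : ‖Z - 2 ^ 60 * u ^ d‖ ≤ 2 * d := by
    have := zs_error w hn hw ((E60 : ℕ) : GaussianInt) d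
    rwa [hE] at this
  have hd' : (d : ℝ) ≤ 39 := by exact_mod_cast hd
  have hz2 : ‖Z / 2 ^ 60 - u ^ d‖ ≤ 78 / 2 ^ 60 := by
    have e : Z / 2 ^ 60 - u ^ d = (Z - 2 ^ 60 * u ^ d) / 2 ^ 60 := by
      field_simp
    rw [e, norm_div]
    have e2 : ‖(2 : ℂ) ^ 60‖ = 2 ^ 60 := by simp
    rw [e2]
    apply div_le_div_of_nonneg_right _ (by positivity)
    linarith
  have e3 : ((((mu * 1048576 : ℕ) : GaussianInt) * zs w n ((E60 : ℕ) : GaussianInt) d * G :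
        GaussianInt) : ℂ) / 2 ^ 200 =
      (((mu : ℝ) / 2 ^ 40 : ℝ) : ℂ) * ((Z / 2 ^ 60) * ((G : ℂ) / 2 ^ 80)) := by
    rw [toComplex_mul, toComplex_mul, map_natCast, ← hZ]
    push_cast
    field_simp
    ring
  rw [e3, ← mul_sub, norm_mul, Complex.norm_real, Real.norm_of_nonneg (by positivity)]
  apply mul_le_mul_of_nonneg_left _ (by positivity)
  have e4 : Z / 2 ^ 60 * ((G : ℂ) / 2 ^ 80) - u ^ d * g =
      (Z / 2 ^ 60 - u ^ d) * ((G : ℂ) / 2 ^ 80) + u ^ d * ((G : ℂ) / 2 ^ 80 - g) := by ring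
  rw [e4]
  refine (norm_add_le _ _).trans ?_
  rw [norm_mul, norm_mul]
  have h1 : ‖Z / 2 ^ 60 - u ^ d‖ * ‖(G : ℂ) / 2 ^ 80‖ ≤ 78 / 2 ^ 60 * 1 :=
    mul_le_mul hz2 hG (norm_nonneg _) (by positivity)
  have h2 : ‖u ^ d‖ * ‖(G : ℂ) / 2 ^ 80 - g‖ ≤ 1 * 8e-15 :=
    mul_le_mul hud hg (norm_nonneg _) (by positivity)
  have h3 : (78 : ℝ) / 2 ^ 60 * 1 + 1 * 8e-15 ≤ 8.2e-15 := by norm_num
  linarith

end Lmi

open Lmi

variable (K : Crit)

/-- (b1) error of a column -/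
theorem col_err' (c : Col) (hnd : c.nd < 5) (hn : 1 ≤ nrm c.u) {i d : ℕ} (hi : i < 40)
    (hd : d ≤ i) :
    ‖((CZ c i d : GaussianInt) : ℂ) / 2 ^ 200 - (((c.mu : ℝ) / 2 ^ 40 : ℝ) : ℂ) * K.CM c i d‖ ≤
      (c.mu : ℝ) / 2 ^ 40 * 8.2e-15 := by
  have hs := gm_spec K hnd hi hd
  rw [← gmG_toC80, norm_sub_rev] at hs
  have hb := norm_gmG_le c.nd i d
  unfold CZ Crit.CM
  split_ifs with hc
  · have h := col_core (w := gi c.u * gi c.u) (n := nrm c.u) (by omega) (norm_gi_mul c.u).le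
      (G := star (gmG c.nd i d)) (g := conj (K.GM c.nd i d)) ?_ ?_ c.mu (d := d) (by omega)
    · rw [← unitQ_eq_gi] at h
      exact h
    · rw [toComplex_star]
      have e : conj ((gmG c.nd i d : GaussianInt) : ℂ) / 2 ^ 80 =
          conj (((gmG c.nd i d : GaussianInt) : ℂ) / 2 ^ 80) := by
        rw [map_div₀, map_pow, Complex.conj_ofNat]
      rw [e, RCLike.norm_conj]; exact hb
    · rw [toComplex_star]
      have e : conj ((gmG c.nd i d : GaussianInt) : ℂ) / 2 ^ 80 =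
          conj (((gmG c.nd i d : GaussianInt) : ℂ) / 2 ^ 80) := by
        rw [map_div₀, map_pow, Complex.conj_ofNat]
      rw [e, ← map_sub, RCLike.norm_conj]; exact hs
  · have h := col_core (w := star (gi c.u) * star (gi c.u)) (n := nrm c.u) (by omega)
      (norm_star_gi_mul c.u).le (G := gmG c.nd i d) (g := K.GM c.nd i d) hb hs c.mu
      (d := d) (by omega)
    rw [← conj_unitQ_eq_gi] at h
    exact h

end Pool.Agent.H93
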