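import Pool.Agent.Lib.H93.WordInt

/-!
MP_fb0703_an, chunk E: error of the target matrix (b2).
-/

namespace Pool.Agent.H93

open GaussianInt ComplexConjugate

open Lmi

namespace Err2

theorem gi_toC (z : ℤ × ℤ) : ((gi z : GaussianInt) : ℂ) = (z.1 : ℂ) + (z.2 : ℂ) * Complex.I := by
  rw [toComplex_def]
  rfl

theorem star_toC (z : GaussianInt) : ((star z : GaussianInt) : ℂ) = conj (z : ℂ) := by
  rw [toComplex_star]

theorem nrm_toC (z : ℤ × ℤ) : ((nrm z : ℕ) : ℂ) = (z.1 : ℂ) ^ 2 + (z.2 : ℂ) ^ 2 := by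
  have h := nrm_eq z
  have h2 : (((nrm z : ℕ) : ℤ) : ℂ) = ((z.1 ^ 2 + z.2 ^ 2 : ℤ) : ℂ) := by rw [h]
  push_cast at h2
  exact h2

theorem nrm_toR (z : ℤ × ℤ) : ((nrm z : ℕ) : ℝ) = (z.1 : ℝ) ^ 2 + (z.2 : ℝ) ^ 2 := by
  have h := nrm_eq z
  have h2 : (((nrm z : ℕ) : ℤ) : ℝ) = ((z.1 ^ 2 + z.2 ^ 2 : ℤ) : ℝ) := by rw [h]
  push_cast at h2
  exact h2

theorem unitQ_eq (z : ℤ × ℤ) :
    unitQ z = ((gi z : GaussianInt) : ℂ) * ((gi z : GaussianInt) : ℂ) / ((nrm z : ℕ) : ℂ) := by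
  rw [gi_toC, nrm_toC, unitQ, sq (_ + _)]

theorem norm_gi_mul (z : ℤ × ℤ) :
    ‖((gi z : GaussianInt) : ℂ) * ((gi z : GaussianInt) : ℂ)‖ = ((nrm z : ℕ) : ℝ) := by
  rw [norm_mul, ← sq, ← Complex.normSq_eq_norm_sq, gi_toC, Complex.normSq_apply, nrm_toR]
  simp
  ring

theorem norm_unitQ_one {z : ℤ × ℤ} (hz : 1 ≤ nrm z) : ‖unitQ z‖ = 1 := by
  have h : (0 : ℝ) < ((nrm z : ℕ) : ℝ) := by exact_mod_cast hz
  rw [unitQ_eq, norm_div, norm_gi_mul, Complex.norm_natCast, div_self h.ne']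

theorem toC80_gm (b i d : ℕ) : toC80 (gmZ b i d) = ((gmG b i d : GaussianInt) : ℂ) / 2 ^ 80 := by
  have e : ((2 : ℂ) ^ 80) = (((2 : ℝ) ^ 80 : ℝ) : ℂ) := by push_cast; rfl
  rw [gmG, gi_toC, e]
  apply Complex.ext
  · rw [Complex.div_ofReal_re]
    simp [toC80]
  · rw [Complex.div_ofReal_im]
    simp [toC80]

theorem toC60_tQ (j : ℕ) : toC60 (tabQ.getD j 0) = ((tQ j : GaussianInt) : ℂ) / 2 ^ 60 := by
  have e : ((2 : ℂ) ^ 60) = (((2 : ℝ) ^ 60 : ℝ) : ℂ) := by push_cast; rfl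
  rw [tQ, gi_toC, e]
  apply Complex.ext
  · rw [Complex.div_ofReal_re]
    simp [toC60]
  · rw [Complex.div_ofReal_im]
    simp [toC60]

theorem norm_gmG (b i d : ℕ) : ‖((gmG b i d : GaussianInt) : ℂ) / 2 ^ 80‖ ≤ 0.7072 := by
  obtain ⟨h1, h2⟩ := gmZ_bound b i d
  rw [← toC80_gm]
  apply abs_le_of_sq_le_sq' _ (by norm_num) |>.2
  rw [← Complex.normSq_eq_norm_sq, Complex.normSq_apply]
  simp only [toC80]
  have h1' : |((gmZ b i d).1 : ℝ)| ≤ 2 ^ 79 := by exact_mod_cast h1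
  have h2' : |((gmZ b i d).2 : ℝ)| ≤ 2 ^ 79 := by exact_mod_cast h2
  have k1 : |((gmZ b i d).1 : ℝ) / 2 ^ 80| ≤ 1 / 2 := by
    rw [abs_div, abs_of_pos (by positivity : (0 : ℝ) < 2 ^ 80), div_le_iff₀ (by positivity)]
    refine h1'.trans (by norm_num)
  have k2 : |((gmZ b i d).2 : ℝ) / 2 ^ 80| ≤ 1 / 2 := by
    rw [abs_div, abs_of_pos (by positivity : (0 : ℝ) < 2 ^ 80), div_le_iff₀ (by positivity)]
    refine h2'.trans (by norm_num)
  have k3 := sq_le_sq' (abs_le.1 k1).1 (abs_le.1 k1).2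
  have k4 := sq_le_sq' (abs_le.1 k2).1 (abs_le.1 k2).2
  nlinarith

theorem E60_eq : E60 = 2 ^ 60 := by norm_num [E60]

variable (K : Crit)

theorem r60_spec : |K.r - ((r60 : ℕ) : ℝ) / 2 ^ 60| ≤ 1e-17 := by
  have h := K.tabR_spec 1 (by norm_num)
  have e : tabR.getD 1 0 = ((r60 : ℕ) : ℤ) := by decide +kernel
  rw [e, pow_one, Int.cast_natCast] at h
  exact h

theorem abs_pow_sub_pow_le_mul {a b : ℝ} (ha : |a| ≤ 1) (hb : |b| ≤ 1) (n : ℕ) :
    |a ^ n - b ^ n| ≤ n * |a - b| := by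
  induction n with
  | zero => simp
  | succ n ih =>
    have e : a ^ (n + 1) - b ^ (n + 1) = a * (a ^ n - b ^ n) + b ^ n * (a - b) := by ring
    rw [e]
    refine (abs_add_le _ _).trans ?_
    rw [abs_mul, abs_mul]
    have h1 : |a| * |a ^ n - b ^ n| ≤ 1 * |a ^ n - b ^ n| :=
      mul_le_mul_of_nonneg_right ha (abs_nonneg _)
    have h2 : |b ^ n| * |a - b| ≤ 1 * |a - b| := by
      apply mul_le_mul_of_nonneg_right _ (abs_nonneg _)
      rw [abs_pow]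
      exact pow_le_one₀ (abs_nonneg _) hb
    push_cast
    linarith

theorem pw_err {n : ℕ} (hn : 1 ≤ n) {w z0 : GaussianInt} (hw : ‖(w : ℂ)‖ = n)
    (h0 : ‖(z0 : ℂ)‖ = 2 ^ 60) {k : ℕ} (hk : k ≤ 40) :
    ‖(zs (w * ((r60 : ℕ) : GaussianInt)) (n * E60) z0 k : ℂ) / 2 ^ 60 -
      (z0 / 2 ^ 60) * ((K.r : ℂ) * ((w : ℂ) / n)) ^ k‖ ≤ 4.7e-16 := by
  have hn0 : (0 : ℝ) < n := by exact_mod_cast hn
  have hr60 : (((r60 : ℕ) : GaussianInt) : ℂ) = ((r60 : ℕ) : ℂ) := by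
    simp
  have hρ1 : ((r60 : ℕ) : ℝ) / 2 ^ 60 ≤ 1 := by
    rw [div_le_one (by positivity)]
    norm_num [r60]
  have hρ0 : 0 ≤ ((r60 : ℕ) : ℝ) / 2 ^ 60 := by positivity
  have hne : 0 < n * E60 := by
    rw [E60_eq]
    positivity
  have hw' : ‖((w * ((r60 : ℕ) : GaussianInt) : GaussianInt) : ℂ)‖ ≤ ((n * E60 : ℕ) : ℝ) := by
    rw [toComplex_mul, norm_mul, hw, hr60, Complex.norm_natCast, E60_eq]
    push_cast
    apply mul_le_mul_of_nonneg_left _ hn0.le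
    norm_num [r60]
  have h1 := zs_error (w * ((r60 : ℕ) : GaussianInt)) hne hw' z0 k
  have e1 : ((w * ((r60 : ℕ) : GaussianInt) : GaussianInt) : ℂ) / ((n * E60 : ℕ) : ℂ) =
      ((w : ℂ) / n) * ((((r60 : ℕ) : ℝ) / 2 ^ 60 : ℝ) : ℂ) := by
    rw [toComplex_mul, hr60, E60_eq]
    push_cast
    field_simp
    norm_num
  rw [e1] at h1
  set ρ : ℝ := ((r60 : ℕ) : ℝ) / 2 ^ 60 with hρ
  set u : ℂ := (w : ℂ) / n with hu
  have hu1 : ‖u‖ = 1 := by
    rw [hu, norm_div, hw, Complex.norm_natCast, div_self hn0.ne']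
  have h2 : ‖((K.r : ℂ) * u) ^ k - (u * (ρ : ℂ)) ^ k‖ ≤ 4e-16 := by
    have e2 : ((K.r : ℂ) * u) ^ k - (u * (ρ : ℂ)) ^ k = u ^ k * ((K.r ^ k - ρ ^ k : ℝ) : ℂ) := by
      push_cast
      ring
    rw [e2, norm_mul, norm_pow, hu1, one_pow, one_mul, Complex.norm_real, Real.norm_eq_abs]
    refine (abs_pow_sub_pow_le_mul (by rw [abs_of_pos K.r_pos]; exact K.r_lt_one.le)
      (by rw [abs_of_nonneg hρ0]; exact hρ1) k).trans ?_
    have hk' : (k : ℝ) ≤ 40 := by exact_mod_cast hk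
    have h3 := r60_spec K
    calc (k : ℝ) * |K.r - ρ| ≤ 40 * 1e-17 :=
          mul_le_mul hk' h3 (abs_nonneg _) (by norm_num)
      _ = 4e-16 := by norm_num
  have e3 : (zs (w * ((r60 : ℕ) : GaussianInt)) (n * E60) z0 k : ℂ) / 2 ^ 60 -
      (z0 / 2 ^ 60) * ((K.r : ℂ) * u) ^ k =
      ((zs (w * ((r60 : ℕ) : GaussianInt)) (n * E60) z0 k : ℂ) - z0 * (u * (ρ : ℂ)) ^ k) / 2 ^ 60 -
      (z0 / 2 ^ 60) * (((K.r : ℂ) * u) ^ k - (u * (ρ : ℂ)) ^ k) := by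
    ring
  rw [e3]
  refine (norm_sub_le _ _).trans ?_
  rw [norm_div, norm_mul, norm_div, h0]
  have h4 : ‖(2 : ℂ) ^ 60‖ = 2 ^ 60 := by
    rw [norm_pow, Complex.norm_two]
  rw [h4, div_self (by positivity), one_mul]
  have hk' : (k : ℝ) ≤ 40 := by exact_mod_cast hk
  have h5 : ‖(zs (w * ((r60 : ℕ) : GaussianInt)) (n * E60) z0 k : ℂ) - z0 * (u * (ρ : ℂ)) ^ k‖ /
      2 ^ 60 ≤ 80 / 2 ^ 60 := by
    apply div_le_div_of_nonneg_right _ (by positivity)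
    linarith
  have h6 : (80 : ℝ) / 2 ^ 60 ≤ 0.7e-16 := by norm_num
  linarith

theorem al_err (z : ℤ × ℤ) (hz : 1 ≤ nrm z) {j : ℕ} (hj : j < 40) :
    ‖((alZ z j : GaussianInt) : ℂ) / 2 ^ 60 - K.al (unitQ z) j‖ ≤ 4.7e-16 := by
  have hw : ‖((gi z * gi z : GaussianInt) : ℂ)‖ = ((nrm z : ℕ) : ℝ) := by
    rw [toComplex_mul]
    exact norm_gi_mul z
  have h0 : (((-((E60 : ℕ) : GaussianInt)) : GaussianInt) : ℂ) = -2 ^ 60 := by
    rw [map_neg, map_natCast, E60_eq]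
    norm_num
  have h := pw_err K hz hw (z0 := -((E60 : ℕ) : GaussianInt))
    (by rw [h0, norm_neg, norm_pow, Complex.norm_two]) (k := j + 1) (by omega)
  rw [h0] at h
  have e : (-2 ^ 60 / 2 ^ 60 : ℂ) * ((K.r : ℂ) * (((gi z * gi z : GaussianInt) : ℂ) / (nrm z : ℕ))) ^ (j + 1) =
      K.al (unitQ z) j := by
    rw [Crit.al, unitQ_eq, toComplex_mul]
    norm_num
  rw [e] at h
  exact h

theorem ga_err (z : ℤ × ℤ) (hz : 1 ≤ nrm z) {j : ℕ} (hj : j < 40) :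
    ‖((gaZ z j : GaussianInt) : ℂ) / 2 ^ 60 + conj (K.al (unitQ z) j)‖ ≤ 4.7e-16 := by
  have hw : ‖((star (gi z) * star (gi z) : GaussianInt) : ℂ)‖ = ((nrm z : ℕ) : ℝ) := by
    rw [toComplex_mul, star_toC, ← map_mul, RCLike.norm_conj]
    exact norm_gi_mul z
  have h0 : (((E60 : ℕ) : GaussianInt) : ℂ) = 2 ^ 60 := by
    rw [map_natCast, E60_eq]
    norm_num
  have h := pw_err K hz hw (z0 := ((E60 : ℕ) : GaussianInt))
    (by rw [h0, norm_pow, Complex.norm_two]) (k := j + 1) (by omega)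
  rw [h0] at h
  have e : (2 ^ 60 / 2 ^ 60 : ℂ) *
      ((K.r : ℂ) * (((star (gi z) * star (gi z) : GaussianInt) : ℂ) / (nrm z : ℕ))) ^ (j + 1) =
      -conj (K.al (unitQ z) j) := by
    rw [Crit.al, unitQ_eq, toComplex_mul, star_toC]
    simp
  rw [e, sub_neg_eq_add] at h
  exact h

theorem norm_al_le {z : ℤ × ℤ} (hz : 1 ≤ nrm z) (j : ℕ) : ‖K.al (unitQ z) j‖ ≤ 0.5613 := by
  rw [Crit.al, norm_neg, norm_pow, norm_mul, norm_unitQ_one hz, mul_one, Complex.norm_real,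
    Real.norm_of_nonneg K.r_pos.le]
  calc K.r ^ (j + 1) ≤ K.r ^ 1 :=
        pow_le_pow_of_le_one K.r_pos.le K.r_lt_one.le (by omega)
    _ ≤ 0.5613 := by rw [pow_one]; exact K.r_lt.le

theorem tQ_err {j : ℕ} (hj : j ≤ 60) :
    ‖((tQ j : GaussianInt) : ℂ) / 2 ^ 60 - (K.q ^ j)⁻¹‖ ≤ 1e-16 := by
  rw [norm_sub_rev, ← toC60_tQ]
  refine (K.tabQ_spec' j hj).trans (by norm_num)

theorem conj_inv_q (j : ℕ) : conj ((K.q ^ j)⁻¹) = K.q ^ j := by
  have h : ‖K.q ^ j‖ = 1 := by rw [norm_pow, K.hq, one_pow]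
  rw [Complex.inv_def, map_mul, Complex.conj_conj, Complex.conj_ofReal,
    Complex.normSq_eq_norm_sq, h]
  simp

theorem gmG_err {b : ℕ} (hb : b < 5) {i d : ℕ} (hi : i < 40) (hd : d ≤ i) :
    ‖((gmG b i d : GaussianInt) : ℂ) / 2 ^ 80 - K.GM b i d‖ ≤ 8e-15 := by
  rw [norm_sub_rev, ← toC80_gm]
  exact gm_spec K hb hi hd

/-- product of approximations -/
theorem mul_err {x x' y y' : ℂ} {a b c d : ℝ} (h1 : ‖x - x'‖ ≤ a) (h2 : ‖y - y'‖ ≤ b)
    (h3 : ‖y'‖ ≤ c) (h4 : ‖x‖ ≤ d) : ‖x * y - x' * y'‖ ≤ a * c + d * b := by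
  have e : x * y - x' * y' = (x - x') * y' + x * (y - y') := by ring
  rw [e]
  refine (norm_add_le _ _).trans ?_
  rw [norm_mul, norm_mul]
  exact add_le_add (mul_le_mul h1 h3 (_root_.norm_nonneg _) ((_root_.norm_nonneg _).trans h1))
    (mul_le_mul h4 h2 (_root_.norm_nonneg _) ((_root_.norm_nonneg _).trans h4))

theorem v_err {b : ℕ} (hb : b < 5) {j : ℕ} (hj : j + 1 < 40) :
    ‖((vZ b j : GaussianInt) : ℂ) / 2 ^ 140 - conj (K.GM b (j + 1) (j + 1)) * (K.q ^ (j + 1))⁻¹‖ ≤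
      8.08e-15 := by
  have e : ((vZ b j : GaussianInt) : ℂ) / 2 ^ 140 =
      conj (((gmG b (j + 1) (j + 1) : GaussianInt) : ℂ) / 2 ^ 80) *
        (((tQ (j + 1) : GaussianInt) : ℂ) / 2 ^ 60) := by
    rw [vZ, toComplex_mul, star_toC, map_div₀, map_pow, map_ofNat]
    ring
  rw [e]
  have h1 : ‖conj (((gmG b (j + 1) (j + 1) : GaussianInt) : ℂ) / 2 ^ 80) -
      conj (K.GM b (j + 1) (j + 1))‖ ≤ 8e-15 := by
    rw [← map_sub, RCLike.norm_conj]
    exact gmG_err K hb hj le_rfl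
  have h2 := tQ_err K (j := j + 1) (by omega)
  have h3 : ‖(K.q ^ (j + 1))⁻¹‖ ≤ 1 := by rw [norm_inv, norm_pow, K.hq, one_pow, inv_one]
  have h4 : ‖conj (((gmG b (j + 1) (j + 1) : GaussianInt) : ℂ) / 2 ^ 80)‖ ≤ 0.7072 := by
    rw [RCLike.norm_conj]
    exact norm_gmG _ _ _
  refine (mul_err h1 h2 h3 h4).trans (by norm_num)

theorem nv_eq (b j : ℕ) : ((nvZ b j : GaussianInt) : ℂ) / 2 ^ 140 =
    - conj (((vZ b j : GaussianInt) : ℂ) / 2 ^ 140) := by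
  rw [nvZ, vZ, toComplex_mul, toComplex_mul, toComplex_mul, star_toC, star_toC, map_div₀,
    map_pow, map_ofNat, map_mul, Complex.conj_conj, map_neg, map_one]
  ring

theorem nv_err {b : ℕ} (hb : b < 5) {j : ℕ} (hj : j + 1 < 40) :
    ‖((nvZ b j : GaussianInt) : ℂ) / 2 ^ 140 +
      conj (conj (K.GM b (j + 1) (j + 1)) * (K.q ^ (j + 1))⁻¹)‖ ≤ 8.08e-15 := by
  rw [nv_eq, ← norm_neg, neg_add, neg_neg, ← sub_eq_add_neg, ← map_sub, RCLike.norm_conj]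
  exact v_err K hb hj

theorem nq_err {d : ℕ} (hd : d ≤ 60) :
    ‖((nqZ d : GaussianInt) : ℂ) / 2 ^ 120 + K.q ^ d‖ ≤ 1e-16 := by
  have e : ((nqZ d : GaussianInt) : ℂ) / 2 ^ 120 + K.q ^ d =
      - conj (((tQ d : GaussianInt) : ℂ) / 2 ^ 60 - (K.q ^ d)⁻¹) := by
    rw [nqZ, toComplex_mul, toComplex_mul, star_toC, map_sub, conj_inv_q, map_div₀, map_pow,
      map_ofNat, map_neg, map_one, map_natCast]
    push_cast
    ring
  rw [e, norm_neg, RCLike.norm_conj]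
  exact tQ_err K hd

theorem TZ_eq (b m : ℕ) (z : ℤ × ℤ) (i d : ℕ) :
    ((TZ b m z i d : GaussianInt) : ℂ) / 2 ^ 200 =
      (((gaZ z i : GaussianInt) : ℂ) / 2 ^ 60) *
        ((((gmG b 0 0 : GaussianInt) : ℂ) / 2 ^ 80) * (((alZ z (i - d) : GaussianInt) : ℂ) / 2 ^ 60)
          + (if i - d + 1 < m then ((vZ b (i - d) : GaussianInt) : ℂ) / 2 ^ 140 else 0)) +
      (if i + 1 < m then
        (((nvZ b i : GaussianInt) : ℂ) / 2 ^ 140) * (((alZ z (i - d) : GaussianInt) : ℂ) / 2 ^ 60) +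
        (((nqZ d : GaussianInt) : ℂ) / 2 ^ 120) * (((gmG b (i + 1) d : GaussianInt) : ℂ) / 2 ^ 80)
        else 0) := by
  rw [TZ, AZ]
  split_ifs <;> simp only [toComplex_add, toComplex_mul, toComplex_zero] <;> ring

end Err2

variable (K : Crit)

open Err2 in
/-- (b2) error of the target. -/
theorem target_err {b : ℕ} (hb : b < 5) {m : ℕ} (hm : m ≤ 40) (z : ℤ × ℤ) (hz : 1 ≤ nrm z)
    {i d : ℕ} (hi : i < m) (hd : d ≤ i) :
    ‖((TZ b m z i d : GaussianInt) : ℂ) / 2 ^ 200 + K.AM b m (unitQ z) i d‖ ≤ 2.2e-14 := by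
  rw [TZ_eq, Crit.AM]
  have hA := al_err K z hz (j := i - d) (by omega)
  have hG := ga_err K z hz (j := i) (by omega)
  have nA := norm_al_le K hz (i - d)
  have nG := norm_al_le K hz i
  have hM := gmG_err K hb (i := 0) (d := 0) (by norm_num) le_rfl
  have nM := norm_gmG b 0 0
  set A : ℂ := ((alZ z (i - d) : GaussianInt) : ℂ) / 2 ^ 60 with hAdef
  set a : ℂ := K.al (unitQ z) (i - d) with hadef
  set G : ℂ := ((gaZ z i : GaussianInt) : ℂ) / 2 ^ 60 with hGdef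
  set g : ℂ := K.al (unitQ z) i with hgdef
  set M : ℂ := ((gmG b 0 0 : GaussianInt) : ℂ) / 2 ^ 80 with hMdef
  have hG' : ‖G - (-conj g)‖ ≤ 4.7e-16 := by rw [sub_neg_eq_add]; exact hG
  have nG' : ‖-conj g‖ ≤ 0.5613 := by rw [norm_neg, RCLike.norm_conj]; exact nG
  have nGG : ‖G‖ ≤ 0.56131 := by
    have h : G = (G - (-conj g)) + (-conj g) := by ring
    rw [h]
    refine (norm_add_le _ _).trans ?_
    norm_num at hG' nG' ⊢
    linarith
  -- term 1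
  have hMA : ‖M * A - K.GM b 0 0 * a‖ ≤ 8e-15 * 0.5613 + 0.7072 * 4.7e-16 :=
    mul_err hM hA nA nM
  have t1 : ‖G * (M * A) - (-conj g) * (K.GM b 0 0 * a)‖ ≤
      4.7e-16 * 0.4 + 0.56131 * (8e-15 * 0.5613 + 0.7072 * 4.7e-16) := by
    refine mul_err hG' hMA ?_ nGG
    rw [norm_mul]
    have h : ‖K.GM b 0 0‖ ≤ 0.7073 := by
      have h' : K.GM b 0 0 = M - (M - K.GM b 0 0) := by ring
      rw [h']
      refine (norm_sub_le _ _).trans ?_
      norm_num at nM hM ⊢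
      linarith
    calc ‖K.GM b 0 0‖ * ‖a‖ ≤ 0.7073 * 0.5613 :=
          mul_le_mul h nA (_root_.norm_nonneg _) (by norm_num)
      _ ≤ 0.4 := by norm_num
  -- term 2
  have t2 : ‖G * (if i - d + 1 < m then ((vZ b (i - d) : GaussianInt) : ℂ) / 2 ^ 140 else 0) -
      (-conj g) * K.vv b m (i - d)‖ ≤ 4.7e-16 * 0.7073 + 0.56131 * 8.08e-15 := by
    rw [Crit.vv]
    split_ifs with h
    · refine mul_err hG' (v_err K hb (by omega)) ?_ nGG
      rw [norm_mul, RCLike.norm_conj, norm_inv, norm_pow, K.hq, one_pow, inv_one, mul_one]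
      have hM' := gmG_err K hb (i := i - d + 1) (d := i - d + 1) (by omega) le_rfl
      have nM' := norm_gmG b (i - d + 1) (i - d + 1)
      set M' : ℂ := ((gmG b (i - d + 1) (i - d + 1) : GaussianInt) : ℂ) / 2 ^ 80
      have h' : K.GM b (i - d + 1) (i - d + 1) = M' - (M' - K.GM b (i - d + 1) (i - d + 1)) := by
        ring
      rw [h']
      refine (norm_sub_le _ _).trans ?_
      norm_num at nM' hM' ⊢
      linarith
    · rw [mul_zero, mul_zero, sub_zero, norm_zero]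
      norm_num
  by_cases hi1 : i + 1 < m
  · -- term 3
    have hvv : K.vv b m i = conj (K.GM b (i + 1) (i + 1)) * (K.q ^ (i + 1))⁻¹ := by
      rw [Crit.vv, if_pos hi1]
    have hNV := nv_err K hb (j := i) (by omega)
    rw [← hvv] at hNV
    have hNV' : ‖((nvZ b i : GaussianInt) : ℂ) / 2 ^ 140 - (-conj (K.vv b m i))‖ ≤ 8.08e-15 := by
      rw [sub_neg_eq_add]; exact hNV
    have nNV : ‖((nvZ b i : GaussianInt) : ℂ) / 2 ^ 140‖ ≤ 0.7073 := by
      have h1 : ‖((vZ b i : GaussianInt) : ℂ) / 2 ^ 140‖ ≤ 0.7073 := by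
        have e : ((vZ b i : GaussianInt) : ℂ) / 2 ^ 140 =
            conj (((gmG b (i + 1) (i + 1) : GaussianInt) : ℂ) / 2 ^ 80) *
              (((tQ (i + 1) : GaussianInt) : ℂ) / 2 ^ 60) := by
          rw [vZ, toComplex_mul, star_toC, map_div₀, map_pow, map_ofNat]
          ring
        rw [e, norm_mul, RCLike.norm_conj]
        have h2 := norm_gmG b (i + 1) (i + 1)
        have h3 := tQ_err K (j := i + 1) (by omega)
        have h4 : ‖((tQ (i + 1) : GaussianInt) : ℂ) / 2 ^ 60‖ ≤ 1.0001 := by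
          have h5 : ((tQ (i + 1) : GaussianInt) : ℂ) / 2 ^ 60 =
              (((tQ (i + 1) : GaussianInt) : ℂ) / 2 ^ 60 - (K.q ^ (i + 1))⁻¹) +
                (K.q ^ (i + 1))⁻¹ := by ring
          rw [h5]
          refine (norm_add_le _ _).trans ?_
          have h6 : ‖(K.q ^ (i + 1))⁻¹‖ = 1 := by
            rw [norm_inv, norm_pow, K.hq, one_pow, inv_one]
          rw [h6]
          norm_num at h3 ⊢
          linarith
        calc _ ≤ (0.7072 : ℝ) * 1.0001 := mul_le_mul h2 h4 (_root_.norm_nonneg _) (by norm_num)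
          _ ≤ 0.7073 := by norm_num
      rw [nv_eq, norm_neg, RCLike.norm_conj]
      exact h1
    have t3 := mul_err hNV' hA nA nNV
    -- term 4
    have hNQ := nq_err K (d := d) (by omega)
    have hNQ' : ‖((nqZ d : GaussianInt) : ℂ) / 2 ^ 120 - (-K.q ^ d)‖ ≤ 1e-16 := by
      rw [sub_neg_eq_add]; exact hNQ
    have hMT := gmG_err K hb (i := i + 1) (d := d) (by omega) (by omega)
    have nMT := norm_gmG b (i + 1) d
    have nGM : ‖K.GM b (i + 1) d‖ ≤ 0.7073 := by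
      set M' : ℂ := ((gmG b (i + 1) d : GaussianInt) : ℂ) / 2 ^ 80
      have h' : K.GM b (i + 1) d = M' - (M' - K.GM b (i + 1) d) := by ring
      rw [h']
      refine (norm_sub_le _ _).trans ?_
      norm_num at nMT hMT ⊢
      linarith
    have nNQ : ‖((nqZ d : GaussianInt) : ℂ) / 2 ^ 120‖ ≤ 1.0001 := by
      have h5 : ((nqZ d : GaussianInt) : ℂ) / 2 ^ 120 =
          (((nqZ d : GaussianInt) : ℂ) / 2 ^ 120 - (-K.q ^ d)) + (-K.q ^ d) := by ring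
      rw [h5]
      refine (norm_add_le _ _).trans ?_
      rw [norm_neg, norm_pow, K.hq, one_pow]
      norm_num at hNQ' ⊢
      linarith
    have t4 := mul_err hNQ' hMT nGM nNQ
    rw [if_pos hi1, if_pos hi1]
    set V : ℂ := if i - d + 1 < m then ((vZ b (i - d) : GaussianInt) : ℂ) / 2 ^ 140 else 0
    set NV : ℂ := ((nvZ b i : GaussianInt) : ℂ) / 2 ^ 140
    set NQ : ℂ := ((nqZ d : GaussianInt) : ℂ) / 2 ^ 120
    set MT : ℂ := ((gmG b (i + 1) d : GaussianInt) : ℂ) / 2 ^ 80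
    have e : G * (M * A + V) + (NV * A + NQ * MT) +
        (conj g * (K.GM b 0 0 * a + K.vv b m (i - d)) + conj (K.vv b m i) * a +
          K.q ^ d * K.GM b (i + 1) d) =
        (G * (M * A) - (-conj g) * (K.GM b 0 0 * a)) +
        (G * V - (-conj g) * K.vv b m (i - d)) +
        (NV * A - (-conj (K.vv b m i)) * a) +
        (NQ * MT - (-K.q ^ d) * K.GM b (i + 1) d) := by ring
    rw [e]
    refine (norm_add_le _ _).trans ?_
    refine (add_le_add_left (norm_add_le _ _) _).trans ?_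
    refine (add_le_add_left (add_le_add_left (norm_add_le _ _) _) _).trans ?_
    norm_num at t1 t2 t3 t4 ⊢
    linarith
  · have hvv : K.vv b m i = 0 := by rw [Crit.vv, if_neg hi1]
    rw [if_neg hi1, if_neg hi1, hvv]
    set V : ℂ := if i - d + 1 < m then ((vZ b (i - d) : GaussianInt) : ℂ) / 2 ^ 140 else 0
    have e : G * (M * A + V) + 0 +
        (conj g * (K.GM b 0 0 * a + K.vv b m (i - d)) + conj (0 : ℂ) * a + 0) =
        (G * (M * A) - (-conj g) * (K.GM b 0 0 * a)) +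
        (G * V - (-conj g) * K.vv b m (i - d)) := by
      rw [map_zero]
      ring
    rw [e]
    refine (norm_add_le _ _).trans ?_
    norm_num at t1 t2 ⊢
    linarith

end Pool.Agent.H93
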