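import Pool.Agent.Lib.H93.WordInt

/-!
MP_fb0703_an, chunk E: the integer side of the soundness proof.
-/

namespace Pool.Agent.H93

open GaussianInt ComplexConjugate

attribute [local irreducible] Lmi.T Lmi.NN

namespace Lmi

theorem gi_norm_sq (z : ℤ × ℤ) : ‖((gi z : GaussianInt) : ℂ)‖ ^ 2 = (nrm z : ℝ) := by
  have h := nrm_eq z
  have h2 : ((nrm z : ℕ) : ℝ) = (z.1 : ℝ) ^ 2 + (z.2 : ℝ) ^ 2 := by exact_mod_cast h
  rw [h2, ← Complex.normSq_eq_norm_sq, toComplex_def₂, Complex.normSq_apply]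
  simp only [gi]
  ring

theorem toC_star (z : GaussianInt) : ((star z : GaussianInt) : ℂ) = conj (z : ℂ) := toComplex_star z

theorem norm_star (z : GaussianInt) : ‖((star z : GaussianInt) : ℂ)‖ = ‖(z : ℂ)‖ := by
  rw [toComplex_star, Complex.norm_conj]

theorem norm_natCast (n : ℕ) : ‖(((n : ℕ) : GaussianInt) : ℂ)‖ = n := by
  rw [map_natCast, Complex.norm_natCast]

theorem norm_usq (z : ℤ × ℤ) : ‖((gi z * gi z : GaussianInt) : ℂ)‖ = nrm z := by
  rw [toComplex_mul, norm_mul, ← sq, gi_norm_sq]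

theorem norm_usqc (z : ℤ × ℤ) : ‖((star (gi z) * star (gi z) : GaussianInt) : ℂ)‖ = nrm z := by
  rw [toComplex_mul, norm_mul, norm_star, ← sq, gi_norm_sq]

theorem sqm_spec {x : ℕ} {z : GaussianInt} (h : Rp x z) : Rp (sqm x) (z * z) := (h.mul h).mod

theorem E60_eq : (E60 : ℝ) = 2 ^ 60 := by norm_num [E60]

theorem Rp.E60 : Rp Lmi.E60 ((Lmi.E60 : ℕ) : GaussianInt) := Rp.nat _

theorem mE60_eq : ((mE60 : ℕ) : ℤ) = NN - E60 := by
  rw [NN_int, T_int]; norm_num [mE60, E60]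

theorem Rp.mE60 : Rp Lmi.mE60 (-((Lmi.E60 : ℕ) : GaussianInt)) := by
  refine Rp.of_int 1 ?_
  rw [mE60_eq]
  simp
  ring

attribute [local irreducible] E60 mE60 r60 cX mE120

/-- the powers of a column -/
theorem col_pw {W : ℕ} {w : GaussianInt} {n m : ℕ} (hW : Rp W w) (hw : ‖(w : ℂ)‖ = n)
    (hn : 1 ≤ n) (hn' : n ≤ 2 ^ 100) (hm : m ≤ 40) :
    Rp1 (pw W n m E60) (fun k => if k < m then zs w n ((E60 : ℕ) : GaussianInt) k else 0) :=
  pw_spec hW (by omega) (hn'.trans (by norm_num)) hw.le Rp.E60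
    (by rw [norm_natCast, E60_eq]) (by omega)

theorem colRows_spec {m : ℕ} (hm : m ≤ 40) {c : Col} (hnd : c.nd < 5) (hn : 1 ≤ nrm c.u)
    (hn' : nrm c.u ≤ 2 ^ 100) {i d : ℕ} (hd : d < m) :
    Rp (((colRows m c).getD i []).getD d 0) (CZ c i d) := by
  unfold colRows CZ
  cases c.cj with
  | false =>
    simp only [Bool.false_eq_true, if_false]
    rw [rmul_getD, zmul_getD, smul_getD]
    have h := col_pw (m := m) (sqm_spec (gi_cpairc c.u)) (norm_usqc c.u) hn hn' hm d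
    simp only [hd, if_true] at h
    exact ((Rp.nat _).mul h).mul (cM_spec hnd i d)
  | true =>
    simp only [if_true]
    rw [rmul_getD, zmul_getD, smul_getD]
    have h := col_pw (m := m) (sqm_spec (cpair_spec c.u)) (norm_usq c.u) hn hn' hm d
    simp only [hd, if_true] at h
    exact ((Rp.nat _).mul h).mul (cC_spec hnd i d)

theorem colsRows_spec {m : ℕ} (hm : m ≤ 40) (cs : List Col)
    (h : ∀ c ∈ cs, c.nd < 5 ∧ 1 ≤ nrm c.u ∧ nrm c.u ≤ 2 ^ 100) {i d : ℕ} (hd : d < m) :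
    Rp (((colsRows m cs).getD i []).getD d 0) ((cs.map fun c => CZ c i d).sum) := by
  induction cs with
  | nil =>
    have e : colsRows m [] = [] := rfl
    rw [e, List.getD_nil, List.getD_nil]
    simpa using Rp.zero
  | cons c cs ih =>
    have e : colsRows m (c :: cs) = zzadd (colRows m c) (colsRows m cs) := rfl
    rw [e, zzadd_getD, zadd_getD, List.map_cons, List.sum_cons]
    obtain ⟨h1, h2, h3⟩ := h c (by simp)
    exact (colRows_spec hm h1 h2 h3 hd).add (ih fun c' hc' => h c' (by simp [hc']))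

theorem r60_le : (r60 : ℝ) ≤ 2 ^ 60 := by unfold r60; norm_num

/-- `α` list -/
theorem al_pw {W : ℕ} {w : GaussianInt} {n m : ℕ} (hW : Rp W w) (hw : ‖(w : ℂ)‖ = n)
    (hn : 1 ≤ n) (hn' : n ≤ 2 ^ 100) (hm : m ≤ 40) {E : ℕ} {z0 : GaussianInt} (hE : Rp E z0)
    (hz0 : ‖(z0 : ℂ)‖ = 2 ^ 60) {k : ℕ} (hk : k < m) :
    Rp ((pw (Nat.mod (Nat.mul W r60) NN) (Nat.mul n E60) m
      (step (Nat.mod (Nat.mul W r60) NN) (Nat.mul n E60) E)).getD k 0)
      (zs (w * ((r60 : ℕ) : GaussianInt)) (n * E60) z0 (k + 1)) := by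
  have hW' : Rp (Nat.mod (Nat.mul W r60) NN) (w * ((r60 : ℕ) : GaussianInt)) :=
    (hW.mul (Rp.nat _)).mod
  have hE60 : E60 = 2 ^ 60 := by unfold E60; norm_num
  have hpos : 0 < n * E60 := by rw [hE60]; positivity
  have hle : n * E60 ≤ 2 ^ 180 := by
    rw [hE60]
    calc n * 2 ^ 60 ≤ 2 ^ 100 * 2 ^ 60 := Nat.mul_le_mul_right _ hn'
      _ ≤ 2 ^ 180 := by norm_num
  have hw' : ‖((w * ((r60 : ℕ) : GaussianInt) : GaussianInt) : ℂ)‖ ≤ ((n * E60 : ℕ) : ℝ) := by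
    rw [toComplex_mul, norm_mul, hw, norm_natCast]
    push_cast
    rw [E60_eq]
    exact mul_le_mul_of_nonneg_left r60_le (by positivity)
  have h := pw_spec (cnt := m + 1) hW' hpos hle hw' hE hz0.le (by omega) (k + 1)
  rw [pw_succ, List.getD_cons_succ] at h
  simp only [show k + 1 < m + 1 by omega, if_true] at h
  exact h

theorem pw_len (W n cnt E : ℕ) : (pw W n cnt E).length = cnt := pw_length W n cnt E

theorem targetRows_spec {b : ℕ} (hb : b < 5) {m : ℕ} (hm : m ≤ 40) {z : ℤ × ℤ}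
    (hz : 1 ≤ nrm z) (hz' : nrm z ≤ 2 ^ 100) {i d : ℕ} (hi : i < m) (hd : d ≤ i) :
    Rp (((targetRows b m z).getD i []).getD d 0) (TZ b m z i d) := by
  unfold targetRows TZ
  apply arows_spec
  · rw [hd_eq, hdr_eq]; exact cM_spec hb 0 0
  · intro k hk; exact cNQ_spec (by omega)
  · rw [pw_len]
  · intro k hk
    exact al_pw (sqm_spec (cpair_spec z)) (norm_usq z) hz hz' hm Rp.mE60
      (by rw [toComplex_neg, norm_neg, norm_natCast, E60_eq]) hk
  · intro k hk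
    exact al_pw (sqm_spec (gi_cpairc z)) (norm_usqc z) hz hz' hm Rp.E60
      (by rw [norm_natCast, E60_eq]) hk
  · intro k hk; exact cV_spec hb (by omega)
  · intro k hk; exact cW_spec hb (by omega)
  · intro k hk
    rw [tlr_getD]; exact cM_spec hb (k + 1)
  · exact hi
  · exact hd

/-! ## Bounds -/

/-- bound on the tables, checked in the kernel (needs only the tables) -/
theorem tabQ_bound : ∀ j < 42, |(tabQ.getD j 0).1| ≤ 2 ^ 60 ∧ |(tabQ.getD j 0).2| ≤ 2 ^ 60 := by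
  decide +kernel

theorem norm_le_of_coord {z : GaussianInt} {B : ℝ} (h1 : (|z.re| : ℝ) ≤ B)
    (h2 : (|z.im| : ℝ) ≤ B) : ‖(z : ℂ)‖ ≤ 2 * B := by
  refine (Complex.norm_le_abs_re_add_abs_im _).trans ?_
  rw [← intCast_re, ← intCast_im]
  linarith

theorem norm_tQ {j : ℕ} (hj : j < 42) : ‖((tQ j : GaussianInt) : ℂ)‖ ≤ 2 ^ 61 := by
  obtain ⟨h1, h2⟩ := tabQ_bound j hj
  have := norm_le_of_coord (z := tQ j) (B := 2 ^ 60) (by exact_mod_cast h1) (by exact_mod_cast h2)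
  linarith

theorem norm_gmG (b i d : ℕ) : ‖((gmG b i d : GaussianInt) : ℂ)‖ ≤ 2 ^ 80 := by
  obtain ⟨h1, h2⟩ := gmZ_bound b i d
  have := norm_le_of_coord (z := gmG b i d) (B := 2 ^ 79) (by exact_mod_cast h1)
    (by exact_mod_cast h2)
  linarith

theorem norm_ent (n x k : ℕ) : ‖((ent n x k : GaussianInt) : ℂ)‖ ≤ 2 ^ 58 := by
  obtain ⟨h1, h2⟩ := ent_bound n x k
  have := norm_le_of_coord (z := ent n x k) (B := 2 ^ 57) (by exact_mod_cast h1)
    (by exact_mod_cast h2)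
  linarith

theorem norm_CZ (c : Col) (hn : 1 ≤ nrm c.u) {i d : ℕ} (hd : d < 41) :
    ‖((CZ c i d : GaussianInt) : ℂ)‖ ≤ c.mu * 2 ^ 161 := by
  have hd' : (d : ℝ) ≤ 41 := by exact_mod_cast hd.le
  have key : ∀ w : GaussianInt, ‖(w : ℂ)‖ = nrm c.u →
      ‖((zs w (nrm c.u) ((E60 : ℕ) : GaussianInt) d : GaussianInt) : ℂ)‖ ≤ 2 ^ 61 := by
    intro w hw
    have h := norm_zs_le w (by omega : 0 < nrm c.u) hw.le ((E60 : ℕ) : GaussianInt) d
    rw [norm_natCast, E60_eq] at h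
    linarith
  have hmu : ‖(((c.mu * 1048576 : ℕ) : GaussianInt) : ℂ)‖ = c.mu * 2 ^ 20 := by
    rw [norm_natCast]; push_cast; norm_num
  unfold CZ
  split_ifs
  · rw [toComplex_mul, toComplex_mul, norm_mul, norm_mul, norm_star, hmu]
    have h1 := key _ (norm_usq c.u)
    have h2 := norm_gmG c.nd i d
    calc (c.mu : ℝ) * 2 ^ 20 * _ * _ ≤ (c.mu : ℝ) * 2 ^ 20 * 2 ^ 61 * 2 ^ 80 := by gcongr
      _ = (c.mu : ℝ) * 2 ^ 161 := by ring
  · rw [toComplex_mul, toComplex_mul, norm_mul, norm_mul, hmu]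
    have h1 := key _ (norm_usqc c.u)
    have h2 := norm_gmG c.nd i d
    calc (c.mu : ℝ) * 2 ^ 20 * _ * _ ≤ (c.mu : ℝ) * 2 ^ 20 * 2 ^ 61 * 2 ^ 80 := by gcongr
      _ = (c.mu : ℝ) * 2 ^ 161 := by ring

theorem muSum_cons (c : Col) (cs : List Col) : muSum (c :: cs) = c.mu + muSum cs := rfl
theorem nuSum_cons (x : ℕ) (l : List ℕ) : nuSum (x :: l) = x + nuSum l := rfl

theorem norm_sum_CZ (cs : List Col) (h : ∀ c ∈ cs, 1 ≤ nrm c.u) {i d : ℕ} (hd : d < 41) :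
    ‖(((cs.map fun c => CZ c i d).sum : GaussianInt) : ℂ)‖ ≤ muSum cs * 2 ^ 161 := by
  induction cs with
  | nil => simp [muSum]
  | cons c cs ih =>
    rw [List.map_cons, List.sum_cons, toComplex_add, muSum_cons]
    refine (norm_add_le _ _).trans ?_
    have h1 := norm_CZ c (h c (by simp)) (i := i) hd
    have h2 := ih fun c' hc' => h c' (by simp [hc'])
    push_cast
    linarith

theorem le_nuSum (l : List ℕ) (i : ℕ) : l.getD i 0 ≤ nuSum l := by
  induction l generalizing i with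
  | nil => simp
  | cons x l ih =>
    rw [nuSum_cons]
    cases i with
    | zero => simp
    | succ i => have := ih i; simp only [List.getD_cons_succ]; omega

theorem cX_le : (cX : ℝ) ≤ 2 ^ 160 := by unfold cX; norm_num

theorem norm_zs_al {w : GaussianInt} {n : ℕ} (hw : ‖(w : ℂ)‖ = n) (hn : 1 ≤ n)
    {z0 : GaussianInt} (hz0 : ‖(z0 : ℂ)‖ = 2 ^ 60) {j : ℕ} (hj : j ≤ 42) :
    ‖((zs (w * ((r60 : ℕ) : GaussianInt)) (n * E60) z0 j : GaussianInt) : ℂ)‖ ≤ 2 ^ 61 := by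
  have hE60 : E60 = 2 ^ 60 := by unfold E60; norm_num
  have hpos : 0 < n * E60 := by rw [hE60]; positivity
  have hw' : ‖((w * ((r60 : ℕ) : GaussianInt) : GaussianInt) : ℂ)‖ ≤ ((n * E60 : ℕ) : ℝ) := by
    rw [toComplex_mul, norm_mul, hw, norm_natCast]
    push_cast
    rw [E60_eq]
    exact mul_le_mul_of_nonneg_left r60_le (by positivity)
  have h := norm_zs_le _ hpos hw' z0 j
  have hj' : (j : ℝ) ≤ 42 := by exact_mod_cast hj
  rw [hz0] at h
  linarith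

theorem norm_alZ (z : ℤ × ℤ) (hz : 1 ≤ nrm z) {j : ℕ} (hj : j ≤ 41) :
    ‖((alZ z j : GaussianInt) : ℂ)‖ ≤ 2 ^ 61 :=
  norm_zs_al (norm_usq z) hz (by rw [toComplex_neg, norm_neg, norm_natCast, E60_eq]) (by omega)

theorem norm_gaZ (z : ℤ × ℤ) (hz : 1 ≤ nrm z) {j : ℕ} (hj : j ≤ 41) :
    ‖((gaZ z j : GaussianInt) : ℂ)‖ ≤ 2 ^ 61 :=
  norm_zs_al (norm_usqc z) hz (by rw [norm_natCast, E60_eq]) (by omega)

theorem norm_vZ (b : ℕ) {j : ℕ} (hj : j < 41) : ‖((vZ b j : GaussianInt) : ℂ)‖ ≤ 2 ^ 141 := by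
  unfold vZ
  rw [toComplex_mul, norm_mul, norm_star]
  have h1 := norm_gmG b (j + 1) (j + 1)
  have h2 := norm_tQ (j := j + 1) (by omega)
  calc _ ≤ (2 : ℝ) ^ 80 * 2 ^ 61 := by gcongr
    _ = 2 ^ 141 := by norm_num

theorem norm_nvZ (b : ℕ) {j : ℕ} (hj : j < 41) : ‖((nvZ b j : GaussianInt) : ℂ)‖ ≤ 2 ^ 141 := by
  unfold nvZ
  rw [toComplex_mul, toComplex_mul, norm_mul, norm_mul, norm_star]
  have h1 := norm_gmG b (j + 1) (j + 1)
  have h2 := norm_tQ (j := j + 1) (by omega)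
  have h3 : ‖((-1 : GaussianInt) : ℂ)‖ = 1 := by simp
  rw [h3, one_mul]
  calc _ ≤ (2 : ℝ) ^ 80 * 2 ^ 61 := by gcongr
    _ = 2 ^ 141 := by norm_num

theorem norm_nqZ {j : ℕ} (hj : j < 41) : ‖((nqZ j : GaussianInt) : ℂ)‖ ≤ 2 ^ 121 := by
  unfold nqZ
  rw [toComplex_mul, toComplex_mul, norm_mul, norm_mul, norm_star, norm_natCast]
  have h2 := norm_tQ (j := j) (by omega)
  have h3 : ‖((-1 : GaussianInt) : ℂ)‖ = 1 := by simp
  rw [h3, one_mul]
  have h4 : ((1152921504606846976 : ℕ) : ℝ) = 2 ^ 60 := by norm_num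
  rw [h4]
  calc (2 : ℝ) ^ 60 * _ ≤ (2 : ℝ) ^ 60 * 2 ^ 61 := by gcongr
    _ = 2 ^ 121 := by norm_num

theorem norm_TZ (b : ℕ) {m : ℕ} (hm : m ≤ 40) (z : ℤ × ℤ) (hz : 1 ≤ nrm z) {i d : ℕ}
    (hi : i < m) (hd : d ≤ i) : ‖((TZ b m z i d : GaussianInt) : ℂ)‖ ≤ 2 ^ 206 := by
  unfold TZ AZ
  have ga := norm_gaZ z hz (j := i) (by omega)
  have al := norm_alZ z hz (j := i - d) (by omega)
  have m0 := norm_gmG b 0 0
  have v1 := norm_vZ b (j := i - d) (by omega)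
  have v2 := norm_nvZ b (j := i) (by omega)
  have nq := norm_nqZ (j := d) (by omega)
  have mi := norm_gmG b (i + 1) d
  have hv : ‖(((if i - d + 1 < m then vZ b (i - d) else 0) : GaussianInt) : ℂ)‖ ≤ 2 ^ 141 := by
    split_ifs
    · exact v1
    · simp
  have hw : ‖(((if i + 1 < m then nvZ b i * alZ z (i - d) + nqZ d * gmG b (i + 1) d else 0) :
      GaussianInt) : ℂ)‖ ≤ 2 ^ 203 := by
    split_ifs
    · rw [toComplex_add, toComplex_mul, toComplex_mul]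
      refine (norm_add_le _ _).trans ?_
      rw [norm_mul, norm_mul]
      calc _ ≤ (2 : ℝ) ^ 141 * 2 ^ 61 + 2 ^ 121 * 2 ^ 80 := by gcongr
        _ ≤ 2 ^ 203 := by norm_num
    · simp
  rw [toComplex_add, toComplex_mul, toComplex_add, toComplex_mul]
  refine (norm_add_le _ _).trans ?_
  have h1 : ‖((gaZ z i : GaussianInt) : ℂ) * (((gmG b 0 0 : GaussianInt) : ℂ) *
      ((alZ z (i - d) : GaussianInt) : ℂ) +
      (((if i - d + 1 < m then vZ b (i - d) else 0) : GaussianInt) : ℂ))‖ ≤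
      (2 : ℝ) ^ 61 * (2 ^ 80 * 2 ^ 61 + 2 ^ 141) := by
    rw [norm_mul]
    apply mul_le_mul ga _ (norm_nonneg _) (by positivity)
    refine (norm_add_le _ _).trans ?_
    rw [norm_mul]
    gcongr
  refine (add_le_add h1 hw).trans ?_
  norm_num

end Lmi

end Pool.Agent.H93
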