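import Pool.Agent.Lib.H93.QuadCrit
import Pool.Agent.Lib.H93.WordSum
import Pool.Agent.Lib.H93.WordErr1
import Pool.Agent.Lib.H93.WordErr2

/-!
MP_fb0703_an, chunk E: soundness of the checkers `Word.check` and `RWord.check`.
-/

namespace Pool.Agent.H93

open Filter Topology ComplexConjugate GaussianInt

attribute [local irreducible] Lmi.T Lmi.NN Lmi.E60 Lmi.mE60 Lmi.r60 Lmi.cX Lmi.mE120

namespace Lmi

/-- entries of the factor as complex numbers (conjugated), scale `2^54` -/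
noncomputable def fac (L : List ℕ) (k i : ℕ) : ℂ :=
  conj ((ent (i + 1) (L.getD i 0) k : GaussianInt) : ℂ) / 2 ^ 54

/-- the residual integer -/
noncomputable def resid (L : List ℕ) (SZ : ℕ → ℕ → GaussianInt) (i d : ℕ) : GaussianInt :=
  SZ i d + ∑ k ∈ Finset.range (i + 1), ent (i + 1) (L.getD i 0) k *
    (((-2 ^ 92 : ℤ) : GaussianInt) * star (ent (i - d + 1) (L.getD (i - d) 0) k))

theorem ent_eq_zero {n x k : ℕ} (h : n ≤ k) : ent n x k = 0 := by
  unfold ent; rw [if_neg (by omega)]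

theorem aux_prod {a b : ℝ} (_ha : 0 ≤ a) (hb : 0 ≤ b) (h1 : a ≤ 2 ^ 58) (h2 : b ≤ 2 ^ 58) :
    a * (2 ^ 92 * b) ≤ 2 ^ 208 := by
  have h3 : a * b ≤ 2 ^ 58 * 2 ^ 58 := mul_le_mul h1 h2 hb (by positivity)
  have h4 : a * (2 ^ 92 * b) = 2 ^ 92 * (a * b) := by ring
  rw [h4]
  linarith

theorem resid_bound {m : ℕ} (hm : m ≤ 40) {L : List ℕ} (hL : L.length = m) {S : List (List ℕ)}
    {SZ : ℕ → ℕ → GaussianInt}
    (hS : ∀ i < m, ∀ d ≤ i, Rp ((S.getD i []).getD d 0) (SZ i d))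
    (hb : ∀ i < m, ∀ d ≤ i, ‖((SZ i d : GaussianInt) : ℂ)‖ ≤ 2 ^ 250)
    (hc : chkAll L 0 [] S = true) {i d : ℕ} (hi : i < m) (hd : d ≤ i) :
    ‖((resid L SZ i d : GaussianInt) : ℂ)‖ ≤ 3 / 2 * 2 ^ 152 := by
  have h1 := chkAll_spec L S hc i (by omega) d hd
  have hR : Rp (((S.getD i []).getD d 0) + dot (convRow (i + 1) (L.getD i 0))
      (nconjRow (i - d + 1) (L.getD (i - d) 0))) (resid L SZ i d) :=
    (hS i hi d hd).add ((convRow_spec _ _).dot (nconjRow_spec _ _) (by rw [convRow_length]))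
  have hn : ‖((resid L SZ i d : GaussianInt) : ℂ)‖ ≤ 2 ^ 254 := by
    unfold resid
    rw [toComplex_add, map_sum]
    refine (norm_add_le _ _).trans ?_
    have h2 : ‖∑ k ∈ Finset.range (i + 1), ((ent (i + 1) (L.getD i 0) k *
        (((-2 ^ 92 : ℤ) : GaussianInt) * star (ent (i - d + 1) (L.getD (i - d) 0) k)) :
          GaussianInt) : ℂ)‖ ≤ ∑ _k ∈ Finset.range (i + 1), (2 : ℝ) ^ 208 := by
      refine (norm_sum_le _ _).trans (Finset.sum_le_sum fun k _ => ?_)
      rw [toComplex_mul, toComplex_mul, norm_mul, norm_mul, norm_star, map_intCast]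
      have e : ‖(((-2 ^ 92 : ℤ)) : ℂ)‖ = 2 ^ 92 := by
        rw [Complex.norm_intCast]; norm_num
      rw [e]
      have h3 := norm_ent (i + 1) (L.getD i 0) k
      have h4 := norm_ent (i - d + 1) (L.getD (i - d) 0) k
      exact aux_prod (norm_nonneg _) (norm_nonneg _) h3 h4
    rw [Finset.sum_const, Finset.card_range, nsmul_eq_mul] at h2
    have h5 : ((i + 1 : ℕ) : ℝ) ≤ 40 := by exact_mod_cast (by omega : i + 1 ≤ 40)
    have h6 := hb i hi d hd
    have h7 : ((i + 1 : ℕ) : ℝ) * 2 ^ 208 ≤ 40 * 2 ^ 208 := by gcongr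
    refine (add_le_add h6 (h2.trans h7)).trans ?_
    norm_num
  have hre : |(resid L SZ i d).re| ≤ 2 ^ 254 := by
    have := (abs_re_le (resid L SZ i d)).trans hn
    exact_mod_cast this
  have him : |(resid L SZ i d).im| ≤ 2 ^ 254 := by
    have := (abs_im_le (resid L SZ i d)).trans hn
    exact_mod_cast this
  obtain ⟨h8, h9⟩ := small_spec hR hre him h1
  have h8' : |((resid L SZ i d).re : ℝ)| ≤ 2 ^ 152 := by exact_mod_cast h8
  have h9' : |((resid L SZ i d).im : ℝ)| ≤ 2 ^ 152 := by exact_mod_cast h9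
  rw [← Real.sqrt_sq (norm_nonneg _), ← Complex.normSq_eq_norm_sq, Complex.normSq_apply,
    ← intCast_re, ← intCast_im]
  apply Real.sqrt_le_iff.mpr
  refine ⟨by positivity, ?_⟩
  have e1 := sq_le_sq' (by linarith [(abs_le.mp h8').1]) (abs_le.mp h8').2
  have e2 := sq_le_sq' (by linarith [(abs_le.mp h9').1]) (abs_le.mp h9').2
  nlinarith

theorem resid_eq (L : List ℕ) (SZ : ℕ → ℕ → GaussianInt) {i d : ℕ} (hi : i < 40) :
    ((resid L SZ i d : GaussianInt) : ℂ) / 2 ^ 200 = ((SZ i d : GaussianInt) : ℂ) / 2 ^ 200 -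
      ∑ k ∈ Finset.range 40, conj (fac L k i) * fac L k (i - d) := by
  unfold resid fac
  rw [toComplex_add, map_sum]
  have h1 : ∑ k ∈ Finset.range 40, conj (conj ((ent (i + 1) (L.getD i 0) k : GaussianInt) : ℂ) /
        2 ^ 54) * (conj ((ent (i - d + 1) (L.getD (i - d) 0) k : GaussianInt) : ℂ) / 2 ^ 54) =
      ∑ k ∈ Finset.range (i + 1),
        conj (conj ((ent (i + 1) (L.getD i 0) k : GaussianInt) : ℂ) /
        2 ^ 54) * (conj ((ent (i - d + 1) (L.getD (i - d) 0) k : GaussianInt) : ℂ) / 2 ^ 54) := by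
    symm
    apply Finset.sum_subset
    · intro k hk; simp only [Finset.mem_range] at hk ⊢; omega
    · intro k _ hk
      rw [ent_eq_zero (by simpa using hk)]
      simp
  rw [h1, add_div, sub_eq_add_neg, ← Finset.sum_neg_distrib, Finset.sum_div]
  congr 1
  apply Finset.sum_congr rfl
  intro k _
  rw [toComplex_mul, toComplex_mul, toComplex_star, map_intCast]
  simp only [map_div₀, map_pow, Complex.conj_conj, map_ofNat]
  push_cast
  ring

/-- the core estimate -/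
theorem core {m : ℕ} (hm : m ≤ 40) {L : List ℕ} (hL : L.length = m) {S : List (List ℕ)}
    {SZ : ℕ → ℕ → GaussianInt}
    (hS : ∀ i < m, ∀ d ≤ i, Rp ((S.getD i []).getD d 0) (SZ i d))
    (hb : ∀ i < m, ∀ d ≤ i, ‖((SZ i d : GaussianInt) : ℂ)‖ ≤ 2 ^ 250)
    (hc : chkAll L 0 [] S = true) {F : ℕ → ℕ → ℂ} {ε : ℝ}
    (hF : ∀ i < m, ∀ d ≤ i, ‖F i d - ((SZ i d : GaussianInt) : ℂ) / 2 ^ 200‖ ≤ ε)
    {x : ℕ → ℂ} {X : ℝ} (hx : ∀ j, ‖x j‖ ≤ X) :
    -((ε + 5.4e-15) * (m : ℝ) ^ 2 * X ^ 2) ≤ qf m F x := by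
  have h1 : qf m F x = qf m (fun i d => (F i d - ∑ k ∈ Finset.range 40,
      conj (fac L k i) * fac L k (i - d)) + ∑ k ∈ Finset.range 40,
      conj (fac L k i) * fac L k (i - d)) x :=
    qf_congr x fun i _ d _ => by ring
  rw [h1, qf_add, qf_gram]
  have h2 : |qf m (fun i d => F i d - ∑ k ∈ Finset.range 40,
      conj (fac L k i) * fac L k (i - d)) x| ≤ (ε + 5.4e-15) * (m : ℝ) ^ 2 * X ^ 2 := by
    apply qf_bound hx
    intro i hi d hd
    have h3 := resid_bound hm hL hS hb hc hi hd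
    have h4 := resid_eq L SZ (d := d) (by omega : i < 40)
    have h5 : F i d - ∑ k ∈ Finset.range 40, conj (fac L k i) * fac L k (i - d) =
        (F i d - ((SZ i d : GaussianInt) : ℂ) / 2 ^ 200) +
          ((resid L SZ i d : GaussianInt) : ℂ) / 2 ^ 200 := by
      rw [h4]; ring
    rw [h5]
    refine (norm_add_le _ _).trans (add_le_add (hF i hi d hd) ?_)
    rw [norm_div, norm_pow]
    have h6 : ‖(2 : ℂ)‖ = 2 := by norm_num
    rw [h6, div_le_iff₀ (by positivity)]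
    refine h3.trans ?_
    norm_num
  have h7 : 0 ≤ ∑ k ∈ Finset.range 40, ‖∑ j ∈ Finset.range m, fac L k j * x j‖ ^ 2 :=
    Finset.sum_nonneg fun _ _ => sq_nonneg _
  have := (abs_le.mp h2).1
  linarith

/-! ## the conditions -/

theorem llen_eq (l : List ℕ) : llen l = l.length := by
  induction l with
  | nil => rfl
  | cons x l ih =>
    have e : llen (x :: l) = llen l + 1 := rfl
    rw [e, ih, List.length_cons]

theorem flen_eq (l : List ℤ) : flen l = l.length := by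
  induction l with
  | nil => rfl
  | cons x l ih =>
    have e : flen (x :: l) = flen l + 1 := rfl
    rw [e, ih, List.length_cons]

theorem colsOK_spec (cs : List Col) (h : colsOK cs = true) :
    ∀ c ∈ cs, c.nd < 5 ∧ 1 ≤ nrm c.u ∧ nrm c.u ≤ 2 ^ 100 := by
  induction cs with
  | nil => intro c hc; simp at hc
  | cons c cs ih =>
    have h' : and (Nat.ble c.nd 4) (and (Nat.ble 1 (nrm c.u))
      (and (Nat.ble (nrm c.u) 1267650600228229401496703205376) (colsOK cs))) = true := h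
    rw [Bool.and_eq_true, Bool.and_eq_true, Bool.and_eq_true] at h'
    obtain ⟨h1, h2, h3, h4⟩ := h'
    have h1 := Nat.le_of_ble_eq_true h1
    have h2 := Nat.le_of_ble_eq_true h2
    have h3 := Nat.le_of_ble_eq_true h3
    intro c' hc'
    rcases List.mem_cons.mp hc' with e | e
    · subst e; exact ⟨by omega, h2, h3.trans (by norm_num)⟩
    · exact ih h4 c' e

theorem wOK_spec {m : ℕ} {cs : List Col} {nu L : List ℕ} (h : wOK m cs nu L = true) :
    L.length = m ∧ m ≤ 40 ∧ (∀ c ∈ cs, c.nd < 5 ∧ 1 ≤ nrm c.u ∧ nrm c.u ≤ 2 ^ 100) ∧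
      muSum cs ≤ 1429365116108 ∧ nuSum nu ≤ 2199023255552 := by
  unfold wOK at h
  rw [Bool.and_eq_true, Bool.and_eq_true, Bool.and_eq_true, Bool.and_eq_true] at h
  obtain ⟨h1, h2, h3, h4, h5⟩ := h
  refine ⟨?_, Nat.le_of_ble_eq_true h2, colsOK_spec cs h3, Nat.le_of_ble_eq_true h4,
    Nat.le_of_ble_eq_true h5⟩
  rw [← llen_eq]; exact Nat.eq_of_beq_eq_true h1

/-! ## common part of the two checkers -/

/-- diagonal and columns, scale `2^200` -/
noncomputable def PZ (cs : List Col) (nu : List ℕ) (i d : ℕ) : GaussianInt :=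
  (if d = 0 then ((cX * nu.getD i 0 : ℕ) : GaussianInt) else 0) + (cs.map fun c => CZ c i d).sum

/-- diagonal and columns, true matrix -/
noncomputable def PF (K : Crit) (cs : List Col) (nu : List ℕ) (i d : ℕ) : ℂ :=
  (if d = 0 then (((nu.getD i 0 : ℝ) / 2 ^ 40 / XX ^ 2 : ℝ) : ℂ) else 0) +
    (cs.map fun c => (((c.mu : ℝ) / 2 ^ 40 : ℝ) : ℂ) * K.CM c i d).sum

theorem norm_PZ {cs : List Col} {nu : List ℕ} (h : ∀ c ∈ cs, 1 ≤ nrm c.u)
    (h1 : muSum cs ≤ 1429365116108) (h2 : nuSum nu ≤ 2199023255552) {i d : ℕ} (hd : d < 41) :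
    ‖((PZ cs nu i d : GaussianInt) : ℂ)‖ ≤ 2 ^ 210 := by
  unfold PZ
  rw [toComplex_add]
  refine (norm_add_le _ _).trans ?_
  have h3 := norm_sum_CZ cs h (i := i) hd
  have h4 : ‖(((if d = 0 then ((cX * nu.getD i 0 : ℕ) : GaussianInt) else 0) : GaussianInt) : ℂ)‖ ≤
      2 ^ 160 * 2199023255552 := by
    split_ifs
    · rw [norm_natCast]
      push_cast
      have h5 : ((nu.getD i 0 : ℕ) : ℝ) ≤ 2199023255552 := by
        exact_mod_cast (le_nuSum nu i).trans h2
      exact mul_le_mul cX_le h5 (by positivity) (by positivity)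
    · simp
  have h6 : (muSum cs : ℝ) ≤ 1429365116108 := by exact_mod_cast h1
  have h7 : (muSum cs : ℝ) * 2 ^ 161 ≤ 1429365116108 * 2 ^ 161 := by gcongr
  refine (add_le_add h4 (h3.trans h7)).trans ?_
  norm_num

theorem cX_eq : |(cX : ℝ) / 2 ^ 160 - 1 / XX ^ 2| ≤ 1 / 2 ^ 160 := by
  unfold cX XX
  rw [abs_le]
  constructor <;> norm_num

theorem PF_err (K : Crit) {cs : List Col} {nu : List ℕ}
    (h : ∀ c ∈ cs, c.nd < 5 ∧ 1 ≤ nrm c.u ∧ nrm c.u ≤ 2 ^ 100)
    (h1 : muSum cs ≤ 1429365116108) (h2 : nuSum nu ≤ 2199023255552) {i d : ℕ} (hi : i < 40)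
    (hd : d ≤ i) :
    ‖PF K cs nu i d - ((PZ cs nu i d : GaussianInt) : ℂ) / 2 ^ 200‖ ≤ 1.07e-14 := by
  unfold PF PZ
  rw [toComplex_add, map_list_sum, List.map_map]
  have e : ∀ a b c e : ℂ, a + b - (c + e) / 2 ^ 200 = (a - c / 2 ^ 200) + (b - e / 2 ^ 200) := by
    intro a b c e; ring
  rw [e]
  refine (norm_add_le _ _).trans ?_
  have hdiag : ‖(if d = 0 then (((nu.getD i 0 : ℝ) / 2 ^ 40 / XX ^ 2 : ℝ) : ℂ) else 0) -
      (((if d = 0 then ((cX * nu.getD i 0 : ℕ) : GaussianInt) else 0) : GaussianInt) : ℂ) /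
        2 ^ 200‖ ≤ 1e-30 := by
    by_cases hd0 : d = 0
    · rw [if_pos hd0, if_pos hd0, map_natCast]
      have e1 : (((nu.getD i 0 : ℝ) / 2 ^ 40 / XX ^ 2 : ℝ) : ℂ) -
          ((cX * nu.getD i 0 : ℕ) : ℂ) / 2 ^ 200 =
          ((-((nu.getD i 0 : ℝ) / 2 ^ 40 * ((cX : ℝ) / 2 ^ 160 - 1 / XX ^ 2)) : ℝ) : ℂ) := by
        push_cast; ring
      rw [e1, Complex.norm_real, Real.norm_eq_abs, abs_neg, abs_mul]
      have h5 : ((nu.getD i 0 : ℕ) : ℝ) ≤ 2199023255552 := by
        exact_mod_cast (le_nuSum nu i).trans h2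
      have h6 : |((nu.getD i 0 : ℕ) : ℝ) / 2 ^ 40| ≤ 2 := by
        rw [abs_of_nonneg (by positivity), div_le_iff₀ (by positivity)]
        refine h5.trans ?_; norm_num
      calc _ ≤ (2 : ℝ) * (1 / 2 ^ 160) := by
            apply mul_le_mul h6 cX_eq (abs_nonneg _) (by positivity)
        _ ≤ 1e-30 := by norm_num
    · rw [if_neg hd0, if_neg hd0]; simp; norm_num
  have hcols : ∀ cs : List Col, (∀ c ∈ cs, c.nd < 5 ∧ 1 ≤ nrm c.u ∧ nrm c.u ≤ 2 ^ 100) →
      ‖(cs.map fun c => (((c.mu : ℝ) / 2 ^ 40 : ℝ) : ℂ) * K.CM c i d).sum -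
        (cs.map (toComplex ∘ fun c => CZ c i d)).sum / 2 ^ 200‖ ≤
      (muSum cs : ℝ) / 2 ^ 40 * 8.2e-15 := by
    intro cs
    induction cs with
    | nil => intro _; simp [muSum]
    | cons c cs ih =>
      intro hcs
      rw [List.map_cons, List.map_cons, List.sum_cons, List.sum_cons, muSum_cons]
      have e2 : ∀ a b c e : ℂ, a + b - (c + e) / 2 ^ 200 = -(c / 2 ^ 200 - a) +
          (b - e / 2 ^ 200) := by
        intro a b c e; ring
      rw [e2]
      refine (norm_add_le _ _).trans ?_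
      rw [norm_neg]
      obtain ⟨q1, q2, q3⟩ := hcs c (by simp)
      have h7 := col_err' K c q1 q2 hi hd
      have h8 := ih fun c' hc' => hcs c' (by simp [hc'])
      have e3 : ((c.mu + muSum cs : ℕ) : ℝ) / 2 ^ 40 * 8.2e-15 =
          (c.mu : ℝ) / 2 ^ 40 * 8.2e-15 + (muSum cs : ℝ) / 2 ^ 40 * 8.2e-15 := by
        push_cast; ring
      rw [e3]
      exact add_le_add h7 h8
  have h9 := hcols cs h
  have h10 : (muSum cs : ℝ) ≤ 1429365116108 := by exact_mod_cast h1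
  have h11 : (muSum cs : ℝ) / 2 ^ 40 * 8.2e-15 ≤ 1429365116108 / 2 ^ 40 * 8.2e-15 := by gcongr
  refine (add_le_add hdiag (h9.trans h11)).trans ?_
  norm_num

theorem PF_qf (K : Crit) {cs : List Col} {nu : List ℕ}
    (h : ∀ c ∈ cs, c.nd < 5 ∧ 1 ≤ nrm c.u ∧ nrm c.u ≤ 2 ^ 100) (m : ℕ) (x : ℕ → ℂ) :
    qf m (PF K cs nu) x =
      (cs.map fun c => ((c.mu : ℝ) / 2 ^ 40) * K.NT c.nd m (c.act x)).sum +
        ((List.range m).map fun l => ((nu.getD l 0 : ℝ) / 2 ^ 40) * (‖x l‖ ^ 2 / XX ^ 2)).sum := by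
  have h1 : qf m (PF K cs nu) x =
      qf m (fun i d => (if d = 0 then (((nu.getD i 0 : ℝ) / 2 ^ 40 / XX ^ 2 : ℝ) : ℂ) else 0)) x +
      qf m (fun i d => (cs.map fun c => (((c.mu : ℝ) / 2 ^ 40 : ℝ) : ℂ) * K.CM c i d).sum) x := by
    rw [← qf_add]; rfl
  rw [h1, qf_diag, qf_listSum, add_comm]
  congr 1
  · apply congrArg List.sum
    apply List.map_congr_left
    intro c hc
    rw [qf_smul]
    obtain ⟨q1, q2, q3⟩ := h c hc
    rw [K.NT_act c (by
      intro e
      have h0 : nrm c.u = 0 := by rw [e]; rfl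
      omega) m x]
  · apply congrArg List.sum
    apply List.map_congr_left
    intro l _
    ring

end Lmi

open Lmi

theorem nrm_ne {z : ℤ × ℤ} (h : 1 ≤ nrm z) : z ≠ (0, 0) := by
  intro e
  have h0 : nrm z = 0 := by rw [e]; rfl
  omega

/-- soundness of the checker (chunk E). -/
theorem Word.sound (K : Crit) (W : Word) (h : W.check = true) {x : ℕ → ℂ}
    (hx : ∀ j, ‖x j‖ ≤ XX) :
    K.NT W.node W.m (K.A (unitQ W.z) (trunc W.m x)) ≤ W.rhs K x + 1e-10 := by
  unfold Word.check at h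
  rw [Bool.and_eq_true, Bool.and_eq_true, Bool.and_eq_true, Bool.and_eq_true,
    Bool.and_eq_true] at h
  obtain ⟨hw, h1, h2, h3, h4, h5⟩ := h
  obtain ⟨hL, hm, hcs, hmu, hnu⟩ := wOK_spec hw
  have h1 : W.node < 5 := by have := Nat.le_of_ble_eq_true h1; omega
  have h2 := Nat.le_of_ble_eq_true h2
  have h3 : nrm W.z ≤ 2 ^ 100 := (Nat.le_of_ble_eq_true h3).trans (by norm_num)
  have h4 := Nat.le_of_ble_eq_true h4
  have hz1 : ‖unitQ W.z‖ = 1 := norm_unitQ (nrm_ne h2)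
  have hc1 := core hm hL (SZ := fun i d => (if d = 0 then ((cX * W.nu.getD i 0 : ℕ) : GaussianInt)
      else 0) + ((W.cols.map fun c => CZ c i d).sum + TZ W.node W.m W.z i d))
    (S := zzadd (drows cX W.nu) (zzadd (colsRows W.m W.cols) (targetRows W.node W.m W.z)))
    (F := fun i d => PF K W.cols W.nu i d - K.AM W.node W.m (unitQ W.z) i d)
    (ε := 3.28e-14) (X := XX) (x := x)
    (by
      intro i hi d hd
      rw [zzadd_getD, zzadd_getD, zadd_getD, zadd_getD]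
      exact (drows_spec cX W.nu i d).add ((colsRows_spec hm W.cols hcs (by omega)).add
        (targetRows_spec h1 hm h2 h3 hi hd)))
    (by
      intro i hi d hd
      have e : (if d = 0 then ((cX * W.nu.getD i 0 : ℕ) : GaussianInt) else 0) +
          ((W.cols.map fun c => CZ c i d).sum + TZ W.node W.m W.z i d) =
          PZ W.cols W.nu i d + TZ W.node W.m W.z i d := by
        unfold PZ; ring
      rw [e, toComplex_add]
      refine (norm_add_le _ _).trans ?_
      have q1 := norm_PZ (fun c hc => (hcs c hc).2.1) hmu hnu (i := i) (by omega : d < 41)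
      have q2 := norm_TZ W.node hm W.z h2 hi hd
      refine (add_le_add q1 q2).trans ?_
      norm_num)
    h5
    (by
      intro i hi d hd
      have e : (if d = 0 then ((cX * W.nu.getD i 0 : ℕ) : GaussianInt) else 0) +
          ((W.cols.map fun c => CZ c i d).sum + TZ W.node W.m W.z i d) =
          PZ W.cols W.nu i d + TZ W.node W.m W.z i d := by
        unfold PZ; ring
      rw [e, toComplex_add]
      have e2 : ∀ a b c e : ℂ, a - b - (c + e) / 2 ^ 200 = (a - c / 2 ^ 200) -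
          (e / 2 ^ 200 + b) := by
        intro a b c e; ring
      rw [e2]
      refine (norm_sub_le _ _).trans ?_
      have q1 := PF_err K hcs hmu hnu (i := i) (by omega : i < 40) hd
      have q2 := target_err K h1 hm W.z h2 hi hd
      refine (add_le_add q1 q2).trans ?_
      norm_num)
    hx
  rw [qf_sub, PF_qf K hcs, ← K.NT_A W.node (by omega) hz1 x] at hc1
  unfold Word.rhs
  have hmr : ((W.m : ℕ) : ℝ) ≤ 40 := by exact_mod_cast hm
  have hm2 : ((W.m : ℕ) : ℝ) ^ 2 ≤ 1600 := by nlinarith [Nat.cast_nonneg (α := ℝ) W.m]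
  have hbound : (3.28e-14 + 5.4e-15) * ((W.m : ℕ) : ℝ) ^ 2 * XX ^ 2 ≤ 1e-10 := by
    unfold XX
    nlinarith
  linarith

theorem fcodes_cons (a : ℤ) (f : List ℤ) : fcodes (a :: f) = icode a :: fcodes f := rfl

theorem fcodes_spec (f : List ℤ) : (fcodes f).length = f.length ∧
    ∀ k, Rp ((fcodes f).getD k 0) ⟨f.getD k 0, 0⟩ := by
  induction f with
  | nil =>
    refine ⟨rfl, fun k => ?_⟩
    have e1 : (fcodes []).getD k 0 = 0 := by simp [fcodes]
    have e2 : (⟨([] : List ℤ).getD k 0, 0⟩ : GaussianInt) = 0 := by rw [List.getD_nil]; rfl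
    rw [e1, e2]; exact Rp.zero
  | cons a f ih =>
    rw [fcodes_cons]
    refine ⟨by simp [ih.1], fun k => ?_⟩
    cases k with
    | zero => simpa using icode_spec a
    | succ k => simpa using ih.2 k

theorem fOK_spec (f : List ℤ) (h : fOK f = true) (k : ℕ) : |f.getD k 0| ≤ 2199023255552 := by
  induction f generalizing k with
  | nil => simp
  | cons a f ih =>
    have h' : and (Nat.ble (absI a) 2199023255552) (fOK f) = true := h
    rw [Bool.and_eq_true] at h'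
    cases k with
    | zero =>
      have := Nat.le_of_ble_eq_true h'.1
      rw [absI_eq] at this
      rw [List.getD_cons_zero, Int.abs_eq_natAbs]
      exact_mod_cast this
    | succ k => simpa using ih h'.2 k

theorem mE120_eq : ((mE120 : ℕ) : ℤ) = Lmi.NN - 2 ^ 120 := by
  rw [NN_int, T_int]; unfold mE120; norm_num

theorem mE120_spec : Rp mE120 ⟨-2 ^ 120, 0⟩ := by
  refine Rp.of_int 1 ?_
  rw [mE120_eq]
  ring

theorem RWord.sound (K : Crit) (W : RWord) (h : W.check = true) {x : ℕ → ℂ}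
    (hx : ∀ j, ‖x j‖ ≤ XX) :
    ‖∑ j ∈ Finset.range W.m, ((W.f.getD j 0 : ℝ) / 2 ^ 40 : ℝ) * x j‖ ^ 2 ≤ W.rhs K x + 1e-10 := by
  unfold RWord.check at h
  rw [Bool.and_eq_true, Bool.and_eq_true, Bool.and_eq_true] at h
  obtain ⟨hw, h1, h2, h5⟩ := h
  obtain ⟨hL, hm, hcs, hmu, hnu⟩ := wOK_spec hw
  have h2 := Nat.eq_of_beq_eq_true h2
  rw [flen_eq] at h2
  have hfl := (fcodes_spec W.f).1
  set FZ : ℕ → ℕ → GaussianInt := fun i d => ⟨-2 ^ 120, 0⟩ * ⟨W.f.getD i 0, 0⟩ *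
    ⟨W.f.getD (i - d) 0, 0⟩ with hFZ
  have hFZc : ∀ i d, ((FZ i d : GaussianInt) : ℂ) =
      (((-2 ^ 120) * (W.f.getD i 0 : ℝ) * (W.f.getD (i - d) 0 : ℝ) : ℝ) : ℂ) := by
    intro i d
    rw [hFZ]
    simp only [toComplex_mul, toComplex_def']
    push_cast
    ring
  have hFb : ∀ i d, ‖((FZ i d : GaussianInt) : ℂ)‖ ≤ 2 ^ 210 := by
    intro i d
    rw [hFZc, Complex.norm_real, Real.norm_eq_abs, abs_mul, abs_mul]
    have q1 : |((W.f.getD i 0 : ℤ) : ℝ)| ≤ 2199023255552 := by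
      exact_mod_cast fOK_spec W.f h1 i
    have q2 : |((W.f.getD (i - d) 0 : ℤ) : ℝ)| ≤ 2199023255552 := by
      exact_mod_cast fOK_spec W.f h1 (i - d)
    have q3 : |(-2 ^ 120 : ℝ)| = 2 ^ 120 := by rw [abs_neg]; norm_num
    rw [q3]
    calc _ ≤ (2 : ℝ) ^ 120 * 2199023255552 * 2199023255552 := by gcongr
      _ ≤ 2 ^ 210 := by norm_num
  set fr : ℕ → ℝ := fun j => (W.f.getD j 0 : ℝ) / 2 ^ 40 with hfr
  have hc1 := core hm hL (SZ := fun i d => (if d = 0 then ((cX * W.nu.getD i 0 : ℕ) : GaussianInt)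
      else 0) + ((W.cols.map fun c => CZ c i d).sum + FZ i d))
    (S := zzadd (drows cX W.nu) (zzadd (colsRows W.m W.cols) (frows mE120 (fcodes W.f) [])))
    (F := fun i d => PF K W.cols W.nu i d - conj ((fr i : ℝ) : ℂ) * ((fr (i - d) : ℝ) : ℂ))
    (ε := 1.07e-14) (X := XX) (x := x)
    (by
      intro i hi d hd
      rw [zzadd_getD, zzadd_getD, zadd_getD, zadd_getD]
      exact (drows_spec cX W.nu i d).add ((colsRows_spec hm W.cols hcs (by omega)).add
        (frows_spec mE120_spec (fz := fun k => ⟨W.f.getD k 0, 0⟩)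
          (fun k _ => (fcodes_spec W.f).2 k) (by omega) hd)))
    (by
      intro i hi d hd
      have e : (if d = 0 then ((cX * W.nu.getD i 0 : ℕ) : GaussianInt) else 0) +
          ((W.cols.map fun c => CZ c i d).sum + FZ i d) =
          PZ W.cols W.nu i d + FZ i d := by
        unfold PZ; ring
      rw [e, toComplex_add]
      refine (norm_add_le _ _).trans ?_
      have q1 := norm_PZ (fun c hc => (hcs c hc).2.1) hmu hnu (i := i) (by omega : d < 41)
      have q2 := hFb i d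
      refine (add_le_add q1 q2).trans ?_
      norm_num)
    h5
    (by
      intro i hi d hd
      have e : (if d = 0 then ((cX * W.nu.getD i 0 : ℕ) : GaussianInt) else 0) +
          ((W.cols.map fun c => CZ c i d).sum + FZ i d) =
          PZ W.cols W.nu i d + FZ i d := by
        unfold PZ; ring
      rw [e, toComplex_add, hFZc]
      have e2 : PF K W.cols W.nu i d - conj ((fr i : ℝ) : ℂ) * ((fr (i - d) : ℝ) : ℂ) -
          (((PZ W.cols W.nu i d : GaussianInt) : ℂ) +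
            (((-2 ^ 120) * (W.f.getD i 0 : ℝ) * (W.f.getD (i - d) 0 : ℝ) : ℝ) : ℂ)) / 2 ^ 200 =
          PF K W.cols W.nu i d - ((PZ W.cols W.nu i d : GaussianInt) : ℂ) / 2 ^ 200 := by
        rw [Complex.conj_ofReal, hfr]
        push_cast
        ring
      rw [e2]
      exact PF_err K hcs hmu hnu (i := i) (by omega : i < 40) hd)
    hx
  have hsq : qf W.m (fun i d => conj ((fr i : ℝ) : ℂ) * ((fr (i - d) : ℝ) : ℂ)) x =
      ‖∑ j ∈ Finset.range W.m, ((W.f.getD j 0 : ℝ) / 2 ^ 40 : ℝ) * x j‖ ^ 2 := by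
    have := qf_gram W.m 1 (fun _ j => ((fr j : ℝ) : ℂ)) x
    simpa [hfr] using this
  rw [qf_sub, PF_qf K hcs, hsq] at hc1
  unfold RWord.rhs
  have hmr : ((W.m : ℕ) : ℝ) ≤ 40 := by exact_mod_cast hm
  have hm2 : ((W.m : ℕ) : ℝ) ^ 2 ≤ 1600 := by nlinarith [Nat.cast_nonneg (α := ℝ) W.m]
  have hbound : (1.07e-14 + 5.4e-15) * ((W.m : ℕ) : ℝ) ^ 2 * XX ^ 2 ≤ 1e-10 := by
    unfold XX
    nlinarith
  linarith

end Pool.Agent.H93
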