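import Pool.Agent.Lib.H93.Upper
import Pool.Agent.Lib.H93.Lower
import Pool.Agent.Lib.H93.Disc
import Pool.Agent.Lib.H93.Seq
import Pool.Agent.Lib.H93.Chord
import Pool.Agent.Lib.H93.Tail
import Pool.Agent.Lib.H93.CertData
import Pool.Agent.Lib.H93.Word

/-!
Chunk G2d: assembly.

`certChain b` is the list of certified points of node `b`, counterclockwise, `certChain 0` starting
at `e^{i z0}` and ending at `e^{-i z0}` (data `(p,q)`, ..., `(-p, q)`), the chains of the other nodes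
being closed (last point = first point on the circle).
-/

namespace Pool.Agent.H93

open Filter Topology ComplexConjugate

/-! ### rounding -/

theorem natdiv_ge (a b : ℕ) (hb : 0 < b) : (a : ℝ) / b ≤ ((a / b : ℕ) : ℝ) + 1 := by
  have hb' : (0 : ℝ) < b := by exact_mod_cast hb
  rw [div_le_iff₀ hb']
  have h1 : a = b * (a / b) + a % b := (Nat.div_add_mod a b).symm
  have h2 : a % b < b := Nat.mod_lt _ hb
  have h3 : (a : ℝ) = b * ((a / b : ℕ) : ℝ) + ((a % b : ℕ) : ℝ) := by exact_mod_cast h1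
  have h4 : ((a % b : ℕ) : ℝ) < b := by exact_mod_cast h2
  rw [h3]
  nlinarith

theorem tA_nonneg (m : ℕ) : 0 ≤ tA m := by
  unfold tA
  positivity

theorem tA_le (m : ℕ) : tA m * 2 ^ 40 ≤ (tAz m : ℝ) := by
  unfold tA tAz
  have h1 := natdiv_ge (43 * 2 ^ 40 * 5613 ^ m) (10 * 10000 ^ m) (by positivity)
  have h2 := natdiv_ge (2 * 2 ^ 40 * 49 ^ (m - 16)) (100000 * 100 ^ (m - 16)) (by positivity)
  have e1 : ((43 * 2 ^ 40 * 5613 ^ m : ℕ) : ℝ) / ((10 * 10000 ^ m : ℕ) : ℝ) =
      4.3 * (0.5613 : ℝ) ^ m * 2 ^ 40 := by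
    push_cast
    have : (0.5613 : ℝ) ^ m = 5613 ^ m / 10000 ^ m := by
      rw [← div_pow]
      norm_num
    rw [this]
    field_simp
    norm_num
  have e2 : ((2 * 2 ^ 40 * 49 ^ (m - 16) : ℕ) : ℝ) / ((100000 * 100 ^ (m - 16) : ℕ) : ℝ) =
      2e-5 * (0.49 : ℝ) ^ (m - 16) * 2 ^ 40 := by
    push_cast
    have : (0.49 : ℝ) ^ (m - 16) = 49 ^ (m - 16) / 100 ^ (m - 16) := by
      rw [← div_pow]
      norm_num
    rw [this]
    field_simp
    norm_num
  rw [e1] at h1
  rw [e2] at h2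
  push_cast
  push_cast at h1 h2
  linarith

theorem tB_le (b m : ℕ) : tB b m * 2 ^ 40 ≤ (tBz b m : ℝ) := by
  unfold tB tBz
  by_cases hb : b = 0
  · rw [if_pos hb, if_pos hb]
    have h1 := natdiv_ge (63 * 2 ^ 40 * 5613 ^ m) (10 * 10000 ^ m) (by positivity)
    have h2 := natdiv_ge (2 ^ 40 * 49 ^ (m - 16)) (10000 * 100 ^ (m - 16)) (by positivity)
    have e1 : ((63 * 2 ^ 40 * 5613 ^ m : ℕ) : ℝ) / ((10 * 10000 ^ m : ℕ) : ℝ) =
        6.3 * (0.5613 : ℝ) ^ m * 2 ^ 40 := by
      push_cast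
      have : (0.5613 : ℝ) ^ m = 5613 ^ m / 10000 ^ m := by
        rw [← div_pow]
        norm_num
      rw [this]
      field_simp
      norm_num
    have e2 : ((2 ^ 40 * 49 ^ (m - 16) : ℕ) : ℝ) / ((10000 * 100 ^ (m - 16) : ℕ) : ℝ) =
        1e-4 * (0.49 : ℝ) ^ (m - 16) * 2 ^ 40 := by
      push_cast
      have : (0.49 : ℝ) ^ (m - 16) = 49 ^ (m - 16) / 100 ^ (m - 16) := by
        rw [← div_pow]
        norm_num
      rw [this]
      field_simp
      norm_num
    rw [e1] at h1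
    rw [e2] at h2
    push_cast
    push_cast at h1 h2
    linarith
  · rw [if_neg hb, if_neg hb]
    have h1 := natdiv_ge (205 * 2 ^ 40 * 5613 ^ m) (100 * 10000 ^ m) (by positivity)
    have e1 : ((205 * 2 ^ 40 * 5613 ^ m : ℕ) : ℝ) / ((100 * 10000 ^ m : ℕ) : ℝ) =
        2.05 * (0.5613 : ℝ) ^ m * 2 ^ 40 := by
      push_cast
      have : (0.5613 : ℝ) ^ m = 5613 ^ m / 10000 ^ m := by
        rw [← div_pow]
        norm_num
      rw [this]
      field_simp
      norm_num
    rw [e1] at h1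
    push_cast
    push_cast at h1
    linarith

/-! ### the right hand side -/

theorem sum_mu_le {ι : Type} (l : List ι) (mu : ι → ℕ) (N : ι → ℝ) {B : ℝ}
    (h : ∀ c ∈ l, N c ≤ B) :
    (l.map fun c => ((mu c : ℝ) / 2 ^ 40) * N c).sum ≤ (((l.map mu).sum : ℕ) : ℝ) / 2 ^ 40 * B := by
  induction l with
  | nil => simp
  | cons a l ih =>
    simp only [List.map_cons, List.sum_cons]
    have h1 := ih fun c hc => h c (List.mem_cons_of_mem _ hc)
    have h2 := h a (List.mem_cons_self ..)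
    have h3 : ((mu a : ℝ) / 2 ^ 40) * N a ≤ ((mu a : ℝ) / 2 ^ 40) * B :=
      mul_le_mul_of_nonneg_left h2 (by positivity)
    push_cast at h1 ⊢
    have h4 : ((mu a : ℝ) + ((l.map mu).sum : ℕ)) / 2 ^ 40 * B =
        ((mu a : ℝ) / 2 ^ 40) * B + (((l.map mu).sum : ℕ) : ℝ) / 2 ^ 40 * B := by ring
    push_cast at h4
    rw [h4]
    linarith

theorem sum_getD_le (l : List ℕ) (m : ℕ) :
    ((List.range m).map fun i => l.getD i 0).sum ≤ l.sum := by
  induction l generalizing m with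
  | nil => simp
  | cons a l ih =>
    rcases m with _ | m
    · simp
    · rw [List.range_succ_eq_map]
      simp only [List.map_cons, List.sum_cons, List.map_map, List.getD_cons_zero]
      have : ((fun i => (a :: l).getD i 0) ∘ Nat.succ) = fun i => l.getD i 0 := by
        funext i
        simp
      rw [this]
      have := ih m
      omega

theorem sum_nu_le (nu : List ℕ) (m : ℕ) {x : ℕ → ℂ} {X : ℝ} (hX : 0 < X)
    (hx : ∀ j, ‖x j‖ ≤ X) :
    ((List.range m).map fun l => ((nu.getD l 0 : ℝ) / 2 ^ 40) * (‖x l‖ ^ 2 / X ^ 2)).sum ≤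
      ((nu.sum : ℕ) : ℝ) / 2 ^ 40 := by
  have h1 := sum_mu_le (List.range m) (fun l => nu.getD l 0) (fun l => ‖x l‖ ^ 2 / X ^ 2)
    (B := 1) (by
      intro c _
      rw [div_le_one (by positivity)]
      exact pow_le_pow_left₀ (norm_nonneg _) (hx c) 2)
  rw [mul_one] at h1
  refine h1.trans ?_
  have h2 := sum_getD_le nu m
  have h3 : ((((List.range m).map fun i => nu.getD i 0).sum : ℕ) : ℝ) ≤ ((nu.sum : ℕ) : ℝ) := by
    exact_mod_cast h2
  exact div_le_div_of_nonneg_right h3 (by positivity)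

theorem XX_pos : 0 < XX := by
  unfold XX
  norm_num

variable (K : Crit)

theorem rhs_le_aux {x : ℕ → ℂ} (hx : K.C x) {m : ℕ} (h16 : 16 ≤ m) (h40 : m ≤ 40)
    (cols : List Col) (nu : List ℕ) (hcols : ∀ c ∈ cols, c.nd < 5 ∧ c.u ≠ (0, 0)) :
    (cols.map fun c => ((c.mu : ℝ) / 2 ^ 40) * K.NT c.nd m (c.act x)).sum +
      ((List.range m).map fun l => ((nu.getD l 0 : ℝ) / 2 ^ 40) * (‖x l‖ ^ 2 / XX ^ 2)).sum ≤
      (((cols.map Col.mu).sum + nu.sum : ℕ) : ℝ) / 2 ^ 40 * (1 + tA m) := by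
  have h1 := sum_mu_le cols Col.mu (fun c => K.NT c.nd m (c.act x)) (B := 1 + tA m)
    (fun c hc => K.NT_le_of_C hx h16 h40 c (hcols c hc).1 (hcols c hc).2)
  have h2 := sum_nu_le nu m XX_pos hx.1
  have h3 : ((nu.sum : ℕ) : ℝ) / 2 ^ 40 ≤ ((nu.sum : ℕ) : ℝ) / 2 ^ 40 * (1 + tA m) := by
    have h4 := tA_nonneg m
    have h5 : (0 : ℝ) ≤ ((nu.sum : ℕ) : ℝ) / 2 ^ 40 := by positivity
    nlinarith
  have h6 : (((cols.map Col.mu).sum + nu.sum : ℕ) : ℝ) / 2 ^ 40 * (1 + tA m) =
      (((cols.map Col.mu).sum : ℕ) : ℝ) / 2 ^ 40 * (1 + tA m) +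
        ((nu.sum : ℕ) : ℝ) / 2 ^ 40 * (1 + tA m) := by
    push_cast
    ring
  rw [h6]
  linarith

/-- the common rounding estimate -/
theorem val_aux (T m : ℕ) :
    (T : ℝ) / 2 ^ 40 * (1 + tA m) + 1e-10 ≤
      ((T + (T * tAz m) / 2 ^ 40 + 1 + 110 : ℕ) : ℝ) / 2 ^ 40 := by
  have h1 := natdiv_ge (T * tAz m) (2 ^ 40) (by positivity)
  have h2 := tA_le m
  rw [le_div_iff₀ (by positivity)]
  have h3 : (T : ℝ) * (tA m * 2 ^ 40) ≤ T * (tAz m : ℝ) :=
    mul_le_mul_of_nonneg_left h2 (Nat.cast_nonneg _)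
  have h4 : ((T * tAz m : ℕ) : ℝ) / ((2 ^ 40 : ℕ) : ℝ) = (T : ℝ) * (tAz m : ℝ) / 2 ^ 40 := by
    rw [Nat.cast_mul, Nat.cast_pow, Nat.cast_ofNat]
  rw [h4] at h1
  have h5 : (T : ℝ) * tA m ≤ (T : ℝ) * (tAz m : ℝ) / 2 ^ 40 := by
    rw [le_div_iff₀ (by positivity)]
    linarith
  have h6 : ((T : ℝ) / 2 ^ 40 * (1 + tA m) + 1e-10) * 2 ^ 40 =
      T + T * tA m + 1e-10 * 2 ^ 40 := by
    field_simp
  rw [h6]
  have h7 : (1e-10 : ℝ) * 2 ^ 40 ≤ 110 := by norm_num
  have h8 : ((T + (T * tAz m) / 2 ^ 40 + 1 + 110 : ℕ) : ℝ) =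
      (T : ℝ) + ((T * tAz m / 2 ^ 40 : ℕ) : ℝ) + 1 + 110 := by push_cast; rfl
  rw [h8]
  linarith

/-- the value bound at a certified point -/
theorem point_ok {W : Word} {b : Fin 5} (hb : W.node = b) (h16 : 16 ≤ W.m) (h40 : W.m ≤ 40)
    (hz : W.z ≠ (0, 0)) (hcols : ∀ c ∈ W.cols, c.nd < 5 ∧ c.u ≠ (0, 0))
    (hcheck : W.check = true) (hval : W.val ≤ 2 ^ 40) {x : ℕ → ℂ} (hx : K.C x) :
    K.N b (K.A (unitQ W.z) x) ≤ (W.val : ℝ) / 2 ^ 40 := by
  have h1 := Word.sound K W hcheck hx.1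
  have h2 : W.rhs K x ≤ (W.total : ℝ) / 2 ^ 40 * (1 + tA W.m) :=
    rhs_le_aux K hx h16 h40 W.cols W.nu hcols
  have h3 := val_aux W.total W.m
  have h4 := tB_le W.node W.m
  have h5 : (W.val : ℝ) / 2 ^ 40 =
      ((W.total + (W.total * tAz W.m) / 2 ^ 40 + 1 + 110 : ℕ) : ℝ) / 2 ^ 40 +
        (tBz W.node W.m : ℝ) / 2 ^ 40 := by
    unfold Word.val
    push_cast
    ring
  have h6 : tB W.node W.m ≤ (tBz W.node W.m : ℝ) / 2 ^ 40 := by
    rw [le_div_iff₀ (by positivity)]
    exact h4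
  have h7 : (W.val : ℝ) / 2 ^ 40 ≤ 1 := by
    rw [div_le_one (by positivity)]
    exact_mod_cast hval
  have h8 : (0 : ℝ) ≤ (tBz W.node W.m : ℝ) / 2 ^ 40 := by positivity
  have hV : (W.total : ℝ) / 2 ^ 40 * (1 + tA W.m) + 1e-10 ≤ 1 := by linarith
  have h9 := K.N_le_of_NT hx (b := b) h16 h40 (norm_unitQ hz) hV
    (by rw [← hb]; linarith)
  rw [← hb] at h9
  linarith

theorem arc_arith {g h σ V t s k : ℝ} (hg0 : 0 ≤ g) (hgs : g ≤ s) (hh2 : h ^ 2 ≤ 4 * t)
    (ht0 : 0 ≤ t) (ht1 : t ≤ 1 / 144) (hσ1 : σ ≤ 1) (hσ2 : σ ^ 2 = V)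
    (hV : V + k * t ≤ 1) (hsk : 2 * (s * 5.825) + (s * 5.825) ^ 2 * (1 / 144) ≤ k) :
    (σ + g * 11.65 * h ^ 2 / 8) ^ 2 ≤ 1 := by
  have hs0 : 0 ≤ s := hg0.trans hgs
  have h4 : g * h ^ 2 ≤ s * (4 * t) := mul_le_mul hgs hh2 (by positivity) hs0
  set E : ℝ := g * 11.65 * h ^ 2 / 8 with hE
  have hE0 : 0 ≤ E := by positivity
  have hE1 : E ≤ s * 5.825 * t := by
    have e : E = 1.45625 * (g * h ^ 2) := by
      rw [hE]
      ring
    rw [e]
    linarith
  set c : ℝ := s * 5.825 with hc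
  have hc0 : 0 ≤ c := by positivity
  have h5 : E ^ 2 ≤ (c * t) ^ 2 := pow_le_pow_left₀ hE0 hE1 2
  have h6 : (c * t) ^ 2 ≤ c ^ 2 * (1 / 144) * t := by
    have e : (c * t) ^ 2 = c ^ 2 * t * t := by ring
    rw [e]
    have h7 : c ^ 2 * t * t ≤ c ^ 2 * t * (1 / 144) :=
      mul_le_mul_of_nonneg_left ht1 (by positivity)
    linarith
  have h8 : 2 * σ * E ≤ 2 * (c * t) := by nlinarith
  have h9 : (2 * c + c ^ 2 * (1 / 144)) * t ≤ k * t := mul_le_mul_of_nonneg_right hsk ht0
  have e : (σ + E) ^ 2 = σ ^ 2 + 2 * σ * E + E ^ 2 := by ring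
  rw [e, hσ2]
  linarith

/-- the value bound on an arc -/
theorem arc_ok {W W' : Word} {b : Fin 5} (harc : arcOK b W W' = true)
    (h1 : wordsOK b [W, W'] = true) (hc : W.check = true) (hc' : W'.check = true)
    {x : ℕ → ℂ} (hx : K.C x) {h : ℝ} (hh : 0 ≤ h)
    (hle : h ≤ 2 * ((relPQ W.z W'.z).2 : ℝ) / ((relPQ W.z W'.z).1 : ℝ))
    (hζ : unitQ W'.z = unitQ W.z * Complex.exp (h * Complex.I)) :
    ∀ τ ∈ Set.Icc (0 : ℝ) h, K.N b (K.A (unitQ W.z * Complex.exp (τ * Complex.I)) x) ≤ 1 := by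
  simp only [wordsOK, List.all_cons, List.all_nil, Bool.and_true, Bool.and_eq_true, beq_iff_eq,
    decide_eq_true_eq, bne_iff_ne, List.all_eq_true, ne_eq] at h1
  obtain ⟨⟨⟨⟨⟨⟨hb, h16⟩, h40⟩, _⟩, hz⟩, hcols⟩, ⟨⟨⟨⟨⟨hb', h16'⟩, h40'⟩, _⟩, hz'⟩, hcols'⟩⟩ := h1
  simp only [arcOK, Bool.and_eq_true, decide_eq_true_eq] at harc
  set P : ℤ := (relPQ W.z W'.z).1 with hP
  set Q : ℤ := (relPQ W.z W'.z).2 with hQ
  obtain ⟨⟨⟨hP0, hQ0⟩, hPQ⟩, hval⟩ := harc
  set κ : ℤ := if (b : ℕ) = 0 then 76 else 82 with hκ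
  have hκ0 : 0 ≤ κ := by
    rw [hκ]
    split_ifs <;> norm_num
  set v : ℕ := max W.val W'.val with hv
  have hPr : (0 : ℝ) < P := by exact_mod_cast hP0
  have hQr : (0 : ℝ) < Q := by exact_mod_cast hQ0
  set t : ℝ := ((Q : ℝ) / P) ^ 2 with ht
  have ht0 : 0 ≤ t := by positivity
  have ht1 : t ≤ 1 / 144 := by
    have h2 : (Q : ℝ) / P ≤ 1 / 12 := by
      rw [div_le_iff₀ hPr]
      have : (12 : ℝ) * Q < P := by exact_mod_cast hPQ
      linarith
    have h3 : (0 : ℝ) ≤ (Q : ℝ) / P := by positivity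
    rw [ht]
    calc ((Q : ℝ) / P) ^ 2 ≤ (1 / 12) ^ 2 := pow_le_pow_left₀ h3 h2 2
      _ = 1 / 144 := by norm_num
  -- the value condition in real form
  have hvr : (v : ℝ) / 2 ^ 40 + (κ : ℝ) / 10 * t ≤ 1 := by
    have h2 : ((v : ℝ)) * (10 * (P : ℝ) ^ 2) + κ * (Q : ℝ) ^ 2 * 2 ^ 40 ≤
        2 ^ 40 * (10 * (P : ℝ) ^ 2) := by exact_mod_cast hval
    have h3 : (v : ℝ) / 2 ^ 40 + (κ : ℝ) / 10 * t =
        (((v : ℝ)) * (10 * (P : ℝ) ^ 2) + κ * (Q : ℝ) ^ 2 * 2 ^ 40) /
          (2 ^ 40 * (10 * (P : ℝ) ^ 2)) := by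
      rw [ht]
      field_simp
    rw [h3, div_le_one (by positivity)]
    exact h2
  have hκr : (0 : ℝ) ≤ (κ : ℝ) / 10 * t := by
    have : (0 : ℝ) ≤ (κ : ℝ) := by exact_mod_cast hκ0
    positivity
  have hv1 : (v : ℝ) / 2 ^ 40 ≤ 1 := by linarith
  have hvn : v ≤ 2 ^ 40 := by
    rw [div_le_one (by positivity)] at hv1
    exact_mod_cast hv1
  have hval1 : W.val ≤ 2 ^ 40 := (le_max_left _ _).trans hvn
  have hval2 : W'.val ≤ 2 ^ 40 := (le_max_right _ _).trans hvn
  have hp1 := point_ok K hb h16 h40 hz hcols hc hval1 hx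
  have hp2 := point_ok K hb' h16' h40' hz' hcols' hc' hval2 hx
  have hw1 : (W.val : ℝ) / 2 ^ 40 ≤ (v : ℝ) / 2 ^ 40 := by
    refine div_le_div_of_nonneg_right ?_ (by positivity)
    exact_mod_cast le_max_left _ _
  have hw2 : (W'.val : ℝ) / 2 ^ 40 ≤ (v : ℝ) / 2 ^ 40 := by
    refine div_le_div_of_nonneg_right ?_ (by positivity)
    exact_mod_cast le_max_right _ _
  set σ : ℝ := √((v : ℝ) / 2 ^ 40) with hσ
  have hσ0 : 0 ≤ σ := Real.sqrt_nonneg _
  have hσ2 : σ ^ 2 = (v : ℝ) / 2 ^ 40 := Real.sq_sqrt (by positivity)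
  have hσ1 : σ ≤ 1 := Real.sqrt_le_one.mpr hv1
  have hxb : Bdd x := ⟨XX, hx.1⟩
  intro τ hτ
  have hch := chord_form K.r_pos K.r_lt_one K.hq (K.N b) (K.N_nonneg b) (K.gam_nonneg b)
    (K.N_quad b) hxb (G := 11.65) (fun u hu => K.g2f_le hx hu) (norm_unitQ hz) hh hσ0
    (by rw [hσ2]; exact hp1.trans hw1)
    (by rw [hσ2, ← hζ]; exact hp2.trans hw2) τ hτ
  refine le_trans hch ?_
  -- size of the correction
  have hh2 : h ^ 2 ≤ 4 * t := by
    have h3 : h ≤ 2 * ((Q : ℝ) / P) := by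
      rw [← mul_div_assoc]
      exact hle
    calc h ^ 2 ≤ (2 * ((Q : ℝ) / P)) ^ 2 := pow_le_pow_left₀ hh h3 2
      _ = 4 * t := by rw [ht]; ring
  by_cases hb0 : b = 0
  · subst hb0
    have hκ1 : (κ : ℝ) / 10 = 7.6 := by
      rw [hκ]
      norm_num
    rw [hκ1] at hvr
    refine arc_arith (s := 0.6404) (k := 7.6) (Real.sqrt_nonneg _) ?_ hh2 ht0 ht1 hσ1 hσ2
      hvr (by norm_num)
    rw [Real.sqrt_le_left (by norm_num)]
    have := K.gam_zero_le
    norm_num at this ⊢
    linarith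
  · have hb0' : (b : ℕ) ≠ 0 := fun h0 => hb0 (Fin.ext h0)
    have hκ1 : (κ : ℝ) / 10 = 8.2 := by
      rw [hκ, if_neg hb0']
      norm_num
    rw [hκ1] at hvr
    refine arc_arith (s := 0.6929) (k := 8.2) (Real.sqrt_nonneg _) ?_ hh2 ht0 ht1 hσ1 hσ2
      hvr (by norm_num)
    rw [Real.sqrt_le_left (by norm_num)]
    have := K.gam_le b
    norm_num at this ⊢
    linarith

/-! ### chains -/

theorem arcsOK_getElem {b : ℕ} : ∀ {l : List Word}, arcsOK b l = true →
    ∀ (i : ℕ) (hi : i + 1 < l.length), arcOK b (l[i]) (l[i + 1]) = true := by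
  intro l
  induction l with
  | nil => intro _ i hi; simp at hi
  | cons W l ih =>
    intro h i hi
    rcases l with _ | ⟨W', l⟩
    · simp at hi
    · simp only [arcsOK, Bool.and_eq_true] at h
      rcases i with _ | i
      · exact h.1
      · exact ih h.2 i (by simpa using hi)

theorem chainOK_of_arcsOK {b : ℕ} : ∀ {l : List Word}, arcsOK b l = true →
    chainOK (l.map Word.z) = true := by
  intro l
  induction l with
  | nil => intro _; rfl
  | cons W l ih =>
    intro h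
    rcases l with _ | ⟨W', l⟩
    · rfl
    · simp only [arcsOK, Bool.and_eq_true] at h
      have h1 := h.1
      simp only [arcOK, Bool.and_eq_true, decide_eq_true_eq] at h1
      have h2 := ih h.2
      simp only [List.map_cons] at h2 ⊢
      simp only [chainOK, Bool.and_eq_true, decide_eq_true_eq]
      exact ⟨⟨h1.1.1.1, h1.1.1.2⟩, h2⟩

theorem chainOK_concat : ∀ (l : List (ℤ × ℤ)) (hl : l ≠ []) (w : ℤ × ℤ), chainOK l = true →
    0 < (relPQ (l.getLast hl) w).1 → 0 < (relPQ (l.getLast hl) w).2 →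
    chainOK (l ++ [w]) = true := by
  intro l
  induction l with
  | nil => intro hl; exact absurd rfl hl
  | cons a l ih =>
    intro _ w h h1 h2
    rcases l with _ | ⟨a', l⟩
    · simp only [List.getLast_singleton] at h1 h2
      simp [chainOK, h1, h2]
    · rw [List.getLast_cons (List.cons_ne_nil _ _)] at h1 h2
      simp only [chainOK, Bool.and_eq_true, decide_eq_true_eq] at h
      have h3 := ih (List.cons_ne_nil _ _) w h.2 h1 h2
      simp only [List.cons_append] at h3 ⊢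
      simp only [chainOK, Bool.and_eq_true, decide_eq_true_eq]
      exact ⟨h.1, h3⟩

theorem wordsOK_z_ne {b : ℕ} {l : List Word} (h : wordsOK b l = true) :
    ∀ z ∈ l.map Word.z, z ≠ (0, 0) := by
  intro z hz
  rw [List.mem_map] at hz
  obtain ⟨W, hW, rfl⟩ := hz
  simp only [wordsOK, List.all_eq_true] at h
  have := h W hW
  simp only [Bool.and_eq_true, bne_iff_ne] at this
  exact this.1.2

theorem wordsOK_pair {b : ℕ} {l : List Word} (h : wordsOK b l = true) {W W' : Word}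
    (hW : W ∈ l) (hW' : W' ∈ l) : wordsOK b [W, W'] = true := by
  unfold wordsOK at h ⊢
  rw [List.all_eq_true] at h ⊢
  intro V hV
  simp only [List.mem_cons, List.not_mem_nil, or_false] at hV
  rcases hV with rfl | rfl
  · exact h _ hW
  · exact h _ hW'

/-- the certified arcs of a chain -/
theorem chain_ok {b : Fin 5} {l : List Word} (hw : wordsOK b l = true) (ha : arcsOK b l = true)
    (hc : ∀ W ∈ l, W.check = true) {x : ℕ → ℂ} (hx : K.C x) (i : ℕ) (hi : i + 1 < l.length)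
    {h τ : ℝ} (h0 : 0 ≤ τ) (hτ : τ ≤ h)
    (hle : h ≤ 2 * ((relPQ (l[i]).z (l[i + 1]).z).2 : ℝ) / ((relPQ (l[i]).z (l[i + 1]).z).1 : ℝ))
    (hζ : unitQ (l[i + 1]).z = unitQ (l[i]).z * Complex.exp (h * Complex.I)) :
    K.N b (K.A (unitQ (l[i]).z * Complex.exp (τ * Complex.I)) x) ≤ 1 :=
  arc_ok K (arcsOK_getElem ha i hi) (wordsOK_pair hw (List.getElem_mem _) (List.getElem_mem _))
    (hc _ (List.getElem_mem _)) (hc _ (List.getElem_mem _)) hx (h0.trans hτ) hle hζ τ ⟨h0, hτ⟩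

/-- proportional vectors give the same point of the circle -/
theorem unitQ_eq_of_cross {z z' : ℤ × ℤ} (hz : z ≠ (0, 0)) (hz' : z' ≠ (0, 0))
    (h : z.1 * z'.2 - z.2 * z'.1 = 0) : unitQ z' = unitQ z := by
  obtain ⟨p, q⟩ := z
  obtain ⟨p', q'⟩ := z'
  simp only at h
  unfold unitQ
  simp only
  have e1 : ((p : ℂ) ^ 2 + (q : ℂ) ^ 2) ≠ 0 := by
    have : (p : ℤ) ^ 2 + q ^ 2 ≠ 0 := by
      intro h0
      have hp0 : p = 0 := by nlinarith [sq_nonneg p, sq_nonneg q]
      have hq0 : q = 0 := by nlinarith [sq_nonneg p, sq_nonneg q]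
      exact hz (by rw [hp0, hq0])
    exact_mod_cast this
  have e2 : ((p' : ℂ) ^ 2 + (q' : ℂ) ^ 2) ≠ 0 := by
    have : (p' : ℤ) ^ 2 + q' ^ 2 ≠ 0 := by
      intro h0
      have hp0 : p' = 0 := by nlinarith [sq_nonneg p', sq_nonneg q']
      have hq0 : q' = 0 := by nlinarith [sq_nonneg p', sq_nonneg q']
      exact hz' (by rw [hp0, hq0])
    exact_mod_cast this
  have h' : (p : ℂ) * q' - q * p' = 0 := by exact_mod_cast h
  rw [div_eq_div_iff e2 e1]
  linear_combination (2 * Complex.I * ((p : ℂ) * p' - q * q') - 2 * (p * q' + p' * q)) * h' +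
    ((p : ℂ) ^ 2 * q' ^ 2 - p' ^ 2 * q ^ 2) * Complex.I_sq

/-- main inequality for the nodes `1..4` (closed chains) -/
theorem main_node {b : Fin 5} (hb : b ≠ 0) {x : ℕ → ℂ} (hx : K.C x) {ζ : ℂ} (hζ : ‖ζ‖ = 1) :
    K.N b (K.A ζ x) ≤ 1 := by
  have hb1 : 1 ≤ (b : ℕ) := by
    rcases Nat.eq_zero_or_pos (b : ℕ) with h0 | h0
    · exact absurd (Fin.ext h0) hb
    · exact h0
  have hcl := cert_closed b hb1 b.isLt
  have hw := cert_words b b.isLt
  have ha := cert_arcs b b.isLt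
  have hc := cert_check b b.isLt
  generalize certChain b = l at hcl hw ha hc
  rcases l with _ | ⟨W, _ | ⟨W', l⟩⟩
  · simp [closedOK] at hcl
  · simp [closedOK] at hcl
  · have hne := wordsOK_z_ne hw
    have hch := chainOK_of_arcsOK ha
    simp only [closedOK, beq_iff_eq] at hcl
    have hlast : ((W' :: l).map Word.z).getLast (by simp) =
        ((W' :: l).getLast (List.cons_ne_nil _ _)).z := List.getLast_map ..
    have hlmem : ((W' :: l).getLast (List.cons_ne_nil _ _)).z ∈ (W :: W' :: l).map Word.z :=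
      List.mem_map_of_mem (List.mem_cons_of_mem _ (List.getLast_mem _))
    have hret : unitQ (((W' :: l).map Word.z).getLast (by simp)) = unitQ W.z := by
      rw [hlast]
      exact unitQ_eq_of_cross (hne _ (by simp)) (hne _ hlmem) hcl
    obtain ⟨i, hi, h, τ, h0, hτ, hle, hu, hz⟩ := cover_circle (z₀ := W.z)
      (l := (W' :: l).map Word.z) (by simp) hch hne hret hζ
    have hi' : i + 1 < (W :: W' :: l).length := by simpa using hi
    have g1 : (W.z :: (W' :: l).map Word.z)[i] = ((W :: W' :: l)[i]).z := by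
      have : (W.z :: (W' :: l).map Word.z) = (W :: W' :: l).map Word.z := rfl
      simp only [this, List.getElem_map]
    have g2 : (W.z :: (W' :: l).map Word.z)[i + 1] = ((W :: W' :: l)[i + 1]).z := by
      have : (W.z :: (W' :: l).map Word.z) = (W :: W' :: l).map Word.z := rfl
      simp only [this, List.getElem_map]
    rw [g1, g2] at hle hu
    rw [g1] at hz
    rw [hz]
    exact chain_ok K hw ha hc hx i hi' h0 hτ hle hu

/-- main inequality for the node `0`: chain plus the local arc (`Crit.local_exact`). -/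
theorem main_node_zero {x : ℕ → ℂ} (hx : K.C x) {ζ : ℂ} (hζ : ‖ζ‖ = 1) :
    K.N 0 (K.A ζ x) ≤ 1 := by
  have hop := cert_open
  have hw := cert_words 0 (by norm_num)
  have ha := cert_arcs 0 (by norm_num)
  have hc := cert_check 0 (by norm_num)
  generalize certChain 0 = l at hop hw ha hc
  rcases l with _ | ⟨W, l⟩
  · simp [openOK] at hop
  · have hne := wordsOK_z_ne hw
    have hch := chainOK_of_arcsOK ha
    simp only [openOK, Bool.and_eq_true, decide_eq_true_eq, beq_iff_eq] at hop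
    obtain ⟨⟨⟨hq0, hpq⟩, hl1⟩, hl2⟩ := hop
    have hlast : ((W :: l).map Word.z).getLast (by simp) =
        ((W :: l).getLast (List.cons_ne_nil _ _)).z := List.getLast_map ..
    obtain ⟨⟨p, q⟩, hWz⟩ : ∃ z : ℤ × ℤ, W.z = z := ⟨_, rfl⟩
    rw [hWz] at hq0 hpq hl1 hl2
    simp only at hq0 hpq hl1 hl2
    have hlz : ((W :: l).map Word.z).getLast (by simp) = (-p, q) := by
      rw [hlast]
      exact Prod.ext hl1 hl2
    have hp0 : 0 < p := by nlinarith
    have hqp : q < p := by nlinarith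
    -- close the chain
    have hrel : relPQ (-p, q) (-p, -q) = (p ^ 2 - q ^ 2, 2 * p * q) := by
      unfold relPQ
      simp only [Prod.mk.injEq]
      constructor <;> ring
    have hch2 : chainOK ((W :: l).map Word.z ++ [(-p, -q)]) = true := by
      refine chainOK_concat _ (by simp) _ hch ?_ ?_
      · rw [hlz, hrel]
        simp only
        nlinarith
      · rw [hlz, hrel]
        simp only
        positivity
    have hne2 : ∀ z ∈ (W :: l).map Word.z ++ [(-p, -q)], z ≠ (0, 0) := by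
      intro z hz
      rw [List.mem_append, List.mem_singleton] at hz
      rcases hz with hz | hz
      · exact hne z hz
      · rw [hz]
        intro hcon
        have := congrArg Prod.fst hcon
        simp only at this
        omega
    have hret2 : unitQ ((l.map Word.z ++ [(-p, -q)]).getLast (by simp)) = unitQ W.z := by
      rw [List.getLast_append_singleton, hWz]
      refine unitQ_eq_of_cross ?_ ?_ ?_
      · intro hcon
        have := congrArg Prod.fst hcon
        simp only at this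
        omega
      · intro hcon
        have := congrArg Prod.fst hcon
        simp only at this
        omega
      · simp only
        ring
    obtain ⟨i, hi, h, τ, h0, hτ, hle, hu, hz⟩ := cover_circle (z₀ := W.z)
      (l := l.map Word.z ++ [(-p, -q)]) (by simp) hch2 hne2 hret2 hζ
    have hlist : (W.z :: (l.map Word.z ++ [(-p, -q)])) =
        (W :: l).map Word.z ++ [(-p, -q)] := rfl
    have hlen : i + 1 < (W :: l).length + 1 := by simpa using hi
    rcases Nat.lt_or_ge (i + 1) (W :: l).length with hlt | hge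
    · -- a certified arc
      have g1 : (W.z :: (l.map Word.z ++ [(-p, -q)]))[i] = ((W :: l)[i]).z := by
        simp only [hlist]
        rw [List.getElem_append_left (by rw [List.length_map]; omega), List.getElem_map]
      have g2 : (W.z :: (l.map Word.z ++ [(-p, -q)]))[i + 1] = ((W :: l)[i + 1]).z := by
        simp only [hlist]
        rw [List.getElem_append_left (by rw [List.length_map]; omega), List.getElem_map]
      rw [g1, g2] at hle hu
      rw [g1] at hz
      rw [hz]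
      exact chain_ok K (b := 0) hw ha hc hx i hlt h0 hτ hle hu
    · -- the local arc
      have hi1 : i + 1 = (W :: l).length := by omega
      have g1 : (W.z :: (l.map Word.z ++ [(-p, -q)]))[i] = (-p, q) := by
        rw [← hlz]
        simp only [hlist]
        rw [List.getElem_append_left (by rw [List.length_map]; omega),
          List.getLast_eq_getElem]
        congr 1
        rw [List.length_map]
        omega
      have g2 : (W.z :: (l.map Word.z ++ [(-p, -q)]))[i + 1] = (-p, -q) := by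
        simp only [hlist]
        rw [List.getElem_append_right (by rw [List.length_map]; omega)]
        simp
      rw [g1, g2] at hle hu
      rw [g1] at hz
      rw [hrel] at hle
      simp only at hle
      -- the half arc `z0`
      have hone : unitQ (1, 0) = 1 := by
        unfold unitQ
        simp
      have hrel0 : relPQ (1, 0) (p, q) = (p, q) := by
        unfold relPQ
        simp
      obtain ⟨z0, hz0, hz0le, _, hz0u⟩ := arc_step (z := (1, 0)) (z' := (p, q))
        (by rw [hrel0]; exact hp0) (by rw [hrel0]; exact hq0)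
      rw [hone, one_mul] at hz0u
      rw [hrel0] at hz0le
      simp only at hz0le
      have hpr : (0 : ℝ) < p := by exact_mod_cast hp0
      have hqr : (0 : ℝ) < q := by exact_mod_cast hq0
      have hpqr : (6600 : ℝ) * q ≤ p := by exact_mod_cast hpq
      have hz0s : z0 ≤ 1 / 3300 := by
        refine hz0le.trans ?_
        rw [div_le_iff₀ hpr]
        linarith
      -- `unitQ (-p, q) = e^{-i z0}`
      have hneg : unitQ (-p, q) = Complex.exp (-(z0 : ℂ) * Complex.I) := by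
        have e1 : unitQ (-p, q) = conj (unitQ (p, q)) := by
          unfold unitQ
          simp only [map_div₀, map_pow, map_add, map_mul, Complex.conj_I, map_intCast]
          push_cast
          rw [neg_sq]
          congr 1
          ring
        rw [e1, hz0u, ← Complex.exp_conj]
        congr 1
        simp
      have hneg2 : unitQ (-p, -q) = Complex.exp ((z0 : ℂ) * Complex.I) := by
        rw [← hz0u]
        refine unitQ_eq_of_cross ?_ ?_ ?_
        · intro hcon
          have := congrArg Prod.fst hcon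
          simp only at this
          omega
        · intro hcon
          have := congrArg Prod.fst hcon
          simp only at this
          omega
        · simp only
          ring
      -- `h = 2 z0`
      have hh : h = 2 * z0 := by
        rw [hneg, hneg2, ← Complex.exp_add, Complex.exp_eq_exp_iff_exists_int] at hu
        obtain ⟨n, hn⟩ := hu
        have e1 : ((z0 : ℝ) : ℂ) = ((-z0 + h + n * (2 * Real.pi) : ℝ) : ℂ) := by
          have e2 : ((z0 : ℝ) : ℂ) * Complex.I =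
              ((-z0 + h + n * (2 * Real.pi) : ℝ) : ℂ) * Complex.I := by
            rw [hn]
            push_cast
            ring
          exact mul_right_cancel₀ Complex.I_ne_zero e2
        have e3 : z0 = -z0 + h + n * (2 * Real.pi) := by exact_mod_cast e1
        have hhs : h ≤ 1 := by
          refine hle.trans ?_
          have hsq : (0 : ℝ) < (p : ℝ) ^ 2 - (q : ℝ) ^ 2 := by nlinarith
          push_cast
          rw [div_le_one hsq]
          nlinarith
        have hh0 : 0 ≤ h := h0.trans hτ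
        have hpi := Real.pi_gt_three
        have hn0 : n = 0 := by
          have u1 : (n : ℝ) * (2 * Real.pi) ≤ 1 := by linarith
          have u2 : -1 ≤ (n : ℝ) * (2 * Real.pi) := by linarith
          by_contra hcon
          rcases lt_or_gt_of_ne hcon with hlt | hgt
          · have : n ≤ -1 := by omega
            have : (n : ℝ) ≤ -1 := by exact_mod_cast this
            nlinarith
          · have : 1 ≤ n := by omega
            have : (1 : ℝ) ≤ n := by exact_mod_cast this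
            nlinarith
        rw [hn0] at e3
        simp only [Int.cast_zero, zero_mul, add_zero] at e3
        linarith
      -- conclusion
      have hζ2 : ζ = Complex.exp (((τ - z0 : ℝ) : ℂ) * Complex.I) := by
        rw [hz, hneg, ← Complex.exp_add]
        congr 1
        push_cast
        ring
      have habs : |τ - z0| ≤ 1 / 3300 := by
        rw [abs_le]
        constructor <;> linarith
      rw [hζ2]
      refine (K.local_exact ⟨XX, hx.1⟩ habs).trans ?_
      refine (hx.2 0 _ ?_).1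
      rw [Complex.norm_exp_ofReal_mul_I]

/-- powers of `r` and of its decimal value -/
theorem abs_pow_sub_pow_le {a b : ℝ} (ha : 0 ≤ a) (ha1 : a ≤ 1) (hb : 0 ≤ b) (hb1 : b ≤ 1)
    (n : ℕ) : |a ^ n - b ^ n| ≤ n * |a - b| := by
  induction n with
  | zero => simp
  | succ n ih =>
    have e : a ^ (n + 1) - b ^ (n + 1) = a ^ n * (a - b) + (a ^ n - b ^ n) * b := by ring
    rw [e]
    refine (abs_add_le _ _).trans ?_
    rw [abs_mul, abs_mul, abs_of_nonneg hb, abs_of_nonneg (pow_nonneg ha n)]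
    have h1 : a ^ n * |a - b| ≤ 1 * |a - b| :=
      mul_le_mul_of_nonneg_right (pow_le_one₀ ha ha1) (abs_nonneg _)
    have h2 : |a ^ n - b ^ n| * b ≤ (n * |a - b|) * 1 :=
      mul_le_mul ih hb1 hb (by positivity)
    push_cast
    linarith

/-- the coordinate inequality -/
theorem main_coord {x : ℕ → ℂ} (hx : K.C x) :
    ‖∑' j : ℕ, (K.r : ℂ) ^ (j + 1) * x j‖ ≤ XX := by
  have hok := certCoord_ok
  have hchk := certCoord_check
  have hval := certCoord_val
  generalize certCoord = W at hok hchk hval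
  simp only [coordOK, Bool.and_eq_true, beq_iff_eq, List.all_eq_true, decide_eq_true_eq,
    bne_iff_ne, List.mem_range, ne_eq] at hok
  obtain ⟨⟨hm, hcols⟩, hf⟩ := hok
  have hr0 := K.r_pos
  have hr1 := K.r_lt
  have hr1' := K.r_lt_one
  have hrg := K.r_gt
  have hXX : XX ≤ 2 := by
    unfold XX
    norm_num
  have hXX0 := XX_pos
  -- the finite part
  have h1 := RWord.sound K W hchk hx.1
  have h2 : W.rhs K x ≤ (W.total : ℝ) / 2 ^ 40 * (1 + tA W.m) :=
    rhs_le_aux K hx (by rw [hm]) (by rw [hm]; norm_num) W.cols W.nu hcols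
  have h3 := val_aux W.total W.m
  have h4 : ‖∑ j ∈ Finset.range W.m, ((W.f.getD j 0 : ℝ) / 2 ^ 40 : ℝ) * x j‖ ^ 2 ≤
      (XX - 16 / 100000) ^ 2 := by
    refine le_trans ?_ hval
    refine (h1.trans (add_le_add_left h2 _)).trans h3
  have h5 : ‖∑ j ∈ Finset.range W.m, ((W.f.getD j 0 : ℝ) / 2 ^ 40 : ℝ) * x j‖ ≤
      XX - 16 / 100000 := by
    refine (sq_le_sq₀ (norm_nonneg _) ?_).mp h4
    unfold XX
    norm_num
  rw [hm] at h5
  -- the coefficients
  have hco : ∀ j ∈ Finset.range 16,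
      ‖(K.r : ℂ) ^ (j + 1) * x j - ((W.f.getD j 0 : ℝ) / 2 ^ 40 : ℝ) * x j‖ ≤ 1 / 10 ^ 11 := by
    intro j hj
    have hj' := Finset.mem_range.mp hj
    have h6 := hf j hj'
    have h7 : |(W.f.getD j 0 : ℝ) / 2 ^ 40 - rHat ^ (j + 1)| ≤ 2 / 2 ^ 40 := by
      have h8 : |((W.f.getD j 0 : ℝ)) * 10 ^ (26 * (j + 1)) -
          56122876296288214325405844 ^ (j + 1) * 2 ^ 40| ≤ 2 * 10 ^ (26 * (j + 1)) := by
        have h9 : ((W.f.getD j 0 * 10 ^ (26 * (j + 1)) -
            56122876296288214325405844 ^ (j + 1) * 2 ^ 40).natAbs : ℤ) ≤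
            ((2 * 10 ^ (26 * (j + 1)) : ℕ) : ℤ) := by exact_mod_cast h6
        rw [Int.natCast_natAbs] at h9
        have h10 : ((|W.f.getD j 0 * 10 ^ (26 * (j + 1)) -
            56122876296288214325405844 ^ (j + 1) * 2 ^ 40| : ℤ) : ℝ) ≤
            ((2 * 10 ^ (26 * (j + 1)) : ℕ) : ℝ) := by exact_mod_cast h9
        push_cast at h10
        rw [show (2 : ℝ) ^ 40 = 1099511627776 by norm_num]
        exact h10
      have h11 : (W.f.getD j 0 : ℝ) / 2 ^ 40 - rHat ^ (j + 1) =
          (((W.f.getD j 0 : ℝ)) * 10 ^ (26 * (j + 1)) -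
          56122876296288214325405844 ^ (j + 1) * 2 ^ 40) / (2 ^ 40 * 10 ^ (26 * (j + 1))) := by
        have h12 : rHat ^ (j + 1) = 56122876296288214325405844 ^ (j + 1) / 10 ^ (26 * (j + 1)) := by
          rw [pow_mul, ← div_pow]
          congr 1
          unfold rHat
          norm_num
        rw [h12]
        field_simp
      rw [h11, abs_div, abs_of_pos (by positivity : (0 : ℝ) < 2 ^ 40 * 10 ^ (26 * (j + 1))),
        div_le_div_iff₀ (by positivity) (by positivity)]
      calc _ ≤ 2 * 10 ^ (26 * (j + 1)) * (2 ^ 40 : ℝ) :=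
            mul_le_mul_of_nonneg_right h8 (by positivity)
        _ = _ := by ring
    have h13 : |K.r ^ (j + 1) - rHat ^ (j + 1)| ≤ 1 / 10 ^ 16 := by
      have h14 := abs_pow_sub_pow_le hr0.le hr1'.le (b := rHat) (by unfold rHat; norm_num)
        (by unfold rHat; norm_num) (j + 1)
      have h15 := K.hre
      have h16 : ((j + 1 : ℕ) : ℝ) ≤ 16 := by exact_mod_cast hj'
      calc |K.r ^ (j + 1) - rHat ^ (j + 1)| ≤ ((j + 1 : ℕ) : ℝ) * |K.r - rHat| := h14
        _ ≤ 16 * 1e-18 := mul_le_mul h16 h15 (abs_nonneg _) (by norm_num)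
        _ ≤ 1 / 10 ^ 16 := by norm_num
    have h17 : (K.r : ℂ) ^ (j + 1) * x j - ((W.f.getD j 0 : ℝ) / 2 ^ 40 : ℝ) * x j =
        ((K.r ^ (j + 1) - (W.f.getD j 0 : ℝ) / 2 ^ 40 : ℝ) : ℂ) * x j := by
      push_cast
      ring
    rw [h17, norm_mul, Complex.norm_real, Real.norm_eq_abs]
    have h18 : |K.r ^ (j + 1) - (W.f.getD j 0 : ℝ) / 2 ^ 40| ≤ 1 / 10 ^ 16 + 2 / 2 ^ 40 := by
      have h19 : K.r ^ (j + 1) - (W.f.getD j 0 : ℝ) / 2 ^ 40 =
          (K.r ^ (j + 1) - rHat ^ (j + 1)) -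
            ((W.f.getD j 0 : ℝ) / 2 ^ 40 - rHat ^ (j + 1)) := by ring
      rw [h19]
      exact (abs_sub _ _).trans (add_le_add h13 h7)
    calc |K.r ^ (j + 1) - (W.f.getD j 0 : ℝ) / 2 ^ 40| * ‖x j‖
        ≤ (1 / 10 ^ 16 + 2 / 2 ^ 40) * 2 :=
          mul_le_mul h18 ((hx.1 j).trans hXX) (norm_nonneg _) (by positivity)
      _ ≤ 1 / 10 ^ 11 := by norm_num
  have hfin : ‖∑ j ∈ Finset.range 16, (K.r : ℂ) ^ (j + 1) * x j‖ ≤
      XX - 16 / 100000 + 1 / 10 ^ 9 := by
    have e : ∑ j ∈ Finset.range 16, (K.r : ℂ) ^ (j + 1) * x j =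
        ∑ j ∈ Finset.range 16, ((W.f.getD j 0 : ℝ) / 2 ^ 40 : ℝ) * x j +
        ∑ j ∈ Finset.range 16,
          ((K.r : ℂ) ^ (j + 1) * x j - ((W.f.getD j 0 : ℝ) / 2 ^ 40 : ℝ) * x j) := by
      rw [← Finset.sum_add_distrib]
      refine Finset.sum_congr rfl fun j _ => ?_
      ring
    rw [e]
    refine (norm_add_le _ _).trans (add_le_add h5 ?_)
    refine (norm_sum_le _ _).trans ((Finset.sum_le_sum hco).trans ?_)
    rw [Finset.sum_const, Finset.card_range, nsmul_eq_mul]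
    norm_num
  -- the tail
  have hsum : Summable fun j : ℕ => (K.r : ℂ) ^ (j + 1) * x j := K.summable_r ⟨XX, hx.1⟩
  have htail : ‖∑' j : ℕ, (K.r : ℂ) ^ (j + 16 + 1) * x (j + 16)‖ ≤ 15 / 100000 := by
    have h20 : HasSum (fun j : ℕ => K.r ^ 17 * XX * K.r ^ j) (K.r ^ 17 * XX * (1 - K.r)⁻¹) :=
      (hasSum_geometric_of_lt_one hr0.le hr1').mul_left _
    refine (tsum_of_norm_bounded h20 fun j => ?_).trans ?_
    · rw [norm_mul, norm_pow, Complex.norm_real, Real.norm_of_nonneg hr0.le]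
      calc K.r ^ (j + 16 + 1) * ‖x (j + 16)‖ ≤ K.r ^ (j + 16 + 1) * XX :=
            mul_le_mul_of_nonneg_left (hx.1 _) (by positivity)
        _ = K.r ^ 17 * XX * K.r ^ j := by ring
    · have h21 : K.r ^ 17 ≤ (0.5613 : ℝ) ^ 17 := pow_le_pow_left₀ hr0.le hr1.le 17
      have h22 : (1 - K.r)⁻¹ ≤ (1 - 0.5613 : ℝ)⁻¹ :=
        inv_anti₀ (by norm_num) (by linarith)
      have h23 : XX ≤ 1.15 := by
        unfold XX
        norm_num
      have h24 : 0 ≤ (1 - K.r)⁻¹ := inv_nonneg.mpr (by linarith)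
      calc K.r ^ 17 * XX * (1 - K.r)⁻¹ ≤ (0.5613 : ℝ) ^ 17 * 1.15 * (1 - 0.5613 : ℝ)⁻¹ :=
            mul_le_mul (mul_le_mul h21 h23 hXX0.le (by positivity)) h22 h24 (by positivity)
        _ ≤ 15 / 100000 := by norm_num
  rw [← hsum.sum_add_tsum_nat_add 16]
  refine (norm_add_le _ _).trans ?_
  have h25 := add_le_add hfin htail
  refine h25.trans ?_
  norm_num
  linarith

theorem boundedControls_crit : BoundedControls K.r := by
  refine boundedControls_of_main (ι := Fin 5) (X := XX) (q := K.q) ?_ ?_ ?_ K.hq K.N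
    K.N_nonneg K.N_bdd ?_ ?_ ?_ ?_
  · linarith [K.r_gt]
  · linarith [K.r_lt]
  · unfold XX; norm_num
  · exact fun b c x hx => K.N_scale b c x hx
  · intro b x hx
    obtain ⟨α, β, h⟩ := K.N_quad b x hx
    exact ⟨α, K.gam b, β, K.gam_nonneg b, h⟩
  · intro x hx b ζ hζ
    by_cases hb : b = 0
    · subst hb; exact main_node_zero K hx hζ
    · exact main_node K hb hx hζ
  · exact fun x hx => main_coord K hx

/-- the critical point is a zero of `ψ` -/
theorem psi_crit : psi ((K.r : ℂ) / K.ω) K.q⁻¹ = 0 := by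
  have hω := K.om_ne_zero
  have hq := K.q_ne_zero
  have hterm : ∀ j : ℕ, (K.q⁻¹) ^ ((j + 1) * (j + 1 - 1) / 2) * ((K.r : ℂ) / K.ω) ^ (j + 1) =
      K.ω⁻¹ * ((K.r : ℂ) ^ (j + 1) * xst K.q K.ω j) := by
    intro j
    unfold xst
    have e : (j + 1) * (j + 1 - 1) / 2 = j * (j + 1) / 2 := by
      rw [Nat.add_sub_cancel, mul_comm]
    rw [e, div_pow, inv_pow, pow_succ K.ω]
    field_simp
  have hnorm : ∀ j : ℕ, ‖(K.q⁻¹) ^ (j * (j - 1) / 2) * ((K.r : ℂ) / K.ω) ^ j‖ ≤ K.r ^ j := by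
    intro j
    rw [norm_mul, norm_pow, norm_pow, norm_inv, K.hq, inv_one, one_pow, one_mul, norm_div, K.hω,
      div_one, Complex.norm_real, Real.norm_of_nonneg K.r_pos.le]
  have hs : Summable fun j : ℕ => (K.q⁻¹) ^ (j * (j - 1) / 2) * ((K.r : ℂ) / K.ω) ^ j :=
    Summable.of_norm_bounded (summable_geometric_of_lt_one K.r_pos.le K.r_lt_one) hnorm
  unfold psi
  rw [hs.tsum_eq_zero_add]
  simp only [hterm]
  rw [tsum_mul_left, K.eig]
  simp [hω]

/-- the supremum of `1/|z|` over the zeros of `ψ(·, q)`, `|q| ≤ 1`, in the unit disc -/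
noncomputable def waldvogel : ENNReal :=
  ⨆ (q : ℂ) (_ : ‖q‖ ≤ 1) (z : ℂ) (_ : ‖z‖ < 1) (_ : psi z q = 0), ENNReal.ofReal (1 / ‖z‖)

theorem norm_crit_zero : ‖(K.r : ℂ) / K.ω‖ = K.r := by
  rw [norm_div, K.hω, div_one, Complex.norm_real, Real.norm_of_nonneg K.r_pos.le]

theorem constant_eq : powerSeriesConstant = ENNReal.ofReal (1 / K.r) := by
  refine le_antisymm (upper_of_boundedControls K.r_pos K.r_lt_one (boundedControls_crit K)) ?_
  have h := lower_of_zero (q := K.q⁻¹) (z := (K.r : ℂ) / K.ω)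
    (by rw [norm_inv, K.hq, inv_one]) (by rw [norm_crit_zero]; exact K.r_lt_one) (psi_crit K)
  rwa [norm_crit_zero] at h

theorem waldvogel_eq : waldvogel = ENNReal.ofReal (1 / K.r) := by
  have hr0 := K.r_pos
  -- no zeros for `|q| = 1`
  have hcirc : ∀ q z : ℂ, ‖q‖ = 1 → ‖z‖ < K.r → psi z q ≠ 0 := by
    intro q z hq hz h0
    have h1 := lower_of_zero hq (hz.trans K.r_lt_one) h0
    rw [constant_eq K] at h1
    have hz0 : z ≠ 0 := by
      intro hz0
      rw [hz0, psi_zero] at h0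
      exact one_ne_zero h0
    have hzpos : 0 < ‖z‖ := norm_pos_iff.mpr hz0
    have h2 : 1 / ‖z‖ ≤ 1 / K.r := (ENNReal.ofReal_le_ofReal_iff (by positivity)).mp h1
    have h3 : K.r ≤ ‖z‖ := by
      rw [div_le_div_iff₀ hzpos hr0] at h2
      linarith
    linarith
  have hdisc := psi_ne_zero_of_circle K.r_lt_one.le hcirc
  refine le_antisymm ?_ ?_
  · refine iSup_le fun q => iSup_le fun hq => iSup_le fun z => iSup_le fun _ => iSup_le fun h0 => ?_
    refine ENNReal.ofReal_le_ofReal ?_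
    have h1 : K.r ≤ ‖z‖ := by
      by_contra hcon
      exact hdisc q z hq (not_le.mp hcon) h0
    exact one_div_le_one_div_of_le hr0 h1
  · have h1 : ENNReal.ofReal (1 / ‖(K.r : ℂ) / K.ω‖) ≤ waldvogel := by
      unfold waldvogel
      refine le_iSup_of_le K.q⁻¹ (le_iSup_of_le (by rw [norm_inv, K.hq, inv_one])
        (le_iSup_of_le ((K.r : ℂ) / K.ω) (le_iSup_of_le
          (by rw [norm_crit_zero]; exact K.r_lt_one) (le_iSup_of_le (psi_crit K) le_rfl))))
    rwa [norm_crit_zero] at h1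

theorem main_result : powerSeriesConstant = waldvogel ∧
    ENNReal.ofReal 1.7818046151 < powerSeriesConstant ∧
    powerSeriesConstant < ENNReal.ofReal 1.7818046152 := by
  obtain ⟨K⟩ := exists_crit
  have hr := K.hre
  rw [abs_le] at hr
  have hr0 := K.r_pos
  refine ⟨?_, ?_, ?_⟩
  · rw [constant_eq K, waldvogel_eq K]
  · rw [constant_eq K, ENNReal.ofReal_lt_ofReal_iff (by positivity), lt_div_iff₀ hr0]
    have h2 := hr.2
    unfold rHat at h2
    norm_num at h2 ⊢
    linarith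
  · rw [constant_eq K, ENNReal.ofReal_lt_ofReal_iff (by norm_num), div_lt_iff₀ hr0]
    have h1 := hr.1
    unfold rHat at h1
    norm_num at h1 ⊢
    linarith

end Pool.Agent.H93
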