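import Pool.Agent.Lib.H93.Quad

/-!
MP_fb0703_an, chunk E: the truncated forms as quadratic forms with explicit Gram matrices.
-/

namespace Pool.Agent.H93

open Filter Topology ComplexConjugate

namespace Crit

variable (K : Crit)

theorem tsum_trunc (m : ℕ) (c x : ℕ → ℂ) :
    ∑' j, c j * trunc m x j = ∑ j ∈ Finset.range m, c j * x j := by
  rw [tsum_eq_sum (s := Finset.range m)]
  · refine Finset.sum_congr rfl fun j hj => ?_
    rw [trunc, if_pos (Finset.mem_range.mp hj)]
  · intro j hj
    rw [trunc, if_neg (fun h => hj (Finset.mem_range.mpr h)), mul_zero]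

/-- shifted sums against a truncated sequence -/
theorem sum_trunc_shift (m : ℕ) (c x : ℕ → ℂ) :
    ∑ i ∈ Finset.range 15, c i * trunc m x (i + 1) =
      ∑ j ∈ Finset.range m, (if 1 ≤ j ∧ j < 16 then c (j - 1) else 0) * x j := by
  have h1 : ∑ j ∈ Finset.range m, (if 1 ≤ j ∧ j < 16 then c (j - 1) else 0) * x j =
      ∑' j, (if 1 ≤ j ∧ j < 16 then c (j - 1) else 0) * trunc m x j := (tsum_trunc m _ x).symm
  rw [h1, tsum_eq_sum (s := Finset.range 16)]
  · rw [Finset.sum_range_succ' _ 15, if_neg (by omega), zero_mul, add_zero]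
    refine Finset.sum_congr rfl fun i hi => ?_
    have := Finset.mem_range.mp hi
    rw [if_pos ⟨by omega, by omega⟩, Nat.add_sub_cancel]
  · intro j hj
    have : ¬ (1 ≤ j ∧ j < 16) := fun h => hj (Finset.mem_range.mpr h.2)
    rw [if_neg this, zero_mul]

theorem sum_trunc (m : ℕ) (c x : ℕ → ℂ) :
    ∑ i ∈ Finset.range 16, c i * trunc m x i =
      ∑ j ∈ Finset.range m, (if j < 16 then c j else 0) * x j := by
  have h1 : ∑ j ∈ Finset.range m, (if j < 16 then c j else 0) * x j =
      ∑' j, (if j < 16 then c j else 0) * trunc m x j := (tsum_trunc m _ x).symm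
  rw [h1, tsum_eq_sum (s := Finset.range 16)]
  · refine Finset.sum_congr rfl fun i hi => ?_
    rw [if_pos (Finset.mem_range.mp hi)]
  · intro j hj
    rw [if_neg (fun h => hj (Finset.mem_range.mpr h)), zero_mul]

theorem s_trunc (m : ℕ) (x : ℕ → ℂ) :
    K.s (trunc m x) = ∑ j ∈ Finset.range m, K.cc j * x j := tsum_trunc m K.cc x

/-- (Q6) -/
theorem lam_trunc (b m : ℕ) (x : ℕ → ℂ) (k : ℕ) :
    K.lam b (trunc m x) k = ∑ j ∈ Finset.range m, K.lamc b k j * x j := by
  unfold lam lamc
  by_cases hb : b = 0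
  · simp only [if_pos hb]
    by_cases hk : k = 0
    · simp only [if_pos hk]
      exact K.s_trunc m x
    · simp only [if_neg hk]
      by_cases hk16 : k < 16
      · simp only [if_pos hk16]
        have h1 : ∑ i ∈ Finset.range 15, LR (k - 1) i * K.y (trunc m x) (i + 1) =
            ∑ i ∈ Finset.range 15, LR (k - 1) i * trunc m x (i + 1) -
              (∑ i ∈ Finset.range 15, LR (k - 1) i * K.xs (i + 1)) * K.s (trunc m x) := by
          rw [Finset.sum_mul, ← Finset.sum_sub_distrib]
          refine Finset.sum_congr rfl fun i _ => ?_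
          rw [y]; ring
        rw [h1, sum_trunc_shift, K.s_trunc, Finset.mul_sum, ← Finset.sum_sub_distrib]
        refine Finset.sum_congr rfl fun j _ => ?_
        ring
      · simp only [if_neg hk16]
        have h2 : trunc m x k = ∑ j ∈ Finset.range m, (if j = k then 1 else 0) * x j := by
          rw [trunc]
          by_cases hkm : k < m
          · rw [if_pos hkm, Finset.sum_eq_single k]
            · simp
            · intro j _ hj
              rw [if_neg hj, zero_mul]
            · intro h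
              exact absurd (Finset.mem_range.mpr hkm) h
          · rw [if_neg hkm]
            symm
            refine Finset.sum_eq_zero fun j hj => ?_
            have := Finset.mem_range.mp hj
            rw [if_neg (by omega), zero_mul]
        rw [y, h2, K.s_trunc, Finset.sum_mul, ← Finset.sum_sub_distrib, Finset.mul_sum]
        refine Finset.sum_congr rfl fun j _ => ?_
        ring
  · simp only [if_neg hb]
    by_cases hk16 : k < 16
    · rw [if_pos hk16, sum_trunc m (fun i => LB b k i) x]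
      refine Finset.sum_congr rfl fun j _ => ?_
      simp only [hk16, true_and]
    · rw [if_neg hk16]
      symm
      refine Finset.sum_eq_zero fun j _ => ?_
      rw [if_neg (fun h => hk16 h.1), zero_mul]

theorem NT_eq (b m : ℕ) (x : ℕ → ℂ) :
    K.NT b m x = ∑ k ∈ Finset.range 40, ‖∑ j ∈ Finset.range m, K.lamc b k j * x j‖ ^ 2 := by
  unfold NT
  exact Finset.sum_congr rfl fun k _ => by rw [K.lam_trunc]

theorem conj_pow_mul {u : ℂ} (hu : ‖u‖ = 1) {i d : ℕ} (hd : d ≤ i) :
    conj (u ^ i) * u ^ (i - d) = (conj u) ^ d := by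
  have h1 : conj u * u = 1 := by
    rw [Complex.conj_mul', hu]; norm_num
  obtain ⟨e, rfl⟩ := Nat.exists_eq_add_of_le hd
  rw [Nat.add_sub_cancel_left, map_pow, pow_add, mul_assoc, ← mul_pow, h1, one_pow, mul_one]

/-- (Q7) -/
theorem NT_act (c : Col) (hu : c.u ≠ (0, 0)) (m : ℕ) (x : ℕ → ℂ) :
    K.NT c.nd m (c.act x) = qf m (K.CM c) x := by
  have hn := norm_unitQ hu
  set u := unitQ c.u with hudef
  rw [K.NT_eq]
  by_cases hc : c.cj = true
  · have h1 : ∀ k, ‖∑ j ∈ Finset.range m, K.lamc c.nd k j * c.act x j‖ ^ 2 =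
        ‖∑ j ∈ Finset.range m, (conj (K.lamc c.nd k j) * conj (u ^ j)) * x j‖ ^ 2 := by
      intro k
      have : ∑ j ∈ Finset.range m, K.lamc c.nd k j * c.act x j =
          conj (∑ j ∈ Finset.range m, (conj (K.lamc c.nd k j) * conj (u ^ j)) * x j) := by
        rw [map_sum]
        refine Finset.sum_congr rfl fun j _ => ?_
        simp only [Col.act, hc, if_true, rot, cjs, map_mul, Complex.conj_conj]
        ring
      rw [this, Complex.norm_conj]
    rw [Finset.sum_congr rfl fun k _ => h1 k, ← qf_gram]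
    refine qf_congr x fun i _ d hd => ?_
    rw [CM, if_pos hc, GM, map_sum, Finset.mul_sum]
    refine Finset.sum_congr rfl fun k _ => ?_
    have h2 : u ^ i * conj (u ^ (i - d)) = u ^ d := by
      have := congrArg conj (conj_pow_mul hn hd)
      rw [map_mul, Complex.conj_conj, map_pow _ (conj u) d, Complex.conj_conj] at this
      exact this
    simp only [map_mul, Complex.conj_conj]
    rw [← h2]
    ring
  · have h1 : ∀ k, ‖∑ j ∈ Finset.range m, K.lamc c.nd k j * c.act x j‖ ^ 2 =
        ‖∑ j ∈ Finset.range m, (K.lamc c.nd k j * u ^ j) * x j‖ ^ 2 := by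
      intro k
      congr 2
      refine Finset.sum_congr rfl fun j _ => ?_
      simp only [Col.act, hc, rot]
      simp
      ring
    rw [Finset.sum_congr rfl fun k _ => h1 k, ← qf_gram]
    refine qf_congr x fun i _ d hd => ?_
    rw [CM, if_neg hc, GM, Finset.mul_sum]
    refine Finset.sum_congr rfl fun k _ => ?_
    rw [← conj_pow_mul hn hd, map_mul]
    ring

/-- entries of `A ζ x` for truncated `x` -/
theorem A_trunc_zero (ζ : ℂ) (m : ℕ) (x : ℕ → ℂ) :
    K.A ζ (trunc m x) 0 = ∑ j ∈ Finset.range m, K.al ζ j * x j := by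
  have : K.A ζ (trunc m x) 0 = -∑' j : ℕ, ((K.r : ℂ) * ζ) ^ (j + 1) * trunc m x j := by
    simp [A, stepA, rot, stepG, top]
  rw [this, tsum_trunc m (fun j => ((K.r : ℂ) * ζ) ^ (j + 1)) x, ← Finset.sum_neg_distrib]
  refine Finset.sum_congr rfl fun j _ => ?_
  rw [al]; ring

/-- coefficients of `lam b (trunc m (A ζ (trunc m x))) k` -/
noncomputable def ac (b m : ℕ) (ζ : ℂ) (k j : ℕ) : ℂ :=
  K.lamc b k 0 * K.al ζ j + if j + 1 < m then K.lamc b k (j + 1) * (K.q ^ (j + 1))⁻¹ else 0

theorem sum_A (b : ℕ) {m : ℕ} (hm : 0 < m) (ζ : ℂ) (x : ℕ → ℂ) (k : ℕ) :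
    ∑ j ∈ Finset.range m, K.lamc b k j * K.A ζ (trunc m x) j =
      ∑ j ∈ Finset.range m, K.ac b m ζ k j * x j := by
  obtain ⟨n, rfl⟩ : ∃ n, m = n + 1 := ⟨m - 1, by omega⟩
  have h1 : ∑ j ∈ Finset.range (n + 1), K.ac b (n + 1) ζ k j * x j =
      K.lamc b k 0 * (∑ j ∈ Finset.range (n + 1), K.al ζ j * x j) +
        ∑ j ∈ Finset.range n, K.lamc b k (j + 1) * (K.q ^ (j + 1))⁻¹ * x j := by
    rw [Finset.mul_sum]
    have h2 : ∑ j ∈ Finset.range n, K.lamc b k (j + 1) * (K.q ^ (j + 1))⁻¹ * x j =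
        ∑ j ∈ Finset.range (n + 1),
          (if j + 1 < n + 1 then K.lamc b k (j + 1) * (K.q ^ (j + 1))⁻¹ else 0) * x j := by
      rw [Finset.sum_range_succ, if_neg (by omega), zero_mul, add_zero]
      refine Finset.sum_congr rfl fun j hj => ?_
      have := Finset.mem_range.mp hj
      rw [if_pos (by omega)]
    rw [h2, ← Finset.sum_add_distrib]
    refine Finset.sum_congr rfl fun j _ => ?_
    rw [ac]; ring
  rw [h1, Finset.sum_range_succ', ← K.A_trunc_zero, add_comm]
  congr 1
  refine Finset.sum_congr rfl fun j hj => ?_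
  have := Finset.mem_range.mp hj
  rw [K.A_succ, trunc, if_pos (by omega)]
  ring

theorem conj_GM (b i : ℕ) :
    conj (K.GM b i i) = ∑ k ∈ Finset.range 40, conj (K.lamc b k 0) * K.lamc b k i := by
  rw [GM, map_sum]
  refine Finset.sum_congr rfl fun k _ => ?_
  rw [Nat.sub_self, map_mul, Complex.conj_conj]
  ring

/-- (Q8) -/
theorem NT_A (b : ℕ) {m : ℕ} (hm : 0 < m) {ζ : ℂ} (_hζ : ‖ζ‖ = 1) (x : ℕ → ℂ) :
    K.NT b m (K.A ζ (trunc m x)) = qf m (K.AM b m ζ) x := by
  rw [K.NT_eq]
  simp only [K.sum_A b hm ζ x]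
  rw [← qf_gram]
  refine qf_congr x fun i hi d hd => ?_
  have hvv : ∀ j, K.vv b m j = ∑ k ∈ Finset.range 40, conj (K.lamc b k 0) *
      (if j + 1 < m then K.lamc b k (j + 1) * (K.q ^ (j + 1))⁻¹ else 0) := by
    intro j
    rw [vv]
    split_ifs with h
    · rw [K.conj_GM, Finset.sum_mul]
      exact Finset.sum_congr rfl fun k _ => by ring
    · simp
  have hvvc : conj (K.vv b m i) = ∑ k ∈ Finset.range 40, K.lamc b k 0 *
      conj (if i + 1 < m then K.lamc b k (i + 1) * (K.q ^ (i + 1))⁻¹ else 0) := by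
    rw [hvv, map_sum]
    refine Finset.sum_congr rfl fun k _ => ?_
    rw [map_mul, Complex.conj_conj]
  have hG0 : K.GM b 0 0 = ∑ k ∈ Finset.range 40, conj (K.lamc b k 0) * K.lamc b k 0 := rfl
  have hG1 : (if i + 1 < m then K.q ^ d * K.GM b (i + 1) d else 0) =
      ∑ k ∈ Finset.range 40,
        conj (if i + 1 < m then K.lamc b k (i + 1) * (K.q ^ (i + 1))⁻¹ else 0) *
        (if i - d + 1 < m then K.lamc b k (i - d + 1) * (K.q ^ (i - d + 1))⁻¹ else 0) := by
    split_ifs with h1 h2
    · rw [GM, Finset.mul_sum]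
      refine Finset.sum_congr rfl fun k _ => ?_
      have e1 : i + 1 - d = i - d + 1 := by omega
      have e2 : K.q ^ d = conj ((K.q ^ (i + 1))⁻¹) * (K.q ^ (i - d + 1))⁻¹ := by
        have hq0 := K.q_ne_zero
        have hqc : conj K.q = K.q⁻¹ := (Complex.inv_eq_conj K.hq).symm
        rw [map_inv₀, map_pow, hqc, inv_pow, inv_inv]
        have e3 : i + 1 = d + (i - d + 1) := by omega
        have e4 : K.q ^ (i + 1) = K.q ^ d * K.q ^ (i - d + 1) := by rw [← pow_add, ← e3]
        rw [e4, mul_assoc, mul_inv_cancel₀ (pow_ne_zero _ hq0), mul_one]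
      rw [e1, e2, map_mul]
      ring
    · exact absurd (show i - d + 1 < m by omega) h2
    · simp
    · simp
  rw [AM, hG1, hvvc, hG0, hvv, Finset.sum_mul, ← Finset.sum_add_distrib, Finset.mul_sum,
    Finset.sum_mul, ← Finset.sum_add_distrib, ← Finset.sum_add_distrib]
  refine Finset.sum_congr rfl fun k _ => ?_
  rw [ac, ac, map_add, map_mul]
  ring

end Crit

end Pool.Agent.H93
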