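import Pool.Agent.Lib.H93.TabNum

/-!
Chunk T, part 2: the kernel loop for the tables.
-/

namespace Pool.Agent.H93

open Filter Topology ComplexConjugate

namespace Crit

/-- state: `q^-j`, `r^j`, `x*_j`, `τ_j` at scale `10^40` -/
structure TS where
  qr : ℤ
  qi : ℤ
  rr : ℤ
  xr : ℤ
  xi : ℤ
  tr : ℤ
  ti : ℤ

/-- real part of `q⁻¹` -/
def cPr : ℤ := -7203653525164264230467330400000000000000
/-- imaginary part of `q⁻¹` -/
def cPi : ℤ := -6935948088717826409486165400000000000000
/-- real part of `ω⁻¹` -/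
def cOr : ℤ := -9921849316767809979589071900000000000000
/-- imaginary part of `ω⁻¹` -/
def cOi : ℤ := 1247760447904221037543931100000000000000
/-- `r` -/
def cR : ℤ := 5612287629628821432540584400000000000000

/-- real part of a rounded product -/
def mre (a b c d : ℤ) : ℤ := (a * c - b * d) / BB
/-- imaginary part of a rounded product -/
def mim (a b c d : ℤ) : ℤ := (a * d + b * c) / BB

/-- one step (`q'`, `r'`, `x q'` are shared) -/
def stepT (s : TS) : TS :=
  fI (mre s.qr s.qi cPr cPi) fun qr => fI (mim s.qr s.qi cPr cPi) fun qi =>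
  fI (mre s.rr 0 cR 0) fun rr =>
  fI (mre s.xr s.xi qr qi) fun yr => fI (mim s.xr s.xi qr qi) fun yi =>
  fI (mre yr yi cOr cOi) fun xr => fI (mim yr yi cOr cOi) fun xi =>
  fI (s.tr - mre rr 0 s.xr s.xi) fun tr => fI (s.ti - mim rr 0 s.xr s.xi) fun ti =>
    ⟨qr, qi, rr, xr, xi, tr, ti⟩

/-- initial state -/
def iniT : TS := ⟨BB, 0, BB, BB, 0, -cOr, cOi⟩

/-- all states -/
def stT : ℕ → TS
  | 0 => iniT
  | n + 1 => stepT (stT n)

/-- comparison of the scales `10^40` and `2^60`, tolerance `10^-18` -/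
def near (a t : ℤ) : Bool :=
  Nat.ble (a * 1152921504606846976 - t * 10000000000000000000000000000000000000000).natAbs
    11529215046068469760000000000000000000000

/-- the check of `c_j` : `c g ≈ τ conj x`, tolerance `2 10^-18` -/
def nearC (c : ℤ × ℤ) (gr gi : ℤ) (s : TS) : Bool :=
  Nat.ble ((c.1 * gr - c.2 * gi) * 10000000000000000000000000000000000000000 -
      (s.tr * s.xr + s.ti * s.xi) * 1152921504606846976).natAbs
    230584300921369395200000000000000000000000000000000000000000000000000000000000000 &&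
  Nat.ble ((c.1 * gi + c.2 * gr) * 10000000000000000000000000000000000000000 -
      (s.ti * s.xr - s.tr * s.xi) * 1152921504606846976).natAbs
    230584300921369395200000000000000000000000000000000000000000000000000000000000000 &&
  Nat.ble c.1.natAbs 922337203685477580 && Nat.ble c.2.natAbs 172938225691027046

/-- check of one row -/
def chkRow (tq : List (ℤ × ℤ)) (tR : List ℤ) (tx tc : List (ℤ × ℤ)) (gr gi : ℤ) (j : ℕ)
    (s : TS) : Bool :=
  near s.qr (tq.getD j 0).1 && near s.qi (tq.getD j 0).2 && near s.rr (tR.getD j 0) &&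
  (Nat.ble 41 j || (near s.xr (tx.getD j 0).1 && near s.xi (tx.getD j 0).2 &&
    nearC (tc.getD j 0) gr gi s))

/-- force a state -/
def fTS {α : Type} (s : TS) (k : TS → α) : α :=
  match s with
  | ⟨a, b, c, d, e, f, g⟩ =>
    fI a fun a => fI b fun b => fI c fun c => fI d fun d => fI e fun e => fI f fun f =>
      fI g fun g => k ⟨a, b, c, d, e, f, g⟩

theorem fTS_eq {α : Type} (s : TS) (k : TS → α) : fTS s k = k s := by
  cases s
  simp [fTS, fI_eq]

/-- check of `n` rows -/
def chkAll (tq : List (ℤ × ℤ)) (tR : List ℤ) (tx tc : List (ℤ × ℤ)) (gr gi : ℤ) :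
    ℕ → ℕ → TS → Bool
  | 0, _, _ => true
  | n + 1, j, s => chkRow tq tR tx tc gr gi j s &&
      fTS (stepT s) fun s' => chkAll tq tR tx tc gr gi n (j + 1) s'

theorem chkAll_spec {tq : List (ℤ × ℤ)} {tR : List ℤ} {tx tc : List (ℤ × ℤ)} {gr gi : ℤ} (n : ℕ) :
    ∀ j, chkAll tq tR tx tc gr gi n j (stT j) = true → ∀ i < n,
      chkRow tq tR tx tc gr gi (j + i) (stT (j + i)) = true := by
  induction n with
  | zero =>
    intro j _ i hi
    omega
  | succ n ih =>
    intro j h i hi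
    rw [chkAll, fTS_eq, Bool.and_eq_true] at h
    rcases Nat.eq_zero_or_pos i with rfl | hi0
    · exact h.1
    · have := ih (j + 1) h.2 (i - 1) (by omega)
      rwa [show j + 1 + (i - 1) = j + i by omega] at this

/-- error unit -/
noncomputable def DD : ℝ := 12 / 10 ^ 19

/-- invariant of the table loop -/
structure InvT (K : Crit) (j : ℕ) (s : TS) : Prop where
  q : ‖cv s.qr s.qi - (K.q⁻¹) ^ j‖ ≤ j * DD
  r : ‖cv s.rr 0 - (K.r : ℂ) ^ j‖ ≤ 3 * DD
  x : ‖cv s.xr s.xi - K.xs j‖ ≤ ((j : ℝ) + 1) ^ 2 * DD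
  t : ‖cv s.tr s.ti - K.tau j‖ ≤ 5 * ((j : ℝ) + 1) * DD

theorem mul_err' {a b c d : ℤ} {z w : ℂ} {e1 e2 m : ℝ} (h1 : ‖cv a b - z‖ ≤ e1)
    (h2 : ‖cv c d - w‖ ≤ e2) (hz : ‖z‖ ≤ m) :
    ‖cv (mre a b c d) (mim a b c d) - z * w‖ ≤ 2 / 10 ^ 40 + (e1 * ‖w‖ + m * e2 + e1 * e2) := by
  have h3 := mul_err a b c d
  have e : cv a b * cv c d - z * w = (cv a b - z) * w + z * (cv c d - w) +
      (cv a b - z) * (cv c d - w) := by ring
  have he1 : 0 ≤ e1 := (norm_nonneg _).trans h1
  have he2 : 0 ≤ e2 := (norm_nonneg _).trans h2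
  have hm0 : 0 ≤ m := (norm_nonneg _).trans hz
  have h4 : ‖cv a b * cv c d - z * w‖ ≤ e1 * ‖w‖ + m * e2 + e1 * e2 := by
    rw [e]
    refine norm_add₃_le.trans ?_
    rw [norm_mul, norm_mul, norm_mul]
    gcongr
  calc _ = ‖(cv (mre a b c d) (mim a b c d) - cv a b * cv c d) +
        (cv a b * cv c d - z * w)‖ := by rw [sub_add_sub_cancel]
    _ ≤ _ := (norm_add_le _ _).trans (add_le_add h3 h4)

theorem cvP : cv cPr cPi = conj qHat := by
  apply Complex.ext
  · simp only [cv, cPr, qHat, Complex.conj_re]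
    norm_num
  · simp only [cv, cPi, qHat, Complex.conj_im]
    norm_num

theorem cvO : cv cOr cOi = conj omHat := by
  apply Complex.ext
  · simp only [cv, cOr, omHat, Complex.conj_re]
    norm_num
  · simp only [cv, cOi, omHat, Complex.conj_im]
    norm_num

theorem cvR : cv cR 0 = (rHat : ℂ) := by
  apply Complex.ext
  · simp only [cv, cR, rHat, Complex.ofReal_re]
    norm_num
  · simp [cv]

theorem sq_pow_bound {r : ℝ} (h0 : 0 ≤ r) (h1 : r ≤ 0.5613) (k : ℕ) :
    ((k : ℝ) + 1) ^ 2 * r ^ (k + 1) ≤ 1.65 := by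
  have hr : r ^ (k + 1) ≤ 0.5613 ^ (k + 1) := pow_le_pow_left₀ h0 h1 _
  refine (mul_le_mul_of_nonneg_left hr (by positivity)).trans ?_
  clear hr
  rcases Nat.lt_or_ge k 4 with hk | hk
  · interval_cases k <;> norm_num
  · induction k, hk using Nat.le_induction with
    | base => norm_num
    | succ n hn ih =>
      have h1 : (4 : ℝ) ≤ n := by exact_mod_cast hn
      have h2 : ((n : ℝ) + 1 + 1) ^ 2 * 0.5613 ≤ ((n : ℝ) + 1) ^ 2 := by nlinarith
      push_cast
      calc ((n : ℝ) + 1 + 1) ^ 2 * 0.5613 ^ (n + 1 + 1)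
          = (((n : ℝ) + 1 + 1) ^ 2 * 0.5613) * 0.5613 ^ (n + 1) := by ring
        _ ≤ ((n : ℝ) + 1) ^ 2 * 0.5613 ^ (n + 1) := by gcongr
        _ ≤ _ := ih

theorem invT (K : Crit) (j : ℕ) (hj : j ≤ 100) : InvT K j (stT j) := by
  have hD : DD = 12 / 10 ^ 19 := rfl
  induction j with
  | zero =>
    have h1 : cv BB 0 = 1 := by
      apply Complex.ext
      · simp only [cv, BB, Complex.one_re]
        norm_num
      · simp [cv]
    constructor
    · simp [stT, iniT, h1]
    · simp only [stT, iniT, h1, pow_zero, sub_self, norm_zero]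
      rw [hD]
      positivity
    · simp only [stT, iniT, h1, K.xs_zero, sub_self, norm_zero]
      rw [hD]
      positivity
    · simp only [stT, iniT]
      have h2 : cv (-cOr) cOi = -omHat := by
        apply Complex.ext
        · simp only [cv, cOr, omHat, Complex.neg_re]
          norm_num
        · simp only [cv, cOi, omHat, Complex.neg_im]
          norm_num
      rw [h2, K.tau_zero, ← neg_sub', norm_neg, norm_sub_rev]
      refine K.hωe.trans ?_
      rw [hD]
      norm_num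
  | succ j ih =>
    have ih := ih (by omega)
    have hj' : (j : ℝ) ≤ 99 := by
      have : j ≤ 99 := by omega
      exact_mod_cast this
    have hj0 : (0 : ℝ) ≤ j := Nat.cast_nonneg j
    have hst : stT (j + 1) = ⟨mre (stT j).qr (stT j).qi cPr cPi, mim (stT j).qr (stT j).qi cPr cPi,
        mre (stT j).rr 0 cR 0,
        mre (mre (stT j).xr (stT j).xi (mre (stT j).qr (stT j).qi cPr cPi)
          (mim (stT j).qr (stT j).qi cPr cPi))
          (mim (stT j).xr (stT j).xi (mre (stT j).qr (stT j).qi cPr cPi)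
          (mim (stT j).qr (stT j).qi cPr cPi)) cOr cOi,
        mim (mre (stT j).xr (stT j).xi (mre (stT j).qr (stT j).qi cPr cPi)
          (mim (stT j).qr (stT j).qi cPr cPi))
          (mim (stT j).xr (stT j).xi (mre (stT j).qr (stT j).qi cPr cPi)
          (mim (stT j).qr (stT j).qi cPr cPi)) cOr cOi,
        (stT j).tr - mre (mre (stT j).rr 0 cR 0) 0 (stT j).xr (stT j).xi,
        (stT j).ti - mim (mre (stT j).rr 0 cR 0) 0 (stT j).xr (stT j).xi⟩ := by
      simp only [stT, stepT, fI_eq]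
    have hq1 : ‖(K.q⁻¹) ^ j‖ ≤ 1 := by
      rw [norm_pow, K.norm_p_eq, one_pow]
    have hPh : ‖cv cPr cPi - K.q⁻¹‖ ≤ 1 / 10 ^ 18 := by
      rw [cvP, norm_sub_rev]
      exact K.qinv_sub_hat
    have hOh : ‖cv cOr cOi - K.ω⁻¹‖ ≤ 1 / 10 ^ 18 := by
      rw [cvO, norm_sub_rev]
      exact K.oinv_sub_hat
    have hRh : ‖cv cR 0 - (K.r : ℂ)‖ ≤ 1 / 10 ^ 18 := by
      rw [cvR, ← Complex.ofReal_sub, Complex.norm_real, Real.norm_eq_abs, abs_sub_comm]
      exact K.r_sub_hat
    have hrle : K.r ^ j ≤ 1 := pow_le_one₀ K.r_pos.le K.r_lt_one.le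
    have hq : ‖cv (mre (stT j).qr (stT j).qi cPr cPi) (mim (stT j).qr (stT j).qi cPr cPi) -
        (K.q⁻¹) ^ (j + 1)‖ ≤ ((j : ℝ) + 1) * DD := by
      have h := mul_err' ih.q hPh hq1
      rw [← pow_succ, K.norm_p_eq] at h
      refine h.trans ?_
      rw [hD]
      nlinarith
    have hr : ‖cv (mre (stT j).rr 0 cR 0) 0 - (K.r : ℂ) ^ (j + 1)‖ ≤ 3 * DD := by
      have h0 : mim (stT j).rr 0 cR 0 = 0 := by simp [mim]
      have hm : ‖(K.r : ℂ) ^ j‖ ≤ 1 := by
        rw [norm_pow, Complex.norm_real, Real.norm_of_nonneg K.r_pos.le]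
        exact hrle
      have h := mul_err' ih.r hRh hm
      rw [← pow_succ, Complex.norm_real, Real.norm_of_nonneg K.r_pos.le, h0] at h
      refine h.trans ?_
      have := K.r_lt
      rw [hD]
      nlinarith
    refine ⟨?_, ?_, ?_, ?_⟩
    · rw [hst]
      push_cast
      exact hq
    · rw [hst]
      exact hr
    · rw [hst]
      simp only
      have hx1 : ‖K.xs j‖ ≤ 1 := (K.norm_xs j).le
      have h := mul_err' ih.x hq hx1
      have hn : ‖(K.q⁻¹) ^ (j + 1)‖ = 1 := by rw [norm_pow, K.norm_p_eq, one_pow]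
      rw [hn] at h
      have hm : ‖K.xs j * (K.q⁻¹) ^ (j + 1)‖ ≤ 1 := by
        rw [norm_mul, hn, K.norm_xs, mul_one]
      have h2 := mul_err' h hOh hm
      have hωn : ‖K.ω⁻¹‖ = 1 := by rw [norm_inv, K.hω, inv_one]
      rw [hωn] at h2
      have hxs : K.xs (j + 1) = K.xs j * (K.q⁻¹) ^ (j + 1) * K.ω⁻¹ := by
        rw [K.xs_succ, inv_pow]
      rw [hxs]
      refine h2.trans ?_
      rw [hD]
      push_cast
      have h9 : (((j : ℝ) + 1) ^ 2) ≤ 10000 := by nlinarith
      have h8 : ((j : ℝ) + 1) ≤ 100 := by linarith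
      have h7 : 0 ≤ ((j : ℝ) + 1) ^ 2 := by positivity
      have h10 : ((j : ℝ) + 1) ^ 2 * ((j : ℝ) + 1) ≤ 1000000 := by nlinarith
      nlinarith
    · rw [hst]
      simp only
      have hx1 : ‖(K.r : ℂ) ^ (j + 1)‖ ≤ K.r ^ (j + 1) := by
        rw [norm_pow, Complex.norm_real, Real.norm_of_nonneg K.r_pos.le]
      have h := mul_err' hr ih.x hx1
      rw [K.norm_xs, mul_one] at h
      rw [K.tau_succ]
      have hsub : cv ((stT j).tr - mre (mre (stT j).rr 0 cR 0) 0 (stT j).xr (stT j).xi)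
          ((stT j).ti - mim (mre (stT j).rr 0 cR 0) 0 (stT j).xr (stT j).xi) =
          cv (stT j).tr (stT j).ti - cv (mre (mre (stT j).rr 0 cR 0) 0 (stT j).xr (stT j).xi)
            (mim (mre (stT j).rr 0 cR 0) 0 (stT j).xr (stT j).xi) := by
        apply Complex.ext <;> simp [cv] <;> ring
      rw [hsub]
      have hb := sq_pow_bound K.r_pos.le K.r_lt.le j
      calc _ = ‖(cv (stT j).tr (stT j).ti - K.tau j) -
            (cv (mre (mre (stT j).rr 0 cR 0) 0 (stT j).xr (stT j).xi)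
            (mim (mre (stT j).rr 0 cR 0) 0 (stT j).xr (stT j).xi) -
            (K.r : ℂ) ^ (j + 1) * K.xs j)‖ := by
            congr 1
            ring
        _ ≤ _ := norm_sub_le _ _
        _ ≤ 5 * ((j : ℝ) + 1) * DD + (2 / 10 ^ 40 + (3 * DD + K.r ^ (j + 1) *
            (((j : ℝ) + 1) ^ 2 * DD) + 3 * DD * (((j : ℝ) + 1) ^ 2 * DD))) := add_le_add ih.t h
        _ ≤ 5 * ((j : ℝ) + 1) * DD + (2 / 10 ^ 40 + (3 * DD + 1.65 * DD +
            3 * DD * (10000 * DD))) := by
            have h9 : (((j : ℝ) + 1) ^ 2) ≤ 10000 := by nlinarith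
            have hD0 : 0 ≤ DD := by
              rw [hD]
              positivity
            have e1 : K.r ^ (j + 1) * (((j : ℝ) + 1) ^ 2 * DD) ≤ 1.65 * DD := by
              calc K.r ^ (j + 1) * (((j : ℝ) + 1) ^ 2 * DD) =
                    (((j : ℝ) + 1) ^ 2 * K.r ^ (j + 1)) * DD := by ring
                _ ≤ _ := by gcongr
            gcongr
        _ ≤ _ := by
            rw [hD]
            push_cast
            nlinarith

end Crit

end Pool.Agent.H93
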