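import Pool.Agent.Lib.H93.CritNum3
import Pool.Agent.Lib.H93.Exact

/-!
Chunk T, part 1: the critical data compared with the reference point; the kernel loop for the tables.
-/

namespace Pool.Agent.H93

open Filter Topology ComplexConjugate

namespace Crit

variable (K : Crit)

theorem norm_u_le : ‖(K.r : ℂ) * K.ω⁻¹‖ ≤ 57 / 100 := by
  rw [norm_mul, norm_inv, K.hω, inv_one, mul_one, Complex.norm_real,
    Real.norm_of_nonneg K.r_pos.le]
  linarith [K.r_lt]

theorem norm_p_eq : ‖K.q⁻¹‖ = 1 := by rw [norm_inv, K.hq, inv_one]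

theorem qinv_sub_hat : ‖K.q⁻¹ - conj qHat‖ ≤ 1 / 10 ^ 18 := by
  rw [Complex.inv_eq_conj K.hq, ← map_sub, RCLike.norm_conj]
  refine K.hqe.trans ?_
  norm_num

theorem oinv_sub_hat : ‖K.ω⁻¹ - conj omHat‖ ≤ 1 / 10 ^ 18 := by
  rw [Complex.inv_eq_conj K.hω, ← map_sub, RCLike.norm_conj]
  refine K.hωe.trans ?_
  norm_num

theorem r_sub_hat : |K.r - rHat| ≤ 1 / 10 ^ 18 := by
  refine K.hre.trans ?_
  norm_num

theorem p_sub_p1 : ‖K.q⁻¹ - p1‖ ≤ 11 / 10 ^ 19 := by
  have h1 : ‖conj qHat - p1‖ ≤ 1 / 10 ^ 20 := by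
    rw [p1_eq]
    refine (Complex.norm_le_abs_re_add_abs_im _).trans ?_
    simp only [qHat, Complex.sub_re, Complex.sub_im, Complex.conj_re, Complex.conj_im]
    norm_num [abs_le, abs_of_nonneg, abs_of_nonpos]
  calc _ = ‖(K.q⁻¹ - conj qHat) + (conj qHat - p1)‖ := by rw [sub_add_sub_cancel]
    _ ≤ 1 / 10 ^ 18 + 1 / 10 ^ 20 := (norm_add_le _ _).trans (add_le_add K.qinv_sub_hat h1)
    _ ≤ _ := by norm_num

theorem u_sub_u1 : ‖(K.r : ℂ) * K.ω⁻¹ - u1‖ ≤ 17 / 10 ^ 19 := by
  have h1 : ‖(rHat : ℂ) * conj omHat - u1‖ ≤ 1 / 10 ^ 20 := by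
    refine (Complex.norm_le_abs_re_add_abs_im _).trans ?_
    simp only [u1, cv, omHat, rHat, Complex.sub_re, Complex.sub_im, Complex.conj_re,
      Complex.conj_im, Complex.re_ofReal_mul, Complex.im_ofReal_mul]
    norm_num [abs_le, abs_of_nonneg, abs_of_nonpos]
  have h2 : ‖(K.r : ℂ) * K.ω⁻¹ - (rHat : ℂ) * conj omHat‖ ≤ 15613 / 10 ^ 22 := by
    have e : (K.r : ℂ) * K.ω⁻¹ - (rHat : ℂ) * conj omHat =
        (rHat : ℂ) * (K.ω⁻¹ - conj omHat) + ((K.r - rHat : ℝ) : ℂ) * K.ω⁻¹ := by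
      push_cast
      ring
    rw [e]
    refine (norm_add_le _ _).trans ?_
    rw [norm_mul, norm_mul, norm_inv, K.hω, inv_one, mul_one, Complex.norm_real,
      Complex.norm_real, Real.norm_eq_abs, Real.norm_eq_abs]
    have h4 := K.r_sub_hat
    have h3 := K.oinv_sub_hat
    have h5 : |rHat| ≤ 5613 / 10000 := by
      rw [abs_le]
      constructor <;> norm_num [rHat]
    calc |rHat| * ‖K.ω⁻¹ - conj omHat‖ + |K.r - rHat| ≤
          5613 / 10000 * (1 / 10 ^ 18) + 1 / 10 ^ 18 := by gcongr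
      _ ≤ _ := by norm_num
  calc _ = ‖((K.r : ℂ) * K.ω⁻¹ - (rHat : ℂ) * conj omHat) + ((rHat : ℂ) * conj omHat - u1)‖ := by
        rw [sub_add_sub_cancel]
    _ ≤ _ := norm_add_le _ _
    _ ≤ (15613 / 10 ^ 22) + 1 / 10 ^ 20 := add_le_add h2 h1
    _ ≤ _ := by norm_num

/-- third moment -/
noncomputable def g3 : ℂ := ∑' j : ℕ, ((j : ℂ) + 1) ^ 3 * (K.r : ℂ) ^ (j + 1) * K.xs j

theorem moment_eq {i : ℕ} (hi : i ≠ 0)
    (hs : Summable fun k : ℕ => (k : ℂ) ^ i * tt (K.r * K.ω⁻¹) K.q⁻¹ k) :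
    ∑' j : ℕ, ((j : ℂ) + 1) ^ i * (K.r : ℂ) ^ (j + 1) * K.xs j =
      K.ω * SS i (K.r * K.ω⁻¹) K.q⁻¹ := by
  unfold SS
  rw [hs.tsum_eq_zero_add, Nat.cast_zero, zero_pow hi, zero_mul, zero_add, ← tsum_mul_left]
  congr 1
  ext j
  have := xst_eq (r := K.r) (q := K.q) K.om_ne_zero j
  rw [mul_assoc, xs, this]
  push_cast
  ring

theorem g_eq_SS : K.g = K.ω * SS 1 (K.r * K.ω⁻¹) K.q⁻¹ := by
  have h := K.moment_eq (i := 1) one_ne_zero
    (summable_term K.norm_u_le K.norm_p_eq.le (by norm_num))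
  rw [← h]
  unfold g
  simp only [pow_one]

theorem g2_eq_SS : K.g2 = K.ω * SS 2 (K.r * K.ω⁻¹) K.q⁻¹ :=
  K.moment_eq (i := 2) two_ne_zero (summable_term K.norm_u_le K.norm_p_eq.le (by norm_num))

theorem g3_eq_SS : K.g3 = K.ω * SS 3 (K.r * K.ω⁻¹) K.q⁻¹ :=
  K.moment_eq (i := 3) three_ne_zero (summable_term3 K.norm_u_le K.norm_p_eq.le)

theorem S1_near : ‖SS 1 (K.r * K.ω⁻¹) K.q⁻¹ - cv (-18082757614246032020020540026500566984837)
      (-324000303437077966084934821502183569829)‖ ≤ 24 / 10 ^ 17 := by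
  have h1 := SS1_lip K.norm_u_le norm_u1 K.norm_p_eq.le norm_p1.le
  have h2 := SS1_one
  have h3 := K.u_sub_u1
  have h4 := K.p_sub_p1
  calc _ = ‖(SS 1 (K.r * K.ω⁻¹) K.q⁻¹ - SS 1 u1 p1) + (SS 1 u1 p1 -
        cv (-18082757614246032020020540026500566984837)
      (-324000303437077966084934821502183569829))‖ := by rw [sub_add_sub_cancel]
    _ ≤ (77 * (17 / 10 ^ 19) + 88 * (11 / 10 ^ 19)) + 1 / 10 ^ 30 := by
        refine (norm_add_le _ _).trans (add_le_add (h1.trans ?_) h2)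
        gcongr
    _ ≤ _ := by norm_num

theorem S2_near : ‖SS 2 (K.r * K.ω⁻¹) K.q⁻¹ - cv (-48966548394281516279320008966550252246511)
      (-877364884076895765644484069737586521055)‖ ≤ 12 / 10 ^ 16 := by
  have h1 := SS2_lip K.norm_u_le norm_u1 K.norm_p_eq.le norm_p1.le
  have h2 := SS2_one
  have h3 := K.u_sub_u1
  have h4 := K.p_sub_p1
  calc _ = ‖(SS 2 (K.r * K.ω⁻¹) K.q⁻¹ - SS 2 u1 p1) + (SS 2 u1 p1 -
        cv (-48966548394281516279320008966550252246511)
      (-877364884076895765644484069737586521055))‖ := by rw [sub_add_sub_cancel]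
    _ ≤ (308 * (17 / 10 ^ 19) + 550 * (11 / 10 ^ 19)) + 1 / 10 ^ 28 := by
        refine (norm_add_le _ _).trans (add_le_add (h1.trans ?_) h2)
        gcongr
    _ ≤ _ := by norm_num

theorem S3_near : ‖SS 3 (K.r * K.ω⁻¹) K.q⁻¹ - cv (-199584931185563069180835236061909925469143)
      (-12129606940235263259887240292134037245367)‖ ≤ 1 / 10 ^ 14 := by
  have h1 := SS3_lip K.norm_u_le norm_u1 K.norm_p_eq.le norm_p1.le
  have h2 := SS3_one
  have h3 := K.u_sub_u1
  have h4 := K.p_sub_p1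
  calc _ = ‖(SS 3 (K.r * K.ω⁻¹) K.q⁻¹ - SS 3 u1 p1) + (SS 3 u1 p1 -
        cv (-199584931185563069180835236061909925469143)
      (-12129606940235263259887240292134037245367))‖ := by rw [sub_add_sub_cancel]
    _ ≤ (2000 * (17 / 10 ^ 19) + 5500 * (11 / 10 ^ 19)) + 1 / 10 ^ 20 := by
        refine (norm_add_le _ _).trans (add_le_add (h1.trans ?_) h2)
        gcongr
    _ ≤ _ := by norm_num

theorem norm_g_le : ‖K.g‖ ≤ 1.81 := by
  have h1 := K.S1_near
  have h2 : ‖cv (-18082757614246032020020540026500566984837)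
      (-324000303437077966084934821502183569829)‖ ≤ 1.809 := by
    rw [← abs_norm, ← abs_of_nonneg (show (0 : ℝ) ≤ 1.809 by norm_num), ← sq_le_sq,
      ← Complex.normSq_eq_norm_sq, Complex.normSq_apply]
    simp only [cv]
    norm_num
  rw [K.g_eq_SS, norm_mul, K.hω, one_mul]
  have h3 := norm_sub_norm_le (SS 1 (K.r * K.ω⁻¹) K.q⁻¹)
    (cv (-18082757614246032020020540026500566984837)
      (-324000303437077966084934821502183569829))
  norm_num at h1 h2 h3 ⊢
  linarith

theorem norm_g2_le : ‖K.g2‖ ≤ 4.9 := by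
  have h1 := K.S2_near
  have h2 : ‖cv (-48966548394281516279320008966550252246511)
      (-877364884076895765644484069737586521055)‖ ≤ 4.899 := by
    rw [← abs_norm, ← abs_of_nonneg (show (0 : ℝ) ≤ 4.899 by norm_num), ← sq_le_sq,
      ← Complex.normSq_eq_norm_sq, Complex.normSq_apply]
    simp only [cv]
    norm_num
  rw [K.g2_eq_SS, norm_mul, K.hω, one_mul]
  have h3 := norm_sub_norm_le (SS 2 (K.r * K.ω⁻¹) K.q⁻¹)
    (cv (-48966548394281516279320008966550252246511)
      (-877364884076895765644484069737586521055))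
  norm_num at h1 h2 h3 ⊢
  linarith

/-- reference value of `g` -/
noncomputable def gRef : ℂ :=
  cv 17901012151644715447838886144203848400310 2577763192938482746609346695100945134835

/-- reference value of `g2` -/
noncomputable def g2Ref : ℂ :=
  cv 48474397352954874270187709813406527039262 6980360453240683724804272763343055590637

theorem g_near : ‖K.g - gRef‖ ≤ 25 / 10 ^ 17 := by
  have h1 := K.S1_near
  have h2 : ‖omHat * cv (-18082757614246032020020540026500566984837)
      (-324000303437077966084934821502183569829) - gRef‖ ≤ 1 / 10 ^ 30 := by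
    refine (Complex.norm_le_abs_re_add_abs_im _).trans ?_
    simp only [gRef, cv, omHat, Complex.sub_re, Complex.sub_im, Complex.mul_re, Complex.mul_im]
    norm_num [abs_le, abs_of_nonneg, abs_of_nonpos]
  have h3 : ‖cv (-18082757614246032020020540026500566984837)
      (-324000303437077966084934821502183569829)‖ ≤ 1.809 := by
    rw [← abs_norm, ← abs_of_nonneg (show (0 : ℝ) ≤ 1.809 by norm_num), ← sq_le_sq,
      ← Complex.normSq_eq_norm_sq, Complex.normSq_apply]
    simp only [cv]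
    norm_num
  have h4 := K.hωe
  have e : K.g - gRef = K.ω * (SS 1 (K.r * K.ω⁻¹) K.q⁻¹ -
      cv (-18082757614246032020020540026500566984837)
      (-324000303437077966084934821502183569829)) + (K.ω - omHat) *
      cv (-18082757614246032020020540026500566984837)
      (-324000303437077966084934821502183569829) +
      (omHat * cv (-18082757614246032020020540026500566984837)
      (-324000303437077966084934821502183569829) - gRef) := by
    rw [K.g_eq_SS]
    ring
  rw [e]
  refine norm_add₃_le.trans ?_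
  rw [norm_mul, norm_mul, K.hω, one_mul]
  calc _ ≤ (24 / 10 ^ 17 + 1e-18 * 1.809 + 1 / 10 ^ 30 : ℝ) := by gcongr
    _ ≤ _ := by norm_num

theorem g2_near : ‖K.g2 - g2Ref‖ ≤ 13 / 10 ^ 16 := by
  have h1 := K.S2_near
  have h2 : ‖omHat * cv (-48966548394281516279320008966550252246511)
      (-877364884076895765644484069737586521055) - g2Ref‖ ≤ 1 / 10 ^ 30 := by
    refine (Complex.norm_le_abs_re_add_abs_im _).trans ?_
    simp only [g2Ref, cv, omHat, Complex.sub_re, Complex.sub_im, Complex.mul_re, Complex.mul_im]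
    norm_num [abs_le, abs_of_nonneg, abs_of_nonpos]
  have h3 : ‖cv (-48966548394281516279320008966550252246511)
      (-877364884076895765644484069737586521055)‖ ≤ 4.899 := by
    rw [← abs_norm, ← abs_of_nonneg (show (0 : ℝ) ≤ 4.899 by norm_num), ← sq_le_sq,
      ← Complex.normSq_eq_norm_sq, Complex.normSq_apply]
    simp only [cv]
    norm_num
  have h4 := K.hωe
  have e : K.g2 - g2Ref = K.ω * (SS 2 (K.r * K.ω⁻¹) K.q⁻¹ -
      cv (-48966548394281516279320008966550252246511)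
      (-877364884076895765644484069737586521055)) + (K.ω - omHat) *
      cv (-48966548394281516279320008966550252246511)
      (-877364884076895765644484069737586521055) +
      (omHat * cv (-48966548394281516279320008966550252246511)
      (-877364884076895765644484069737586521055) - g2Ref) := by
    rw [K.g2_eq_SS]
    ring
  rw [e]
  refine norm_add₃_le.trans ?_
  rw [norm_mul, norm_mul, K.hω, one_mul]
  calc _ ≤ (12 / 10 ^ 16 + 1e-18 * 4.899 + 1 / 10 ^ 30 : ℝ) := by gcongr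
    _ ≤ _ := by norm_num

/-- quotient `g2 / g` -/
theorem g2_div_near : ‖K.g2 / K.g - ⟨2.7079137728254, 0⟩‖ ≤ 1 / 10 ^ 12 := by
  have h1 := K.S1_near
  have h2 := K.S2_near
  have hg := K.g_norm_ge
  have hω := K.om_ne_zero
  have hS : ‖SS 1 (K.r * K.ω⁻¹) K.q⁻¹‖ = ‖K.g‖ := by
    rw [K.g_eq_SS, norm_mul, K.hω, one_mul]
  have hS0 : SS 1 (K.r * K.ω⁻¹) K.q⁻¹ ≠ 0 := by
    rw [← norm_ne_zero_iff, hS]
    linarith
  have e : K.g2 / K.g = SS 2 (K.r * K.ω⁻¹) K.q⁻¹ / SS 1 (K.r * K.ω⁻¹) K.q⁻¹ := by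
    rw [K.g_eq_SS, K.g2_eq_SS]
    field_simp
  have h3 : ‖cv (-48966548394281516279320008966550252246511)
      (-877364884076895765644484069737586521055) - (⟨2.7079137728254, 0⟩ : ℂ) *
      cv (-18082757614246032020020540026500566984837)
      (-324000303437077966084934821502183569829)‖ ≤ 1 / 10 ^ 12 := by
    refine (Complex.norm_le_abs_re_add_abs_im _).trans ?_
    simp only [cv, Complex.sub_re, Complex.sub_im, Complex.mul_re, Complex.mul_im]
    norm_num [abs_le, abs_of_nonneg, abs_of_nonpos]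
  have h4 : ‖(⟨2.7079137728254, 0⟩ : ℂ)‖ ≤ 3 := by
    refine (Complex.norm_le_abs_re_add_abs_im _).trans ?_
    norm_num [abs_of_nonneg]
  rw [e, div_sub' hS0, norm_div, div_le_iff₀ (by rw [hS]; linarith), hS]
  have e2 : SS 2 (K.r * K.ω⁻¹) K.q⁻¹ - SS 1 (K.r * K.ω⁻¹) K.q⁻¹ * (⟨2.7079137728254, 0⟩ : ℂ) =
      (SS 2 (K.r * K.ω⁻¹) K.q⁻¹ - cv (-48966548394281516279320008966550252246511)
      (-877364884076895765644484069737586521055)) +
      (cv (-48966548394281516279320008966550252246511)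
      (-877364884076895765644484069737586521055) - (⟨2.7079137728254, 0⟩ : ℂ) *
      cv (-18082757614246032020020540026500566984837)
      (-324000303437077966084934821502183569829)) +
      (-(⟨2.7079137728254, 0⟩ : ℂ)) * (SS 1 (K.r * K.ω⁻¹) K.q⁻¹ -
      cv (-18082757614246032020020540026500566984837)
      (-324000303437077966084934821502183569829)) := by ring
  rw [e2]
  refine norm_add₃_le.trans ?_
  rw [norm_mul, norm_neg]
  calc _ ≤ (12 / 10 ^ 16 + 1 / 10 ^ 12 + 3 * (24 / 10 ^ 17) : ℝ) := by gcongr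
    _ ≤ 1 / 10 ^ 12 * 1.8 := by norm_num
    _ ≤ _ := by gcongr

theorem g3_div_near : ‖K.g3 / K.g - ⟨11.0457788059634, 0.4728687646992⟩‖ ≤ 1 / 10 ^ 12 := by
  have h1 := K.S1_near
  have h2 := K.S3_near
  have hg := K.g_norm_ge
  have hω := K.om_ne_zero
  have hS : ‖SS 1 (K.r * K.ω⁻¹) K.q⁻¹‖ = ‖K.g‖ := by
    rw [K.g_eq_SS, norm_mul, K.hω, one_mul]
  have hS0 : SS 1 (K.r * K.ω⁻¹) K.q⁻¹ ≠ 0 := by
    rw [← norm_ne_zero_iff, hS]
    linarith
  have e : K.g3 / K.g = SS 3 (K.r * K.ω⁻¹) K.q⁻¹ / SS 1 (K.r * K.ω⁻¹) K.q⁻¹ := by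
    rw [K.g_eq_SS, K.g3_eq_SS]
    field_simp
  have h3 : ‖cv (-199584931185563069180835236061909925469143)
      (-12129606940235263259887240292134037245367) -
      (⟨11.0457788059634, 0.4728687646992⟩ : ℂ) *
      cv (-18082757614246032020020540026500566984837)
      (-324000303437077966084934821502183569829)‖ ≤ 1 / 10 ^ 12 := by
    refine (Complex.norm_le_abs_re_add_abs_im _).trans ?_
    simp only [cv, Complex.sub_re, Complex.sub_im, Complex.mul_re, Complex.mul_im]
    norm_num [abs_le, abs_of_nonneg, abs_of_nonpos]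
  have h4 : ‖(⟨11.0457788059634, 0.4728687646992⟩ : ℂ)‖ ≤ 12 := by
    refine (Complex.norm_le_abs_re_add_abs_im _).trans ?_
    norm_num [abs_of_nonneg]
  rw [e, div_sub' hS0, norm_div, div_le_iff₀ (by rw [hS]; linarith), hS]
  have e2 : SS 3 (K.r * K.ω⁻¹) K.q⁻¹ - SS 1 (K.r * K.ω⁻¹) K.q⁻¹ *
      (⟨11.0457788059634, 0.4728687646992⟩ : ℂ) =
      (SS 3 (K.r * K.ω⁻¹) K.q⁻¹ - cv (-199584931185563069180835236061909925469143)
      (-12129606940235263259887240292134037245367)) +
      (cv (-199584931185563069180835236061909925469143)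
      (-12129606940235263259887240292134037245367) -
      (⟨11.0457788059634, 0.4728687646992⟩ : ℂ) *
      cv (-18082757614246032020020540026500566984837)
      (-324000303437077966084934821502183569829)) +
      (-(⟨11.0457788059634, 0.4728687646992⟩ : ℂ)) * (SS 1 (K.r * K.ω⁻¹) K.q⁻¹ -
      cv (-18082757614246032020020540026500566984837)
      (-324000303437077966084934821502183569829)) := by ring
  rw [e2]
  refine norm_add₃_le.trans ?_
  rw [norm_mul, norm_neg]
  calc _ ≤ (1 / 10 ^ 14 + 1 / 10 ^ 12 + 12 * (24 / 10 ^ 17) : ℝ) := by gcongr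
    _ ≤ 1 / 10 ^ 12 * 1.8 := by norm_num
    _ ≤ _ := by gcongr

end Crit

end Pool.Agent.H93
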