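import Pool.Agent.Lib.H93.Defs

/-!
Chunk A: upper bound reduction.
-/

namespace Pool.Agent.H93

open Filter Topology
open scoped ENNReal NNReal

/-- dividing `S_{n+1}(z) = 0` by `z^{n+1}`. -/
theorem control_of_zero {a : ℕ → ℂ} {n : ℕ} {z : ℂ} (hz : z ≠ 0)
    (h : partialSum a (n + 1) z = 0) :
    a (n + 1) = - ∑ j ∈ Finset.range (n + 1), (z⁻¹) ^ (j + 1) * a (n - j) := by
  unfold partialSum at h
  rw [Finset.sum_range_succ] at h
  have hzn : z ^ (n + 1) ≠ 0 := pow_ne_zero _ hz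
  have h1 : a (n + 1) * z ^ (n + 1) =
      (- ∑ j ∈ Finset.range (n + 1), (z⁻¹) ^ (j + 1) * a (n - j)) * z ^ (n + 1) := by
    rw [neg_mul, Finset.sum_mul]
    have h2 : ∑ j ∈ Finset.range (n + 1), (z⁻¹) ^ (j + 1) * a (n - j) * z ^ (n + 1) =
        ∑ k ∈ Finset.range (n + 1), a k * z ^ k := by
      rw [← Finset.sum_range_reflect (fun k => a k * z ^ k)]
      refine Finset.sum_congr rfl fun j hj => ?_
      have hj' := Finset.mem_range.mp hj
      have e1 : n + 1 - 1 - j = n - j := by omega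
      have e2 : n + 1 = (j + 1) + (n - j) := by omega
      rw [e1]
      have e3 : (z⁻¹) ^ (j + 1) * z ^ (n + 1) = z ^ (n - j) := by
        have : z ^ (n + 1) = z ^ (j + 1) * z ^ (n - j) := by
          rw [← pow_add]
          congr 1
        rw [this, ← mul_assoc, inv_pow, inv_mul_cancel₀ (pow_ne_zero _ hz), one_mul]
      calc (z⁻¹) ^ (j + 1) * a (n - j) * z ^ (n + 1)
          = a (n - j) * ((z⁻¹) ^ (j + 1) * z ^ (n + 1)) := by ring
        _ = _ := by rw [e3]
    rw [h2]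
    linear_combination h
  exact mul_right_cancel₀ hzn h1

/-- If all controlled sequences with controls in the disc of radius `r < 1` are bounded, then the
power series constant is at most `1 / r`.

Proof. Let `f = ∑ a_k z^k` have radius of convergence `1` and suppose `liminf ρ_n > 1/r`. Then for
some `δ > 0` and all `n ≥ N`, `ρ_{n+1} > (1+δ)/r`, so `S_{n+1}` has a zero `z` with
`|z| > (1+δ)/r`; with `w' = 1/z`, `|w'| < r/(1+δ)`, the equation `S_{n+1}(z) = 0` reads
`a_{n+1} = - ∑_{j ≤ n} w'^{j+1} a_{n-j}`. Put `b_n = (1+δ)^n a_n`, `w = (1+δ) w'`: then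
`b_{n+1} = - ∑_{j≤n} w^{j+1} b_{n-j}` and `|w| ≤ r`. Hence `|b_n| ≤ C`, `|a_n| ≤ C (1+δ)^{-n}` and
the radius of convergence is at least `1+δ`, a contradiction. -/
theorem upper_of_boundedControls {r : ℝ} (hr0 : 0 < r) (hr1 : r < 1) (H : BoundedControls r) :
    powerSeriesConstant ≤ ENNReal.ofReal (1 / r) := by
  refine iSup₂_le fun a hR => ?_
  by_contra hcon
  rw [not_le, ENNReal.lt_iff_exists_real_btwn] at hcon
  obtain ⟨t, ht0, ht1, ht2⟩ := hcon
  have hrt : 1 / r < t := (ENNReal.ofReal_lt_ofReal_iff_of_nonneg (by positivity)).mp ht1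
  have htpos : 0 < t := (by positivity : (0 : ℝ) < 1 / r).trans hrt
  have hev := eventually_lt_of_lt_liminf ht2
  rw [eventually_atTop] at hev
  obtain ⟨N, hN⟩ := hev
  have hκ : 1 < r * t := by
    rw [div_lt_iff₀ hr0] at hrt
    linarith
  set κ : ℝ := r * t with hκdef
  have hκpos : 0 < κ := by linarith
  have hctrl : ∀ n, N ≤ n → ∃ w : ℂ, ‖w‖ ≤ r ∧
      (κ : ℂ) ^ (n + 1) * a (n + 1) =
        - ∑ j ∈ Finset.range (n + 1), w ^ (j + 1) * ((κ : ℂ) ^ (n - j) * a (n - j)) := by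
    intro n hn
    have h1 := hN (n + 1) (by omega)
    unfold maxZeroModulus at h1
    simp only [lt_iSup_iff] at h1
    obtain ⟨z, hz, hz2⟩ := h1
    have hz3 : t < ‖z‖ := by
      have : ((‖z‖₊ : ℝ≥0) : ℝ≥0∞) = ENNReal.ofReal ‖z‖ := by
        rw [ofReal_norm, enorm_eq_nnnorm]
      rw [this] at hz2
      exact (ENNReal.ofReal_lt_ofReal_iff_of_nonneg ht0).mp hz2
    have hzpos : 0 < ‖z‖ := htpos.trans hz3
    have hz0 : z ≠ 0 := norm_pos_iff.mp hzpos
    refine ⟨κ * z⁻¹, ?_, ?_⟩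
    · rw [norm_mul, norm_inv, Complex.norm_real, Real.norm_of_nonneg hκpos.le, hκdef]
      rw [← div_eq_mul_inv, div_le_iff₀ hzpos]
      exact mul_le_mul_of_nonneg_left hz3.le hr0.le
    · rw [control_of_zero hz0 hz, mul_neg, Finset.mul_sum]
      congr 1
      refine Finset.sum_congr rfl fun j hj => ?_
      have hj' := Finset.mem_range.mp hj
      have e : (κ : ℂ) ^ (n + 1) = (κ : ℂ) ^ (j + 1) * (κ : ℂ) ^ (n - j) := by
        rw [← pow_add]
        congr 1
        omega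
      rw [e, mul_pow]
      ring
  obtain ⟨C, hC⟩ := H (fun n => (κ : ℂ) ^ n * a n) N hctrl
  have hle : ((κ.toNNReal : ℝ≥0) : ℝ≥0∞) ≤ (FormalMultilinearSeries.ofScalars ℂ a).radius := by
    refine FormalMultilinearSeries.le_radius_of_bound _ C fun n => ?_
    rw [FormalMultilinearSeries.ofScalars_norm, Real.coe_toNNReal _ hκpos.le]
    have := hC n
    rw [norm_mul, norm_pow, Complex.norm_real, Real.norm_of_nonneg hκpos.le] at this
    rw [mul_comm]
    exact this
  unfold RadiusOne at hR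
  rw [hR] at hle
  have h2 : (κ.toNNReal : ℝ≥0) ≤ 1 := by exact_mod_cast hle
  rw [Real.toNNReal_le_one] at h2
  linarith

end Pool.Agent.H93
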