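import Pool.Agent.Lib.H93.Exact
import Pool.Agent.Lib.H93.Chord

/-!
MP_fb0703_an: definitions of the certificate words (chunk E).
-/

namespace Pool.Agent.H93

open Filter Topology ComplexConjugate

/-- truncation to the first `m` coordinates -/
def trunc (m : ℕ) (x : ℕ → ℂ) : ℕ → ℂ := fun j => if j < m then x j else 0

/-- one column of a certificate: form index (0..4), conjugation flag, rotation
`unitQ (p, q)`, weight `mu / 2^40` -/
structure Col where
  nd : ℕ
  cj : Bool
  u : ℤ × ℤ
  mu : ℕ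

/-- data of one matrix inequality (at a point of the circle) -/
structure Word where
  /-- form index of the target (0..4) -/
  node : ℕ
  /-- dimension (`m = 16`, or `16 ≤ m ≤ 40` for node 0) -/
  m : ℕ
  /-- the point `ζ = unitQ z` -/
  z : ℤ × ℤ
  cols : List Col
  /-- weights of the coordinate terms `‖x_l‖² / X²`, scale `2^40` -/
  nu : List ℕ
  /-- lower triangular factor, scale `2^54`: row `i` is the number
  `∑_{k ≤ i} ((a_k + 2^57) + (b_k + 2^57) 2^58) 2^(116 k)` for the entries `(a_k + b_k i) / 2^54` -/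
  L : List ℕ

/-- applied column: `rot u x` or `rot u (conj x)` -/
noncomputable def Col.act (c : Col) (x : ℕ → ℂ) : ℕ → ℂ :=
  rot (unitQ c.u) (if c.cj then cjs x else x)

/-- truncated form: the first 40 functionals evaluated at the truncated sequence -/
noncomputable def Crit.NT (K : Crit) (b m : ℕ) (x : ℕ → ℂ) : ℝ :=
  ∑ k ∈ Finset.range 40, ‖K.lam b (trunc m x) k‖ ^ 2

/-- the value of the right hand side at `x` -/
noncomputable def Word.rhs (K : Crit) (W : Word) (x : ℕ → ℂ) : ℝ :=
  (W.cols.map fun c => ((c.mu : ℝ) / 2 ^ 40) * K.NT c.nd W.m (c.act x)).sum +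
    ((List.range W.m).map fun l => ((W.nu.getD l 0 : ℝ) / 2 ^ 40) * (‖x l‖ ^ 2 / XX ^ 2)).sum

/-- rank one target: `|∑_{j<m} f_j x_j|²` with real integer vector `f` (scale `2^40`) -/
structure RWord where
  m : ℕ
  f : List ℤ
  cols : List Col
  nu : List ℕ
  L : List ℕ

noncomputable def RWord.rhs (K : Crit) (W : RWord) (x : ℕ → ℂ) : ℝ :=
  (W.cols.map fun c => ((c.mu : ℝ) / 2 ^ 40) * K.NT c.nd W.m (c.act x)).sum +
    ((List.range W.m).map fun l => ((W.nu.getD l 0 : ℝ) / 2 ^ 40) * (‖x l‖ ^ 2 / XX ^ 2)).sum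

end Pool.Agent.H93
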