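import Pool.Agent.Lib.H93.GramCodeSpec
import Pool.Agent.Lib.H93.WordDefs

/-!
MP_fb0703_an, chunk E: the kernel evaluable checker of one matrix inequality.
-/

namespace Pool.Agent.H93

namespace Lmi

/-- `2 ^ 60` -/
def E60 : ℕ := 1152921504606846976

/-- `NN - 2 ^ 60` -/
def mE60 : ℕ := 13407807929942597099574024998205846127479365820592393377723561443721764030073546976801874298166903427690031858186486050853753882811946568793512144399237121

/-- `r` at scale `2 ^ 60` (entry `1` of `tabR`) -/
def r60 : ℕ := 647052709823805554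

/-- `⌊2 ^ 160 * 625 / 784⌋` -/
def cX : ℕ := 1165100157310987658006764056693465417455303366530

/-- `NN - 2 ^ 120` -/
def mE120 : ℕ := 13407807929942597099574024998205846127479365820592393377723561443721764030073546976801874298166903427690031858186486049524525887027030697042626588725739521

/-- square modulo `NN` -/
noncomputable def sqm (x : ℕ) : ℕ := Nat.mod (Nat.mul x x) NN

/-- rows of one column -/
noncomputable def colRows (m : ℕ) (c : Col) : List (List ℕ) :=
  Bool.rec
    (rmul (smul (Nat.mul c.mu 1048576) (pw (sqm (cpairc c.u)) (nrm c.u) m E60)) (cM c.nd))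
    (rmul (smul (Nat.mul c.mu 1048576) (pw (sqm (cpair c.u)) (nrm c.u) m E60)) (cC c.nd)) c.cj

/-- rows of all columns -/
noncomputable def colsRows (m : ℕ) (cs : List Col) : List (List ℕ) :=
  List.rec [] (fun c _ ih => zzadd (colRows m c) ih) cs

/-- rows of minus the target -/
noncomputable def targetRows (b m : ℕ) (z : ℤ × ℤ) : List (List ℕ) :=
  arows (hd (hdr (cM b))) cNQ
    (pw (Nat.mod (Nat.mul (sqm (cpair z)) r60) NN) (Nat.mul (nrm z) E60) m
      (step (Nat.mod (Nat.mul (sqm (cpair z)) r60) NN) (Nat.mul (nrm z) E60) mE60))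
    (pw (Nat.mod (Nat.mul (sqm (cpairc z)) r60) NN) (Nat.mul (nrm z) E60) m
      (step (Nat.mod (Nat.mul (sqm (cpairc z)) r60) NN) (Nat.mul (nrm z) E60) E60))
    (cV b) (cW b) (tlr (cM b)) [] []

/-- conditions on the columns -/
noncomputable def colsOK (cs : List Col) : Bool :=
  List.rec true (fun c _ ih => and (Nat.ble c.nd 4) (and (Nat.ble 1 (nrm c.u))
    (and (Nat.ble (nrm c.u) 1267650600228229401496703205376) ih))) cs

noncomputable def muSum (cs : List Col) : ℕ := List.rec 0 (fun c _ ih => Nat.add c.mu ih) cs

noncomputable def nuSum (l : List ℕ) : ℕ := List.rec 0 (fun x _ ih => Nat.add x ih) l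

noncomputable def llen (l : List ℕ) : ℕ := List.rec 0 (fun _ _ ih => Nat.succ ih) l

/-- common conditions: number of rows of the factor, dimension, columns, weights -/
noncomputable def wOK (m : ℕ) (cs : List Col) (nu L : List ℕ) : Bool :=
  and (Nat.beq (llen L) m) (and (Nat.ble m 40) (and (colsOK cs)
    (and (Nat.ble (muSum cs) 1429365116108) (Nat.ble (nuSum nu) 2199023255552))))

end Lmi

open Lmi

/-- the checker: it implies the matrix inequality up to rounding. -/
noncomputable def Word.check (W : Word) : Bool :=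
  and (wOK W.m W.cols W.nu W.L) (and (Nat.ble W.node 4) (and (Nat.ble 1 (nrm W.z))
    (and (Nat.ble (nrm W.z) 1267650600228229401496703205376) (and (Nat.ble 1 W.m)
      (chkAll W.L 0 [] (zzadd (drows cX W.nu)
        (zzadd (colsRows W.m W.cols) (targetRows W.node W.m W.z))))))))

/-- codes of the integers `f` -/
noncomputable def Lmi.fcodes (f : List ℤ) : List ℕ := List.rec [] (fun a _ ih => icode a :: ih) f

noncomputable def Lmi.fOK (f : List ℤ) : Bool :=
  List.rec true (fun a _ ih => and (Nat.ble (absI a) 2199023255552) ih) f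

noncomputable def Lmi.flen (f : List ℤ) : ℕ := List.rec 0 (fun _ _ ih => Nat.succ ih) f

noncomputable def RWord.check (W : RWord) : Bool :=
  and (wOK W.m W.cols W.nu W.L) (and (fOK W.f) (and (Nat.beq (flen W.f) W.m)
    (chkAll W.L 0 [] (zzadd (drows cX W.nu)
      (zzadd (colsRows W.m W.cols) (frows mE120 (fcodes W.f) []))))))

end Pool.Agent.H93
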